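import Pool.Agent.Lib.MP_8528c3_al.StA

/-!
# Burnside project, A1: halving
-/

namespace BSD

namespace A1

/-- The tail of a sum. -/
theorem sum_tail (f : ℕ → ℝ) (m n : ℕ) (h : m ≤ n) :
    ∑ i ∈ Finset.range (n - m), f (m + i) = ∑ i ∈ Finset.range n, f i - ∑ i ∈ Finset.range m, f i := by
  have h1 := Finset.sum_range_add_sum_Ico f h
  have h2 : ∑ i ∈ Finset.Ico m n, f i = ∑ i ∈ Finset.range (n - m), f (m + i) :=
    Finset.sum_Ico_eq_sum_range f m n
  linarith

/-- The sum of the steps bounds the distance of the ends. -/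
theorem dist_le {X : Type} (M : PM X) (z : ℕ → X) (n : ℕ) :
    M.d (z 0) (z n) ≤ ∑ i ∈ Finset.range n, M.d (z i) (z (i + 1)) := by
  induction n with
  | zero => simp [M.self]
  | succ n ih =>
    rw [Finset.sum_range_succ]
    have := M.tri (z 0) (z n) (z (n + 1))
    linarith

end A1

theorem burn_A1 : stA1 := by
  intro X M L h σ hh hσ H k
  induction k with
  | zero =>
    intro n z hz hs w hw
    refine ⟨0, Nat.zero_le _, ?_⟩
    have h1 := A1.dist_le M z n
    have h2 : M.d (z 0) (z n) ≤ σ := by
      rw [pow_zero, one_mul] at hs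
      exact h1.trans hs
    have h3 := H.short _ _ h2 w hw
    rw [M.symm w (z 0)]
    simpa using h3
  | succ k ih =>
    intro n z hz hs w hw
    have hσk : 0 ≤ 2 ^ k * σ := by positivity
    have hpow : (2 : ℝ) ^ (k + 1) * σ = 2 ^ k * σ + 2 ^ k * σ := by
      rw [pow_succ]
      ring
    have hcast : ((k + 1 : ℕ) : ℝ) = k + 1 := by push_cast; rfl
    have hk0 : (0 : ℝ) ≤ k := Nat.cast_nonneg k
    set S : ℕ → ℝ := fun m => ∑ i ∈ Finset.range m, M.d (z i) (z (i + 1)) with hS
    set j := Nat.findGreatest (fun m => S m ≤ 2 ^ k * σ) n with hj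
    have hjn : j ≤ n := Nat.findGreatest_le n
    have hS0 : S 0 ≤ 2 ^ k * σ := by
      have : S 0 = 0 := by simp [hS]
      rw [this]
      exact hσk
    have hSj : S j ≤ 2 ^ k * σ :=
      Nat.findGreatest_spec (P := fun m => S m ≤ 2 ^ k * σ) (Nat.zero_le n) hS0
    rw [hcast]
    rcases hjn.lt_or_eq with hlt | heq
    · have hS1 : 2 ^ k * σ < S (j + 1) := by
        by_contra hc
        have h1 : j + 1 ≤ Nat.findGreatest (fun m => S m ≤ 2 ^ k * σ) n :=
          Nat.le_findGreatest hlt (not_lt.1 hc)
        rw [← hj] at h1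
        omega
      obtain ⟨w', hw', hd⟩ := H.thin (z 0) (z n) (z j) w hw
      rcases hw' with hw' | hw'
      · obtain ⟨i, hi, hdi⟩ := ih j z (fun i hi => hz i (lt_of_lt_of_le hi hjn)) hSj w' hw'
        refine ⟨i, hi.trans hjn, ?_⟩
        have h1 := M.tri w w' (z i)
        nlinarith
      · obtain ⟨w'', hw'', hd'⟩ := H.thin (z j) (z n) (z (j + 1)) w' hw'
        rcases hw'' with hw'' | hw''
        · have h1 := H.short _ _ (hz j hlt) w'' hw''
          refine ⟨j, hjn, ?_⟩
          have h2 := M.tri w w' (z j)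
          have h3 := M.tri w' w'' (z j)
          rw [M.symm w'' (z j)] at h3
          nlinarith
        · have h1 : j + 1 ≤ n := hlt
          have hsum : ∑ i ∈ Finset.range (n - (j + 1)), M.d (z (j + 1 + i)) (z (j + 1 + (i + 1))) ≤
              2 ^ k * σ := by
            have h2 := A1.sum_tail (fun i => M.d (z i) (z (i + 1))) (j + 1) n h1
            have h3 : ∑ i ∈ Finset.range (n - (j + 1)), M.d (z (j + 1 + i)) (z (j + 1 + (i + 1))) =
                ∑ i ∈ Finset.range (n - (j + 1)), M.d (z (j + 1 + i)) (z (j + 1 + i + 1)) := rfl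
            rw [h3, h2]
            have h4 : S (j + 1) = ∑ i ∈ Finset.range (j + 1), M.d (z i) (z (i + 1)) := rfl
            rw [← h4]
            linarith
          have hend : z (j + 1 + (n - (j + 1))) = z n := by
            congr 1
            omega
          obtain ⟨i, hi, hdi⟩ := ih (n - (j + 1)) (fun i => z (j + 1 + i))
            (fun i hi => hz (j + 1 + i) (by omega)) hsum w'' (by
              show w'' ∈ L (z (j + 1 + 0)) (z (j + 1 + (n - (j + 1))))
              rw [hend]
              exact hw'')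
          refine ⟨j + 1 + i, by omega, ?_⟩
          have h2 := M.tri w w' (z (j + 1 + i))
          have h3 := M.tri w' w'' (z (j + 1 + i))
          have h4 : M.d w'' (z (j + 1 + i)) ≤ (2 * (k : ℝ) + 1) * h := hdi
          nlinarith
    · rw [heq] at hSj
      obtain ⟨i, hi, hdi⟩ := ih n z hz hSj w hw
      exact ⟨i, hi, hdi.trans (by nlinarith)⟩

end BSD
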