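import Pool.Agent.Lib.MP_8528c3_al.Defs

/-!
# Burnside project, part A: guessing geodesics, and general facts on hyperbolic spaces.
Statements only.
-/

namespace BSD

/-- Hypotheses of the guessing geodesics lemma. -/
structure GGH {X : Type} (M : PM X) (L : X → X → Set X) (h σ : ℝ) : Prop where
  thin : ∀ a b c, ∀ w ∈ L a b, ∃ w', (w' ∈ L a c ∨ w' ∈ L c b) ∧ M.d w w' ≤ h
  short : ∀ a b, M.d a b ≤ σ → ∀ w ∈ L a b, M.d a w ≤ h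
  centre : ∀ a b c, ∃ p, (∃ w ∈ L a b, M.d p w ≤ h) ∧ (∃ w ∈ L b c, M.d p w ≤ h) ∧
    (∃ w ∈ L a c, M.d p w ≤ h)

/-- A1: halving. -/
def stA1 : Prop := ∀ (X : Type) (M : PM X) (L : X → X → Set X) (h σ : ℝ), 0 ≤ h → 0 < σ →
  GGH M L h σ → ∀ (k n : ℕ) (z : ℕ → X), (∀ i < n, M.d (z i) (z (i + 1)) ≤ σ) →
  ∑ i ∈ Finset.range n, M.d (z i) (z (i + 1)) ≤ 2 ^ k * σ →
  ∀ w ∈ L (z 0) (z n), ∃ i ≤ n, M.d w (z i) ≤ (2 * k + 1) * h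

/-- A2: uniform bound. -/
def stA2 : Prop := ∀ h σ : ℝ, 0 ≤ h → 0 < σ → ∃ T : ℝ, 0 ≤ T ∧
  ∀ (X : Type) (M : PM X) (L : X → X → Set X), M.SG σ → GGH M L h σ →
  ∀ x y, ∀ w ∈ L x y, M.gp x y w ≤ T

/-- A3: hyperbolicity. -/
def stA3 : Prop := ∀ (X : Type) (M : PM X) (L : X → X → Set X) (h σ T : ℝ), 0 ≤ h →
  GGH M L h σ → (∀ x y, ∀ w ∈ L x y, M.gp x y w ≤ T) → M.Hyp (3 * T + 4 * h)

/-- A4: points on almost geodesics. -/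
def stA4 : Prop := ∀ (X : Type) (M : PM X) (σ : ℝ), 0 ≤ σ → M.SG σ → ∀ (x y : X) (t η : ℝ),
  0 ≤ t → t ≤ M.d x y → 0 < η → ∃ z, M.gp x y z ≤ η ∧ |M.d x z - t| ≤ σ + η

/-- A5: identities and inequalities for Gromov products. -/
def stA5 : Prop := ∀ (X : Type) (M : PM X) (x y z p o : X),
  M.gp x y o = M.gp y x o ∧ 0 ≤ M.gp x y o ∧ M.gp x y o ≤ M.d x o ∧ M.gp x y o ≤ M.d y o ∧
  M.gp x x o = M.d x o ∧
  M.gp x y p ≤ M.gp x y o + M.d p o ∧ M.gp x y o ≤ M.gp z y o + M.d x z ∧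
  M.gp x y p = M.d p o + M.gp x y o - M.gp x p o - M.gp y p o ∧
  M.gp x o y + M.gp y o x = M.d x y ∧
  M.gp x y o ≤ M.gp x p o + M.gp x y p ∧
  M.gp x y o + M.gp y o x = M.d x o

/-- A6: medians exist in a hyperbolic almost geodesic space. -/
def stA6 : Prop := ∀ (X : Type) (M : PM X) (δ σ η : ℝ), 0 ≤ δ → 0 ≤ σ → 0 < η → M.SG σ →
  M.Hyp δ → ∀ x y z, ∃ o, M.gp x y o ≤ η ∧ M.gp x z o ≤ δ + 2 * σ + η ∧
    M.gp y z o ≤ δ + 2 * σ + η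

/-- A7: medians are coarsely unique. -/
def stA7 : Prop := ∀ (X : Type) (M : PM X) (δ K K' : ℝ), M.Hyp δ → ∀ x y z o p,
  M.gp x y o ≤ K → M.gp y z o ≤ K → M.gp x z o ≤ K →
  M.gp x y p ≤ K' → M.gp y z p ≤ K' → M.gp x z p ≤ K' → M.d p o ≤ K' + 2 * K + 2 * δ

/-- A8: a median of `a,b,c` is a median of two of them and any fourth point. -/
def stA8 : Prop := ∀ (X : Type) (M : PM X) (δ K : ℝ), M.Hyp δ → ∀ a b c e o,
  M.gp a b o ≤ K → M.gp b c o ≤ K → M.gp a c o ≤ K →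
  (M.gp a e o ≤ K + δ ∧ M.gp b e o ≤ K + δ) ∨ (M.gp b e o ≤ K + δ ∧ M.gp c e o ≤ K + δ) ∨
  (M.gp a e o ≤ K + δ ∧ M.gp c e o ≤ K + δ)

/-- A9: four point inequality in distance form. -/
def stA9 : Prop := ∀ (X : Type) (M : PM X) (δ : ℝ), M.Hyp δ → ∀ x y z w,
  M.d x z + M.d y w ≤ max (M.d x y + M.d z w) (M.d x w + M.d y z) + 2 * δ

/-- A10: position and distance from a segment. -/
def stA10 : Prop := ∀ (X : Type) (M : PM X) (δ : ℝ), M.Hyp δ → ∀ x y z z',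
  |M.gp z y x - M.gp z' y x| ≤ M.d z z' ∧
  M.d z z' ≤ |M.gp z y x - M.gp z' y x| + M.gp x y z + M.gp x y z' + 2 * δ

end BSD
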