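import Mathlib
import Pool.Agent.Lib.MP_8528c3_al.StA

set_option autoImplicit false

/-!
# Burnside project, A10: position and distance from a segment
-/

namespace BSD

theorem burn_A10 (h9 : stA9) : stA10 := by
  intro X M δ hyp x y z z'
  have h1 := M.tri z z' x
  have h2 := M.tri z' z x
  have h3 := M.tri z z' y
  have h4 := M.tri z' z y
  have s1 := M.symm z z'
  have s2 := M.symm z x
  have s3 := M.symm z' x
  have s4 := M.symm z y
  have s5 := M.symm z' y
  have s6 := M.symm x y
  constructor
  · unfold PM.gp
    rw [abs_le]
    constructor <;> linarith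
  · have h := h9 X M δ hyp z x z' y
    have e1 : M.d x z = M.gp z y x + M.gp x y z := by unfold PM.gp; linarith
    have e2 : M.d y z = M.d x y - M.gp z y x + M.gp x y z := by unfold PM.gp; linarith
    have e3 : M.d x z' = M.gp z' y x + M.gp x y z' := by unfold PM.gp; linarith
    have e4 : M.d y z' = M.d x y - M.gp z' y x + M.gp x y z' := by unfold PM.gp; linarith
    have a1 := le_abs_self (M.gp z y x - M.gp z' y x)
    have a2 := neg_abs_le (M.gp z y x - M.gp z' y x)
    rcases le_total (M.d z x + M.d z' y) (M.d z y + M.d x z') with hh | hh
    · rw [max_eq_right hh] at h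
      linarith
    · rw [max_eq_left hh] at h
      linarith

end BSD
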