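import Pool.Agent.Lib.MP_8528c3_al.StA

/-!
# Burnside project, A2: guessing geodesics, the uniform bound
-/

namespace BSD

namespace A2

variable {X : Type} (M : PM X)

theorem gp_nonneg (x y w : X) : 0 ≤ M.gp x y w := by
  unfold PM.gp
  have h1 := M.tri x w y
  have h2 := M.symm y w
  linarith

/-- Moving the base point. -/
theorem gp_base (x y p o : X) : M.gp x y p ≤ M.gp x y o + M.d p o := by
  unfold PM.gp
  have h1 := M.tri x o p
  have h2 := M.tri y o p
  have h3 := M.symm o p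
  linarith

theorem gp_le_left (x y o : X) : M.gp x y o ≤ M.d x o := by
  unfold PM.gp
  have h1 := M.tri y x o
  have h2 := M.symm y x
  linarith

theorem gp_le_right (x y o : X) : M.gp x y o ≤ M.d y o := by
  unfold PM.gp
  have h1 := M.tri x y o
  linarith

/-- Partial sums. -/
noncomputable def ps (z : ℕ → X) (i : ℕ) : ℝ := ∑ l ∈ Finset.range i, M.d (z l) (z (l + 1))

theorem ps_zero (z : ℕ → X) : ps M z 0 = 0 := by simp [ps]

theorem ps_succ (z : ℕ → X) (i : ℕ) : ps M z (i + 1) = ps M z i + M.d (z i) (z (i + 1)) := by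
  unfold ps
  rw [Finset.sum_range_succ]

theorem d_le_ps (z : ℕ → X) (i j : ℕ) (hij : i ≤ j) : M.d (z i) (z j) ≤ ps M z j - ps M z i := by
  induction j, hij using Nat.le_induction with
  | base => rw [M.self, sub_self]
  | succ j _ ih =>
    have h1 := M.tri (z i) (z j) (z (j + 1))
    rw [ps_succ]
    linarith

theorem ps_shift (z : ℕ → X) (i m : ℕ) :
    ∑ l ∈ Finset.range m, M.d (z (i + l)) (z (i + (l + 1))) = ps M z (i + m) - ps M z i := by
  induction m with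
  | zero => simp
  | succ m ih =>
    rw [Finset.sum_range_succ, ih, ← add_assoc i m 1, ps_succ]
    ring

/-- The last large value. -/
theorem last_large (u : ℕ → ℝ) (n : ℕ) (H σ : ℝ) (hσ : 0 ≤ σ)
    (hu : ∀ i < n, u i ≤ u (i + 1) + σ) (hn : u n ≤ H) :
    ∃ i ≤ n, (H < u i ∨ i = 0) ∧ u i ≤ H + σ := by
  induction n with
  | zero => exact ⟨0, le_rfl, Or.inr rfl, by linarith⟩
  | succ n ih =>
    by_cases h : H < u n
    · exact ⟨n, Nat.le_succ n, Or.inl h, by
        have := hu n (Nat.lt_succ_self n)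
        linarith⟩
    · push Not at h
      obtain ⟨i, hi, h1, h2⟩ := ih (fun i hi => hu i (by omega)) h
      exact ⟨i, by omega, h1, h2⟩

/-- The first large value. -/
theorem first_large (u : ℕ → ℝ) (i n : ℕ) (H σ : ℝ) (hσ : 0 ≤ σ) (hin : i ≤ n)
    (hu : ∀ j < n, u (j + 1) ≤ u j + σ) (hi : u i ≤ H) :
    ∃ j, i ≤ j ∧ j ≤ n ∧ (H < u j ∨ j = n) ∧ u j ≤ H + σ := by
  classical
  by_cases hQ : ∃ j, i ≤ j ∧ j ≤ n ∧ H < u j
  · obtain ⟨h1, h2, h3⟩ := Nat.find_spec hQ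
    set j := Nat.find hQ with hj
    refine ⟨j, h1, h2, Or.inl h3, ?_⟩
    have h4 : j ≠ i := by
      intro h
      rw [h] at h3
      linarith
    obtain ⟨m, hm⟩ : ∃ m, j = m + 1 := ⟨j - 1, by omega⟩
    have h5 : ¬ H < u m := by
      intro h
      have := Nat.find_min' hQ ⟨(by omega : i ≤ m), (by omega : m ≤ n), h⟩
      omega
    push Not at h5
    have h6 := hu m (by omega)
    rw [hm]
    linarith
  · push Not at hQ
    exact ⟨n, hin, le_rfl, Or.inr rfl, by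
      have := hQ n hin le_rfl
      linarith⟩

/-- The main step. -/
theorem step (hA1 : stA1) (L : X → X → Set X) (h σ : ℝ) (hh : 1 ≤ h) (hσ : 0 < σ)
    (hSG : M.SG σ) (hG : GGH M L h σ) (k : ℕ) (hk : 2 * (2 * h + 2 + σ) + 2 ≤ 2 ^ k * σ)
    (D t : ℝ) (ht : ∀ x y w, M.d x y ≤ D → w ∈ L x y → M.gp x y w ≤ t)
    (x y w : X) (hD : M.d x y ≤ D) (hw : w ∈ L x y) (hbig : t - 1 ≤ M.gp x y w) :
    M.gp x y w ≤ 2 * h + (2 * k + 1) * h + 1 := by
  obtain ⟨n, z, hz0, hzn, hst, htot⟩ := hSG x y 1 one_pos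
  set H : ℝ := 2 * h + 2 with hH
  have htot' : ps M z n ≤ M.d x y + 1 := htot
  -- the points of the sequence are almost on a geodesic
  have hx : ∀ i ≤ n, M.d x (z i) ≤ ps M z i := by
    intro i _
    have := d_le_ps M z 0 i (Nat.zero_le i)
    rw [ps_zero, hz0, sub_zero] at this
    exact this
  have hy : ∀ i ≤ n, M.d (z i) y ≤ ps M z n - ps M z i := by
    intro i hi
    have := d_le_ps M z i n hi
    rw [hzn] at this
    exact this
  have hxy : ∀ i ≤ n, M.d x (z i) + M.d (z i) y ≤ M.d x y + 1 := by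
    intro i hi
    have h1 := hx i hi
    have h2 := hy i hi
    linarith
  have hlow : ∀ i j, i ≤ j → j ≤ n → ps M z j - ps M z i ≤ M.d (z i) (z j) + 1 := by
    intro i j hij hj
    have h1 := hx i (hij.trans hj)
    have h2 := hy j hj
    have h3 := M.tri x (z i) y
    have h4 := M.tri (z i) (z j) y
    linarith
  -- FACT 1
  have fact1 : ∀ i ≤ n, H < M.gp w y (z i) → ∀ w' ∈ L x (z i), ¬ M.d w w' ≤ 2 * h := by
    intro i hi h1 w' hw' h2
    have h3 := gp_le_right M w y (z i)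
    have h4 := hxy i hi
    have h5 := M.symm y (z i)
    have h6 : M.d x (z i) ≤ D := by linarith
    have h7 := ht x (z i) w' h6 hw'
    have h8 := gp_base M x (z i) w w'
    unfold PM.gp at h1 h7 h8 hbig
    have h9 := M.symm w (z i)
    have h10 := M.symm w y
    linarith
  have fact1' : ∀ i ≤ n, H < M.gp w x (z i) → ∀ w' ∈ L (z i) y, ¬ M.d w w' ≤ 2 * h := by
    intro i hi h1 w' hw' h2
    have h3 := gp_le_right M w x (z i)
    have h4 := hxy i hi
    have h6 : M.d (z i) y ≤ D := by linarith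
    have h7 := ht (z i) y w' h6 hw'
    have h8 := gp_base M (z i) y w w'
    unfold PM.gp at h1 h7 h8 hbig
    have h9 := M.symm w (z i)
    have h10 := M.symm w x
    linarith
  -- the index `i₀`
  obtain ⟨i₀, hi₀, hP, hPle⟩ := last_large (fun i => M.gp w y (z i)) n H σ hσ.le (by
    intro i hi
    have h1 := gp_base M w y (z i) (z (i + 1))
    have h2 := hst i hi
    linarith) (by
    show M.gp w y (z n) ≤ H
    rw [hzn]
    have := gp_le_right M w y y
    rw [M.self] at this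
    linarith)
  have hPle' : M.gp w y (z i₀) ≤ H + σ := hPle
  obtain ⟨w', hw', hww'⟩ : ∃ w' ∈ L (z i₀) y, M.d w w' ≤ h := by
    rcases hP with hP | hP
    · obtain ⟨w', h1, h2⟩ := hG.thin x y (z i₀) w hw
      rcases h1 with h1 | h1
      · exact absurd (h2.trans (by linarith)) (fact1 i₀ hi₀ hP w' h1)
      · exact ⟨w', h1, h2⟩
    · rw [hP, hz0]
      exact ⟨w, hw, by rw [M.self]; linarith⟩
  have hQ0 : M.gp w x (z i₀) ≤ H := by
    by_contra hcon
    push Not at hcon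
    exact fact1' i₀ hi₀ hcon w' hw' (hww'.trans (by linarith))
  -- the index `j₀`
  obtain ⟨j₀, hij, hj₀, hQ, hQle⟩ := first_large (fun i => M.gp w x (z i)) i₀ n H σ hσ.le hi₀ (by
    intro i hi
    have h1 := gp_base M w x (z (i + 1)) (z i)
    have h2 := hst i hi
    have h3 := M.symm (z (i + 1)) (z i)
    linarith) hQ0
  have hQle' : M.gp w x (z j₀) ≤ H + σ := hQle
  obtain ⟨w'', hw'', hww''⟩ : ∃ w'' ∈ L (z i₀) (z j₀), M.d w w'' ≤ 2 * h := by
    rcases hQ with hQ | hQ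
    · obtain ⟨w'', h1, h2⟩ := hG.thin (z i₀) y (z j₀) w' hw'
      have h3 : M.d w w'' ≤ 2 * h := by
        have := M.tri w w' w''
        linarith
      rcases h1 with h1 | h1
      · exact ⟨w'', h1, h3⟩
      · exact absurd h3 (fact1' j₀ hj₀ hQ w'' h1)
    · rw [hQ, hzn]
      exact ⟨w', hw', by linarith⟩
  -- FACT 2
  have hS : M.d (z i₀) (z j₀) ≤ 2 * (H + σ) + 1 := by
    have h1 := hlow 0 j₀ (Nat.zero_le _) hj₀
    rw [ps_zero, hz0] at h1
    have h2 := hx i₀ hi₀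
    have h3 := d_le_ps M z i₀ j₀ hij
    have h4 := hlow i₀ n hi₀ le_rfl
    rw [hzn] at h4
    have h5 := hy j₀ hj₀
    have h6 := gp_nonneg M w y (z j₀)
    have h7 := gp_nonneg M w x (z i₀)
    unfold PM.gp at hPle' hQle' h6 h7
    have h8 := M.symm x (z i₀)
    have h9 := M.symm x (z j₀)
    have h10 := M.symm y (z i₀)
    have h11 := M.symm y (z j₀)
    linarith
  obtain ⟨m, hm⟩ : ∃ m, j₀ = i₀ + m := ⟨j₀ - i₀, by omega⟩
  have htot2 : ps M z j₀ - ps M z i₀ ≤ 2 ^ k * σ := by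
    have := hlow i₀ j₀ hij hj₀
    linarith
  obtain ⟨i, hi, hd⟩ := hA1 X M L h σ (by linarith) hσ hG k m (fun l => z (i₀ + l)) (by
    intro l hl
    exact hst (i₀ + l) (by omega)) (by
    show ∑ l ∈ Finset.range m, M.d (z (i₀ + l)) (z (i₀ + (l + 1))) ≤ 2 ^ k * σ
    rw [ps_shift, ← hm]
    exact htot2) w'' (by
    show w'' ∈ L (z (i₀ + 0)) (z (i₀ + m))
    rw [add_zero, ← hm]
    exact hw'')
  have hd' : M.d w'' (z (i₀ + i)) ≤ (2 * k + 1) * h := hd
  have h1 := gp_base M x y w (z (i₀ + i))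
  have h2 := M.tri w w'' (z (i₀ + i))
  have h3 := hxy (i₀ + i) (by omega)
  have h4 : M.gp x y (z (i₀ + i)) ≤ 1 := by
    unfold PM.gp
    have := M.symm y (z (i₀ + i))
    linarith
  linarith

/-- The Gromov products are bounded for bounded distances. -/
theorem bdd (hA1 : stA1) (L : X → X → Set X) (h σ : ℝ) (hh : 0 ≤ h) (hσ : 0 < σ)
    (hSG : M.SG σ) (hG : GGH M L h σ) (D : ℝ) :
    ∃ B : ℝ, ∀ x y w, M.d x y ≤ D → w ∈ L x y → M.gp x y w ≤ B := by
  obtain ⟨k, hk⟩ := pow_unbounded_of_one_lt ((D + 1) / σ) (one_lt_two : (1 : ℝ) < 2)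
  rw [div_lt_iff₀ hσ] at hk
  refine ⟨(2 * k + 1) * h + 1, ?_⟩
  intro x y w hD hw
  obtain ⟨n, z, hz0, hzn, hst, htot⟩ := hSG x y 1 one_pos
  obtain ⟨i, hi, hd⟩ := hA1 X M L h σ hh hσ hG k n z hst (by linarith) w (by
    rw [hz0, hzn]
    exact hw)
  have h1 := gp_base M x y w (z i)
  have h2 := d_le_ps M z 0 i (Nat.zero_le i)
  have h3 := d_le_ps M z i n hi
  rw [hz0, ps_zero] at h2
  rw [hzn] at h3
  have h4 : ps M z n ≤ M.d x y + 1 := htot
  have h5 : M.gp x y (z i) ≤ 1 := by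
    unfold PM.gp
    have := M.symm y (z i)
    linarith
  linarith

theorem mono (L : X → X → Set X) (h h' σ : ℝ) (hle : h ≤ h') (hG : GGH M L h σ) :
    GGH M L h' σ where
  thin := fun a b c w hw => by
    obtain ⟨w', h1, h2⟩ := hG.thin a b c w hw
    exact ⟨w', h1, h2.trans hle⟩
  short := fun a b hab w hw => (hG.short a b hab w hw).trans hle
  centre := fun a b c => by
    obtain ⟨p, ⟨w1, h1, h1'⟩, ⟨w2, h2, h2'⟩, ⟨w3, h3, h3'⟩⟩ := hG.centre a b c
    exact ⟨p, ⟨w1, h1, h1'.trans hle⟩, ⟨w2, h2, h2'.trans hle⟩, ⟨w3, h3, h3'.trans hle⟩⟩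

end A2

/-- A2: uniform bound. -/
theorem burn_A2 (hA1 : stA1) : stA2 := by
  intro h σ hh hσ
  set h' : ℝ := max h 1 with hh'
  have h1' : 1 ≤ h' := le_max_right _ _
  obtain ⟨k, hk⟩ := pow_unbounded_of_one_lt ((2 * (2 * h' + 2 + σ) + 2) / σ)
    (one_lt_two : (1 : ℝ) < 2)
  rw [div_lt_iff₀ hσ] at hk
  refine ⟨2 * h' + (2 * k + 1) * h' + 2, by positivity, ?_⟩
  intro X M L hSG hG x y w hw
  have hG' := A2.mono M L h h' σ (le_max_left _ _) hG
  obtain ⟨B, hB⟩ := A2.bdd M hA1 L h' σ (by linarith) hσ hSG hG' (M.d x y)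
  set S : Set ℝ := {g | ∃ x' y' w', M.d x' y' ≤ M.d x y ∧ w' ∈ L x' y' ∧ g = M.gp x' y' w'} with hSd
  have hSb : BddAbove S := by
    refine ⟨B, ?_⟩
    rintro g ⟨x', y', w', h1, h2, rfl⟩
    exact hB x' y' w' h1 h2
  have hmem : M.gp x y w ∈ S := ⟨x, y, w, le_rfl, hw, rfl⟩
  obtain ⟨g, ⟨x', y', w', h1, h2, rfl⟩, hlt⟩ := exists_lt_of_lt_csSup ⟨_, hmem⟩
    (show sSup S - 1 < sSup S by linarith)
  have h3 := A2.step M hA1 L h' σ h1' hσ hSG hG' k hk.le (M.d x y) (sSup S)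
    (fun a b c hab hc => le_csSup hSb ⟨a, b, c, hab, hc, rfl⟩) x' y' w' h1 h2 hlt.le
  have h4 := le_csSup hSb hmem
  linarith

end BSD
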