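import Pool.Agent.Lib.MP_8528c3_al.StA

/-!
# Burnside project, A3: guessing geodesics gives hyperbolicity
-/

namespace BSD

namespace A3

/-- Change of the base point. -/
theorem base {X : Type} (M : PM X) (x y p o : X) : M.gp x y p ≤ M.gp x y o + M.d p o := by
  have h1 := M.tri x o p
  have h2 := M.tri y o p
  have h3 := M.symm o p
  unfold PM.gp
  linarith

end A3

theorem burn_A3 : stA3 := by
  intro X M L h σ T hh hG hT x y z w
  obtain ⟨p, ⟨w1, hw1, hp1⟩, ⟨w2, hw2, hp2⟩, ⟨w3, hw3, hp3⟩⟩ := hG.centre x z w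
  have e2 : M.gp z w p ≤ T + h := by
    have := A3.base M z w p w2
    have := hT z w w2 hw2
    linarith
  have e3 : M.gp x w p ≤ T + h := by
    have := A3.base M x w p w3
    have := hT x w w3 hw3
    linarith
  have key : M.d w p - 2 * (T + h) ≤ M.gp x z w := by
    have h1 := M.tri x p z
    have h2 := M.symm p z
    have h3 := M.symm w p
    unfold PM.gp at e2 e3 ⊢
    linarith
  have hmain : ∀ a b, (∃ w' ∈ L a b, M.d w1 w' ≤ h) → M.gp a b w ≤ M.d w p + (T + 2 * h) := by
    rintro a b ⟨w', hw', hd⟩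
    have h1 := A3.base M a b w p
    have h2 := A3.base M a b p w'
    have h3 := hT a b w' hw'
    have h4 := M.tri p w1 w'
    linarith
  obtain ⟨w', hw', hd⟩ := hG.thin x z y w1 hw1
  rcases hw' with hw' | hw'
  · have h1 := hmain x y ⟨w', hw', hd⟩
    have h2 := min_le_left (M.gp x y w) (M.gp y z w)
    linarith
  · have h1 := hmain y z ⟨w', hw', hd⟩
    have h2 := min_le_right (M.gp x y w) (M.gp y z w)
    linarith

end BSD
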