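import Pool.Agent.Lib.MP_8528c3_al.StA

/-!
# Burnside project: points on almost geodesics
-/

namespace BSD

namespace A4

variable {X : Type} (M : PM X)

/-- partial sums of the lengths of the steps -/
noncomputable def S (z : ℕ → X) (k : ℕ) : ℝ := ∑ i ∈ Finset.range k, M.d (z i) (z (i + 1))

theorem S_succ (z : ℕ → X) (k : ℕ) : S M z (k + 1) = S M z k + M.d (z k) (z (k + 1)) :=
  Finset.sum_range_succ _ _

theorem dist_le (z : ℕ → X) (a m : ℕ) : M.d (z a) (z (a + m)) ≤ S M z (a + m) - S M z a := by
  induction m with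
  | zero =>
    rw [add_zero, M.self, sub_self]
  | succ m ih =>
    have h1 := M.tri (z a) (z (a + m)) (z (a + m + 1))
    have h2 := S_succ M z (a + m)
    rw [← add_assoc]
    linarith

end A4

theorem burn_A4 : stA4 := by
  intro X M σ hσ hSG x y t η ht hty hη
  obtain ⟨n, z, h0, hn, hstep, hsum⟩ := hSG x y η hη
  change A4.S M z n ≤ _ at hsum
  classical
  set k := Nat.findGreatest (fun k => A4.S M z k ≤ t) n with hk
  have hS0 : A4.S M z 0 = 0 := by
    simp [A4.S]
  have hkn : k ≤ n := Nat.findGreatest_le n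
  have hk1 : A4.S M z k ≤ t :=
    Nat.findGreatest_spec (P := fun k => A4.S M z k ≤ t) (Nat.zero_le n)
      (by change A4.S M z 0 ≤ t; rw [hS0]; exact ht)
  have hxk : M.d x (z k) ≤ A4.S M z k := by
    have h1 := A4.dist_le M z 0 k
    rw [zero_add, h0, hS0, sub_zero] at h1
    exact h1
  have hky : M.d (z k) y ≤ A4.S M z n - A4.S M z k := by
    have h1 := A4.dist_le M z k (n - k)
    rw [Nat.add_sub_cancel' hkn, hn] at h1
    exact h1
  have hk2 : t - σ ≤ A4.S M z k := by
    rcases lt_or_eq_of_le hkn with h1 | h1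
    · have h2 : ¬ A4.S M z (k + 1) ≤ t :=
        Nat.findGreatest_is_greatest (P := fun k => A4.S M z k ≤ t) (Nat.lt_succ_self k) h1
      have h3 := A4.S_succ M z k
      have h4 := hstep k h1
      push Not at h2
      linarith
    · have h2 := A4.dist_le M z 0 n
      rw [zero_add, h0, hn, hS0, sub_zero] at h2
      rw [h1]
      linarith
  have htri := M.tri x (z k) y
  refine ⟨z k, ?_, ?_⟩
  · unfold PM.gp
    have h1 := M.symm (z k) y
    linarith
  · rw [abs_le]
    constructor
    · linarith
    · linarith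

end BSD
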