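import Pool.Agent.Lib.MP_8528c3_al.StA

/-!
# Burnside project: A5, identities for Gromov products
-/

namespace BSD

theorem burn_A5 : stA5 := by
  intro X M x y z p o
  have hxo := M.nonneg x o
  have hyo := M.nonneg y o
  have e1 := M.symm x y
  have e2 := M.symm x o
  have e3 := M.symm y o
  have e4 := M.symm p o
  have e5 := M.symm x p
  have e6 := M.symm y p
  have e7 := M.symm x z
  have s1 := M.self x
  have t1 := M.tri x o y
  have t2 := M.tri x y o
  have t3 := M.tri y x o
  have t4 := M.tri x o p
  have t5 := M.tri y o p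
  have t6 := M.tri x z o
  have t7 := M.tri z x y
  have t8 := M.tri y p o
  unfold PM.gp
  refine ⟨?_, ?_, ?_, ?_, ?_, ?_, ?_, ?_, ?_, ?_, ?_⟩ <;> linarith

end BSD
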