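import Pool.Agent.Lib.MP_8528c3_al.StA

/-!
# Burnside project, A6: medians exist in hyperbolic almost geodesic spaces
-/

set_option autoImplicit false

namespace BSD

theorem burn_A6 (h4 : stA4) : stA6 := by
  intro X M δ σ η hδ hσ hη hSG hHyp x y z
  have he : 0 < η / 5 := by positivity
  have t0 : 0 ≤ M.gp y z x := by
    have h1 := M.tri y x z
    have h2 := M.symm x z
    simp only [PM.gp]
    linarith
  have t1 : M.gp y z x ≤ M.d x y := by
    have h1 := M.tri z y x
    have h2 := M.symm y x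
    have h3 := M.symm z y
    simp only [PM.gp]
    linarith
  obtain ⟨o, ho1, ho2⟩ := h4 X M σ hσ hSG x y (M.gp y z x) (η / 5) t0 t1 he
  rw [abs_le] at ho2
  obtain ⟨ho2, ho3⟩ := ho2
  have k1 := hHyp o y z x
  have k2 := hHyp o x z y
  have s1 := M.symm x o
  have s2 := M.symm y o
  have s3 := M.symm z o
  have s4 := M.symm x y
  have s5 := M.symm x z
  have s6 := M.symm y z
  refine ⟨o, by linarith, ?_, ?_⟩
  · rcases min_cases (M.gp o y x) (M.gp y z x) with ⟨h, _⟩ | ⟨h, _⟩ <;> rw [h] at k1 <;>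
      simp only [PM.gp] at * <;> linarith
  · have ht := M.tri x o y
    rcases min_cases (M.gp o x y) (M.gp x z y) with ⟨h, _⟩ | ⟨h, _⟩ <;> rw [h] at k2 <;>
      simp only [PM.gp] at * <;> linarith

end BSD
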