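import Pool.Agent.Lib.MP_8528c3_al.StA

/-!
# Burnside project, item A7: medians are coarsely unique
-/

namespace BSD

namespace A7

variable {X : Type} (M : PM X)

theorem key (δ K K' : ℝ) {x y o p : X} (h1 : M.gp x y p ≤ K')
    (hx : M.gp x p o ≤ K + δ) (hy : M.gp y p o ≤ K + δ) : M.d p o ≤ K' + 2 * K + 2 * δ := by
  unfold PM.gp at h1 hx hy
  have t1 := M.tri x o y
  have e1 := M.symm o y
  have e2 := M.symm p x
  have e3 := M.symm p y
  linarith

end A7

/-- A7: medians are coarsely unique. -/
theorem burn_A7 : stA7 := by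
  intro X M δ K K' hyp x y z o p h1 h2 h3 h4 h5 h6
  have hs : ∀ s t : X, M.gp s t o = M.gp t s o := by
    intro s t
    unfold PM.gp
    rw [M.symm s t]
    ring
  have c : ∀ s t : X, M.gp s t o ≤ K → M.gp s p o ≤ K + δ ∨ M.gp t p o ≤ K + δ := by
    intro s t hst
    have h := hyp s p t o
    rcases le_total (M.gp s p o) (M.gp p t o) with hle | hle
    · left
      rw [min_eq_left hle] at h
      linarith
    · right
      rw [min_eq_right hle, hs p t] at h
      linarith
  rcases c x y h1 with hx | hy
  · rcases c y z h2 with hy | hz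
    · exact A7.key M δ K K' h4 hx hy
    · exact A7.key M δ K K' h6 hx hz
  · rcases c x z h3 with hx | hz
    · exact A7.key M δ K K' h4 hx hy
    · exact A7.key M δ K K' h5 hy hz

end BSD
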