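import Pool.Agent.Lib.MP_8528c3_al.StA

/-!
# Burnside project, A8: quartets
-/

set_option autoImplicit false

namespace BSD

theorem A8.gp_comm {X : Type} (M : PM X) (x y w : X) : M.gp x y w = M.gp y x w := by
  unfold PM.gp
  rw [M.symm x y]
  ring

/-- A8: a median of `a,b,c` is a median of two of them and any fourth point. -/
theorem burn_A8 : stA8 := by
  intro X M δ K hδ a b c e o hab hbc hac
  have key : ∀ s t : X, M.gp s t o ≤ K → M.gp s e o ≤ K + δ ∨ M.gp t e o ≤ K + δ := by
    intro s t hst
    have h := hδ s e t o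
    rw [A8.gp_comm M e t o] at h
    rcases le_total (M.gp s e o) (M.gp t e o) with h' | h'
    · rw [min_eq_left h'] at h
      left
      linarith
    · rw [min_eq_right h'] at h
      right
      linarith
  rcases key a b hab with h1 | h1
  · rcases key b c hbc with h2 | h2
    · exact Or.inl ⟨h1, h2⟩
    · exact Or.inr (Or.inr ⟨h1, h2⟩)
  · rcases key a c hac with h2 | h2
    · exact Or.inl ⟨h2, h1⟩
    · exact Or.inr (Or.inl ⟨h1, h2⟩)

end BSD
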