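import Pool.Agent.Lib.MP_8528c3_al.StA

/-!
# Burnside project, A9: four point inequality
-/

namespace BSD

theorem burn_A9 : stA9 := by
  intro X M δ h x y z w
  have h1 := h x y z w
  simp only [PM.gp] at h1
  rcases le_total ((M.d x w + M.d y w - M.d x y) / 2) ((M.d y w + M.d z w - M.d y z) / 2) with
    h2 | h2
  · rw [min_eq_left h2] at h1
    have h3 := le_max_left (M.d x y + M.d z w) (M.d x w + M.d y z)
    linarith
  · rw [min_eq_right h2] at h1
    have h3 := le_max_right (M.d x y + M.d z w) (M.d x w + M.d y z)
    linarith

end BSD
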