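import Pool.Agent.Lib.MP_8528c3_al.GDefs

/-!
# Burnside project, part G (dimension), first part: colourings.  Statements only.
-/

namespace BSD

/-- G0: monotonicity of `Col`. -/
def stG0 : Prop := ∀ (W : Type) (M : PM W) (S S' : Set W) (q q' : ℕ) (r r' D D' : ℝ),
  Col M S q r D → S' ⊆ S → q ≤ q' → r' ≤ r → D ≤ D' → Col M S' q' r' D'

/-- G1a: abstract union lemma: `B`-runs are short, and the `A`-points of a chain form a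
`Q`-chain. -/
def stG1a : Prop := ∀ (W : Type) (M : PM W) (A B : Set W) (P Q : W → W → Prop) (s DA DB : ℝ),
  0 ≤ s → 0 ≤ DA → 0 ≤ DB →
  (∀ x y : W, x ∈ B → Relation.ReflTransGen (RsP B P) x y → M.d x y ≤ DB) →
  (∀ a b : W, a ∈ A ∪ B → b ∈ A ∪ B → P a b → M.d a b ≤ s) →
  (∀ a a' : W, a ∈ A → a' ∈ A → P a a' → Q a a') →
  (∀ a b b' a' : W, a ∈ A → a' ∈ A → b ∈ B → b' ∈ B → P a b → P b' a' →
    Relation.ReflTransGen (RsP B P) b b' → Q a a') →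
  (∀ a a' : W, a ∈ A → Relation.ReflTransGen Q a a' → M.d a a' ≤ DA) →
  ∀ x y : W, x ∈ A ∪ B → Relation.ReflTransGen (RsP (A ∪ B) P) x y →
    M.d x y ≤ DA + 2 * DB + 2 * s

/-- G1: union of two sets. -/
def stG1 : Prop := ∀ (W : Type) (M : PM W) (A B : Set W) (q : ℕ) (r rA DA DB : ℝ), 0 ≤ r →
  0 ≤ DA → 0 ≤ DB → DB + 2 * r ≤ rA → Col M A q rA DA → Col M B q r DB →
  Col M (A ∪ B) q r (DA + 2 * DB + 2 * r)

/-- G1b: union of a family of sets at distance `> r` from each other. -/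
def stG1b : Prop := ∀ (W J : Type) (M : PM W) (S : Set W) (T : J → Set W) (q : ℕ) (r D : ℝ),
  0 < q → (∀ x ∈ S, ∃ j, x ∈ T j) → (∀ (j k : J) (x y : W), x ∈ S → y ∈ S → x ∈ T j → y ∈ T k →
    M.d x y ≤ r → j = k) → 0 ≤ r →
  (∀ j, Col M (T j) q r D) → Col M S q r D

/-- G2: larger scales. -/
def stG2 : Prop := ∀ (W : Type) (M : PM W) (δ D0 : ℝ) (q : ℕ), M.Hyp δ → 0 ≤ δ → M.SG 2 →
  0 < q → 0 ≤ D0 → ∀ (o : W) (t w r : ℝ), 0 ≤ w → 0 ≤ r →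
  Col M (Ann M o (t - w - r / 2) 3) q (4 * δ + 9) D0 →
  Col M (Ann M o t w) q r (D0 + 4 * w + r + 5)

/-- G2w: the whole space. -/
def stG2w : Prop := ∀ (W : Type) (M : PM W) (δ D0 : ℝ) (q : ℕ), M.Hyp δ → 0 ≤ δ → M.SG 2 →
  0 < q → 0 ≤ D0 → Sph M q (4 * δ + 9) 3 D0 → Nonempty W → ∀ r : ℝ, 0 ≤ r →
  Col M Set.univ (2 * q) r (D0 + 3 * r + 7)

/-- G3: from local colourings to colourings of the annuli. -/
def stG3 : Prop := ∀ (W : Type) (M : PM W) (δ R Dp : ℝ) (q : ℕ) (r D E : ℕ → ℝ), M.Hyp δ →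
  0 ≤ δ → M.SG 2 → r 0 = 4 * δ + 9 → (∀ j ≤ q, r j ≤ R) → (∀ j ≤ q, 0 ≤ D j) → E 0 = D 0 →
  (∀ j, E (j + 1) = D (j + 1) + 2 * E j + 2 * (4 * δ + 9)) →
  (∀ j, E j + 2 * (4 * δ + 9) ≤ r (j + 1)) → E q + R + 17 ≤ Dp →
  (∀ (o : W) (t : ℝ) (P : Set W), P ⊆ Ann M o t 3 → (∀ x ∈ P, ∀ y ∈ P, M.d x y ≤ Dp) →
    ∀ j ≤ q, Col M P (q + 1) (r j) (D j)) →
  Sph M (q + 1) (4 * δ + 9) 3 (E q)

/-- G4: colourings of thin sets. -/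
def stG4 : Prop := ∀ (W : Type) (M : PM W) (δ D0 : ℝ) (q : ℕ), M.Hyp δ → 1 ≤ δ → M.SG 2 →
  0 < q → 0 ≤ D0 → Sph M q (12 * δ + 27) 3 D0 → ∀ (S : Set W) (o : W) (r V Λ B : ℝ), 0 ≤ r →
  0 ≤ V → 1 ≤ Λ → (∀ x ∈ S, M.d o x ≤ B) →
  (∀ x ∈ S, ∀ z ∈ S, M.gp o z x ≤ V + Λ * max 0 (M.gp o x z - r)) →
  ∃ f : W → Fin q,
    (∀ x y : W, x ∈ S → Relation.ReflTransGen (Stp M S f r) x y →
      M.d x y ≤ 2 * V + 2 * r + 8 * (Λ + 1) * (D0 + 18 * δ + 46)) ∧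
    (∀ (x y : W) (β : ℝ), x ∈ S → Relation.ReflTransGen (Stp M S f r) x y →
      (∀ z ∈ S, β ≤ FF M o r Λ x z) →
      ∃ p : W, M.gp o x p ≤ 8 * (Λ + 1) * (D0 + 18 * δ + 46) ∧
        M.gp o y p ≤ 8 * (Λ + 1) * (D0 + 18 * δ + 46) ∧
        β - r - 8 * (Λ + 1) * (D0 + 18 * δ + 46) ≤ M.d o p)

/-- G5a: the orbits of the generator of `E i` are quasi-lines. -/
def stG5a : Prop := ∀ (G X I : Type) [Group G] [MulAction G X] [MulAction G I] (c : CC)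
  (M : PM X) (E R : I → Subgroup G) (Y : I → Set X), FS c M E R Y →
  ∀ (i : I) (y0 : X) (e : G), y0 ∈ Y i → Lox M e → (∀ f : G, f ∈ E i ↔ ∃ k : ℤ, f = e ^ k) →
  ∃ τ : ℝ, 0 < τ ∧ τ ≤ 30 * c.A3 ∧ ∀ a : ℤ, 9 / 10 * τ * |(a : ℝ)| - 30 * c.A3 ≤
    M.d y0 (e ^ a • y0) ∧ M.d y0 (e ^ a • y0) ≤ τ * |(a : ℝ)| + 30 * c.A3

/-- G5: colourings of `Y i` and of its quotient by `R i`. -/
def stG5 : Prop := ∀ (G X I : Type) [Group G] [MulAction G X] [MulAction G I] (c : CC)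
  (M : PM X) (E R : I → Subgroup G) (Y : I → Set X), FS c M E R Y →
  ∀ iso : (∀ (g : G) (x y : X), M.d (g • x) (g • y) = M.d x y), ∀ (i : I) (l : ℝ), 0 ≤ l →
  Col M (Y i) 2 l (4 * l + 1000 * c.A3) ∧
  Col (dqPM M (R i) iso) (Y i) 2 l (4 * l + 1000 * c.A3)

/-- G7: stabilisers of the apexes in `K`. -/
def stG7 : Prop := ∀ (G Z I : Type) [Group G] [MulAction G Z] [MulAction G I] (M : PM Z)
  (v : I → Z) (R : I → Subgroup G) (θ : I → Z → Z → ℝ) (ρ C δ : ℝ), WS M v R θ ρ C δ →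
  ∀ k ∈ KK R, ∀ i : I, k • i = i → k ∈ R i

/-- G8: elements of `K` move the points far from the apexes a lot. -/
def stG8 : Prop := ∀ (G Z I : Type) [Group G] [MulAction G Z] [MulAction G I] (M : PM Z)
  (v : I → Z) (R : I → Subgroup G) (θ : I → Z → Z → ℝ) (ρ C δ : ℝ), WS M v R θ ρ C δ →
  ∀ k ∈ KK R, k ≠ 1 → ∀ (x : Z) (a : ℝ), (∀ i, a ≤ M.d x (v i)) → 2 * a ≤ M.d x (k • x)

/-- G9: local pieces of annuli of the quotient can be lifted. -/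
def stG9 : Prop := ∀ (G Z I : Type) [Group G] [MulAction G Z] [MulAction G I] (M : PM Z)
  (v : I → Z) (R : I → Subgroup G) (θ : I → Z → Z → ℝ) (ρ C δ : ℝ), WS M v R θ ρ C δ →
  ∀ (P : Set Z) (a Dp : ℝ) (o : Z) (t : ℝ), 0 ≤ Dp → 3 * Dp + 2 * δ + 20 ≤ a →
  (∀ x ∈ P, ∀ y ∈ P, dqf M (KK R) x y ≤ Dp) → (∀ x ∈ P, ∀ i, a ≤ M.d x (v i)) →
  (∀ x ∈ P, |dqf M (KK R) o x - t| ≤ 3) →
  ∃ (k : Z → G) (o' : Z) (t' : ℝ), (∀ x, k x ∈ KK R) ∧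
    (∀ x ∈ P, ∀ y ∈ P, M.d (k x • x) (k y • y) = dqf M (KK R) x y) ∧
    (∀ x ∈ P, M.d o' (k x • x) ≤ 2 * Dp + δ + 10) ∧
    (∀ x ∈ P, |M.d o' (k x • x) - t'| ≤ 2 * δ + 4)

/-- G6: colouring of the high part of the quotient of the cone-off. -/
def stG6 : Prop := ∀ (G X I : Type) [Group G] [MulAction G X] [MulAction G I] (c : CC)
  (M : PM X) (E R : I → Subgroup G) (Y : I → Set X), FS c M E R Y →
  ∀ (hY : ∀ i, (Y i).Nonempty) (hg : ∀ (g : G) (i : I), ∀ y ∈ Y i, g • y ∈ Y (g • i)),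
  letI := coAct c.ρ hg
  ∀ iso : ∀ (g : G) (x y : Co Y c.ρ), (c.Z M hY).d (g • x) (g • y) = (c.Z M hY).d x y,
  c.lam * (1000 * c.A3) ≤ 1 → ∀ r H : ℝ, 0 ≤ r → r + 1 ≤ H →
  Col (dqPM (c.Z M hY) (KK R) iso) {z | H < ht z} 4 r (8 * Real.exp ((r + 1) / 2) + 4 * r + 20)

end BSD
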