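import Pool.Agent.Lib.MP_8528c3_al.StF

/-!
# Burnside project, F15a: from a stage modulo `K` to a stage
-/

namespace BSD

namespace F15a

variable {G Z : Type} [Group G] [MulAction G Z] (K : Subgroup G)

theorem exists_rep (z : QZ Z K) : ∃ x : Z, qz K x = z :=
  Quotient.exists_rep z

variable [K.Normal] {M : PM Z}
  (iso : ∀ (g : G) (x y : Z), M.d (g • x) (g • y) = M.d x y)

omit [K.Normal] in
theorem d_eq (x y : Z) : (qM M K iso).d (qz K x) (qz K y) = (dqPM M K iso).d x y := rfl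

omit [K.Normal] in
theorem gp_eq (x y z : Z) :
    (qM M K iso).gp (qz K x) (qz K y) (qz K z) = (dqPM M K iso).gp x y z := rfl

theorem act_pow (g : G) (m : ℕ) (x : Z) : letI := qAct Z K
    ((g : G ⧸ K) ^ m • qz K x : QZ Z K) = qz K (g ^ m • x) := rfl

theorem lox_iff (g : G) : letI := qAct Z K
    Lox (qM M K iso) (g : G ⧸ K) ↔ Lox (dqPM M K iso) g := by
  let _ := qAct Z K
  constructor
  · rintro ⟨c, hc, h⟩
    exact ⟨c, hc, fun x m => h (qz K x) m⟩
  · rintro ⟨c, hc, h⟩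
    refine ⟨c, hc, fun z m => ?_⟩
    obtain ⟨x, rfl⟩ := exists_rep K z
    exact h x m

theorem dp_iff (g : G) (B : ℝ) (x y : Z) : letI := qAct Z K
    Dp (qM M K iso) (g : G ⧸ K) B (qz K x) (qz K y) ↔ Dp (dqPM M K iso) g B x y := Iff.rfl

end F15a

open F15a in
theorem burn_F15a : stF15a := by
  intro G Z _ _ K _ M iso n δ L' A0 kl S
  let _ := qAct Z K
  refine ⟨?_, ?_, ?_, ?_, ?_, ?_, ?_, ?_⟩
  · exact S.ne.map (qz K)
  · intro q z w
    obtain ⟨g, rfl⟩ := QuotientGroup.mk_surjective q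
    obtain ⟨x, rfl⟩ := exists_rep K z
    obtain ⟨y, rfl⟩ := exists_rep K w
    exact S.iso g x y
  · intro a b c d
    obtain ⟨x, rfl⟩ := exists_rep K a
    obtain ⟨y, rfl⟩ := exists_rep K b
    obtain ⟨z, rfl⟩ := exists_rep K c
    obtain ⟨w, rfl⟩ := exists_rep K d
    exact S.hyp x y z w
  · intro a b η hη
    obtain ⟨x, rfl⟩ := exists_rep K a
    obtain ⟨y, rfl⟩ := exists_rep K b
    obtain ⟨m, z, h0, h1, h2, h3⟩ := S.sg x y η hη
    exact ⟨m, fun i => qz K (z i), congrArg (qz K) h0, congrArg (qz K) h1, fun i hi => h2 i hi,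
      h3⟩
  · intro a b hab
    obtain ⟨x, rfl⟩ := exists_rep K a
    obtain ⟨y, rfl⟩ := exists_rep K b
    obtain ⟨e, he, h⟩ := S.star x y hab
    refine ⟨(e : G ⧸ K), ?_, ?_⟩
    · rcases he with rfl | he
      · exact Or.inl rfl
      · exact Or.inr ((lox_iff K iso e).2 he)
    · intro q hq
      obtain ⟨g, rfl⟩ := QuotientGroup.mk_surjective q
      obtain ⟨k, m, hk, hg⟩ := h g ((dp_iff K iso g L' x y).1 hq)
      refine ⟨m, ?_⟩
      rw [hg, QuotientGroup.mk_mul, (QuotientGroup.eq_one_iff k).2 hk, one_mul,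
        QuotientGroup.mk_zpow]
  · intro q
    obtain ⟨g, rfl⟩ := QuotientGroup.mk_surjective q
    rcases S.h2 g with h | h
    · exact Or.inl ((lox_iff K iso g).2 h)
    · right
      rw [← QuotientGroup.mk_pow]
      exact (QuotientGroup.eq_one_iff _).2 h
  · intro q hq z m
    obtain ⟨g, rfl⟩ := QuotientGroup.mk_surjective q
    obtain ⟨x, rfl⟩ := exists_rep K z
    exact S.h3 g ((lox_iff K iso g).1 hq) x m
  · intro q a b hq hd
    obtain ⟨g, rfl⟩ := QuotientGroup.mk_surjective q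
    obtain ⟨x, rfl⟩ := exists_rep K a
    obtain ⟨y, rfl⟩ := exists_rep K b
    have hg : g ∉ K := fun h => hq ((QuotientGroup.eq_one_iff g).2 h)
    obtain ⟨m, hm⟩ := S.h5 g x y hg ((dp_iff K iso g L' x y).1 hd)
    refine ⟨m, ?_⟩
    rw [← QuotientGroup.mk_zpow]
    exact hm

end BSD
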