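import Pool.Agent.Lib.MP_8528c3_al.AllF
import Pool.Agent.Lib.MP_8528c3_al.StG

/-!
# Burnside project, part I: from the spheres of the stages to the free Burnside group.
Definitions and statements only.
-/

namespace BSD

namespace MS

variable {c : CC} {F : Type} [Group F]

/-- The map from a stage to the next one. -/
def nx (h : HF) (s : MS c F) (x : s.X) : (s.next h).X :=
  letI := s.act h
  qz s.K (s.cb x)

/-- The quotient pseudo-metric of a stage by the image of a subgroup of `F`. -/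
noncomputable def qk (s : MS c F) (K : Subgroup F) : PM s.X :=
  dqPM s.M (K.map s.φ) s.st.iso

end MS

/-- The sizes of the iterated union. -/
noncomputable def sE (D0 : ℝ) : ℕ → ℝ
  | 0 => D0 + 10
  | a + 1 => D0 + 5 * sE D0 a + 15

/-- I1: the stages have eight colours at every scale. -/
def stI1 : Prop := ∀ (c : CC) (F : Type) [Group F] (s : MS c F) (D0 : ℝ), 0 ≤ D0 →
  Sph s.M 4 (4 * c.δ + 9) 3 D0 → ∀ r : ℝ, 0 ≤ r → Col s.M Set.univ 8 r (D0 + 3 * r + 7)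

/-- I2b: properties of the map `nx`. -/
def stI2b : Prop := ∀ (c : CC) (F : Type) [Group F] (h : HF) (s : MS c F),
  (∀ (g : F) (x : s.X), (s.next h).φ g • s.nx h x = s.nx h (s.φ g • x)) ∧
  (∀ x y : s.X, (s.next h).M.d (s.nx h x) (s.nx h y) =
    (letI := s.act h; dqf (s.MC h) s.K (s.cb x) (s.cb y))) ∧
  (∀ x y : s.X, (s.next h).M.d (s.nx h x) (s.nx h y) ≤ c.lam * s.M.d x y) ∧
  s.nx h s.x0 = (s.next h).x0

/-- I2a: the elements of `K` move the points of the stage by at least `2 ρ / lam`. -/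
def stI2a : Prop := ∀ (c : CC) (F : Type) [Group F] (h : HF) (s : MS c F),
  ∀ k ∈ s.K, k ≠ 1 → ∀ x : s.X, 2 * c.ρ ≤ c.lam * s.M.d x (k • x)

/-- I2: the same for the elements which become trivial later. -/
def stI2 : Prop := ∀ (c : CC) (F : Type) [Group F] (h : HF) (s : MS c F) (j i : ℕ), j ≤ i →
  ∀ g : F, (s.sq h i).φ g = 1 → (s.sq h j).φ g ≠ 1 → ∀ x : (s.sq h j).X,
  2 * c.ρ ≤ c.lam * (s.sq h j).M.d x ((s.sq h j).φ g • x)

/-- I3a: local control of the distances in a stage by the distances in the next one. -/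
def stI3a : Prop := ∀ (c : CC) (F : Type) [Group F] (h : HF) (s : MS c F) (B : ℝ),
  B ≤ 2 * c.ρ → ∀ x y : s.X, (s.next h).M.d (s.nx h x) (s.nx h y) < B →
  ∃ k ∈ s.K, c.lam * s.M.d x (k • y) ≤ 2 * Real.exp (B / 2)

/-- I3b: pulling back a colouring. -/
def stI3b : Prop := ∀ (c : CC) (F : Type) [Group F] (h : HF) (s : MS c F) (K : Subgroup F),
  (∀ g : F, s.φ g ∈ s.K → g ∈ K) → ∀ (B : ℝ) (q : ℕ) (f : (s.next h).X → Fin q), 0 ≤ B →
  B + 1 ≤ 2 * c.ρ →
  (∀ x y : (s.next h).X, Relation.ReflTransGen (Stp ((s.next h).qk K) Set.univ f 1) x y →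
    ((s.next h).qk K).d x y ≤ B) →
  ∀ x y : s.X, Relation.ReflTransGen
    (Stp (s.qk K) Set.univ (fun x => f (s.nx h x)) (1 / c.lam)) x y →
    c.lam * (s.qk K).d x y ≤ 2 * Real.exp ((B + 1) / 2)

/-- I3c: colouring of a set with small components in the quotient. -/
def stI3c : Prop := ∀ (G X : Type) [Group G] [MulAction G X] (M : PM X) (N : Subgroup G)
  (iso : ∀ (g : G) (x y : X), M.d (g • x) (g • y) = M.d x y) (T : Set X) (q : ℕ)
  (r R D E : ℝ), 0 < q → 0 ≤ r → r ≤ R → 0 ≤ E →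
  (∀ k ∈ N, k ≠ 1 → ∀ x, 4 * E + 4 ≤ M.d x (k • x)) → Col M Set.univ q r D →
  (∀ x y : X, x ∈ T → Relation.ReflTransGen (RsP T (fun a b => dqf M N a b ≤ R)) x y →
    dqf M N x y ≤ E) →
  Col (dqPM M N iso) T q r D

/-- I3d: union of the classes of a colouring. -/
def stI3d : Prop := ∀ (W : Type) (M : PM W) (S : Set W) (q : ℕ) (f : W → Fin (q + 1))
  (r D E : ℕ → ℝ), 0 ≤ r 0 → (∀ j, 0 ≤ D j) → E 0 = D 0 →
  (∀ j, E (j + 1) = D (j + 1) + 2 * E j + 2 * r 0) → (∀ j, E j + 2 * r 0 ≤ r (j + 1)) →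
  (∀ j : Fin (q + 1), Col M {x | x ∈ S ∧ f x = j} (q + 1) (r j) (D j)) →
  Col M S (q + 1) (r 0) (E q)

/-- I3e: one step of the downward induction. -/
def stI3e : Prop := ∀ (c : CC) (F : Type) [Group F] (h : HF) (s : MS c F) (K : Subgroup F)
  (D0 : ℝ), (∀ g : F, s.φ g ∈ s.K → g ∈ K) → 0 ≤ D0 →
  (∀ r : ℝ, 0 ≤ r → Col s.M Set.univ 8 r (D0 + 3 * r + 7)) →
  4 * Real.exp ((sE D0 7 + 1) / 2) + 1 ≤ c.ρ → c.lam * (sE D0 6 + 2) ≤ 1 →
  (∀ g ∈ K, s.φ g ≠ 1 → ∀ x : s.X, 2 * c.ρ ≤ c.lam * s.M.d x (s.φ g • x)) →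
  Col ((s.next h).qk K) Set.univ 8 1 (sE D0 7) → Col (s.qk K) Set.univ 8 1 (sE D0 7)

/-- I3: the stages modulo the elements which are trivial at a later stage. -/
def stI3 : Prop := ∀ (c : CC) (F : Type) [Group F] (h : HF) (s : MS c F) (D0 : ℝ), 0 ≤ D0 →
  (∀ (i : ℕ) (r : ℝ), 0 ≤ r → Col (s.sq h i).M Set.univ 8 r (D0 + 3 * r + 7)) →
  4 * Real.exp ((sE D0 7 + 1) / 2) + 1 ≤ c.ρ → c.lam * (sE D0 6 + 2) ≤ 1 →
  ∀ j i : ℕ, j ≤ i →
    Col ((s.sq h j).qk (MonoidHom.ker (s.sq h i).φ)) Set.univ 8 1 (sE D0 7)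

/-- I4a: the quotient of `Y i` by `R i` is bounded. -/
def stI4a : Prop := ∀ (G X I : Type) [Group G] [MulAction G X] [MulAction G I] (c : CC)
  (M : PM X) (E R : I → Subgroup G) (Y : I → Set X), FS c M E R Y →
  ∀ i, ∀ y ∈ Y i, ∀ y' ∈ Y i, ∃ k ∈ R i, M.d y (k • y') ≤ c.A0 + c.n * c.L1

/-- I4b: global control of the distances in a stage by the distances in the next one. -/
def stI4b : Prop := ∀ c : CC, ∃ C : ℝ, 0 < C ∧ ∀ (F : Type) [Group F] (h : HF) (s : MS c F)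
  (x y : s.X), ∃ k ∈ s.K, s.M.d x (k • y) ≤ C * (s.next h).M.d (s.nx h x) (s.nx h y) + 1

/-- I4: properness. -/
def stI4 : Prop := ∀ (c : CC) (α : Type) [DecidableEq α] (j : ℕ) (D : ℝ), ∃ P : ℕ,
  ∀ g : FreeGroup α,
  (stg c α j).M.d (stg c α j).x0 ((stg c α j).φ g • (stg c α j).x0) ≤ D →
  ∃ g' : FreeGroup α, (stg c α j).φ g' = (stg c α j).φ g ∧ g'.norm ≤ P

/-- I4c: the orbit maps are contracting. -/
def stI4c : Prop := ∀ (c : CC) (α : Type) [DecidableEq α] (j : ℕ) (g : FreeGroup α),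
  (stg c α j).M.d (stg c α j).x0 ((stg c α j).φ g • (stg c α j).x0) ≤ c.lam ^ j * g.norm

/-- The free Burnside group of rank `m` and exponent `n`. -/
@[reducible] def FB (α : Type) (n : ℕ) : Type :=
  FreeGroup α ⧸ Subgroup.normalClosure {h : FreeGroup α | ∃ f, h = f ^ n}

/-- The free Burnside group of rank `m` and exponent `n` has colourings with `k + 1` colours at
all scales (word metric of the standard generators). -/
def FCol (α : Type) [DecidableEq α] (n k : ℕ) : Prop := ∀ R : ℕ, ∃ (P : ℕ)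
  (f : FB α n → Fin (k + 1)), ∀ a b : FB α n,
  Relation.ReflTransGen (fun a b : FB α n => f a = f b ∧ ∃ u : FreeGroup α, u.norm ≤ R ∧
    b = a * (u : FB α n)) a b →
  ∃ u : FreeGroup α, u.norm ≤ P ∧ b = a * (u : FB α n)

/-- I5: compactness. -/
def stI5 : Prop := ∀ (c : CC) (α : Type) [DecidableEq α] (B : ℝ),
  (∀ j i : ℕ, j ≤ i →
    Col ((stg c α j).qk (MonoidHom.ker (stg c α i).φ)) Set.univ 8 1 B) → FCol α c.n 7

/-- THE SPHERES (part H): the annuli of all stages have colourings with four colours, of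
universal size. -/
def stSPH : Prop := ∀ δ T : ℝ, 1 ≤ δ → 1 ≤ T → CO20 δ T → ∃ D0 ρ0 : ℝ, 0 ≤ D0 ∧ ∀ k : KC,
  k.δ = δ → k.T = T → ρ0 ≤ k.ρ → ∃ ε : ℝ, 0 < ε ∧ ∀ c : CC, c.toKC = k → c.lam ≤ ε →
  ∀ (α : Type) [DecidableEq α] (i : ℕ), Sph (stg c α i).M 4 (4 * c.δ + 9) 3 D0

/-- I6: all free Burnside groups of large odd exponent have colourings with eight colours at all
scales. -/
def stI6 : Prop := ∃ N0 : ℕ, ∀ n : ℕ, N0 ≤ n → Odd n → ∀ (α : Type) [DecidableEq α],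
  FCol α n 7

/-- The word length of `g` with respect to the set `S`: the least length of a product of elements
of `S` and their inverses which is equal to `g`. -/
noncomputable def wordLength {G : Type} [Group G] (S : Set G) (g : G) : ℕ :=
  sInf {k | ∃ l : List G, l.length = k ∧ (∀ s ∈ l, s ∈ S ∨ s⁻¹ ∈ S) ∧ l.prod = g}

/-- The word metric of `S`. -/
noncomputable def wordDist {G : Type} [Group G] (S : Set G) (g h : G) : ℝ :=
  (wordLength S (g⁻¹ * h) : ℝ)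

/-- Asymptotic dimension at most `k`: for every `r > 0` there is a cover of `X` by sets of
diameter at most `D` such that every ball of radius `r` meets at most `k + 1` of these sets. -/
def AsdimLE {X : Type} (d : X → X → ℝ) (k : ℕ) : Prop :=
  ∀ r : ℝ, 0 < r → ∃ (D : ℝ) (U : Set (Set X)), (∀ x, ∃ A ∈ U, x ∈ A) ∧
    (∀ A ∈ U, ∀ x ∈ A, ∀ y ∈ A, d x y ≤ D) ∧
    ∀ x, {A | A ∈ U ∧ ∃ y ∈ A, d x y ≤ r}.encard ≤ k + 1

/-- I7: from colourings to the definition with covers, for every finite generating set. -/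
def stI7 : Prop := ∀ (α : Type) [Finite α] [DecidableEq α] (n k : ℕ), FCol α n k →
  ∀ S : Set (FB α n), S.Finite → Subgroup.closure S = ⊤ → AsdimLE (wordDist S) k

/-- I8: THE THEOREM. -/
def stI8 : Prop := ∃ N0 : ℕ, ∀ m n : ℕ, N0 ≤ n → Odd n → ∀ S : Set (FB (Fin m) n),
  S.Finite → Subgroup.closure S = ⊤ → AsdimLE (wordDist S) 7

end BSD
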