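import Pool.Agent.Lib.MP_8528c3_al.StB

/-!
# Burnside project, B1: almost nearest point projections exist
-/

namespace BSD

namespace B1

/-- An almost nearest point exists in a nonempty set. -/
theorem exists_near {X : Type} (M : PM X) (S : Set X) (hS : S.Nonempty) (x : X) :
    ∃ y ∈ S, ∀ y' ∈ S, M.d x y ≤ M.d x y' + 1 / 100 := by
  set T : Set ℝ := (fun y => M.d x y) '' S with hT
  have hne : T.Nonempty := hS.image _
  have hbd : BddBelow T := by
    refine ⟨0, ?_⟩
    rintro _ ⟨y, _, rfl⟩
    exact M.nonneg x y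
  obtain ⟨t, ⟨y, hy, rfl⟩, ht⟩ := exists_lt_of_csInf_lt hne
    (lt_add_of_pos_right (sInf T) (by norm_num : (0:ℝ) < 1 / 100))
  refine ⟨y, hy, fun y' hy' => ?_⟩
  have h1 : sInf T ≤ M.d x y' := csInf_le hbd ⟨y', hy', rfl⟩
  have h2 : M.d x y < sInf T + 1 / 100 := ht
  linarith

end B1

/-- B1: almost nearest point projections exist. -/
theorem burn_B1 : stB1 := by
  classical
  intro X I M Y hY
  have h0 : ∀ (i : I) (x : X), ∃ y ∈ Y i, ∀ y' ∈ Y i, M.d x y ≤ M.d x y' + 1 / 100 :=
    fun i x => B1.exists_near M (Y i) (hY i) x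
  choose g hg1 hg2 using h0
  refine ⟨fun i x => if x ∈ Y i then x else g i x, fun i => (hY i).choose, ?_⟩
  refine ⟨?_, ?_, ?_, ?_⟩
  · intro i x
    by_cases hx : x ∈ Y i
    · simp only [hx, if_true]
    · simp only [hx, if_false]
      exact hg1 i x
  · intro i x y hy
    by_cases hx : x ∈ Y i
    · simp only [hx, if_true]
      have h1 := M.self x
      have h2 := M.nonneg x y
      linarith
    · simp only [hx, if_false]
      exact hg2 i x y hy
  · intro i y hy
    simp only [hy, if_true]
  · intro i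
    exact (hY i).choose_spec

end BSD
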