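import Pool.Agent.Lib.MP_8528c3_al.StB

/-!
# Burnside project, B14: a median of bounded height is close to the median of the bases
-/

set_option autoImplicit false

namespace BSD

namespace B14

variable {X I : Type} {M : PM X} {Y : I → Set X} {ρ : ℝ} {π : I → X → X} {y0 : I → X}

theorem gp_symm (M : PM X) (x y o : X) : M.gp x y o = M.gp y x o := by
  unfold PM.gp
  rw [M.symm x y]
  ring

theorem gp_base (M : PM X) (x y p o : X) : M.gp x y p ≤ M.gp x y o + M.d p o := by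
  unfold PM.gp
  have h1 := M.tri x o p
  have h2 := M.tri y o p
  have h3 := M.symm o p
  linarith

theorem uu_symm (M : PM X) (π : I → X → X) (y0 : I → X) (i : I) (a b : Co Y ρ) :
    uu M π y0 i a b = uu M π y0 i b a := by
  unfold uu
  rw [max_comm (hti i a), M.symm]

theorem bt_mem (hP : Pr M Y π y0) {i : I} {s : Co Y ρ} (h : 0 < hti i s) : bt y0 s ∈ Y i := by
  cases s with
  | base x => exact absurd h (lt_irrefl _)
  | cone j y hy s h0 h1 =>
    unfold hti at h
    by_cases hj : j = i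
    · subst hj
      exact hy
    · simp only [if_neg hj] at h
      exact absurd h (lt_irrefl _)
  | apex j =>
    unfold hti at h
    by_cases hj : j = i
    · subst hj
      exact hP.y0 j
    · simp only [if_neg hj] at h
      exact absurd h (lt_irrefl _)

/-- products at a gate -/
theorem gate (h2 : stB2) (h3 : stB3) (hT : TH M Y) (hP : Pr M Y π y0) {i : I} {s t : Co Y ρ}
    (h : 1 ≤ uu M π y0 i s t) :
    M.gp (bt y0 s) (bt y0 t) (π i (bt y0 s)) ≤ 9 / 100 := by
  by_cases hs : 0 < hti i s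
  · rw [hP.fix i _ (bt_mem hP hs)]
    unfold PM.gp
    have e1 := M.self (bt y0 s)
    have e2 := M.symm (bt y0 s) (bt y0 t)
    linarith
  by_cases ht : 0 < hti i t
  · have h4 := h2 X I M Y π y0 hT hP i (bt y0 s) (bt y0 t) (bt_mem hP ht)
    linarith
  refine ((h3 X I M Y π y0 hT hP i (bt y0 s) (bt y0 t)).1) ?_
  push Not at hs ht
  have h4 : (1 : ℝ) ≤ max (max (hti i s) (hti i t))
      (Real.log (M.d (π i (bt y0 s)) (π i (bt y0 t)) / 2)) := h.trans (min_le_right _ _)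
  rcases le_max_iff.1 h4 with h5 | h5
  · rcases le_max_iff.1 h5 with h6 | h6 <;> linarith
  · by_contra hd
    push Not at hd
    have h6 : Real.log (M.d (π i (bt y0 s)) (π i (bt y0 t)) / 2) ≤ 0 :=
      Real.log_nonpos (by have := M.nonneg (π i (bt y0 s)) (π i (bt y0 t)); linarith)
        (by linarith)
    linarith

theorem core (h7 : stA7) (h2 : stB2) (h3 : stB3) (h8 : stB8) (hY : ∀ i, (Y i).Nonempty)
    (hρ : 0 ≤ ρ) (hT : TH M Y) (hP : Pr M Y π y0) {i : I} {s t z p : Co Y ρ} {h : ℝ} {o : X}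
    (hh1 : 1 ≤ h) (hhρ : h < ρ) (hst : uu M π y0 i s t = h) (htz : h ≤ uu M π y0 i t z)
    (hsz : h ≤ uu M π y0 i s z) (hAt : At π y0 i s h p)
    (g1 : M.gp (bt y0 s) (bt y0 t) o ≤ 1) (g2 : M.gp (bt y0 t) (bt y0 z) o ≤ 1)
    (g3 : M.gp (bt y0 s) (bt y0 z) o ≤ 1) :
    (coPM M Y ρ hY hρ).d p (Co.base o) ≤ h + 2 * Real.exp h + 3 := by
  obtain ⟨hy, h0, h1, rfl⟩ := hAt
  obtain ⟨b1, -, -, b4, -, -⟩ := h8 X I M Y ρ y0 hY hρ i
  have e1 := b4 (π i (bt y0 s)) hy h h0 h1
  have e2 := b1 (π i (bt y0 s)) o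
  have e3 := (coPM M Y ρ hY hρ).tri (Co.cone i (π i (bt y0 s)) hy h h0 h1)
    (Co.base (π i (bt y0 s))) (Co.base o)
  -- distance of the gates
  have hd : M.d (π i (bt y0 s)) (π i (bt y0 t)) ≤ 2 * Real.exp h := by
    have h4 : max (max (hti i s) (hti i t))
        (Real.log (M.d (π i (bt y0 s)) (π i (bt y0 t)) / 2)) ≤ h := by
      by_contra hc
      push Not at hc
      have h5 : h < uu M π y0 i s t := lt_min hhρ hc
      rw [hst] at h5
      exact lt_irrefl _ h5
    have h5 : Real.log (M.d (π i (bt y0 s)) (π i (bt y0 t)) / 2) ≤ h :=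
      (le_max_right _ _).trans h4
    rcases (M.nonneg (π i (bt y0 s)) (π i (bt y0 t))).eq_or_lt with h6 | h6
    · rw [← h6]
      positivity
    · have h7 := (Real.log_le_iff_le_exp (by linarith)).1 h5
      linarith
  have k1 := gate h2 h3 hT hP (hh1.trans hst.ge)
  have k2 := gate h2 h3 hT hP (hh1.trans hsz)
  have k3 := gate h2 h3 hT hP (hh1.trans htz)
  have k4 := gp_base M (bt y0 t) (bt y0 z) (π i (bt y0 s)) (π i (bt y0 t))
  have he : 0 < Real.exp h := Real.exp_pos h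
  have k5 := h7 X M (1 / 100) 1 (9 / 100 + 2 * Real.exp h) hT.hyp (bt y0 s) (bt y0 t) (bt y0 z) o
    (π i (bt y0 s)) g1 g2 g3 (by linarith) (by linarith) (by linarith)
  linarith

end B14

open B14

/-- B14: a median of bounded height is close to the median of the bases. -/
theorem burn_B14 (h7 : stA7) (h2 : stB2) (h3 : stB3) (h8 : stB8) : stB14 := by
  intro X I M Y ρ π y0 hY hρ _ hT hP i a b c p H o hHρ hh1 hhH hmu g1 g2 g3
  obtain ⟨h, hh⟩ : ∃ h, h = BSD.hh M π y0 i a b c := ⟨_, rfl⟩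
  rw [← hh] at hh1 hhH
  unfold IsMu at hmu
  rw [← hh] at hmu
  have hab : h ≤ uu M π y0 i a b := by rw [hh]; exact min_le_left _ _
  have hbc : h ≤ uu M π y0 i b c := by
    rw [hh]; exact (min_le_right _ _).trans (min_le_left _ _)
  have hac : h ≤ uu M π y0 i a c := by
    rw [hh]; exact (min_le_right _ _).trans (min_le_right _ _)
  have hba : h ≤ uu M π y0 i b a := by rwa [uu_symm]
  have hcb : h ≤ uu M π y0 i c b := by rwa [uu_symm]
  have hca : h ≤ uu M π y0 i c a := by rwa [uu_symm]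
  have g1' : M.gp (bt y0 b) (bt y0 a) o ≤ 1 := by rwa [gp_symm]
  have g2' : M.gp (bt y0 c) (bt y0 b) o ≤ 1 := by rwa [gp_symm]
  have g3' : M.gp (bt y0 c) (bt y0 a) o ≤ 1 := by rwa [gp_symm]
  have hlt : h < ρ := lt_of_le_of_lt hhH hHρ
  have key : (coPM M Y ρ hY hρ).d p (Co.base o) ≤ h + 2 * Real.exp h + 3 := by
    rcases hmu with ⟨he, hA | hA⟩ | ⟨he, hA | hA⟩ | ⟨he, hA | hA⟩
    · exact core h7 h2 h3 h8 hY hρ hT hP hh1 hlt he hbc hac hA g1 g2 g3
    · exact core h7 h2 h3 h8 hY hρ hT hP hh1 hlt ((uu_symm M π y0 i b a).trans he) hac hbc hA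
        g1' g3 g2
    · exact core h7 h2 h3 h8 hY hρ hT hP hh1 hlt he hca hba hA g2 g3' g1'
    · exact core h7 h2 h3 h8 hY hρ hT hP hh1 hlt ((uu_symm M π y0 i c b).trans he) hba hca hA
        g2' g1' g3'
    · exact core h7 h2 h3 h8 hY hρ hT hP hh1 hlt he hcb hab hA g3 g2' g1
    · exact core h7 h2 h3 h8 hY hρ hT hP hh1 hlt ((uu_symm M π y0 i c a).trans he) hab hcb hA
        g3' g1 g2'
  have h5 := Real.exp_le_exp.2 hhH
  linarith

end BSD
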