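import Pool.Agent.Lib.MP_8528c3_al.StE

/-!
# Burnside project: E0, chain lemma
-/

namespace BSD

namespace E0

variable {X : Type} (M : PM X)

theorem gp_comm (x y o : X) : M.gp x y o = M.gp y x o := by
  unfold PM.gp
  rw [M.symm x y]
  ring

/-- `(x|y)_o + (y|o)_x = d(x,o)` -/
theorem gp_add (x y o : X) : M.gp x y o + M.gp y o x = M.d x o := by
  unfold PM.gp
  rw [M.symm y x, M.symm o x]
  ring

theorem delta_nonneg {δ : ℝ} (h : M.Hyp δ) (x : X) : 0 ≤ δ := by
  have h1 := h x x x x
  rw [min_self] at h1
  linarith

/-- If the first product is large then the second one is small. -/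
theorem step {δ : ℝ} (h : M.Hyp δ) (x y z w : X) {c : ℝ} (h1 : M.gp x z w ≤ c)
    (h2 : c + δ < M.gp x y w) : M.gp y z w ≤ c + δ := by
  have h3 := h x y z w
  rcases min_choice (M.gp x y w) (M.gp y z w) with h4 | h4
  · rw [h4] at h3
    linarith
  · rw [h4] at h3
    linarith

end E0

open E0

theorem burn_E0 : stE0 := by
  intro X M δ c B hyp hc hB m p h1 h2
  have hδ := delta_nonneg M hyp (p 0)
  -- (1)
  have a1 : ∀ k, k + 1 ≤ m → M.gp (p 0) (p (k + 2)) (p (k + 1)) ≤ c + δ := by
    intro k
    induction k with
    | zero =>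
      intro hk
      have := h1 1 le_rfl hk
      simp only [Nat.sub_self] at this
      change M.gp (p 0) (p 2) (p 1) ≤ c at this
      change M.gp (p 0) (p 2) (p 1) ≤ c + δ
      linarith
    | succ k ih =>
      intro hk
      have i1 := ih (by omega)
      have i2 := h2 (k + 1) (by omega) (by omega)
      have i3 := gp_add M (p (k + 1)) (p 0) (p (k + 2))
      have i4 := h1 (k + 2) (by omega) (by omega)
      rw [show k + 2 - 1 = k + 1 by omega] at i4
      exact step M hyp _ _ _ _ i4 (by linarith)
  -- (2)
  have a2 : ∀ k, k < m → M.gp (p (m - k - 1)) (p (m + 1)) (p (m - k)) ≤ c + δ := by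
    intro k
    induction k with
    | zero =>
      intro hk
      have := h1 m (by omega) le_rfl
      rw [Nat.sub_zero]
      linarith
    | succ k ih =>
      intro hk
      obtain ⟨l, hl⟩ : ∃ l, m - k = l + 2 := ⟨m - k - 2, by omega⟩
      have i1 := ih (by omega)
      rw [hl, show l + 2 - 1 = l + 1 by omega] at i1
      have i2 := h2 (l + 1) (by omega) (by omega)
      have i3 := gp_add M (p (l + 2)) (p (m + 1)) (p (l + 1))
      have i4 := h1 (l + 1) (by omega) (by omega)
      rw [show l + 1 - 1 = l by omega, gp_comm] at i4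
      rw [show m - (k + 1) = l + 1 by omega, show l + 1 - 1 = l by omega, gp_comm]
      rw [M.symm, gp_comm M (p (m + 1))] at i3
      exact step M hyp _ _ _ _ i4 (by linarith)
  have a2' : ∀ l, l < m → M.gp (p l) (p (m + 1)) (p (l + 1)) ≤ c + δ := by
    intro l hl
    have := a2 (m - (l + 1)) (by omega)
    rwa [show m - (m - (l + 1)) = l + 1 by omega, show l + 1 - 1 = l by omega] at this
  refine ⟨?_, ?_⟩
  · intro l hl1 hl2
    rcases Nat.lt_or_ge l 2 with h | h
    · have hl : l = 1 := by omega
      subst hl
      have := a2' 0 (by omega)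
      linarith
    · obtain ⟨k, rfl⟩ : ∃ k, l = k + 2 := ⟨l - 2, by omega⟩
      have i1 := a1 k (by omega)
      have i2 := h2 (k + 1) (by omega) (by omega)
      have i3 := gp_add M (p (k + 1)) (p 0) (p (k + 2))
      have i4 := a2' (k + 1) (by omega)
      have := step M hyp _ (p 0) _ _ i4 (by linarith)
      linarith
  · have a3 : ∀ j, j ≤ m → ∑ l ∈ Finset.range j, M.d (p l) (p (l + 1)) +
        M.d (p j) (p (m + 1)) - 2 * j * (c + δ) ≤ M.d (p 0) (p (m + 1)) := by
      intro j
      induction j with
      | zero =>
        intro _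
        simp
      | succ j ih =>
        intro hj
        have i1 := ih (by omega)
        have i2 := a2' j (by omega)
        unfold PM.gp at i2
        rw [M.symm (p (m + 1))] at i2
        rw [Finset.sum_range_succ]
        push_cast
        linarith
    have i1 := a3 m le_rfl
    rw [Finset.sum_range_succ]
    have i2 : 0 ≤ 2 * (m : ℝ) * δ := by positivity
    linarith

end BSD
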