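import Pool.Agent.Lib.MP_8528c3_al.StE

/-!
# Burnside project, E0b: deep points exist on long segments
-/

namespace BSD

theorem burn_E0b (h : stA4) : stE0b := by
  intro X M δ B r A hSG hδ hB hr hA x y hxy
  obtain ⟨z, hz1, hz2⟩ := h X M 2 (by norm_num) hSG x y (10 * B + 11 * r + 20 * δ + 3) r
    (by positivity) (by linarith) hr
  obtain ⟨z', hz1', hz2'⟩ := h X M 2 (by norm_num) hSG x y
    (10 * B + 13 * r + 20 * δ + 7 + A) r (by positivity) (by linarith) hr
  obtain ⟨a1, a2⟩ := abs_le.1 hz2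
  obtain ⟨b1, b2⟩ := abs_le.1 hz2'
  have h1 := M.tri x z y
  have h2 := M.tri x z' y
  have h3 := M.tri x z z'
  have h4 := M.symm z y
  have h5 := M.symm z' y
  refine ⟨z, z', ⟨hz1, by linarith, by linarith⟩, ⟨hz1', by linarith, by linarith⟩, by linarith⟩

end BSD
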