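import Pool.Agent.Lib.MP_8528c3_al.StE

/-!
# Burnside project, E1: displacements are convex
-/

namespace BSD

theorem burn_E1 (hA9 : stA9) : stE1 := by
  intro G X _ _ M δ hI hH f x y z
  set D := max (M.d x (f • x)) (M.d y (f • y)) with hD
  have hx : M.d x (f • x) ≤ D := le_max_left _ _
  have hy : M.d y (f • y) ≤ D := le_max_right _ _
  have e1 := hI f x z
  have e2 := hI f y z
  have e3 := hI f x y
  have e3' := hI f y x
  have sx := M.symm (f • x) x
  have sy := M.symm (f • y) y
  have sxy := M.symm x y
  have szx := M.symm z x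
  have szy := M.symm z y
  have szfx := M.symm (f • z) x
  have szfy := M.symm (f • z) y
  have t1 := M.tri x y z
  have t2 := M.tri y x z
  -- `d(y, fz) ≤ D + d(y,z) + 2δ`
  have k1 : M.d y (f • z) ≤ D + M.d y z + 2 * δ := by
    have h := hA9 X M δ hH (f • z) (f • x) y (f • y)
    have a1 := M.tri (f • x) x y
    have b1 := M.symm (f • z) (f • x)
    have b2 := M.symm (f • z) (f • y)
    have b3 := M.symm y (f • y)
    rcases le_total (M.d (f • z) (f • x) + M.d y (f • y))
      (M.d (f • z) (f • y) + M.d (f • x) y) with h' | h'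
    · rw [max_eq_right h'] at h
      linarith
    · rw [max_eq_left h'] at h
      linarith
  have k2 : M.d x (f • z) ≤ D + M.d x z + 2 * δ := by
    have h := hA9 X M δ hH (f • z) (f • y) x (f • x)
    have a1 := M.tri (f • y) y x
    have b1 := M.symm (f • z) (f • y)
    have b2 := M.symm (f • z) (f • x)
    have b3 := M.symm x (f • x)
    rcases le_total (M.d (f • z) (f • y) + M.d x (f • x))
      (M.d (f • z) (f • x) + M.d (f • y) x) with h' | h'
    · rw [max_eq_right h'] at h
      linarith
    · rw [max_eq_left h'] at h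
      linarith
  have h := hA9 X M δ hH z x (f • z) y
  have hg : M.gp x y z = (M.d x z + M.d y z - M.d x y) / 2 := rfl
  rw [hg]
  rcases le_total (M.d z x + M.d (f • z) y) (M.d z y + M.d x (f • z)) with h' | h'
  · rw [max_eq_right h'] at h
    linarith
  · rw [max_eq_left h'] at h
    linarith

end BSD
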