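import Pool.Agent.Lib.MP_8528c3_al.StE

/-!
# Burnside project, E10a: commensurability
-/

namespace BSD

namespace E10a

variable {G X : Type} [Group G] [MulAction G X] {M : PM X}

theorem d_pow (hI : Iso G M) (g : G) (x : X) (m : ℕ) :
    M.d x (g ^ m • x) ≤ m * M.d x (g • x) := by
  induction m with
  | zero =>
    rw [pow_zero, one_smul, M.self]
    simp
  | succ m ih =>
    have h1 := M.tri x (g ^ m • x) (g ^ (m + 1) • x)
    have h2 : M.d (g ^ m • x) (g ^ (m + 1) • x) = M.d x (g • x) := by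
      rw [pow_succ, mul_smul, hI]
    push_cast
    linarith

theorem d_inv (hI : Iso G M) (g : G) (x : X) : M.d x (g⁻¹ • x) = M.d x (g • x) := by
  have h := hI g x (g⁻¹ • x)
  rw [smul_inv_smul] at h
  rw [← h, M.symm]

theorem d_zpow (hI : Iso G M) (g : G) (x : X) (w : ℤ) :
    M.d x (g ^ w • x) = M.d x (g ^ w.natAbs • x) := by
  rcases Int.natAbs_eq w with h | h
  · conv_lhs => rw [h, zpow_natCast]
  · conv_lhs => rw [h, zpow_neg, zpow_natCast, d_inv hI]

theorem d_mul (hI : Iso G M) (f g : G) (x : X) :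
    M.d x ((f * g) • x) ≤ M.d x (f • x) + M.d x (g • x) := by
  have h1 := M.tri x (f • x) ((f * g) • x)
  rw [mul_smul, hI] at h1
  rw [mul_smul]
  exact h1

/-- discrete intermediate value theorem -/
theorem ivt0 (φ : ℤ → ℝ) (R : ℝ) (W : ℕ)
    (hs : ∀ w : ℤ, -W ≤ w → w < W → |φ (w + 1) - φ w| ≤ R) (hR : 0 ≤ R)
    (h0 : φ (-W) ≤ 0) (h1 : 0 ≤ φ W) : ∃ w : ℤ, -W ≤ w ∧ w ≤ W ∧ |φ w| ≤ R := by
  classical
  have hex : ∃ n : ℕ, 0 ≤ φ (-W + n) := ⟨2 * W, by
    have : (-(W : ℤ) + ((2 * W : ℕ) : ℤ)) = W := by push_cast; ring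
    rw [this]
    exact h1⟩
  have hn := Nat.find_spec hex
  have hle : Nat.find hex ≤ 2 * W := Nat.find_min' hex (by
    have : (-(W : ℤ) + ((2 * W : ℕ) : ℤ)) = W := by push_cast; ring
    rw [this]
    exact h1)
  set n := Nat.find hex with hndef
  rcases Nat.eq_zero_or_pos n with h | h
  · rw [h] at hn
    refine ⟨-W, le_rfl, by omega, ?_⟩
    have h2 : φ (-W) = 0 := by
      have : (-(W : ℤ) + ((0 : ℕ) : ℤ)) = -W := by simp
      rw [this] at hn
      exact le_antisymm h0 hn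
    rw [h2, abs_zero]
    exact hR
  · have hlt : φ (-W + ((n - 1 : ℕ) : ℤ)) < 0 := by
      have h2 := Nat.find_min hex (m := n - 1) (by omega)
      exact not_le.1 h2
    have h3 := hs (-W + ((n - 1 : ℕ) : ℤ)) (by omega) (by omega)
    have h4 : (-(W : ℤ) + ((n - 1 : ℕ) : ℤ)) + 1 = -W + n := by omega
    rw [h4] at h3
    refine ⟨-W + n, by omega, by omega, ?_⟩
    rw [abs_of_nonneg hn]
    have h5 := (abs_le.1 h3).2
    linarith

theorem ivt (φ : ℤ → ℝ) (R : ℝ) (W : ℕ)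
    (hs : ∀ w : ℤ, -W ≤ w → w < W → |φ (w + 1) - φ w| ≤ R) (hR : 0 ≤ R)
    (h : (φ (-W) ≤ 0 ∧ 0 ≤ φ W) ∨ (φ W ≤ 0 ∧ 0 ≤ φ (-W))) :
    ∃ w : ℤ, -W ≤ w ∧ w ≤ W ∧ |φ w| ≤ R := by
  rcases h with h | h
  · exact ivt0 φ R W hs hR h.1 h.2
  · obtain ⟨w, h1, h2, h3⟩ := ivt0 (fun w => - φ w) R W (fun w h1 h2 => by
      have := hs w h1 h2
      rw [← abs_neg]
      convert this using 2
      ring) hR (by simpa using h.2) (by simpa using h.1)
    exact ⟨w, h1, h2, by simpa using h3⟩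

end E10a

open E10a in
/-- E10a. -/
theorem burn_E10a (h4a : stE4a) (h4b : stE4b) (h10s : stE10s) (h10t : stE10t) : stE10a := by
  intro G X _ _ M n δ L' A0 kl S hδ hL hA hkl f h hLox hcomm
  classical
  have hI := S.iso
  obtain ⟨x⟩ := S.ne
  obtain ⟨c, hc0, hc⟩ := hLox
  set dh := M.d x (h • x) with hdh
  set df := M.d x (f • x) with hdf
  have hdh0 : 0 ≤ dh := M.nonneg _ _
  have hdf0 : 0 ≤ df := M.nonneg _ _
  set R := dh + 2 * δ with hR
  have hR0 : 0 ≤ R := by linarith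
  -- the constants
  set Q : ℕ := ⌊L' / kl⌋₊ with hQ
  set K : ℕ := 2 * Q + 1 with hK
  obtain ⟨T, hT⟩ := exists_nat_gt (R + 1)
  set U : ℕ := (2 * T + 1) * K + 1 with hU
  obtain ⟨W, hW⟩ := exists_nat_gt ((U * df + 100 * (δ + 1)) / c)
  rw [div_lt_iff₀ hc0] at hW
  set B : ℝ := U * df + W * dh + 1 with hB
  have hB0 : 1 ≤ B := by
    have h1 : (0 : ℝ) ≤ U * df := by positivity
    have h2 : (0 : ℝ) ≤ W * dh := by positivity
    linarith
  obtain ⟨a, b, hab, hcm⟩ := h10t G X M hI h ⟨c, hc0, hc⟩ x (20 * B + 40 * δ + A0 + 40)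
  obtain ⟨z, e, hz, he, hP, -, -⟩ := h10s G X M n δ L' A0 kl S hδ hL hA a b B (by linarith) hab
  have hE4a := fun (g : G) (hg : Dp M g (8 * B) a b) =>
    h4a G X M δ B 1 hI S.hyp (by linarith) zero_le_one g a b z z hg hz hz
  have hE4b := fun (g g' : G) (Bf Bg : ℝ) (h1 : Bf + Bg ≤ 9 * B) (h2 : 0 ≤ Bf) (h3 : 0 ≤ Bg)
    (h4 : Dp M g Bf a b) (h5 : Dp M g' Bg a b) =>
    h4b G X M δ B 1 hI S.hyp (by linarith) zero_le_one g g' a b z Bf Bg h1 h2 h3 h4 h5 hz
  -- displacements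
  have hcom : ∀ (u : ℕ) (w : ℤ), Commute (f ^ u * h ^ w) h := fun u w =>
    (hcomm.pow_left u).mul_left ((Commute.refl h).zpow_left w)
  have hbd : ∀ (u : ℕ) (w : ℤ), u ≤ U → -W ≤ w → w ≤ W →
      M.d x ((f ^ u * h ^ w) • x) ≤ B - 1 := by
    intro u w hu hw1 hw2
    have h1 := d_mul hI (f ^ u) (h ^ w) x
    have h2 := d_pow hI f x u
    have h3 := d_pow hI h x w.natAbs
    rw [← d_zpow hI] at h3
    have h4 : (w.natAbs : ℝ) ≤ W := by
      have : w.natAbs ≤ W := by omega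
      exact_mod_cast this
    have h5 : (u : ℝ) ≤ U := by exact_mod_cast hu
    have h6 : (u : ℝ) * df ≤ U * df := mul_le_mul_of_nonneg_right h5 hdf0
    have h7 : (w.natAbs : ℝ) * dh ≤ W * dh := mul_le_mul_of_nonneg_right h4 hdh0
    rw [hB]
    linarith
  have hDp : ∀ (u : ℕ) (w : ℤ), u ≤ U → -W ≤ w → w ≤ W → Dp M (f ^ u * h ^ w) B a b := by
    intro u w hu hw1 hw2
    have h1 := hbd u w hu hw1 hw2
    have h2 := hcm _ (hcom u w)
    exact ⟨by rw [h2.1]; linarith, by rw [h2.2]; linarith⟩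
  have hmono : ∀ (g : G) (B1 B2 : ℝ), B1 ≤ B2 → Dp M g B1 a b → Dp M g B2 a b :=
    fun g B1 B2 h1 h2 => ⟨h2.1.trans h1, h2.2.trans h1⟩
  have hinv : ∀ (g : G) (B1 : ℝ), Dp M g B1 a b → Dp M g⁻¹ B1 a b := fun g B1 h1 =>
    ⟨by rw [d_inv hI]; exact h1.1, by rw [d_inv hI]; exact h1.2⟩
  have hTr1 : Tr M a z (1 : G) = 0 := by
    unfold Tr
    rw [one_smul, sub_self]
  have hTrinv : ∀ g : G, Dp M g B a b → |Tr M a z g⁻¹ + Tr M a z g| ≤ 2 * δ := by
    intro g hg
    have h1 := hE4b g g⁻¹ B B (by linarith) (by linarith) (by linarith) hg (hinv g B hg)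
    rw [mul_inv_cancel, hTr1] at h1
    rw [← abs_neg]
    convert h1 using 2
    ring
  -- the translation of the powers of `h`
  have hhW : Dp M (h ^ (W : ℤ)) B a b := by
    have := hDp 0 W (Nat.zero_le _) (by omega) le_rfl
    rwa [pow_zero, one_mul] at this
  have hhW' : Dp M (h ^ (-(W : ℤ))) B a b := by
    have := hDp 0 (-W) (Nat.zero_le _) le_rfl (by omega)
    rwa [pow_zero, one_mul] at this
  have hbig : c * W ≤ |Tr M a z (h ^ (W : ℤ))| + 3 + 8 * δ := by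
    obtain ⟨-, -, -, h1⟩ := hE4a _ (hmono _ B (8 * B) (by linarith) hhW)
    have h2 := hc z W
    rw [zpow_natCast] at h1 ⊢
    linarith
  have hneg : |Tr M a z (h ^ (-(W : ℤ))) + Tr M a z (h ^ (W : ℤ))| ≤ 2 * δ := by
    have := hTrinv _ hhW
    rwa [← zpow_neg] at this
  have hfu : ∀ u : ℕ, u ≤ U → Dp M (f ^ u) B a b ∧ |Tr M a z (f ^ u)| ≤ U * df := by
    intro u hu
    have h1 := hDp u 0 hu (by omega) (by omega)
    rw [zpow_zero, mul_one] at h1
    refine ⟨h1, ?_⟩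
    obtain ⟨h2, -⟩ := hE4a _ (hmono _ B (8 * B) (by linarith) h1)
    refine h2.trans ?_
    rw [(hcm _ (hcomm.pow_left u)).1]
    refine (d_pow hI f x u).trans ?_
    have h5 : (u : ℝ) ≤ U := by exact_mod_cast hu
    exact mul_le_mul_of_nonneg_right h5 hdf0
  -- the elements `c_u`
  have hcu : ∀ u : ℕ, u ≤ U → ∃ w : ℤ, -W ≤ w ∧ w ≤ W ∧ |Tr M a z (f ^ u * h ^ w)| ≤ R := by
    intro u hu
    obtain ⟨h1, h2⟩ := hfu u hu
    have h3 := hE4b (f ^ u) (h ^ (W : ℤ)) B B (by linarith) (by linarith) (by linarith) h1 hhW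
    have h4 := hE4b (f ^ u) (h ^ (-(W : ℤ))) B B (by linarith) (by linarith) (by linarith) h1 hhW'
    refine ivt (fun w => Tr M a z (f ^ u * h ^ w)) R W ?_ hR0 ?_
    · intro w hw1 hw2
      have h5 : Dp M h B a b := by
        rcases Nat.eq_zero_or_pos W with hW0 | hW0
        · exfalso
          rw [hW0] at hw1 hw2
          omega
        · have := hDp 0 1 (Nat.zero_le _) (by omega) (by omega)
          rwa [pow_zero, one_mul, zpow_one] at this
      have h6 := hE4b (f ^ u * h ^ w) h B B (by linarith) (by linarith) (by linarith)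
        (hDp u w hu hw1 hw2.le) h5
      obtain ⟨h7, -⟩ := hE4a h (hmono _ B (8 * B) (by linarith) h5)
      rw [(hcm h (Commute.refl h)).1] at h7
      have h8 : f ^ u * h ^ (w + 1) = f ^ u * h ^ w * h := by
        rw [zpow_add_one, mul_assoc]
      rw [h8, hR]
      rw [abs_le] at h6 h7 ⊢
      constructor <;> linarith [h6.1, h6.2, h7.1, h7.2]
    · rw [abs_le] at h2 h3 h4 hneg
      rcases le_total 0 (Tr M a z (h ^ (W : ℤ))) with h5 | h5
      · rw [abs_of_nonneg h5] at hbig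
        left
        constructor <;> linarith [h2.1, h2.2, h3.1, h3.2, h4.1, h4.2, hneg.1, hneg.2]
      · rw [abs_of_nonpos h5] at hbig
        right
        constructor <;> linarith [h2.1, h2.2, h3.1, h3.2, h4.1, h4.2, hneg.1, hneg.2]
  choose! w hw1 hw2 hw3 using hcu
  -- first pigeonhole
  have hpig := Finset.exists_lt_card_fiber_of_mul_lt_card_of_maps_to
    (s := Finset.range U) (t := Finset.Icc (-(T : ℤ)) T) (n := K)
    (f := fun u => ⌊Tr M a z (f ^ u * h ^ (w u))⌋) (by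
      intro u hu
      have hu' := (Finset.mem_range.1 hu).le
      have h1 := abs_le.1 (hw3 u hu')
      rw [Finset.mem_Icc]
      constructor
      · rw [Int.le_floor]
        push_cast
        linarith [h1.1]
      · have h2 := Int.floor_le (Tr M a z (f ^ u * h ^ (w u)))
        have h3 : ((⌊Tr M a z (f ^ u * h ^ (w u))⌋ : ℤ) : ℝ) ≤ ((T : ℤ) : ℝ) := by
          push_cast
          linarith [h1.2]
        exact_mod_cast h3) (by
      rw [Int.card_Icc, Finset.card_range, hU]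
      have : ((T : ℤ) + 1 - -(T : ℤ)).toNat = 2 * T + 1 := by omega
      rw [this]
      omega)
  obtain ⟨y, -, hy⟩ := hpig
  set F := (Finset.range U).filter (fun u => ⌊Tr M a z (f ^ u * h ^ (w u))⌋ = y) with hF
  have hFne : F.Nonempty := Finset.card_pos.1 (by omega)
  obtain ⟨u1, hu1⟩ := hFne
  have hFU : ∀ u ∈ F, u ≤ U := fun u hu =>
    (Finset.mem_range.1 (Finset.mem_filter.1 hu).1).le
  have hFy : ∀ u ∈ F, ⌊Tr M a z (f ^ u * h ^ (w u))⌋ = y := fun u hu =>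
    (Finset.mem_filter.1 hu).2
  -- quotients
  have hquo : ∀ u ∈ F, ∃ k : ℤ, k.natAbs ≤ Q ∧
      (f ^ u * h ^ (w u)) * (f ^ u1 * h ^ (w u1))⁻¹ = e ^ k := by
    intro u hu
    have hu' := hFU u hu
    have hu1' := hFU u1 hu1
    have hd1 := hDp u (w u) hu' (hw1 u hu') (hw2 u hu')
    have hd2 := hDp u1 (w u1) hu1' (hw1 u1 hu1') (hw2 u1 hu1')
    set g := f ^ u * h ^ (w u) with hg
    set g1 := f ^ u1 * h ^ (w u1) with hg1
    have h1 := hE4b g g1⁻¹ B B (by linarith) (by linarith) (by linarith) hd1 (hinv _ _ hd2)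
    have h2 := hTrinv g1 hd2
    have h3 : |Tr M a z g - Tr M a z g1| ≤ 1 := by
      have := Int.abs_sub_lt_one_of_floor_eq_floor ((hFy u hu).trans (hFy u1 hu1).symm)
      exact this.le
    have h4 : |Tr M a z (g * g1⁻¹)| ≤ 1 + 4 * δ := by
      rw [abs_le] at h1 h2 h3 ⊢
      constructor <;> linarith [h1.1, h1.2, h2.1, h2.2, h3.1, h3.2]
    have h5 : Dp M (g * g1⁻¹) (8 * B) a b := by
      have h6 := d_mul hI g g1⁻¹ a
      have h7 := d_mul hI g g1⁻¹ b
      rw [d_inv hI] at h6 h7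
      exact ⟨by linarith [hd1.1, hd2.1], by linarith [hd1.2, hd2.2]⟩
    obtain ⟨k, hk⟩ := hP _ h5 (by linarith)
    rcases he with he | he
    · exact ⟨0, by simp, by rw [hk, he, one_zpow, one_zpow]⟩
    · refine ⟨k, ?_, hk⟩
      obtain ⟨-, -, -, h6⟩ := hE4a _ h5
      have h7 := S.h3 e he z k.natAbs
      rw [← d_zpow hI, ← hk] at h7
      rw [hQ]
      apply Nat.le_floor
      rw [le_div_iff₀ hkl, mul_comm]
      linarith
  choose! k hk1 hk2 using hquo
  -- second pigeonhole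
  obtain ⟨u, hu, u', hu', hne, hkk⟩ := Finset.exists_ne_map_eq_of_card_lt_of_maps_to
    (s := F) (t := Finset.Icc (-(Q : ℤ)) Q) (f := k) (by
      rw [Int.card_Icc]
      have : ((Q : ℤ) + 1 - -(Q : ℤ)).toNat = 2 * Q + 1 := by omega
      rw [this]
      exact hy) (by
      intro v hv
      have := hk1 v hv
      simp only [Finset.coe_Icc, Set.mem_Icc]
      omega)
  have heq : f ^ u * h ^ (w u) = f ^ u' * h ^ (w u') := by
    have h1 := hk2 u hu
    have h2 := hk2 u' hu'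
    rw [hkk, ← h2] at h1
    exact mul_right_cancel h1
  have key : ∀ (i j : ℕ) (s t : ℤ), i < j → f ^ i * h ^ s = f ^ j * h ^ t →
      ∃ (u : ℕ) (w : ℤ), 1 ≤ u ∧ f ^ u = h ^ w := by
    intro i j s t hij h1
    refine ⟨j - i, s - t, by omega, ?_⟩
    have h2 : f ^ j = f ^ i * f ^ (j - i) := by
      rw [← pow_add]
      congr 1
      omega
    rw [h2, mul_assoc] at h1
    have h3 := mul_left_cancel h1
    rw [zpow_sub, h3, mul_assoc, mul_inv_cancel, mul_one]
  rcases lt_or_gt_of_ne hne with h1 | h1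
  · exact key u u' _ _ h1 heq
  · exact key u' u _ _ h1 heq.symm

end BSD
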