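import Pool.Agent.Lib.MP_8528c3_al.StE

/-!
# Burnside project, E10b: `Cen h` is abelian
-/

namespace BSD

namespace E10b

variable {G X : Type} [Group G] [MulAction G X] {M : PM X}

theorem lox_pow_eq_one [Nonempty X] {e : G} (he : Lox M e) {m : ℕ} (h : e ^ m = 1) : m = 0 := by
  obtain ⟨c, hc, hd⟩ := he
  obtain ⟨x⟩ := ‹Nonempty X›
  have h1 := hd x m
  rw [h, one_smul, M.self] at h1
  by_contra hm
  have h2 : (0 : ℝ) < m := by exact_mod_cast Nat.pos_of_ne_zero hm
  have h3 : 0 < c * m := mul_pos hc h2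
  linarith

theorem lox_zpow_eq_one [Nonempty X] {e : G} (he : Lox M e) {k : ℤ} (h : e ^ k = 1) : k = 0 := by
  have h1 : e ^ k.natAbs = 1 := by
    rcases Int.natAbs_eq k with hk | hk
    · rw [hk, zpow_natCast] at h
      exact h
    · rw [hk, zpow_neg, zpow_natCast, inv_eq_one] at h
      exact h
  exact Int.natAbs_eq_zero.mp (lox_pow_eq_one he h1)

theorem lox_zpow_inj [Nonempty X] {e : G} (he : Lox M e) {i j : ℤ} (h : e ^ i = e ^ j) :
    i = j := by
  have h1 : e ^ (i - j) = 1 := by rw [zpow_sub, h, mul_inv_cancel]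
  have h2 := lox_zpow_eq_one he h1
  omega

theorem lox_pow {h : G} (hh : Lox M h) {m : ℕ} (hm : 1 ≤ m) : Lox M (h ^ m) := by
  obtain ⟨c, hc, hd⟩ := hh
  have h1 : (0 : ℝ) < m := by exact_mod_cast hm
  refine ⟨c * m, mul_pos hc h1, fun x j => ?_⟩
  have h2 := hd x (m * j)
  rw [pow_mul] at h2
  push_cast at h2
  linarith

theorem comm_pow {f g c : G} (h1 : f * g = c * g * f) (h2 : f * c = c * f) (n : ℕ) :
    f ^ n * g = c ^ n * g * f ^ n := by
  induction n with
  | zero => simp
  | succ n ih =>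
    have h3 : Commute f (c ^ n) := (show Commute f c from h2).pow_right n
    calc f ^ (n + 1) * g = f * (f ^ n * g) := by rw [pow_succ']; group
      _ = f * (c ^ n * g * f ^ n) := by rw [ih]
      _ = (f * c ^ n) * g * f ^ n := by group
      _ = (c ^ n * f) * g * f ^ n := by rw [h3.eq]
      _ = c ^ n * (f * g) * f ^ n := by group
      _ = c ^ n * (c * g * f) * f ^ n := by rw [h1]
      _ = c ^ (n + 1) * g * f ^ (n + 1) := by rw [pow_succ, pow_succ']; group

/-- A conjugation that fixes a power of `c` and maps `c` to a power of `e` fixes `c`. -/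
theorem fix_of_pow [Nonempty X] {e c f H : G} (he : Lox M e) {s t w : ℤ} {u : ℕ} (hu : 1 ≤ u)
    (hs : c = e ^ s) (ht : f * c * f⁻¹ = e ^ t) (hw : c ^ u = H ^ w) (hf : Commute f H) :
    f * c = c * f := by
  have h1 : f * H ^ w * f⁻¹ = H ^ w := by
    rw [(hf.zpow_right w).eq, mul_inv_cancel_right]
  have h2 : (f * c * f⁻¹) ^ u = c ^ u := by
    rw [conj_pow, hw, h1]
  rw [ht, hs, ← zpow_natCast, ← zpow_natCast, ← zpow_mul, ← zpow_mul] at h2
  have h3 := lox_zpow_inj he h2
  have h4 : t = s := by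
    have h5 : (u : ℤ) ≠ 0 := by exact_mod_cast (show u ≠ 0 by omega)
    exact mul_right_cancel₀ h5 h3
  rw [h4, ← hs] at ht
  calc f * c = (f * c * f⁻¹) * f := by group
    _ = c * f := by rw [ht]

end E10b

theorem burn_E10b (ha : stE10a) (hs : stE10s) (ht : stE10t) : stE10b := by
  intro G X _ _ M n δ L' A0 kl hst hδ hL hA hk f g h hh hf hg
  obtain ⟨m1, hm1, hfm⟩ := hf
  obtain ⟨m2, hm2, hgm⟩ := hg
  have hne : Nonempty X := hst.ne
  have hm : 1 ≤ m1 * m2 := Nat.mul_pos hm1 hm2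
  set H : G := h ^ (m1 * m2) with hH
  have hHl : Lox M H := E10b.lox_pow hh hm
  have hfH : Commute f H := by
    rw [hH, pow_mul]
    exact hfm.pow_right m2
  have hgH : Commute g H := by
    rw [hH, mul_comm, pow_mul]
    exact hgm.pow_right m1
  obtain ⟨x⟩ := hne
  have hne : Nonempty X := ⟨x⟩
  set B : ℝ := max (M.d x (f • x)) (M.d x (g • x)) with hB
  have hB0 : 0 ≤ B := le_trans (M.nonneg _ _) (le_max_left _ _)
  obtain ⟨a, b, hab, hd⟩ := ht G X M hst.iso H hHl x (20 * B + 40 * δ + A0 + 40)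
  have hfB : Dp M f B a b := by
    obtain ⟨h1, h2⟩ := hd f hfH
    exact ⟨h1.le.trans (le_max_left _ _), h2.le.trans (le_max_left _ _)⟩
  have hgB : Dp M g B a b := by
    obtain ⟨h1, h2⟩ := hd g hgH
    exact ⟨h1.le.trans (le_max_right _ _), h2.le.trans (le_max_right _ _)⟩
  have h1B : Dp M (1 : G) B a b := by
    constructor <;> rw [one_smul, M.self] <;> exact hB0
  obtain ⟨z, e, _, he, _, h3, _⟩ := hs G X M n δ L' A0 kl hst hδ hL hA a b B hB0 hab
  set c : G := f * g * f⁻¹ * g⁻¹ with hc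
  obtain ⟨s, hs1⟩ := h3 1 f g h1B hfB hgB
  obtain ⟨t, ht1⟩ := h3 f f g hfB hfB hgB
  obtain ⟨t', ht1'⟩ := h3 g f g hgB hfB hgB
  rw [one_mul, inv_one, mul_one] at hs1
  have hc1 : c = 1 → Commute f g := by
    intro h1
    rw [hc, mul_inv_eq_one, mul_inv_eq_iff_eq_mul] at h1
    exact h1
  rcases he with he | he
  · apply hc1
    rw [hc, hs1, he, one_zpow]
  · have hcH : Commute c H := by
      rw [hc]
      exact ((hfH.mul_left hgH).mul_left hfH.inv_left).mul_left hgH.inv_left
    obtain ⟨u, w, hu, hw⟩ := ha G X M n δ L' A0 kl hst hδ hL hA hk c H hHl hcH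
    have hfc : f * c = c * f := E10b.fix_of_pow he hu hs1 ht1 hw hfH
    obtain ⟨u', w', hu', hw'⟩ := ha G X M n δ L' A0 kl hst hδ hL hA hk f H hHl hfH
    have h5 : f * g = c * g * f := by rw [hc]; group
    have h6 := E10b.comm_pow h5 hfc u'
    have h7 : f ^ u' * g = g * f ^ u' := by
      rw [hw']
      exact ((hgH.symm.zpow_left w').eq)
    have h8 : c ^ u' = 1 := by
      have h9 : c ^ u' * (g * f ^ u') = g * f ^ u' := by
        rw [← mul_assoc, ← h6, h7]
      exact mul_eq_right.mp h9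
    apply hc1
    have h9 : e ^ (s * (u' : ℤ)) = 1 := by
      rw [zpow_mul, ← hs1, zpow_natCast]
      exact h8
    have h10 := E10b.lox_zpow_eq_one he h9
    have h11 : s = 0 := by
      rcases mul_eq_zero.mp h10 with h | h
      · exact h
      · exfalso
        have : u' = 0 := by exact_mod_cast h
        omega
    rw [hc, hs1, h11, zpow_zero]

end BSD
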