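import Pool.Agent.Lib.MP_8528c3_al.StE

/-!
# Burnside project, E10c: `Cen h` is infinite cyclic
-/

namespace BSD
namespace E10c

variable {G X : Type} [Group G] [MulAction G X] {M : PM X}

theorem d_pow_le (hI : Iso G M) (g : G) (x : X) (m : ℕ) :
    M.d x (g ^ m • x) ≤ m * M.d x (g • x) := by
  induction m with
  | zero => simp [M.self]
  | succ m ih =>
    have h1 := M.tri x (g ^ m • x) (g ^ (m + 1) • x)
    have h2 : M.d (g ^ m • x) (g ^ (m + 1) • x) = M.d x (g • x) := by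
      rw [pow_succ, mul_smul]
      exact hI _ _ _
    push_cast
    linarith

theorem d_inv (hI : Iso G M) (g : G) (x : X) : M.d x (g⁻¹ • x) = M.d x (g • x) := by
  have h := hI g x (g⁻¹ • x)
  rw [smul_inv_smul] at h
  rw [← h, M.symm]

theorem d_zpow (hI : Iso G M) (g : G) (x : X) (w : ℤ) :
    M.d x (g ^ w • x) = M.d x (g ^ w.natAbs • x) := by
  rcases Int.natAbs_eq w with h | h
  · have h2 : g ^ w = g ^ w.natAbs := by
      rw [← zpow_natCast, ← h]
    rw [h2]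
  · have h2 : g ^ w = (g ^ w.natAbs)⁻¹ := by
      rw [← zpow_natCast, ← zpow_neg, ← h]
    rw [h2, d_inv hI]

theorem lox_zpow_ne {g : G} (hX : Nonempty X) (hI : Iso G M) (hg : Lox M g) {j : ℤ}
    (h : g ^ j = 1) : j = 0 := by
  obtain ⟨x⟩ := hX
  obtain ⟨c, hc, hl⟩ := hg
  have h1 := d_zpow hI g x j
  rw [h, one_smul, M.self] at h1
  have h2 := hl x j.natAbs
  rw [← h1] at h2
  by_contra hj
  have h3 : (1 : ℝ) ≤ (j.natAbs : ℝ) := by
    exact_mod_cast Int.natAbs_pos.mpr hj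
  nlinarith

theorem lox_of_pow (hI : Iso G M) {f h : G} (hh : Lox M h) {u : ℕ} {w : ℤ} (hu : 1 ≤ u)
    (hw : w ≠ 0) (e : f ^ u = h ^ w) : Lox M f := by
  obtain ⟨c, hc, hl⟩ := hh
  have hu' : (0 : ℝ) < u := by exact_mod_cast hu
  have hw' : (1 : ℝ) ≤ (w.natAbs : ℝ) := by exact_mod_cast Int.natAbs_pos.mpr hw
  refine ⟨c / u, by positivity, fun x m => ?_⟩
  have h1 := d_pow_le hI (f ^ m) x u
  have h2 : (f ^ m) ^ u = h ^ (w * m) := by
    rw [← pow_mul, mul_comm m u, pow_mul, e, ← zpow_natCast, ← zpow_mul]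
  rw [h2, d_zpow hI] at h1
  have h3 := hl x (w * m).natAbs
  have h4 : ((w * m).natAbs : ℝ) = w.natAbs * m := by
    rw [Int.natAbs_mul, Int.natAbs_natCast]
    push_cast
    ring
  rw [h4] at h3
  have hm : (0 : ℝ) ≤ m := Nat.cast_nonneg m
  have h5 : c * m ≤ c * (w.natAbs * m) := by
    apply mul_le_mul_of_nonneg_left _ hc.le
    nlinarith
  rw [div_mul_eq_mul_div, div_le_iff₀ hu']
  linarith

theorem lox_pow {h : G} (hh : Lox M h) {m : ℕ} (hm : 1 ≤ m) : Lox M (h ^ m) := by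
  obtain ⟨c, hc, hl⟩ := hh
  have hm' : (0 : ℝ) < m := by exact_mod_cast hm
  refine ⟨c * m, by positivity, fun x k => ?_⟩
  have h1 := hl x (m * k)
  rw [← pow_mul]
  push_cast at h1
  linarith

theorem ee_self (h : G) : h ∈ Cen h := ⟨1, le_rfl, by simp⟩

theorem ee_one (h : G) : (1 : G) ∈ Cen h := ⟨1, le_rfl, Commute.one_left _⟩

theorem ee_mul {h f g : G} (hf : f ∈ Cen h) (hg : g ∈ Cen h) : f * g ∈ Cen h := by
  obtain ⟨m, hm, cm⟩ := hf
  obtain ⟨k, hk, ck⟩ := hg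
  refine ⟨m * k, Nat.mul_pos hm hk, Commute.mul_left ?_ ?_⟩
  · rw [pow_mul]
    exact cm.pow_right k
  · rw [mul_comm m k, pow_mul]
    exact ck.pow_right m

theorem ee_inv {h f : G} (hf : f ∈ Cen h) : f⁻¹ ∈ Cen h := by
  obtain ⟨m, hm, cm⟩ := hf
  exact ⟨m, hm, cm.inv_left⟩

theorem ee_zpow {h f : G} (hf : f ∈ Cen h) (k : ℤ) : f ^ k ∈ Cen h := by
  obtain ⟨m, hm, cm⟩ := hf
  exact ⟨m, hm, cm.zpow_left k⟩

end E10c

open E10c in
theorem burn_E10c (hA : stE10a) (hB : stE10b) (hS : stE10s) (hT : stE10t) : stE10c := by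
  intro G X _ _ M n δ L' A0 kl st hδ hL hA0 hkl h hh
  have hI := st.iso
  have hX := st.ne
  -- torsion
  have tors : ∀ f : G, f ∈ Cen h → ∀ u : ℕ, 1 ≤ u → f ^ u = 1 → f = 1 := by
    intro f hf u hu hfu
    obtain ⟨x⟩ := hX
    have nl : ¬ Lox M f := by
      intro hl
      have h1 : f ^ (u : ℤ) = 1 := by rw [zpow_natCast]; exact hfu
      have := lox_zpow_ne ⟨x⟩ hI hl h1
      omega
    obtain ⟨m, hm, cm⟩ := hf
    have hH := lox_pow hh hm
    obtain ⟨a, b, hab, hc⟩ := hT G X M hI (h ^ m) hH x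
      (20 * M.d x (f • x) + 40 * δ + A0 + 40)
    obtain ⟨z, e, -, he, -, -, h4⟩ := hS G X M n δ L' A0 kl st hδ hL hA0 a b (M.d x (f • x))
      (M.nonneg _ _) hab
    obtain ⟨k, hk⟩ := h4 f ⟨(hc f cm).1.le, (hc f cm).2.le⟩ nl
    rcases he with he | he
    · rw [hk, he, one_zpow]
    · have h1 : e ^ (k * u) = 1 := by
        rw [zpow_mul, ← hk, zpow_natCast]
        exact hfu
      have h2 := lox_zpow_ne ⟨x⟩ hI he h1
      have h3 : k = 0 := by
        rcases mul_eq_zero.mp h2 with h | h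
        · exact h
        · omega
      rw [hk, h3, zpow_zero]
  -- every element is commensurable to `h`
  have comm : ∀ f : G, f ∈ Cen h → ∃ (u : ℕ) (w : ℤ), 1 ≤ u ∧ f ^ u = h ^ w := by
    intro f hf
    obtain ⟨m, hm, cm⟩ := hf
    obtain ⟨u, w, hu, e⟩ := hA G X M n δ L' A0 kl st hδ hL hA0 hkl f (h ^ m) (lox_pow hh hm) cm
    refine ⟨u, m * w, hu, ?_⟩
    rw [e, zpow_mul, zpow_natCast]
  have ab : ∀ f g : G, f ∈ Cen h → g ∈ Cen h → Commute f g := fun f g hf hg =>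
    hB G X M n δ L' A0 kl st hδ hL hA0 hkl f g h hh hf hg
  let S : AddSubgroup ℝ :=
    { carrier := {q | ∃ f ∈ Cen h, ∃ (u : ℕ) (w : ℤ), 1 ≤ u ∧ f ^ u = h ^ w ∧ q * u = w}
      zero_mem' := ⟨1, ee_one h, 1, 0, le_rfl, by simp, by simp⟩
      add_mem' := by
        rintro q q' ⟨f, hf, u, w, hu, e, eq⟩ ⟨f', hf', u', w', hu', e', eq'⟩
        refine ⟨f * f', ee_mul hf hf', u * u', w * u' + w' * u, Nat.mul_pos hu hu', ?_, ?_⟩
        · rw [(ab f f' hf hf').mul_pow, pow_mul, e, mul_comm u u', pow_mul, e', zpow_add,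
            zpow_mul, zpow_mul, zpow_natCast, zpow_natCast]
        · push_cast
          rw [← eq, ← eq']
          ring
      neg_mem' := by
        rintro q ⟨f, hf, u, w, hu, e, eq⟩
        refine ⟨f⁻¹, ee_inv hf, u, -w, hu, ?_, ?_⟩
        · rw [inv_pow, e, zpow_neg]
        · push_cast
          rw [← eq]
          ring }
  have memS : ∀ q : ℝ, q ∈ S ↔
      ∃ f ∈ Cen h, ∃ (u : ℕ) (w : ℤ), 1 ≤ u ∧ f ^ u = h ^ w ∧ q * u = w := fun q => Iff.rfl
  obtain ⟨x⟩ := hX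
  have hpos : 0 < M.d x (h • x) := by
    obtain ⟨c, hc, hl⟩ := hh
    have := hl x 1
    rw [pow_one] at this
    push_cast at this
    linarith
  have iso0 : Disjoint (S : Set ℝ) (Set.Ioo 0 (kl / M.d x (h • x))) := by
    rw [Set.disjoint_left]
    rintro q hq ⟨hq0, hq1⟩
    obtain ⟨f, hf, u, w, hu, e, eq⟩ := (memS q).mp hq
    have hu' : (0 : ℝ) < u := by exact_mod_cast hu
    have hw0 : (0 : ℝ) < w := by
      rw [← eq]
      positivity
    have hw1 : 0 < w := by exact_mod_cast hw0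
    have hf' : Lox M f := lox_of_pow hI hh hu (by omega) e
    have h1 := st.h3 f hf' x u
    rw [e, d_zpow hI] at h1
    have h2 := d_pow_le hI h x w.natAbs
    have h3 : (w.natAbs : ℝ) = w := by
      rw [Nat.cast_natAbs, abs_of_pos hw1]
    rw [h3, ← eq] at h2
    have h4 : kl * u ≤ q * u * M.d x (h • x) := h1.trans h2
    rw [lt_div_iff₀ hpos] at hq1
    have h5 : q * u * M.d x (h • x) < kl * u := by
      have := mul_lt_mul_of_pos_right hq1 hu'
      linarith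
    linarith
  obtain ⟨b, hb⟩ := AddSubgroup.cyclic_of_isolated_zero (div_pos hkl hpos) iso0
  have hbS : b ∈ S := by
    rw [hb]
    exact AddSubgroup.subset_closure rfl
  obtain ⟨e, he, u, w, hu, e1, eq⟩ := (memS b).mp hbS
  have key : ∀ f : G, f ∈ Cen h → ∃ k : ℤ, f = e ^ k := by
    intro f hf
    obtain ⟨u', w', hu', e'⟩ := comm f hf
    have hu0 : (0 : ℝ) < u' := by exact_mod_cast hu'
    have hq : (w' : ℝ) / u' ∈ S :=
      (memS _).mpr ⟨f, hf, u', w', hu', e', by field_simp⟩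
    rw [hb, AddSubgroup.mem_closure_singleton] at hq
    obtain ⟨k, hk⟩ := hq
    rw [zsmul_eq_mul, eq_div_iff hu0.ne'] at hk
    have h1 : (k * w * u' : ℤ) = w' * u := by
      have : (k : ℝ) * w * u' = w' * u := by
        rw [← eq, ← hk]
        ring
      exact_mod_cast this
    have hg : f * (e ^ k)⁻¹ ∈ Cen h := ee_mul hf (ee_inv (ee_zpow he k))
    have a1 : f ^ (u * u') = h ^ (w' * u) := by
      rw [mul_comm u u', pow_mul, e', ← zpow_natCast, ← zpow_mul]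
    have a2 : (e ^ k) ^ (u * u') = h ^ (k * w * u') := by
      have h3 : (k * ((u * u' : ℕ) : ℤ)) = u * (k * u') := by
        push_cast
        ring
      rw [← zpow_natCast (e ^ k), ← zpow_mul, h3, zpow_mul, zpow_natCast, e1, ← zpow_mul]
      congr 1
      ring
    have h2 : (f * (e ^ k)⁻¹) ^ (u * u') = 1 := by
      rw [(ab f _ hf (ee_inv (ee_zpow he k))).mul_pow, inv_pow, mul_inv_eq_one, a1, a2, h1]
    have h3 := tors _ hg (u * u') (Nat.mul_pos hu hu') h2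
    exact ⟨k, mul_inv_eq_one.mp h3⟩
  refine ⟨e, ?_, fun f => ⟨key f, ?_⟩⟩
  · refine lox_of_pow hI hh hu ?_ e1
    rintro rfl
    rw [zpow_zero] at e1
    have e2 := tors e he u hu e1
    obtain ⟨k, hk⟩ := key h (ee_self h)
    rw [e2, one_zpow] at hk
    have := lox_zpow_ne ⟨x⟩ hI hh (j := 1) (by rw [zpow_one]; exact hk)
    omega
  · rintro ⟨k, rfl⟩
    exact ee_zpow he k

end BSD
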