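import Pool.Agent.Lib.MP_8528c3_al.StE

/-!
# Burnside project, E10e: `Cen h` depends only on the commensurability class
-/

namespace BSD

namespace E10e

variable {G X : Type} [Group G] [MulAction G X] {M : PM X}

theorem commute_abs {f h : G} {b : ℤ} (h1 : Commute f (h ^ b)) : Commute f (h ^ b.natAbs) := by
  rcases Int.natAbs_eq b with hb | hb
  · rw [hb, zpow_natCast] at h1
    exact h1
  · rw [hb, zpow_neg, zpow_natCast] at h1
    exact Commute.inv_right_iff.1 h1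

theorem sub {h h' : G} (H : ∃ e : G, ∀ f : G, f ∈ Cen h ↔ ∃ k : ℤ, f = e ^ k) {a b : ℤ}
    (hb : b ≠ 0) (hab : h ^ a = h' ^ b) {f : G} (hf : f ∈ Cen h) : f ∈ Cen h' := by
  obtain ⟨e, he⟩ := H
  obtain ⟨k, hk⟩ := (he f).1 hf
  have hh : h ∈ Cen h := ⟨1, le_rfl, by rw [pow_one]⟩
  obtain ⟨s, hs⟩ := (he h).1 hh
  have hc : Commute f (h' ^ b) := by
    rw [← hab, hs, hk, ← zpow_mul]
    exact Commute.zpow_zpow_self e k (s * a)
  exact ⟨b.natAbs, Int.natAbs_pos.2 hb, commute_abs hc⟩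

theorem lox_ne_one (hne : Nonempty X) {h : G} (hh : Lox M h) : h ≠ 1 := by
  rintro rfl
  obtain ⟨c, hc, h1⟩ := hh
  obtain ⟨x⟩ := hne
  have h2 := h1 x 1
  rw [one_pow, one_smul, M.self] at h2
  push_cast at h2
  linarith

theorem lox_zpow (hi : Iso G M) {e : G} (he : Lox M e) {k : ℤ} (hk : k ≠ 0) :
    Lox M (e ^ k) := by
  obtain ⟨c, hc, h1⟩ := he
  refine ⟨c, hc, fun x m => ?_⟩
  have hkm : (m : ℝ) ≤ ((k.natAbs * m : ℕ) : ℝ) := by
    have : 1 ≤ k.natAbs := Int.natAbs_pos.2 hk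
    exact_mod_cast Nat.le_mul_of_pos_left m this
  have h2 := h1 x (k.natAbs * m)
  have h3 : c * m ≤ c * ((k.natAbs * m : ℕ) : ℝ) := mul_le_mul_of_nonneg_left hkm hc.le
  refine h3.trans (h2.trans (le_of_eq ?_))
  rcases Int.natAbs_eq k with hb | hb
  · have : (e ^ k) ^ m = e ^ (k.natAbs * m) := by
      rw [pow_mul]
      congr 1
      conv_lhs => rw [hb]
      rw [zpow_natCast]
    rw [this]
  · have : (e ^ k) ^ m = (e ^ (k.natAbs * m))⁻¹ := by
      rw [pow_mul, ← inv_pow]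
      congr 1
      conv_lhs => rw [hb]
      rw [zpow_neg, zpow_natCast]
    rw [this, ← hi (e ^ (k.natAbs * m)) x ((e ^ (k.natAbs * m))⁻¹ • x), smul_inv_smul, M.symm]

end E10e

open E10e in
/-- E10e: `Cen h` depends only on the commensurability class. -/
theorem burn_E10e (hc : stE10c) : stE10e := by
  intro G X _ _ M n δ L' A0 kl hS h1 h2 h3 h4 h h' hh hh'
  obtain ⟨e, hle, he⟩ := hc G X M n δ L' A0 kl hS h1 h2 h3 h4 h hh
  obtain ⟨e', hle', he'⟩ := hc G X M n δ L' A0 kl hS h1 h2 h3 h4 h' hh'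
  have key : (∃ a b : ℤ, a ≠ 0 ∧ b ≠ 0 ∧ h ^ a = h' ^ b) → Cen h = Cen h' := by
    rintro ⟨a, b, ha, hb, hab⟩
    ext f
    exact ⟨fun hf => sub ⟨e, he⟩ hb hab hf, fun hf => sub ⟨e', he'⟩ ha hab.symm hf⟩
  refine ⟨key, ?_, ?_⟩
  · intro hm
    symm
    apply key
    obtain ⟨t, ht⟩ := (he h').1 hm
    obtain ⟨s, hs⟩ := (he h).1 ⟨1, le_rfl, by rw [pow_one]⟩
    refine ⟨t, s, ?_, ?_, ?_⟩
    · rintro rfl
      exact lox_ne_one hS.ne hh' (by rw [ht, zpow_zero])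
    · rintro rfl
      exact lox_ne_one hS.ne hh (by rw [hs, zpow_zero])
    · rw [hs, ht, ← zpow_mul, ← zpow_mul, mul_comm]
  · intro f hf hf1
    obtain ⟨k, hk⟩ := (he f).1 hf
    rw [hk]
    refine lox_zpow hS.iso hle ?_
    rintro rfl
    exact hf1 (by rw [hk, zpow_zero])

end BSD
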