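import Pool.Agent.Lib.MP_8528c3_al.EDefs

/-!
# Burnside project, part E: isometries of hyperbolic spaces, stages.  Statements only.
-/

namespace BSD

/-- E0: chain lemma (D1 of the plan). -/
def stE0 : Prop := ∀ (X : Type) (M : PM X) (δ c B : ℝ), M.Hyp δ → 0 ≤ c → 2 * c + 3 * δ < B →
  ∀ (m : ℕ) (p : ℕ → X), (∀ l, 1 ≤ l → l ≤ m → M.gp (p (l - 1)) (p (l + 1)) (p l) ≤ c) →
  (∀ l, 1 ≤ l → l < m → B ≤ M.d (p l) (p (l + 1))) →
  (∀ l, 1 ≤ l → l ≤ m → M.gp (p 0) (p (m + 1)) (p l) ≤ c + 2 * δ) ∧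
  ∑ l ∈ Finset.range (m + 1), M.d (p l) (p (l + 1)) - 2 * m * (c + 2 * δ) ≤
    M.d (p 0) (p (m + 1))

/-- E0b: deep points exist on long segments. -/
def stE0b : Prop := ∀ (X : Type) (M : PM X) (δ B r A : ℝ), M.SG 2 → 0 ≤ δ → 0 ≤ B → 0 < r →
  0 ≤ A → ∀ x y : X, 20 * B + 30 * r + 40 * δ + A + 10 ≤ M.d x y →
  ∃ z z' : X, Deep M δ B r x y z ∧ Deep M δ B r x y z' ∧ A ≤ M.d z z'

/-- E1: displacements are convex. -/
def stE1 : Prop := ∀ (G X : Type) [Group G] [MulAction G X] (M : PM X) (δ : ℝ), Iso G M →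
  M.Hyp δ → ∀ (f : G) (x y z : X),
  M.d z (f • z) ≤ max (M.d x (f • x)) (M.d y (f • y)) + 2 * M.gp x y z + 4 * δ

/-- E1b: Gromov products are convex. -/
def stE1b : Prop := ∀ (X : Type) (M : PM X) (δ : ℝ), M.Hyp δ → ∀ u v p a b : X,
  M.gp u v p ≤ max (M.gp u v a) (M.gp u v b) + M.gp a b p + 2 * δ

/-- E2: the image of a point of the segment `[x,y]` is close to `[x,y]`. -/
def stE2 : Prop := ∀ (G X : Type) [Group G] [MulAction G X] (M : PM X) (δ : ℝ), Iso G M →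
  M.Hyp δ → ∀ (f : G) (x y z : X) (Bx By r : ℝ), M.d x (f • x) ≤ Bx → M.d y (f • y) ≤ By →
  M.gp x y z ≤ r → Bx + r + 2 * δ < M.d x z → By + r + 2 * δ < M.d y z →
  M.gp x y (f • z) ≤ r + 2 * δ

/-- E3: the translation does not depend on the point. -/
def stE3 : Prop := ∀ (G X : Type) [Group G] [MulAction G X] (M : PM X) (δ : ℝ), Iso G M →
  M.Hyp δ → ∀ (f : G) (x y z z' : X) (B r : ℝ), M.d x (f • x) ≤ B → M.gp x y z ≤ r →
  M.gp x y z' ≤ r → B + r + 2 * δ < M.gp z y x → B + r + 2 * δ < M.gp z' y x →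
  |Tr M x z f - Tr M x z' f| ≤ 2 * δ

/-- E4a: the displacement at deep points is the translation. -/
def stE4a : Prop := ∀ (G X : Type) [Group G] [MulAction G X] (M : PM X) (δ B r : ℝ), Iso G M →
  M.Hyp δ → 0 ≤ B → 0 ≤ r → ∀ (f : G) (x y z z' : X), Dp M f (8 * B) x y →
  Deep M δ B r x y z → Deep M δ B r x y z' →
  |Tr M x z f| ≤ M.d x (f • x) ∧ |Tr M x z f - Tr M x z' f| ≤ 2 * δ ∧
  |Tr M x z f| - 2 * δ ≤ M.d z' (f • z') ∧ M.d z' (f • z') ≤ |Tr M x z f| + 3 * r + 8 * δ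

/-- E4b: the translation is a quasimorphism. -/
def stE4b : Prop := ∀ (G X : Type) [Group G] [MulAction G X] (M : PM X) (δ B r : ℝ), Iso G M →
  M.Hyp δ → 0 ≤ B → 0 ≤ r → ∀ (f g : G) (x y z : X) (Bf Bg : ℝ), Bf + Bg ≤ 9 * B → 0 ≤ Bf →
  0 ≤ Bg → Dp M f Bf x y → Dp M g Bg x y → Deep M δ B r x y z →
  |Tr M x z (f * g) - Tr M x z f - Tr M x z g| ≤ 2 * δ

/-- E4c: inverses, commutators and conjugates. -/
def stE4c : Prop := ∀ (G X : Type) [Group G] [MulAction G X] (M : PM X) (δ B r : ℝ), Iso G M →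
  M.Hyp δ → 0 ≤ B → 0 ≤ r → ∀ (f g c : G) (x y z : X), Dp M f B x y → Dp M g B x y →
  Dp M c (4 * B) x y → Deep M δ B r x y z →
  |Tr M x z f⁻¹ + Tr M x z f| ≤ 2 * δ ∧ |Tr M x z (f * g * f⁻¹ * g⁻¹)| ≤ 10 * δ ∧
  |Tr M x z (f * c * f⁻¹) - Tr M x z c| ≤ 8 * δ ∧ Dp M (f * g * f⁻¹ * g⁻¹) (4 * B) x y ∧
  Dp M (f * c * f⁻¹) (6 * B) x y

/-- E5: local criterion for loxodromic elements. -/
def stE5 : Prop := ∀ (G X : Type) [Group G] [MulAction G X] (M : PM X) (δ η : ℝ), Iso G M →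
  M.Hyp δ → 0 ≤ δ → 0 < η → ∀ (g : G) (x : X),
  M.d x (g • x) + 2 * δ + η ≤ M.d x (g ^ 2 • x) →
  (∀ m : ℕ, η * m ≤ M.d x (g ^ m • x)) ∧
  (∀ m : ℕ, 1 ≤ m → M.d x (g ^ m • x) ≤ M.d x (g ^ (m + 1) • x))

/-- E5b: linear growth at one point gives linear growth at all points. -/
def stE5b : Prop := ∀ (G X : Type) [Group G] [MulAction G X] (M : PM X) (c C : ℝ), Iso G M →
  ∀ (g : G) (x : X), (∀ m : ℕ, c * m - C ≤ M.d x (g ^ m • x)) →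
  ∀ (y : X) (m : ℕ), c * m ≤ M.d y (g ^ m • y)

/-- E6: elements which are not loxodromic have small displacement at deep points. -/
def stE6 : Prop := ∀ (G X : Type) [Group G] [MulAction G X] (M : PM X) (δ B r : ℝ), Iso G M →
  M.Hyp δ → 0 ≤ B → 0 ≤ r → ∀ (f : G) (x y z : X), Dp M f B x y → Deep M δ B r x y z →
  ¬ Lox M f → |Tr M x z f| ≤ 3 * r + 14 * δ ∧ M.d z (f • z) ≤ 6 * r + 22 * δ

/-- E7: roots have small displacement at deep points. -/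
def stE7 : Prop := ∀ (G X : Type) [Group G] [MulAction G X] (M : PM X) (δ B r : ℝ), Iso G M →
  M.Hyp δ → 0 ≤ B → 0 ≤ r → ∀ (e : G) (p : ℕ) (x y z : X), 1 ≤ p → Dp M e B x y →
  Deep M δ B r x y z → M.d z (e • z) ≤ max (6 * r + 22 * δ) (M.d z (e ^ p • z))

/-- E8: axis of an element with large displacement. -/
def stE8 : Prop := ∀ (G X : Type) [Group G] [MulAction G X] (M : PM X) (δ l : ℝ), Iso G M →
  M.Hyp δ → M.SG 2 → 1 ≤ δ → 100 * δ + 100 ≤ l → ∀ (g : G) (z : X),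
  (∀ x : X, l ≤ M.d x (g • x)) → M.d z (g • z) ≤ l + 1 →
  (∀ a b c : ℤ, a < b → b < c → M.gp (g ^ a • z) (g ^ c • z) (g ^ b • z) ≤ 4 * δ + 3) ∧
  ∀ (x : X) (m : ℕ), (l - 8 * δ - 6) * m ≤ M.d x (g ^ m • x)

/-- E9: points with bounded displacement are close to each other modulo the element. -/
def stE9 : Prop := ∀ (G X : Type) [Group G] [MulAction G X] (M : PM X) (δ : ℝ), Iso G M →
  M.Hyp δ → M.SG 2 → 1 ≤ δ → ∀ (g : G), (∀ x : X, 100 * δ + 100 ≤ M.d x (g • x)) →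
  ∀ (x y : X) (B : ℝ), Dp M g B x y → ∃ m : ℤ, M.d y (g ^ m • x) ≤ 2 * B + 36 * δ + 20

/-- E10s: the property (star) at deep points of a long segment. -/
def stE10s : Prop := ∀ (G X : Type) [Group G] [MulAction G X] (M : PM X) (n : ℕ)
  (δ L' A0 kl : ℝ), STAGE G M n δ L' A0 kl → 1 ≤ δ → 1000 * δ + 1000 ≤ L' → 0 ≤ A0 →
  ∀ (x y : X) (B : ℝ), 0 ≤ B → 20 * B + 40 * δ + A0 + 40 ≤ M.d x y →
  ∃ (z : X) (e : G), Deep M δ B 1 x y z ∧ (e = 1 ∨ Lox M e) ∧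
    (∀ g : G, Dp M g (8 * B) x y → |Tr M x z g| ≤ 20 * δ + 10 → ∃ k : ℤ, g = e ^ k) ∧
    (∀ f g g' : G, Dp M f B x y → Dp M g B x y → Dp M g' B x y →
      ∃ k : ℤ, f * (g * g' * g⁻¹ * g'⁻¹) * f⁻¹ = e ^ k) ∧
    (∀ f : G, Dp M f B x y → ¬ Lox M f → ∃ k : ℤ, f = e ^ k)

/-- E10t: long segments along a loxodromic element. -/
def stE10t : Prop := ∀ (G X : Type) [Group G] [MulAction G X] (M : PM X), Iso G M →
  ∀ (h : G), Lox M h → ∀ (x : X) (D : ℝ), ∃ a b : X, D ≤ M.d a b ∧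
    ∀ f : G, Commute f h → M.d a (f • a) = M.d x (f • x) ∧ M.d b (f • b) = M.d x (f • x)

/-- E10a: elements which commute with a loxodromic element are commensurable to it. -/
def stE10a : Prop := ∀ (G X : Type) [Group G] [MulAction G X] (M : PM X) (n : ℕ)
  (δ L' A0 kl : ℝ), STAGE G M n δ L' A0 kl → 1 ≤ δ → 1000 * δ + 1000 ≤ L' → 0 ≤ A0 → 0 < kl →
  ∀ f h : G, Lox M h → Commute f h → ∃ (u : ℕ) (w : ℤ), 1 ≤ u ∧ f ^ u = h ^ w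

/-- E10b: `Cen h` is abelian. -/
def stE10b : Prop := ∀ (G X : Type) [Group G] [MulAction G X] (M : PM X) (n : ℕ)
  (δ L' A0 kl : ℝ), STAGE G M n δ L' A0 kl → 1 ≤ δ → 1000 * δ + 1000 ≤ L' → 0 ≤ A0 → 0 < kl →
  ∀ f g h : G, Lox M h → f ∈ Cen h → g ∈ Cen h → Commute f g

/-- E10c: `Cen h` is infinite cyclic. -/
def stE10c : Prop := ∀ (G X : Type) [Group G] [MulAction G X] (M : PM X) (n : ℕ)
  (δ L' A0 kl : ℝ), STAGE G M n δ L' A0 kl → 1 ≤ δ → 1000 * δ + 1000 ≤ L' → 0 ≤ A0 → 0 < kl →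
  ∀ h : G, Lox M h → ∃ e : G, Lox M e ∧ ∀ f : G, f ∈ Cen h ↔ ∃ k : ℤ, f = e ^ k

/-- E10d: commensurating elements. -/
def stE10d : Prop := ∀ (G X : Type) [Group G] [MulAction G X] (M : PM X) (n : ℕ)
  (δ L' A0 kl : ℝ), STAGE G M n δ L' A0 kl → 1 ≤ δ → 1000 * δ + 1000 ≤ L' → 0 ≤ A0 → 0 < kl →
  Odd n → ∀ (f h : G) (a b : ℤ), Lox M h → a ≠ 0 → b ≠ 0 → f * h ^ a * f⁻¹ = h ^ b → f ∈ Cen h

/-- E10e: `Cen h` depends only on the commensurability class. -/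
def stE10e : Prop := ∀ (G X : Type) [Group G] [MulAction G X] (M : PM X) (n : ℕ)
  (δ L' A0 kl : ℝ), STAGE G M n δ L' A0 kl → 1 ≤ δ → 1000 * δ + 1000 ≤ L' → 0 ≤ A0 → 0 < kl →
  ∀ h h' : G, Lox M h → Lox M h' →
    ((∃ a b : ℤ, a ≠ 0 ∧ b ≠ 0 ∧ h ^ a = h' ^ b) → Cen h = Cen h') ∧ (h' ∈ Cen h → Cen h' = Cen h) ∧
    ∀ f : G, f ∈ Cen h → f ≠ 1 → Lox M f

/-- E11: the elements with bounded displacement at the ends of a long segment form a subset of a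
cyclic group. -/
def stE11 : Prop := ∀ (G X : Type) [Group G] [MulAction G X] (M : PM X) (n : ℕ)
  (δ L' A0 kl : ℝ), STAGE G M n δ L' A0 kl → 1 ≤ δ → 1000 * δ + 1000 ≤ L' → 0 ≤ A0 → 0 < kl →
  Odd n → ∀ (x y : X) (B : ℝ), 0 ≤ B → 20 * B + 40 * δ + A0 + 40 ≤ M.d x y →
  ∃ e : G, (e = 1 ∨ Lox M e) ∧ ∀ g : G, Dp M g B x y → ∃ k : ℤ, g = e ^ k

end BSD
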