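import Mathlib
import Pool.Agent.Lib.MP_8528c3_al.StE

set_option autoImplicit false

/-!
# Burnside project, E10s: the property (star) at deep points of a long segment
-/

namespace BSD

theorem burn_E10s (h0 : stE0b) (h4 : stE4a) (h4c : stE4c) (h6 : stE6) : stE10s := by
  intro G X _ _ M n δ L' A0 kl hS hδ hL hA x y B hB hxy
  have hδ0 : 0 ≤ δ := by linarith
  obtain ⟨z, z', hz, hz', hzz⟩ := h0 X M δ B 1 A0 hS.sg hδ0 hB one_pos hA x y (by linarith)
  obtain ⟨e, he, hst⟩ := hS.star z z' hzz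
  have mono : ∀ (f : G) (c c' : ℝ), c ≤ c' → Dp M f c x y → Dp M f c' x y :=
    fun f c c' h hf => ⟨hf.1.trans h, hf.2.trans h⟩
  have key : ∀ g : G, Dp M g (8 * B) x y → |Tr M x z g| ≤ 20 * δ + 10 → ∃ k : ℤ, g = e ^ k := by
    intro g hg hT
    have h1 := (h4 G X M δ B 1 hS.iso hS.hyp hB zero_le_one g x y z z hg hz hz).2.2.2
    have h2 := (h4 G X M δ B 1 hS.iso hS.hyp hB zero_le_one g x y z z' hg hz hz').2.2.2
    exact hst g ⟨by linarith, by linarith⟩
  refine ⟨z, e, hz, he, key, ?_, ?_⟩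
  · intro f g g' hf hg hg'
    obtain ⟨-, h1, -, h2, -⟩ := h4c G X M δ B 1 hS.iso hS.hyp hB zero_le_one g g' g x y z hg hg'
      (mono g B _ (by linarith) hg) hz
    obtain ⟨-, -, h3, -, h5⟩ := h4c G X M δ B 1 hS.iso hS.hyp hB zero_le_one f g
      (g * g' * g⁻¹ * g'⁻¹) x y z hf hg h2 hz
    refine key _ (mono _ _ _ (by linarith) h5) ?_
    rw [abs_le] at h1 h3 ⊢
    constructor <;> linarith [h1.1, h1.2, h3.1, h3.2]
  · intro f hf hl
    have h1 := (h6 G X M δ B 1 hS.iso hS.hyp hB zero_le_one f x y z hf hz hl).1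
    exact key f (mono f B _ (by linarith) hf) (by linarith)

end BSD
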