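import Pool.Agent.Lib.MP_8528c3_al.StE

/-!
# Burnside project, E10t: long segments along a loxodromic element
-/

namespace BSD

namespace E10t

theorem disp {G X : Type} [Group G] [MulAction G X] {M : PM X} (hI : Iso G M) {f k : G}
    (hc : Commute f k) (x : X) : M.d (k • x) (f • k • x) = M.d x (f • x) := by
  have h1 : f • k • x = k • f • x := by
    rw [smul_smul, smul_smul, hc.eq]
  rw [h1, hI]

end E10t

open E10t in
theorem burn_E10t : stE10t := by
  intro G X _ _ M hI h hL x D
  obtain ⟨c, hc, hd⟩ := hL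
  obtain ⟨N, hN⟩ := exists_nat_ge (D / c)
  refine ⟨(h ^ N)⁻¹ • x, h ^ N • x, ?_, ?_⟩
  · have h1 : M.d ((h ^ N)⁻¹ • x) (h ^ N • x) = M.d x (h ^ (N + N) • x) := by
      rw [← hI (h ^ N), smul_smul, mul_inv_cancel, one_smul, smul_smul, ← pow_add]
    rw [h1]
    have h2 := hd x (N + N)
    rw [div_le_iff₀ hc] at hN
    push_cast at h2
    have h3 : (0 : ℝ) ≤ N := Nat.cast_nonneg N
    nlinarith
  · intro f hf
    exact ⟨disp hI ((hf.pow_right N).inv_right) x, disp hI (hf.pow_right N) x⟩

end BSD
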