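import Pool.Agent.Lib.MP_8528c3_al.StE

/-!
# Burnside project, E11: the elements with bounded displacement at the ends of a long segment
-/

namespace BSD

namespace E11

theorem dp_one {G X : Type} [Group G] [MulAction G X] (M : PM X) {B : ℝ} (hB : 0 ≤ B) (x y : X) :
    Dp M (1 : G) B x y := by
  refine ⟨?_, ?_⟩
  · rw [one_smul, M.self]
    exact hB
  · rw [one_smul, M.self]
    exact hB

theorem self_mem {G : Type} [Group G] {f g : G} (h : Commute g f) : g ∈ Cen f :=
  ⟨1, le_rfl, by rw [pow_one]; exact h⟩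

theorem commute_of_comm_eq_one {G : Type} [Group G] {g g' : G} (h : g * g' * g⁻¹ * g'⁻¹ = 1) :
    Commute g g' := by
  have h1 : g * g' * g⁻¹ = g' := mul_inv_eq_one.1 h
  exact mul_inv_eq_iff_eq_mul.1 h1

end E11

open E11 in
theorem burn_E11 (h10s : stE10s) (h10b : stE10b) (h10c : stE10c) (h10d : stE10d) : stE11 := by
  intro G X _ _ M n δ L' A0 kl hS hδ hL hA hkl hn x y B hB hxy
  obtain ⟨z, e, -, he, -, hc, hnl⟩ := h10s G X M n δ L' A0 kl hS hδ hL hA x y B hB hxy
  -- all elements commute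
  have hcomm : ∀ g g' : G, Dp M g B x y → Dp M g' B x y → Commute g g' := by
    intro g g' hg hg'
    apply commute_of_comm_eq_one
    by_contra hne
    obtain ⟨a, ha⟩ := hc 1 g g' (dp_one M hB x y) hg hg'
    rw [one_mul, inv_one, mul_one] at ha
    have he1 : e ≠ 1 := by
      rintro rfl
      rw [one_zpow] at ha
      exact hne ha
    have heL : Lox M e := he.resolve_left he1
    have ha0 : a ≠ 0 := by
      rintro rfl
      rw [zpow_zero] at ha
      exact hne ha
    have hmem : ∀ f : G, Dp M f B x y → f ∈ Cen e := by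
      intro f hf
      obtain ⟨b, hb⟩ := hc f g g' hf hg hg'
      have hb0 : b ≠ 0 := by
        rintro rfl
        rw [zpow_zero] at hb
        have h2 : f * (g * g' * g⁻¹ * g'⁻¹) = f := mul_inv_eq_one.1 hb
        exact hne (mul_eq_left.1 h2)
      rw [ha] at hb
      exact h10d G X M n δ L' A0 kl hS hδ hL hA hkl hn f e a b heL ha0 hb0 hb
    have h3 := h10b G X M n δ L' A0 kl hS hδ hL hA hkl g g' e heL (hmem g hg) (hmem g' hg')
    apply hne
    rw [h3.eq, mul_inv_cancel_right, mul_inv_cancel]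
  by_cases hL1 : ∃ f : G, Dp M f B x y ∧ Lox M f
  · obtain ⟨f, hf, hfL⟩ := hL1
    obtain ⟨e', he', hC⟩ := h10c G X M n δ L' A0 kl hS hδ hL hA hkl f hfL
    exact ⟨e', Or.inr he', fun g hg => (hC g).1 (self_mem (hcomm g f hg hf))⟩
  · refine ⟨e, he, fun g hg => hnl g hg fun hg2 => hL1 ⟨g, hg, hg2⟩⟩

end BSD
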