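import Pool.Agent.Lib.MP_8528c3_al.StE

/-!
# Burnside project, E1b: Gromov products are convex
-/

namespace BSD

/-- E1b: Gromov products are convex (four point inequality A9 for `u, a, p, b` and `v, a, p, b`). -/
theorem burn_E1b (h9 : stA9) : stE1b := by
  intro X M δ hδ u v p a b
  have hu := h9 X M δ hδ u a p b
  have hv := h9 X M δ hδ v a p b
  have s1 := M.symm a p
  have s2 := M.symm b p
  have s3 := M.symm a b
  have t1 := M.tri p a b
  have t2 := M.tri p b a
  have t3 := M.tri v a b
  have t4 := M.tri u a b
  have t5 := M.tri v b a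
  have t6 := M.tri u b a
  have m1 : M.gp u v a ≤ max (M.gp u v a) (M.gp u v b) := le_max_left _ _
  have m2 : M.gp u v b ≤ max (M.gp u v a) (M.gp u v b) := le_max_right _ _
  unfold PM.gp at *
  rcases max_choice (M.d u a + M.d p b) (M.d u b + M.d a p) with e1 | e1 <;>
  rcases max_choice (M.d v a + M.d p b) (M.d v b + M.d a p) with e2 | e2 <;>
  rw [e1] at hu <;> rw [e2] at hv <;> linarith

end BSD
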