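import Pool.Agent.Lib.MP_8528c3_al.StE

/-!
# Burnside project, E2: images of points of a segment
-/

namespace BSD

theorem burn_E2 : stE2 := by
  intro G X _ _ M δ hI hH f x y z Bx By r hBx hBy hr hx hy
  have hδ : 0 ≤ δ := by
    have h := hH x x x x
    have h0 : M.gp x x x = 0 := by
      unfold PM.gp
      rw [M.self]
      norm_num
    rw [h0] at h
    simp only [min_self] at h
    linarith
  have e1 := hI f x z
  have e2 := hI f y z
  have e3 := hI f x y
  have sx := M.symm (f • x) x
  have sy := M.symm (f • y) y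
  have g0 : M.gp (f • x) (f • y) (f • z) = M.gp x y z := by
    unfold PM.gp
    rw [e1, e2, e3]
  have d1 : M.gp (f • x) x (f • z) =
      (M.d (f • x) (f • z) + M.d x (f • z) - M.d (f • x) x) / 2 := rfl
  have d2 : M.gp y (f • y) (f • z) =
      (M.d y (f • z) + M.d (f • y) (f • z) - M.d y (f • y)) / 2 := rfl
  have t1 := M.tri (f • x) x (f • z)
  have t2 := M.tri (f • y) y (f • z)
  have k1 : r + 2 * δ < M.gp (f • x) x (f • z) := by
    rw [d1]
    linarith
  have k2 : r + 2 * δ < M.gp y (f • y) (f • z) := by
    rw [d2]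
    linarith
  have h1 := hH (f • x) x (f • y) (f • z)
  rw [g0] at h1
  have k3 : M.gp x (f • y) (f • z) ≤ r + δ := by
    rcases le_total (M.gp (f • x) x (f • z)) (M.gp x (f • y) (f • z)) with h' | h'
    · rw [min_eq_left h'] at h1
      linarith
    · rw [min_eq_right h'] at h1
      linarith
  have h2 := hH x y (f • y) (f • z)
  rcases le_total (M.gp x y (f • z)) (M.gp y (f • y) (f • z)) with h' | h'
  · rw [min_eq_left h'] at h2
    linarith
  · rw [min_eq_right h'] at h2
    linarith

end BSD
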