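import Pool.Agent.Lib.MP_8528c3_al.StE

/-!
# Burnside project, E3: the translation does not depend on the point.
-/

namespace BSD

namespace E3

/-- The constant of hyperbolicity is nonnegative. -/
theorem delta_nonneg {X : Type} {M : PM X} {δ : ℝ} (h : M.Hyp δ) (x : X) : 0 ≤ δ := by
  have h1 := h x x x x
  simp only [PM.gp, M.self] at h1
  norm_num at h1
  exact h1

/-- Gromov products are nonnegative. -/
theorem gp_nonneg {X : Type} (M : PM X) (x y w : X) : 0 ≤ M.gp x y w := by
  have h1 := M.tri x w y
  rw [M.symm w y] at h1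
  unfold PM.gp
  linarith

/-- Four point inequality. -/
theorem four {X : Type} {M : PM X} {δ : ℝ} (h : M.Hyp δ) (x y z w : X) :
    M.d x z + M.d y w ≤ M.d x y + M.d z w + 2 * δ ∨
      M.d x z + M.d y w ≤ M.d x w + M.d y z + 2 * δ := by
  have h1 := h x y z w
  unfold PM.gp at h1
  rcases min_choice ((M.d x w + M.d y w - M.d x y) / 2) ((M.d y w + M.d z w - M.d y z) / 2)
    with h2 | h2
  · left
    rw [h2] at h1
    linarith
  · right
    rw [h2] at h1
    linarith

end E3

theorem burn_E3 : stE3 := by
  intro G X _ _ M δ hiso hyp f x y z z' B r hB hz hz' hzt hzt'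
  have hδ := E3.delta_nonneg hyp x
  have hr : 0 ≤ r := (E3.gp_nonneg M x y z).trans hz
  have hmove : ∀ w : X, M.d x (f • w) = M.d (f⁻¹ • x) w := by
    intro w
    have h1 := hiso f⁻¹ x (f • w)
    rw [inv_smul_smul] at h1
    exact h1.symm
  have hx' : M.d x (f⁻¹ • x) ≤ B := by
    have h1 := hiso f (f⁻¹ • x) x
    rw [smul_inv_smul, M.symm (f⁻¹ • x) x] at h1
    rw [← h1]
    exact hB
  unfold Tr
  rw [hmove z, hmove z']
  generalize f⁻¹ • x = x' at *
  -- the Gromov product of `z`, `z'` at `x` is large
  have hg : B ≤ M.gp z z' x := by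
    have h1 := hyp z y z' x
    have h2 : M.gp y z' x = M.gp z' y x := by
      unfold PM.gp
      rw [M.symm y z']
      ring
    rw [h2] at h1
    have h3 := lt_min hzt hzt'
    linarith
  unfold PM.gp at hg
  have e1 := M.symm z x
  have e2 := M.symm z' x
  have e6 := M.symm x x'
  have t1 := M.tri x x' z'
  have t2 := M.tri x x' z
  rw [abs_le]
  constructor
  · rcases E3.four hyp x x' z z' with h1 | h1 <;> linarith
  · rcases E3.four hyp x' x z z' with h1 | h1 <;> linarith

end BSD
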