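import Pool.Agent.Lib.MP_8528c3_al.StE

/-!
# Burnside project, E4a: the displacement at deep points is the translation.
-/

namespace BSD

namespace E4a

/-- The constant of hyperbolicity is nonnegative. -/
theorem delta_nonneg {X : Type} {M : PM X} {δ : ℝ} (h : M.Hyp δ) (x : X) : 0 ≤ δ := by
  have h1 := h x x x x
  simp only [PM.gp, M.self] at h1
  norm_num at h1
  exact h1

/-- Gromov products are nonnegative. -/
theorem gp_nonneg {X : Type} (M : PM X) (x y w : X) : 0 ≤ M.gp x y w := by
  have h1 := M.tri x w y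
  rw [M.symm w y] at h1
  unfold PM.gp
  linarith

/-- The position of a point. -/
theorem pos {X : Type} (M : PM X) (x y z : X) : M.gp z y x = M.d x z - M.gp x y z := by
  have h1 := M.symm z x
  have h2 := M.symm y x
  have h3 := M.symm y z
  unfold PM.gp
  linarith

/-- The translation is bounded by the displacement of the first point. -/
theorem tr_le {G X : Type} [Group G] [MulAction G X] {M : PM X} (hiso : Iso G M) (f : G)
    (x z : X) : |Tr M x z f| ≤ M.d x (f • x) := by
  have h1 := M.tri x (f • x) (f • z)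
  have h2 := M.tri (f • x) x (f • z)
  have h3 := hiso f x z
  have h4 := M.symm (f • x) x
  unfold Tr
  rw [abs_le]
  constructor <;> linarith

/-- The translation is bounded by the displacement of the second point. -/
theorem tr_le' {G X : Type} [Group G] [MulAction G X] (M : PM X) (f : G)
    (x z : X) : |Tr M x z f| ≤ M.d z (f • z) := by
  have h1 := M.tri x z (f • z)
  have h2 := M.tri x (f • z) z
  have h4 := M.symm (f • z) z
  unfold Tr
  rw [abs_le]
  constructor <;> linarith

end E4a

open E4a in
theorem burn_E4a (hA10 : stA10) (hE2 : stE2) (hE3 : stE3) : stE4a := by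
  intro G X _ _ M δ B r hiso hyp hB hr f x y z z' hf hz hz'
  have hδ := delta_nonneg hyp x
  have hp := pos M x y z
  have hp' := pos M x y z'
  have h1 := hz.gp
  have h1' := hz'.gp
  have h2 := hz.dx
  have h2' := hz'.dx
  have h3' := hz'.dy
  have h3 : |Tr M x z f - Tr M x z' f| ≤ 2 * δ :=
    hE3 G X M δ hiso hyp f x y z z' (8 * B) r hf.1 h1 h1' (by linarith) (by linarith)
  have h4 : M.gp x y (f • z') ≤ r + 2 * δ :=
    hE2 G X M δ hiso hyp f x y z' (8 * B) (8 * B) r hf.1 hf.2 h1' (by linarith) (by linarith)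
  have h5 := (hA10 X M δ hyp x y z' (f • z')).2
  rw [hp', pos M x y (f • z')] at h5
  have h6 : |M.d x z' - M.gp x y z' - (M.d x (f • z') - M.gp x y (f • z'))| ≤
      |Tr M x z' f| + |M.gp x y (f • z') - M.gp x y z'| := by
    have h7 : M.d x z' - M.gp x y z' - (M.d x (f • z') - M.gp x y (f • z')) =
        -Tr M x z' f + (M.gp x y (f • z') - M.gp x y z') := by
      unfold Tr
      ring
    rw [h7, ← abs_neg (Tr M x z' f)]
    exact abs_add_le _ _
  have h8 : |M.gp x y (f • z') - M.gp x y z'| + M.gp x y z' + M.gp x y (f • z') ≤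
      2 * (r + 2 * δ) := by
    rcases abs_cases (M.gp x y (f • z') - M.gp x y z') with h9 | h9 <;> linarith [h9.1]
  have h9 := tr_le' M f x z'
  have h10 : |Tr M x z f| ≤ |Tr M x z' f| + 2 * δ := by
    have h11 := abs_sub_abs_le_abs_sub (Tr M x z f) (Tr M x z' f)
    linarith
  have h12 : |Tr M x z' f| ≤ |Tr M x z f| + 2 * δ := by
    have h11 := abs_sub_abs_le_abs_sub (Tr M x z' f) (Tr M x z f)
    rw [abs_sub_comm] at h11
    linarith
  exact ⟨tr_le hiso f x z, h3, by linarith, by linarith⟩

end BSD
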