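import Pool.Agent.Lib.MP_8528c3_al.StE

/-!
# Burnside project, E4b: the translation is a quasimorphism
-/

namespace BSD

namespace E4b

/-- The constant of hyperbolicity is nonnegative. -/
theorem delta_nonneg {X : Type} {M : PM X} {δ : ℝ} (h : M.Hyp δ) (x : X) : 0 ≤ δ := by
  have h1 := h x x x x
  simp only [PM.gp, M.self] at h1
  norm_num at h1
  exact h1

/-- The position of a point. -/
theorem pos {X : Type} (M : PM X) (x y z : X) : M.gp z y x = M.d x z - M.gp x y z := by
  have h1 := M.symm z x
  have h2 := M.symm y x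
  have h3 := M.symm y z
  unfold PM.gp
  linarith

end E4b

open E4b in
theorem burn_E4b (hE2 : stE2) (hE3 : stE3) : stE4b := by
  intro G X _ _ M δ B r hiso hyp hB hr f g x y z Bf Bg hfg hf0 hg0 hf hg hz
  have hδ := delta_nonneg hyp x
  have h1 := hz.gp
  have h2 := hz.dx
  have h3 := hz.dy
  have h4 : M.gp x y (g • z) ≤ r + 2 * δ :=
    hE2 G X M δ hiso hyp g x y z Bg Bg r hg.1 hg.2 h1 (by linarith) (by linarith)
  have h5 : M.d x z - Bg ≤ M.d x (g • z) := by
    have h6 := M.tri (g • x) x (g • z)
    have h7 := hiso g x z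
    have h8 := M.symm (g • x) x
    have h9 := hg.1
    linarith
  have p1 := pos M x y z
  have p2 := pos M x y (g • z)
  have h10 : |Tr M x (g • z) f - Tr M x z f| ≤ 2 * δ :=
    hE3 G X M δ hiso hyp f x y (g • z) z Bf (r + 2 * δ) hf.1 h4 (by linarith) (by linarith)
      (by linarith)
  have h11 : Tr M x z (f * g) - Tr M x z f - Tr M x z g = Tr M x (g • z) f - Tr M x z f := by
    unfold Tr
    rw [mul_smul]
    ring
  rw [h11]
  exact h10

end BSD
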