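import Pool.Agent.Lib.MP_8528c3_al.StE

/-!
# Burnside project, E4c: translations of inverses, commutators and conjugates
-/

namespace BSD

namespace E4c

variable {G X : Type} [Group G] [MulAction G X] {M : PM X}

theorem disp_mul (hI : Iso G M) (f g : G) (x : X) :
    M.d x ((f * g) • x) ≤ M.d x (f • x) + M.d x (g • x) := by
  have h1 := M.tri x (f • x) ((f * g) • x)
  rw [mul_smul, hI] at h1
  rw [mul_smul]
  exact h1

theorem disp_inv (hI : Iso G M) (f : G) (x : X) : M.d x (f⁻¹ • x) = M.d x (f • x) := by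
  rw [← hI f x (f⁻¹ • x), smul_inv_smul, M.symm]

theorem dp_mul (hI : Iso G M) {f g : G} {x y : X} {a b : ℝ} (hf : Dp M f a x y)
    (hg : Dp M g b x y) : Dp M (f * g) (a + b) x y :=
  ⟨(disp_mul hI f g x).trans (add_le_add hf.1 hg.1),
    (disp_mul hI f g y).trans (add_le_add hf.2 hg.2)⟩

theorem dp_inv (hI : Iso G M) {f : G} {x y : X} {a : ℝ} (hf : Dp M f a x y) :
    Dp M f⁻¹ a x y := by
  refine ⟨?_, ?_⟩
  · rw [disp_inv hI]; exact hf.1
  · rw [disp_inv hI]; exact hf.2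

theorem tr_one (x z : X) : Tr M x z (1 : G) = 0 := by
  simp [Tr]

end E4c

open E4c in
theorem burn_E4c (h : stE4b) : stE4c := by
  intro G X _ _ M δ B r hI hH hB hr f g c x y z hf hg hc hD
  have key : ∀ (a b : G) (Ba Bb : ℝ), Ba + Bb ≤ 9 * B → 0 ≤ Ba → 0 ≤ Bb → Dp M a Ba x y →
      Dp M b Bb x y → |Tr M x z (a * b) - Tr M x z a - Tr M x z b| ≤ 2 * δ := by
    intro a b Ba Bb h1 h2 h3 h4 h5
    exact h G X M δ B r hI hH hB hr a b x y z Ba Bb h1 h2 h3 h4 h5 hD
  have hfi := dp_inv hI hf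
  have hgi := dp_inv hI hg
  have inv : ∀ a : G, Dp M a B x y → |Tr M x z a⁻¹ + Tr M x z a| ≤ 2 * δ := by
    intro a ha
    have h1 := key a⁻¹ a B B (by linarith) hB hB (dp_inv hI ha) ha
    rw [inv_mul_cancel, tr_one] at h1
    rw [← abs_neg]
    have e : -(Tr M x z a⁻¹ + Tr M x z a) = 0 - Tr M x z a⁻¹ - Tr M x z a := by ring
    rw [e]
    exact h1
  have i1 := abs_le.1 (inv f hf)
  have i2 := abs_le.1 (inv g hg)
  have d1 := dp_mul hI hf hg
  have d2 := dp_mul hI d1 hfi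
  have d3 := dp_mul hI d2 hgi
  have e1 := dp_mul hI hf hc
  have e2 := dp_mul hI e1 hfi
  have k1 := abs_le.1 (key f g B B (by linarith) hB hB hf hg)
  have k2 := abs_le.1 (key (f * g) f⁻¹ (B + B) B (by linarith) (by linarith) hB d1 hfi)
  have k3 := abs_le.1 (key (f * g * f⁻¹) g⁻¹ (B + B + B) B (by linarith) (by linarith) hB d2 hgi)
  have l1 := abs_le.1 (key f c B (4 * B) (by linarith) hB (by linarith) hf hc)
  have l2 := abs_le.1 (key (f * c) f⁻¹ (B + 4 * B) B (by linarith) (by linarith) hB e1 hfi)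
  refine ⟨inv f hf, ?_, ?_, ?_, ?_⟩
  · rw [abs_le]
    constructor <;> linarith [i1.1, i1.2, i2.1, i2.2, k1.1, k1.2, k2.1, k2.2, k3.1, k3.2]
  · rw [abs_le]
    constructor <;> linarith [i1.1, i1.2, l1.1, l1.2, l2.1, l2.2]
  · exact ⟨d3.1.trans (by linarith), d3.2.trans (by linarith)⟩
  · exact ⟨e2.1.trans (by linarith), e2.2.trans (by linarith)⟩

end BSD
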