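import Pool.Agent.Lib.MP_8528c3_al.StE

/-!
# Burnside project, E5: local criterion for loxodromic elements
-/

namespace BSD

theorem burn_E5 (h9 : stA9) : stE5 := by
  intro G X _ _ M δ η hI hH hδ hη g x h
  have e0 : M.d x (g ^ 0 • x) = 0 := by rw [pow_zero, one_smul, M.self]
  have e1 : M.d x (g ^ 1 • x) = M.d x (g • x) := by rw [pow_one]
  -- displacements only depend on the difference of the exponents
  have hs : ∀ k m : ℕ, M.d (g ^ k • x) (g ^ (k + m) • x) = M.d x (g ^ m • x) := by
    intro k m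
    rw [pow_add, mul_smul, hI]
  have key : ∀ m : ℕ, M.d x (g ^ (m + 1) • x) + η ≤
      max (M.d x (g ^ m • x)) (M.d x (g ^ (m + 2) • x)) := by
    intro m
    have h1 := h9 X M δ hH x (g ^ 1 • x) (g ^ 2 • x) (g ^ (m + 2) • x)
    have h2 : M.d (g ^ 1 • x) (g ^ (m + 2) • x) = M.d x (g ^ (m + 1) • x) := by
      rw [show m + 2 = 1 + (m + 1) by ring]
      exact hs 1 (m + 1)
    have h3 : M.d (g ^ 2 • x) (g ^ (m + 2) • x) = M.d x (g ^ m • x) := by
      rw [show m + 2 = 2 + m by ring]
      exact hs 2 m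
    have h4 : M.d (g ^ 1 • x) (g ^ 2 • x) = M.d x (g • x) := by
      rw [← e1]
      exact hs 1 1
    rw [h2, h3, h4, e1] at h1
    have h5 := le_max_left (M.d x (g ^ m • x)) (M.d x (g ^ (m + 2) • x))
    have h6 := le_max_right (M.d x (g ^ m • x)) (M.d x (g ^ (m + 2) • x))
    have h7 : max (M.d x (g • x) + M.d x (g ^ m • x)) (M.d x (g ^ (m + 2) • x) + M.d x (g • x)) ≤
        M.d x (g • x) + max (M.d x (g ^ m • x)) (M.d x (g ^ (m + 2) • x)) :=
      max_le (by linarith) (by linarith)
    linarith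
  -- the displacements increase
  have inc : ∀ m : ℕ, M.d x (g ^ (m + 1) • x) + η ≤ M.d x (g ^ (m + 2) • x) := by
    intro m
    induction m with
    | zero =>
      rw [show 0 + 1 = 1 by rfl, show 0 + 2 = 2 by rfl, e1]
      linarith
    | succ m ih =>
      have h1 := key (m + 1)
      rcases le_max_iff.1 h1 with h2 | h2
      · exfalso
        rw [show m + 1 + 1 = m + 2 by ring] at h2
        linarith
      · exact h2
  have ha1 : η ≤ M.d x (g • x) := by
    have h1 := M.tri x (g ^ 1 • x) (g ^ 2 • x)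
    have h2 := hs 1 1
    rw [show 1 + 1 = 2 by rfl] at h2
    rw [h2, e1] at h1
    linarith
  refine ⟨fun m => ?_, fun m hm => ?_⟩
  · induction m with
    | zero =>
      rw [e0, Nat.cast_zero, mul_zero]
    | succ m ih =>
      rcases m with _ | m
      · rw [show 0 + 1 = 1 by rfl, e1, Nat.cast_one, mul_one]
        exact ha1
      · have h1 := inc m
        rw [show m + 1 + 1 = m + 2 by ring]
        push_cast at ih ⊢
        linarith
  · obtain ⟨k, rfl⟩ : ∃ k, m = k + 1 := ⟨m - 1, by omega⟩
    have h1 := inc k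
    rw [show k + 1 + 1 = k + 2 by ring]
    linarith

end BSD
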