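import Pool.Agent.Lib.MP_8528c3_al.StE

/-!
# Burnside project, module E5b: linear growth at one point gives linear growth at all points
-/

namespace BSD

namespace E5b

theorem pow_le {G X : Type} [Group G] [MulAction G X] (M : PM X) (hM : Iso G M) (h : G) (y : X)
    (k : ℕ) : M.d y (h ^ k • y) ≤ k * M.d y (h • y) := by
  induction k with
  | zero =>
    rw [pow_zero, one_smul, M.self]
    simp
  | succ k ih =>
    have h1 := M.tri y (h ^ k • y) (h ^ (k + 1) • y)
    have h2 : M.d (h ^ k • y) (h ^ (k + 1) • y) = M.d y (h • y) := by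
      rw [pow_succ, mul_smul, hM]
    rw [h2] at h1
    push_cast
    linarith

end E5b

/-- E5b: linear growth at one point gives linear growth at all points. -/
theorem burn_E5b : stE5b := by
  intro G X _ _ M c C hM g x h y m
  by_contra hlt
  push Not at hlt
  obtain ⟨N, hN⟩ := exists_nat_gt ((C + 2 * M.d x y) / (c * m - M.d y (g ^ m • y)))
  have hpos : 0 < c * m - M.d y (g ^ m • y) := by linarith
  rw [div_lt_iff₀ hpos] at hN
  have h1 := h (m * N)
  have h2 := E5b.pow_le M hM (g ^ m) y N
  rw [← pow_mul] at h2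
  have h3 := M.tri x y (g ^ (m * N) • x)
  have h4 := M.tri y (g ^ (m * N) • y) (g ^ (m * N) • x)
  have h5 : M.d (g ^ (m * N) • y) (g ^ (m * N) • x) = M.d x y := by
    rw [hM, M.symm]
  push_cast at h1
  nlinarith

end BSD
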