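import Pool.Agent.Lib.MP_8528c3_al.StE

/-!
# Burnside project, E6: elements which are not loxodromic at deep points
-/

namespace BSD

namespace E6

variable {G X : Type} [Group G] [MulAction G X] {M : PM X}

theorem delta_nonneg {δ : ℝ} (hH : M.Hyp δ) (x : X) : 0 ≤ δ := by
  have h := hH x x x x
  simp only [PM.gp, M.self, min_self] at h
  linarith

theorem disp_mul (hI : Iso G M) (f g : G) (x : X) :
    M.d x ((f * g) • x) ≤ M.d x (f • x) + M.d x (g • x) := by
  have h1 := M.tri x (f • x) ((f * g) • x)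
  rw [mul_smul, hI] at h1
  rw [mul_smul]
  exact h1

theorem abs_tr_le (x z : X) (f : G) : |Tr M x z f| ≤ M.d z (f • z) := by
  unfold Tr
  have h1 := M.tri x z (f • z)
  have h2 := M.tri x (f • z) z
  rw [M.symm (f • z) z] at h2
  rw [abs_le]
  constructor <;> linarith

/-- A large translation at a deep point makes the element loxodromic. -/
theorem lox_of_tr (h4a : stE4a) (h4b : stE4b) (h5 : stE5) (h5b : stE5b) {δ B r : ℝ}
    (hI : Iso G M) (hH : M.Hyp δ) (hB : 0 ≤ B) (hr : 0 ≤ r) {f : G} {x y z : X}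
    (hf : Dp M f B x y) (hD : Deep M δ B r x y z) (h : 3 * r + 14 * δ < |Tr M x z f|) :
    Lox M f := by
  have hδ := delta_nonneg hH x
  have hf8 : Dp M f (8 * B) x y := ⟨hf.1.trans (by linarith), hf.2.trans (by linarith)⟩
  obtain ⟨-, -, -, a4⟩ := h4a G X M δ B r hI hH hB hr f x y z z hf8 hD hD
  have b := h4b G X M δ B r hI hH hB hr f f x y z B B (by linarith) hB hB hf hf hD
  have c := abs_tr_le (M := M) x z (f * f)
  have key : 2 * |Tr M x z f| - 2 * δ ≤ |Tr M x z (f * f)| := by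
    have b' := abs_le.1 b
    rcases abs_cases (Tr M x z f) with ⟨h1, -⟩ | ⟨h1, -⟩
    · have := le_abs_self (Tr M x z (f * f))
      linarith [b'.1]
    · have := neg_abs_le (Tr M x z (f * f))
      linarith [b'.2]
  have hη : 0 < |Tr M x z f| - 3 * r - 14 * δ := by linarith
  obtain ⟨e1, -⟩ := h5 G X M δ (|Tr M x z f| - 3 * r - 14 * δ) hI hH hδ hη f z (by
    rw [pow_two]
    linarith)
  refine ⟨|Tr M x z f| - 3 * r - 14 * δ, hη, ?_⟩
  exact h5b G X M (|Tr M x z f| - 3 * r - 14 * δ) 0 hI f z (fun m => by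
    have := e1 m
    linarith)

end E6

open E6 in
theorem burn_E6 (h4a : stE4a) (h4b : stE4b) (h5 : stE5) (h5b : stE5b) : stE6 := by
  intro G X _ _ M δ B r hI hH hB hr f x y z hf hD hL
  have hT : |Tr M x z f| ≤ 3 * r + 14 * δ := by
    by_contra hc
    exact hL (lox_of_tr h4a h4b h5 h5b hI hH hB hr hf hD (not_le.1 hc))
  have hf8 : Dp M f (8 * B) x y := ⟨hf.1.trans (by linarith), hf.2.trans (by linarith)⟩
  obtain ⟨-, -, -, a4⟩ := h4a G X M δ B r hI hH hB hr f x y z z hf8 hD hD
  exact ⟨hT, by linarith⟩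

end BSD
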