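import Pool.Agent.Lib.MP_8528c3_al.StE

/-!
# Burnside project, E7: roots have small displacement at deep points
-/

namespace BSD

namespace E7

theorem mono_pow {G X : Type} [Group G] [MulAction G X] (M : PM X) (e : G) (z : X)
    (h : ∀ m : ℕ, 1 ≤ m → M.d z (e ^ m • z) ≤ M.d z (e ^ (m + 1) • z)) :
    ∀ p : ℕ, 1 ≤ p → M.d z (e • z) ≤ M.d z (e ^ p • z) := by
  intro p hp
  induction p, hp using Nat.le_induction with
  | base => rw [pow_one]
  | succ m hm ih => exact le_trans ih (h m hm)

end E7

theorem burn_E7 (h4a : stE4a) (h4b : stE4b) (h5 : stE5) : stE7 := by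
  intro G X _ _ M δ B r hiso hyp hB hr e p x y z hp hdp hdeep
  have hδ : 0 ≤ δ := by
    have h := hyp x x x x
    rw [min_self] at h
    linarith
  -- E4a for `e` at `z' = z`
  have hdp8 : Dp M e (8 * B) x y := ⟨by linarith [hdp.1], by linarith [hdp.2]⟩
  obtain ⟨-, -, -, h1⟩ := h4a G X M δ B r hiso hyp hB hr e x y z z hdp8 hdeep hdeep
  by_cases hc : |Tr M x z e| ≤ 3 * r + 14 * δ
  · exact le_trans (by linarith) (le_max_left _ _)
  · rw [not_le] at hc
    refine le_trans ?_ (le_max_right _ _)
    -- the translation of `e * e`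
    have h2 := h4b G X M δ B r hiso hyp hB hr e e x y z B B (by linarith) hB hB hdp hdp hdeep
    have h3 : |Tr M x z (e * e)| ≤ M.d z (e ^ 2 • z) := by
      have t1 := M.tri x (e ^ 2 • z) z
      have t2 := M.tri x z (e ^ 2 • z)
      have t3 := M.symm (e ^ 2 • z) z
      rw [← pow_two]
      unfold Tr
      rw [abs_le]
      constructor <;> linarith
    have h6 : 2 * |Tr M x z e| ≤ |Tr M x z (e * e)| + 2 * δ := by
      have e1 : 2 * |Tr M x z e| = |2 * Tr M x z e| := by
        rw [abs_mul, abs_two]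
      rw [e1]
      have e2 : 2 * Tr M x z e = Tr M x z (e * e) -
          (Tr M x z (e * e) - Tr M x z e - Tr M x z e) := by ring
      rw [e2]
      refine le_trans (abs_sub _ _) ?_
      linarith
    obtain ⟨-, h7⟩ := h5 G X M δ (|Tr M x z e| - 3 * r - 14 * δ) hiso hyp hδ (by linarith) e z
      (by linarith)
    exact E7.mono_pow M e z h7 p hp

end BSD
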