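import Pool.Agent.Lib.MP_8528c3_al.StE

/-!
# Burnside project, E9: points with bounded displacement lie along the axis
-/

namespace BSD

namespace E9

/-- A discrete intermediate value theorem. -/
theorem ivt (u : ℕ → ℝ) (t s : ℝ) (k : ℕ) (hs : 0 ≤ s) (h0 : u 0 ≤ t) (hk : t ≤ u k)
    (hu : ∀ i, u (i + 1) ≤ u i + s) : ∃ i ≤ k, |u i - t| ≤ s := by
  classical
  have hex : ∃ i, t ≤ u i := ⟨k, hk⟩
  refine ⟨Nat.find hex, Nat.find_min' hex hk, ?_⟩
  have h1 := Nat.find_spec hex
  have h2 : u (Nat.find hex) ≤ t + s := by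
    rcases Nat.eq_zero_or_pos (Nat.find hex) with h3 | h3
    · rw [h3]
      linarith
    · obtain ⟨i, hi⟩ : ∃ i, Nat.find hex = i + 1 := ⟨Nat.find hex - 1, by omega⟩
      have h4 : ¬ t ≤ u i := Nat.find_min hex (by omega)
      rw [hi]
      have := hu i
      linarith [not_le.1 h4]
  rw [abs_le]
  constructor <;> linarith

theorem near (h9 : stA9) (h10 : stA10) {G X : Type} [Group G] [MulAction G X] (M : PM X)
    (δ l B : ℝ) (iso : Iso G M) (hyp : M.Hyp δ) (hδ : 1 ≤ δ) (hl : 100 * δ + 100 ≤ l) (g : G)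
    (z0 : X) (hinf : ∀ x : X, l ≤ M.d x (g • x)) (hz0 : M.d z0 (g • z0) ≤ l + 1)
    (ax : ∀ a b c : ℤ, a < b → b < c → M.gp (g ^ a • z0) (g ^ c • z0) (g ^ b • z0) ≤ 4 * δ + 3)
    (gr : ∀ (x : X) (m : ℕ), (l - 8 * δ - 6) * m ≤ M.d x (g ^ m • x)) (z : X)
    (hz : M.d z (g • z) ≤ B) : ∃ j : ℤ, M.d z (g ^ j • z0) ≤ B + 18 * δ + 10 := by
  obtain ⟨n, hn⟩ := exists_nat_gt (B + M.d z z0 + 5 * δ + 3)
  have hzz := M.nonneg z z0
  have hB : 0 ≤ B := (M.nonneg _ _).trans hz
  have hn1 : (1 : ℝ) < n := by linarith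
  have hn1' : 1 < n := by exact_mod_cast hn1
  have hgz : M.d (g • z) z0 ≤ B + M.d z z0 := by
    have h1 := M.tri (g • z) z z0
    have h2 := M.symm (g • z) z
    linarith
  set a : X := g ^ (-((n : ℤ) + 1)) • z0 with ha
  set b : X := g ^ ((n : ℤ) + 1) • z0 with hb
  have hga : g • a = g ^ (-(n : ℤ)) • z0 := by
    rw [ha, smul_smul, ← zpow_one_add]
    congr 2
    ring
  have hgb : g • b = g ^ ((n : ℤ) + 2) • z0 := by
    rw [hb, smul_smul, ← zpow_one_add]
    congr 2
    ring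
  have e0 : g ^ (0 : ℤ) • z0 = z0 := by rw [zpow_zero, one_smul]
  have hlb : (1 : ℝ) ≤ l - 8 * δ - 6 := by linarith
  -- distances from `z0`
  have hdga : (n : ℝ) ≤ M.d (g • a) z0 := by
    rw [hga]
    have h1 := gr z0 n
    have h2 : M.d (g ^ (-(n : ℤ)) • z0) z0 = M.d z0 (g ^ n • z0) := by
      rw [← iso (g ^ n) (g ^ (-(n : ℤ)) • z0) z0, smul_smul, ← zpow_natCast, ← zpow_add,
        add_neg_cancel, zpow_zero, one_smul]
    rw [h2]
    nlinarith
  have hdb : (n : ℝ) ≤ M.d b z0 := by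
    have h1 := gr z0 (n + 1)
    have h2 : M.d b z0 = M.d z0 (g ^ (n + 1) • z0) := by
      rw [M.symm, hb]
      congr 2
      rw [← zpow_natCast]
      congr 1
    rw [h2]
    push_cast at h1
    nlinarith
  -- the two ends
  have k1 : M.d a z + l - 10 * δ - 6 ≤ M.d (g • z) a := by
    have h1 : M.gp a z0 (g • a) ≤ 4 * δ + 3 := by
      rw [hga]
      have := ax (-((n : ℤ) + 1)) (-(n : ℤ)) 0 (by omega) (by omega)
      rwa [e0] at this
    have h2 := hyp a (g • z) z0 (g • a)
    have h3 : 5 * δ + 3 < M.gp (g • z) z0 (g • a) := by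
      unfold PM.gp
      have h4 := M.tri (g • a) (g • z) z0
      have h5 := M.symm (g • a) (g • z)
      have h6 := M.symm (g • a) z0
      linarith
    have h4 : M.gp a (g • z) (g • a) ≤ 5 * δ + 3 := by
      rcases min_choice (M.gp a (g • z) (g • a)) (M.gp (g • z) z0 (g • a)) with h5 | h5
      · rw [h5] at h2
        linarith
      · rw [h5] at h2
        linarith
    unfold PM.gp at h4
    have h5 := hinf a
    have h6 := iso g z a
    have h7 := M.symm (g • z) a
    have h8 := M.symm z a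
    linarith
  have k2 : M.d (g • z) b + l - 10 * δ - 6 ≤ M.d z b := by
    have h1 : M.gp (g • b) z0 b ≤ 4 * δ + 3 := by
      have h0 : M.gp (g • b) z0 b = M.gp z0 (g • b) b := by
        unfold PM.gp
        rw [M.symm (g • b) z0]
        ring
      rw [h0, hgb]
      have := ax 0 ((n : ℤ) + 1) ((n : ℤ) + 2) (by omega) (by omega)
      rwa [e0] at this
    have h2 := hyp (g • b) (g • z) z0 b
    have h3 : 5 * δ + 3 < M.gp (g • z) z0 b := by
      unfold PM.gp
      have h4 := M.tri b (g • z) z0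
      have h5 := M.symm b (g • z)
      have h6 := M.symm b z0
      linarith
    have h4 : M.gp (g • b) (g • z) b ≤ 5 * δ + 3 := by
      rcases min_choice (M.gp (g • b) (g • z) b) (M.gp (g • z) z0 b) with h5 | h5
      · rw [h5] at h2
        linarith
      · rw [h5] at h2
        linarith
    unfold PM.gp at h4
    have h5 := hinf b
    have h6 := iso g b z
    have h7 := M.symm (g • b) b
    have h8 := M.symm z b
    linarith
  -- the distance of `z` from the axis
  have k3 : M.gp a b z ≤ B - l + 12 * δ + 6 := by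
    have h1 := h9 X M δ hyp (g • z) z a b
    have h2 := M.symm (g • z) z
    have h3 := M.symm z a
    have h4 : M.d (g • z) a + M.d z b ≤ M.d (g • z) z + M.d a b + 2 * δ := by
      rcases le_total (M.d (g • z) z + M.d a b) (M.d (g • z) b + M.d z a) with h5 | h5
      · rw [max_eq_right h5] at h1
        linarith
      · rw [max_eq_left h5] at h1
        linarith
    have h5 : M.d a b ≤ M.d (g • z) a + M.d (g • z) b := by
      have := M.tri a (g • z) b
      have h6 := M.symm a (g • z)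
      linarith
    have h6 := M.symm z b
    unfold PM.gp
    linarith
  -- the point on the axis
  have hab0 : M.gp a b a = 0 := by
    unfold PM.gp
    rw [M.self, M.symm b a]
    ring
  have hbb : M.gp b b a = M.d a b := by
    unfold PM.gp
    rw [M.self, M.symm b a]
    ring
  have habb : M.gp a b b = 0 := by
    unfold PM.gp
    rw [M.self]
    ring
  obtain ⟨i, hi, hi'⟩ := ivt
    (fun i : ℕ => M.gp (g ^ ((i : ℤ) - ((n : ℤ) + 1)) • z0) b a) (M.gp z b a) (l + 1)
    (2 * (n + 1)) (by linarith)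
    (by
      have h1 : g ^ (((0 : ℕ) : ℤ) - ((n : ℤ) + 1)) • z0 = a := by
        rw [ha]
        congr 2
      change M.gp (g ^ (((0 : ℕ) : ℤ) - ((n : ℤ) + 1)) • z0) b a ≤ _
      rw [h1, hab0]
      unfold PM.gp
      have := M.tri z a b
      have h2 := M.symm b a
      linarith)
    (by
      have h1 : g ^ (((2 * (n + 1) : ℕ) : ℤ) - ((n : ℤ) + 1)) • z0 = b := by
        rw [hb]
        congr 2
        push_cast
        ring
      change _ ≤ M.gp (g ^ (((2 * (n + 1) : ℕ) : ℤ) - ((n : ℤ) + 1)) • z0) b a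
      rw [h1, hbb]
      unfold PM.gp
      have := M.tri z b a
      have h2 := M.symm b a
      linarith)
    (by
      intro i
      have h1 := (h10 X M δ hyp a b (g ^ (((i + 1 : ℕ) : ℤ) - ((n : ℤ) + 1)) • z0)
        (g ^ ((i : ℤ) - ((n : ℤ) + 1)) • z0)).1
      have h2 : g ^ (((i + 1 : ℕ) : ℤ) - ((n : ℤ) + 1)) • z0 =
          g ^ ((i : ℤ) - ((n : ℤ) + 1)) • (g • z0) := by
        rw [smul_smul, ← zpow_add_one]
        congr 2
        push_cast
        ring
      have h3 : M.d (g ^ (((i + 1 : ℕ) : ℤ) - ((n : ℤ) + 1)) • z0)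
          (g ^ ((i : ℤ) - ((n : ℤ) + 1)) • z0) ≤ l + 1 := by
        rw [h2, iso, M.symm]
        exact hz0
      have h4 := (abs_le.1 h1).2
      change M.gp (g ^ (((i + 1 : ℕ) : ℤ) - ((n : ℤ) + 1)) • z0) b a ≤
        M.gp (g ^ ((i : ℤ) - ((n : ℤ) + 1)) • z0) b a + (l + 1)
      linarith)
  refine ⟨(i : ℤ) - ((n : ℤ) + 1), ?_⟩
  set w : X := g ^ ((i : ℤ) - ((n : ℤ) + 1)) • z0 with hw
  have hr : M.gp a b w ≤ 4 * δ + 3 := by
    rcases Nat.eq_zero_or_pos i with h1 | h1
    · have h2 : w = a := by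
        rw [hw, ha, h1]
        congr 2
      rw [h2, hab0]
      linarith
    · rcases Nat.lt_or_ge i (2 * (n + 1)) with h2 | h2
      · exact ax (-((n : ℤ) + 1)) ((i : ℤ) - ((n : ℤ) + 1)) ((n : ℤ) + 1) (by omega) (by omega)
      · have h3 : w = b := by
          have h4 : i = 2 * (n + 1) := le_antisymm hi h2
          rw [hw, hb, h4]
          congr 2
          push_cast
          ring
        rw [h3, habb]
        linarith
  have h1 := (h10 X M δ hyp a b z w).2
  rw [abs_sub_comm] at h1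
  have h2 : |M.gp w b a - M.gp z b a| ≤ l + 1 := hi'
  linarith

end E9

open E9 in
theorem burn_E9 (h9 : stA9) (h10 : stA10) (h8 : stE8) : stE9 := by
  intro G X _ _ M δ iso hyp sg hδ g hg x y B hB
  have hne : Nonempty X := ⟨x⟩
  have hbd : BddBelow (Set.range fun x : X => M.d x (g • x)) :=
    ⟨0, by rintro _ ⟨z, rfl⟩; exact M.nonneg _ _⟩
  set l : ℝ := ⨅ x : X, M.d x (g • x) with hl
  have hl1 : ∀ x : X, l ≤ M.d x (g • x) := fun x => ciInf_le hbd x
  have hl2 : 100 * δ + 100 ≤ l := le_ciInf hg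
  obtain ⟨z0, hz0⟩ := exists_lt_of_ciInf_lt (show (⨅ x : X, M.d x (g • x)) < l + 1 by linarith)
  obtain ⟨ax, gr⟩ := h8 G X M δ l iso hyp sg hδ hl2 g z0 hl1 hz0.le
  obtain ⟨i, hi⟩ := near h9 h10 M δ l B iso hyp hδ hl2 g z0 hl1 hz0.le ax gr x hB.1
  obtain ⟨j, hj⟩ := near h9 h10 M δ l B iso hyp hδ hl2 g z0 hl1 hz0.le ax gr y hB.2
  refine ⟨j - i, ?_⟩
  have h1 := M.tri y (g ^ j • z0) (g ^ (j - i) • x)
  have h2 : M.d (g ^ j • z0) (g ^ (j - i) • x) = M.d (g ^ i • z0) x := by
    have h3 : g ^ j • z0 = g ^ (j - i) • (g ^ i • z0) := by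
      rw [smul_smul, ← zpow_add, sub_add_cancel]
    rw [h3, iso]
  have h3 := M.symm (g ^ i • z0) x
  linarith

end BSD
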