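import Pool.Agent.Lib.MP_8528c3_al.StF

/-!
# Burnside project, F0: the constants exist
-/

namespace BSD

namespace F0

theorem tt1_pos (δ ρ : ℝ) : 0 < tt1 δ ρ := by
  unfold tt1
  have h1 := Real.exp_pos ρ
  have h2 := Real.exp_pos (5 * δ + 14)
  linarith

/-- The scaling factor. -/
theorem exists_lam (κ t e : ℝ) (hκ : 0 < κ) (ht : 0 < t) (he : 0 < e) :
    ∃ N0 : ℕ, ∀ n : ℕ, N0 ≤ n → ∃ lam : ℝ, 0 < lam ∧ lam ^ 2 * (κ * n) = t ∧ lam ≤ e := by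
  obtain ⟨N, hN⟩ := exists_nat_ge (t / (κ * e ^ 2))
  refine ⟨N + 1, fun n hn => ?_⟩
  have hn0 : (0 : ℝ) < n := by
    have : 0 < n := by omega
    exact_mod_cast this
  have hn1 : (N : ℝ) ≤ n := by
    have : N ≤ n := by omega
    exact_mod_cast this
  have hκn : 0 < κ * n := mul_pos hκ hn0
  refine ⟨Real.sqrt (t / (κ * n)), Real.sqrt_pos.2 (div_pos ht hκn), ?_, ?_⟩
  · rw [Real.sq_sqrt (div_pos ht hκn).le]
    field_simp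
  · refine (Real.sqrt_le_left he.le).2 ?_
    rw [div_le_iff₀ hκn]
    have h1 : t / (κ * e ^ 2) ≤ n := hN.trans hn1
    rw [div_le_iff₀ (by positivity)] at h1
    linarith

end F0

/-- F0: the constants exist. -/
theorem burn_F0 : stF0 := by
  intro δ T hδ hT hb
  obtain ⟨L, eL⟩ : ∃ L : ℝ, L = 1000 * δ + 1000 := ⟨_, rfl⟩
  obtain ⟨L1, eL1⟩ : ∃ L1 : ℝ, L1 = L + 8 * δ + 5 := ⟨_, rfl⟩
  obtain ⟨L', eL'⟩ : ∃ L' : ℝ, L' = L1 + 1000 * δ + 1000 := ⟨_, rfl⟩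
  obtain ⟨M', eM'⟩ : ∃ M' : ℝ, M' = 2 * Real.exp ((3 * L' + 5) / 2) := ⟨_, rfl⟩
  obtain ⟨M2, eM2⟩ : ∃ M2 : ℝ, M2 = M' + 2 := ⟨_, rfl⟩
  obtain ⟨C3, eC3⟩ : ∃ C3 : ℝ, C3 = T + Real.log M2 + 2 * M2 + 4 := ⟨_, rfl⟩
  obtain ⟨Tt, eTt⟩ : ∃ Tt : ℝ, Tt = 4 * Real.exp (C3 + 2 * δ + 1) := ⟨_, rfl⟩
  obtain ⟨κ, eκ⟩ : ∃ κ : ℝ, κ = L / (2 * Tt) := ⟨_, rfl⟩
  have hM' : 0 < M' := by rw [eM']; positivity
  have hM2 : 2 < M2 := by linarith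
  have hlog : 0 ≤ Real.log M2 := Real.log_nonneg (by linarith)
  have hC3 : 0 < C3 := by linarith
  have hexp : 1 ≤ Real.exp (C3 + 2 * δ + 1) := Real.one_le_exp (by linarith)
  have hTt0 : 4 ≤ Tt := by linarith
  have hTt : 2 * C3 + 4 * δ + 1 ≤ 2 * Real.log (Tt / 4) := by
    have h1 : Tt / 4 = Real.exp (C3 + 2 * δ + 1) := by rw [eTt]; ring
    rw [h1, Real.log_exp]
    linarith
  have hL : 0 < L := by linarith
  have hκ : 0 < κ := by rw [eκ]; exact div_pos hL (by linarith)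
  refine ⟨max (20 * L' + 2 * C3 + 1200 * δ + 1100)
    (Real.log (M2 + 4 * Real.exp (T + 1 + δ))), fun ρ hρ => ?_⟩
  have hρ1 : 20 * L' + 2 * C3 + 1200 * δ + 1100 ≤ ρ := (le_max_left _ _).trans hρ
  have hρ2' : Real.log (M2 + 4 * Real.exp (T + 1 + δ)) ≤ ρ := (le_max_right _ _).trans hρ
  have hpos : 0 < M2 + 4 * Real.exp (T + 1 + δ) := by
    have := Real.exp_pos (T + 1 + δ)
    linarith
  have hρ2 : M2 + 4 * Real.exp (T + 1 + δ) ≤ Real.exp ρ :=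
    (Real.log_le_iff_le_exp hpos).1 hρ2'
  have hρ0 : 0 ≤ ρ := by linarith
  obtain ⟨r1, er1⟩ : ∃ r1 : ℝ, r1 = M' + L' + ρ + 3 := ⟨_, rfl⟩
  obtain ⟨A0, eA0⟩ : ∃ A0 : ℝ, A0 = 2 * r1 + 200 * M' + 10 * L' + 1000 * (δ + 1) * L' :=
    ⟨_, rfl⟩
  obtain ⟨A1, eA1⟩ : ∃ A1 : ℝ, A1 = A0 + 10 * δ + 10 := ⟨_, rfl⟩
  obtain ⟨A2, eA2⟩ : ∃ A2 : ℝ, A2 = A0 + 20 * δ + 30 := ⟨_, rfl⟩
  obtain ⟨A3, eA3⟩ : ∃ A3 : ℝ, A3 = 3 * A1 + 30 * δ + 100 := ⟨_, rfl⟩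
  obtain ⟨A4, eA4⟩ : ∃ A4 : ℝ, A4 = A0 + 10 * A1 + 200 * δ + 200 := ⟨_, rfl⟩
  have hL' : 0 < L' := by linarith
  have hA0 : 0 < A0 := by
    have : 0 < 1000 * (δ + 1) * L' := by positivity
    linarith
  have hA4 : 0 < A4 := by linarith
  refine ⟨{ δ := δ, T := T, L := L, L1 := L1, L' := L', M' := M', M2 := M2, C3 := C3, Tt := Tt,
            κ := κ, ρ := ρ, r1 := r1, A0 := A0, A1 := A1, A2 := A2, A3 := A3, A4 := A4,
            b20 := hb, hδ := hδ, hT := hT, eL := eL, eL1 := eL1, eL' := eL', eM' := eM',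
            eM2 := eM2, eC3 := eC3, hTt0 := hTt0, hTt := hTt, eκ := eκ, ρ0 := hρ0, hρ1 := hρ1,
            hρ2 := hρ2, er1 := er1, eA0 := eA0, eA1 := eA1, eA2 := eA2, eA3 := eA3,
            eA4 := eA4 }, rfl, rfl, rfl, fun ε hε => ?_⟩
  set C : ℝ := 100 * (A4 + A0 + δ + 10) with hC
  have hCpos : 0 < C := by rw [hC]; linarith
  have he : 0 < min ε (1 / 100 / C) := lt_min hε (by positivity)
  obtain ⟨N0, hN0⟩ := F0.exists_lam κ (101 * tt1 δ ρ) (min ε (1 / 100 / C)) hκ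
    (by have := F0.tt1_pos δ ρ; linarith) he
  refine ⟨N0, fun n hn hodd => ?_⟩
  obtain ⟨lam, h1, h2, h3⟩ := hN0 n hn
  have h4 : lam ≤ 1 / 100 / C := h3.trans (min_le_right _ _)
  have h5 : lam * C ≤ 1 / 100 := (le_div_iff₀ hCpos).1 h4
  exact ⟨{ δ := δ, T := T, L := L, L1 := L1, L' := L', M' := M', M2 := M2, C3 := C3, Tt := Tt,
            κ := κ, ρ := ρ, r1 := r1, A0 := A0, A1 := A1, A2 := A2, A3 := A3, A4 := A4,
            b20 := hb, hδ := hδ, hT := hT, eL := eL, eL1 := eL1, eL' := eL', eM' := eM',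
            eM2 := eM2, eC3 := eC3, hTt0 := hTt0, hTt := hTt, eκ := eκ, ρ0 := hρ0, hρ1 := hρ1,
            hρ2 := hρ2, er1 := er1, eA0 := eA0, eA1 := eA1, eA2 := eA2, eA3 := eA3,
            eA4 := eA4, n := n, hn := hodd, lam := lam, kl := κ * lam, hlam := h1, elam := h2,
            ekl := rfl, hl := h5 }, rfl, rfl, h3.trans (min_le_left _ _)⟩

end BSD
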