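import Pool.Agent.Lib.MP_8528c3_al.StF

/-!
# Burnside project, F1: the sets `Y i` are not empty
-/

namespace BSD

/-- F1. -/
theorem burn_F1 (h0b : stE0b) (h1 : stE1) (h7 : stE7) (h10t : stE10t) (h6 : stF6) : stF1 := by
  intro G X I _ _ _ c M E R Y fs i
  obtain ⟨⟨hE, -⟩, -⟩ := h6 G X I c M E R Y fs
  obtain ⟨e, he1, heL, heE, heY⟩ := hE i
  obtain ⟨g, hgL, ⟨x0, hx0⟩, hgE⟩ := fs.cen i
  have hgi : g ∈ E i := (hgE g).2 ⟨1, le_rfl, by rw [pow_one]⟩
  obtain ⟨k, hk⟩ := (heE g).1 hgi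
  have hiso := fs.st.iso
  have hδ := c.hδ
  -- the exponent is not zero
  have hk0 : k ≠ 0 := by
    rintro rfl
    rw [zpow_zero] at hk
    obtain ⟨a, ha, hax⟩ := hgL
    have h2 := hax x0 1
    rw [hk, one_pow, one_smul, M.self, Nat.cast_one, mul_one] at h2
    linarith
  have hp : 1 ≤ k.natAbs := Int.natAbs_pos.2 hk0
  have hinv : ∀ z : X, M.d z (g⁻¹ • z) = M.d z (g • z) := by
    intro z
    have h2 := hiso g z (g⁻¹ • z)
    rw [smul_inv_smul] at h2
    rw [← h2, M.symm]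
  have hpow : ∀ z : X, M.d z (e ^ k.natAbs • z) = M.d z (g • z) := by
    intro z
    rcases Int.natAbs_eq k with h2 | h2
    · have h3 : e ^ k.natAbs = g := by
        rw [hk]
        conv_rhs => rw [h2]
        rw [zpow_natCast]
      rw [h3]
    · have h3 : e ^ k.natAbs = g⁻¹ := by
        rw [hk]
        conv_rhs => rw [h2]
        rw [zpow_neg, zpow_natCast, inv_inv]
      rw [h3, hinv]
  have hcomm : Commute e g := by
    rw [hk]
    exact (Commute.refl e).zpow_right k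
  set B : ℝ := max (M.d x0 (e • x0)) c.L with hB
  have hB0 : 0 ≤ B := (M.nonneg _ _).trans (le_max_left _ _)
  obtain ⟨a, b, hab, hf⟩ := h10t G X M hiso g hgL x0 (20 * B + 30 * 1 + 40 * c.δ + 0 + 10)
  obtain ⟨z, -, hz, -, -⟩ := h0b X M c.δ B 1 0 fs.st.sg (by linarith) hB0 one_pos le_rfl a b hab
  have hDp : Dp M e B a b := by
    obtain ⟨h2, h3⟩ := hf e hcomm
    exact ⟨by rw [h2]; exact le_max_left _ _, by rw [h3]; exact le_max_left _ _⟩
  have h2 := h7 G X M c.δ B 1 hiso fs.st.hyp hB0 zero_le_one e k.natAbs a b z hp hDp hz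
  have h3 := h1 G X M c.δ hiso fs.st.hyp g a b z
  obtain ⟨h4, h5⟩ := hf g (Commute.refl g)
  rw [h4, h5, max_self] at h3
  have h8 := hz.gp
  refine ⟨z, (heY z).2 ?_⟩
  rw [hpow] at h2
  have hL := c.eL
  have hL1 := c.eL1
  refine h2.trans (max_le ?_ ?_)
  · linarith
  · linarith

end BSD
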