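import Pool.Agent.Lib.MP_8528c3_al.StF

/-!
# Burnside project, F11: two points of the cone-off with an apex near the segment (case A)
-/

namespace BSD

namespace F11Aux

/-- The abstract form of F11 in a windmill setting. -/
theorem main (hD8 : stD8) (hD10 : stD10) (hE1 : stE1) {G Z I : Type} [Group G] [MulAction G Z]
    [MulAction G I] {M : PM Z} {v : I → Z} {R : I → Subgroup G} {θ : I → Z → Z → ℝ}
    {ρ C δ : ℝ} (W : WS M v R θ ρ C δ) (L' CA r1 : ℝ) (hlt : L' + 2 * CA + 1 + 4 * δ < 2 * ρ)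
    (h11a : ∀ (i : I) (g : G), g • i = i → g ∉ KK R → ∀ x : Z,
      dqf M (KK R) x (g • x) ≤ L' → M.d x (v i) ≤ dqf M (KK R) x (v i) + 1 + 2 * CA →
      M.d x (v i) ≤ r1)
    (x y : Z) (hxy : M.d x y ≤ dqf M (KK R) x y + 1) (i : I) (hi : M.gp x y (v i) ≤ CA)
    (g : G) (hgK : g ∉ KK R) (hx : dqf M (KK R) x (g • x) ≤ L')
    (hy : dqf M (KK R) y (g • y) ≤ L') : dqf M (KK R) x y ≤ 2 * r1 := by
  obtain ⟨-, h8⟩ := hD8 G Z I M v R θ ρ C δ W
  obtain ⟨q1, -, q3, -, q5⟩ := h8 W.rf.iso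
  have hyp := hD10 G Z I M v R θ ρ C δ W W.rf.iso
  have e1 := hE1 G Z (dqPM M (KK R) W.rf.iso) δ q1 hyp g x y (v i)
  have hw1 := q3 x (v i)
  have hw2 := q3 y (v i)
  have hd := q3 x y
  change dqf M (KK R) (v i) (g • v i) ≤
    max (dqf M (KK R) x (g • x)) (dqf M (KK R) y (g • y)) +
      2 * ((dqf M (KK R) x (v i) + dqf M (KK R) y (v i) - dqf M (KK R) x y) / 2) + 4 * δ at e1
  change dqf M (KK R) x (v i) ≤ M.d x (v i) at hw1
  change dqf M (KK R) y (v i) ≤ M.d y (v i) at hw2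
  change dqf M (KK R) x y ≤ M.d x y at hd
  have hmax : max (dqf M (KK R) x (g • x)) (dqf M (KK R) y (g • y)) ≤ L' := max_le hx hy
  unfold PM.gp at hi
  -- the element `k` of `K`
  have hk : ∃ k ∈ KK R, k • i = g • i := by
    by_contra hcon
    have hcon' : ∀ k ∈ KK R, k • i ≠ g • i := fun k hk h => hcon ⟨k, hk, h⟩
    have h := q5 i (g • i) hcon'
    change 2 * ρ ≤ dqf M (KK R) (v i) (v (g • i)) at h
    rw [W.rf.vg] at h
    linarith
  obtain ⟨k, hk, hki⟩ := hk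
  have hfix : (k⁻¹ * g) • i = i := by
    rw [mul_smul, ← hki, inv_smul_smul]
  have hnK : k⁻¹ * g ∉ KK R := by
    intro h
    apply hgK
    have := (KK R).mul_mem hk h
    rwa [mul_inv_cancel_left] at this
  have hx' : dqf M (KK R) x ((k⁻¹ * g) • x) ≤ L' := by
    rw [mul_smul, dqf_smul_right M (KK R) x (g • x) ((KK R).inv_mem hk)]
    exact hx
  have hy' : dqf M (KK R) y ((k⁻¹ * g) • y) ≤ L' := by
    rw [mul_smul, dqf_smul_right M (KK R) y (g • y) ((KK R).inv_mem hk)]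
    exact hy
  have tri : dqf M (KK R) x y ≤ dqf M (KK R) x (v i) + dqf M (KK R) y (v i) := by
    have h := (dqPM M (KK R) W.rf.iso).tri x (v i) y
    have h2 := (dqPM M (KK R) W.rf.iso).symm (v i) y
    change dqf M (KK R) x y ≤ dqf M (KK R) x (v i) + dqf M (KK R) (v i) y at h
    change dqf M (KK R) (v i) y = dqf M (KK R) y (v i) at h2
    linarith
  have a1 := h11a i (k⁻¹ * g) hfix hnK x hx' (by linarith)
  have a2 := h11a i (k⁻¹ * g) hfix hnK y hy' (by linarith)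
  linarith

end F11Aux

open F11Aux in
/-- F11: two points with an apex near the segment (case A). -/
theorem burn_F11 (hC0 : stC0) (hD8 : stD8) (hD10 : stD10) (hE1 : stE1) (hF5w : stF5w)
    (hF6 : stF6) (hF11a : stF11a) (hF0b : stF0b) : stF11 := by
  intro G X I _ _ _ c M E R Y hFS hY hg
  letI := coAct c.ρ hg
  intro x y hxy hi g hgK hx hy
  obtain ⟨i, hi⟩ := hi
  have W := hF5w G X I c M E R Y hFS hY hg
  obtain ⟨⟨-, -, f3, -, -⟩, -⟩ := hF6 G X I c M E R Y hFS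
  obtain ⟨⟨-, b2, -, -, b5, -⟩, -⟩ := hF0b c
  have hδ := c.hδ
  have hρ1 := c.hρ1
  refine F11Aux.main hD8 hD10 hE1 W c.L' (2 * c.L' + 2 + c.δ) c.r1 (by linarith) ?_ x y hxy i hi
    g hgK hx hy
  intro j h hj hK z hz hz2
  exact hF11a G X I c M E R Y hFS hY hg j h ((f3 h j).1 hj) hK z hz hz2

end BSD
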