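import Pool.Agent.Lib.MP_8528c3_al.StF

/-!
# Burnside project, F11b: points of the cone-off with small displacement by an element of `E i`
-/

set_option autoImplicit false

namespace BSD

/-- **F11b**. -/
theorem burn_F11b (hB8 : stB8) (hF6 : stF6) (hF7 : stF7) (hF8h : stF8h) (hF0b : stF0b) :
    stF11b := by
  intro G X I _ _ _ c M E R Y H hY hg i f hf hf1 x hx
  obtain ⟨⟨_, hL', hM', _⟩, ⟨_, _, _, _, _, _, _, _, _⟩, ⟨_, _, _, _, _, hA3, _⟩⟩ := hF0b c
  have hr1 := c.er1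
  obtain ⟨⟨_, _, _, h4, _⟩, _⟩ := hF6 G X I c M E R Y H
  rcases hF8h G X I c M E R Y H hY hg x with ⟨j, hj, hfj⟩ | ⟨x0, hx0, hfx0⟩
  · have hji : i = j := by
      by_contra hne
      exact hf1 (h4 i j hne f hf (hfj f hx))
    subst hji
    linarith
  · have hlam := c.hlam
    have h1 := hfx0 f hx
    have h2 : M.d x0 (f • x0) ≤ c.M' / c.lam := by
      rw [le_div_iff₀ hlam]
      linarith [mul_comm c.lam (M.d x0 (f • x0))]
    obtain ⟨y, hyY, hy⟩ := hF7 G X I c M E R Y H i f hf hf1 x0 (c.M' / c.lam) h2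
    have h3 : c.lam * M.d x0 y ≤ c.M' + c.lam * c.A3 := by
      have h5 := mul_le_mul_of_nonneg_left hy hlam.le
      have h6 : c.lam * (c.M' / c.lam + c.A3) = c.M' + c.lam * c.A3 := by
        rw [mul_add, mul_div_cancel₀ _ hlam.ne']
      linarith
    obtain ⟨hb1, _, _, _, hb5, _⟩ := hB8 X I (c.N M) Y c.ρ (fun _ => y) hY c.ρ0 i
    have h5 := hb1 x0 y
    have h6 := hb5 y hyY
    have h7 : (c.N M).d x0 y = c.lam * M.d x0 y := rfl
    have h8 := (c.Z M hY).tri x (Co.base x0) (Co.apex i)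
    have h9 := (c.Z M hY).tri (Co.base x0) (Co.base y) (Co.apex i)
    change (c.Z M hY).d x (Co.base x0) ≤ c.L' + 2 at hx0
    change (c.Z M hY).d (Co.base x0) (Co.base y) ≤ (c.N M).d x0 y at h5
    change (c.Z M hY).d (Co.base y) (Co.apex i) ≤ c.ρ at h6
    rw [h7] at h5
    linarith

end BSD
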