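import Pool.Agent.Lib.MP_8528c3_al.StF

/-!
# Burnside project, F12: two points without an apex near the segment (case B)
-/

set_option autoImplicit false

namespace BSD

namespace F12

theorem gp_left {Z : Type} (M : PM Z) (x x' y w : Z) :
    M.gp x y w ≤ M.gp x' y w + M.d x x' := by
  have h1 := M.tri x x' w
  have h2 := M.tri x' x y
  have h3 := M.symm x' x
  unfold PM.gp
  linarith

theorem gp_right {Z : Type} (M : PM Z) (x y y' w : Z) :
    M.gp x y w ≤ M.gp x y' w + M.d y y' := by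
  have h1 := M.tri y y' w
  have h2 := M.tri x y y'
  have h3 := M.symm y y'
  unfold PM.gp
  linarith

/-- The general statement in the windmill setting. -/
theorem gen (hD12 : stD12) {G Z I : Type} [Group G] [MulAction G Z] [MulAction G I] (M : PM Z)
    (v : I → Z) (R : I → Subgroup G) (θ : I → Z → Z → ℝ) (ρ C δ : ℝ) (hW : WS M v R θ ρ C δ)
    (L' : ℝ) (hL : 0 ≤ L') (hρ : (2 * L' + 2) / 2 + δ < ρ - (7 * δ + 5)) (x y : Z)
    (hxy : M.d x y ≤ dqf M (KK R) x y + 1) (hfar : ∀ i, 2 * L' + 2 + δ < M.gp x y (v i))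
    (g : G) (hgx : dqf M (KK R) x (g • x) ≤ L') (hgy : dqf M (KK R) y (g • y) ≤ L') :
    ∃ k ∈ KK R, M.d x ((k * g) • x) ≤ L' + 1 ∧ M.d y ((k * g) • y) ≤ L' + 1 := by
  have iso := hW.rf.iso
  obtain ⟨k0, hk0, h1⟩ := dqf_approx M (KK R) x (g • x) one_pos
  rw [← mul_smul] at h1
  have hgy' : dqf M (KK R) y ((k0 * g) • y) ≤ L' := by
    rw [mul_smul, dqf_smul_right M (KK R) _ _ hk0]
    exact hgy
  set g' := k0 * g with hg'
  have h1' : M.d x (g' • x) ≤ L' + 1 := by linarith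
  obtain ⟨k, hk, h2⟩ := dqf_approx M (KK R) y (g' • y) one_pos
  have h2' : M.d y (k • g' • y) ≤ L' + 1 := by linarith
  by_cases hk1 : k = 1
  · refine ⟨k0, hk0, h1', ?_⟩
    rw [hk1, one_smul] at h2'
    exact h2'
  exfalso
  have t1 : dqf M (KK R) x y ≤ dqf M (KK R) x (g' • y) + dqf M (KK R) y (g' • y) := by
    have a1 := (dqPM M (KK R) iso).tri x (g' • y) y
    have a2 := (dqPM M (KK R) iso).symm (g' • y) y
    change dqf M (KK R) x y ≤ dqf M (KK R) x (g' • y) + dqf M (KK R) (g' • y) y at a1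
    change dqf M (KK R) (g' • y) y = dqf M (KK R) y (g' • y) at a2
    linarith
  have h3 : M.d x (k • g' • y) ≤ dqf M (KK R) x (g' • y) + (2 * L' + 2) := by
    have a1 := M.tri x y (k • g' • y)
    linarith
  obtain ⟨-, i, hi⟩ := hD12 G Z I M v R θ ρ C δ hW x (g' • y) (2 * L' + 2) k hk hk1
    (by linarith) h3 hρ
  rcases min_le_iff.1 hi with h | h
  · have hv : g' • v (g'⁻¹ • i) = v i := by
      rw [← hW.rf.vg, smul_inv_smul]
    have e : M.gp x y (v (g'⁻¹ • i)) = M.gp (g' • x) (g' • y) (v i) := by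
      unfold PM.gp
      rw [← hv, iso, iso, iso]
    have a1 := hfar (g'⁻¹ • i)
    rw [e] at a1
    have a2 := gp_left M (g' • x) x (g' • y) (v i)
    have a3 := M.symm (g' • x) x
    linarith
  · have a1 := hfar i
    have a2 := gp_right M x y (k • g' • y) (v i)
    linarith

end F12

theorem burn_F12 (hF0b : stF0b) (hF5w : stF5w) (hD12 : stD12) : stF12 := by
  intro G X I _ _ _ c M E R Y hFS hY hg
  let _ := coAct c.ρ hg
  intro x y hxy hfar g hgx hgy
  have hW := hF5w G X I c M E R Y hFS hY hg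
  obtain ⟨⟨-, hL', -⟩, -⟩ := hF0b c
  refine F12.gen hD12 (c.Z M hY) (fun i => (Co.apex i : Co Y c.ρ)) R
    (thC (c.N M) hY c.ρ0 c.δ) c.ρ (2 * c.δ + 1) c.δ hW c.L' (by linarith) ?_ x y hxy hfar g
    hgx hgy
  have h1 := c.hρ1
  have h2 := c.hδ
  have h3 : 10 ≤ c.C3 := by
    obtain ⟨⟨-, -, -, -, h, -⟩, -⟩ := hF0b c
    exact h
  linarith

end BSD
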