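import Pool.Agent.Lib.MP_8528c3_al.StF

/-!
# Burnside project, F13: star, case B
-/

namespace BSD
namespace F13

section powers

variable {G X : Type} [Group G] [MulAction G X] {M : PM X}

theorem d_pow_le (hI : Iso G M) (g : G) (x : X) (m : ℕ) :
    M.d x (g ^ m • x) ≤ m * M.d x (g • x) := by
  induction m with
  | zero => simp [M.self]
  | succ m ih =>
    have h1 := M.tri x (g ^ m • x) (g ^ (m + 1) • x)
    have h2 : M.d (g ^ m • x) (g ^ (m + 1) • x) = M.d x (g • x) := by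
      rw [pow_succ, mul_smul]
      exact hI _ _ _
    push_cast
    linarith

theorem d_inv (hI : Iso G M) (g : G) (x : X) : M.d x (g⁻¹ • x) = M.d x (g • x) := by
  have h := hI g x (g⁻¹ • x)
  rw [smul_inv_smul] at h
  rw [← h, M.symm]

theorem d_zpow (hI : Iso G M) (g : G) (x : X) (w : ℤ) :
    M.d x (g ^ w • x) = M.d x (g ^ w.natAbs • x) := by
  rcases Int.natAbs_eq w with h | h
  · have h2 : g ^ w = g ^ w.natAbs := by
      rw [← zpow_natCast, ← h]
    rw [h2]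
  · have h2 : g ^ w = (g ^ w.natAbs)⁻¹ := by
      rw [← zpow_natCast, ← zpow_neg, ← h]
    rw [h2, d_inv hI]

theorem lox_of_pow (hI : Iso G M) {f h : G} (hh : Lox M h) {u : ℕ} {w : ℤ} (hu : 1 ≤ u)
    (hw : w ≠ 0) (e : f ^ u = h ^ w) : Lox M f := by
  obtain ⟨c, hc, hl⟩ := hh
  have hu' : (0 : ℝ) < u := by exact_mod_cast hu
  have hw' : (1 : ℝ) ≤ (w.natAbs : ℝ) := by exact_mod_cast Int.natAbs_pos.mpr hw
  refine ⟨c / u, by positivity, fun x m => ?_⟩
  have h1 := d_pow_le hI (f ^ m) x u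
  have h2 : (f ^ m) ^ u = h ^ (w * m) := by
    rw [← pow_mul, mul_comm m u, pow_mul, e, ← zpow_natCast, ← zpow_mul]
  rw [h2, d_zpow hI] at h1
  have h3 := hl x (w * m).natAbs
  have h4 : ((w * m).natAbs : ℝ) = w.natAbs * m := by
    rw [Int.natAbs_mul, Int.natAbs_natCast]
    push_cast
    ring
  rw [h4] at h3
  have hm : (0 : ℝ) ≤ m := Nat.cast_nonneg m
  have h5 : c * m ≤ c * (w.natAbs * m) := by
    apply mul_le_mul_of_nonneg_left _ hc.le
    nlinarith
  rw [div_mul_eq_mul_div, div_le_iff₀ hu']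
  linarith

end powers

/-- The quotient pseudo-metric is invariant when the subgroup is normal. -/
theorem dqf_iso_le {G Z : Type} [Group G] [MulAction G Z] (M : PM Z) (K : Subgroup G)
    (hK : ∀ g : G, ∀ k ∈ K, g * k * g⁻¹ ∈ K)
    (iso : ∀ (g : G) (x y : Z), M.d (g • x) (g • y) = M.d x y) (g : G) (x y : Z) :
    dqf M K (g • x) (g • y) ≤ dqf M K x y := by
  refine le_dqf M K x y fun k hk => ?_
  have h := dqf_le M K (g • x) (g • y) (hK g k hk)
  have e : (g * k * g⁻¹) • g • y = g • k • y := by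
    rw [smul_smul, smul_smul]
    congr 1
    group
  rw [e, iso] at h
  exact h

theorem dqf_iso {G Z : Type} [Group G] [MulAction G Z] (M : PM Z) (K : Subgroup G)
    (hK : ∀ g : G, ∀ k ∈ K, g * k * g⁻¹ ∈ K)
    (iso : ∀ (g : G) (x y : Z), M.d (g • x) (g • y) = M.d x y) (g : G) (x y : Z) :
    dqf M K (g • x) (g • y) = dqf M K x y := by
  refine le_antisymm (dqf_iso_le M K hK iso g x y) ?_
  have h := dqf_iso_le M K hK iso g⁻¹ (g • x) (g • y)
  rwa [inv_smul_smul, inv_smul_smul] at h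

/-- Closure of a conjugation invariant set is normal. -/
theorem kk_conj {G I : Type} [Group G] [MulAction G I] (R : I → Subgroup G)
    (h : ∀ (g : G) (i : I), ∀ h ∈ R i, g * h * g⁻¹ ∈ R (g • i)) (g : G) :
    ∀ k ∈ KK R, g * k * g⁻¹ ∈ KK R := by
  intro k hk
  unfold KK at hk ⊢
  induction hk using Subgroup.closure_induction with
  | mem x hx =>
    obtain ⟨i, hi⟩ := hx
    exact Subgroup.subset_closure ⟨g • i, h g i x hi⟩
  | one => simp
  | mul a b _ _ ha hb =>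
    have e : g * (a * b) * g⁻¹ = (g * a * g⁻¹) * (g * b * g⁻¹) := by group
    rw [e]
    exact Subgroup.mul_mem _ ha hb
  | inv a _ ha =>
    have e : g * a⁻¹ * g⁻¹ = (g * a * g⁻¹)⁻¹ := by group
    rw [e]
    exact Subgroup.inv_mem _ ha

end F13

open F13 in
theorem burn_F13 (h8 : stB8) (h0 : stC0) (h11 : stE11) (h6 : stF6) (h8h : stF8h) (h9 : stF9)
    (h11b : stF11b) (h0b : stF0b) : stF13 := by
  intro G X I _ _ _ c M E R Y fs hY hg
  letI := coAct c.ρ hg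
  intro x y hxy
  obtain ⟨⟨b1, b2, b3, b4, b5, b6, b7, b8, b9, b10, b11⟩,
    ⟨c1, c2, c3, c4, c5, c6, c7, c8, c9⟩,
    ⟨d1, d2, d3, d4, d5, d6, d7, d8, d9, d10, d11⟩⟩ := h0b c
  obtain ⟨⟨f1, f2, f3, f4, f5⟩, ⟨g1, g2, g3, g4⟩⟩ := h6 G X I c M E R Y fs
  have st := fs.st
  have hisoN : ∀ (g : G) (x y : X), (c.N M).d (g • x) (g • y) = (c.N M).d x y := by
    intro g x y
    show c.lam * _ = c.lam * _
    rw [st.iso g x y]
  obtain ⟨iso, -⟩ := h0 G X I (c.N M) Y c.ρ hY c.ρ0 hg hisoN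
  have hiso : ∀ (g : G) (p q : Co Y c.ρ), (c.Z M hY).d (g • p) (g • q) = (c.Z M hY).d p q := iso
  have hδ := c.hδ
  have hlam := c.hlam
  have hA0 := c.eA0
  -- an element with small displacements which lies in some `E j`
  have key : ∀ g : G, (c.Z M hY).d x (g • x) ≤ c.L' + 1 → (c.Z M hY).d y (g • y) ≤ c.L' + 1 →
      g ≠ 1 → ∀ j, g ∉ E j := by
    intro g hx hy hg1 j hj
    have e1 := h11b G X I c M E R Y fs hY hg j g hj hg1 x hx
    have e2 := h11b G X I c M E R Y fs hY hg j g hj hg1 y hy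
    have e3 := (c.Z M hY).tri x (Co.apex j) y
    have e4 := (c.Z M hY).symm y (Co.apex j)
    linarith
  rcases h8h G X I c M E R Y fs hY hg x with ⟨j, hj1, hj2⟩ | ⟨x0, hx1, hx2⟩
  · refine ⟨1, Or.inl rfl, fun g hx hy => ?_⟩
    have hg1 : g = 1 := by
      by_contra hne
      exact key g hx hy hne j (hj2 g hx)
    exact ⟨⟨0, by simp [hg1]⟩, fun h => absurd hg1 h⟩
  rcases h8h G X I c M E R Y fs hY hg y with ⟨j, hj1, hj2⟩ | ⟨y0, hy1, hy2⟩
  · refine ⟨1, Or.inl rfl, fun g hx hy => ?_⟩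
    have hg1 : g = 1 := by
      by_contra hne
      exact key g hx hy hne j (hj2 g hy)
    exact ⟨⟨0, by simp [hg1]⟩, fun h => absurd hg1 h⟩
  -- the main case
  have hM' : 0 < c.M' := by linarith
  obtain ⟨z0, hz0⟩ : ∃ z0 : I → X, ∀ i, z0 i ∈ Y i :=
    ⟨fun i => (hY i).choose, fun i => (hY i).choose_spec⟩
  have hB0 : 0 ≤ c.M' / c.lam := by positivity
  have hdist : 20 * (c.M' / c.lam) + 40 * c.δ + c.A0 + 40 ≤ M.d x0 y0 := by
    have e1 : (c.Z M hY).d (Co.base x0) (Co.base y0) ≤ c.lam * M.d x0 y0 := by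
      by_cases hI : Nonempty I
      · obtain ⟨i⟩ := hI
        exact (h8 X I (c.N M) Y c.ρ z0 hY c.ρ0 i).1 x0 y0
      · exact coD_le (Co.pth_one (Mv.base x0 y0))
    have e2 := (c.Z M hY).tri x (Co.base x0) y
    have e3 := (c.Z M hY).tri (Co.base x0) (Co.base y0) y
    have e4 := (c.Z M hY).symm y (Co.base y0)
    have e5 : c.A0 - 2 * (c.L' + 2) ≤ c.lam * M.d x0 y0 := by linarith
    have e6 : c.lam * (20 * (c.M' / c.lam) + 40 * c.δ + c.A0 + 40) =
        20 * c.M' + 40 * (c.lam * c.δ) + c.lam * c.A0 + 40 * c.lam := by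
      field_simp
    have hr1 : 0 < c.r1 := by
      have := c.er1
      have := c.ρ0
      linarith
    have e7 : 1000 * 1 * c.L' ≤ 1000 * (c.δ + 1) * c.L' := by
      have : (0 : ℝ) ≤ c.L' := by linarith
      nlinarith
    have e8 : c.lam * (20 * (c.M' / c.lam) + 40 * c.δ + c.A0 + 40) ≤ c.lam * M.d x0 y0 := by
      rw [e6]
      linarith
    exact le_of_mul_le_mul_left e8 hlam
  obtain ⟨e, he, hk⟩ := h11 G X M c.n c.δ c.L' c.A0 c.kl st hδ
    (by have := c.eL; have := c.eL1; have := c.eL'; linarith) c1.le d8 c.hn x0 y0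
    (c.M' / c.lam) hB0 hdist
  have hpow : ∀ g : G, (c.Z M hY).d x (g • x) ≤ c.L' + 1 → (c.Z M hY).d y (g • y) ≤ c.L' + 1 →
      ∃ k : ℤ, g = e ^ k := by
    intro g hx hy
    refine hk g ⟨?_, ?_⟩
    · rw [le_div_iff₀ hlam, mul_comm]
      exact hx2 g hx
    · rw [le_div_iff₀ hlam, mul_comm]
      exact hy2 g hy
  by_cases hall : ∀ g : G, (c.Z M hY).d x (g • x) ≤ c.L' + 1 →
      (c.Z M hY).d y (g • y) ≤ c.L' + 1 → g = 1
  · refine ⟨1, Or.inl rfl, fun g hx hy => ?_⟩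
    have hg1 := hall g hx hy
    exact ⟨⟨0, by simp [hg1]⟩, fun h => absurd hg1 h⟩
  push Not at hall
  obtain ⟨f, hfx, hfy, hf1⟩ := hall
  have hloxe : Lox M e := by
    rcases he with he | he
    · exfalso
      obtain ⟨k, hk⟩ := hpow f hfx hfy
      rw [he, one_zpow] at hk
      exact hf1 hk
    · exact he
  have hloxg : ∀ g : G, (c.Z M hY).d x (g • x) ≤ c.L' + 1 →
      (c.Z M hY).d y (g • y) ≤ c.L' + 1 → g ≠ 1 → Lox M g := by
    intro g hx hy hg1
    obtain ⟨k, hk⟩ := hpow g hx hy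
    have hk0 : k ≠ 0 := by
      rintro rfl
      rw [zpow_zero] at hk
      exact hg1 hk
    exact lox_of_pow (M := M) st.iso hloxe (u := 1) le_rfl hk0 (by rw [pow_one]; exact hk)
  refine ⟨e, Or.inr ?_, fun g hx hy => ⟨hpow g hx hy, fun hg1 => ⟨hloxg g hx hy hg1,
    key g hx hy hg1, x0, y0, hx1, hy1, hx2 g hx, hy2 g hy⟩⟩⟩
  obtain ⟨k, hk⟩ := hpow f hfx hfy
  have hk0 : k ≠ 0 := by
    rintro rfl
    rw [zpow_zero] at hk
    exact hf1 hk
  have hk1 : (1 : ℝ) ≤ (k.natAbs : ℝ) := by exact_mod_cast Int.natAbs_pos.mpr hk0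
  have hF := h9 G X I c M E R Y fs hY hg f x0 (hloxg f hfx hfy hf1) (key f hfx hfy hf1)
    (hx2 f hfx)
  refine ⟨c.kl / k.natAbs, by positivity, fun u m => ?_⟩
  have hKn := kk_conj R g2
  have hIq : Iso G (dqPM (c.Z M hY) (KK R) hiso) := fun g a b =>
    dqf_iso (c.Z M hY) (KK R) hKn hiso g a b
  have q1 := d_pow_le hIq (e ^ m) u k.natAbs
  have q2 := hF u m
  have q3 : f ^ m = e ^ (k * m) := by
    rw [hk, zpow_mul, zpow_natCast]
  have q4 : (dqPM (c.Z M hY) (KK R) hiso).d u (f ^ m • u) =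
      (dqPM (c.Z M hY) (KK R) hiso).d u ((e ^ m) ^ k.natAbs • u) := by
    rw [q3, d_zpow hIq]
    congr 2
    rw [← pow_mul, Int.natAbs_mul, Int.natAbs_natCast, mul_comm]
  have q5 : c.kl * m ≤ (dqPM (c.Z M hY) (KK R) hiso).d u (f ^ m • u) := q2
  rw [q4] at q5
  have q6 : (dqPM (c.Z M hY) (KK R) hiso).d u (e ^ m • u) =
      dqf (c.Z M hY) (KK R) u (e ^ m • u) := rfl
  rw [q6] at q1
  have q7 : (0 : ℝ) < k.natAbs := by linarith
  rw [div_mul_eq_mul_div, div_le_iff₀ q7]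
  linarith

end BSD
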