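import Pool.Agent.Lib.MP_8528c3_al.StF

/-!
# Burnside project, F15b: the concrete family
-/

namespace BSD

namespace F15bX

variable {G X : Type} [Group G] [MulAction G X] {M : PM X}

theorem conj_pow' (a g : G) (m : ℕ) : (a⁻¹ * g * a) ^ m = a⁻¹ * g ^ m * a := by
  have h := conj_pow (i := m) (a := a⁻¹) (b := g)
  rwa [inv_inv] at h

theorem lox_conj (hI : Iso G M) {g : G} (hg : Lox M g) (a : G) : Lox M (a⁻¹ * g * a) := by
  obtain ⟨k, hk, h⟩ := hg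
  refine ⟨k, hk, fun x m => ?_⟩
  have h1 := h (a • x) m
  have h2 : M.d x ((a⁻¹ * g * a) ^ m • x) = M.d (a • x) (g ^ m • a • x) := by
    rw [← hI a x ((a⁻¹ * g * a) ^ m • x), conj_pow', smul_smul, smul_smul]
    congr 2
    group
  rw [h2]
  exact h1

theorem mem_cen_conj (a g f : G) : f ∈ Cen (a⁻¹ * g * a) ↔ a * f * a⁻¹ ∈ Cen g := by
  constructor
  · rintro ⟨m, hm, hc⟩
    refine ⟨m, hm, ?_⟩
    rw [conj_pow'] at hc
    change f * (a⁻¹ * g ^ m * a) = a⁻¹ * g ^ m * a * f at hc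
    change a * f * a⁻¹ * g ^ m = g ^ m * (a * f * a⁻¹)
    have h1 : a * f * a⁻¹ * g ^ m = a * (f * (a⁻¹ * g ^ m * a)) * a⁻¹ := by group
    rw [h1, hc]
    group
  · rintro ⟨m, hm, hc⟩
    refine ⟨m, hm, ?_⟩
    rw [conj_pow']
    change a * f * a⁻¹ * g ^ m = g ^ m * (a * f * a⁻¹) at hc
    change f * (a⁻¹ * g ^ m * a) = a⁻¹ * g ^ m * a * f
    have h1 : f * (a⁻¹ * g ^ m * a) = a⁻¹ * (a * f * a⁻¹ * g ^ m) * a := by group
    rw [h1, hc]
    group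

theorem self_mem_cen (g : G) : g ∈ Cen g :=
  ⟨1, le_rfl, by rw [pow_one]⟩

theorem mem_rn {E : Subgroup G} (n : ℕ) (hE : ∀ f ∈ E, ∀ h ∈ E, Commute f h) (h : G) :
    h ∈ Rn n E ↔ ∃ f ∈ E, h = f ^ n := by
  constructor
  · intro hh
    unfold Rn at hh
    induction hh using Subgroup.closure_induction with
    | mem x hx => exact hx
    | one => exact ⟨1, E.one_mem, (one_pow n).symm⟩
    | mul x y _ _ hx hy =>
      obtain ⟨f, hf, rfl⟩ := hx
      obtain ⟨f', hf', rfl⟩ := hy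
      exact ⟨f * f', E.mul_mem hf hf', ((hE f hf f' hf').mul_pow n).symm⟩
    | inv x _ hx =>
      obtain ⟨f, hf, rfl⟩ := hx
      exact ⟨f⁻¹, E.inv_mem hf, (inv_pow f n).symm⟩
  · rintro ⟨f, hf, rfl⟩
    exact Subgroup.subset_closure ⟨f, hf, rfl⟩

end F15bX

open F15bX in
theorem burn_F15b (h10 : stE10c) (h0 : stF0b) : stF15b := by
  intro G X _ _ c M hst
  obtain ⟨-, ⟨hA0, -⟩, -, -, -, -, -, -, -, hkl, -⟩ := h0 c
  have hδ := c.hδ
  have hL' : 1000 * c.δ + 1000 ≤ c.L' := by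
    have e1 := c.eL
    have e2 := c.eL1
    have e3 := c.eL'
    linarith
  have hcen : ∀ h : G, Lox M h → ∃ e : G, Lox M e ∧ ∀ f : G, f ∈ Cen h ↔ ∃ k : ℤ, f = e ^ k :=
    h10 G X M c.n c.δ c.L' c.A0 c.kl hst hδ hL' hA0.le hkl
  refine ⟨hst, fun i j h => Subtype.ext h, fun g i f => Iff.rfl, ?_, ?_, fun i x => Iff.rfl, ?_⟩
  · intro i
    obtain ⟨a, g, hg, ⟨x, hx⟩, hE⟩ := i.2
    refine ⟨a⁻¹ * g * a, lox_conj hst.iso hg a, ⟨a⁻¹ • x, ?_⟩, fun f => ?_⟩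
    · have h1 : (a⁻¹ * g * a) • a⁻¹ • x = a⁻¹ • g • x := by
        rw [smul_smul, smul_smul]
        congr 1
        group
      rw [h1, hst.iso]
      exact hx
    · rw [mem_cen_conj]
      exact hE f
  · intro g x hg hx
    obtain ⟨e, -, he⟩ := hcen g hg
    have hF : IsFI M c.L (Subgroup.zpowers e) := by
      refine ⟨1, g, hg, ⟨x, hx⟩, fun f => ?_⟩
      rw [one_mul, inv_one, mul_one, he, Subgroup.mem_zpowers_iff]
      constructor
      · rintro ⟨k, rfl⟩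
        exact ⟨k, rfl⟩
      · rintro ⟨k, rfl⟩
        exact ⟨k, rfl⟩
    refine ⟨⟨Subgroup.zpowers e, hF⟩, ?_⟩
    change g ∈ Subgroup.zpowers e
    obtain ⟨k, hk⟩ := (he g).1 (self_mem_cen g)
    exact Subgroup.mem_zpowers_iff.2 ⟨k, hk.symm⟩
  · intro i h
    obtain ⟨a, g, hg, -, hE⟩ := i.2
    obtain ⟨e, -, he⟩ := hcen g hg
    refine mem_rn c.n ?_ h
    intro f hf f' hf'
    obtain ⟨k, hk⟩ := (he _).1 ((hE f).1 hf)
    obtain ⟨k', hk'⟩ := (he _).1 ((hE f').1 hf')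
    have hcomm : Commute (a * f * a⁻¹) (a * f' * a⁻¹) := by
      rw [hk, hk']
      exact Commute.zpow_zpow_self e k k'
    change f * f' = f' * f
    have h1 : f * f' = a⁻¹ * ((a * f * a⁻¹) * (a * f' * a⁻¹)) * a := by group
    have h2 : f' * f = a⁻¹ * ((a * f' * a⁻¹) * (a * f * a⁻¹)) * a := by group
    rw [h1, h2, hcomm.eq]

end BSD
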