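import Pool.Agent.Lib.MP_8528c3_al.StF

/-!
# Burnside project, F16: the free group is a stage
-/

namespace BSD

namespace F16

variable {α : Type} [DecidableEq α]

theorem fg_iso : Iso (FreeGroup α) (fgPM α) := by
  intro g x y
  show (((g * x)⁻¹ * (g * y)).norm : ℝ) = ((x⁻¹ * y).norm : ℝ)
  have : (g * x)⁻¹ * (g * y) = x⁻¹ * y := by group
  rw [this]

theorem eq_of_small (x : FreeGroup α) (g : FreeGroup α) (h : (fgPM α).d x (g • x) < 1) :
    g = 1 := by
  change (((x⁻¹ * (g * x)).norm : ℕ) : ℝ) < 1 at h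
  have h2 : (x⁻¹ * (g * x)).norm = 0 := by
    have : (x⁻¹ * (g * x)).norm < 1 := by exact_mod_cast h
    omega
  rw [FreeGroup.norm_eq_zero] at h2
  have h3 : g = x * (x⁻¹ * (g * x)) * x⁻¹ := by group
  rw [h3, h2]
  group

theorem lox_of (hF : stF16a) (g : FreeGroup α) (hg : g ≠ 1) : Lox (fgPM α) g :=
  ⟨1, one_pos, fun x m => by
    have := (hF α).2.2 g hg x m
    rw [one_mul]
    exact this⟩

theorem ne_of_lox (g : FreeGroup α) (hg : Lox (fgPM α) g) : g ≠ 1 := by
  rintro rfl
  obtain ⟨c, hc, h⟩ := hg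
  have := h 1 1
  rw [one_pow, one_smul, (fgPM α).self] at this
  norm_num at this
  linarith

theorem low (hF : stF16a) (g : FreeGroup α) (hg : g ≠ 1) (u : FreeGroup α) (m : ℕ) :
    (m : ℝ) ≤ (fgPM α).d u (g ^ m • u) := (hF α).2.2 g hg u m

theorem pow_le {G X : Type} [Group G] [MulAction G X] (M : PM X) (iso : Iso G M) (g : G) (x : X)
    (m : ℕ) : M.d x (g ^ m • x) ≤ m * M.d x (g • x) := by
  induction m with
  | zero => simp [M.self]
  | succ m ih =>
    have h1 := M.tri x (g ^ m • x) (g ^ (m + 1) • x)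
    have h2 : M.d (g ^ m • x) (g ^ (m + 1) • x) = M.d x (g • x) := by
      rw [pow_succ, mul_smul, iso]
    push_cast
    linarith

end F16

open F16

theorem burn_F16 (hE0b : stE0b) (hE4a : stE4a) (hE4c : stE4c) (hE9 : stE9) (hFa : stF16a)
    (hFb : stF16b) : stF16 := by
  intro α _ n δ L' A0 kl hδ hL hA hkl hkl1
  have hyp0 := (hFa α).1
  have sg2 : (fgPM α).SG 2 := by
    intro x y η hη
    obtain ⟨k, z, h0, h1, h2, h3⟩ := (hFa α).2.1 x y η hη
    exact ⟨k, z, h0, h1, fun i hi => (h2 i hi).trans (by norm_num), h3⟩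
  have hA2 : 2000 * L' ≤ A0 := by nlinarith
  refine ⟨⟨1⟩, fg_iso, ?_, sg2, ?_, ?_, ?_, ?_⟩
  · intro x y z w
    have := hyp0 x y z w
    linarith
  · intro x y hxy
    obtain ⟨e, he⟩ := hFb α {g | Dp (fgPM α) g L' x y} (by
      intro f hf g hg
      change Dp (fgPM α) f L' x y at hf
      change Dp (fgPM α) g L' x y at hg
      obtain ⟨z, z', hz, -, -⟩ := hE0b (FreeGroup α) (fgPM α) 0 L' (1 / 10) 0 sg2 le_rfl
        (by linarith) (by norm_num) le_rfl x y (by linarith)
      have h1 : Dp (fgPM α) (1 : FreeGroup α) (4 * L') x y := by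
        constructor
        · rw [one_smul, (fgPM α).self]; linarith
        · rw [one_smul, (fgPM α).self]; linarith
      obtain ⟨-, h2, -, h3, -⟩ := hE4c (FreeGroup α) (FreeGroup α) (fgPM α) 0 L' (1 / 10) fg_iso
        hyp0 (by linarith) (by norm_num) f g 1 x y z hf hg h1 hz
      have h4 : Dp (fgPM α) (f * g * f⁻¹ * g⁻¹) (8 * L') x y :=
        ⟨h3.1.trans (by linarith), h3.2.trans (by linarith)⟩
      obtain ⟨-, -, -, h5⟩ := hE4a (FreeGroup α) (FreeGroup α) (fgPM α) 0 L' (1 / 10) fg_iso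
        hyp0 (by linarith) (by norm_num) (f * g * f⁻¹ * g⁻¹) x y z z h4 hz hz
      have h6 : f * g * f⁻¹ * g⁻¹ = 1 := eq_of_small z _ (by linarith)
      show f * g = g * f
      have h7 : f * g = (f * g * f⁻¹ * g⁻¹) * (g * f) := by group
      rw [h7, h6, one_mul])
    refine ⟨e, ?_, fun g hg => he g hg⟩
    by_cases h : e = 1
    · exact Or.inl h
    · exact Or.inr (lox_of hFa e h)
  · intro g
    by_cases h : g = 1
    · right
      rw [h, one_pow]
    · exact Or.inl (lox_of hFa g h)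
  · intro g hg x m
    have h1 := (hFa α).2.2 g (ne_of_lox g hg) x m
    have h2 : kl * m ≤ 1 * m := mul_le_mul_of_nonneg_right hkl1 (Nat.cast_nonneg m)
    calc kl * m ≤ (m : ℝ) := by linarith
      _ ≤ _ := h1
  · intro g x y hg hD
    obtain ⟨N, hN⟩ : ∃ N : ℕ, N = 200 := ⟨_, rfl⟩
    have eN : (N : ℝ) = 200 := by rw [hN]; norm_num
    have h1 : ∀ u : FreeGroup α, 100 * (1 : ℝ) + 100 ≤ (fgPM α).d u (g ^ N • u) := by
      intro u
      have h := low hFa g hg u N
      rw [eN] at h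
      linarith
    have h2 : Dp (fgPM α) (g ^ N) (200 * L') x y := by
      constructor
      · have a := pow_le (fgPM α) fg_iso g x N
        have b := hD.1
        rw [eN] at a
        linarith
      · have a := pow_le (fgPM α) fg_iso g y N
        have b := hD.2
        rw [eN] at a
        linarith
    obtain ⟨m, hm⟩ := hE9 (FreeGroup α) (FreeGroup α) (fgPM α) 1 fg_iso
      (fun x y z w => by have := hyp0 x y z w; linarith) sg2 le_rfl (g ^ N) h1 x y _ h2
    refine ⟨N * m, ?_⟩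
    have e : g ^ ((N : ℤ) * m) = (g ^ N) ^ m := by
      rw [zpow_mul, zpow_natCast]
    rw [e]
    linarith

end BSD
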