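import Pool.Agent.Lib.MP_8528c3_al.StF

/-!
# Burnside project, F16a: the free group is `0`-hyperbolic
-/

namespace BSD

open FreeGroup

/-- Length of the longest common prefix. -/
def lcpF {β : Type} [DecidableEq β] : List β → List β → ℕ
  | [], _ => 0
  | _ :: _, [] => 0
  | a :: as, b :: bs => if a = b then lcpF as bs + 1 else 0

theorem lcpF_tri {β : Type} [DecidableEq β] (x y z : List β) :
    min (lcpF x y) (lcpF y z) ≤ lcpF x z := by
  induction x generalizing y z with
  | nil => simp [lcpF]
  | cons a as ih =>
    cases y with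
    | nil => simp [lcpF]
    | cons b bs =>
      cases z with
      | nil => simp [lcpF]
      | cons c cs =>
        simp only [lcpF]
        by_cases h1 : a = b
        · by_cases h2 : b = c
          · subst h1; subst h2
            simp only [if_true]
            have := ih bs cs
            omega
          · simp [h2]
        · simp [h1]

theorem isReduced_invRev {α : Type} {L : List (α × Bool)} (h : IsReduced L) :
    IsReduced (invRev L) := by
  classical
  rw [isReduced_iff_reduce_eq] at h ⊢
  rw [reduce_invRev, h]

theorem lcpF_reduce {α : Type} [DecidableEq α] (L₁ L₂ : List (α × Bool)) (h1 : IsReduced L₁)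
    (h2 : IsReduced L₂) :
    (reduce (invRev L₁ ++ L₂)).length + 2 * lcpF L₁ L₂ = L₁.length + L₂.length := by
  induction L₁ generalizing L₂ with
  | nil => simp [lcpF, h2.reduce_eq]
  | cons a as ih =>
    have has : IsReduced as := List.IsChain.tail h1
    cases L₂ with
    | nil =>
      simp only [lcpF, List.append_nil]
      rw [(isReduced_invRev h1).reduce_eq]
      simp
    | cons b bs =>
      have hbs : IsReduced bs := List.IsChain.tail h2
      by_cases hab : a = b
      · subst hab
        have key : reduce (invRev (a :: as) ++ a :: bs) = reduce (invRev as ++ bs) := by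
          apply reduce.sound
          have e1 : invRev (a :: as) ++ a :: bs = invRev as ++ (invRev [a] ++ [a]) ++ bs := by
            rw [invRev_cons]; simp
          rw [e1]
          simp only [← mul_mk, ← inv_mk]
          group
        rw [key]
        have := ih bs has hbs
        simp only [lcpF, if_true, List.length_cons]
        omega
      · have key : IsReduced (invRev (a :: as) ++ b :: bs) := by
          have h3 := isReduced_invRev h1
          unfold FreeGroup.IsReduced at h3 h2 ⊢
          rw [List.isChain_append]
          refine ⟨h3, h2, ?_⟩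
          intro x hx y hy hxy
          rw [invRev_cons] at hx
          simp [invRev] at hx hy
          subst hx; subst hy
          simp only at hxy ⊢
          by_contra hne
          apply hab
          ext
          · exact hxy
          · have : ∀ p q : Bool, ¬ ((!p) = q) → p = q := by decide
            exact this _ _ hne
        rw [key.reduce_eq]
        simp [lcpF, hab]

theorem fgPM_d {α : Type} [DecidableEq α] (x y : FreeGroup α) :
    (fgPM α).d x y + 2 * (lcpF x.toWord y.toWord : ℝ) = (x.norm : ℝ) + (y.norm : ℝ) := by
  have h := lcpF_reduce x.toWord y.toWord isReduced_toWord isReduced_toWord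
  have h2 : (x⁻¹ * y).norm = (reduce (invRev x.toWord ++ y.toWord)).length := by
    unfold FreeGroup.norm
    rw [toWord_mul, toWord_inv]
  have h3 : (fgPM α).d x y = ((x⁻¹ * y).norm : ℝ) := rfl
  rw [h3, h2]
  unfold FreeGroup.norm
  exact_mod_cast h

theorem fgPM_inv {α : Type} [DecidableEq α] (w x y : FreeGroup α) :
    (fgPM α).d (w * x) (w * y) = (fgPM α).d x y := by
  show (((w * x)⁻¹ * (w * y)).norm : ℝ) = ((x⁻¹ * y).norm : ℝ)
  have : (w * x)⁻¹ * (w * y) = x⁻¹ * y := by group
  rw [this]

theorem fgPM_gp1 {α : Type} [DecidableEq α] (x y : FreeGroup α) :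
    (fgPM α).gp x y 1 = (lcpF x.toWord y.toWord : ℝ) := by
  have h := fgPM_d x y
  have h1 : (fgPM α).d x 1 = (x.norm : ℝ) := by
    show ((x⁻¹ * 1).norm : ℝ) = _
    rw [mul_one, FreeGroup.norm_inv_eq]
  have h2 : (fgPM α).d y 1 = (y.norm : ℝ) := by
    show ((y⁻¹ * 1).norm : ℝ) = _
    rw [mul_one, FreeGroup.norm_inv_eq]
  unfold PM.gp
  rw [h1, h2]
  linarith

theorem fgPM_gp {α : Type} [DecidableEq α] (x y w : FreeGroup α) :
    (fgPM α).gp x y w = (lcpF (w⁻¹ * x).toWord (w⁻¹ * y).toWord : ℝ) := by
  rw [← fgPM_gp1]
  unfold PM.gp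
  have h1 := fgPM_inv w⁻¹ x w
  have h2 := fgPM_inv w⁻¹ y w
  have h3 := fgPM_inv w⁻¹ x y
  rw [inv_mul_cancel] at h1 h2
  rw [h1, h2, h3]

theorem take_step {α : Type} (L : List (α × Bool)) (i : ℕ) (hi : i < L.length) :
    (mk (L.take i))⁻¹ * mk (L.take (i + 1)) = mk [L[i]] := by
  rw [List.take_succ_eq_append_getElem hi, ← mul_mk]
  group

theorem burn_F16a : stF16a := by
  intro α _
  refine ⟨?_, ?_, ?_⟩
  · intro x y z w
    rw [fgPM_gp, fgPM_gp, fgPM_gp]
    have := lcpF_tri (w⁻¹ * x).toWord (w⁻¹ * y).toWord (w⁻¹ * z).toWord
    have h2 : min ((lcpF (w⁻¹ * x).toWord (w⁻¹ * y).toWord : ℕ) : ℝ)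
      ((lcpF (w⁻¹ * y).toWord (w⁻¹ * z).toWord : ℕ) : ℝ) ≤
      ((lcpF (w⁻¹ * x).toWord (w⁻¹ * z).toWord : ℕ) : ℝ) := by exact_mod_cast this
    linarith
  · intro x y η hη
    set L := (x⁻¹ * y).toWord with hL
    have hstep : ∀ i < L.length,
        (fgPM α).d (x * mk (L.take i)) (x * mk (L.take (i + 1))) ≤ 1 := by
      intro i hi
      rw [fgPM_inv]
      show (((mk (L.take i))⁻¹ * mk (L.take (i + 1))).norm : ℝ) ≤ 1
      rw [take_step L i hi]
      have := norm_mk_le (L₁ := [L[i]])
      simp only [List.length_singleton] at this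
      exact_mod_cast this
    refine ⟨L.length, fun i => x * mk (L.take i), ?_, ?_, hstep, ?_⟩
    · simp
      show mk ([] : List (α × Bool)) = 1
      rfl
    · simp only [List.take_length]
      rw [hL, mk_toWord]
      group
    · have h1 : ∑ i ∈ Finset.range L.length,
          (fgPM α).d (x * mk (L.take i)) (x * mk (L.take (i + 1))) ≤
          ∑ i ∈ Finset.range L.length, (1 : ℝ) :=
        Finset.sum_le_sum fun i hi => hstep i (Finset.mem_range.1 hi)
      have h2 : (fgPM α).d x y = (L.length : ℝ) := rfl
      rw [h2]
      simp only [Finset.sum_const, Finset.card_range, nsmul_eq_mul, mul_one] at h1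
      linarith
  · intro g hg x m
    show (m : ℝ) ≤ ((x⁻¹ * (g ^ m * x)).norm : ℝ)
    have e1 : x⁻¹ * (g ^ m * x) = (x⁻¹ * g * x) ^ m := by
      have := conj_pow (i := m) (a := x⁻¹) (b := g)
      rw [inv_inv] at this
      rw [this]
      group
    rw [e1]
    set h := x⁻¹ * g * x with hh
    have hne : h ≠ 1 := by
      intro h1
      apply hg
      have : g = x * h * x⁻¹ := by rw [hh]; group
      rw [this, h1]
      group
    unfold FreeGroup.norm
    rw [toWord_pow, reduceCyclically.reduce_flatten_replicate isReduced_toWord]
    by_cases hm : m = 0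
    · simp [hm]
    rw [if_neg hm]
    have hr : reduceCyclically h.toWord ≠ [] := by
      intro hr
      have h1 := reduceCyclically.conj_conjugator_reduceCyclically h.toWord
      rw [hr, List.append_nil] at h1
      apply hne
      have h2 : mk h.toWord = 1 := by
        rw [← h1, ← mul_mk, ← inv_mk, mul_inv_cancel]
      rwa [mk_toWord] at h2
    have hr2 : 1 ≤ (reduceCyclically h.toWord).length := by
      rcases hl : reduceCyclically h.toWord with _ | ⟨a, l⟩
      · exact absurd hl hr
      · simp
    have : m ≤ (reduceCyclically.conjugator h.toWord ++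
        (List.replicate m (reduceCyclically h.toWord)).flatten ++
        invRev (reduceCyclically.conjugator h.toWord)).length := by
      simp only [List.length_append, List.length_flatten, List.map_replicate, List.sum_replicate,
        smul_eq_mul]
      have : m ≤ m * (reduceCyclically h.toWord).length := Nat.le_mul_of_pos_right _ hr2
      omega
    exact_mod_cast this

end BSD
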