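import Pool.Agent.Lib.MP_8528c3_al.StF

/-!
# Burnside project, F16b: commuting subsets of free groups lie in cyclic subgroups
-/

namespace BSD

theorem fg_of_comm {β : Type} (a b : β)
    (h : FreeGroup.of a * FreeGroup.of b = FreeGroup.of b * FreeGroup.of a) : a = b := by
  classical
  by_contra hab
  have h1 := congrArg (FreeGroup.lift (fun x : β => if x = a then (Equiv.swap (0 : Fin 3) 1)
    else (Equiv.swap (1 : Fin 3) 2))) h
  simp only [map_mul, FreeGroup.lift_apply_of, if_true, if_neg (Ne.symm hab)] at h1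
  revert h1
  decide

theorem fg_cyclic {β : Type} (hβ : ∀ a b : β, a = b) :
    ∃ e : FreeGroup β, ∀ g : FreeGroup β, ∃ k : ℤ, g = e ^ k := by
  by_cases hn : Nonempty β
  · obtain ⟨a⟩ := hn
    refine ⟨FreeGroup.of a, fun g => ?_⟩
    induction g using FreeGroup.induction_on with
    | C1 => exact ⟨0, by simp⟩
    | of x => exact ⟨1, by rw [hβ x a]; simp⟩
    | inv_of x _ => exact ⟨-1, by rw [hβ x a]; simp⟩
    | mul x y hx hy =>
      obtain ⟨k, hk⟩ := hx
      obtain ⟨l, hl⟩ := hy
      exact ⟨k + l, by rw [hk, hl, zpow_add]⟩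
  · refine ⟨1, fun g => ⟨0, ?_⟩⟩
    induction g using FreeGroup.induction_on with
    | C1 => simp
    | of x => exact absurd ⟨x⟩ hn
    | inv_of x _ => exact absurd ⟨x⟩ hn
    | mul x y hx hy => rw [hx, hy]; simp

theorem burn_F16b : stF16b := by
  intro α _ S hS
  set H := Subgroup.closure S with hH
  have hcomm : ∀ a ∈ H, ∀ b ∈ H, a * b = b * a := by
    intro a ha b hb
    have h1 : H ≤ Subgroup.centralizer S := by
      rw [hH, Subgroup.closure_le]
      intro x hx
      rw [SetLike.mem_coe, Subgroup.mem_centralizer_iff]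
      intro y hy
      exact hS y hy x hx
    have h2 : H ≤ Subgroup.centralizer (H : Set (FreeGroup α)) := by
      conv_lhs => rw [hH]
      rw [Subgroup.closure_le]
      intro x hx
      rw [SetLike.mem_coe, Subgroup.mem_centralizer_iff]
      intro y hy
      exact ((Subgroup.mem_centralizer_iff.1 (h1 hy)) x hx).symm
    exact ((Subgroup.mem_centralizer_iff.1 (h2 ha)) b hb).symm
  let e := IsFreeGroup.toFreeGroup H
  have hsub : ∀ a b : IsFreeGroup.Generators H, a = b := by
    intro a b
    apply fg_of_comm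
    have h1 : e.symm (FreeGroup.of a) * e.symm (FreeGroup.of b) =
        e.symm (FreeGroup.of b) * e.symm (FreeGroup.of a) :=
      Subtype.ext (hcomm _ (e.symm (FreeGroup.of a)).2 _ (e.symm (FreeGroup.of b)).2)
    rw [← map_mul, ← map_mul] at h1
    exact e.symm.injective h1
  obtain ⟨c, hc⟩ := fg_cyclic hsub
  refine ⟨((e.symm c : H) : FreeGroup α), fun g hg => ?_⟩
  have hgH : g ∈ H := Subgroup.subset_closure hg
  obtain ⟨k, hk⟩ := hc (e ⟨g, hgH⟩)
  refine ⟨k, ?_⟩
  have h2 : (⟨g, hgH⟩ : H) = (e.symm c) ^ k := by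
    rw [← map_zpow, ← hk, MulEquiv.symm_apply_apply]
  have h3 := congrArg (Subtype.val) h2
  simpa using h3

end BSD
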