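import Pool.Agent.Lib.MP_8528c3_al.StF

/-!
# Burnside project, F17: the kernels of the maps to the stages exhaust the subgroup generated by the
`n`-th powers
-/

namespace BSD

theorem burn_F17 : stF17 := by
  intro F _ G X _ _ M n δ L' A0 kl lam hkl hl0 hl1 hst φ hsur hinj x0 hd hmon hker g
  constructor
  · rintro ⟨i, hi⟩
    induction i generalizing g with
    | zero =>
      have h1 : g = 1 := hinj (by rw [hi, map_one])
      rw [h1]
      exact Subgroup.one_mem _
    | succ i ih =>
      have h1 := hker i g hi
      have h2 : Subgroup.normalClosure {h : G i | ∃ f, h = f ^ n} =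
          (Subgroup.normalClosure {h : F | ∃ f, h = f ^ n}).map (φ i) := by
        rw [Subgroup.map_normalClosure _ _ (hsur i)]
        congr 1
        ext h
        constructor
        · rintro ⟨f, rfl⟩
          obtain ⟨f', rfl⟩ := hsur i f
          exact ⟨f' ^ n, ⟨f', rfl⟩, map_pow _ _ _⟩
        · rintro ⟨_, ⟨f', rfl⟩, rfl⟩
          exact ⟨φ i f', map_pow _ _ _⟩
      rw [h2] at h1
      obtain ⟨b, hb, hbg⟩ := h1
      have h3 := ih (g * b⁻¹) (by rw [map_mul, map_inv, hbg, mul_inv_cancel])
      have h4 := Subgroup.mul_mem _ h3 hb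
      rwa [inv_mul_cancel_right] at h4
  · have mono : ∀ (i k : ℕ) (f : F), φ i f = 1 → φ (i + k) f = 1 := by
      intro i k f hf
      induction k with
      | zero => exact hf
      | succ k ih => exact hmon _ _ ih
    let K : Subgroup F :=
      { carrier := {f | ∃ i, φ i f = 1}
        one_mem' := ⟨0, map_one _⟩
        mul_mem' := by
          rintro a b ⟨i, hi⟩ ⟨j, hj⟩
          refine ⟨i + j, ?_⟩
          have h2 := mono j i b hj
          rw [add_comm] at h2
          rw [map_mul, mono i j a hi, h2, mul_one]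
        inv_mem' := by
          rintro a ⟨i, hi⟩
          exact ⟨i, by rw [map_inv, hi, inv_one]⟩ }
    have hK : K.Normal := ⟨by
      rintro a ⟨i, hi⟩ b
      exact ⟨i, by rw [map_mul, map_mul, hi, mul_one, map_inv, mul_inv_cancel]⟩⟩
    have hle : Subgroup.normalClosure {h : F | ∃ f, h = f ^ n} ≤ K := by
      refine Subgroup.normalClosure_le_normal ?_
      rintro _ ⟨f, rfl⟩
      have h1 : ∀ i, (M i).d (x0 i) (φ i f • x0 i) ≤ lam ^ i * (M 0).d (x0 0) (φ 0 f • x0 0) := by
        intro i
        induction i with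
        | zero => simp
        | succ i ih =>
          refine (hd i f).trans ((mul_le_mul_of_nonneg_left ih hl0).trans (le_of_eq ?_))
          ring
      have h2 : Filter.Tendsto (fun i : ℕ => lam ^ i * (M 0).d (x0 0) (φ 0 f • x0 0))
          Filter.atTop (nhds (0 * (M 0).d (x0 0) (φ 0 f • x0 0))) :=
        (tendsto_pow_atTop_nhds_zero_of_lt_one hl0 hl1).mul_const _
      rw [zero_mul] at h2
      obtain ⟨i, hi⟩ := (h2.eventually (gt_mem_nhds hkl)).exists
      have h3 : (M i).d (x0 i) (φ i f • x0 i) < kl := (h1 i).trans_lt hi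
      rcases (hst i).h2 (φ i f) with h4 | h4
      · have h5 := (hst i).h3 _ h4 (x0 i) 1
        rw [Nat.cast_one, mul_one, pow_one] at h5
        exact absurd h5 (not_le.2 h3)
      · exact ⟨i, by rw [map_pow, h4]⟩
    intro hg
    exact hle hg

end BSD
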