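import Pool.Agent.Lib.MP_8528c3_al.StF

/-!
# Burnside project, F3: the sets `Y i` have small overlap
-/

namespace BSD

namespace F3

/-- Gromov products change little if the points are moved and `z` is far away. -/
theorem gp_move {X : Type} (M : PM X) (δ : ℝ) (hδ : 1 ≤ δ) (hyp : M.Hyp δ) {x x' y y' z : X}
    {r : ℝ} (h1 : M.d x y ≤ r) (h2 : M.d x' y' ≤ r) (h3 : M.gp x x' z ≤ 1 / 10)
    (h4 : r + 3 * δ + 1 ≤ M.d x z) (h5 : r + 3 * δ + 1 ≤ M.d x' z) :
    M.gp y y' z ≤ 1 / 10 + 2 * δ := by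
  have a1 := hyp x y' x' z
  have a2 := hyp x y y' z
  have b1 : 3 * δ + 1 ≤ M.gp x y z := by
    have := M.tri x y z
    unfold PM.gp
    linarith
  have b2 : 3 * δ + 1 ≤ M.gp y' x' z := by
    have h6 := M.tri x' y' z
    have h7 := M.symm x' y'
    unfold PM.gp
    linarith
  have c1 : M.gp x y' z ≤ 1 / 10 + δ := by
    rcases min_choice (M.gp x y' z) (M.gp y' x' z) with h | h <;> rw [h] at a1 <;> linarith
  rcases min_choice (M.gp x y z) (M.gp y y' z) with h | h <;> rw [h] at a2 <;> linarith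

end F3

open F3 in
/-- F3: the sets `Y i` have small overlap. -/
theorem burn_F3 (hA4 : stA4) (hE1 : stE1) (hF6 : stF6) : stF3 := by
  intro G X I _ _ _ c M E R Y F i j hij r x x' hr n1 n2 n3 n4
  by_contra hcon
  push Not at hcon
  obtain ⟨⟨g1, -, -, -, g5⟩, -⟩ := hF6 G X I c M E R Y F
  have hδ := c.hδ
  have eA2 := c.eA2
  have eL' := c.eL'
  have h0 : 0 ≤ c.A0 := by
    have h1 := c.er1
    have h2 := c.eA0
    have h3 := c.eM'
    have h4 := Real.exp_pos ((3 * c.L' + 5) / 2)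
    have h5 := c.ρ0
    have h6 := c.eL1
    have h7 := c.eL
    have h8 : 0 ≤ c.L' := by linarith
    have h9 : 0 ≤ 1000 * (c.δ + 1) * c.L' := by positivity
    linarith
  obtain ⟨z, z1, z2⟩ := hA4 X M 2 (by norm_num) F.st.sg x x' (r + 5 * c.δ + 5) (1 / 10)
    (by linarith) (by linarith) (by norm_num)
  obtain ⟨z', z1', z2'⟩ := hA4 X M 2 (by norm_num) F.st.sg x' x (r + 5 * c.δ + 5) (1 / 10)
    (by linarith) (by rw [M.symm x' x]; linarith) (by norm_num)
  rw [abs_le] at z2 z2'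
  obtain ⟨p1, p2⟩ := z2
  obtain ⟨p1', p2'⟩ := z2'
  have t1 := M.tri x z x'
  have t2 := M.symm z x'
  have t3 := M.tri x' z' x
  have t4 := M.symm z' x
  have t5 := M.symm x' x
  have t6 := M.tri z z' x'
  have t7 := M.symm z' x'
  have hz : c.A0 ≤ M.d z z' := by linarith
  obtain ⟨e, he, hs⟩ := F.st.star z z' hz
  -- the displacement of the generators at `z` and `z'`
  have key : ∀ k : I, PM.Near M (Y k) r x → PM.Near M (Y k) r x' →
      ∃ f : G, f ∈ E k ∧ f ≠ 1 ∧ ∃ a : ℤ, f = e ^ a := by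
    rintro k ⟨y, hy, d1⟩ ⟨y', hy', d2⟩
    obtain ⟨f, f1, -, f3, f4⟩ := g1 k
    refine ⟨f, (f3 f).2 ⟨1, by simp⟩, f1, hs f ⟨?_, ?_⟩⟩
    · have q := gp_move M c.δ hδ F.st.hyp d1 d2 z1 (by linarith) (by linarith)
      have q2 := hE1 G X M c.δ F.st.iso F.st.hyp f y y' z
      have q3 := max_le ((f4 y).1 hy) ((f4 y').1 hy')
      linarith
    · have q := gp_move M c.δ hδ F.st.hyp d2 d1 z1' (by linarith) (by linarith)
      have q2 := hE1 G X M c.δ F.st.iso F.st.hyp f y' y z'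
      have q3 := max_le ((f4 y').1 hy') ((f4 y).1 hy)
      linarith
  obtain ⟨f, f1, f2, a, f3⟩ := key i n1 n3
  obtain ⟨f', f1', f2', a', f3'⟩ := key j n2 n4
  exact hij (g5 i j f f' e a a' f1 f1' f2 f2' he f3 f3')

end BSD
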