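import Pool.Agent.Lib.MP_8528c3_al.StF

/-!
# Burnside project, F7b: chain of four points
-/

namespace BSD

theorem burn_F7b : stF7b := by
  intro X M δ c hδ x p p' x' h1 h2 h3
  have e1 := M.symm x p
  have e2 := M.symm x p'
  have e3 := M.symm x x'
  have e4 := M.symm p p'
  have e5 := M.symm p x'
  have e6 := M.symm p' x'
  have a1 := hδ x x' p' p
  have a2 := hδ x' x p p'
  unfold PM.gp at *
  have b1 : (M.d x p + M.d x' p - M.d x x') / 2 ≤ c + δ := by
    by_contra hc
    have h4 := lt_min (a := c + δ) (not_le.1 hc)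
      (show c + δ < (M.d x' p + M.d p' p - M.d x' p') / 2 by linarith)
    linarith
  have b2 : (M.d x p' + M.d x' p' - M.d x x') / 2 ≤ c + δ := by
    by_contra hc
    have h4 := lt_min (a := c + δ)
      (show c + δ < (M.d x' p' + M.d x p' - M.d x' x) / 2 by linarith [not_le.1 hc])
      (show c + δ < (M.d x p' + M.d p p' - M.d x p) / 2 by linarith)
    linarith
  exact ⟨b1, b2, by linarith⟩

end BSD
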