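import Pool.Agent.Lib.MP_8528c3_al.StF

/-!
# Burnside project, F8: overlap of axes
-/

set_option autoImplicit false

namespace BSD

namespace F8

variable {X : Type} (M : PM X)

theorem gp_nonneg (x y w : X) : 0 ≤ M.gp x y w := by
  unfold PM.gp
  have := M.tri x w y
  have := M.symm w y
  linarith

/-- Points of the segment `[A,B]` between the projections of `w1` and `w2`. -/
theorem mid {δ η r0 : ℝ} (hyp : M.Hyp δ) {A B u w1 w2 : X} (hu : M.gp A B u ≤ η)
    (h1 : M.gp A B w1 ≤ r0) (h2 : M.gp A B w2 ≤ r0)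
    (hlo : M.gp w1 B A + r0 / 2 + 2 * η + 2 * δ < M.d A u)
    (hhi : M.d A u + r0 / 2 + η + 2 * δ < M.gp w2 B A) (hδ : 0 ≤ δ) :
    M.gp w1 w2 u ≤ η + 2 * δ := by
  have hη : 0 ≤ η := (gp_nonneg M A B u).trans hu
  have k1 : η + 2 * δ < M.gp A w1 u := by
    unfold PM.gp at hu h1 hlo ⊢
    have t1 := M.tri u w1 A
    have t2 := M.tri w1 u B
    have s1 := M.symm A B
    have s2 := M.symm u A
    have s3 := M.symm w1 A
    have s4 := M.symm w1 B
    have s5 := M.symm u B
    have s6 := M.symm u w1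
    linarith
  have k2 : η + 2 * δ < M.gp w2 B u := by
    unfold PM.gp at hu h2 hhi ⊢
    have t1 := M.tri w2 u A
    have t2 := M.tri u w2 B
    have t3 := M.tri A u B
    have s1 := M.symm A B
    have s2 := M.symm u A
    have s3 := M.symm w2 A
    have s4 := M.symm w2 B
    have s5 := M.symm u B
    have s6 := M.symm u w2
    linarith
  by_contra hcon
  push Not at hcon
  have h3 := hyp A w1 B u
  have h4 := hyp w1 w2 B u
  have h5 : η + 2 * δ < min (M.gp w1 w2 u) (M.gp w2 B u) := lt_min hcon k2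
  have h6 : η + δ < M.gp w1 B u := by linarith
  have h7 : η + δ < min (M.gp A w1 u) (M.gp w1 B u) := lt_min (by linarith) h6
  linarith

theorem core (hA4 : stA4) {δ r0 A0 LO HI : ℝ} (hδ : 0 ≤ δ) (hr0 : 0 ≤ r0) (hA0 : 0 ≤ A0)
    (hyp : M.Hyp δ) (sg : M.SG 2) {A B p p' q q' : X} (rp : M.gp A B p ≤ r0)
    (rp' : M.gp A B p' ≤ r0) (rq : M.gp A B q ≤ r0) (rq' : M.gp A B q' ≤ r0)
    (tp : M.gp p B A ≤ LO) (tq : M.gp q B A ≤ LO) (tp' : HI ≤ M.gp p' B A)
    (tq' : HI ≤ M.gp q' B A) (hH : A0 + 2 * r0 + 4 * δ + 18 ≤ HI - LO) :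
    ∃ u u' : X, A0 ≤ M.d u u' ∧ M.gp p p' u ≤ 1 + 2 * δ ∧ M.gp p p' u' ≤ 1 + 2 * δ ∧
      M.gp q q' u ≤ 1 + 2 * δ ∧ M.gp q q' u' ≤ 1 + 2 * δ := by
  have h0 := gp_nonneg M p B A
  have hAB : M.gp p' B A ≤ M.d A B := by
    unfold PM.gp
    have t1 := M.tri p' B A
    have s1 := M.symm A B
    linarith
  obtain ⟨u, u1, u2⟩ := hA4 X M 2 (by norm_num) sg A B (LO + (r0 + 2 * δ + 6)) 1 (by linarith)
    (by linarith) one_pos
  obtain ⟨u', u1', u2'⟩ := hA4 X M 2 (by norm_num) sg A B (HI - (r0 + 2 * δ + 6)) 1 (by linarith)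
    (by linarith) one_pos
  rw [abs_le] at u2 u2'
  refine ⟨u, u', ?_, ?_, ?_, ?_, ?_⟩
  · have t1 := M.tri A u u'
    linarith
  · exact mid M hyp u1 rp rp' (by linarith) (by linarith) hδ
  · exact mid M hyp u1' rp rp' (by linarith) (by linarith) hδ
  · exact mid M hyp u1 rq rq' (by linarith) (by linarith) hδ
  · exact mid M hyp u1' rq rq' (by linarith) (by linarith) hδ

/-- Step (2): the projections of two points. -/
theorem step2 {δ c1 : ℝ} {A B a b p p' : X} (rb : M.gp A B b ≤ 4 * δ + 3)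
    (hab : M.gp A b a ≤ 4 * δ + 3)
    (h : M.d a p + M.d p p' + M.d p' b - 4 * c1 - 2 * δ ≤ M.d a b) :
    M.d p p' - 4 * c1 - 14 * δ - 9 ≤ M.gp p' B A - M.gp p B A := by
  have k1 : M.d a b - 12 * δ - 9 ≤ M.gp b B A - M.gp a B A := by
    unfold PM.gp at rb hab ⊢
    have t1 := M.tri A a B
    have s1 := M.symm A B
    have s2 := M.symm A a
    have s3 := M.symm A b
    have s4 := M.symm a b
    have s5 := M.symm b B
    linarith
  have k2 : M.gp b B A - M.d p' b ≤ M.gp p' B A := by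
    unfold PM.gp
    have t1 := M.tri b p' A
    have t2 := M.tri p' b B
    have s1 := M.symm p' b
    linarith
  have k3 : M.gp p B A ≤ M.gp a B A + M.d a p := by
    unfold PM.gp
    have t1 := M.tri p a A
    have t2 := M.tri a p B
    have s1 := M.symm a p
    linarith
  linarith

end F8

open F8

/-- F8: overlap of axes. -/
theorem burn_F8 (hA4 : stA4) (hE1 : stE1) (hE1b : stE1b) (hE8 : stE8) (hF0b : stF0b)
    (hF2 : stF2) (hF6 : stF6) (hF7a : stF7a) (hF7b : stF7b) : stF8 := by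
  intro G X I _ _ _ c M E R Y hF g l z hg hgE hl hz hL i m p p' hp hp' hpz hpz'
  by_contra hcon
  push Not at hcon
  have iso := hF.st.iso
  have hyp := hF.st.hyp
  have sg := hF.st.sg
  have hδ := c.hδ
  have eL := c.eL
  have eA1 := c.eA1
  have eA4 := c.eA4
  obtain ⟨-, ⟨hA0, -⟩, -⟩ := hF0b c
  have hl1 : 1000 * c.δ + 1000 ≤ l := by linarith
  obtain ⟨c1, hc1⟩ : ∃ c1, c1 = c.A1 + 2 * c.δ + 8 := ⟨_, rfl⟩
  have hqc := hF2 G X I c M E R Y hF i
  have f1 : M.gp z p' p ≤ c1 := by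
    rw [hc1]
    exact hF7a X M c.δ c.A1 (Y i) hyp (by linarith) sg hqc z p hp hpz p' hp'
  have f2 : M.gp (g ^ m • z) p p' ≤ c1 := by
    rw [hc1]
    exact hF7a X M c.δ c.A1 (Y i) hyp (by linarith) sg hqc (g ^ m • z) p' hp' hpz' p hp
  obtain ⟨f3, f4, f5⟩ := hF7b X M c.δ c1 hyp z p p' (g ^ m • z) f1 f2 (by linarith)
  obtain ⟨hE, -⟩ := hE8 G X M c.δ l iso hyp sg hδ (by linarith) g z hl hz
  have hs : ∀ k : ℤ, g • (g ^ k • z) = g ^ (k + 1) • z := by
    intro k
    rw [smul_smul, ← zpow_one_add, add_comm]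
  have hgp : ∀ x y w : X, M.gp (g • x) (g • y) (g • w) = M.gp x y w := by
    intro x y w
    unfold PM.gp
    rw [iso, iso, iso]
  obtain ⟨N, hN⟩ : ∃ N : ℤ, N = m + 2 := ⟨_, rfl⟩
  obtain ⟨A, hA⟩ : ∃ A : X, A = g ^ (-N) • z := ⟨_, rfl⟩
  obtain ⟨B, hB⟩ : ∃ B : X, B = g ^ N • z := ⟨_, rfl⟩
  have hm : (0 : ℤ) ≤ m := Int.natCast_nonneg m
  have e0 : g ^ (0 : ℤ) • z = z := by rw [zpow_zero, one_smul]
  have em : g ^ (m : ℤ) • z = g ^ m • z := by rw [zpow_natCast]
  have eg : g ^ (1 : ℤ) • z = g • z := by rw [zpow_one]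
  have egm : g ^ ((m : ℤ) + 1) • z = g • (g ^ m • z) := by rw [← hs, em]
  have egA : g ^ (-N + 1) • z = g • A := by rw [hA, hs]
  have egB : g ^ (N + 1) • z = g • B := by rw [hB, hs]
  have ra : M.gp A B z ≤ 4 * c.δ + 3 := by
    have := hE (-N) 0 N (by omega) (by omega)
    rwa [← hA, ← hB, e0] at this
  have rb : M.gp A B (g ^ m • z) ≤ 4 * c.δ + 3 := by
    have := hE (-N) m N (by omega) (by omega)
    rwa [← hA, ← hB, em] at this
  have rga : M.gp A B (g • z) ≤ 4 * c.δ + 3 := by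
    have := hE (-N) 1 N (by omega) (by omega)
    rwa [← hA, ← hB, eg] at this
  have rgb : M.gp A B (g • (g ^ m • z)) ≤ 4 * c.δ + 3 := by
    have := hE (-N) (m + 1) N (by omega) (by omega)
    rwa [← hA, ← hB, egm] at this
  have hab : M.gp A (g ^ m • z) z ≤ 4 * c.δ + 3 := by
    rcases Nat.eq_zero_or_pos m with h0 | h0
    · rw [h0, pow_zero, one_smul]
      unfold PM.gp
      rw [M.self]
      linarith
    · have := hE (-N) 0 m (by omega) (by omega)
      rwa [← hA, em, e0] at this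
  obtain ⟨r0, hr0⟩ : ∃ r0, r0 = c1 + 7 * c.δ + 3 := ⟨_, rfl⟩
  have rp : M.gp A B p ≤ r0 := by
    have h1 := hE1b X M c.δ hyp A B p z (g ^ m • z)
    have h2 := max_le ra rb
    linarith
  have rp' : M.gp A B p' ≤ r0 := by
    have h1 := hE1b X M c.δ hyp A B p' z (g ^ m • z)
    have h2 := max_le ra rb
    linarith
  have rq : M.gp A B (g • p) ≤ r0 := by
    have h1 := hE1b X M c.δ hyp A B (g • p) (g • z) (g • (g ^ m • z))
    have h2 := max_le rga rgb
    rw [hgp] at h1
    linarith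
  have rq' : M.gp A B (g • p') ≤ r0 := by
    have h1 := hE1b X M c.δ hyp A B (g • p') (g • z) (g • (g ^ m • z))
    have h2 := max_le rga rgb
    rw [hgp] at h1
    linarith
  have h2 := step2 M rb hab f5
  have tp0 := gp_nonneg M p B A
  -- step (3)
  have dA1 : M.d A (g • A) ≤ l + 1 := by
    have e1 : g • A = g ^ (-N) • (g • z) := by
      rw [← egA, zpow_add_one, mul_smul]
    rw [e1, hA, iso]
    exact hz
  have tq : M.gp (g • p) B A ≤ M.gp p B A + r0 + l + 1 := by
    have t1 := M.tri A (g • A) (g • p)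
    rw [iso] at t1
    have k1 : M.gp (g • p) B A ≤ M.d A (g • p) := by
      unfold PM.gp
      have t2 := M.tri B (g • p) A
      have s1 := M.symm A (g • p)
      have s2 := M.symm B (g • p)
      linarith
    have k2 : M.d A p = M.gp p B A + M.gp A B p := by
      unfold PM.gp
      have s1 := M.symm A p
      have s2 := M.symm B p
      have s3 := M.symm B A
      linarith
    linarith
  -- step (4)
  have tp1 : 5 * c.δ + 3 < M.gp p' B A := by linarith
  have tq' : M.gp p' B A - c1 ≤ M.gp (g • p') B A := by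
    have h3 := hyp A (g • p') (g • B) (g • A)
    rw [hgp] at h3
    have h4 : M.gp A (g • B) (g • A) ≤ 4 * c.δ + 3 := by
      have := hE (-N) (-N + 1) (N + 1) (by omega) (by omega)
      rwa [← hA, egA, egB] at this
    have h5 : M.gp A (g • p') (g • A) ≤ 5 * c.δ + 3 := by
      by_contra h6
      push Not at h6
      have h7 := lt_min h6 tp1
      linarith
    have h6 := hl A
    have k2 : M.d A p' = M.gp p' B A + M.gp A B p' := by
      unfold PM.gp
      have s1 := M.symm A p'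
      have s2 := M.symm B p'
      have s3 := M.symm B A
      linarith
    have k3 : M.d A (g • p') = M.gp (g • p') B A + M.gp A B (g • p') := by
      unfold PM.gp
      have s1 := M.symm A (g • p')
      have s2 := M.symm B (g • p')
      have s3 := M.symm B A
      linarith
    have k4 : M.d A (g • p') = M.d A (g • A) + M.d A p' - 2 * M.gp A (g • p') (g • A) := by
      unfold PM.gp
      have s1 := M.symm (g • p') (g • A)
      have s2 := iso g A p'
      linarith
    have k5 := gp_nonneg M A B p'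
    linarith
  obtain ⟨u, u', hu0, hu1, hu2, hu3, hu4⟩ := core M hA4 (r0 := r0) (A0 := c.A0)
    (LO := M.gp p B A + r0 + l + 1) (HI := M.gp p' B A - c1) (by linarith) (by linarith) hA0.le
    hyp sg rp rp' rq rq' (by linarith) tq (by linarith) tq' (by linarith)
  -- the elements
  obtain ⟨⟨g1, g2, g3, g4, g5⟩, -⟩ := hF6 G X I c M E R Y hF
  obtain ⟨e, he1, heL, heE, heY⟩ := g1 i
  have hpe := (heY p).1 hp
  have hpe' := (heY p').1 hp'
  have eL' := c.eL'
  have Dm := max_le hpe hpe'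
  have D1 : Dp M e c.L' u u' := by
    constructor
    · have h3 := hE1 G X M c.δ iso hyp e p p' u
      linarith
    · have h3 := hE1 G X M c.δ iso hyp e p p' u'
      linarith
  have hconj : ∀ x : X, M.d (g • x) ((g * e * g⁻¹) • (g • x)) = M.d x (e • x) := by
    intro x
    have e1 : (g * e * g⁻¹) • (g • x) = g • (e • x) := by
      rw [mul_smul, mul_smul, inv_smul_smul]
    rw [e1, iso]
  have Dm' : max (M.d (g • p) ((g * e * g⁻¹) • (g • p)))
      (M.d (g • p') ((g * e * g⁻¹) • (g • p'))) ≤ c.L1 := by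
    rw [hconj, hconj]
    exact Dm
  have D2 : Dp M (g * e * g⁻¹) c.L' u u' := by
    constructor
    · have h3 := hE1 G X M c.δ iso hyp (g * e * g⁻¹) (g • p) (g • p') u
      linarith
    · have h3 := hE1 G X M c.δ iso hyp (g * e * g⁻¹) (g • p) (g • p') u'
      linarith
  obtain ⟨e0', he0, hstar⟩ := hF.st.star u u' hu0
  obtain ⟨k, hk⟩ := hstar _ D1
  obtain ⟨k', hk'⟩ := hstar _ D2
  have hei : e ∈ E i := (heE e).2 ⟨1, (zpow_one e).symm⟩
  have hej : g * e * g⁻¹ ∈ E (g • i) := by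
    rw [hF.cj]
    have e1 : g⁻¹ * (g * e * g⁻¹) * g = e := by group
    rw [e1]
    exact hei
  have hne : g * e * g⁻¹ ≠ 1 := by
    intro h
    apply he1
    have e1 : g⁻¹ * (g * e * g⁻¹) * g = e := by group
    rw [← e1, h]
    group
  have hij := g5 i (g • i) e (g * e * g⁻¹) e0' k k' hei hej he1 hne he0 hk hk'
  exact hgE i ((g3 g i).1 hij.symm)

end BSD
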