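import Pool.Agent.Lib.MP_8528c3_al.StF

/-!
# Burnside project, F8h: points of the cone-off with small displacement
-/

namespace BSD

theorem burn_F8h (hB7 : stB7) (hB8 : stB8) (hB9 : stB9) (hF6 : stF6) (hF0b : stF0b) : stF8h := by
  intro G X I _ _ _ c M E R Y hFS hY hg
  letI := coAct c.ρ hg
  intro x
  obtain ⟨⟨-, hL', -, -, hC3, -⟩, -, -⟩ := hF0b c
  have hδ := c.hδ
  have hρ1 := c.hρ1
  have hρ : 20 * c.L' ≤ c.ρ := by linarith
  have h6 := (hF6 G X I c M E R Y hFS).1.2.2.1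
  -- the estimate of the displacement of the base point
  have key : ∀ (p q : Co Y c.ρ) (s : ℝ) (u w : X), (∀ y0 : I → X, bt y0 p = u) →
      (∀ y0 : I → X, bt y0 q = w) → ht p = s → ht q = s → 0 ≤ s → s ≤ c.L' + 2 →
      (c.Z M hY).d p q ≤ c.L' + 1 → c.lam * M.d u w ≤ c.M' := by
    intro p q s u w hp hq hsp hsq hs0 hs hd
    have h7 := hB7 X I (c.N M) Y c.ρ (fun i => (hY i).some) hY c.ρ0 p q
    rw [hp, hq, hsp, hsq] at h7
    have h1 : (c.N M).d u w = c.lam * M.d u w := rfl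
    rw [h1] at h7
    by_contra hcon
    push Not at hcon
    rw [c.eM'] at hcon
    have h2 : (3 * c.L' + 5) / 2 < Real.log (c.lam * M.d u w / 2) := by
      rw [Real.lt_log_iff_exp_lt]
      · linarith
      · have := Real.exp_pos ((3 * c.L' + 5) / 2)
        linarith
    have h3 : (3 * c.L' + 5) / 2 < min c.ρ (max (max s s) (Real.log (c.lam * M.d u w / 2))) := by
      refine lt_min ?_ (h2.trans_le (le_max_right _ _))
      linarith
    have h4 : (coPM (c.N M) Y c.ρ hY c.ρ0).d p q ≤ c.L' + 1 := hd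
    linarith
  cases x with
  | base x0 =>
    right
    refine ⟨x0, ?_, fun f hf => ?_⟩
    · rw [(c.Z M hY).self]
      linarith
    · exact key (Co.base x0) (Co.base (f • x0)) 0 x0 (f • x0) (fun _ => rfl) (fun _ => rfl) rfl
        rfl le_rfl (by linarith) hf
  | cone j y hy s h0 h1 =>
    have h8 := hB8 X I (c.N M) Y c.ρ (fun i => (hY i).some) hY c.ρ0 j
    rcases lt_or_ge s (c.L' + 2) with hs | hs
    · right
      refine ⟨y, (h8.2.2.2.1 y hy s h0 h1).trans hs.le, fun f hf => ?_⟩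
      exact key (Co.cone j y hy s h0 h1) (Co.cone (f • j) (f • y) (hg f j y hy) s h0 h1) s y (f • y)
        (fun _ => rfl) (fun _ => rfl) rfl rfl h0 hs.le hf
    · left
      refine ⟨j, (h8.2.2.1 y hy s h0 h1).trans (by linarith), fun f hf => ?_⟩
      rw [← h6 f j]
      by_contra hne
      have h9 := (hB9 X I (c.N M) Y c.ρ hY c.ρ0 j (Co.cone j y hy s h0 h1)
        (Co.cone (f • j) (f • y) (hg f j y hy) s h0 h1)).1
      have h10 : hti j (Co.cone j y hy s h0 h1 : Co Y c.ρ) = s := if_pos rfl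
      have h11 : hti j (Co.cone (f • j) (f • y) (hg f j y hy) s h0 h1 : Co Y c.ρ) = 0 :=
        if_neg hne
      rw [h10, h11, sub_zero, abs_of_nonneg h0] at h9
      have h12 : (coPM (c.N M) Y c.ρ hY c.ρ0).d (Co.cone j y hy s h0 h1)
        (Co.cone (f • j) (f • y) (hg f j y hy) s h0 h1) ≤ c.L' + 1 := hf
      linarith
  | apex j =>
    left
    refine ⟨j, ?_, fun f hf => ?_⟩
    · rw [(c.Z M hY).self]
      exact c.ρ0
    · rw [← h6 f j]
      by_contra hne
      have h9 := (hB9 X I (c.N M) Y c.ρ hY c.ρ0 j (Co.apex j) (Co.apex j)).2.2.2 (f • j) hne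
      have h12 : (coPM (c.N M) Y c.ρ hY c.ρ0).d (Co.apex j) (Co.apex (f • j)) ≤ c.L' + 1 := hf
      rw [(coPM (c.N M) Y c.ρ hY c.ρ0).symm] at h12
      linarith

end BSD
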