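import Pool.Agent.Lib.MP_8528c3_al.StF

/-!
# Burnside project, item F9: loxodromic elements which do not belong to any `E i` are loxodromic in
the quotient
-/

namespace BSD

namespace F9

theorem pow_le {G X : Type} [Group G] [MulAction G X] (M : PM X) (iso : Iso G M) (h : G) (x : X)
    (p : ℕ) : M.d x (h ^ p • x) ≤ p * M.d x (h • x) := by
  induction p with
  | zero => simp [M.self]
  | succ p ih =>
    have h1 := M.tri x (h • x) (h ^ (p + 1) • x)
    have h2 : h ^ (p + 1) • x = h • (h ^ p • x) := by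
      rw [smul_smul, ← pow_succ']
    have h3 : M.d (h • x) (h ^ (p + 1) • x) = M.d x (h ^ p • x) := by
      rw [h2, iso]
    push_cast
    linarith

/-- The infimum of the displacement. -/
theorem exists_inf {X : Type} (M : PM X) (f : X → X) (L : ℝ) (hL : ∀ x, L < M.d x (f x))
    (x0 : X) : ∃ (l : ℝ) (z : X), L ≤ l ∧ (∀ x, l ≤ M.d x (f x)) ∧ M.d z (f z) ≤ l + 1 := by
  have hne : {t | ∃ x, t = M.d x (f x)}.Nonempty := ⟨_, x0, rfl⟩
  have hbd : BddBelow {t | ∃ x, t = M.d x (f x)} :=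
    ⟨L, by rintro t ⟨x, rfl⟩; exact (hL x).le⟩
  obtain ⟨t, ⟨z, rfl⟩, hz⟩ := exists_lt_of_csInf_lt hne
    (lt_add_one (sInf {t | ∃ x, t = M.d x (f x)}))
  exact ⟨sInf {t | ∃ x, t = M.d x (f x)}, z,
    le_csInf hne (by rintro t ⟨x, rfl⟩; exact (hL x).le),
    fun x => csInf_le hbd ⟨x, rfl⟩, hz.le⟩

end F9

/-- F9: LOX. -/
theorem burn_F9 (hD8 : stD8) (hE5b : stE5b) (hF5w : stF5w) (hF9b : stF9b) (hF0b : stF0b) :
    stF9 := by
  intro G X I _ _ _ c M E R Y F hY hg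
  letI act := coAct c.ρ hg
  intro g x0 hLox hE hx0 x m
  have hW := hF5w G X I c M E R Y F hY hg
  have hiso := hW.rf.iso
  have hD := (hD8 G (Co Y c.ρ) I (c.Z M hY) _ R _ c.ρ _ c.δ hW).2 hiso
  have hI : Iso G (dqPM (c.Z M hY) (KK R) hiso) := hD.1
  obtain ⟨⟨b1, -, -, -, -, -, b7, b8, -, -, -⟩, -, ⟨-, -, -, -, -, -, -, k1, -, k3, -⟩⟩ := hF0b c
  obtain ⟨l, z, hLl, hl, hz⟩ := F9.exists_inf M (fun x => g • x) c.L (fun x => by
    by_contra h
    obtain ⟨i, hi⟩ := F.cov g x hLox (not_lt.1 h)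
    exact hE i hi) x0
  have hlam := c.hlam
  have hl0 : 0 < l := by linarith
  have hll : 0 < c.lam * l := mul_pos hlam hl0
  have hM' : c.lam * l ≤ c.M' := (mul_le_mul_of_nonneg_left (hl x0) hlam.le).trans hx0
  -- the power
  set p := ⌈c.Tt / (c.lam * l)⌉₊ with hp
  have p1 : c.Tt ≤ c.lam * l * p := by
    have := Nat.le_ceil (c.Tt / (c.lam * l))
    rw [div_le_iff₀ hll] at this
    linarith
  have hTt : 0 ≤ c.Tt := by linarith
  have p2 : (p : ℝ) * (c.lam * l) ≤ 2 * c.Tt := by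
    have h1 := Nat.ceil_lt_add_one (div_nonneg hTt hll.le)
    have h2 : c.Tt / (c.lam * l) * (c.lam * l) = c.Tt := div_mul_cancel₀ _ hll.ne'
    have h3 : (p : ℝ) * (c.lam * l) ≤ (c.Tt / (c.lam * l) + 1) * (c.lam * l) :=
      mul_le_mul_of_nonneg_right h1.le hll.le
    rw [add_mul, h2, one_mul] at h3
    linarith
  have p3 : c.kl * p ≤ 1 := by
    have h1 : c.kl * (p * (c.lam * l)) ≤ c.kl * (2 * c.Tt) := mul_le_mul_of_nonneg_left p2 k1.le
    rw [k3] at h1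
    have h2 : c.lam * c.L ≤ c.lam * l := mul_le_mul_of_nonneg_left hLl hlam.le
    have h3 : c.kl * p * (c.lam * l) ≤ 1 * (c.lam * l) := by
      rw [one_mul, mul_assoc]
      linarith
    exact le_of_mul_le_mul_right h3 hll
  -- growth at the point `z`
  have g1 := hF9b G X I c M E R Y F hY hg g l z hLox hE hl hz hLl hM' p p1
  have g2 := hE5b G (Co Y c.ρ) (dqPM (c.Z M hY) (KK R) hiso) 1 0 hI (g ^ p) (Co.base z) (by
    intro m
    have h1 := g1 m
    rw [one_mul, sub_zero, ← pow_mul]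
    exact h1) x m
  have g3 := F9.pow_le (dqPM (c.Z M hY) (KK R) hiso) hI (g ^ m) x p
  have e1 : (g ^ p) ^ m = (g ^ m) ^ p := by rw [← pow_mul, ← pow_mul, mul_comm]
  rw [e1, one_mul] at g2
  have g4 := g2.trans g3
  have g5 : 0 ≤ (dqPM (c.Z M hY) (KK R) hiso).d x (g ^ m • x) := PM.nonneg _ _ _
  have g6 : c.kl * m ≤ c.kl * (p * (dqPM (c.Z M hY) (KK R) hiso).d x (g ^ m • x)) :=
    mul_le_mul_of_nonneg_left g4 k1.le
  have g7 : c.kl * p * (dqPM (c.Z M hY) (KK R) hiso).d x (g ^ m • x) ≤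
      1 * (dqPM (c.Z M hY) (KK R) hiso).d x (g ^ m • x) := mul_le_mul_of_nonneg_right p3 g5
  rw [← mul_assoc] at g6
  rw [one_mul] at g7
  exact g6.trans g7

end BSD
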