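import Pool.Agent.Lib.MP_8528c3_al.StF

/-!
# Burnside project, F9b: growth in the quotient along the axis
-/

namespace BSD

theorem burn_F9b (hB1 : stB1) (hB7 : stB7) (hC7 : stC7) (hD11 : stD11) (hE0 : stE0)
    (hE8 : stE8) (hF4 : stF4) (hF5w : stF5w) (hF9a : stF9a) (hF0b : stF0b) : stF9b := by
  intro G X I _ _ _ c M E R Y fs hY hg
  let _ := coAct c.ρ hg
  intro g l z hgl hgE hl hz hLl hlM p hp m
  obtain ⟨π, y0, hPr⟩ := hB1 X I M Y hY
  obtain ⟨⟨f1, f2, f3, f4, f5, f6, f7, f8, f9, f10, f11⟩, ⟨_, _, _, _, _, _, _, _, hM2⟩,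
    ⟨hlam, _⟩⟩ := hF0b c
  have hδ := c.hδ
  have hT := c.hT
  have eL := c.eL
  have eC3 := c.eC3
  have eM2 := c.eM2
  have hρ1 := c.hρ1
  have hTt := c.hTt
  have hTt0 := c.hTt0
  have hl0 := c.hlam
  have h20 : 20 ≤ c.ρ := by linarith
  have hTρ : c.T + 1 + c.δ < c.ρ := by linarith
  have hρ2 : 2 * c.C3 + 4 * c.δ + 1 ≤ 2 * c.ρ := by linarith
  have hTH := (hF4 G X I c M E R Y fs).1
  have hCO := c.b20 X I (c.N M) Y c.ρ hY c.ρ0 h20 hTH
  have hPr' : Pr (c.N M) Y π y0 := by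
    refine ⟨hPr.mem, fun i x y hy => ?_, hPr.fix, hPr.y0⟩
    have h1 := hPr.le i x y hy
    change c.lam * M.d x (π i x) ≤ c.lam * M.d x y + 1 / 100
    have h2 := mul_le_mul_of_nonneg_left h1 hl0.le
    linarith
  have hws := hF5w G X I c M E R Y fs hY hg
  obtain ⟨a1, a2⟩ := hF9a G X I c M E R Y fs hY g l z hgl hgE hl hz hLl hlM π y0 hPr
  have hp1 : 1 ≤ p := by
    rcases Nat.eq_zero_or_pos p with h | h
    · subst h
      simp only [Nat.cast_zero, mul_zero] at hp
      linarith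
    · exact h
  set w : ℕ → Co Y c.ρ := fun j => Co.base (g ^ (p * j) • z) with hw
  -- the angles are small
  have hang : dqf (c.Z M hY) (KK R) (w 0) (w m) = (c.Z M hY).d (w 0) (w m) := by
    refine hD11 G (Co Y c.ρ) I (c.Z M hY) (fun i => Co.apex i) R (thC (c.N M) hY c.ρ0 c.δ) c.ρ
      (2 * c.δ + 1) c.δ hws (w 0) (w m) fun i => ?_
    have h1 := (hC7 X I (c.N M) Y c.ρ c.δ c.T hY c.ρ0 π y0 h20 hTH hPr' hCO.1 hδ hT
      (fun a b c' p' h => hCO.2 π y0 hPr' a b c' p' h) hTρ i (g ^ (p * 0) • z)).2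
      (g ^ (p * m) • z)
    have h2 := a1 i (p * 0) (p * m) (by simp)
    have h3 : 0 < tt1 c.δ c.ρ := by
      unfold tt1
      have := Real.exp_pos c.ρ
      have := Real.exp_pos (5 * c.δ + 14)
      linarith
    refine h1.trans ?_
    rw [div_le_iff₀ h3]
    linarith
  have hw0 : w 0 = Co.base z := by
    rw [hw]
    simp
  have key : (m : ℝ) ≤ (c.Z M hY).d (w 0) (w m) := by
    -- the steps are long
    have hstep : ∀ j, 2 * c.C3 + 4 * c.δ + 1 ≤ (c.Z M hY).d (w j) (w (j + 1)) := by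
      intro j
      have h1 := (hE8 G X M c.δ l fs.st.iso fs.st.hyp fs.st.sg hδ (by linarith) g z hl hz).2 z p
      have h2 : M.d (g ^ (p * j) • z) (g ^ (p * (j + 1)) • z) = M.d z (g ^ p • z) := by
        rw [Nat.mul_succ, pow_add, mul_smul, fs.st.iso]
      have hp0 : (0:ℝ) ≤ p := Nat.cast_nonneg p
      have h3 : l * p / 2 ≤ M.d z (g ^ p • z) := by
        have h4 : l / 2 * p ≤ (l - 8 * c.δ - 6) * p :=
          mul_le_mul_of_nonneg_right (by linarith) hp0
        linarith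
      have h5 : c.Tt / 2 ≤ c.lam * M.d z (g ^ p • z) := by
        have h6 := mul_le_mul_of_nonneg_left h3 hl0.le
        linarith
      have h7 := hB7 X I (c.N M) Y c.ρ y0 hY c.ρ0 (w j) (w (j + 1))
      have h8 : (c.N M).d (bt y0 (w j)) (bt y0 (w (j + 1))) = c.lam * M.d z (g ^ p • z) := by
        change c.lam * M.d (g ^ (p * j) • z) (g ^ (p * (j + 1)) • z) = _
        rw [h2]
      have h9 : ht (w j) = 0 := rfl
      have h10 : ht (w (j + 1)) = 0 := rfl
      rw [h8, h9, h10] at h7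
      have h11 : Real.log (c.Tt / 4) ≤ Real.log (c.lam * M.d z (g ^ p • z) / 2) :=
        Real.log_le_log (by linarith) (by linarith)
      have h12 : c.C3 + 2 * c.δ + 1 / 2 ≤ min c.ρ (max (max (0:ℝ) 0)
          (Real.log (c.lam * M.d z (g ^ p • z) / 2))) := by
        refine le_min (by linarith) (le_max_of_le_right ?_)
        linarith
      linarith
    rcases Nat.eq_zero_or_pos m with h0 | h0
    · subst h0
      rw [Nat.cast_zero]
      exact (c.Z M hY).nonneg _ _
    · obtain ⟨m', rfl⟩ : ∃ m', m = m' + 1 := ⟨m - 1, by omega⟩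
      have h1 := (hE0 (Co Y c.ρ) (c.Z M hY) c.δ c.C3 (2 * c.C3 + 4 * c.δ + 1) hCO.1 (by linarith)
        (by linarith) m' w (by
          intro j hj1 _
          obtain ⟨j', rfl⟩ : ∃ j', j = j' + 1 := ⟨j - 1, by omega⟩
          have h2 := a2 p (p * j') hp1
          have e1 : p * j' + 2 * p = p * (j' + 1 + 1) := by ring
          have e2 : p * j' + p = p * (j' + 1) := by ring
          rw [e1, e2] at h2
          rw [Nat.add_sub_cancel]
          exact h2) (fun j _ _ => hstep j)).2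
      have h2 : ((m' : ℝ) + 1) * (2 * c.C3 + 4 * c.δ + 1) ≤
          ∑ j ∈ Finset.range (m' + 1), (c.Z M hY).d (w j) (w (j + 1)) := by
        have h3 := Finset.card_nsmul_le_sum (Finset.range (m' + 1))
          (fun j => (c.Z M hY).d (w j) (w (j + 1))) (2 * c.C3 + 4 * c.δ + 1)
          (fun j _ => hstep j)
        rw [Finset.card_range, nsmul_eq_mul] at h3
        push_cast at h3
        exact h3
      push_cast
      have h4 : (0:ℝ) ≤ m' := Nat.cast_nonneg m'
      have h5 : ((m' : ℝ) + 1) * (2 * c.C3 + 4 * c.δ + 1) - 2 * m' * (c.C3 + 2 * c.δ) =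
        m' + 1 + (2 * c.C3 + 4 * c.δ) := by ring
      linarith
  have h := key
  rw [← hang, hw0] at h
  exact h

end BSD
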