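import Pool.Agent.Lib.MP_8528c3_al.StF

/-!
# Burnside project: the sequence of stages (assembly of part F)
-/

namespace BSD

/-- The statements needed for the definition of the next stage. -/
structure HF : Prop where
  d8 : stD8
  f1 : stF1
  f5w : stF5w
  f6 : stF6
  f15 : stF15
  f15a : stF15a
  f15b : stF15b

/-- A stage with a marking by the group `F` and a base point. -/
structure MS (c : CC) (F : Type) [Group F] where
  G : Type
  X : Type
  [ig : Group G]
  [ia : MulAction G X]
  M : PM X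
  st : STAGE G M c.n c.δ c.L' c.A0 c.kl
  φ : F →* G
  sur : Function.Surjective φ
  x0 : X

attribute [instance] MS.ig MS.ia

namespace MS

variable {c : CC} {F : Type} [Group F]

/-- Index set of the cones. -/
def J (s : MS c F) : Type := FI s.G s.M c.L

instance (s : MS c F) : MulAction s.G s.J := fiAct s.M c.L

/-- The groups `E i`. -/
def E (s : MS c F) (i : s.J) : Subgroup s.G := i.1

/-- The groups `R i`. -/
def R (s : MS c F) (i : s.J) : Subgroup s.G := Rn c.n i.1

/-- The sets `Y i`. -/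
def Y (s : MS c F) (i : s.J) : Set s.X := YY s.M c.L1 i.1

theorem fs (h : HF) (s : MS c F) : FS c s.M s.E s.R s.Y := h.f15b s.G s.X c s.M s.st

theorem hY (h : HF) (s : MS c F) : ∀ i, (s.Y i).Nonempty :=
  h.f1 s.G s.X s.J c s.M s.E s.R s.Y (s.fs h)

theorem hg (h : HF) (s : MS c F) : ∀ (g : s.G) (i : s.J), ∀ y ∈ s.Y i, g • y ∈ s.Y (g • i) :=
  (h.f6 s.G s.X s.J c s.M s.E s.R s.Y (s.fs h)).2.1

/-- The cone-off. -/
def C (s : MS c F) : Type := Co s.Y c.ρ

/-- Base points of the cone-off. -/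
def cb (s : MS c F) (x : s.X) : s.C := Co.base x

/-- Apexes of the cone-off. -/
def ca (s : MS c F) (i : s.J) : s.C := Co.apex i

/-- The action on the cone-off. -/
@[reducible] def act (h : HF) (s : MS c F) : MulAction s.G s.C := coAct c.ρ (s.hg h)

/-- The metric of the cone-off. -/
noncomputable def MC (h : HF) (s : MS c F) : PM s.C := c.Z s.M (s.hY h)

theorem ws (h : HF) (s : MS c F) : letI := s.act h
    WS (s.MC h) (fun i => (Co.apex i : s.C)) s.R (thC (c.N s.M) (s.hY h) c.ρ0 c.δ) c.ρ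
      (2 * c.δ + 1) c.δ :=
  h.f5w s.G s.X s.J c s.M s.E s.R s.Y (s.fs h) (s.hY h) (s.hg h)

theorem iso (h : HF) (s : MS c F) : letI := s.act h
    ∀ (g : s.G) (x y : s.C), (s.MC h).d (g • x) (g • y) = (s.MC h).d x y :=
  letI := s.act h
  (s.ws h).rf.iso

/-- The group generated by the `n`-th powers of the short loxodromic elements. -/
def K (s : MS c F) : Subgroup s.G := KK s.R

theorem nor (h : HF) (s : MS c F) : s.K.Normal :=
  letI := s.act h
  (h.d8 s.G s.C s.J (s.MC h) _ s.R _ _ _ _ (s.ws h)).1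

/-- The next stage. -/
noncomputable def next (h : HF) (s : MS c F) : MS c F :=
  letI := s.act h
  haveI := s.nor h
  letI := qAct s.C s.K
  { G := s.G ⧸ s.K
    X := QZ s.C s.K
    M := qM (s.MC h) s.K (s.iso h)
    st := h.f15a s.G s.C s.K (s.MC h) (s.iso h) c.n c.δ c.L' c.A0 c.kl
      (h.f15 s.G s.X s.J c s.M s.E s.R s.Y (s.fs h) (s.hY h) (s.hg h) (s.iso h))
    φ := (QuotientGroup.mk' s.K).comp s.φ
    sur := (QuotientGroup.mk'_surjective s.K).comp s.sur
    x0 := qz s.K (s.cb s.x0) }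

theorem next_ker (h : HF) (s : MS c F) (g : F) : (s.next h).φ g = 1 ↔ s.φ g ∈ s.K :=
  haveI := s.nor h
  QuotientGroup.eq_one_iff (s.φ g)

theorem K_le (s : MS c F) : s.K ≤ Subgroup.normalClosure {h : s.G | ∃ f, h = f ^ c.n} := by
  unfold K KK
  rw [Subgroup.closure_le]
  rintro h ⟨i, hi⟩
  have h2 : s.R i ≤ Subgroup.normalClosure {h : s.G | ∃ f, h = f ^ c.n} := by
    unfold R Rn
    rw [Subgroup.closure_le]
    rintro h ⟨f, _, rfl⟩
    exact Subgroup.subset_normalClosure ⟨f, rfl⟩
  exact h2 hi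

theorem cb_smul (h : HF) (s : MS c F) (g : s.G) (x : s.X) :
    letI := s.act h
    g • s.cb x = s.cb (g • x) := rfl

theorem ca_smul (h : HF) (s : MS c F) (g : s.G) (i : s.J) :
    letI := s.act h
    g • s.ca i = s.ca (g • i) := rfl

theorem cb_d (h : HF) (s : MS c F) (x y : s.X) :
    (s.MC h).d (s.cb x) (s.cb y) ≤ c.lam * s.M.d x y := coD_le (Co.pth_one (Mv.base _ _))

theorem next_d (h : HF) (s : MS c F) (g : F) :
    (s.next h).M.d (s.next h).x0 ((s.next h).φ g • (s.next h).x0) ≤
      c.lam * s.M.d s.x0 (s.φ g • s.x0) := by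
  let _ := s.act h
  have h1 := dqf_le (s.MC h) s.K (s.cb s.x0) (s.φ g • s.cb s.x0) s.K.one_mem
  rw [one_smul] at h1
  exact h1.trans (s.cb_d h s.x0 (s.φ g • s.x0))

/-- The sequence of stages. -/
noncomputable def sq (h : HF) (s : MS c F) : ℕ → MS c F
  | 0 => s
  | i + 1 => (sq h s i).next h

theorem sq_limit (h : HF) (h17 : stF17) (h0b : stF0b) (s : MS c F)
    (hs : Function.Injective s.φ) (g : F) :
    (∃ i, (s.sq h i).φ g = 1) ↔ g ∈ Subgroup.normalClosure {h : F | ∃ f, h = f ^ c.n} := by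
  refine h17 F (fun i => (s.sq h i).G) (fun i => (s.sq h i).X) (fun i => (s.sq h i).M) c.n c.δ
    c.L' c.A0 c.kl c.lam (h0b c).2.2.2.2.2.2.2.2.2.1 c.hlam.le ?_ (fun i => (s.sq h i).st)
    (fun i => (s.sq h i).φ) (fun i => (s.sq h i).sur) hs (fun i => (s.sq h i).x0) ?_ ?_ ?_ g
  · have := (h0b c).2.2.1
    linarith
  · intro i g
    exact (s.sq h i).next_d h g
  · intro i g hg
    have := ((s.sq h i).next_ker h g).2 (by rw [hg]; exact Subgroup.one_mem _)
    exact this
  · intro i g hg
    exact (s.sq h i).K_le (((s.sq h i).next_ker h g).1 hg)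

/-- The first stage: the free group. -/
noncomputable def base (c : CC) (h0b : stF0b) (h16 : stF16) (α : Type) [DecidableEq α] :
    MS c (FreeGroup α) where
  G := FreeGroup α
  X := FreeGroup α
  M := fgPM α
  st := by
    have h := h0b c
    have h1 := c.hδ
    have h2 := c.eA0
    have h3 := h.1.2.1
    have h4 := h.1.2.2.1
    have h5 := c.er1
    have h6 := c.ρ0
    exact h16 α c.n c.δ c.L' c.A0 c.kl c.hδ (by linarith) (by rw [h2, h5]; nlinarith)
      h.2.2.2.2.2.2.2.2.2.1 h.2.2.2.2.2.2.2.2.2.2.1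
  φ := MonoidHom.id _
  sur := Function.surjective_id
  x0 := 1

theorem base_inj (c : CC) (h0b : stF0b) (h16 : stF16) (α : Type) [DecidableEq α] :
    Function.Injective (base c h0b h16 α).φ := Function.injective_id

/-- The free Burnside group is the limit of the stages. -/
theorem limit (c : CC) (h : HF) (h17 : stF17) (h0b : stF0b) (h16 : stF16) (α : Type)
    [DecidableEq α] (g : FreeGroup α) :
    (∃ i, ((base c h0b h16 α).sq h i).φ g = 1) ↔
      g ∈ Subgroup.normalClosure {h : FreeGroup α | ∃ f, h = f ^ c.n} :=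
  sq_limit h h17 h0b _ (base_inj c h0b h16 α) g

end MS

end BSD
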