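import Pool.Agent.Lib.MP_8528c3_al.AllCD
import Pool.Agent.Lib.MP_8528c3_al.A5
import Pool.Agent.Lib.MP_8528c3_al.E0
import Pool.Agent.Lib.MP_8528c3_al.E1
import Pool.Agent.Lib.MP_8528c3_al.E2
import Pool.Agent.Lib.MP_8528c3_al.E3
import Pool.Agent.Lib.MP_8528c3_al.E4a
import Pool.Agent.Lib.MP_8528c3_al.E4b
import Pool.Agent.Lib.MP_8528c3_al.E4c
import Pool.Agent.Lib.MP_8528c3_al.E5
import Pool.Agent.Lib.MP_8528c3_al.E5b
import Pool.Agent.Lib.MP_8528c3_al.E6
import Pool.Agent.Lib.MP_8528c3_al.E8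
import Pool.Agent.Lib.MP_8528c3_al.B1
import Pool.Agent.Lib.MP_8528c3_al.B14
import Pool.Agent.Lib.MP_8528c3_al.E0b
import Pool.Agent.Lib.MP_8528c3_al.E1b
import Pool.Agent.Lib.MP_8528c3_al.E7
import Pool.Agent.Lib.MP_8528c3_al.E9
import Pool.Agent.Lib.MP_8528c3_al.E10e
import Pool.Agent.Lib.MP_8528c3_al.E11
import Pool.Agent.Lib.MP_8528c3_al.E10a
import Pool.Agent.Lib.MP_8528c3_al.E10b
import Pool.Agent.Lib.MP_8528c3_al.E10c
import Pool.Agent.Lib.MP_8528c3_al.E10d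
import Pool.Agent.Lib.MP_8528c3_al.E10s
import Pool.Agent.Lib.MP_8528c3_al.E10t
import Pool.Agent.Lib.MP_8528c3_al.F0
import Pool.Agent.Lib.MP_8528c3_al.F0b
import Pool.Agent.Lib.MP_8528c3_al.F1
import Pool.Agent.Lib.MP_8528c3_al.F2
import Pool.Agent.Lib.MP_8528c3_al.F3
import Pool.Agent.Lib.MP_8528c3_al.F4
import Pool.Agent.Lib.MP_8528c3_al.F5
import Pool.Agent.Lib.MP_8528c3_al.F5w
import Pool.Agent.Lib.MP_8528c3_al.F6
import Pool.Agent.Lib.MP_8528c3_al.F7
import Pool.Agent.Lib.MP_8528c3_al.F7a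
import Pool.Agent.Lib.MP_8528c3_al.F7b
import Pool.Agent.Lib.MP_8528c3_al.F8
import Pool.Agent.Lib.MP_8528c3_al.F8h
import Pool.Agent.Lib.MP_8528c3_al.F9
import Pool.Agent.Lib.MP_8528c3_al.F9a
import Pool.Agent.Lib.MP_8528c3_al.F9b
import Pool.Agent.Lib.MP_8528c3_al.F10
import Pool.Agent.Lib.MP_8528c3_al.F11
import Pool.Agent.Lib.MP_8528c3_al.F11a
import Pool.Agent.Lib.MP_8528c3_al.F11b
import Pool.Agent.Lib.MP_8528c3_al.F12
import Pool.Agent.Lib.MP_8528c3_al.F13
import Pool.Agent.Lib.MP_8528c3_al.F14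
import Pool.Agent.Lib.MP_8528c3_al.F15
import Pool.Agent.Lib.MP_8528c3_al.F15a
import Pool.Agent.Lib.MP_8528c3_al.F15b
import Pool.Agent.Lib.MP_8528c3_al.F16
import Pool.Agent.Lib.MP_8528c3_al.F16a
import Pool.Agent.Lib.MP_8528c3_al.F16b
import Pool.Agent.Lib.MP_8528c3_al.F17
import Pool.Agent.Lib.MP_8528c3_al.FAsm

/-!
# Burnside project: parts E and F, assembled (no hypotheses left)
-/

namespace BSD

theorem okE0 : stE0 := burn_E0
theorem okE0b : stE0b := burn_E0b burn_A4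
theorem okE1 : stE1 := burn_E1 burn_A9
theorem okE1b : stE1b := burn_E1b burn_A9
theorem okE2 : stE2 := burn_E2
theorem okE3 : stE3 := burn_E3
theorem okE4a : stE4a := burn_E4a okA10 okE2 okE3
theorem okE4b : stE4b := burn_E4b okE2 okE3
theorem okE4c : stE4c := burn_E4c okE4b
theorem okE5 : stE5 := burn_E5 burn_A9
theorem okE5b : stE5b := burn_E5b
theorem okE6 : stE6 := burn_E6 okE4a okE4b okE5 okE5b
theorem okE7 : stE7 := burn_E7 okE4a okE4b okE5
theorem okE8 : stE8 := burn_E8 burn_A4 okE0 okE5b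
theorem okE9 : stE9 := burn_E9 burn_A9 okA10 okE8
theorem okE10s : stE10s := burn_E10s okE0b okE4a okE4c okE6
theorem okE10t : stE10t := burn_E10t
theorem okE10a : stE10a := burn_E10a okE4a okE4b okE10s okE10t
theorem okE10b : stE10b := burn_E10b okE10a okE10s okE10t
theorem okE10c : stE10c := burn_E10c okE10a okE10b okE10s okE10t
theorem okE10d : stE10d := burn_E10d okE10c
theorem okE10e : stE10e := burn_E10e okE10c
theorem okE11 : stE11 := burn_E11 okE10s okE10b okE10c okE10d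
theorem okB1 : stB1 := burn_B1
theorem okB14 : stB14 := burn_B14 burn_A7 okB2 okB3 burn_B8
theorem okF0 : stF0 := burn_F0
theorem okF0b : stF0b := burn_F0b
theorem okF6 : stF6 := burn_F6 okE10c okE10d okE10e okF0b
theorem okF1 : stF1 := burn_F1 okE0b okE1 okE7 okE10t okF6
theorem okF2 : stF2 := burn_F2 burn_A4 burn_A5 okA10 okE1 okF6
theorem okF3 : stF3 := burn_F3 burn_A4 okE1 okF6
theorem okF4 : stF4 := burn_F4 okF0b okF1 okF2 okF3
theorem okF5 : stF5 := burn_F5 okF6 okF0b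
theorem okF5w : stF5w := burn_F5w okC6 burn_B10 okF4 okF5 okF6 okF0b
theorem okF7a : stF7a := burn_F7a burn_A4
theorem okF7b : stF7b := burn_F7b
theorem okF7 : stF7 := burn_F7 burn_A4 okA10 okE2 okF1 okF2 okF6 okF7a okF7b okF0b
theorem okF8 : stF8 := burn_F8 burn_A4 okE1 okE1b okE8 okF0b okF2 okF6 okF7a okF7b
theorem okF8h : stF8h := burn_F8h burn_B7 burn_B8 burn_B9 okF6 okF0b
theorem okF9a : stF9a := burn_F9a burn_A5 okB12 okB14 okE8 okF4 okF8 okF0b
theorem okF9b : stF9b :=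
  burn_F9b okB1 burn_B7 okC7 okD11 okE0 okE8 okF4 okF5w okF9a okF0b
theorem okF9 : stF9 := burn_F9 okD8 okE5b okF5w okF9b okF0b
theorem okF10 : stF10 := burn_F10 okD8 okD10 okE8 okF5w okF6 okF8h okF9 okF0b
theorem okF11b : stF11b := burn_F11b burn_B8 okF6 okF7 okF8h okF0b
theorem okF11a : stF11a :=
  burn_F11a okD8 okD10 okD12b okD13 okE1 okF5w okF6 okF11b okF0b
theorem okF11 : stF11 := burn_F11 okC0 okD8 okD10 okE1 okF5w okF6 okF11a okF0b
theorem okF12 : stF12 := burn_F12 okF0b okF5w okD12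
theorem okF13 : stF13 := burn_F13 burn_B8 okC0 okE11 okF6 okF8h okF9 okF11b okF0b
theorem okF14 : stF14 := burn_F14 okC0 okD8 okE9 okF5w okF11 okF12 okF13 okF0b
theorem okF15 : stF15 :=
  burn_F15 okD8 okD10 okF5w okF10 okF11 okF12 okF13 okF14 okF0b
theorem okF15a : stF15a := burn_F15a
theorem okF15b : stF15b := burn_F15b okE10c okF0b
theorem okF16a : stF16a := burn_F16a
theorem okF16b : stF16b := burn_F16b
theorem okF16 : stF16 := burn_F16 okE0b okE4a okE4c okE9 okF16a okF16b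
theorem okF17 : stF17 := burn_F17

theorem okHF : HF where
  d8 := okD8
  f1 := okF1
  f5w := okF5w
  f6 := okF6
  f15 := okF15
  f15a := okF15a
  f15b := okF15b

/-- The sequence of stages of the free Burnside group. -/
noncomputable def stg (c : CC) (α : Type) [DecidableEq α] (i : ℕ) : MS c (FreeGroup α) :=
  (MS.base c okF0b okF16 α).sq okHF i

/-- The free Burnside group of exponent `c.n` is the limit of the stages. -/
theorem stg_limit (c : CC) (α : Type) [DecidableEq α] (g : FreeGroup α) :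
    (∃ i, (stg c α i).φ g = 1) ↔
      g ∈ Subgroup.normalClosure {h : FreeGroup α | ∃ f, h = f ^ c.n} :=
  MS.limit c okHF okF17 okF0b okF16 α g

end BSD
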