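import Pool.Agent.Lib.MP_8528c3_al.HDefs
import Pool.Agent.Lib.MP_8528c3_al.AllF

/-!
# Burnside project, part H: the low part of the cone-off, the step of the dimension bound.
Statements only.
-/

namespace BSD

/-- H1: a point whose gate is far from the gates of `a` and `x` is close to `Y i` if it is on
the segment. -/
def stH1 : Prop := ∀ (X I : Type) (N : PM X) (Y : I → Set X) (π : I → X → X) (y0 : I → X),
  TH N Y → Pr N Y π y0 → ∀ (i : I) (a x q : X),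
  (a ∈ Y i ∨ 17 / 100 < N.d (π i q) (π i a)) → (x ∈ Y i ∨ 17 / 100 < N.d (π i q) (π i x)) →
  N.d q (π i q) ≤ N.gp a x q + 18 / 100

/-- H2: elementary facts on heights. -/
def stH2 : Prop := ∀ (X I : Type) (N : PM X) (Y : I → Set X) (ρ : ℝ) (π : I → X → X)
  (y0 : I → X), 0 ≤ ρ → Pr N Y π y0 → ∀ o : Co Y ρ,
  (∀ i, 0 ≤ hti i o) ∧ (∀ i, 0 < hti i o → bt y0 o ∈ Y i) ∧
  (∀ i, 0 < hti i o → π i (bt y0 o) = bt y0 o) ∧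
  (∀ i j, 0 < hti i o → 0 < hti j o → i = j) ∧
  (∀ i (x : X), uu N π y0 i o (Co.base x : Co Y ρ) =
    min ρ (max (hti i o) (Real.log (N.d (π i (bt y0 o)) (π i x) / 2))))

/-- H3: gates of a point of the segment `[a,x]`. -/
def stH3 : Prop := ∀ (X I : Type) (N : PM X) (Y : I → Set X) (π : I → X → X) (y0 : I → X),
  TH N Y → Pr N Y π y0 → ∀ (i : I) (a x q : X), N.gp a x q ≤ 35 / 100 →
  N.d (π i a) (π i q) + N.d (π i q) (π i x) ≤ N.d (π i a) (π i x) + 7 / 5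

/-- H4: a point of the segment in the base where no climb is high is close to the segment of
the cone-off. -/
def stH4 : Prop := ∀ (X I : Type) (N : PM X) (Y : I → Set X) (ρ : ℝ) (hY : ∀ i, (Y i).Nonempty)
  (hρ : 0 ≤ ρ) (π : I → X → X) (y0 : I → X) (T : ℝ), TG N Y ρ hY hρ π y0 T →
  ∀ (o : Co Y ρ) (x q : X) (h : ℝ), 1 ≤ h → h < ρ → N.gp (bt y0 o) x q ≤ 35 / 100 →
  (∀ i, hh N π y0 i o (Co.base x) (Co.base q) ≤ h) →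
  (coPM N Y ρ hY hρ).gp o (Co.base x) (Co.base q) ≤ T + h + 2 * Real.exp h + 3

/-- H5: monotonicity of the distance of the cone-off along segments of the base. -/
def stH5 : Prop := ∀ (X I : Type) (N : PM X) (Y : I → Set X) (ρ : ℝ) (hY : ∀ i, (Y i).Nonempty)
  (hρ : 0 ≤ ρ) (π : I → X → X) (y0 : I → X) (T : ℝ), TG N Y ρ hY hρ π y0 T →
  ∀ (o : Co Y ρ) (x q : X), N.gp (bt y0 o) x q ≤ 35 / 100 →
  (coPM N Y ρ hY hρ).d o (Co.base q) ≤ (coPM N Y ρ hY hρ).d o (Co.base x) + 2 * T + 7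

/-- H6: distance to the gate after a climb. -/
def stH6 : Prop := ∀ (X I : Type) (N : PM X) (Y : I → Set X) (ρ : ℝ) (hY : ∀ i, (Y i).Nonempty)
  (hρ : 0 ≤ ρ) (π : I → X → X) (y0 : I → X) (T : ℝ), TG N Y ρ hY hρ π y0 T →
  ∀ (o : Co Y ρ) (x : X) (i : I), hti i o = 0 →
  (coPM N Y ρ hY hρ).d o (Co.base (π i (bt y0 o))) +
    2 * uu N π y0 i o (Co.base x : Co Y ρ) ≤
    (coPM N Y ρ hY hρ).d o (Co.base (π i x)) + 2 * T + 6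

/-- H7: a point of `[a,y]` is before the entrance `g` of `Y i` or close to `Y i`. -/
def stH7 : Prop := ∀ (X I : Type) (N : PM X) (Y : I → Set X), TH N Y →
  ∀ (i : I) (a g y y1 q : X) (ε : ℝ), g ∈ Y i → y1 ∈ Y i → N.gp a y q ≤ ε →
  N.gp a g q ≤ ε + 1 / 100 ∨ ∃ z ∈ Y i, N.d q z ≤ N.d y y1 + ε + 2 / 100

/-- H8: no point far after the entrances of `Y i` and `Y j` is close to both. -/
def stH8 : Prop := ∀ (X I : Type) (N : PM X) (Y : I → Set X) (ρ : ℝ) (hY : ∀ i, (Y i).Nonempty)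
  (hρ : 0 ≤ ρ) (π : I → X → X) (y0 : I → X) (T : ℝ), TG N Y ρ hY hρ π y0 T →
  ∀ (o : Co Y ρ) (i j : I) (p : X) (H : ℝ), i ≠ j → 0 ≤ H → N.Near (Y i) H p →
  N.Near (Y j) H p →
  (∀ k, (k = i ∨ k = j) → hti k o = 0 → (coPM N Y ρ hY hρ).d o (Co.base (π k (bt y0 o))) +
    2 * T + 2 * H + 11 ≤ (coPM N Y ρ hY hρ).d o (Co.base p)) → False

/-- H9: entrances of the active cones. -/
def stH9 : Prop := ∀ (X I : Type) (N : PM X) (Y : I → Set X) (ρ : ℝ) (hY : ∀ i, (Y i).Nonempty)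
  (hρ : 0 ≤ ρ) (π : I → X → X) (y0 : I → X) (T : ℝ) (o : Co Y ρ) (S : Set X) (t w rh h0 : ℝ),
  LS N Y ρ hY hρ π y0 T o S t w rh h0 → ∀ i, ActI N π y0 o S rh h0 i → hti i o = 0 →
  (coPM N Y ρ hY hρ).d o (Co.base (π i (bt y0 o))) + 2 * h0 ≤ t + w + (2 * rh + 20) + 2 * T + 6

/-- H10: points of `S` close to each other and close to two active cones. -/
def stH10 : Prop := ∀ (X I : Type) (N : PM X) (Y : I → Set X) (ρ : ℝ) (hY : ∀ i, (Y i).Nonempty)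
  (hρ : 0 ≤ ρ) (π : I → X → X) (y0 : I → X) (T : ℝ) (o : Co Y ρ) (S : Set X) (t w rh h0 : ℝ),
  LS N Y ρ hY hρ π y0 T o S t w rh h0 → ∀ i j, ActI N π y0 o S rh h0 i →
  ActI N π y0 o S rh h0 j → ∀ x ∈ S, ∀ y ∈ S, N.d x (π i x) ≤ 2 * rh + 20 →
  N.d y (π j y) ≤ 2 * rh + 20 → N.d x y ≤ rh → i = j

/-- H11: thinness. -/
def stH11 : Prop := ∀ (X I : Type) (N : PM X) (Y : I → Set X) (ρ : ℝ) (hY : ∀ i, (Y i).Nonempty)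
  (hρ : 0 ≤ ρ) (π : I → X → X) (y0 : I → X) (T : ℝ) (o : Co Y ρ) (S : Set X) (t w rh h0 : ℝ),
  LS N Y ρ hY hρ π y0 T o S t w rh h0 → C8 T w rh h0 < 2 * ρ → ∀ x ∈ S,
  ∀ z ∈ S2 N π y0 o S rh h0, N.gp (bt y0 o) x z ≤ rh + 1 →
  N.gp (bt y0 o) z x ≤ 2 * Real.exp (C8 T w rh h0 / 2) + 1

/-- H12: lower bound for `FF` at the points next to an active cone. -/
def stH12 : Prop := ∀ (X I : Type) (N : PM X) (Y : I → Set X) (ρ : ℝ) (hY : ∀ i, (Y i).Nonempty)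
  (hρ : 0 ≤ ρ) (π : I → X → X) (y0 : I → X) (T : ℝ) (o : Co Y ρ) (S : Set X) (t w rh h0 : ℝ),
  LS N Y ρ hY hρ π y0 T o S t w rh h0 → ∀ i, ActI N π y0 o S rh h0 i → ∀ a ∈ S,
  N.d a (π i a) ≤ 2 * rh + 20 → ∀ b ∈ S2 N π y0 o S rh h0, N.d a b ≤ rh →
  N.gp (bt y0 o) b (π i b) ≤ 9 / 100 ∧
  ∀ z ∈ S2 N π y0 o S rh h0, ∀ L : ℝ, 1 ≤ L → N.d b z ≤ L →
    N.d (bt y0 o) (π i b) + rh + 18 ≤ FF N (bt y0 o) rh L b z

/-- H13: return lemma. -/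
def stH13 : Prop := ∀ (X I : Type) (N : PM X) (Y : I → Set X) (ρ : ℝ) (hY : ∀ i, (Y i).Nonempty)
  (hρ : 0 ≤ ρ) (π : I → X → X) (y0 : I → X) (T : ℝ) (o : Co Y ρ) (S : Set X) (t w rh h0 : ℝ),
  LS N Y ρ hY hρ π y0 T o S t w rh h0 → ∀ i j, ActI N π y0 o S rh h0 i →
  ActI N π y0 o S rh h0 j → ∀ a ∈ S, ∀ a' ∈ S, N.d a (π i a) ≤ 2 * rh + 20 →
  N.d a' (π j a') ≤ 2 * rh + 20 → ∀ b ∈ S2 N π y0 o S rh h0, ∀ b' ∈ S2 N π y0 o S rh h0,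
  N.d a b ≤ rh → N.d b' a' ≤ rh → N.gp (bt y0 o) b (π i b) ≤ 9 / 100 → ∀ p : X,
  N.gp (bt y0 o) b p ≤ 1 / 100 → N.gp (bt y0 o) b' p ≤ 1 / 100 →
  N.d (bt y0 o) (π i b) + 17 ≤ N.d (bt y0 o) p → i = j ∧ N.d (π i a) (π i a') ≤ 2 * rh + 1

/-- H14: colouring of the sets of base points in an annulus of the cone-off. -/
def stH14 : Prop := ∀ (G X I : Type) [Group G] [MulAction G X] [MulAction G I] (c : CC)
  (M : PM X) (E R : I → Subgroup G) (Y : I → Set X), FS c M E R Y →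
  ∀ (hY : ∀ i, (Y i).Nonempty) (π : I → X → X) (y0 : I → X) (o : Co Y c.ρ) (S : Set X)
  (t w rh h0 D0 DT : ℝ) (q : ℕ), LS (c.N M) Y c.ρ hY c.ρ0 π y0 c.T o S t w rh h0 →
  2 ≤ q → 0 ≤ D0 → 1 ≤ DT → Sph M q (12 * c.δ + 27) 3 D0 →
  (∀ x ∈ S, ∀ y ∈ S, (c.N M).d x y ≤ DT) → c.lam * (1000 * c.A3) ≤ 1 →
  c.lam * (8 * (DT + 1) * (D0 + 18 * c.δ + 46)) ≤ 1 / 100 → C8 c.T w rh h0 < 2 * c.ρ →
  Col (c.N M) S q rh (18 * rh + 4 * (2 * Real.exp (C8 c.T w rh h0 / 2) + 1) + 46)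

/-- H15: colouring of the low points of an annulus of the cone-off. -/
def stH15 : Prop := ∀ (G X I : Type) [Group G] [MulAction G X] [MulAction G I] (c : CC)
  (M : PM X) (E R : I → Subgroup G) (Y : I → Set X), FS c M E R Y →
  ∀ (hY : ∀ i, (Y i).Nonempty) (o : Co Y c.ρ) (P : Set (Co Y c.ρ))
  (t w Dz H r rh h0 D0 : ℝ) (q : ℕ), 2 ≤ q → 0 ≤ D0 → 0 ≤ H → 0 ≤ w → 0 ≤ r → 0 ≤ Dz →
  Sph M q (12 * c.δ + 27) 3 D0 → (∀ z ∈ P, ht z ≤ H) →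
  (∀ z ∈ P, |(c.Z M hY).d o z - t| ≤ w) → (∀ z ∈ P, (c.Z M hY).d o z ≤ Dz) →
  Dz + H < c.ρ → (r + 2 * H) / 2 < c.ρ → rh = 2 * Real.exp ((r + 2 * H) / 2) →
  h0 = (w + H) + 2 * (2 * rh + 20) + 2 * c.T + 2 * rh + 10 → h0 + 1 < c.ρ →
  C8 c.T (w + H) rh h0 < 2 * c.ρ → c.lam * (1000 * c.A3) ≤ 1 →
  c.lam * (8 * (2 * Real.exp (Dz + H) + 1) * (D0 + 18 * c.δ + 46)) ≤ 1 / 100 →
  Col (c.Z M hY) P q r
    (18 * rh + 4 * (2 * Real.exp (C8 c.T (w + H) rh h0 / 2) + 1) + 46 + 2 * H)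

/-- H16: colouring of the local pieces of the annuli of the quotient. -/
def stH16 : Prop := ∀ (G X I : Type) [Group G] [MulAction G X] [MulAction G I] (c : CC)
  (M : PM X) (E R : I → Subgroup G) (Y : I → Set X), FS c M E R Y →
  ∀ (hY : ∀ i, (Y i).Nonempty) (hg : ∀ (g : G) (i : I), ∀ y ∈ Y i, g • y ∈ Y (g • i)),
  letI := coAct c.ρ hg
  ∀ iso : ∀ (g : G) (x y : Co Y c.ρ), (c.Z M hY).d (g • x) (g • y) = (c.Z M hY).d x y,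
  ∀ r Dp D0 : ℝ, 0 ≤ r → 0 ≤ Dp → 0 ≤ D0 → Sph M 4 (12 * c.δ + 27) 3 D0 →
  3 * Dp + 2 * c.δ + 20 + (r + 1) ≤ c.ρ → (nrB r + 2 * (r + 1)) / 2 < c.ρ →
  nh0 c.δ c.T r + 1 < c.ρ → nC8 c.δ c.T r < 2 * c.ρ → c.lam * (1000 * c.A3) ≤ 1 →
  c.lam * (8 * (2 * Real.exp (2 * Dp + c.δ + 10 + (r + 1)) + 1) * (D0 + 18 * c.δ + 46)) ≤
    1 / 100 →
  ∀ (o : Co Y c.ρ) (t : ℝ) (P : Set (Co Y c.ρ)),
  P ⊆ Ann (dqPM (c.Z M hY) (KK R) iso) o t 3 →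
  (∀ x ∈ P, ∀ y ∈ P, (dqPM (c.Z M hY) (KK R) iso).d x y ≤ Dp) →
  Col (dqPM (c.Z M hY) (KK R) iso) P 4 r (nDl c.δ c.T r)

/-- H17: from the quotient pseudo-metric to the set of orbits. -/
def stH17 : Prop := ∀ (G Z : Type) [Group G] [MulAction G Z] (K : Subgroup G) (M : PM Z)
  (iso : ∀ (g : G) (x y : Z), M.d (g • x) (g • y) = M.d x y) (q : ℕ) (r w D : ℝ),
  Sph (dqPM M K iso) q r w D → Sph (qM M K iso) q r w D

/-- H18: annuli of `0`-hyperbolic spaces. -/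
def stH18 : Prop := ∀ (X : Type) (M : PM X), M.Hyp 0 → ∀ r w : ℝ, 0 ≤ r → 0 ≤ w →
  Sph M 1 r w (r + 4 * w)

/-- H19: THE STEP for the colourings of the annuli. -/
def stH19 : Prop := ∀ δ T : ℝ, 1 ≤ δ → 1 ≤ T → ∃ Dst ρ2 : ℝ, 4 * δ + 21 ≤ Dst ∧
  ∀ k : KC, k.δ = δ → k.T = T → ρ2 ≤ k.ρ → ∃ ε : ℝ, 0 < ε ∧ ∀ c : CC, c.toKC = k →
  c.lam ≤ ε → ∀ (G X I : Type) [Group G] [MulAction G X] [MulAction G I]
  (M : PM X) (E R : I → Subgroup G) (Y : I → Set X), FS c M E R Y →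
  ∀ (hY : ∀ i, (Y i).Nonempty) (hg : ∀ (g : G) (i : I), ∀ y ∈ Y i, g • y ∈ Y (g • i)),
  letI := coAct c.ρ hg
  ∀ iso : ∀ (g : G) (x y : Co Y c.ρ), (c.Z M hY).d (g • x) (g • y) = (c.Z M hY).d x y,
  Sph M 4 (4 * δ + 9) 3 Dst → Sph (dqPM (c.Z M hY) (KK R) iso) 4 (4 * δ + 9) 3 Dst

/-- H20: the annuli of all the stages have colourings with `4` colours at the scale `4 δ + 9`,
with the same size. -/
def stH20 : Prop := ∀ δ T : ℝ, 1 ≤ δ → 1 ≤ T → ∃ Dst ρ2 : ℝ, 4 * δ + 21 ≤ Dst ∧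
  ∀ k : KC, k.δ = δ → k.T = T → ρ2 ≤ k.ρ → ∃ ε : ℝ, 0 < ε ∧ ∀ c : CC, c.toKC = k →
  c.lam ≤ ε → ∀ (α : Type) [DecidableEq α] (i : ℕ),
  Sph (stg c α i).M 4 (4 * δ + 9) 3 Dst

end BSD
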