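import Pool.Agent.Lib.MP_8528c3_al.StI

/-!
# Burnside project, part J: polynomial control of the sizes.  Statements only.
-/

namespace BSD

/-- J4b: I4b with an explicit constant. -/
def stJ4b : Prop := ∀ (c : CC) (C : ℝ), Real.exp c.ρ ≤ c.lam * C →
  c.lam * (c.A0 + c.n * c.L1) ≤ c.lam * C * c.ρ → ∀ (F : Type) [Group F] (h : HF) (s : MS c F)
  (x y : s.X), ∃ k ∈ s.K, s.M.d x (k • y) ≤ C * (s.next h).M.d (s.nx h x) (s.nx h y) + 1

/-- J4: properness with explicit constants. -/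
def stJ4 : Prop := ∀ (c : CC) (C : ℝ), 1 ≤ C → Real.exp c.ρ ≤ c.lam * C →
  c.lam * (c.A0 + c.n * c.L1) ≤ c.lam * C * c.ρ → ∀ (α : Type) [DecidableEq α] (j : ℕ)
  (D : ℝ), 0 ≤ D → ∀ g : FreeGroup α,
  (stg c α j).M.d (stg c α j).x0 ((stg c α j).φ g • (stg c α j).x0) ≤ D →
  ∃ g' : FreeGroup α, (stg c α j).φ g' = (stg c α j).φ g ∧
    (g'.norm : ℝ) ≤ (C + 1) ^ j * (D + 1)

/-- Colourings with `k + 1` colours at all scales, of size at most `A R ^ e`. -/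
def FColP (α : Type) [DecidableEq α] (n k : ℕ) (e : ℝ) : Prop := ∃ A : ℝ, 0 ≤ A ∧
  ∀ R : ℕ, 1 ≤ R → ∃ f : FB α n → Fin (k + 1), ∀ a b : FB α n,
  Relation.ReflTransGen (fun a b : FB α n => f a = f b ∧ ∃ u : FreeGroup α, u.norm ≤ R ∧
    b = a * (u : FB α n)) a b →
  ∃ u : FreeGroup α, (u.norm : ℝ) ≤ A * (R : ℝ) ^ e ∧ b = a * (u : FB α n)

/-- J5: compactness with polynomial control. -/
def stJ5 : Prop := ∀ (c : CC) (C e : ℝ), 1 ≤ C → Real.exp c.ρ ≤ c.lam * C →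
  c.lam * (c.A0 + c.n * c.L1) ≤ c.lam * C * c.ρ → 0 ≤ e → C + 1 ≤ (1 / c.lam) ^ e →
  ∀ (α : Type) [DecidableEq α] (B : ℝ), 0 ≤ B → (∀ j i : ℕ, j ≤ i →
    Col ((stg c α j).qk (MonoidHom.ker (stg c α i).φ)) Set.univ 8 1 B) → FColP α c.n 7 e

/-- J6: all free Burnside groups of large odd exponent have colourings with eight colours and
polynomial control. -/
def stJ6 : Prop := ∀ e : ℝ, 2 < e → ∃ N0 : ℕ, ∀ n : ℕ, N0 ≤ n → Odd n →
  ∀ (α : Type) [DecidableEq α], FColP α n 7 e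

/-- Asymptotic dimension at most `k` with control function `A r ^ e`: for every `r ≥ 1` there is a
cover of `X` by sets of diameter at most `A r ^ e` such that every ball of radius `r` meets at most
`k + 1` of these sets. -/
def AsdimPoly {X : Type} (d : X → X → ℝ) (k : ℕ) (e : ℝ) : Prop :=
  ∃ A : ℝ, ∀ r : ℝ, 1 ≤ r → ∃ U : Set (Set X), (∀ x, ∃ V ∈ U, x ∈ V) ∧
    (∀ V ∈ U, ∀ x ∈ V, ∀ y ∈ V, d x y ≤ A * r ^ e) ∧
    ∀ x, {V | V ∈ U ∧ ∃ y ∈ V, d x y ≤ r}.encard ≤ k + 1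

/-- J7: from colourings to covers, for every finite generating set. -/
def stJ7 : Prop := ∀ (α : Type) [Finite α] [DecidableEq α] (n k : ℕ) (e : ℝ), 0 ≤ e →
  FColP α n k e → ∀ S : Set (FB α n), S.Finite → Subgroup.closure S = ⊤ →
  AsdimPoly (wordDist S) k e

/-- J8: THE THEOREM with polynomial control. -/
def stJ8 : Prop := ∀ e : ℝ, 2 < e → ∃ N0 : ℕ, ∀ m n : ℕ, N0 ≤ n → Odd n →
  ∀ S : Set (FB (Fin m) n), S.Finite → Subgroup.closure S = ⊤ → AsdimPoly (wordDist S) 7 e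

end BSD
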