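import Pool.Agent.Lib.MP_8528c3_al.StI

/-!
# Burnside project: I3b (pulling back a colouring)
-/

namespace BSD

theorem burn_I3b (h2b : stI2b) (h3a : stI3a) : stI3b := by
  intro c F _ h s K hK B q f hB0 hB hf x y hxy
  have hlam := c.hlam
  obtain ⟨e1, _, e3, _⟩ := h2b c F h s
  have hstep : ∀ a b : s.X,
      ((s.next h).qk K).d (s.nx h a) (s.nx h b) ≤ c.lam * (s.qk K).d a b := by
    intro a b
    rw [← div_le_iff₀' hlam]
    refine le_dqf s.M (K.map s.φ) a b ?_
    rintro _ ⟨g, hg, rfl⟩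
    rw [div_le_iff₀' hlam]
    have h1 : ((s.next h).qk K).d (s.nx h a) (s.nx h b) ≤
        (s.next h).M.d (s.nx h a) ((s.next h).φ g • s.nx h b) :=
      dqf_le (s.next h).M (K.map (s.next h).φ) _ _ (Subgroup.mem_map_of_mem _ hg)
    rw [e1] at h1
    exact h1.trans (e3 _ _)
  have hch : Relation.ReflTransGen (Stp ((s.next h).qk K) Set.univ f 1) (s.nx h x)
      (s.nx h y) := by
    induction hxy with
    | refl => exact Relation.ReflTransGen.refl
    | tail _ hbc ih =>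
      refine ih.tail ⟨Set.mem_univ _, Set.mem_univ _, ?_, hbc.2.2.2⟩
      refine (hstep _ _).trans ?_
      have h1 := mul_le_mul_of_nonneg_left hbc.2.2.1 hlam.le
      rwa [mul_one_div_cancel hlam.ne'] at h1
  have h1 : dqf (s.next h).M (K.map (s.next h).φ) (s.nx h x) (s.nx h y) ≤ B := hf _ _ hch
  obtain ⟨_, ⟨g, hg, rfl⟩, h2⟩ := dqf_approx (s.next h).M (K.map (s.next h).φ) (s.nx h x)
    (s.nx h y) one_pos
  rw [e1] at h2
  obtain ⟨k, hk, h3⟩ := h3a c F h s (B + 1) hB x (s.φ g • y) (by linarith)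
  obtain ⟨g', rfl⟩ := s.sur k
  have h4 : (s.qk K).d x y ≤ s.M.d x (s.φ (g' * g) • y) :=
    dqf_le s.M (K.map s.φ) x y (Subgroup.mem_map_of_mem _ (K.mul_mem (hK g' hk) hg))
  rw [map_mul, mul_smul] at h4
  exact (mul_le_mul_of_nonneg_left h4 hlam.le).trans h3

end BSD
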