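import Pool.Agent.Lib.MP_8528c3_al.AllI0
import Pool.Agent.Lib.MP_8528c3_al.I3b

/-!
# Burnside project: parts I and J, assembled (the only hypothesis is `stH20`)
-/

namespace BSD

theorem okI3b : stI3b := burn_I3b okI2b okI3a
theorem okI3e : stI3e := burn_I3e okI3b okI3c okI3d okF0b
theorem okI3 : stI3 := burn_I3 okI3e okI2

/-- The theorem from the conclusion of part H. -/
theorem J8_of_H20 (h20 : stH20) : stI8 ∧ stJ8 :=
  ⟨I8_of_J8 (J8_of okI3b h20), J8_of okI3b h20⟩

end BSD
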