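import Pool.Agent.Lib.MP_8528c3_al.StB

/-!
# Burnside project, B19: short sides.
-/

namespace BSD

namespace B19

variable {X I : Type} {Y : I → Set X} {ρ : ℝ}

theorem ht_nonneg (hρ : 0 ≤ ρ) (p : Co Y ρ) : 0 ≤ ht p := by
  cases p with
  | base x => exact le_rfl
  | cone j y hy s h0 h1 => exact h0
  | apex j => exact hρ

theorem ht_le (hρ : 0 ≤ ρ) (p : Co Y ρ) : ht p ≤ ρ := by
  cases p with
  | base x => exact hρ
  | cone j y hy s h0 h1 => exact h1
  | apex j => exact le_rfl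

theorem hti_le_ht (hρ : 0 ≤ ρ) (i : I) (p : Co Y ρ) : hti i p ≤ ht p := by
  cases p with
  | base x => exact le_rfl
  | cone j y hy s h0 h1 =>
    simp only [hti, ht]
    split_ifs
    · exact le_rfl
    · exact h0
  | apex j =>
    simp only [hti, ht]
    split_ifs
    · exact le_rfl
    · exact hρ

theorem ht_eq (i : I) (p : Co Y ρ) (h : 0 < hti i p) : ht p = hti i p := by
  cases p with
  | base x => rfl
  | cone j y hy s h0 h1 =>
    simp only [hti, ht] at h ⊢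
    split_ifs at h ⊢
    · rfl
    · exact absurd h (lt_irrefl _)
  | apex j =>
    simp only [hti, ht] at h ⊢
    split_ifs at h ⊢
    · rfl
    · exact absurd h (lt_irrefl _)

theorem bt_mem {y0 : I → X} (hy0 : ∀ i, y0 i ∈ Y i) (i : I) (p : Co Y ρ) (h : 0 < hti i p) :
    bt y0 p ∈ Y i := by
  cases p with
  | base x => exact absurd h (lt_irrefl _)
  | cone j y hy s h0 h1 =>
    simp only [hti] at h
    split_ifs at h with hji
    · subst hji; exact hy
    · exact absurd h (lt_irrefl _)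
  | apex j =>
    simp only [hti] at h
    split_ifs at h with hji
    · subst hji; exact hy0 _
    · exact absurd h (lt_irrefl _)

theorem exp5_le : Real.exp 5 ≤ 148.42 := by
  have h1 := Real.exp_one_lt_d9
  have h0 := Real.exp_pos 1
  have h2 : Real.exp 5 = Real.exp 1 ^ 5 := by
    rw [← Real.exp_nat_mul]
    norm_num
  rw [h2]
  calc Real.exp 1 ^ 5 ≤ 2.7182818286 ^ 5 := pow_le_pow_left₀ h0.le h1.le 5
    _ ≤ 148.42 := by norm_num

theorem le_exp5 : 100 ≤ Real.exp 5 := by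
  have h1 := Real.exp_one_gt_d9
  have h2 : Real.exp 5 = Real.exp 1 ^ 5 := by
    rw [← Real.exp_nat_mul]
    norm_num
  rw [h2]
  calc (100:ℝ) ≤ 2.7182818283 ^ 5 := by norm_num
    _ ≤ Real.exp 1 ^ 5 := pow_le_pow_left₀ (by norm_num) h1.le 5

theorem exp501_eq : Real.exp 5.01 = Real.exp 5 * Real.exp 0.01 := by
  rw [← Real.exp_add]
  norm_num

theorem exp501_le : Real.exp 5.01 ≤ 152 := by
  rw [exp501_eq]
  have h1 : Real.exp 0.01 ≤ 1 / (1 - 0.01) :=
    Real.exp_bound_div_one_sub_of_interval (by norm_num) (by norm_num)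
  have h2 := exp5_le
  have h3 := Real.exp_pos 5
  calc Real.exp 5 * Real.exp 0.01 ≤ 148.42 * (1 / (1 - 0.01)) :=
        mul_le_mul h2 h1 (Real.exp_pos _).le (by norm_num)
    _ ≤ 152 := by norm_num

theorem le_exp501 : Real.exp 5 + 1 ≤ Real.exp 5.01 := by
  rw [exp501_eq]
  have h1 : 0.01 + 1 ≤ Real.exp 0.01 := Real.add_one_le_exp _
  have h2 := le_exp5
  nlinarith

/-- Case of a high point in the cone `i`. -/
theorem high (M : PM X) (π : I → X → X) (y0 : I → X) (hY : ∀ i, (Y i).Nonempty) (hρ : 0 ≤ ρ)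
    (b6 : stB6) (b7 : stB7) (b9 : stB9) (b11 : stB11) (b13 : stB13)
    (h20 : 20 ≤ ρ) (hT : TH M Y) (hP : Pr M Y π y0) (i : I) (a b c w q : Co Y ρ)
    (hab : (coPM M Y ρ hY hρ).d a b ≤ 2) (hm : Med M π y0 a b c w) (h3 : 3 < hti i a)
    (hq : At π y0 i a (hti i a) q) (hqa : (coPM M Y ρ hY hρ).d q a ≤ 0) :
    (coPM M Y ρ hY hρ).d a w ≤ 1000 := by
  obtain ⟨T, hTT⟩ : ∃ T, T = hti i a := ⟨_, rfl⟩
  rw [← hTT] at h3 hq
  have k1 := (b9 X I M Y ρ hY hρ i a b).1
  have k2 : |hti i a - hti i b| ≤ 2 := k1.trans hab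
  rw [← hTT, abs_le] at k2
  have hb1 : 0 < hti i b := by linarith [k2.1, k2.2]
  have ha1 : 0 < hti i a := by linarith
  have ea := ht_eq i a ha1
  have eb := ht_eq i b hb1
  have ma := hP.fix i _ (bt_mem hP.y0 i a ha1)
  have mb := hP.fix i _ (bt_mem hP.y0 i b hb1)
  have k3 := b7 X I M Y ρ y0 hY hρ a b
  have k4 : uu M π y0 i a b = min ρ (max (max (ht a) (ht b))
      (Real.log (M.d (bt y0 a) (bt y0 b) / 2))) := by
    unfold uu
    rw [ma, mb, ea, eb]
  rw [← k4, ea, eb, ← hTT] at k3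
  have hu : uu M π y0 i a b ≤ T + 2 := by linarith [k2.1, k2.2]
  obtain ⟨s1, -, -, v1, t1⟩ := b6 X I M Y ρ π y0 hρ i a b a
  obtain ⟨-, -, -, v2, -⟩ := b6 X I M Y ρ π y0 hρ i b c a
  obtain ⟨s3, -, -, v3, -⟩ := b6 X I M Y ρ π y0 hρ i a c b
  obtain ⟨-, -, -, -, t4⟩ := b6 X I M Y ρ π y0 hρ i c b a
  obtain ⟨s5, -⟩ := b6 X I M Y ρ π y0 hρ i b c a
  rw [← hTT] at v1 v3
  have hh1 : T - 2 ≤ hh M π y0 i a b c := by
    unfold hh
    refine le_min (by linarith) (le_min (by linarith [k2.1, k2.2]) (by linarith))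
  have hh2 : hh M π y0 i a b c ≤ uu M π y0 i a b := min_le_left _ _
  have fin : ∀ x, At π y0 i x (hh M π y0 i a b c) w → uu M π y0 i x a ≤ hh M π y0 i a b c + 4.7 →
      (coPM M Y ρ hY hρ).d a w ≤ 1000 := by
    intro x hx hux
    have k5 := b13 X I M Y ρ π y0 hY hρ i x a w q _ T 2 4.7 (by norm_num) (by norm_num) hx hq
      (by rw [abs_le]; constructor <;> linarith) hux
    have k6 := (coPM M Y ρ hY hρ).tri a q w
    have k7 := (coPM M Y ρ hY hρ).symm a q
    have k8 := (coPM M Y ρ hY hρ).symm w q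
    have k9 : Real.exp 4.7 ≤ Real.exp 5 := Real.exp_le_exp.2 (by norm_num)
    have k10 := exp5_le
    linarith
  have uaa : uu M π y0 i a a ≤ hh M π y0 i a b c + 4.7 := by
    rw [← s1, max_self] at t1
    linarith
  have uba : uu M π y0 i b a ≤ hh M π y0 i a b c + 4.7 := by
    rw [← s1]
    linarith
  rcases hm with ⟨j, hj, hmu⟩ | ⟨hall, -⟩
  · have hji : j = i := b11 X I M Y ρ π y0 h20 hT hP j i a b c hj (by linarith)
    subst hji
    rcases hmu with ⟨-, h1 | h1⟩ | ⟨e, h1 | h1⟩ | ⟨e, h1 | h1⟩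
    · exact fin a h1 uaa
    · exact fin b h1 uba
    · exact fin b h1 uba
    · refine fin c h1 ?_
      rw [← s5, e, ← s1] at t4
      have : max (hh M π y0 j a b c) (uu M π y0 j a b) ≤ hh M π y0 j a b c + 4 :=
        max_le (by linarith) (by linarith)
      linarith
    · exact fin a h1 uaa
    · refine fin c h1 ?_
      rw [← s3, e]
      linarith
  · exact absurd (hall i) (by push Not; linarith)

theorem to_base (M : PM X) (y0 : I → X) (hY : ∀ i, (Y i).Nonempty) (hρ : 0 ≤ ρ)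
    (b8 : stB8) (hy0 : ∀ i, y0 i ∈ Y i) (a : Co Y ρ) :
    (coPM M Y ρ hY hρ).d a (Co.base (bt y0 a)) ≤ ht a := by
  cases a with
  | base x => exact ((coPM M Y ρ hY hρ).self _).le
  | cone i y hy s h0 h1 =>
    obtain ⟨-, -, -, -, -, h⟩ := b8 X I M Y ρ y0 hY hρ i
    exact h _ hy0
  | apex i =>
    obtain ⟨-, -, -, -, -, h⟩ := b8 X I M Y ρ y0 hY hρ i
    exact h _ hy0

/-- Case of a low point. -/
theorem low (M : PM X) (π : I → X → X) (y0 : I → X) (hY : ∀ i, (Y i).Nonempty) (hρ : 0 ≤ ρ)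
    (a6 : stA6) (a7 : stA7) (b3 : stB3) (b7 : stB7) (b8 : stB8) (b14 : stB14)
    (h20 : 20 ≤ ρ) (hT : TH M Y) (hP : Pr M Y π y0) (a b c w : Co Y ρ)
    (hab : (coPM M Y ρ hY hρ).d a b ≤ 2) (hm : Med M π y0 a b c w) (h3 : ht a ≤ 3) :
    (coPM M Y ρ hY hρ).d a w ≤ 1000 := by
  have k1 := b7 X I M Y ρ y0 hY hρ a b
  have k2 : ht b ≤ min ρ (max (max (ht a) (ht b)) (Real.log (M.d (bt y0 a) (bt y0 b) / 2))) :=
    le_min (ht_le hρ b) ((le_max_right _ _).trans (le_max_left _ _))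
  have hb : ht b ≤ 5 := by linarith
  have k3 : min ρ (max (max (ht a) (ht b)) (Real.log (M.d (bt y0 a) (bt y0 b) / 2))) ≤ 5 := by
    linarith
  have k4 : Real.log (M.d (bt y0 a) (bt y0 b) / 2) ≤ 5 := by
    rcases min_le_iff.1 k3 with h | h
    · linarith
    · exact (le_max_right _ _).trans h
  have k5 : M.d (bt y0 a) (bt y0 b) ≤ 2 * Real.exp 5 := by
    rcases (M.nonneg (bt y0 a) (bt y0 b)).eq_or_lt with h | h
    · rw [← h]; positivity
    · have := (Real.log_le_iff_le_exp (by positivity)).1 k4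
      linarith
  have hu : ∀ i, uu M π y0 i a b ≤ 5.01 := by
    intro i
    unfold uu
    refine (min_le_right _ _).trans (max_le (max_le ?_ ?_) ?_)
    · linarith [hti_le_ht hρ i a]
    · linarith [hti_le_ht hρ i b]
    · have k6 := (b3 X I M Y π y0 hT hP i (bt y0 a) (bt y0 b)).2
      rcases (M.nonneg (π i (bt y0 a)) (π i (bt y0 b))).eq_or_lt with h | h
      · rw [← h]; norm_num
      · rw [Real.log_le_iff_le_exp (by positivity)]
        linarith [le_exp501]
  have key : ∀ o : X, M.gp (bt y0 a) (bt y0 b) o ≤ 1 → M.gp (bt y0 b) (bt y0 c) o ≤ 1 →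
      M.gp (bt y0 a) (bt y0 c) o ≤ 1 → (coPM M Y ρ hY hρ).d a (Co.base o) ≤ 303 := by
    intro o h1 h2 h3'
    have e1 : M.gp (bt y0 a) (bt y0 b) (bt y0 a) ≤ 2 * Real.exp 5 := by
      unfold PM.gp
      rw [M.self, M.symm (bt y0 b) (bt y0 a)]
      have := Real.exp_pos 5
      linarith
    have e2 : M.gp (bt y0 b) (bt y0 c) (bt y0 a) ≤ 2 * Real.exp 5 := by
      unfold PM.gp
      have t := M.tri (bt y0 c) (bt y0 b) (bt y0 a)
      rw [M.symm (bt y0 b) (bt y0 a), M.symm (bt y0 c) (bt y0 b)] at *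
      linarith
    have e3 : M.gp (bt y0 a) (bt y0 c) (bt y0 a) ≤ 2 * Real.exp 5 := by
      unfold PM.gp
      rw [M.self, M.symm (bt y0 c) (bt y0 a)]
      have := Real.exp_pos 5
      linarith
    have k7 := a7 X M (1 / 100) 1 (2 * Real.exp 5) hT.hyp _ _ _ o (bt y0 a) h1 h2 h3' e1 e2 e3
    have k8 : (coPM M Y ρ hY hρ).d a (Co.base (bt y0 a)) ≤ ht a := to_base M y0 hY hρ b8 hP.y0 a
    have k9 : (coPM M Y ρ hY hρ).d (Co.base (bt y0 a)) (Co.base o) ≤ M.d (bt y0 a) o :=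
      coD_le (Co.pth_one (Mv.base _ _))
    have k10 := (coPM M Y ρ hY hρ).tri a (Co.base (bt y0 a)) (Co.base o)
    have k11 := exp5_le
    linarith
  rcases hm with ⟨i, hi, hmu⟩ | ⟨-, o, rfl, h1, h2, h3'⟩
  · obtain ⟨o, o1, o3, o2⟩ := a6 X M (1 / 100) (1 / 100) (1 / 100) (by norm_num) (by norm_num)
      (by norm_num) hT.sg hT.hyp (bt y0 a) (bt y0 b) (bt y0 c)
    have g1 : M.gp (bt y0 a) (bt y0 b) o ≤ 1 := by linarith
    have g2 : M.gp (bt y0 b) (bt y0 c) o ≤ 1 := by linarith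
    have g3 : M.gp (bt y0 a) (bt y0 c) o ≤ 1 := by linarith
    have q1 := key o g1 g2 g3
    have q2 : hh M π y0 i a b c ≤ 5.01 := (min_le_left _ _).trans (hu i)
    have q3 := b14 X I M Y ρ π y0 hY hρ h20 hT hP i a b c w 5.01 o (by linarith) hi q2 hmu g1 g2 g3
    have q4 := (coPM M Y ρ hY hρ).tri a (Co.base o) w
    have q5 := (coPM M Y ρ hY hρ).symm (Co.base o) w
    have q6 := exp501_le
    linarith
  · have := key o (by linarith) (by linarith) (by linarith)
    linarith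

end B19

/-- B19: short sides. -/
theorem burn_B19 (a6 : stA6) (a7 : stA7) (b3 : stB3) (b6 : stB6) (b7 : stB7) (b8 : stB8)
    (b9 : stB9) (b11 : stB11) (b13 : stB13) (b14 : stB14) : stB19 := by
  intro X I M Y ρ π y0 hY hρ h20 hT hP a b c w hab hm
  by_cases h3 : ht a ≤ 3
  · exact B19.low M π y0 hY hρ a6 a7 b3 b7 b8 b14 h20 hT hP a b c w hab hm h3
  · cases a with
    | base x => exact absurd (show (0:ℝ) ≤ 3 by norm_num) h3
    | cone i y hy s h0 h1 =>
      have e1 : hti i (Co.cone i y hy s h0 h1 : Co Y ρ) = s := by simp [hti]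
      have hs : 3 < s := by
        have : ¬ s ≤ 3 := h3
        linarith [not_le.1 this]
      have e2 : π i y = y := hP.fix i y hy
      refine B19.high M π y0 hY hρ b6 b7 b9 b11 b13 h20 hT hP i _ b c w
        (Co.cone i y hy s h0 h1) hab hm (by rw [e1]; exact hs) ?_ ?_
      · rw [e1]
        refine ⟨by simpa [bt, e2] using hy, h0, h1, ?_⟩
        simp only [bt, e2]
      · rw [(coPM M Y ρ hY hρ).self]
    | apex i =>
      have e1 : hti i (Co.apex i : Co Y ρ) = ρ := by simp [hti]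
      have e2 : π i (y0 i) = y0 i := hP.fix i _ (hP.y0 i)
      refine B19.high M π y0 hY hρ b6 b7 b9 b11 b13 h20 hT hP i _ b c w
        (Co.cone i (y0 i) (hP.y0 i) ρ hρ le_rfl) hab hm (by rw [e1]; linarith) ?_ ?_
      · rw [e1]
        refine ⟨by simpa [bt, e2] using hP.y0 i, hρ, le_rfl, ?_⟩
        simp only [bt, e2]
      · obtain ⟨-, -, h3, -⟩ := b8 X I M Y ρ y0 hY hρ i
        have := h3 (y0 i) (hP.y0 i) ρ hρ le_rfl
        linarith

end BSD
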