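import Pool.Agent.Lib.MP_8528c3_al.StB

set_option autoImplicit false

/-!
# Burnside project, B11: at most one cone carries the median
-/

namespace BSD

namespace B11

variable {X I : Type} {M : PM X} {Y : I → Set X} {ρ : ℝ} {π : I → X → X} {y0 : I → X}

open Classical in
/-- A point of positive height in the cone `i`. -/
theorem mem_of_pos (hπ : Pr M Y π y0) {i j : I} (hij : i ≠ j) (x : Co Y ρ) (h : 0 < hti i x) :
    bt y0 x ∈ Y i ∧ hti j x = 0 := by
  cases x with
  | base x => exact absurd h (lt_irrefl _)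
  | cone k y hy s h0 h1 =>
    by_cases hk : k = i
    · subst hk
      refine ⟨hy, ?_⟩
      change (if k = j then s else 0) = 0
      rw [if_neg hij]
    · exfalso
      change 0 < (if k = i then s else 0) at h
      rw [if_neg hk] at h
      exact lt_irrefl _ h
  | apex k =>
    by_cases hk : k = i
    · subst hk
      refine ⟨hπ.y0 k, ?_⟩
      change (if k = j then ρ else 0) = 0
      rw [if_neg hij]
    · exfalso
      change 0 < (if k = i then ρ else 0) at h
      rw [if_neg hk] at h
      exact lt_irrefl _ h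

/-- `x` is far from the gate of the cone `j` in the cone `i`. -/
def Far (M : PM X) (π : I → X → X) (y0 : I → X) (i j : I) (x : Co Y ρ) : Prop :=
  0 < hti i x ∨ 2 < M.d (π i (bt y0 x)) (π i (y0 j))

theorem log_two : Real.log 2 < 1 := by
  have := Real.log_two_lt_d9
  linarith

/-- Two points which are not far give a small value of `u`. -/
theorem uu_lt (i j : I) (x y : Co Y ρ) (hx : ¬ Far M π y0 i j x) (hy : ¬ Far M π y0 i j y) :
    uu M π y0 i x y < 1 := by
  unfold Far at hx hy
  push Not at hx hy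
  have h1 := M.tri (π i (bt y0 x)) (π i (y0 j)) (π i (bt y0 y))
  have h2 := M.symm (π i (bt y0 y)) (π i (y0 j))
  have h3 : M.d (π i (bt y0 x)) (π i (bt y0 y)) ≤ 4 := by linarith [hx.2, hy.2]
  have h0 := M.nonneg (π i (bt y0 x)) (π i (bt y0 y))
  have h4 : Real.log (M.d (π i (bt y0 x)) (π i (bt y0 y)) / 2) < 1 := by
    rcases h0.eq_or_lt with h5 | h5
    · rw [← h5, zero_div, Real.log_zero]
      exact zero_lt_one
    · refine lt_of_le_of_lt (Real.log_le_log (by linarith) (by linarith)) log_two
  unfold uu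
  refine lt_of_le_of_lt (min_le_right _ _) ?_
  rw [max_lt_iff, max_lt_iff]
  exact ⟨⟨by linarith [hx.1], by linarith [hy.1]⟩, h4⟩

/-- One point cannot be far in both cones. -/
theorem not_both (h4 : stB4) (hM : TH M Y) (hπ : Pr M Y π y0) {i j : I} (hij : i ≠ j)
    (x : Co Y ρ) (hi : Far M π y0 i j x) (hj : Far M π y0 j i x)
    (h : M.d (π i (bt y0 x)) (π i (y0 j)) ≤ 56 / 100) : False := by
  rcases hi with h1 | h1
  · obtain ⟨h2, h3⟩ := mem_of_pos hπ hij x h1
    have h5 := h4 X I M Y π y0 hM hπ j i hij.symm _ h2 _ (hπ.y0 i)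
    rcases hj with h6 | h6
    · rw [h3] at h6
      exact lt_irrefl _ h6
    · linarith
  · linarith

end B11

open B11 in
/-- B11: at most one cone carries the median. -/
theorem burn_B11 (h4 : stB4) (h5 : stB5) : stB11 := by
  intro X I M Y ρ π y0 _ hM hπ i j a b c hi hj
  by_contra hij
  have hs : ∀ k, 1 ≤ hh M π y0 k a b c → 1 ≤ uu M π y0 k a b ∧ 1 ≤ uu M π y0 k b c ∧
      1 ≤ uu M π y0 k a c := by
    intro k hk
    unfold hh at hk
    rw [le_min_iff, le_min_iff] at hk
    exact hk
  obtain ⟨i1, i2, i3⟩ := hs i hi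
  obtain ⟨j1, j2, j3⟩ := hs j hj
  have key : ∀ x : Co Y ρ, Far M π y0 i j x → Far M π y0 j i x → False := by
    intro x hx hx'
    rcases h5 X I M Y π y0 hM hπ i j hij (bt y0 x) with h | h
    · exact not_both h4 hM hπ hij x hx hx' h
    · exact not_both h4 hM hπ (Ne.symm hij) x hx' hx h
  have hI : ∀ k l : I, ∀ x y : Co Y ρ, 1 ≤ uu M π y0 k x y → Far M π y0 k l x ∨
      Far M π y0 k l y := by
    intro k l x y hxy
    by_contra hcon
    push Not at hcon
    exact absurd (uu_lt k l x y hcon.1 hcon.2) (not_lt.2 hxy)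
  have a1 := hI i j a b i1
  have a2 := hI i j b c i2
  have a3 := hI i j a c i3
  have b1 := hI j i a b j1
  have b2 := hI j i b c j2
  have b3 := hI j i a c j3
  have ka := key a
  have kb := key b
  have kc := key c
  tauto

end BSD
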