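import Pool.Agent.Lib.MP_8528c3_al.StB

/-!
# Burnside project, B13: closeness in a cone
-/

namespace BSD

namespace B13

theorem dist_le_of_uu {X I : Type} (M : PM X) {Y : I → Set X} {ρ : ℝ} (π : I → X → X)
    (y0 : I → X) (i : I) (x y : Co Y ρ) (h B : ℝ) (hB : h + B < ρ)
    (hu : uu M π y0 i x y ≤ h + B) :
    M.d (π i (bt y0 x)) (π i (bt y0 y)) ≤ 2 * Real.exp (h + B) := by
  unfold uu at hu
  rcases min_le_iff.1 hu with h1 | h1
  · exact absurd h1 (not_le.2 hB)
  · have h2 := (le_max_right _ _).trans h1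
    rcases (M.nonneg (π i (bt y0 x)) (π i (bt y0 y))).eq_or_lt with h0 | h0
    · rw [← h0]; positivity
    · have h3 := (Real.log_le_iff_le_exp (by linarith)).1 h2
      linarith

end B13

/-- B13: two points of the same cone are close if their gates are close at their height. -/
theorem burn_B13 (h8 : stB8) : stB13 := by
  intro X I M Y ρ π y0 hY hρ i x y p q h h' A B hA hB hp hq hh hu
  obtain ⟨hy, h0, h1, rfl⟩ := hp
  obtain ⟨hy', h0', h1', rfl⟩ := hq
  obtain ⟨-, h82, h83, -, -, -⟩ := h8 X I M Y ρ y0 hY hρ i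
  rcases lt_or_ge (h + B) ρ with hc | hc
  · have hD := B13.dist_le_of_uu M π y0 i x y h B hc hu
    refine (h82 _ _ hy hy' h h' h0 h1 h0' h1' h h0 h1).trans ?_
    have h2 : M.d (π i (bt y0 x)) (π i (bt y0 y)) * Real.exp (-h) ≤ 2 * Real.exp B := by
      refine (mul_le_mul_of_nonneg_right hD (Real.exp_pos _).le).trans (le_of_eq ?_)
      rw [mul_assoc, ← Real.exp_add]
      congr 2
      ring
    rw [sub_self, abs_zero]
    linarith
  · have h2 := h83 _ hy h h0 h1
    have h3 := h83 _ hy' h' h0' h1'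
    refine ((coPM M Y ρ hY hρ).tri _ (Co.apex i) _).trans ?_
    rw [(coPM M Y ρ hY hρ).symm (Co.apex i)]
    have h4 := (abs_le.1 hh).2
    have h5 := Real.exp_pos B
    linarith

end BSD
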