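import Pool.Agent.Lib.MP_8528c3_al.StB

set_option autoImplicit false

/-! B15: ultrametric combinatorics of four points. -/

namespace BSD

namespace B15

/-- Two pairs with small values which are connected have small mixed values. -/
theorem close (u : Fin 4 → Fin 4 → ℝ) (hs : ∀ i j, u i j = u j i)
    (ht : ∀ i j k, u i k ≤ max (u i j) (u j k) + 7 / 10) (h : ℝ) (p p' q q' r s : Fin 4)
    (e1 : u p p' ≤ h + 7 / 10) (e2 : u q q' ≤ h + 7 / 10) (hr : r = p ∨ r = p')
    (hsq : s = q ∨ s = q') (hrs : u r s ≤ h + 7 / 10) : u p q ≤ h + 4 := by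
  have h1 : u p s ≤ h + 14 / 10 := by
    rcases hr with rfl | rfl
    · linarith
    · have := ht p r s
      have h2 : max (u p r) (u r s) ≤ h + 7 / 10 := max_le e1 hrs
      linarith
  rcases hsq with rfl | rfl
  · linarith
  · have := ht p s q
    have h3 : u s q ≤ h + 14 / 10 := by rw [hs s q]; linarith
    have h2 : max (u p s) (u s q) ≤ h + 14 / 10 := max_le h1 h3
    linarith

/-- The second half of the claim. -/
theorem core (u : Fin 4 → Fin 4 → ℝ) (hs : ∀ i j, u i j = u j i)
    (ht : ∀ i j k, u i k ≤ max (u i j) (u j k) + 7 / 10) (hd : ∀ i j, u i i ≤ u i j)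
    (x y z : Fin 4) (hcov : ∀ p : Fin 4, p ≠ 3 → p = x ∨ p = y ∨ p = z) (h h' : ℝ)
    (hh' : h' ≤ h + 7 / 10) (hc : u x y ≤ h + 7 / 10 ∨ u z 3 ≤ h + 7 / 10)
    (p p' q q' : Fin 4) (hp : p ≠ 3) (hp' : p' ≠ 3) (hpp : p ≠ p') (e1 : u p p' = h)
    (hq : q = x ∨ q = y ∨ q = 3) (hq' : q' = x ∨ q' = y ∨ q' = 3) (hqq : q ≠ q')
    (e2 : u q q' = h') : u p q ≤ h + 4 := by
  have e1' : u p p' ≤ h + 7 / 10 := by linarith
  have e2' : u q q' ≤ h + 7 / 10 := by linarith
  have dp : u p p ≤ h + 7 / 10 := by have := hd p p'; linarith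
  have dp' : u p' p' ≤ h + 7 / 10 := by have := hd p' p; rw [hs p' p] at this; linarith
  have K := close u hs ht h p p' q q'
  by_cases c1 : p = q
  · exact K p p e1' e2' (Or.inl rfl) (Or.inl c1) dp
  by_cases c2 : p = q'
  · exact K p p e1' e2' (Or.inl rfl) (Or.inr c2) dp
  by_cases c3 : p' = q
  · exact K p' p' e1' e2' (Or.inr rfl) (Or.inl c3) dp'
  by_cases c4 : p' = q'
  · exact K p' p' e1' e2' (Or.inr rfl) (Or.inr c4) dp'
  have hcs : u y x ≤ h + 7 / 10 ∨ u z 3 ≤ h + 7 / 10 := by rw [hs y x]; exact hc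
  rcases hcov p hp with a1 | a1 | a1 <;> rcases hcov p' hp' with a2 | a2 | a2 <;>
    rcases hq with a3 | a3 | a3 <;> rcases hq' with a4 | a4 | a4 <;>
    first
    | exact absurd (a1.trans a2.symm) hpp
    | exact absurd (a3.trans a4.symm) hqq
    | exact absurd (a1.trans a3.symm) c1
    | exact absurd (a1.trans a4.symm) c2
    | exact absurd (a2.trans a3.symm) c3
    | exact absurd (a2.trans a4.symm) c4
    | (rcases hc with hc | hc
       · first
         | exact K x y e1' e2' (Or.inl a1.symm) (Or.inl a3.symm) hc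
         | exact K x y e1' e2' (Or.inl a1.symm) (Or.inr a4.symm) hc
         | exact K x y e1' e2' (Or.inr a2.symm) (Or.inl a3.symm) hc
         | exact K x y e1' e2' (Or.inr a2.symm) (Or.inr a4.symm) hc
         | exact K y x e1' e2' (Or.inl a1.symm) (Or.inl a3.symm) (by rw [hs y x]; exact hc)
         | exact K y x e1' e2' (Or.inl a1.symm) (Or.inr a4.symm) (by rw [hs y x]; exact hc)
         | exact K y x e1' e2' (Or.inr a2.symm) (Or.inl a3.symm) (by rw [hs y x]; exact hc)
         | exact K y x e1' e2' (Or.inr a2.symm) (Or.inr a4.symm) (by rw [hs y x]; exact hc)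
       · first
         | exact K z 3 e1' e2' (Or.inl a1.symm) (Or.inl a3.symm) hc
         | exact K z 3 e1' e2' (Or.inl a1.symm) (Or.inr a4.symm) hc
         | exact K z 3 e1' e2' (Or.inr a2.symm) (Or.inl a3.symm) hc
         | exact K z 3 e1' e2' (Or.inr a2.symm) (Or.inr a4.symm) hc)

/-- The height comparison: `{a,b}` is a minimal pair of `{a,b,c}`, `e` the new point. -/
theorem heights (u : Fin 4 → Fin 4 → ℝ) (hs : ∀ i j, u i j = u j i)
    (ht : ∀ i j k, u i k ≤ max (u i j) (u j k) + 7 / 10) (a b c e : Fin 4) (h : ℝ)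
    (hab : u a b = h) (hac : h ≤ u a c) (hbc : h ≤ u b c) :
    (|h - min (u a b) (min (u b e) (u a e))| ≤ 7 / 10) ∨
    (|h - min (u b c) (min (u c e) (u b e))| ≤ 7 / 10 ∧ u a e ≤ h) ∨
    (|h - min (u a c) (min (u c e) (u a e))| ≤ 7 / 10 ∧ u b e ≤ h) := by
  by_cases ha : u a e < h - 7 / 10
  · right; left
    refine ⟨?_, by linarith⟩
    have h1 : h - 7 / 10 ≤ u b e := by
      by_contra hh
      push Not at hh
      have := ht a e b
      rw [hs e b] at this
      have := max_lt ha hh
      linarith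
    have h2 : h - 7 / 10 ≤ u c e := by
      by_contra hh
      push Not at hh
      have := ht a e c
      rw [hs e c] at this
      have := max_lt ha hh
      linarith
    have h3 : u b e ≤ h + 7 / 10 := by
      have := ht b a e
      rw [hs b a, hab] at this
      have : max h (u a e) ≤ h := max_le le_rfl (by linarith)
      linarith
    rw [abs_le]
    constructor
    · have : min (u b c) (min (u c e) (u b e)) ≤ u b e :=
        (min_le_right _ _).trans (min_le_right _ _)
      linarith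
    · have : h - 7 / 10 ≤ min (u b c) (min (u c e) (u b e)) :=
        le_min (by linarith) (le_min h2 h1)
      linarith
  · by_cases hb : u b e < h - 7 / 10
    · right; right
      refine ⟨?_, by linarith⟩
      have h1 : h - 7 / 10 ≤ u a e := by linarith
      have h2 : h - 7 / 10 ≤ u c e := by
        by_contra hh
        push Not at hh
        have := ht b e c
        rw [hs e c] at this
        have := max_lt hb hh
        linarith
      have h3 : u a e ≤ h + 7 / 10 := by
        have := ht a b e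
        rw [hab] at this
        have : max h (u b e) ≤ h := max_le le_rfl (by linarith)
        linarith
      rw [abs_le]
      constructor
      · have : min (u a c) (min (u c e) (u a e)) ≤ u a e :=
          (min_le_right _ _).trans (min_le_right _ _)
        linarith
      · have : h - 7 / 10 ≤ min (u a c) (min (u c e) (u a e)) :=
          le_min (by linarith) (le_min h2 h1)
        linarith
    · left
      rw [abs_le]
      constructor
      · have : min (u a b) (min (u b e) (u a e)) ≤ u a b := min_le_left _ _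
        linarith
      · have : h - 7 / 10 ≤ min (u a b) (min (u b e) (u a e)) :=
          le_min (by linarith) (le_min (by linarith) (by linarith))
        linarith

/-- Minimum of three, rotated. -/
theorem min3 (a b c : ℝ) : min a (min b c) = min a (min c b) := by rw [min_comm b c]

end B15

theorem burn_B15 : stB15 := by
  intro u hs ht hd
  set h : ℝ := min (u 0 1) (min (u 1 2) (u 0 2)) with hh
  have h01 : h ≤ u 0 1 := min_le_left _ _
  have h12 : h ≤ u 1 2 := (min_le_right _ _).trans (min_le_left _ _)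
  have h02 : h ≤ u 0 2 := (min_le_right _ _).trans (min_le_right _ _)
  have cov1 : ∀ p : Fin 4, p ≠ 3 → p = 0 ∨ p = 1 ∨ p = 2 := by decide
  have cov2 : ∀ p : Fin 4, p ≠ 3 → p = 1 ∨ p = 2 ∨ p = 0 := by decide
  have cov3 : ∀ p : Fin 4, p ≠ 3 → p = 0 ∨ p = 2 ∨ p = 1 := by decide
  -- the three possible conclusions
  have C01 : |h - min (u 0 1) (min (u 1 3) (u 0 3))| ≤ 7 / 10 →
      (u 0 1 ≤ h + 7 / 10 ∨ u 2 3 ≤ h + 7 / 10) →
      ∃ x y : Fin 3, x < y ∧
        |h - min (u x.castSucc y.castSucc) (min (u y.castSucc 3) (u x.castSucc 3))| ≤ 7 / 10 ∧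
        ∀ p p' q q' : Fin 4, p ≠ 3 → p' ≠ 3 → p ≠ p' → u p p' = h →
          (q = x.castSucc ∨ q = y.castSucc ∨ q = 3) →
          (q' = x.castSucc ∨ q' = y.castSucc ∨ q' = 3) → q ≠ q' →
          u q q' = min (u x.castSucc y.castSucc) (min (u y.castSucc 3) (u x.castSucc 3)) →
          u p q ≤ h + 4 := by
    intro ha hb
    refine ⟨0, 1, by decide, ha, ?_⟩
    intro p p' q q' hp hp' hpp e1 hq hq' hqq e2
    exact B15.core u hs ht hd 0 1 2 cov1 h (min (u 0 1) (min (u 1 3) (u 0 3))) (by have := (abs_le.1 ha).1; linarith)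
      hb p p' q q' hp hp' hpp e1 hq hq' hqq e2
  have C12 : |h - min (u 1 2) (min (u 2 3) (u 1 3))| ≤ 7 / 10 →
      (u 1 2 ≤ h + 7 / 10 ∨ u 0 3 ≤ h + 7 / 10) →
      ∃ x y : Fin 3, x < y ∧
        |h - min (u x.castSucc y.castSucc) (min (u y.castSucc 3) (u x.castSucc 3))| ≤ 7 / 10 ∧
        ∀ p p' q q' : Fin 4, p ≠ 3 → p' ≠ 3 → p ≠ p' → u p p' = h →
          (q = x.castSucc ∨ q = y.castSucc ∨ q = 3) →
          (q' = x.castSucc ∨ q' = y.castSucc ∨ q' = 3) → q ≠ q' →
          u q q' = min (u x.castSucc y.castSucc) (min (u y.castSucc 3) (u x.castSucc 3)) →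
          u p q ≤ h + 4 := by
    intro ha hb
    refine ⟨1, 2, by decide, ha, ?_⟩
    intro p p' q q' hp hp' hpp e1 hq hq' hqq e2
    exact B15.core u hs ht hd 1 2 0 cov2 h (min (u 1 2) (min (u 2 3) (u 1 3))) (by have := (abs_le.1 ha).1; linarith)
      hb p p' q q' hp hp' hpp e1 hq hq' hqq e2
  have C02 : |h - min (u 0 2) (min (u 2 3) (u 0 3))| ≤ 7 / 10 →
      (u 0 2 ≤ h + 7 / 10 ∨ u 1 3 ≤ h + 7 / 10) →
      ∃ x y : Fin 3, x < y ∧
        |h - min (u x.castSucc y.castSucc) (min (u y.castSucc 3) (u x.castSucc 3))| ≤ 7 / 10 ∧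
        ∀ p p' q q' : Fin 4, p ≠ 3 → p' ≠ 3 → p ≠ p' → u p p' = h →
          (q = x.castSucc ∨ q = y.castSucc ∨ q = 3) →
          (q' = x.castSucc ∨ q' = y.castSucc ∨ q' = 3) → q ≠ q' →
          u q q' = min (u x.castSucc y.castSucc) (min (u y.castSucc 3) (u x.castSucc 3)) →
          u p q ≤ h + 4 := by
    intro ha hb
    refine ⟨0, 2, by decide, ha, ?_⟩
    intro p p' q q' hp hp' hpp e1 hq hq' hqq e2
    exact B15.core u hs ht hd 0 2 1 cov3 h (min (u 0 2) (min (u 2 3) (u 0 3))) (by have := (abs_le.1 ha).1; linarith)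
      hb p p' q q' hp hp' hpp e1 hq hq' hqq e2
  have hmin : u 0 1 = h ∨ u 1 2 = h ∨ u 0 2 = h := by
    rcases min_choice (u 0 1) (min (u 1 2) (u 0 2)) with e | e
    · exact Or.inl e.symm
    · rcases min_choice (u 1 2) (u 0 2) with e' | e'
      · exact Or.inr (Or.inl (by rw [hh, e, e']))
      · exact Or.inr (Or.inr (by rw [hh, e, e']))
  rcases hmin with e | e | e
  · rcases B15.heights u hs ht 0 1 2 3 h e h02 h12 with k | ⟨k, k'⟩ | ⟨k, k'⟩
    · exact C01 k (Or.inl (by linarith))
    · exact C12 k (Or.inr (by linarith))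
    · exact C02 k (Or.inr (by linarith))
  · rcases B15.heights u hs ht 1 2 0 3 h e (by rw [hs 1 0]; exact h01) (by rw [hs 2 0]; exact h02)
      with k | ⟨k, k'⟩ | ⟨k, k'⟩
    · exact C12 k (Or.inl (by linarith))
    · refine C02 ?_ (Or.inr (by linarith))
      rw [hs 0 2, B15.min3]; exact k
    · refine C01 ?_ (Or.inr (by linarith))
      rw [hs 0 1, B15.min3]; exact k
  · rcases B15.heights u hs ht 0 2 1 3 h e h01 (by rw [hs 2 1]; exact h12)
      with k | ⟨k, k'⟩ | ⟨k, k'⟩
    · exact C02 k (Or.inl (by linarith))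
    · refine C12 ?_ (Or.inr (by linarith))
      rw [hs 1 2, B15.min3]; exact k
    · exact C01 k (Or.inr (by linarith))

end BSD
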