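import Pool.Agent.Lib.MP_8528c3_al.StB

set_option autoImplicit false

/-! B16: quartet property, cone case. -/

namespace BSD

namespace B16

variable {X I : Type} {M : PM X} {Y : I → Set X} {ρ : ℝ} {π : I → X → X} {y0 : I → X}

/-- A median in the cone `i` exists, above one of the points of a minimal pair. -/
theorem mu_exists (hP : Pr M Y π y0) (i : I) (a b c : Co Y ρ)
    (h0 : 0 ≤ hh M π y0 i a b c) (h1 : hh M π y0 i a b c ≤ ρ) :
    (∃ w, IsMu M π y0 i a b c w ∧ At π y0 i a (hh M π y0 i a b c) w ∧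
      uu M π y0 i a b = hh M π y0 i a b c) ∨
    (∃ w, IsMu M π y0 i a b c w ∧ At π y0 i b (hh M π y0 i a b c) w ∧
      uu M π y0 i b c = hh M π y0 i a b c) ∨
    (∃ w, IsMu M π y0 i a b c w ∧ At π y0 i a (hh M π y0 i a b c) w ∧
      uu M π y0 i a c = hh M π y0 i a b c) := by
  have key : ∀ x : Co Y ρ, ∃ w, At π y0 i x (hh M π y0 i a b c) w := fun x =>
    ⟨_, hP.mem i _, h0, h1, rfl⟩
  have hc : uu M π y0 i a b = hh M π y0 i a b c ∨ uu M π y0 i b c = hh M π y0 i a b c ∨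
      uu M π y0 i a c = hh M π y0 i a b c := by
    unfold hh
    rcases min_choice (uu M π y0 i a b) (min (uu M π y0 i b c) (uu M π y0 i a c)) with h | h
    · exact Or.inl h.symm
    · rcases min_choice (uu M π y0 i b c) (uu M π y0 i a c) with h' | h'
      · exact Or.inr (Or.inl (by rw [h, h']))
      · exact Or.inr (Or.inr (by rw [h, h']))
  rcases hc with h | h | h
  · obtain ⟨w, hw⟩ := key a
    exact Or.inl ⟨w, Or.inl ⟨h, Or.inl hw⟩, hw, h⟩
  · obtain ⟨w, hw⟩ := key b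
    exact Or.inr (Or.inl ⟨w, Or.inr (Or.inl ⟨h, Or.inl hw⟩), hw, h⟩)
  · obtain ⟨w, hw⟩ := key a
    exact Or.inr (Or.inr ⟨w, Or.inr (Or.inr ⟨h, Or.inl hw⟩), hw, h⟩)

/-- The indices of a median. -/
theorem mu_index (hs : ∀ x y : Co Y ρ, ∀ i, uu M π y0 i x y = uu M π y0 i y x)
    {i : I} {a b c w : Co Y ρ} (e : Co Y ρ) (h : IsMu M π y0 i a b c w) :
    ∃ p p' : Fin 4, p ≠ 3 ∧ p' ≠ 3 ∧ p ≠ p' ∧
      uu M π y0 i ((![a, b, c, e] : Fin 4 → Co Y ρ) p) ((![a, b, c, e] : Fin 4 → Co Y ρ) p') =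
        hh M π y0 i a b c ∧
      At π y0 i ((![a, b, c, e] : Fin 4 → Co Y ρ) p) (hh M π y0 i a b c) w := by
  rcases h with ⟨h1, h2 | h2⟩ | ⟨h1, h2 | h2⟩ | ⟨h1, h2 | h2⟩
  · exact ⟨0, 1, by decide, by decide, by decide, h1, h2⟩
  · exact ⟨1, 0, by decide, by decide, by decide, (hs _ _ _).trans h1, h2⟩
  · exact ⟨1, 2, by decide, by decide, by decide, h1, h2⟩
  · exact ⟨2, 1, by decide, by decide, by decide, (hs _ _ _).trans h1, h2⟩
  · exact ⟨0, 2, by decide, by decide, by decide, h1, h2⟩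
  · exact ⟨2, 0, by decide, by decide, by decide, (hs _ _ _).trans h1, h2⟩

theorem exp_four : Real.exp 4 ≤ 60 := by
  have h1 : Real.exp 4 = Real.exp 1 ^ 4 := by
    rw [← Real.exp_nat_mul]
    norm_num
  have h2 := Real.exp_one_lt_d9
  have h3 := Real.exp_pos 1
  rw [h1]
  calc Real.exp 1 ^ 4 ≤ (2.7182818286 : ℝ) ^ 4 := by
        exact pow_le_pow_left₀ h3.le h2.le 4
    _ ≤ 60 := by norm_num

end B16

open B16

theorem burn_B16 (h6 : stB6) (h11 : stB11) (h13 : stB13) (h15 : stB15) : stB16 := by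
  intro X I M Y ρ π y0 hY hρ hρ20 hT hP i a b c e w h2 hw
  have h6' := h6 X I M Y ρ π y0 hρ
  have hs : ∀ x y : Co Y ρ, ∀ i, uu M π y0 i x y = uu M π y0 i y x := fun x y i =>
    (h6' i x y x).1
  -- the given median
  have hmu : IsMu M π y0 i a b c w := by
    rcases hw with ⟨j, hj, hj'⟩ | ⟨hj, -⟩
    · have : i = j := h11 X I M Y ρ π y0 hρ20 hT hP i j a b c (by linarith) hj
      rw [this]
      exact hj'
    · have := hj i
      linarith
  obtain ⟨p, p', hp3, hp3', hpp, hpu, hpA⟩ := mu_index hs e hmu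
  -- the combinatorics
  obtain ⟨x, y, hxy, hd, hu⟩ := h15
    (fun k l => uu M π y0 i ((![a, b, c, e] : Fin 4 → Co Y ρ) k)
      ((![a, b, c, e] : Fin 4 → Co Y ρ) l))
    (fun k l => hs _ _ i) (fun k l m => (h6' i _ _ _).2.2.2.2) (fun k l => by
      obtain ⟨-, q1, -, q2, -⟩ := h6' i ((![a, b, c, e] : Fin 4 → Co Y ρ) k)
        ((![a, b, c, e] : Fin 4 → Co Y ρ) l) a
      have e1 : uu M π y0 i ((![a, b, c, e] : Fin 4 → Co Y ρ) k)
          ((![a, b, c, e] : Fin 4 → Co Y ρ) k) ≤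
          max (hti i ((![a, b, c, e] : Fin 4 → Co Y ρ) k)) 0 := by
        unfold uu
        rw [M.self, zero_div, Real.log_zero, max_self]
        exact min_le_right _ _
      exact e1.trans (max_le q2 q1))
  have hh0 : hh M π y0 i a b c = min (uu M π y0 i a b) (min (uu M π y0 i b c) (uu M π y0 i a c)) :=
    rfl
  -- the comparison of a new median with the old one
  have fin : ∀ (q q' : Fin 4) (w' : Co Y ρ) (h' : ℝ),
      h' = min (uu M π y0 i ((![a, b, c, e] : Fin 4 → Co Y ρ) x.castSucc)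
        ((![a, b, c, e] : Fin 4 → Co Y ρ) y.castSucc))
        (min (uu M π y0 i ((![a, b, c, e] : Fin 4 → Co Y ρ) y.castSucc) e)
        (uu M π y0 i ((![a, b, c, e] : Fin 4 → Co Y ρ) x.castSucc) e)) →
      (q = x.castSucc ∨ q = y.castSucc ∨ q = 3) → (q' = x.castSucc ∨ q' = y.castSucc ∨ q' = 3) →
      q ≠ q' → uu M π y0 i ((![a, b, c, e] : Fin 4 → Co Y ρ) q)
        ((![a, b, c, e] : Fin 4 → Co Y ρ) q') = h' →
      At π y0 i ((![a, b, c, e] : Fin 4 → Co Y ρ) q) h' w' →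
      (coPM M Y ρ hY hρ).d w w' ≤ 200 := by
    intro q q' w' h' e1 e2 e3 e4 e5 e6
    have e7 := hu p p' q q' hp3 hp3' hpp hpu e2 e3 e4 (e5.trans e1)
    have e8 := h13 X I M Y ρ π y0 hY hρ i _ _ w w' _ _ (7 / 10) 4 (by norm_num) (by norm_num)
      hpA e6 (by rw [e1]; exact hd) (by exact e7)
    have := exp_four
    linarith
  -- the height of the new median
  have hlow : 1 ≤ min (uu M π y0 i ((![a, b, c, e] : Fin 4 → Co Y ρ) x.castSucc)
        ((![a, b, c, e] : Fin 4 → Co Y ρ) y.castSucc))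
        (min (uu M π y0 i ((![a, b, c, e] : Fin 4 → Co Y ρ) y.castSucc) e)
        (uu M π y0 i ((![a, b, c, e] : Fin 4 → Co Y ρ) x.castSucc) e)) := by
    have e1 := abs_le.1 hd
    have e2 : 2 ≤ min (uu M π y0 i a b) (min (uu M π y0 i b c) (uu M π y0 i a c)) := h2
    have e3 := e1.2
    change min (uu M π y0 i a b) (min (uu M π y0 i b c) (uu M π y0 i a c)) -
      min (uu M π y0 i ((![a, b, c, e] : Fin 4 → Co Y ρ) x.castSucc)
        ((![a, b, c, e] : Fin 4 → Co Y ρ) y.castSucc))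
        (min (uu M π y0 i ((![a, b, c, e] : Fin 4 → Co Y ρ) y.castSucc) e)
        (uu M π y0 i ((![a, b, c, e] : Fin 4 → Co Y ρ) x.castSucc) e)) ≤ 7 / 10 at e3
    linarith
  have hle : ∀ a' b' c' : Co Y ρ, hh M π y0 i a' b' c' ≤ ρ := fun a' b' c' =>
    (min_le_left _ _).trans (h6' i a' b' a).2.2.1
  have hxy' : (x = 0 ∧ y = 1) ∨ (x = 1 ∧ y = 2) ∨ (x = 0 ∧ y = 2) := by
    revert hxy
    fin_cases x <;> fin_cases y <;> simp
  rcases hxy' with ⟨rfl, rfl⟩ | ⟨rfl, rfl⟩ | ⟨rfl, rfl⟩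
  · have hl : 1 ≤ hh M π y0 i a b e := hlow
    rcases mu_exists hP i a b e (by linarith) (hle _ _ _) with ⟨w', m, A, u⟩ | ⟨w', m, A, u⟩ |
      ⟨w', m, A, u⟩
    · exact ⟨w', Or.inl (Or.inl ⟨i, hl, m⟩), fin 0 1 w' _ rfl (Or.inl rfl) (Or.inr (Or.inl rfl))
        (by decide) u A⟩
    · exact ⟨w', Or.inl (Or.inl ⟨i, hl, m⟩), fin 1 3 w' _ rfl (Or.inr (Or.inl rfl))
        (Or.inr (Or.inr rfl)) (by decide) u A⟩
    · exact ⟨w', Or.inl (Or.inl ⟨i, hl, m⟩), fin 0 3 w' _ rfl (Or.inl rfl)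
        (Or.inr (Or.inr rfl)) (by decide) u A⟩
  · have hl : 1 ≤ hh M π y0 i b c e := hlow
    rcases mu_exists hP i b c e (by linarith) (hle _ _ _) with ⟨w', m, A, u⟩ | ⟨w', m, A, u⟩ |
      ⟨w', m, A, u⟩
    · exact ⟨w', Or.inr (Or.inl (Or.inl ⟨i, hl, m⟩)), fin 1 2 w' _ rfl (Or.inl rfl)
        (Or.inr (Or.inl rfl)) (by decide) u A⟩
    · exact ⟨w', Or.inr (Or.inl (Or.inl ⟨i, hl, m⟩)), fin 2 3 w' _ rfl (Or.inr (Or.inl rfl))
        (Or.inr (Or.inr rfl)) (by decide) u A⟩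
    · exact ⟨w', Or.inr (Or.inl (Or.inl ⟨i, hl, m⟩)), fin 1 3 w' _ rfl (Or.inl rfl)
        (Or.inr (Or.inr rfl)) (by decide) u A⟩
  · have hl : 1 ≤ hh M π y0 i a c e := hlow
    rcases mu_exists hP i a c e (by linarith) (hle _ _ _) with ⟨w', m, A, u⟩ | ⟨w', m, A, u⟩ |
      ⟨w', m, A, u⟩
    · exact ⟨w', Or.inr (Or.inr (Or.inl ⟨i, hl, m⟩)), fin 0 2 w' _ rfl (Or.inl rfl)
        (Or.inr (Or.inl rfl)) (by decide) u A⟩
    · exact ⟨w', Or.inr (Or.inr (Or.inl ⟨i, hl, m⟩)), fin 2 3 w' _ rfl (Or.inr (Or.inl rfl))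
        (Or.inr (Or.inr rfl)) (by decide) u A⟩
    · exact ⟨w', Or.inr (Or.inr (Or.inl ⟨i, hl, m⟩)), fin 0 3 w' _ rfl (Or.inl rfl)
        (Or.inr (Or.inr rfl)) (by decide) u A⟩

end BSD
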