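import Pool.Agent.Lib.MP_8528c3_al.StB

/-!
# Burnside project, B18: quartet property
-/

set_option autoImplicit false

namespace BSD

namespace B18

theorem exp_two_le : 2 + 2 * Real.exp 2 + 3 ≤ 20 := by
  have h := Real.exp_one_lt_d9
  have h0 := Real.exp_pos 1
  have h2 : Real.exp 2 = Real.exp 1 ^ 2 := by
    rw [← Real.exp_nat_mul]
    norm_num
  have h3 : Real.exp 1 ^ 2 ≤ (2.72 : ℝ) ^ 2 :=
    pow_le_pow_left₀ h0.le (by linarith) 2
  rw [h2]
  norm_num at h3 ⊢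
  linarith

theorem exp_five_le : 5 + 2 * Real.exp 5 + 3 ≤ 400 := by
  have h := Real.exp_one_lt_d9
  have h0 := Real.exp_pos 1
  have h2 : Real.exp 5 = Real.exp 1 ^ 5 := by
    rw [← Real.exp_nat_mul]
    norm_num
  have h3 : Real.exp 1 ^ 5 ≤ (2.72 : ℝ) ^ 5 :=
    pow_le_pow_left₀ h0.le (by linarith) 5
  rw [h2]
  norm_num at h3 ⊢
  linarith

section

variable {X I : Type} {M : PM X} {Y : I → Set X} {ρ : ℝ} {π : I → X → X} {y0 : I → X}

theorem hh_swap (hB6 : stB6) (hρ : 0 ≤ ρ) (i : I) (a b c : Co Y ρ) :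
    hh M π y0 i b a c = hh M π y0 i a b c := by
  unfold hh
  rw [(hB6 X I M Y ρ π y0 hρ i b a a).1, min_comm (uu M π y0 i a c)]

theorem hh_rot (hB6 : stB6) (hρ : 0 ≤ ρ) (i : I) (a b c : Co Y ρ) :
    hh M π y0 i b c a = hh M π y0 i a b c := by
  unfold hh
  rw [(hB6 X I M Y ρ π y0 hρ i c a a).1, (hB6 X I M Y ρ π y0 hρ i b a a).1,
    min_comm (uu M π y0 i a c), ← min_assoc, min_comm (uu M π y0 i b c), min_assoc]

/-- The case where `o` is a median of the bases of `x, y, e`. -/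
theorem core (hA7 : stA7) (hB6 : stB6) (hB8 : stB8) (hB12 : stB12) (hB14 : stB14)
    (hB17 : stB17) (hY : ∀ i, (Y i).Nonempty) (hρ : 0 ≤ ρ) (hρ20 : 20 ≤ ρ) (hT : TH M Y)
    (hP : Pr M Y π y0) {x y z e w : Co Y ρ} {o : X} (hw : Med M π y0 x y z w)
    (hh2 : ∀ i, hh M π y0 i x y z < 2)
    (hwo : (coPM M Y ρ hY hρ).d w (Co.base o) ≤ 20)
    (h1 : M.gp (bt y0 x) (bt y0 y) o ≤ 6 / 100) (h2 : M.gp (bt y0 x) (bt y0 e) o ≤ 6 / 100)
    (h3 : M.gp (bt y0 y) (bt y0 e) o ≤ 6 / 100) :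
    ∃ w', (Med M π y0 x y e w' ∨ Med M π y0 x z e w' ∨ Med M π y0 y z e w') ∧
      (coPM M Y ρ hY hρ).d w w' ≤ 1000 := by
  obtain ⟨hex, hsw, hrot⟩ := hB12 X I M Y ρ π y0 hρ20 hT hP
  by_cases hall : ∀ j, hh M π y0 j x y e < 5
  · -- all heights are bounded
    obtain ⟨w', hw'⟩ := hex x y e
    refine ⟨w', Or.inl hw', ?_⟩
    have hkey : (coPM M Y ρ hY hρ).d w' (Co.base o) ≤ 400 := by
      rcases hw' with ⟨i, hi1, hi⟩ | ⟨-, o', ho', h4, h5, h6⟩
      · have h7 := hB14 X I M Y ρ π y0 hY hρ hρ20 hT hP i x y e w' 5 o (by linarith) hi1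
          (hall i).le hi (by linarith) (by linarith) (by linarith)
        exact h7.trans exp_five_le
      · rw [ho']
        have h7 := (hB8 X I M Y ρ y0 hY hρ)
        by_cases hI : Nonempty I
        · obtain ⟨i⟩ := hI
          have h8 := (h7 i).1 o' o
          have h9 := hA7 X M (1 / 100) (6 / 100) (1 / 20) hT.hyp (bt y0 x) (bt y0 y) (bt y0 e)
            o o' h1 h3 h2 h4 h5 h6
          linarith
        · have h8 : (coPM M Y ρ hY hρ).d (Co.base o') (Co.base o) ≤ M.d o' o :=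
            coD_le (Co.pth_one (Mv.base o' o))
          have h9 := hA7 X M (1 / 100) (6 / 100) (1 / 20) hT.hyp (bt y0 x) (bt y0 y) (bt y0 e)
            o o' h1 h3 h2 h4 h5 h6
          linarith
    have h4 := (coPM M Y ρ hY hρ).tri w (Co.base o) w'
    rw [(coPM M Y ρ hY hρ).symm (Co.base o) w'] at h4
    linarith
  · push Not at hall
    obtain ⟨j, hj⟩ := hall
    have hj1 : 5 ≤ uu M π y0 j x y := hj.trans (min_le_left _ _)
    have hj2 : 5 ≤ uu M π y0 j y e := hj.trans ((min_le_right _ _).trans (min_le_left _ _))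
    have hj3 : 5 ≤ uu M π y0 j x e := hj.trans ((min_le_right _ _).trans (min_le_right _ _))
    have hj4 := hh2 j
    unfold hh at hj4
    rw [min_lt_iff, min_lt_iff] at hj4
    rcases hj4 with h4 | h4 | h4
    · linarith
    · -- `u(y,z) < 2`
      obtain ⟨wp, hwp⟩ := hex y z (Co.base (π j (bt y0 y)))
      obtain ⟨w', hw'⟩ := hex y z e
      refine ⟨w', Or.inr (Or.inr hw'), ?_⟩
      have h5 := hB17 X I M Y ρ π y0 hY hρ hρ20 hT hP j y z x w wp h4.le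
        (by rw [(hB6 X I M Y ρ π y0 hρ j y x x).1]; exact hj1) (hrot _ _ _ _ hw) hwp
      have h6 := hB17 X I M Y ρ π y0 hY hρ hρ20 hT hP j y z e w' wp h4.le hj2 hw' hwp
      have h7 := (coPM M Y ρ hY hρ).tri w wp w'
      rw [(coPM M Y ρ hY hρ).symm wp w'] at h7
      linarith
    · -- `u(x,z) < 2`
      obtain ⟨wp, hwp⟩ := hex x z (Co.base (π j (bt y0 x)))
      obtain ⟨w', hw'⟩ := hex x z e
      refine ⟨w', Or.inr (Or.inl hw'), ?_⟩
      have h5 := hB17 X I M Y ρ π y0 hY hρ hρ20 hT hP j x z y w wp h4.le hj1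
        (hrot _ _ _ _ (hsw _ _ _ _ hw)) hwp
      have h6 := hB17 X I M Y ρ π y0 hY hρ hρ20 hT hP j x z e w' wp h4.le hj3 hw' hwp
      have h7 := (coPM M Y ρ hY hρ).tri w wp w'
      rw [(coPM M Y ρ hY hρ).symm wp w'] at h7
      linarith

end

end B18

open B18

theorem burn_B18 (hA6 : stA6) (hA7 : stA7) (hA8 : stA8) (hB6 : stB6) (hB8 : stB8)
    (hB12 : stB12) (hB14 : stB14) (hB16 : stB16) (hB17 : stB17) : stB18 := by
  intro X I M Y ρ π y0 hY hρ hρ20 hT hP a b c e w hw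
  obtain ⟨hex, hsw, hrot⟩ := hB12 X I M Y ρ π y0 hρ20 hT hP
  by_cases hbig : ∃ i, 2 ≤ hh M π y0 i a b c
  · obtain ⟨i, hi⟩ := hbig
    obtain ⟨w', h1, h2⟩ := hB16 X I M Y ρ π y0 hY hρ hρ20 hT hP i a b c e w hi hw
    exact ⟨w', h1, h2.trans (by norm_num)⟩
  push Not at hbig
  -- the median of the bases
  obtain ⟨o, hwo, g1, g2, g3⟩ : ∃ o : X, (coPM M Y ρ hY hρ).d w (Co.base o) ≤ 20 ∧
      M.gp (bt y0 a) (bt y0 b) o ≤ 5 / 100 ∧ M.gp (bt y0 b) (bt y0 c) o ≤ 5 / 100 ∧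
      M.gp (bt y0 a) (bt y0 c) o ≤ 5 / 100 := by
    rcases hw with ⟨i, hi1, hi⟩ | ⟨-, o, rfl, h1, h2, h3⟩
    · obtain ⟨o, h1, h2, h3⟩ := hA6 X M (1 / 100) (1 / 100) (1 / 100) (by norm_num) (by norm_num)
        (by norm_num) hT.sg hT.hyp (bt y0 a) (bt y0 b) (bt y0 c)
      have h4 := hB14 X I M Y ρ π y0 hY hρ hρ20 hT hP i a b c w 2 o (by linarith) hi1
        (hbig i).le hi (by linarith) (by linarith) (by linarith)
      exact ⟨o, h4.trans exp_two_le, by linarith, by linarith, by linarith⟩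
    · refine ⟨o, ?_, by linarith, by linarith, by linarith⟩
      rw [(coPM M Y ρ hY hρ).self]
      norm_num
  rcases hA8 X M (1 / 100) (5 / 100) hT.hyp (bt y0 a) (bt y0 b) (bt y0 c) (bt y0 e) o g1 g2 g3
    with ⟨k1, k2⟩ | ⟨k1, k2⟩ | ⟨k1, k2⟩
  · obtain ⟨w', h1, h2⟩ := core (x := a) (y := b) (z := c) (e := e) hA7 hB6 hB8 hB12 hB14 hB17
      hY hρ hρ20 hT hP hw hbig hwo (by linarith) (by linarith) (by linarith)
    refine ⟨w', ?_, h2⟩
    rcases h1 with h | h | h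
    · exact Or.inl h
    · exact Or.inr (Or.inr h)
    · exact Or.inr (Or.inl h)
  · obtain ⟨w', h1, h2⟩ := core (x := b) (y := c) (z := a) (e := e) hA7 hB6 hB8 hB12 hB14 hB17
      hY hρ hρ20 hT hP (hrot _ _ _ _ hw) (fun i => by rw [hh_rot hB6 hρ]; exact hbig i) hwo
      (by linarith) (by linarith) (by linarith)
    refine ⟨w', ?_, h2⟩
    rcases h1 with h | h | h
    · exact Or.inr (Or.inl h)
    · exact Or.inl (hsw _ _ _ _ h)
    · exact Or.inr (Or.inr (hsw _ _ _ _ h))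
  · obtain ⟨w', h1, h2⟩ := core (x := a) (y := c) (z := b) (e := e) hA7 hB6 hB8 hB12 hB14 hB17
      hY hρ hρ20 hT hP (hrot _ _ _ _ (hsw _ _ _ _ hw))
      (fun i => by rw [hh_rot hB6 hρ, hh_swap hB6 hρ]; exact hbig i) hwo
      (by linarith) (by linarith) (by linarith)
    refine ⟨w', ?_, h2⟩
    rcases h1 with h | h | h
    · exact Or.inr (Or.inr h)
    · exact Or.inl h
    · exact Or.inr (Or.inl (hsw _ _ _ _ h))

end BSD
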