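import Pool.Agent.Lib.MP_8528c3_al.StB

/-!
# Burnside project, B20: the cone-off theorem
-/

namespace BSD

theorem sg_mono {X : Type} {M : PM X} {σ σ' : ℝ} (h : M.SG σ) (hs : σ ≤ σ') : M.SG σ' := by
  intro x y η hη
  obtain ⟨n, z, h0, hn, h1, h2⟩ := h x y η hη
  exact ⟨n, z, h0, hn, fun i hi => (h1 i hi).trans hs, h2⟩

theorem burn_B20 (hA2 : stA2) (hA3 : stA3) (hB1 : stB1) (hB10 : stB10) (hB12 : stB12)
    (hB18 : stB18) (hB19 : stB19) : stB20 := by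
  obtain ⟨T, hT0, hT⟩ := hA2 1000 2 (by norm_num) (by norm_num)
  have key : ∀ (X I : Type) (M : PM X) (Y : I → Set X) (ρ : ℝ)
      (hY : ∀ i, (Y i).Nonempty) (hρ : 0 ≤ ρ), 20 ≤ ρ → TH M Y → ∀ π y0, Pr M Y π y0 →
      GGH (coPM M Y ρ hY hρ) (fun a b => {w | ∃ c, Med M π y0 a b c w}) 1000 2 := by
    intro X I M Y ρ hY hρ h20 hTH π y0 hP
    obtain ⟨hex, hs1, hs2⟩ := hB12 X I M Y ρ π y0 h20 hTH hP
    have h18 := hB18 X I M Y ρ π y0 hY hρ h20 hTH hP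
    have h19 := hB19 X I M Y ρ π y0 hY hρ h20 hTH hP
    refine ⟨?_, ?_, ?_⟩
    · rintro a b c w ⟨x, hw⟩
      obtain ⟨w', h1 | h1 | h1, h2⟩ := h18 a b x c w hw
      · exact ⟨w', Or.inl ⟨b, hs1 _ _ _ _ (hs2 _ _ _ _ (hs2 _ _ _ _ h1))⟩, h2⟩
      · exact ⟨w', Or.inr ⟨x, hs2 _ _ _ _ (hs2 _ _ _ _ h1)⟩, h2⟩
      · exact ⟨w', Or.inl ⟨x, hs1 _ _ _ _ (hs2 _ _ _ _ (hs2 _ _ _ _ h1))⟩, h2⟩
    · rintro a b hab w ⟨x, hw⟩
      exact h19 a b x w hab hw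
    · intro a b c
      obtain ⟨p, hp⟩ := hex a b c
      have e : (coPM M Y ρ hY hρ).d p p ≤ 1000 := by
        rw [(coPM M Y ρ hY hρ).self]; norm_num
      exact ⟨p, ⟨p, ⟨c, hp⟩, e⟩, ⟨p, ⟨a, hs2 _ _ _ _ hp⟩, e⟩,
        ⟨p, ⟨b, hs1 _ _ _ _ (hs2 _ _ _ _ (hs2 _ _ _ _ hp))⟩, e⟩⟩
  have sg : ∀ (X I : Type) (M : PM X) (Y : I → Set X) (ρ : ℝ)
      (hY : ∀ i, (Y i).Nonempty) (hρ : 0 ≤ ρ), TH M Y → (coPM M Y ρ hY hρ).SG 2 := by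
    intro X I M Y ρ hY hρ hTH
    exact hB10 X I M Y ρ hY hρ (sg_mono hTH.sg (by norm_num))
  refine ⟨max 1 (3 * T + 4 * 1000), max 1 T, le_max_left _ _, le_max_left _ _, ?_⟩
  intro X I M Y ρ hY hρ h20 hTH
  constructor
  · obtain ⟨π, y0, hP⟩ := hB1 X I M Y hTH.ne
    have hG := key X I M Y ρ hY hρ h20 hTH π y0 hP
    have h1 := hT _ (coPM M Y ρ hY hρ) _ (sg X I M Y ρ hY hρ hTH) hG
    have h2 := hA3 _ (coPM M Y ρ hY hρ) _ 1000 2 T (by norm_num) hG h1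
    intro x y z w
    have h3 := h2 x y z w
    have h4 := le_max_right 1 (3 * T + 4 * 1000)
    linarith
  · intro π y0 hP a b c p hp
    have hG := key X I M Y ρ hY hρ h20 hTH π y0 hP
    have h1 := hT _ (coPM M Y ρ hY hρ) _ (sg X I M Y ρ hY hρ hTH) hG a b p ⟨c, hp⟩
    exact h1.trans (le_max_right _ _)

end BSD
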