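import Pool.Agent.Lib.MP_8528c3_al.StB

/-!
# Burnside project, B5: Behrstock inequality
-/

namespace BSD

/-- B5. -/
theorem burn_B5 (h2 : stB2) (h3 : stB3) (h4 : stB4) : stB5 := by
  intro X I M Y π y0 hT hP i j hij x
  by_cases h : M.d (π i x) (π i (y0 j)) ≤ 56 / 100
  · exact Or.inl h
  · right
    push Not at h
    have a1 := h4 X I M Y π y0 hT hP i j hij (π j x) (hP.mem j x) (y0 j) (hP.y0 j)
    have a2 := M.tri (π i x) (π i (π j x)) (π i (y0 j))
    have a3 := (h3 X I M Y π y0 hT hP i x (π j x)).1 (by linarith)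
    have a4 := hP.le j x (π j (π i x)) (hP.mem j _)
    have a5 := M.tri x (π i x) (π j (π i x))
    have a6 := h2 X I M Y π y0 hT hP j (π i x) (π j x) (hP.mem j x)
    have a7 := h4 X I M Y π y0 hT hP j i hij.symm (π i x) (hP.mem i x) (y0 i) (hP.y0 i)
    have a8 := M.tri (π j x) (π j (π i x)) (π j (y0 i))
    have a9 := M.symm (π j x) (π i x)
    unfold PM.gp at a3 a6
    linarith

end BSD
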