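import Pool.Agent.Lib.MP_8528c3_al.AllF
import Pool.Agent.Lib.MP_8528c3_al.A1
import Pool.Agent.Lib.MP_8528c3_al.A2
import Pool.Agent.Lib.MP_8528c3_al.A3
import Pool.Agent.Lib.MP_8528c3_al.A5
import Pool.Agent.Lib.MP_8528c3_al.A8
import Pool.Agent.Lib.MP_8528c3_al.B5
import Pool.Agent.Lib.MP_8528c3_al.B11
import Pool.Agent.Lib.MP_8528c3_al.B13
import Pool.Agent.Lib.MP_8528c3_al.B15
import Pool.Agent.Lib.MP_8528c3_al.B16
import Pool.Agent.Lib.MP_8528c3_al.B17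
import Pool.Agent.Lib.MP_8528c3_al.B18
import Pool.Agent.Lib.MP_8528c3_al.B19
import Pool.Agent.Lib.MP_8528c3_al.B20

/-!
# Burnside project: parts A and B assembled, existence of the constants
-/

namespace BSD

theorem okA1 : stA1 := burn_A1
theorem okA2 : stA2 := burn_A2 okA1
theorem okA3 : stA3 := burn_A3
theorem okA4 : stA4 := burn_A4
theorem okA5 : stA5 := burn_A5
theorem okA6 : stA6 := burn_A6 okA4
theorem okA7 : stA7 := burn_A7
theorem okA8 : stA8 := burn_A8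
theorem okA9 : stA9 := burn_A9
theorem okB5 : stB5 := burn_B5 okB2 okB3 okB4
theorem okB6 : stB6 := burn_B6
theorem okB7 : stB7 := burn_B7
theorem okB8 : stB8 := burn_B8
theorem okB9 : stB9 := burn_B9
theorem okB10 : stB10 := burn_B10
theorem okB11 : stB11 := burn_B11 okB4 okB5
theorem okB13 : stB13 := burn_B13 okB8
theorem okB15 : stB15 := burn_B15
theorem okB16 : stB16 := burn_B16 okB6 okB11 okB13 okB15
theorem okB17 : stB17 :=
  burn_B17 okA5 okA6 okA7 okB2 okB3 okB4 okB5 okB6 okB8 okB11 okB13 okB14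
theorem okB18 : stB18 := burn_B18 okA6 okA7 okA8 okB6 okB8 okB12 okB14 okB16 okB17
theorem okB19 : stB19 := burn_B19 okA6 okA7 okB3 okB6 okB7 okB8 okB9 okB11 okB13 okB14
theorem okB20 : stB20 := burn_B20 okA2 okA3 okB1 okB10 okB12 okB18 okB19

/-- The constants exist: `δ`, `T` are universal, `ρ` is as large as one likes, the other constants
do not depend on the exponent, the scaling factor is as small as one likes. -/
theorem consts : ∃ δ T ρ1 : ℝ, 1 ≤ δ ∧ 1 ≤ T ∧ ∀ ρ : ℝ, ρ1 ≤ ρ → ∃ k : KC, k.δ = δ ∧ k.T = T ∧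
    k.ρ = ρ ∧ ∀ ε : ℝ, 0 < ε → ∃ N0 : ℕ, ∀ n : ℕ, N0 ≤ n → Odd n →
    ∃ c : CC, c.toKC = k ∧ c.n = n ∧ c.lam ≤ ε := by
  obtain ⟨δ, T, h1, h2, h3⟩ := okB20
  obtain ⟨ρ1, h4⟩ := okF0 δ T h1 h2 h3
  exact ⟨δ, T, ρ1, h1, h2, h4⟩

/-- For every large odd `n` there are constants with this exponent. -/
theorem exists_CC : ∃ N0 : ℕ, ∀ n : ℕ, N0 ≤ n → Odd n → ∃ c : CC, c.n = n := by
  obtain ⟨δ, T, ρ1, _, _, h⟩ := consts
  obtain ⟨k, _, _, _, h2⟩ := h ρ1 le_rfl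
  obtain ⟨N0, h3⟩ := h2 1 one_pos
  refine ⟨N0, fun n hn ho => ?_⟩
  obtain ⟨c, _, h4, _⟩ := h3 n hn ho
  exact ⟨c, h4⟩

end BSD
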