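import Pool.Agent.Lib.MP_8528c3_al.StB

/-!
# Burnside project, B12: medians exist, and the relation is symmetric.
-/

namespace BSD

namespace B12

variable {X I : Type} {M : PM X} {Y : I → Set X} {ρ : ℝ} {π : I → X → X} {y0 : I → X}

theorem uu_symm (h6 : stB6) (hρ : 0 ≤ ρ) (i : I) (a b : Co Y ρ) :
    uu M π y0 i a b = uu M π y0 i b a := (h6 X I M Y ρ π y0 hρ i a b b).1

theorem gp_symm (x y w : X) : M.gp x y w = M.gp y x w := by
  unfold PM.gp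
  rw [M.symm x y]
  ring

theorem hh_swap (h6 : stB6) (hρ : 0 ≤ ρ) (i : I) (a b c : Co Y ρ) :
    hh M π y0 i b a c = hh M π y0 i a b c := by
  unfold hh
  rw [uu_symm h6 hρ i b a, min_comm (uu M π y0 i a c)]

theorem hh_rot (h6 : stB6) (hρ : 0 ≤ ρ) (i : I) (a b c : Co Y ρ) :
    hh M π y0 i b c a = hh M π y0 i a b c := by
  unfold hh
  rw [uu_symm h6 hρ i c a, uu_symm h6 hρ i b a, min_comm (uu M π y0 i a c), ← min_assoc,
    min_comm (uu M π y0 i b c), min_assoc]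

theorem med_swap (h6 : stB6) (hρ : 0 ≤ ρ) (a b c p : Co Y ρ) (h : Med M π y0 a b c p) :
    Med M π y0 b a c p := by
  rcases h with ⟨i, h1, h2⟩ | ⟨h1, h2⟩
  · left
    refine ⟨i, by rw [hh_swap h6 hρ]; exact h1, ?_⟩
    unfold IsMu at h2 ⊢
    rw [hh_swap h6 hρ, uu_symm h6 hρ i b a]
    tauto
  · right
    refine ⟨fun i => by rw [hh_swap h6 hρ]; exact h1 i, ?_⟩
    obtain ⟨o, h3, h4, h5, h7⟩ := h2
    exact ⟨o, h3, by rw [gp_symm]; exact h4, h7, h5⟩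

theorem med_rot (h6 : stB6) (hρ : 0 ≤ ρ) (a b c p : Co Y ρ) (h : Med M π y0 a b c p) :
    Med M π y0 b c a p := by
  rcases h with ⟨i, h1, h2⟩ | ⟨h1, h2⟩
  · left
    refine ⟨i, by rw [hh_rot h6 hρ]; exact h1, ?_⟩
    unfold IsMu at h2 ⊢
    rw [hh_rot h6 hρ, uu_symm h6 hρ i b a, uu_symm h6 hρ i c a]
    tauto
  · right
    refine ⟨fun i => by rw [hh_rot h6 hρ]; exact h1 i, ?_⟩
    obtain ⟨o, h3, h4, h5, h7⟩ := h2
    exact ⟨o, h3, h5, by rw [gp_symm]; exact h7, by rw [gp_symm]; exact h4⟩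

theorem exists_at (hP : Pr M Y π y0) (i : I) (x : Co Y ρ) {h : ℝ} (h0 : 0 ≤ h) (h1 : h ≤ ρ) :
    ∃ p, At π y0 i x h p :=
  ⟨Co.cone i (π i (bt y0 x)) (hP.mem _ _) h h0 h1, hP.mem _ _, h0, h1, rfl⟩

theorem exists_med (hA6 : stA6) (h6 : stB6) (hρ : 0 ≤ ρ) (hT : TH M Y) (hP : Pr M Y π y0)
    (a b c : Co Y ρ) : ∃ p, Med M π y0 a b c p := by
  by_cases hex : ∃ i, 1 ≤ hh M π y0 i a b c
  · obtain ⟨i, hi⟩ := hex
    have h0 : 0 ≤ hh M π y0 i a b c := by linarith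
    have hle : hh M π y0 i a b c ≤ ρ :=
      (min_le_left _ _).trans (h6 X I M Y ρ π y0 hρ i a b b).2.2.1
    have hcase : uu M π y0 i a b = hh M π y0 i a b c ∨ uu M π y0 i b c = hh M π y0 i a b c ∨
        uu M π y0 i a c = hh M π y0 i a b c := by
      unfold hh
      rcases min_choice (uu M π y0 i a b) (min (uu M π y0 i b c) (uu M π y0 i a c)) with h | h
      · left; exact h.symm
      · right
        rcases min_choice (uu M π y0 i b c) (uu M π y0 i a c) with h' | h'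
        · left; rw [h, h']
        · right; rw [h, h']
    obtain ⟨p, hp⟩ := exists_at (π := π) (y0 := y0) hP i a h0 hle
    obtain ⟨q, hq⟩ := exists_at (π := π) (y0 := y0) hP i b h0 hle
    rcases hcase with h | h | h
    · exact ⟨p, Or.inl ⟨i, hi, Or.inl ⟨h, Or.inl hp⟩⟩⟩
    · exact ⟨q, Or.inl ⟨i, hi, Or.inr (Or.inl ⟨h, Or.inl hq⟩)⟩⟩
    · exact ⟨p, Or.inl ⟨i, hi, Or.inr (Or.inr ⟨h, Or.inl hp⟩)⟩⟩
  · push Not at hex
    obtain ⟨o, h1, h2, h3⟩ := hA6 X M (1 / 100) (1 / 100) (1 / 100) (by norm_num) (by norm_num)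
      (by norm_num) hT.sg hT.hyp (bt y0 a) (bt y0 b) (bt y0 c)
    exact ⟨Co.base o, Or.inr ⟨hex, o, rfl, by linarith, by linarith, by linarith⟩⟩

end B12

open B12

theorem burn_B12 (hA6 : stA6) (h6 : stB6) : stB12 := by
  intro X I M Y ρ π y0 hρ hT hP
  have hρ0 : (0 : ℝ) ≤ ρ := by linarith
  exact ⟨exists_med hA6 h6 hρ0 hT hP, med_swap h6 hρ0, med_rot h6 hρ0⟩

end BSD
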