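import Pool.Agent.Lib.MP_8528c3_al.StB

/-!
# Burnside project, module B2: first projection inequality
-/

namespace BSD

theorem burn_B2 (hA4 : stA4) : stB2 := by
  intro X I M Y π y0 hT hP i x y hy
  have hp : π i x ∈ Y i := hP.mem i x
  have hle := hP.le i x
  generalize π i x = p at hp hle
  have hg0 : 0 ≤ M.gp x y p := by
    have h1 := M.tri x p y
    have h2 := M.symm y p
    unfold PM.gp
    linarith
  have hg1 : M.gp x y p ≤ M.d p y := by
    have h1 := M.tri x y p
    have h2 := M.symm y p
    unfold PM.gp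
    linarith
  obtain ⟨q, hq1, hq2⟩ := hA4 X M (1 / 100) (by norm_num) hT.sg p y (M.gp x y p) (1 / 1000)
    hg0 hg1 (by norm_num)
  obtain ⟨z, hz, hz1⟩ := hT.qc i p hp y hy q
  have h1 := hle z hz
  have h2 := M.tri x q z
  have h3 := hT.hyp x y q p
  have h4 : M.gp y q p = M.d p q - M.gp p y q := by
    have e1 := M.symm q p
    have e2 := M.symm y p
    unfold PM.gp
    linarith
  have h5 : M.d x q = M.d x p + M.d p q - 2 * M.gp x q p := by
    have e1 := M.symm q p
    unfold PM.gp
    linarith
  have h6 := abs_le.1 hq2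
  have h7 : M.gp x y p - 1 / 100 - 2 / 1000 ≤ min (M.gp x y p) (M.gp y q p) := by
    apply le_min
    · linarith
    · rw [h4]
      linarith [h6.1]
  linarith [h6.2]

end BSD
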