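import Pool.Agent.Lib.MP_8528c3_al.StB

/-!
# Burnside project, module B3: two projections.
-/

namespace BSD

/-- B3: two projections. -/
theorem burn_B3 (h2 : stB2) : stB3 := by
  intro X I M Y π y0 hT hP i x x'
  have hmem := hP.mem i x
  have hmem' := hP.mem i x'
  have e1 : M.gp x (π i x') (π i x) ≤ 8 / 100 := h2 X I M Y π y0 hT hP i x _ hmem'
  have e2 : M.gp x' (π i x) (π i x') ≤ 8 / 100 := h2 X I M Y π y0 hT hP i x' _ hmem
  have key : 17 / 100 < M.d (π i x) (π i x') → M.gp x x' (π i x) ≤ 9 / 100 := by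
    intro hlt
    have h3 := hT.hyp x x' (π i x') (π i x)
    have h4 : 9 / 100 < M.gp x' (π i x') (π i x) := by
      have h5 := M.symm (π i x) (π i x')
      unfold PM.gp at e2 ⊢
      linarith
    have h5 : min (M.gp x x' (π i x)) (M.gp x' (π i x') (π i x)) ≤ 9 / 100 := by linarith
    rcases min_le_iff.mp h5 with h | h
    · exact h
    · linarith
  refine ⟨key, ?_⟩
  have hnn := M.nonneg x x'
  by_cases hle : M.d (π i x) (π i x') ≤ 17 / 100
  · linarith
  · rw [not_le] at hle
    have h3 := key hle
    have h4 := M.nonneg x (π i x)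
    have h5 := M.nonneg x' (π i x')
    unfold PM.gp at h3 e2
    linarith

end BSD
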