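import Pool.Agent.Lib.MP_8528c3_al.StB

/-!
# Burnside project, B4: projection of `Y j` to `Y i`
-/

namespace BSD

theorem burn_B4 (h3 : stB3) : stB4 := by
  intro X I M Y π y0 hT hP i j hij y hy y' hy'
  by_contra hcon
  rw [not_le] at hcon
  have h1 := (h3 X I M Y π y0 hT hP i y y').1 (by linarith)
  have h2 := (h3 X I M Y π y0 hT hP i y' y).1 (by rw [M.symm]; linarith)
  obtain ⟨z, hz, hz'⟩ := hT.qc j y hy y' hy' (π i y)
  obtain ⟨w, hw, hw'⟩ := hT.qc j y' hy' y hy (π i y')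
  have hn : ∀ x ∈ Y i, M.Near (Y i) (1 / 10) x := fun x hx =>
    ⟨x, hx, by rw [M.self]; norm_num⟩
  have h4 := hT.ov i j hij (1 / 10) (π i y) (π i y') (by norm_num)
    (hn _ (hP.mem i y)) ⟨z, hz, by linarith⟩ (hn _ (hP.mem i y')) ⟨w, hw, by linarith⟩
  linarith

end BSD
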