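import Pool.Agent.Lib.MP_8528c3_al.StB

/-!
# Burnside project, B6: `u` is an ultrametric up to `log 2`.
-/

namespace BSD

namespace B6

theorem hti_nonneg {X I : Type} {Y : I → Set X} {ρ : ℝ} (hρ : 0 ≤ ρ) (i : I) (p : Co Y ρ) :
    0 ≤ hti i p := by
  cases p with
  | base x => exact le_rfl
  | cone j y hy s h0 h1 =>
    simp only [hti]
    split_ifs
    · exact h0
    · exact le_rfl
  | apex j =>
    simp only [hti]
    split_ifs
    · exact hρ
    · exact le_rfl

theorem hti_le {X I : Type} {Y : I → Set X} {ρ : ℝ} (hρ : 0 ≤ ρ) (i : I) (p : Co Y ρ) :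
    hti i p ≤ ρ := by
  cases p with
  | base x => exact hρ
  | cone j y hy s h0 h1 =>
    simp only [hti]
    split_ifs
    · exact h1
    · exact hρ
  | apex j =>
    simp only [hti]
    split_ifs
    · exact le_rfl
    · exact hρ

/-- Logarithm of a sum, with junk value `log 0 = 0`. -/
theorem log_sum {w s t : ℝ} (hw : 0 ≤ w) (h : w ≤ s + t) :
    Real.log (w / 2) ≤ 0 ∨ Real.log (w / 2) ≤ max (Real.log (s / 2)) (Real.log (t / 2)) + 7 / 10 := by
  have key : ∀ r : ℝ, 0 < w → w ≤ 2 * r → Real.log (w / 2) ≤ Real.log (r / 2) + 7 / 10 := by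
    intro r hw0 hr
    have hr0 : 0 < r / 2 := by linarith
    have h1 : Real.log (w / 2) ≤ Real.log (r / 2 * 2) :=
      Real.log_le_log (by linarith) (by linarith)
    rw [Real.log_mul hr0.ne' (by norm_num)] at h1
    have := Real.log_two_lt_d9
    linarith
  rcases hw.eq_or_lt with h0 | h0
  · left
    rw [← h0]
    simp
  · right
    rcases le_total s t with hst | hst
    · have h1 := key t h0 (by linarith)
      have h2 := le_max_right (Real.log (s / 2)) (Real.log (t / 2))
      linarith
    · have h1 := key s h0 (by linarith)
      have h2 := le_max_left (Real.log (s / 2)) (Real.log (t / 2))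
      linarith

end B6

theorem burn_B6 : stB6 := by
  intro X I M Y ρ π y0 hρ i a b c
  have ha := B6.hti_nonneg hρ i a
  have ha' := B6.hti_le hρ i a
  have hb := B6.hti_nonneg hρ i b
  refine ⟨?_, ?_, ?_, ?_, ?_⟩
  · unfold uu
    rw [max_comm (hti i a) (hti i b), M.symm]
  · unfold uu
    exact le_min hρ ((ha.trans (le_max_left _ _)).trans (le_max_left _ _))
  · unfold uu
    exact min_le_left _ _
  · unfold uu
    exact le_min ha' ((le_max_left _ _).trans (le_max_left _ _))
  · unfold uu
    have htri := M.tri (π i (bt y0 a)) (π i (bt y0 b)) (π i (bt y0 c))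
    have hw := M.nonneg (π i (bt y0 a)) (π i (bt y0 c))
    have hl := B6.log_sum hw htri
    generalize M.d (π i (bt y0 a)) (π i (bt y0 b)) = s at *
    generalize M.d (π i (bt y0 b)) (π i (bt y0 c)) = t at *
    generalize M.d (π i (bt y0 a)) (π i (bt y0 c)) = w at *
    have hc := B6.hti_nonneg hρ i c
    generalize hti i a = A at *
    generalize hti i b = B at *
    generalize hti i c = C at *
    have h1 : max (max A C) (Real.log (w / 2)) ≤
        max (max (max A B) (Real.log (s / 2))) (max (max B C) (Real.log (t / 2))) + 7 / 10 := by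
      have e1 : A ≤ max (max (max A B) (Real.log (s / 2))) (max (max B C) (Real.log (t / 2))) :=
        ((le_max_left _ _).trans (le_max_left _ _)).trans (le_max_left _ _)
      have e2 : C ≤ max (max (max A B) (Real.log (s / 2))) (max (max B C) (Real.log (t / 2))) :=
        ((le_max_right _ _).trans (le_max_left _ _)).trans (le_max_right _ _)
      have e3 : max (Real.log (s / 2)) (Real.log (t / 2)) ≤
          max (max (max A B) (Real.log (s / 2))) (max (max B C) (Real.log (t / 2))) :=
        max_le_max (le_max_right _ _) (le_max_right _ _)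
      refine max_le (max_le (by linarith) (by linarith)) ?_
      rcases hl with hl | hl <;> linarith
    rw [← min_max_distrib_left]
    generalize max (max (max A B) (Real.log (s / 2))) (max (max B C) (Real.log (t / 2))) = Z at *
    rcases le_total ρ Z with hZ | hZ
    · rw [min_eq_left hZ]
      have := min_le_left ρ (max (max A C) (Real.log (w / 2)))
      linarith
    · rw [min_eq_right hZ]
      have := min_le_right ρ (max (max A C) (Real.log (w / 2)))
      linarith

end BSD
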