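import Pool.Agent.Lib.MP_8528c3_al.StB

/-!
# Burnside project, B7: lower bound of the cone-off metric
-/

namespace BSD

namespace B7

/-- `2 max (m, log (t / 2))` is `e^(-s)`-Lipschitz if `s ≤ m`. -/
theorem key {m s t t' D : ℝ} (hs : s ≤ m) (hm : 0 ≤ m) (ht' : 0 ≤ t') (hD : 0 ≤ D)
    (h : t' ≤ t + D) :
    max m (Real.log (t' / 2)) ≤ max m (Real.log (t / 2)) + D * Real.exp (-s) / 2 := by
  set A := max m (Real.log (t / 2)) with hA
  have hE : 0 ≤ D * Real.exp (-s) / 2 := by positivity
  have hmA : m ≤ A := le_max_left _ _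
  refine max_le (by linarith) ?_
  by_cases h0 : Real.log (t' / 2) ≤ A
  · linarith
  push Not at h0
  have hlog : 0 < Real.log (t' / 2) := by linarith
  have ht0 : 0 < t' := by
    rcases ht'.eq_or_lt with h1 | h1
    · rw [← h1] at hlog
      simp at hlog
    · exact h1
  have htA : t ≤ 2 * Real.exp A := by
    rcases le_or_gt t 0 with h1 | h1
    · have := Real.exp_pos A
      linarith
    · have h2 : Real.log (t / 2) ≤ A := le_max_right _ _
      have h3 := (Real.log_le_iff_le_exp (by linarith : 0 < t / 2)).1 h2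
      linarith
  have h1 : t' / 2 ≤ Real.exp A * (1 + D / (2 * Real.exp A)) := by
    have : Real.exp A * (1 + D / (2 * Real.exp A)) = Real.exp A + D / 2 := by
      have := (Real.exp_pos A).ne'
      field_simp
    rw [this]
    linarith
  have hq : 0 ≤ D / (2 * Real.exp A) := by positivity
  have h2 : Real.log (t' / 2) ≤ A + D / (2 * Real.exp A) := by
    calc Real.log (t' / 2) ≤ Real.log (Real.exp A * (1 + D / (2 * Real.exp A))) :=
          Real.log_le_log (by linarith) h1
      _ = A + Real.log (1 + D / (2 * Real.exp A)) := by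
          rw [Real.log_mul (Real.exp_pos A).ne' (by linarith), Real.log_exp]
      _ ≤ A + D / (2 * Real.exp A) := by
          have := Real.log_le_sub_one_of_pos (by linarith : 0 < 1 + D / (2 * Real.exp A))
          linarith
  have h3 : D / (2 * Real.exp A) ≤ D * Real.exp (-s) / 2 := by
    have h4 : Real.exp (-A) ≤ Real.exp (-s) := Real.exp_le_exp.2 (by linarith)
    have h5 : D / (2 * Real.exp A) = D * Real.exp (-A) / 2 := by
      rw [Real.exp_neg]
      have := (Real.exp_pos A).ne'
      field_simp
    rw [h5]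
    have := mul_le_mul_of_nonneg_left h4 hD
    linarith
  linarith

theorem min_add {ρ A B E : ℝ} (hE : 0 ≤ E) (h : B ≤ A + E) : min ρ B ≤ min ρ A + E := by
  rcases le_total ρ A with h1 | h1
  · rw [min_eq_left h1]
    exact (min_le_left _ _).trans (by linarith)
  · rw [min_eq_right h1]
    exact (min_le_right _ _).trans h

theorem ht_nonneg {X I : Type} {Y : I → Set X} {ρ : ℝ} (hρ : 0 ≤ ρ) (p : Co Y ρ) : 0 ≤ ht p := by
  cases p with
  | base => exact le_rfl
  | cone i y hy s h0 h1 => exact h0
  | apex => exact hρ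

theorem ht_le {X I : Type} {Y : I → Set X} {ρ : ℝ} (hρ : 0 ≤ ρ) (p : Co Y ρ) : ht p ≤ ρ := by
  cases p with
  | base => exact hρ
  | cone i y hy s h0 h1 => exact h1
  | apex => exact le_rfl

/-- horizontal moves -/
theorem hor {X : Type} (M : PM X) {ρ a s : ℝ} (hs : 0 ≤ s) (x y y' : X) :
    (2 * min ρ (max (max a s) (Real.log (M.d x y' / 2))) - a - s) -
      (2 * min ρ (max (max a s) (Real.log (M.d x y / 2))) - a - s) ≤
      M.d y y' * Real.exp (-s) := by
  have h1 := key (m := max a s) (s := s) (t := M.d x y) (t' := M.d x y') (D := M.d y y')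
    (le_max_right _ _) (hs.trans (le_max_right _ _)) (M.nonneg _ _) (M.nonneg _ _)
    (M.tri x y y')
  have hE : 0 ≤ M.d y y' * Real.exp (-s) / 2 := by
    have := mul_nonneg (M.nonneg y y') (Real.exp_pos (-s)).le
    linarith
  have h2 := min_add (ρ := ρ) hE h1
  linarith

/-- vertical moves -/
theorem vert {ρ a s s' l : ℝ} :
    (2 * min ρ (max (max a s') l) - a - s') - (2 * min ρ (max (max a s) l) - a - s) ≤
      |s - s'| := by
  rcases le_total s s' with h | h
  · have h1 : min ρ (max (max a s') l) ≤ min ρ (max (max a s) l) + (s' - s) := by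
      refine min_add (by linarith) ?_
      refine max_le (max_le ?_ ?_) ?_
      · have := (le_max_left a s).trans (le_max_left (max a s) l)
        linarith
      · have := (le_max_right a s).trans (le_max_left (max a s) l)
        linarith
      · have := le_max_right (max a s) l
        linarith
    rw [abs_sub_comm, abs_of_nonneg (by linarith)]
    linarith
  · have h1 : min ρ (max (max a s') l) ≤ min ρ (max (max a s) l) :=
      min_le_min le_rfl (max_le_max (max_le_max le_rfl h) le_rfl)
    rw [abs_of_nonneg (by linarith)]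
    linarith

theorem at_top {ρ a l : ℝ} : min ρ (max (max a ρ) l) = ρ :=
  min_eq_left ((le_max_right a ρ).trans (le_max_left _ _))

end B7

theorem burn_B7 : stB7 := by
  intro X I M Y ρ y0 hY hρ p q
  have h0 : 0 ≤ ht p := B7.ht_nonneg hρ p
  have h1 : ht p ≤ ρ := B7.ht_le hρ p
  have hp := coD_potential (M := M) hY hρ
    (fun q => 2 * min ρ (max (max (ht p) (ht q)) (Real.log (M.d (bt y0 p) (bt y0 q) / 2)))
      - ht p - ht q) ?_ p q
  · have h2 : 2 * min ρ (max (max (ht p) (ht p)) (Real.log (M.d (bt y0 p) (bt y0 p) / 2)))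
        - ht p - ht p = 0 := by
      rw [M.self, zero_div, Real.log_zero, max_self, max_eq_left h0, min_eq_right h1]
      ring
    have h3 : 2 * min ρ (max (max (ht p) (ht q)) (Real.log (M.d (bt y0 p) (bt y0 q) / 2)))
        - ht p - ht q - (2 * min ρ (max (max (ht p) (ht p))
        (Real.log (M.d (bt y0 p) (bt y0 p) / 2))) - ht p - ht p) ≤ coD M Y ρ p q := hp
    rw [h2, sub_zero] at h3
    exact h3
  · intro a b c hm
    cases hm with
    | base x x' =>
      have h := B7.hor M (ρ := ρ) (a := ht p) (s := 0) le_rfl (bt y0 p) x x'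
      rw [neg_zero, Real.exp_zero, mul_one] at h
      exact h
    | up i y hy h => exact (sub_self _).le
    | dn i y hy h => exact (sub_self _).le
    | vert i y hy s s' h0 h1 h0' h1' => exact B7.vert
    | hor i y y' hy hy' s h0 h1 => exact B7.hor M h0 (bt y0 p) y y'
    | top i y hy h =>
      change (2 * min ρ (max (max (ht p) ρ) _) - ht p - ρ) -
        (2 * min ρ (max (max (ht p) ρ) _) - ht p - ρ) ≤ 0
      rw [B7.at_top, B7.at_top, sub_self]
    | topr i y hy h =>
      change (2 * min ρ (max (max (ht p) ρ) _) - ht p - ρ) -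
        (2 * min ρ (max (max (ht p) ρ) _) - ht p - ρ) ≤ 0
      rw [B7.at_top, B7.at_top, sub_self]

end BSD
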