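import Pool.Agent.Lib.MP_8528c3_al.StB

/-!
# Burnside project, B8: upper bounds for the cone-off metric
-/

set_option autoImplicit false

namespace BSD

namespace B8

variable {X I : Type} {M : PM X} {Y : I → Set X} {ρ : ℝ}

theorem cone_cone (i : I) {y y' : X} (hy : y ∈ Y i) (hy' : y' ∈ Y i) {s s' : ℝ} (h0 : 0 ≤ s)
    (h1 : s ≤ ρ) (h0' : 0 ≤ s') (h1' : s' ≤ ρ) {u : ℝ} (hu0 : 0 ≤ u) (hu1 : u ≤ ρ) :
    coD M Y ρ (Co.cone i y hy s h0 h1) (Co.cone i y' hy' s' h0' h1') ≤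
      |s - u| + |u - s'| + M.d y y' * Real.exp (-u) := by
  have h := coD_le (Co.pth_trans (Co.pth_one (Mv.vert (M := M) i y hy s u h0 h1 hu0 hu1))
    (Co.pth_trans (Co.pth_one (Mv.hor i y y' hy hy' u hu0 hu1))
      (Co.pth_one (Mv.vert i y' hy' u s' hu0 hu1 h0' h1'))))
  linarith

theorem cone_apex (hρ : 0 ≤ ρ) (i : I) {y : X} (hy : y ∈ Y i) {s : ℝ} (h0 : 0 ≤ s) (h1 : s ≤ ρ) :
    coD M Y ρ (Co.cone i y hy s h0 h1) (Co.apex i) ≤ ρ - s := by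
  have h := coD_le (Co.pth_trans (Co.pth_one (Mv.vert (M := M) i y hy s ρ h0 h1 hρ le_rfl))
    (Co.pth_one (Mv.top i y hy hρ)))
  rw [abs_sub_comm, abs_of_nonneg (sub_nonneg.2 h1), add_zero] at h
  exact h

theorem cone_base (hρ : 0 ≤ ρ) (i : I) {y : X} (hy : y ∈ Y i) {s : ℝ} (h0 : 0 ≤ s) (h1 : s ≤ ρ) :
    coD M Y ρ (Co.cone i y hy s h0 h1) (Co.base y) ≤ s := by
  have h := coD_le (Co.pth_trans (Co.pth_one (Mv.vert (M := M) i y hy s 0 h0 h1 le_rfl hρ))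
    (Co.pth_one (Mv.dn i y hy hρ)))
  rw [sub_zero, abs_of_nonneg h0, add_zero] at h
  exact h

theorem base_apex (hρ : 0 ≤ ρ) (i : I) {y : X} (hy : y ∈ Y i) :
    coD M Y ρ (Co.base y) (Co.apex i) ≤ ρ := by
  have h := coD_le (Co.pth_trans (Co.pth_one (Mv.up (M := M) i y hy hρ))
    (Co.pth_trans (Co.pth_one (Mv.vert i y hy 0 ρ le_rfl hρ hρ le_rfl))
      (Co.pth_one (Mv.top i y hy hρ))))
  rw [zero_sub, abs_neg, abs_of_nonneg hρ, add_zero, zero_add] at h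
  exact h

end B8

/-- **B8**: upper bounds for the cone-off metric. -/
theorem burn_B8 : stB8 := by
  intro X I M Y ρ y0 hY hρ i
  refine ⟨fun x x' => coD_le (Co.pth_one (Mv.base x x')),
    fun y y' hy hy' s s' h0 h1 h0' h1' u hu0 hu1 => B8.cone_cone i hy hy' h0 h1 h0' h1' hu0 hu1,
    fun y hy s h0 h1 => B8.cone_apex hρ i hy h0 h1, fun y hy s h0 h1 => B8.cone_base hρ i hy h0 h1,
    fun y hy => B8.base_apex hρ i hy, fun p hy0 => ?_⟩
  cases p with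
  | base x => exact coD_le (Pth.nil _)
  | cone j y hy s h0 h1 => exact B8.cone_base hρ j hy h0 h1
  | apex j =>
    rw [(coPM M Y ρ hY hρ).symm]
    exact B8.base_apex hρ j (hy0 j)

end BSD
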