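import Pool.Agent.Lib.MP_8528c3_al.StB

/-!
# Burnside project, B9: distances to the apexes
-/

namespace BSD

namespace B9

variable {X I : Type} {M : PM X} {Y : I → Set X} {ρ : ℝ}

/-- the height in one cone changes by at most the cost of a move -/
theorem hti_mv (i : I) {p q : Co Y ρ} {c : ℝ} (h : Mv M Y ρ p q c) : hti i q - hti i p ≤ c := by
  cases h with
  | base x x' =>
    have := M.nonneg x x'
    simpa [hti] using this
  | up j y hy h => simp [hti]
  | dn j y hy h => simp [hti]
  | vert j y hy s s' h0 h1 h0' h1' =>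
    by_cases hj : j = i
    · have := neg_abs_le (s - s')
      simp only [hti, hj, if_true]
      linarith
    · simp only [hti, hj, if_false, sub_self]
      exact abs_nonneg _
  | hor j y y' hy hy' s h0 h1 =>
    simp only [hti, sub_self]
    exact mul_nonneg (M.nonneg _ _) (Real.exp_pos _).le
  | top j y hy h => simp [hti]
  | topr j y hy h => simp [hti]

/-- the height, with a minus sign outside one cone -/
theorem ht_mv (i : I) {p q : Co Y ρ} {c : ℝ} (h : Mv M Y ρ p q c) :
    (2 * hti i q - ht q) - (2 * hti i p - ht p) ≤ c := by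
  cases h with
  | base x x' =>
    have := M.nonneg x x'
    simpa [hti, ht] using this
  | up j y hy h => simp [hti, ht]
  | dn j y hy h => simp [hti, ht]
  | vert j y hy s s' h0 h1 h0' h1' =>
    have h2 := neg_abs_le (s - s')
    have h3 := le_abs_self (s - s')
    by_cases hj : j = i
    · simp only [hti, ht, hj, if_true]
      linarith
    · simp only [hti, ht, hj, if_false]
      linarith
  | hor j y y' hy hy' s h0 h1 =>
    simp only [hti, ht, sub_self]
    exact mul_nonneg (M.nonneg _ _) (Real.exp_pos _).le
  | top j y hy h => simp [hti, ht]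
  | topr j y hy h => simp [hti, ht]

end B9

open B9 in
/-- B9: distances to the apexes (lower bounds), heights are Lipschitz. -/
theorem burn_B9 : stB9 := by
  intro X I M Y ρ hY hρ i p q
  have h1 : ∀ p q : Co Y ρ, hti i q - hti i p ≤ (coPM M Y ρ hY hρ).d p q := fun p q =>
    coD_potential hY hρ (hti i) (fun _ _ _ h => hti_mv i h) p q
  have h2 : ∀ p : Co Y ρ, hti i p = 0 → ρ + ht p ≤ (coPM M Y ρ hY hρ).d p (Co.apex i) := by
    intro p hp
    have h3 : (2 * hti i (Co.apex i : Co Y ρ) - ht (Co.apex i : Co Y ρ)) - (2 * hti i p - ht p) ≤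
        (coPM M Y ρ hY hρ).d p (Co.apex i) :=
      coD_potential hY hρ (fun q => 2 * hti i q - ht q) (fun _ _ _ h => ht_mv i h) p _
    have e1 : hti i (Co.apex i : Co Y ρ) = ρ := by simp [hti]
    have e2 : ht (Co.apex i : Co Y ρ) = ρ := rfl
    rw [hp, e1, e2] at h3
    linarith
  refine ⟨?_, ?_, h2 p, ?_⟩
  · rw [abs_le]
    have h3 := h1 p q
    have h4 := h1 q p
    rw [(coPM M Y ρ hY hρ).symm q p] at h4
    constructor <;> linarith
  · have h3 := h1 p (Co.apex i)
    simp only [hti, if_true] at h3 ⊢
    exact h3
  · intro j hj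
    have h3 := h2 (Co.apex j) (by simp [hti, hj])
    simp only [ht] at h3
    linarith

end BSD
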