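import Pool.Agent.Lib.MP_8528c3_al.StC

/-!
# Burnside project, C0: the action on the cone-off is by isometries
-/

namespace BSD

namespace C0

variable {G X I : Type} [Group G] [MulAction G X] [MulAction G I] {M : PM X} {Y : I → Set X}
  {ρ : ℝ}

theorem mv_smul (hg : ∀ (g : G) (i : I), ∀ y ∈ Y i, g • y ∈ Y (g • i))
    (hiso : ∀ (g : G) (x y : X), M.d (g • x) (g • y) = M.d x y) (g : G) {p q : Co Y ρ} {c : ℝ}
    (h : Mv M Y ρ p q c) :
    Mv M Y ρ ((coAct ρ hg).smul g p) ((coAct ρ hg).smul g q) c := by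
  cases h with
  | base x x' =>
    have h1 := Mv.base (M := M) (Y := Y) (ρ := ρ) (g • x) (g • x')
    rw [hiso] at h1
    exact h1
  | up i y hy h => exact Mv.up (g • i) (g • y) (hg g i y hy) h
  | dn i y hy h => exact Mv.dn (g • i) (g • y) (hg g i y hy) h
  | vert i y hy s s' h0 h1 h0' h1' =>
    exact Mv.vert (g • i) (g • y) (hg g i y hy) s s' h0 h1 h0' h1'
  | hor i y y' hy hy' s h0 h1 =>
    have h2 := Mv.hor (M := M) (g • i) (g • y) (g • y') (hg g i y hy) (hg g i y' hy') s h0 h1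
    rw [hiso] at h2
    exact h2
  | top i y hy h => exact Mv.top (g • i) (g • y) (hg g i y hy) h
  | topr i y hy h => exact Mv.topr (g • i) (g • y) (hg g i y hy) h

theorem pth_smul (hg : ∀ (g : G) (i : I), ∀ y ∈ Y i, g • y ∈ Y (g • i))
    (hiso : ∀ (g : G) (x y : X), M.d (g • x) (g • y) = M.d x y) (g : G) {p q : Co Y ρ} {a : ℝ}
    (h : Pth M Y ρ p q a) :
    Pth M Y ρ ((coAct ρ hg).smul g p) ((coAct ρ hg).smul g q) a := by
  induction h with
  | nil => exact Pth.nil _
  | snoc q r a c _ hm ih => exact Pth.snoc _ _ _ a c ih (mv_smul hg hiso g hm)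

theorem coD_smul_le (hY : ∀ i, (Y i).Nonempty) (hρ : 0 ≤ ρ)
    (hg : ∀ (g : G) (i : I), ∀ y ∈ Y i, g • y ∈ Y (g • i))
    (hiso : ∀ (g : G) (x y : X), M.d (g • x) (g • y) = M.d x y) (g : G) (p q : Co Y ρ) :
    coD M Y ρ ((coAct ρ hg).smul g p) ((coAct ρ hg).smul g q) ≤ coD M Y ρ p q :=
  le_coD hY hρ fun _ ha => coD_le (pth_smul hg hiso g ha)

theorem inv_smul (hg : ∀ (g : G) (i : I), ∀ y ∈ Y i, g • y ∈ Y (g • i)) (g : G) (p : Co Y ρ) :
    (coAct ρ hg).smul g⁻¹ ((coAct ρ hg).smul g p) = p := by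
  let _ := coAct ρ hg
  exact inv_smul_smul g p

end C0

open Classical in
theorem burn_C0 : stC0 := by
  intro G X I _ _ _ M Y ρ hY hρ hg hiso
  refine ⟨fun g p q => ?_, fun g x => rfl, fun g i => rfl, fun g i y hy s h0 h1 => rfl,
    fun g i p => ?_, fun g p => ?_, fun g i p => ?_⟩
  · refine le_antisymm (C0.coD_smul_le hY hρ hg hiso g p q) ?_
    have h1 := C0.coD_smul_le hY hρ hg hiso g⁻¹ ((coAct ρ hg).smul g p) ((coAct ρ hg).smul g q)
    rw [C0.inv_smul hg g p, C0.inv_smul hg g q] at h1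
    exact h1
  · cases p with
    | base x => exact Iff.rfl
    | cone j y hy s h0 h1 =>
      change (g • j = g • i) ↔ (j = i)
      exact smul_left_cancel_iff g
    | apex j =>
      change (g • j = g • i) ↔ (j = i)
      exact smul_left_cancel_iff g
  · cases p <;> rfl
  · cases p with
    | base x => rfl
    | cone j y hy s h0 h1 =>
      change (if g • j = g • i then s else 0) = (if j = i then s else 0)
      rw [smul_left_cancel_iff]
    | apex j =>
      change (if g • j = g • i then ρ else 0) = (if j = i then ρ else 0)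
      rw [smul_left_cancel_iff]

end BSD
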