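import Pool.Agent.Lib.MP_8528c3_al.StC

/-!
# Burnside project, C1: distances to an apex; entries exist.
-/

namespace BSD

namespace C1

variable {X I : Type} {M : PM X} {Y : I → Set X} {ρ : ℝ}

theorem hti_cone (i : I) (y : X) (hy : y ∈ Y i) (s : ℝ) (h0 : 0 ≤ s) (h1 : s ≤ ρ) :
    hti i (Co.cone i y hy s h0 h1 : Co Y ρ) = s := if_pos rfl

theorem hti_apex (i : I) : hti i (Co.apex i : Co Y ρ) = ρ := if_pos rfl

/-- Every path that enters the cone `i` enters it at a point `y`. -/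
theorem key (hY : ∀ i, (Y i).Nonempty) (hρ : 0 ≤ ρ) (i : I) (a : Co Y ρ) (ha : ¬ InC i a)
    {q : Co Y ρ} {A : ℝ} (h : Pth M Y ρ a q A) (hq : InC i q) :
    ∃ y ∈ Y i, (coPM M Y ρ hY hρ).d a (Co.base y) + hti i q ≤ A := by
  classical
  induction h with
  | nil => exact absurd hq ha
  | snoc q r A c hp hm ih =>
    cases hm with
    | base x x' => exact absurd hq id
    | up j y hy h =>
      have hj : j = i := hq
      subst hj
      refine ⟨y, hy, ?_⟩
      have h1 : (coPM M Y ρ hY hρ).d a (Co.base y) ≤ A := coD_le hp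
      have h2 : hti j (Co.cone j y hy 0 le_rfl h : Co Y ρ) = 0 := hti_cone _ _ _ _ _ _
      rw [h2]
      linarith
    | dn j y hy h => exact absurd hq id
    | vert j y hy s s' h0 h1 h0' h1' =>
      have hj : j = i := hq
      subst hj
      obtain ⟨y', hy', h2⟩ := ih rfl
      refine ⟨y', hy', ?_⟩
      have e1 : hti j (Co.cone j y hy s h0 h1 : Co Y ρ) = s := hti_cone _ _ _ _ _ _
      have e2 : hti j (Co.cone j y hy s' h0' h1' : Co Y ρ) = s' := hti_cone _ _ _ _ _ _
      rw [e1] at h2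
      rw [e2]
      have h3 := neg_abs_le (s - s')
      linarith
    | hor j y y₁ hy hy₁ s h0 h1 =>
      have hj : j = i := hq
      subst hj
      obtain ⟨y', hy', h2⟩ := ih rfl
      refine ⟨y', hy', ?_⟩
      have e1 : hti j (Co.cone j y hy s h0 h1 : Co Y ρ) = s := hti_cone _ _ _ _ _ _
      have e2 : hti j (Co.cone j y₁ hy₁ s h0 h1 : Co Y ρ) = s := hti_cone _ _ _ _ _ _
      rw [e1] at h2
      rw [e2]
      have h3 := mul_nonneg (M.nonneg y y₁) (Real.exp_pos (-s)).le
      linarith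
    | top j y hy h =>
      have hj : j = i := hq
      subst hj
      obtain ⟨y', hy', h2⟩ := ih rfl
      refine ⟨y', hy', ?_⟩
      have e1 : hti j (Co.cone j y hy ρ h le_rfl : Co Y ρ) = ρ := hti_cone _ _ _ _ _ _
      have e2 : hti j (Co.apex j : Co Y ρ) = ρ := hti_apex _
      rw [e1] at h2
      rw [e2]
      linarith
    | topr j y hy h =>
      have hj : j = i := hq
      subst hj
      obtain ⟨y', hy', h2⟩ := ih rfl
      refine ⟨y', hy', ?_⟩
      have e1 : hti j (Co.cone j y hy ρ h le_rfl : Co Y ρ) = ρ := hti_cone _ _ _ _ _ _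
      have e2 : hti j (Co.apex j : Co Y ρ) = ρ := hti_apex _
      rw [e2] at h2
      rw [e1]
      linarith

/-- First part. -/
theorem part1 (hY : ∀ i, (Y i).Nonempty) (hρ : 0 ≤ ρ) (i : I) (a : Co Y ρ) (ha : ¬ InC i a)
    (η : ℝ) (hη : 0 < η) : ∃ y ∈ Y i, (coPM M Y ρ hY hρ).d a (Co.base y) ≤
      (coPM M Y ρ hY hρ).d a (Co.apex i) - ρ + η := by
  obtain ⟨A, hA, hlt⟩ := coD_approx (M := M) hY hρ a (Co.apex i) hη
  obtain ⟨y, hy, h⟩ := key hY hρ i a ha hA rfl
  refine ⟨y, hy, ?_⟩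
  have e2 : hti i (Co.apex i : Co Y ρ) = ρ := hti_apex _
  rw [e2] at h
  have h3 : A < (coPM M Y ρ hY hρ).d a (Co.apex i) + η := hlt
  linarith

end C1

open C1 in
/-- C1. -/
theorem burn_C1 (hB8 : stB8) (hB9 : stB9) : stC1 := by
  intro X I M Y ρ hY hρ i
  obtain ⟨-, -, h3, -, h5, -⟩ := hB8 X I M Y ρ (fun j => (hY j).some) hY hρ i
  refine ⟨fun a ha η hη => part1 hY hρ i a ha η hη, ?_, ?_, ?_⟩
  · intro y hy
    apply le_antisymm (h5 y hy)
    have h := (hB9 X I M Y ρ hY hρ i (Co.base y) (Co.base y)).2.2.1 rfl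
    have e : ht (Co.base y : Co Y ρ) = 0 := rfl
    rw [e, add_zero] at h
    exact h
  · intro y hy s h0 h1
    apply le_antisymm (h3 y hy s h0 h1)
    have h := (hB9 X I M Y ρ hY hρ i (Co.cone i y hy s h0 h1) (Co.base y)).2.1
    have e : hti i (Co.cone i y hy s h0 h1 : Co Y ρ) = s := hti_cone _ _ _ _ _ _
    rw [e] at h
    exact h
  · intro a ha
    have hout : ¬ InC i a → (Ent M hY hρ i a).Nonempty := by
      intro hn
      obtain ⟨y, hy, h⟩ := part1 (M := M) hY hρ i a hn 1 one_pos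
      exact ⟨y, hy, Or.inr ⟨hn, h⟩⟩
    cases a with
    | base x => exact hout id
    | cone j y hy s h0 h1 =>
      by_cases hj : j = i
      · subst hj
        exact ⟨y, hy, Or.inl ⟨hy, s, h0, h1, rfl⟩⟩
      · exact hout hj
    | apex j =>
      apply hout
      intro hj
      have hj' : j = i := hj
      exact ha (by rw [hj'])

end BSD
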