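import Pool.Agent.Lib.MP_8528c3_al.StC

/-!
# Burnside project, module C2: entry lemma.
-/

namespace BSD

/-- C2: entry lemma. -/
theorem burn_C2 (hB7 : stB7) (hC1 : stC1) : stC2 := by
  intro X I M Y ρ δ K hY hρ hH hδ hK hlt i a y hy y' hy' h h'
  obtain ⟨-, hV, -, -⟩ := hC1 X I M Y ρ hY hρ i
  have e1 := hV y hy
  have e2 := hV y' hy'
  have h3 := hH (Co.base y) a (Co.base y') (Co.apex i)
  have hsy := (coPM M Y ρ hY hρ).symm (Co.base y) a
  have h4 : ρ - K / 2 ≤ min ((coPM M Y ρ hY hρ).gp (Co.base y) a (Co.apex i))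
      ((coPM M Y ρ hY hρ).gp a (Co.base y') (Co.apex i)) := by
    refine le_min ?_ ?_
    · unfold PM.gp
      linarith
    · unfold PM.gp
      linarith
  have h5 : (coPM M Y ρ hY hρ).d (Co.base y) (Co.base y') ≤ K + 2 * δ := by
    have h6 : ρ - K / 2 - δ ≤ (coPM M Y ρ hY hρ).gp (Co.base y) (Co.base y') (Co.apex i) := by
      linarith
    unfold PM.gp at h6
    linarith
  have h7 := hB7 X I M Y ρ (fun j => (hY j).some) hY hρ (Co.base y) (Co.base y')
  simp only [ht, bt, sub_zero] at h7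
  have h8 : min ρ (max (max 0 0) (Real.log (M.d y y' / 2))) ≤ (K + 2 * δ) / 2 := by linarith
  have h9 : Real.log (M.d y y' / 2) ≤ (K + 2 * δ) / 2 := by
    rcases min_le_iff.mp h8 with h10 | h10
    · exfalso
      linarith
    · exact (le_max_right _ _).trans h10
  rcases (M.nonneg y y').lt_or_eq with hpos | hzero
  · have h10 := Real.exp_le_exp.mpr h9
    rw [Real.exp_log (half_pos hpos)] at h10
    linarith
  · rw [← hzero]
    positivity

end BSD
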