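import Pool.Agent.Lib.MP_8528c3_al.StC

/-!
# Burnside project, C3: axiom (r3) of rotation families for the cone-off
-/

set_option autoImplicit false

namespace BSD

namespace C3

/-- The Gromov product at `w` is at most the distance to `w`. -/
theorem gp_le_left {X : Type} (M : PM X) (x y w : X) : M.gp x y w ≤ M.d x w := by
  have h := M.tri y x w
  have h1 := M.symm y x
  unfold PM.gp
  linarith

theorem gp_comm {X : Type} (M : PM X) (x y w : X) : M.gp x y w = M.gp y x w := by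
  have h1 := M.symm y x
  unfold PM.gp
  linarith

theorem gp_le_right {X : Type} (M : PM X) (x y w : X) : M.gp x y w ≤ M.d y w := by
  rw [gp_comm]
  exact gp_le_left M y x w

variable {X I : Type} {M : PM X} {Y : I → Set X} {ρ : ℝ} {hY : ∀ i, (Y i).Nonempty}
  {hρ : 0 ≤ ρ}

/-- The Gromov product of an entry with the point is almost maximal. -/
theorem ent_gp (hB8 : stB8) (hC1 : stC1) {i : I} {a : Co Y ρ} {y : X}
    (hy : y ∈ Ent M hY hρ i a) :
    min ρ ((coPM M Y ρ hY hρ).d a (Co.apex i)) - 1 / 2 ≤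
      (coPM M Y ρ hY hρ).gp (Co.base y) a (Co.apex i) := by
  obtain ⟨hyY, hcase⟩ := hy
  obtain ⟨_, h2, h3, _⟩ := hC1 X I M Y ρ hY hρ i
  have hd := h2 y hyY
  have hs := (coPM M Y ρ hY hρ).symm (Co.base y) a
  rcases hcase with ⟨hy', s, h0, h1, rfl⟩ | ⟨_, hle⟩
  · have e1 := h3 y hy' s h0 h1
    obtain ⟨_, _, _, h4, _⟩ := hB8 X I M Y ρ (fun _ => y) hY hρ i
    have e2 := h4 y hy' s h0 h1
    have e3 := min_le_right ρ ((coPM M Y ρ hY hρ).d (Co.cone i y hy' s h0 h1) (Co.apex i))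
    unfold PM.gp
    linarith
  · have e3 := min_le_left ρ ((coPM M Y ρ hY hρ).d a (Co.apex i))
    unfold PM.gp
    linarith

/-- First claim. -/
theorem first (hB7 : stB7) (hB8 : stB8) (hC1 : stC1) {δ : ℝ} (hH : (coPM M Y ρ hY hρ).Hyp δ)
    (hδ : 1 ≤ δ) (hρδ : 1000 * δ + 1000 ≤ ρ) {i : I} {a b : Co Y ρ} {y y' : X}
    (hy : y ∈ Ent M hY hρ i a) (hy' : y' ∈ Ent M hY hρ i b)
    (hg : 2 * δ + 1 ≤ (coPM M Y ρ hY hρ).gp a b (Co.apex i)) :
    M.d y y' ≤ 2 * Real.exp (ρ - min ρ ((coPM M Y ρ hY hρ).gp a b (Co.apex i)) + 2 * δ + 1) := by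
  have ha := ent_gp hB8 hC1 hy
  have hb := ent_gp hB8 hC1 hy'
  obtain ⟨_, h2, _, _⟩ := hC1 X I M Y ρ hY hρ i
  have hd := h2 y hy.1
  have hd' := h2 y' hy'.1
  have la := gp_le_left (coPM M Y ρ hY hρ) a b (Co.apex i)
  have lb := gp_le_right (coPM M Y ρ hY hρ) a b (Co.apex i)
  have H1 := hH (Co.base y) a b (Co.apex i)
  have H2 := hH (Co.base y) b (Co.base y') (Co.apex i)
  have hB := hB7 X I M Y ρ (fun _ => y) hY hρ (Co.base y) (Co.base y')
  have hc := gp_comm (coPM M Y ρ hY hρ) b (Co.base y') (Co.apex i)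
  have hdef : (coPM M Y ρ hY hρ).gp (Co.base y) (Co.base y') (Co.apex i) =
      (ρ + ρ - (coPM M Y ρ hY hρ).d (Co.base y) (Co.base y')) / 2 := by
    unfold PM.gp
    rw [hd, hd']
  set g0 := (coPM M Y ρ hY hρ).gp a b (Co.apex i) with hg0
  set g := min ρ g0 with hgd
  have g1 : g ≤ g0 := min_le_right _ _
  have g2 : 2 * δ + 1 ≤ g := le_min (by linarith) hg
  have ga : g ≤ min ρ ((coPM M Y ρ hY hρ).d a (Co.apex i)) := min_le_min_left ρ la
  have gb : g ≤ min ρ ((coPM M Y ρ hY hρ).d b (Co.apex i)) := min_le_min_left ρ lb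
  have m1 : g - 1 / 2 ≤ min ((coPM M Y ρ hY hρ).gp (Co.base y) a (Co.apex i)) g0 :=
    le_min (by linarith) (by linarith)
  have m2 : g - 1 / 2 - δ ≤ min ((coPM M Y ρ hY hρ).gp (Co.base y) b (Co.apex i))
      ((coPM M Y ρ hY hρ).gp b (Co.base y') (Co.apex i)) :=
    le_min (by linarith) (by rw [hc]; linarith)
  have hle : (coPM M Y ρ hY hρ).d (Co.base y) (Co.base y') ≤ 2 * ρ - 2 * g + 1 + 4 * δ := by
    linarith
  have hB' : 2 * min ρ (max (max (0:ℝ) 0) (Real.log (M.d y y' / 2))) - 0 - 0 ≤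
      (coPM M Y ρ hY hρ).d (Co.base y) (Co.base y') := hB
  have hmin : min ρ (max (max (0:ℝ) 0) (Real.log (M.d y y' / 2))) ≤ ρ - g + 1 / 2 + 2 * δ := by
    linarith
  have hlog : Real.log (M.d y y' / 2) ≤ ρ - g + 1 / 2 + 2 * δ := by
    rcases min_le_iff.1 hmin with h | h
    · linarith
    · exact le_trans (le_max_right _ _) h
  rcases (M.nonneg y y').eq_or_lt with h0 | h0
  · rw [← h0]
    have := Real.exp_pos (ρ - g + 2 * δ + 1)
    linarith
  · have h3 : M.d y y' / 2 ≤ Real.exp (ρ - g + 1 / 2 + 2 * δ) := by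
      rw [← Real.log_le_iff_le_exp (by linarith)]
      exact hlog
    have h4 : Real.exp (ρ - g + 1 / 2 + 2 * δ) ≤ Real.exp (ρ - g + 2 * δ + 1) :=
      Real.exp_le_exp.2 (by linarith)
    linarith

/-- `thC` is bounded by the distance of any two entries. -/
theorem thC_le {δ : ℝ} {i : I} {a b : Co Y ρ} (ha : a ≠ Co.apex i) (hb : b ≠ Co.apex i) {y y' : X}
    (hy : y ∈ Ent M hY hρ i a) (hy' : y' ∈ Ent M hY hρ i b) :
    thC M hY hρ δ i a b ≤ M.d y y' / tt1 δ ρ := by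
  have ht : 0 < tt1 δ ρ := by
    unfold tt1
    have h1 := Real.exp_pos ρ
    have h2 := Real.exp_pos (5 * δ + 14)
    linarith
  unfold thC
  rw [if_neg (by rintro (h | h) <;> contradiction)]
  refine le_trans (min_le_right _ _) (div_le_div_of_nonneg_right ?_ ht.le)
  refine csInf_le ⟨0, ?_⟩ ⟨y, hy, y', hy', rfl⟩
  rintro t ⟨z, _, z', _, rfl⟩
  exact M.nonneg z z'

end C3

/-- **C3**: axiom (r3). -/
theorem burn_C3 (hB7 : stB7) (hB8 : stB8) (hC1 : stC1) : stC3 := by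
  intro X I M Y ρ δ hY hρ hH hδ hρδ i a b
  refine ⟨fun y hy y' hy' hg => C3.first hB7 hB8 hC1 hH hδ hρδ hy hy' hg, fun hg => ?_⟩
  have ha : a ≠ Co.apex i := by
    rintro rfl
    have h := C3.gp_le_left (coPM M Y ρ hY hρ) (Co.apex i) b (Co.apex i)
    rw [(coPM M Y ρ hY hρ).self] at h
    linarith
  have hb : b ≠ Co.apex i := by
    rintro rfl
    have h := C3.gp_le_right (coPM M Y ρ hY hρ) a (Co.apex i) (Co.apex i)
    rw [(coPM M Y ρ hY hρ).self] at h
    linarith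
  obtain ⟨_, _, _, h4⟩ := hC1 X I M Y ρ hY hρ i
  obtain ⟨y, hy⟩ := h4 a ha
  obtain ⟨y', hy'⟩ := h4 b hb
  have h1 := C3.first hB7 hB8 hC1 hH hδ hρδ hy hy' hg
  have h2 := C3.thC_le (δ := δ) ha hb hy hy'
  set g := min ρ ((coPM M Y ρ hY hρ).gp a b (Co.apex i)) with hgd
  have ht : 2 * Real.exp ρ ≤ tt1 δ ρ := by
    unfold tt1
    have h2 := Real.exp_pos (5 * δ + 14)
    linarith
  have hp := Real.exp_pos ρ
  refine le_trans h2 ?_
  rw [div_le_iff₀ (by linarith)]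
  have he : Real.exp (ρ - g + 2 * δ + 1) = Real.exp (-(g - (2 * δ + 1))) * Real.exp ρ := by
    rw [← Real.exp_add]
    congr 1
    ring
  have hpos := Real.exp_pos (-(g - (2 * δ + 1)))
  calc M.d y y' ≤ 2 * Real.exp (ρ - g + 2 * δ + 1) := h1
    _ = Real.exp (-(g - (2 * δ + 1))) * (2 * Real.exp ρ) := by rw [he]; ring
    _ ≤ Real.exp (-(g - (2 * δ + 1))) * tt1 δ ρ := mul_le_mul_of_nonneg_left ht hpos.le

end BSD
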