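import Pool.Agent.Lib.MP_8528c3_al.StC

/-!
# Burnside project, C4: axiom (r2), exactness
-/

namespace BSD

namespace C4

/-- partial sums -/
noncomputable def S {X : Type} (M : PM X) (z : ℕ → X) (k : ℕ) : ℝ :=
  ∑ i ∈ Finset.range k, M.d (z i) (z (i + 1))

theorem S_succ {X : Type} (M : PM X) (z : ℕ → X) (k : ℕ) :
    S M z (k + 1) = S M z k + M.d (z k) (z (k + 1)) :=
  Finset.sum_range_succ _ _

theorem S_zero {X : Type} (M : PM X) (z : ℕ → X) : S M z 0 = 0 := by simp [S]

theorem dist_le {X : Type} (M : PM X) (z : ℕ → X) {a b : ℕ} (hab : a ≤ b) :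
    M.d (z a) (z b) ≤ S M z b - S M z a := by
  obtain ⟨m, rfl⟩ := Nat.exists_eq_add_of_le hab
  clear hab
  induction m with
  | zero => rw [add_zero, M.self, sub_self]
  | succ m ih =>
    have h1 := M.tri (z a) (z (a + m)) (z (a + m + 1))
    have h2 := S_succ M z (a + m)
    rw [← add_assoc]
    linarith

/-- distance of base points from the cone-off metric -/
theorem baseB7 (hB7 : stB7) {X I : Type} {M : PM X} {Y : I → Set X} {ρ : ℝ}
    (hY : ∀ i, (Y i).Nonempty) (hρ : 0 ≤ ρ) {y y' : X} {L : ℝ} (hL : 0 ≤ L) (hL2 : L < 2 * ρ)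
    (h : (coPM M Y ρ hY hρ).d (Co.base y) (Co.base y') ≤ L) :
    M.d y y' ≤ 2 * Real.exp (L / 2) := by
  have y0 : I → X := fun i => (hY i).some
  have h1 := hB7 X I M Y ρ y0 hY hρ (Co.base y) (Co.base y')
  simp only [ht, bt, max_self, sub_zero] at h1
  have h2 : 2 * min ρ (max 0 (Real.log (M.d y y' / 2))) ≤ L := le_trans h1 h
  have h3 : Real.log (M.d y y' / 2) ≤ L / 2 := by
    rcases min_le_iff.1 (show min ρ (max 0 (Real.log (M.d y y' / 2))) ≤ L / 2 by linarith)
      with h4 | h4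
    · linarith
    · exact le_trans (le_max_right _ _) h4
  rcases (M.nonneg y y').eq_or_lt with h4 | h4
  · rw [← h4]; positivity
  · have h5 : M.d y y' / 2 ≤ Real.exp (L / 2) := by
      rw [← Real.exp_log (show 0 < M.d y y' / 2 by linarith)]
      exact Real.exp_le_exp.2 h3
    linarith

/-- a point of positive height is in the cone -/
theorem hti_pos {X I : Type} {Y : I → Set X} {ρ : ℝ} {i : I} {p : Co Y ρ} (h : 0 < hti i p)
    (hne : p ≠ Co.apex i) : ∃ y hy s h0 h1, p = Co.cone i y hy s h0 h1 := by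
  cases p with
  | base x => simp [hti] at h
  | cone j y hy s h0 h1 =>
    by_cases hj : j = i
    · subst hj; exact ⟨y, hy, s, h0, h1, rfl⟩
    · simp [hti, hj] at h
  | apex j =>
    by_cases hj : j = i
    · subst hj; exact absurd rfl hne
    · simp [hti, hj] at h

theorem first {X I : Type} {M : PM X} {Y : I → Set X} {ρ : ℝ}
    (hY : ∀ i, (Y i).Nonempty) (hρ : 0 ≤ ρ) (hB9 : stB9) (i : I) (z : ℕ → Co Y ρ) (j : ℕ)
    (hst : ∀ l < j, (coPM M Y ρ hY hρ).d (z l) (z (l + 1)) ≤ 2) (hj : 0 < hti i (z j)) :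
    ∃ j1 ≤ j, 0 < hti i (z j1) ∧ (j1 = 0 ∨ hti i (z j1) ≤ 2) := by
  induction j with
  | zero => exact ⟨0, le_rfl, hj, Or.inl rfl⟩
  | succ j ih =>
    rcases le_or_gt (hti i (z (j + 1))) 2 with h1 | h1
    · exact ⟨j + 1, le_rfl, hj, Or.inr h1⟩
    · have h2 := (hB9 X I M Y ρ hY hρ i (z j) (z (j + 1))).1
      have h3 := hst j (Nat.lt_succ_self j)
      have h4 := (abs_le.1 (le_trans h2 h3)).1
      obtain ⟨j1, h5, h6, h7⟩ := ih (fun l hl => hst l (Nat.lt_succ_of_lt hl)) (by linarith)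
      exact ⟨j1, Nat.le_succ_of_le h5, h6, h7⟩

/-- the entry of the sequence into the cone is close to an entry of its first point -/
theorem side (hB7 : stB7) (hB8 : stB8) (hB9 : stB9) (hC1 : stC1) (hC2 : stC2)
    {X I : Type} {M : PM X} {Y : I → Set X} {ρ δ : ℝ}
    (hY : ∀ i, (Y i).Nonempty) (hρ : 0 ≤ ρ) (hH : (coPM M Y ρ hY hρ).Hyp δ) (hδ : 1 ≤ δ)
    (hρ1 : 1000 * δ + 1000 ≤ ρ) (i : I) (a : Co Y ρ) (ha : a ≠ Co.apex i)
    (z : ℕ → Co Y ρ) (hz : z 0 = a) (j0 : ℕ)
    (hst : ∀ l < j0, (coPM M Y ρ hY hρ).d (z l) (z (l + 1)) ≤ 2)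
    (hadd : ∀ j ≤ j0, (coPM M Y ρ hY hρ).d a (z j) + (coPM M Y ρ hY hρ).d (z j) (z j0) ≤
      (coPM M Y ρ hY hρ).d a (z j0) + 1)
    (hV : (coPM M Y ρ hY hρ).d (z j0) (Co.apex i) ≤ 4 * δ + 8) :
    ∃ j1 ≤ j0, ∃ y1 hy s h0 h1, z j1 = Co.cone i y1 hy s h0 h1 ∧
      ∃ e ∈ Ent M hY hρ i a, M.d e y1 ≤ 2 * Real.exp (5 * δ + 14) := by
  classical
  have hht : ρ - (4 * δ + 8) ≤ hti i (z j0) := by
    have := (hB9 X I M Y ρ hY hρ i (z j0) (z j0)).2.1
    linarith
  obtain ⟨j1, hj1, hpos, hcase⟩ := first hY hρ hB9 i z j0 hst (by linarith)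
  have hne : z j1 ≠ Co.apex i := by
    intro h
    rcases hcase with h1 | h1
    · subst h1; exact ha (hz ▸ h)
    · rw [h] at h1
      simp only [hti, if_true] at h1
      linarith
  obtain ⟨y1, hy1, s, h0, h1, hzj⟩ := hti_pos hpos hne
  refine ⟨j1, hj1, y1, hy1, s, h0, h1, hzj, ?_⟩
  rcases hcase with hc | hc
  · subst hc
    refine ⟨y1, ⟨hy1, Or.inl ⟨hy1, s, h0, h1, ?_⟩⟩, ?_⟩
    · rw [← hz, hzj]
    · rw [M.self]; positivity
  -- the general case
  have hs2 : s ≤ 2 := by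
    rw [hzj] at hc
    simpa [hti] using hc
  have hb8 := hB8 X I M Y ρ (fun i => (hY i).some) hY hρ i
  have e1 : (coPM M Y ρ hY hρ).d (z j1) (Co.base y1) ≤ s := by
    rw [hzj]; exact hb8.2.2.2.1 y1 hy1 s h0 h1
  have e2 := hadd j1 hj1
  have e3 : ρ - (4 * δ + 8) - 2 ≤ (coPM M Y ρ hY hρ).d (z j1) (z j0) := by
    have h2 := (hB9 X I M Y ρ hY hρ i (z j1) (z j0)).1
    have h3 := (abs_le.1 h2).1
    linarith
  have e4 : (coPM M Y ρ hY hρ).d a (z j0) ≤ (coPM M Y ρ hY hρ).d a (Co.apex i) + (4 * δ + 8) := by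
    have h2 := (coPM M Y ρ hY hρ).tri a (Co.apex i) (z j0)
    have h3 := (coPM M Y ρ hY hρ).symm (Co.apex i) (z j0)
    linarith
  have e5 : (coPM M Y ρ hY hρ).d a (Co.base y1) ≤
      (coPM M Y ρ hY hρ).d a (Co.apex i) - ρ + (8 * δ + 21) := by
    have h2 := (coPM M Y ρ hY hρ).tri a (z j1) (Co.base y1)
    linarith
  by_cases hin : InC i a
  · -- `a` is in the cone
    have : ∃ ya hya sa h0a h1a, a = Co.cone i ya hya sa h0a h1a := by
      cases a with
      | base x => exact absurd hin (by simp [InC])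
      | cone j y hy t h0 h1 =>
        simp only [InC] at hin
        subst hin
        exact ⟨y, hy, t, h0, h1, rfl⟩
      | apex j =>
        simp only [InC] at hin
        subst hin
        exact absurd rfl ha
    obtain ⟨ya, hya, sa, h0a, h1a, rfl⟩ := this
    refine ⟨ya, ⟨hya, Or.inl ⟨hya, sa, h0a, h1a, rfl⟩⟩, ?_⟩
    have f1 := (hC1 X I M Y ρ hY hρ i).2.2.1 ya hya sa h0a h1a
    have f2 := hb8.2.2.2.1 ya hya sa h0a h1a
    have f3 := (coPM M Y ρ hY hρ).tri (Co.base ya) (Co.cone i ya hya sa h0a h1a) (Co.base y1)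
    have f4 := (coPM M Y ρ hY hρ).symm (Co.base ya) (Co.cone i ya hya sa h0a h1a)
    have f5 : M.d ya y1 ≤ 2 * Real.exp ((8 * δ + 21) / 2) :=
      baseB7 hB7 hY hρ (by linarith) (by linarith) (by linarith)
    refine le_trans f5 ?_
    have : Real.exp ((8 * δ + 21) / 2) ≤ Real.exp (5 * δ + 14) :=
      Real.exp_le_exp.2 (by linarith)
    linarith
  · obtain ⟨e, he⟩ := (hC1 X I M Y ρ hY hρ i).2.2.2 a ha
    refine ⟨e, he, ?_⟩
    obtain ⟨heY, he1⟩ := he
    have he2 : (coPM M Y ρ hY hρ).d a (Co.base e) ≤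
        (coPM M Y ρ hY hρ).d a (Co.apex i) - ρ + 1 := by
      rcases he1 with ⟨hy, t, g0, g1, rfl⟩ | h
      · exact absurd (by simp [InC]) hin
      · exact h.2
    have f1 := hC2 X I M Y ρ δ (8 * δ + 28) hY hρ hH (by linarith) (by linarith) (by linarith) i a
      e heY y1 hy1 (by linarith) (by linarith)
    have f2 : (8 * δ + 28 + 2 * δ) / 2 = 5 * δ + 14 := by ring
    rwa [f2] at f1

end C4

open C4 in
theorem burn_C4 (hA10 : stA10) (hB7 : stB7) (hB8 : stB8) (hB9 : stB9) (hC1 : stC1) (hC2 : stC2)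
    (hC3 : stC3) : stC4 := by
  classical
  intro X I M Y ρ δ hY hρ hH hSG hδ hρ1 i a b hth
  set N := coPM M Y ρ hY hρ with hN
  by_contra hne
  have htri := N.tri a (Co.apex i) b
  have hlt : N.d a b < N.d a (Co.apex i) + N.d (Co.apex i) b := lt_of_le_of_ne htri hne
  have ha : a ≠ Co.apex i := by
    rintro rfl
    rw [N.self, zero_add] at hlt
    exact lt_irrefl _ hlt
  have hb : b ≠ Co.apex i := by
    rintro rfl
    rw [N.self, add_zero] at hlt
    exact lt_irrefl _ hlt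
  have hg0 : N.gp a b (Co.apex i) < 2 * δ + 2 := by
    by_contra hcon
    push Not at hcon
    have h1 := (hC3 X I M Y ρ δ hY hρ hH hδ hρ1 i a b).2 (by linarith)
    have h2 : Real.exp (-(min ρ ((coPM M Y ρ hY hρ).gp a b (Co.apex i)) - (2 * δ + 1))) < 1 := by
      rw [Real.exp_lt_one_iff]
      have : 2 * δ + 2 ≤ min ρ ((coPM M Y ρ hY hρ).gp a b (Co.apex i)) :=
        le_min (by linarith) hcon
      linarith
    linarith
  set t := N.gp (Co.apex i) b a with ht
  set D := N.d a (Co.apex i) + N.d (Co.apex i) b with hD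
  have heta : 0 < min 1 ((D - N.d a b) / 2) := lt_min one_pos (by linarith)
  obtain ⟨n, z, hz0, hzn, hst, hsum⟩ := hSG a b _ heta
  change S N z n ≤ _ at hsum
  have hs1 : S N z n ≤ N.d a b + 1 := le_trans hsum (by
    have := min_le_left 1 ((D - N.d a b) / 2); linarith)
  have hs2 : S N z n < D := lt_of_le_of_lt hsum (by
    have := min_le_right 1 ((D - N.d a b) / 2); linarith)
  have ht0 : 0 ≤ t := by
    have h1 := N.tri (Co.apex i) a b
    rw [ht]; unfold PM.gp
    rw [N.symm b a]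
    linarith
  have htb : t ≤ N.d a b := by
    have h1 := N.tri (Co.apex i) b a
    rw [ht]; unfold PM.gp
    rw [N.symm b a] at h1 ⊢
    linarith
  set k := Nat.findGreatest (fun k => S N z k ≤ t) n with hk
  have hkn : k ≤ n := Nat.findGreatest_le n
  have hk1 : S N z k ≤ t :=
    Nat.findGreatest_spec (P := fun k => S N z k ≤ t) (Nat.zero_le n)
      (by change S N z 0 ≤ t; rw [S_zero]; exact ht0)
  have hak : ∀ j ≤ n, N.d a (z j) ≤ S N z j := by
    intro j hj
    have h1 := dist_le N z (Nat.zero_le j)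
    rwa [S_zero, sub_zero, hz0] at h1
  have hkb : ∀ j ≤ n, N.d (z j) b ≤ S N z n - S N z j := by
    intro j hj
    have h1 := dist_le N z hj
    rwa [hzn] at h1
  have hk2 : t - 2 ≤ S N z k := by
    rcases lt_or_eq_of_le hkn with h1 | h1
    · have h2 : ¬ S N z (k + 1) ≤ t :=
        Nat.findGreatest_is_greatest (P := fun k => S N z k ≤ t) (Nat.lt_succ_self k) h1
      have h3 := S_succ N z k
      have h4 := hst k h1
      push Not at h2
      linarith
    · have h2 := hak n le_rfl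
      rw [hzn] at h2
      rw [h1]
      linarith
  -- the distance to the apex
  have hV : N.d (z k) (Co.apex i) ≤ 4 * δ + 8 := by
    have h1 := (hA10 _ N δ hH a b (Co.apex i) (z k)).2
    have h2 := hak k hkn
    have h3 := hkb k hkn
    have h4 := N.tri a (z k) b
    have h5 : N.gp a b (z k) ≤ 1 / 2 := by
      unfold PM.gp
      rw [N.symm b (z k)]
      linarith
    have h6 : |N.gp (Co.apex i) b a - N.gp (z k) b a| ≤ 7 / 2 := by
      rw [← ht]
      have h7 : N.gp (z k) b a = N.d a (z k) - N.gp a b (z k) := by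
        unfold PM.gp
        rw [N.symm (z k) a, N.symm b a, N.symm b (z k)]
        ring
      have h8 : 0 ≤ N.gp a b (z k) := by
        unfold PM.gp
        rw [N.symm b (z k)]
        linarith
      rw [h7, abs_le]
      constructor <;> linarith
    have h9 := N.symm (Co.apex i) (z k)
    linarith
  -- additivity before and after `k`
  have hadd1 : ∀ j ≤ k, N.d a (z j) + N.d (z j) (z k) ≤ N.d a (z k) + 1 := by
    intro j hj
    have h1 := hak j (le_trans hj hkn)
    have h2 := dist_le N z hj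
    have h3 := hkb k hkn
    have h4 := N.tri a (z k) b
    linarith
  have hadd2 : ∀ j, k ≤ j → j ≤ n → N.d b (z j) + N.d (z j) (z k) ≤ N.d b (z k) + 1 := by
    intro j hj hjn
    have h1 := hkb j hjn
    have h2 := dist_le N z hj
    have h3 := hak k hkn
    have h4 := N.tri a (z k) b
    rw [N.symm b (z j), N.symm (z j) (z k), N.symm b (z k)]
    linarith
  obtain ⟨j1, hj1, y1, hy1, s1, h01, h11, hz1, e1, he1, hd1⟩ :=
    side hB7 hB8 hB9 hC1 hC2 hY hρ hH hδ hρ1 i a ha z hz0 k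
      (fun l hl => hst l (lt_of_lt_of_le hl hkn)) hadd1 hV
  obtain ⟨j2, hj2, y2, hy2, s2, h02, h12, hz2, e2, he2, hd2⟩ :=
    side hB7 hB8 hB9 hC1 hC2 hY hρ hH hδ hρ1 i b hb (fun l => z (n - l)) (by simpa using hzn)
      (n - k)
      (by
        intro l hl
        have h1 : n - l = (n - (l + 1)) + 1 := by omega
        have h2 := hst (n - (l + 1)) (by omega)
        show N.d (z (n - l)) (z (n - (l + 1))) ≤ 2
        rw [h1, N.symm]
        exact h2)
      (by
        intro j hj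
        have h1 : n - (n - k) = k := by omega
        show N.d b (z (n - j)) + N.d (z (n - j)) (z (n - (n - k))) ≤ N.d b (z (n - (n - k))) + 1
        rw [h1]
        exact hadd2 (n - j) (by omega) (by omega))
      (by
        have h1 : n - (n - k) = k := by omega
        show N.d (z (n - (n - k))) (Co.apex i) ≤ _
        rw [h1]; exact hV)
  have hz2' : z (n - j2) = Co.cone i y2 hy2 s2 h02 h12 := hz2
  have hb8 := hB8 X I M Y ρ (fun i => (hY i).some) hY hρ i
  have hy12 : M.d y1 y2 < 2 * Real.exp ρ := by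
    by_contra hcon
    push Not at hcon
    have f1 := hB7 X I M Y ρ (fun i => (hY i).some) hY hρ (z j1) (z (n - j2))
    rw [hz1, hz2'] at f1
    simp only [BSD.ht, bt] at f1
    have f2 : ρ ≤ Real.log (M.d y1 y2 / 2) := by
      rw [Real.le_log_iff_exp_le (by have := Real.exp_pos ρ; linarith)]
      linarith
    have f3 : min ρ (max (max s1 s2) (Real.log (M.d y1 y2 / 2))) = ρ :=
      min_eq_left (le_trans f2 (le_max_right _ _))
    rw [f3, ← hz1, ← hz2'] at f1
    have f4 : N.d (z j1) (Co.apex i) ≤ ρ - s1 := by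
      rw [hz1]; exact hb8.2.2.1 y1 hy1 s1 h01 h11
    have f5 : N.d (z (n - j2)) (Co.apex i) ≤ ρ - s2 := by
      rw [hz2']; exact hb8.2.2.1 y2 hy2 s2 h02 h12
    have f6 := hak j1 (le_trans hj1 hkn)
    have f7 := hkb (n - j2) (by omega)
    have f8 := dist_le N z (show j1 ≤ n - j2 by omega)
    have f9 := N.tri a (z j1) (Co.apex i)
    have f10 := N.tri (Co.apex i) (z (n - j2)) b
    have f11 := N.symm (Co.apex i) (z (n - j2))
    have f12 : 2 * ρ - s1 - s2 ≤ N.d (z j1) (z (n - j2)) := f1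
    linarith
  have hdd : M.d e1 e2 < tt1 δ ρ := by
    have f1 := M.tri e1 y1 e2
    have f2 := M.tri y1 y2 e2
    have f3 := M.symm e2 y2
    unfold tt1
    linarith
  have htt : 0 < tt1 δ ρ := lt_of_le_of_lt (M.nonneg e1 e2) hdd
  have hfin : thC M hY hρ δ i a b < 1 := by
    unfold thC
    rw [if_neg (by push Not; exact ⟨ha, hb⟩)]
    refine lt_of_le_of_lt (min_le_right _ _) ?_
    rw [div_lt_one htt]
    refine lt_of_le_of_lt (csInf_le ⟨0, ?_⟩ ⟨e1, he1, e2, he2, rfl⟩) hdd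
    rintro _ ⟨y, _, y', _, rfl⟩
    exact M.nonneg _ _
  linarith

end BSD
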