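import Pool.Agent.Lib.MP_8528c3_al.StC

/-!
# Burnside project, C5: positivity, symmetry and the triangle inequality of the angle
-/

namespace BSD

namespace C5

theorem tt1_pos (δ ρ : ℝ) : 0 < tt1 δ ρ := by
  unfold tt1
  positivity

theorem tt1_large (δ ρ : ℝ) (hδ : 1 ≤ δ) (hρδ : 1000 * δ + 1000 ≤ ρ) :
    2 * Real.exp ((1 + 2 * δ) / 2) ≤ tt1 δ ρ / 100 := by
  have h1 : Real.exp ρ = Real.exp (ρ - (1 + 2 * δ) / 2) * Real.exp ((1 + 2 * δ) / 2) := by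
    rw [← Real.exp_add]
    congr 1
    ring
  have h2 := Real.add_one_le_exp (ρ - (1 + 2 * δ) / 2)
  have h3 : (100 : ℝ) ≤ Real.exp (ρ - (1 + 2 * δ) / 2) := by linarith
  have h4 := Real.exp_pos ((1 + 2 * δ) / 2)
  have h5 := Real.exp_pos (5 * δ + 14)
  have h6 : 100 * Real.exp ((1 + 2 * δ) / 2) ≤ Real.exp ρ := by
    rw [h1]
    exact mul_le_mul_of_nonneg_right h3 h4.le
  unfold tt1
  linarith

variable {X I : Type} {M : PM X} {Y : I → Set X} {ρ δ : ℝ} {hY : ∀ i, (Y i).Nonempty} {hρ : 0 ≤ ρ}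

theorem ent_dist (h2 : stC2) (hyp : (coPM M Y ρ hY hρ).Hyp δ) (hδ : 1 ≤ δ)
    (hρδ : 1000 * δ + 1000 ≤ ρ) (i : I) (b : Co Y ρ) {y z : X} (hy : y ∈ Ent M hY hρ i b)
    (hz : z ∈ Ent M hY hρ i b) : M.d y z ≤ 2 * Real.exp ((1 + 2 * δ) / 2) := by
  by_cases hb : InC i b
  · obtain ⟨-, h3 | h3⟩ := hy
    · obtain ⟨-, h4 | h4⟩ := hz
      · obtain ⟨hy, s, h0, h1, rfl⟩ := h3
        obtain ⟨hz, s', h0', h1', h5⟩ := h4
        have h6 : y = z := by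
          injection h5
        rw [h6, M.self]
        positivity
      · exact absurd hb h4.1
    · exact absurd hb h3.1
  · have h3 : ∀ w ∈ Ent M hY hρ i b, w ∈ Y i ∧ (coPM M Y ρ hY hρ).d b (Co.base w) ≤
        (coPM M Y ρ hY hρ).d b (Co.apex i) - ρ + 1 := by
      rintro w ⟨hw, h4 | h4⟩
      · obtain ⟨hy, s, h0, h1, rfl⟩ := h4
        exact absurd rfl hb
      · exact ⟨hw, h4.2⟩
    have hy' := h3 y hy
    have hz' := h3 z hz
    exact h2 X I M Y ρ δ 1 hY hρ hyp (by linarith) (by norm_num) (by linarith) i b y hy'.1 z hz'.1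
      hy'.2 hz'.2

/-- the distances of entries -/
def DS (M : PM X) (hY : ∀ i, (Y i).Nonempty) (hρ : 0 ≤ ρ) (i : I) (a b : Co Y ρ) : Set ℝ :=
  {t | ∃ y ∈ Ent M hY hρ i a, ∃ y' ∈ Ent M hY hρ i b, t = M.d y y'}

theorem ds_nonneg (i : I) (a b : Co Y ρ) : 0 ≤ sInf (DS M hY hρ i a b) := by
  refine Real.sInf_nonneg ?_
  rintro _ ⟨y, _, z, _, rfl⟩
  exact M.nonneg _ _

theorem ds_bdd (i : I) (a b : Co Y ρ) : BddBelow (DS M hY hρ i a b) := by
  refine ⟨0, ?_⟩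
  rintro _ ⟨y, _, z, _, rfl⟩
  exact M.nonneg _ _

theorem ds_comm (i : I) (a b : Co Y ρ) : DS M hY hρ i a b = DS M hY hρ i b a := by
  ext t
  constructor
  · rintro ⟨y, hy, z, hz, rfl⟩
    exact ⟨z, hz, y, hy, M.symm _ _⟩
  · rintro ⟨y, hy, z, hz, rfl⟩
    exact ⟨z, hz, y, hy, M.symm _ _⟩

theorem thC_apex {i : I} {a b : Co Y ρ} (h : a = Co.apex i ∨ b = Co.apex i) :
    thC M hY hρ δ i a b = 100 := by
  unfold thC
  rw [if_pos h]

theorem thC_not {i : I} {a b : Co Y ρ} (ha : a ≠ Co.apex i) (hb : b ≠ Co.apex i) :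
    thC M hY hρ δ i a b = min 100 (sInf (DS M hY hρ i a b) / tt1 δ ρ) := by
  unfold thC
  rw [if_neg (not_or.2 ⟨ha, hb⟩)]
  rfl

theorem thC_nonneg (i : I) (a b : Co Y ρ) : 0 ≤ thC M hY hρ δ i a b := by
  by_cases h : a = Co.apex i ∨ b = Co.apex i
  · rw [thC_apex h]
    norm_num
  · obtain ⟨ha, hb⟩ := not_or.1 h
    rw [thC_not ha hb]
    exact le_min (by norm_num) (div_nonneg (ds_nonneg i a b) (tt1_pos δ ρ).le)

theorem thC_le (i : I) (a b : Co Y ρ) : thC M hY hρ δ i a b ≤ 100 := by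
  by_cases h : a = Co.apex i ∨ b = Co.apex i
  · rw [thC_apex h]
  · obtain ⟨ha, hb⟩ := not_or.1 h
    rw [thC_not ha hb]
    exact min_le_left _ _

theorem thC_comm (i : I) (a b : Co Y ρ) : thC M hY hρ δ i a b = thC M hY hρ δ i b a := by
  by_cases h : a = Co.apex i ∨ b = Co.apex i
  · rw [thC_apex h, thC_apex h.symm]
  · obtain ⟨ha, hb⟩ := not_or.1 h
    rw [thC_not ha hb, thC_not hb ha, ds_comm]

theorem ds_tri (h1 : stC1) (h2 : stC2) (hyp : (coPM M Y ρ hY hρ).Hyp δ) (hδ : 1 ≤ δ)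
    (hρδ : 1000 * δ + 1000 ≤ ρ) {i : I} {a b c : Co Y ρ} (ha : a ≠ Co.apex i)
    (hb : b ≠ Co.apex i) (hc : c ≠ Co.apex i) :
    sInf (DS M hY hρ i a c) ≤ sInf (DS M hY hρ i a b) + sInf (DS M hY hρ i b c) +
      2 * Real.exp ((1 + 2 * δ) / 2) := by
  have hne : ∀ w : Co Y ρ, w ≠ Co.apex i → (Ent M hY hρ i w).Nonempty :=
    (h1 X I M Y ρ hY hρ i).2.2.2
  obtain ⟨ya, hya⟩ := hne a ha
  obtain ⟨yb, hyb⟩ := hne b hb
  obtain ⟨yc, hyc⟩ := hne c hc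
  refine le_of_forall_pos_le_add fun η hη => ?_
  obtain ⟨_, ⟨y, hy, y', hy', rfl⟩, h3⟩ := exists_lt_of_csInf_lt
    (s := DS M hY hρ i a b) ⟨_, ya, hya, yb, hyb, rfl⟩
    (lt_add_of_pos_right (sInf (DS M hY hρ i a b)) (half_pos hη))
  obtain ⟨_, ⟨y'', hy'', z, hz, rfl⟩, h4⟩ := exists_lt_of_csInf_lt
    (s := DS M hY hρ i b c) ⟨_, yb, hyb, yc, hyc, rfl⟩
    (lt_add_of_pos_right (sInf (DS M hY hρ i b c)) (half_pos hη))
  have h5 := ent_dist h2 hyp hδ hρδ i b hy' hy''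
  have h6 : sInf (DS M hY hρ i a c) ≤ M.d y z := csInf_le (ds_bdd i a c) ⟨y, hy, z, hz, rfl⟩
  have h7 := M.tri y y' z
  have h8 := M.tri y' y'' z
  linarith

end C5

open C5 in
theorem burn_C5 (h1 : stC1) (h2 : stC2) : stC5 := by
  intro X I M Y ρ δ hY hρ hyp hδ hρδ i
  refine ⟨fun a b => thC_nonneg i a b, fun a b => thC_comm i a b, fun a b c => ?_⟩
  have hab : 0 ≤ thC M hY hρ δ i a b := thC_nonneg i a b
  have hbc : 0 ≤ thC M hY hρ δ i b c := thC_nonneg i b c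
  have hac : thC M hY hρ δ i a c ≤ 100 := thC_le i a c
  by_cases ha : a = Co.apex i
  · have h3 : thC M hY hρ δ i a b = 100 := thC_apex (Or.inl ha)
    linarith
  by_cases hc : c = Co.apex i
  · have h3 : thC M hY hρ δ i b c = 100 := thC_apex (Or.inr hc)
    linarith
  by_cases hb : b = Co.apex i
  · have h3 : thC M hY hρ δ i a b = 100 := thC_apex (Or.inr hb)
    linarith
  rcases le_total 100 (sInf (DS M hY hρ i a b) / tt1 δ ρ) with h3 | h3
  · have h4 : thC M hY hρ δ i a b = 100 := by rw [thC_not ha hb, min_eq_left h3]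
    linarith
  rcases le_total 100 (sInf (DS M hY hρ i b c) / tt1 δ ρ) with h4 | h4
  · have h5 : thC M hY hρ δ i b c = 100 := by rw [thC_not hb hc, min_eq_left h4]
    linarith
  rw [thC_not ha hb, thC_not hb hc, thC_not ha hc, min_eq_right h3, min_eq_right h4]
  refine (min_le_right _ _).trans ?_
  have h5 := ds_tri (M := M) (hY := hY) (hρ := hρ) h1 h2 hyp hδ hρδ ha hb hc
  have h6 := tt1_large δ ρ hδ hρδ
  have h7 := tt1_pos δ ρ
  rw [div_le_iff₀ h7, add_mul, add_mul, div_mul_cancel₀ _ h7.ne', div_mul_cancel₀ _ h7.ne']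
  linarith

end BSD
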