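import Pool.Agent.Lib.MP_8528c3_al.StC

/-!
# Burnside project, C6: the apexes of the cone-off form a rotation family (assembly)
-/

namespace BSD

namespace C6

theorem tt1_pos (δ ρ : ℝ) : 0 < tt1 δ ρ := by
  unfold tt1
  have h1 := Real.exp_pos ρ
  have h2 := Real.exp_pos (5 * δ + 14)
  linarith

theorem le_tt1 {δ ρ : ℝ} (h : (1 + 2 * δ) / 2 ≤ ρ) :
    2 * Real.exp ((1 + 2 * δ) / 2) ≤ tt1 δ ρ := by
  unfold tt1
  have h1 := Real.exp_le_exp.2 h
  have h2 := Real.exp_pos (5 * δ + 14)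
  linarith

/-- Entries of the same point into a cone are close. -/
theorem ent_close (hC2 : stC2) {X I : Type} (M : PM X) {Y : I → Set X} {ρ δ : ℝ}
    (hY : ∀ i, (Y i).Nonempty) (hρ : 0 ≤ ρ) (hH : (coPM M Y ρ hY hρ).Hyp δ) (hδ : 1 ≤ δ)
    (hr : 1000 * δ + 1000 ≤ ρ) (i : I) (a : Co Y ρ) {y y' : X} (hy : y ∈ Ent M hY hρ i a)
    (hy' : y' ∈ Ent M hY hρ i a) : M.d y y' ≤ 2 * Real.exp ((1 + 2 * δ) / 2) := by
  obtain ⟨h1, h2⟩ := hy
  obtain ⟨h1', h2'⟩ := hy'
  rcases h2 with ⟨hy, s, h0, hs, rfl⟩ | ⟨hn, hd⟩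
  · rcases h2' with ⟨hy', s', h0', hs', he⟩ | ⟨hn', -⟩
    · injection he with e1 e2 e3
      rw [e2, M.self]
      positivity
    · exact absurd (show InC i (Co.cone i y hy s h0 hs : Co Y ρ) from rfl) hn'
  · rcases h2' with ⟨hy', s', h0', hs', he⟩ | ⟨hn', hd'⟩
    · rw [he] at hn
      exact absurd (show InC i (Co.cone i y' hy' s' h0' hs' : Co Y ρ) from rfl) hn
    · exact hC2 X I M Y ρ δ 1 hY hρ hH (by linarith) zero_le_one (by linarith) i a y h1 y' h1'
        hd hd'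

end C6

open C6 in
/-- C6: assembly, the apexes form a rotation family. -/
theorem burn_C6 (hB9 : stB9) (hC0 : stC0) (hC1 : stC1) (hC2 : stC2) (hC3 : stC3) (hC4 : stC4)
    (hC5 : stC5) : stC6 := by
  intro G X I _ _ _ M Y ρ δ hY hρ hg R hiso hH hSG hδ hr hconj hfix hbig
  obtain ⟨c1, c2, c3, c4, c5, -, -⟩ := hC0 G X I M Y ρ hY hρ hg hiso
  let _ := coAct ρ hg
  have hent : ∀ (g : G) (i : I) (a : Co Y ρ) (y : X), y ∈ Ent M hY hρ i a →
      g • y ∈ Ent M hY hρ (g • i) (g • a) := by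
    rintro g i a y ⟨h1, h2⟩
    refine ⟨hg g i y h1, ?_⟩
    rcases h2 with ⟨hy, s, h0, hs, rfl⟩ | ⟨hn, hd⟩
    · exact Or.inl ⟨hg g i y hy, s, h0, hs, c4 g i y hy s h0 hs⟩
    · refine Or.inr ⟨fun h => hn ((c5 g i a).1 h), ?_⟩
      rw [← c2, ← c3, c1, c1]
      exact hd
  have hent' : ∀ (g : G) (i : I) (a : Co Y ρ) (y : X), y ∈ Ent M hY hρ (g • i) (g • a) →
      ∃ z ∈ Ent M hY hρ i a, y = g • z := by
    intro g i a y hy
    have h1 := hent g⁻¹ (g • i) (g • a) y hy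
    rw [inv_smul_smul, inv_smul_smul] at h1
    exact ⟨g⁻¹ • y, h1, (smul_inv_smul g y).symm⟩
  have hapex : ∀ (g : G) (i : I) (a : Co Y ρ), g • a = Co.apex (g • i) ↔ a = Co.apex i := by
    intro g i a
    rw [← c3]
    constructor
    · intro h
      have h2 := congrArg (fun p : Co Y ρ => g⁻¹ • p) h
      simpa only [inv_smul_smul] using h2
    · rintro rfl
      rfl
  have hC5' := hC5 X I M Y ρ δ hY hρ hH hδ hr
  refine ⟨c1, fun g i => (c3 g i).symm, hconj, hfix, fun i => (hC5' i).1, fun i => (hC5' i).2.1,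
    ?_, ?_, fun i => (hC5' i).2.2, ?_, ?_, ?_⟩
  · intro g i a b
    unfold thC
    have hset : {t | ∃ y ∈ Ent M hY hρ (g • i) (g • a), ∃ y' ∈ Ent M hY hρ (g • i) (g • b),
        t = M.d y y'} = {t | ∃ y ∈ Ent M hY hρ i a, ∃ y' ∈ Ent M hY hρ i b, t = M.d y y'} := by
      ext t
      constructor
      · rintro ⟨y, hy, y', hy', rfl⟩
        obtain ⟨z, hz, rfl⟩ := hent' g i a y hy
        obtain ⟨z', hz', rfl⟩ := hent' g i b y' hy'
        exact ⟨z, hz, z', hz', hiso g z z'⟩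
      · rintro ⟨y, hy, y', hy', rfl⟩
        exact ⟨g • y, hent g i a y hy, g • y', hent g i b y' hy', (hiso g y y').symm⟩
    have hor : (g • a = Co.apex (g • i) ∨ g • b = Co.apex (g • i)) ↔
        (a = Co.apex i ∨ b = Co.apex i) := or_congr (hapex g i a) (hapex g i b)
    rw [hset]
    by_cases hc : a = Co.apex i ∨ b = Co.apex i
    · rw [if_pos hc, if_pos (hor.2 hc)]
    · rw [if_neg hc, if_neg fun h => hc (hor.1 h)]
  · intro i j hij
    exact (hB9 X I M Y ρ hY hρ j (Co.apex j) (Co.apex j)).2.2.2 i hij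
  · intro i a b h
    exact hC4 X I M Y ρ δ hY hρ hH hSG hδ hr i a b h
  · intro i a b h
    exact (hC3 X I M Y ρ δ hY hρ hH hδ hr i a b).2 h
  · intro i h hh h1 a
    unfold thC
    split_ifs with hap
    · exact le_rfl
    · rw [not_or] at hap
      refine le_min le_rfl ?_
      rw [le_div_iff₀ (tt1_pos δ ρ)]
      have hne1 := (hC1 X I M Y ρ hY hρ i).2.2.2 a hap.1
      have hne2 := (hC1 X I M Y ρ hY hρ i).2.2.2 (h • a) hap.2
      refine le_csInf ?_ ?_
      · obtain ⟨y, hy⟩ := hne1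
        obtain ⟨y', hy'⟩ := hne2
        exact ⟨_, y, hy, y', hy', rfl⟩
      · rintro t ⟨y, hy, y', hy', rfl⟩
        have hy2 : y' ∈ Ent M hY hρ (h • i) (h • a) := by
          rw [hfix i h hh]
          exact hy'
        obtain ⟨z, hz, rfl⟩ := hent' h i a y' hy2
        have e1 := hbig i h hh h1 y hy.1
        have e2 := ent_close hC2 M hY hρ hH hδ hr i a hy hz
        have e3 : 2 * Real.exp ((1 + 2 * δ) / 2) ≤ tt1 δ ρ := le_tt1 (by linarith)
        have e4 := hiso h z y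
        have e5 := M.tri y (h • z) (h • y)
        have e6 := M.symm z y
        linarith

end BSD
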