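import Pool.Agent.Lib.MP_8528c3_al.StC

/-!
# Burnside project, C7: gates and entries.
-/

namespace BSD

namespace C7

theorem hh_lt {X I : Type} {M : PM X} {Y : I → Set X} {ρ : ℝ} {π : I → X → X} {y0 : I → X}
    (hTH : TH M Y) (hPr : Pr M Y π y0) (h4 : stB4) (i : I) (a : X) (j : I) :
    hh M π y0 j (Co.base a : Co Y ρ) (Co.apex i) (Co.base (π i a)) < 1 := by
  by_cases hj : j = i
  · subst hj
    have h1 : uu M π y0 j (Co.base a : Co Y ρ) (Co.base (π j a)) ≤ 0 := by
      unfold uu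
      refine le_trans (min_le_right _ _) ?_
      have e : π j (π j a) = π j a := hPr.fix j _ (hPr.mem j a)
      simp only [bt, hti, e, M.self, zero_div, Real.log_zero, max_self, le_refl]
    have h2 : hh M π y0 j (Co.base a : Co Y ρ) (Co.apex j) (Co.base (π j a)) ≤
        uu M π y0 j (Co.base a : Co Y ρ) (Co.base (π j a)) :=
      le_trans (min_le_right _ _) (min_le_right _ _)
    linarith
  · have h1 : uu M π y0 j (Co.apex i : Co Y ρ) (Co.base (π i a)) ≤ 0 := by
      unfold uu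
      refine le_trans (min_le_right _ _) ?_
      have e1 : hti j (Co.apex i : Co Y ρ) = 0 := by
        simp only [hti]
        rw [if_neg (fun h => hj h.symm)]
      have e2 : M.d (π j (y0 i)) (π j (π i a)) ≤ 21 / 100 :=
        h4 X I M Y π y0 hTH hPr j i hj _ (hPr.y0 i) _ (hPr.mem i a)
      have e3 : Real.log (M.d (π j (y0 i)) (π j (π i a)) / 2) ≤ 0 :=
        Real.log_nonpos (by have := M.nonneg (π j (y0 i)) (π j (π i a)); linarith) (by linarith)
      rw [e1]
      simp only [bt, hti]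
      exact max_le (max_le le_rfl le_rfl) e3
    have h2 : hh M π y0 j (Co.base a : Co Y ρ) (Co.apex i) (Co.base (π i a)) ≤
        uu M π y0 j (Co.apex i : Co Y ρ) (Co.base (π i a)) :=
      le_trans (min_le_right _ _) (min_le_left _ _)
    linarith

end C7

theorem burn_C7 (_h6 : stA6) (h7 : stA7) (h2 : stB2) (h4 : stB4) (h8 : stB8) (h12 : stB12)
    (hc1 : stC1) (hc2 : stC2) : stC7 := by
  intro X I M Y ρ δ T hY hρ π y0 hρ20 hTH hPr hHyp hδ hT hMed hTρ i a
  have key : ∀ a : X, ∀ y ∈ Ent M hY hρ i (Co.base a : Co Y ρ),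
      M.d y (π i a) ≤ 2 * Real.exp (T + 1 + δ) := by
    intro a y hy
    set Z := coPM M Y ρ hY hρ with hZ
    obtain ⟨p, hp⟩ := (h12 X I M Y ρ π y0 hρ20 hTH hPr).1 (Co.base a) (Co.apex i)
      (Co.base (π i a))
    have hlt := C7.hh_lt (ρ := ρ) hTH hPr h4 i a
    have hgp := hMed _ _ _ _ hp
    rcases hp with ⟨j, hj, _⟩ | ⟨_, o, rfl, ho1, ho2, ho3⟩
    · exact absurd (hlt j) (not_lt.2 hj)
    · simp only [bt] at ho1 ho2 ho3
      have hq : π i a ∈ Y i := hPr.mem i a
      have g1 : M.gp a (y0 i) (π i a) ≤ 8 / 100 := h2 X I M Y π y0 hTH hPr i a _ (hPr.y0 i)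
      have g2 : M.gp (y0 i) (π i a) (π i a) ≤ 8 / 100 := by
        unfold PM.gp
        rw [M.self]
        linarith
      have g3 : M.gp a (π i a) (π i a) ≤ 8 / 100 := by
        unfold PM.gp
        rw [M.self]
        linarith
      have hd : M.d (π i a) o ≤ 8 / 100 + 2 * (1 / 20) + 2 * (1 / 100) :=
        h7 X M (1 / 100) (1 / 20) (8 / 100) hTH.hyp a (y0 i) (π i a) o (π i a) ho1 ho2 ho3
          g1 g2 g3
      have hd2 : Z.d (Co.base (π i a)) (Co.base o) ≤ M.d (π i a) o :=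
        (h8 X I M Y ρ y0 hY hρ i).1 _ _
      have t1 := Z.tri (Co.base a) (Co.base o) (Co.base (π i a))
      have t2 := Z.tri (Co.apex i) (Co.base o) (Co.base (π i a))
      have t3 := Z.symm (Co.base o) (Co.base (π i a))
      have t4 := Z.symm (Co.apex i) (Co.base (π i a))
      have t5 : Z.d (Co.base (π i a)) (Co.apex i) = ρ := (hc1 X I M Y ρ hY hρ i).2.1 _ hq
      unfold PM.gp at hgp
      have hfin : Z.d (Co.base a) (Co.base (π i a)) ≤
          Z.d (Co.base a) (Co.apex i) - ρ + (2 * T + 2) := by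
        linarith
      obtain ⟨hyY, hy2⟩ := hy
      have hy3 : Z.d (Co.base a) (Co.base y) ≤ Z.d (Co.base a) (Co.apex i) - ρ + (2 * T + 2) := by
        rcases hy2 with ⟨_, s, h0, h1, hc⟩ | ⟨_, hy3⟩
        · cases hc
        · have : Z.d (Co.base a) (Co.base y) ≤ Z.d (Co.base a) (Co.apex i) - ρ + 1 := hy3
          linarith
      have := hc2 X I M Y ρ δ (2 * T + 2) hY hρ hHyp (by linarith) (by linarith) (by linarith)
        i (Co.base a) y hyY (π i a) hq hy3 hfin
      have e : (2 * T + 2 + 2 * δ) / 2 = T + 1 + δ := by ring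
      rwa [e] at this
  refine ⟨key a, fun b => ?_⟩
  have hpos : 0 < tt1 δ ρ := by
    unfold tt1
    have h1 := Real.exp_pos ρ
    have h2 := Real.exp_pos (5 * δ + 14)
    linarith
  obtain ⟨y, hy⟩ := (hc1 X I M Y ρ hY hρ i).2.2.2 (Co.base a : Co Y ρ) (by intro h; cases h)
  obtain ⟨y', hy'⟩ := (hc1 X I M Y ρ hY hρ i).2.2.2 (Co.base b : Co Y ρ) (by intro h; cases h)
  have k1 := key a y hy
  have k2 := key b y' hy'
  have hs : sInf {t | ∃ y ∈ Ent M hY hρ i (Co.base a : Co Y ρ),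
      ∃ y' ∈ Ent M hY hρ i (Co.base b : Co Y ρ), t = M.d y y'} ≤ M.d y y' := by
    refine csInf_le ⟨0, ?_⟩ ⟨y, hy, y', hy', rfl⟩
    rintro t ⟨u, _, u', _, rfl⟩
    exact M.nonneg _ _
  have t1 := M.tri y (π i a) y'
  have t2 := M.tri (π i a) (π i b) y'
  have t3 := M.symm (π i b) y'
  unfold thC
  rw [if_neg (by rintro (h | h) <;> cases h)]
  refine le_trans (min_le_right _ _) ?_
  refine div_le_div_of_nonneg_right ?_ hpos.le
  linarith

end BSD
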