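import Pool.Agent.Lib.MP_8528c3_al.StD

/-!
# Burnside project, D10: the quotient is hyperbolic with the same constant
-/

set_option autoImplicit false

namespace BSD

namespace D10

/-- The four point condition implies hyperbolicity with the same constant. -/
theorem hyp_of_four {X : Type} (M : PM X) (δ : ℝ)
    (h : ∀ x y z w, M.d x z + M.d y w ≤
      max (M.d x y + M.d z w) (M.d x w + M.d y z) + 2 * δ) : M.Hyp δ := by
  intro x y z w
  have h1 := h x y z w
  unfold PM.gp
  rcases max_cases (M.d x y + M.d z w) (M.d x w + M.d y z) with ⟨h2, -⟩ | ⟨h2, -⟩ <;>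
    rw [h2] at h1
  · have h3 := min_le_left ((M.d x w + M.d y w - M.d x y) / 2) ((M.d y w + M.d z w - M.d y z) / 2)
    linarith
  · have h3 := min_le_right ((M.d x w + M.d y w - M.d x y) / 2) ((M.d y w + M.d z w - M.d y z) / 2)
    linarith

end D10

theorem burn_D10 (hA9 : stA9) (hD9 : stD9) : stD10 := by
  intro G Z I _ _ _ M v R θ ρ C δ hW iso
  refine D10.hyp_of_four _ δ fun x y z w => ?_
  change dqf M (KK R) x z + dqf M (KK R) y w ≤ max (dqf M (KK R) x y + dqf M (KK R) z w)
    (dqf M (KK R) x w + dqf M (KK R) y z) + 2 * δ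
  refine le_of_forall_pos_le_add fun η hη => ?_
  obtain ⟨k2, h2, k3, h3, k4, h4, e1, e2, e3, e4⟩ := hD9 G Z I M v R θ ρ C δ hW x y z w (η / 2)
    (half_pos hη)
  have h5 := hA9 Z M δ hW.hyp x (k2 • y) (k3 • z) (k4 • w)
  have h6 := dqf_le M (KK R) x z h3
  have h7 := dqf_le M (KK R) y w ((KK R).mul_mem ((KK R).inv_mem h2) h4)
  rw [mul_smul, ← iso k2 y, smul_inv_smul] at h7
  have h8 : dqf M (KK R) w x = dqf M (KK R) x w := (dqPM M (KK R) iso).symm w x
  rw [h8, M.symm] at e4
  rcases max_cases (M.d x (k2 • y) + M.d (k3 • z) (k4 • w))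
    (M.d x (k4 • w) + M.d (k2 • y) (k3 • z)) with ⟨h9, -⟩ | ⟨h9, -⟩ <;> rw [h9] at h5
  · have := le_max_left (dqf M (KK R) x y + dqf M (KK R) z w)
      (dqf M (KK R) x w + dqf M (KK R) y z)
    linarith
  · have := le_max_right (dqf M (KK R) x y + dqf M (KK R) z w)
      (dqf M (KK R) x w + dqf M (KK R) y z)
    linarith

end BSD
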