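import Pool.Agent.Lib.MP_8528c3_al.StD

/-!
# Burnside project, D11: unshortenable pairs
-/

namespace BSD

theorem burn_D11 (hD7 : stD7) : stD11 := by
  intro G Z I _ _ _ M v R θ ρ C δ hW a b hab
  have hδ := hW.hδ
  have hC := hW.hC
  have hρ := hW.hρ
  have hpos : 0 < 2 * (ρ - (7 * δ + 5)) := by linarith
  have claim : ∀ n : ℕ, ∀ k ∈ KK R, M.d b (k • b) < n * (2 * (ρ - (7 * δ + 5))) →
      M.d a b ≤ M.d a (k • b) := by
    intro n
    induction n with
    | zero =>
      intro k _ h
      have := M.nonneg b (k • b)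
      rw [Nat.cast_zero, zero_mul] at h
      linarith
    | succ n ih =>
      intro k hk h
      by_cases hk1 : k = 1
      · rw [hk1, one_smul]
      obtain ⟨-, i, u, hu, h90, hor⟩ := hD7 G Z I M v R θ ρ C δ hW k hk hk1 b
      have r1 := hW.rf.r1 i b a (k • b)
      have sy := hW.rf.sy i b a
      have hi := hab i
      have h1 : 1 ≤ θ i a (k • b) := by linarith
      have r2 := hW.rf.r2 i a (k • b) h1
      have hV : u • v i = v i := by rw [← hW.rf.vg, hW.rf.fix i u hu]
      have e1 : M.d (v i) (k • b) = M.d (v i) ((u * k) • b) := by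
        rw [mul_smul]
        nth_rewrite 2 [← hV]
        rw [hW.rf.iso]
      have t := M.tri a (v i) ((u * k) • b)
      have key : M.d a ((u * k) • b) ≤ M.d a (k • b) := by linarith
      rcases hor with h' | h'
      · rw [h', one_smul] at key
        exact key
      · have huK : u ∈ KK R := Subgroup.subset_closure ⟨i, hu⟩
        have := ih (u * k) ((KK R).mul_mem huK hk) (by
          rw [Nat.cast_succ, add_mul, one_mul] at h
          linarith)
        linarith
  refine le_antisymm ?_ (le_dqf M (KK R) a b fun k hk => ?_)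
  · have h := dqf_le M (KK R) a b (KK R).one_mem
    rwa [one_smul] at h
  · obtain ⟨n, hn⟩ := exists_nat_gt (M.d b (k • b) / (2 * (ρ - (7 * δ + 5))))
    exact claim n k hk ((div_lt_iff₀ hpos).1 hn)

end BSD
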