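import Pool.Agent.Lib.MP_8528c3_al.StD

/-!
# Burnside project, D12: two good lifts
-/

namespace BSD

namespace D12

variable {G Z I : Type} [Group G] [MulAction G Z] [MulAction G I] {M : PM Z} {v : I → Z}
  {R : I → Subgroup G} {θ : I → Z → Z → ℝ} {ρ C : ℝ}

theorem gp_zero (H : RF M v R θ ρ C) {i : I} {a b : Z} (h : 1 ≤ θ i a b) :
    M.gp a b (v i) = 0 := by
  have h1 := H.r2 i a b h
  have h2 := M.symm (v i) b
  unfold PM.gp
  linarith

theorem one_of (H : RF M v R θ ρ C) {i : I} {a b c : Z} (h : 90 ≤ θ i b c) :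
    1 ≤ θ i a b ∨ 1 ≤ θ i a c := by
  have h1 := H.r1 i b a c
  have h2 := H.sy i b a
  by_contra hcon
  push Not at hcon
  linarith [hcon.1, hcon.2]

end D12

open D12 in
/-- D12. -/
theorem burn_D12 (h7 : stD7) : stD12 := by
  intro G Z I _ _ _ M v R θ ρ C δ H a b C' k hk hk1 hC' hd hCρ
  have hRF := H.rf
  have hδ := H.hδ
  have key : ((∃ i, k ∈ R i ∧ M.d b (v i) < ρ ∧
      (M.gp a b (v i) = 0 ∨ M.gp a (k • b) (v i) = 0)) ∨
    (∃ i, ∃ h ∈ R i, ρ ≤ M.d b (v i) ∧ 90 ≤ θ i b (k • b) ∧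
      ρ - (7 * δ + 5) ≤ M.gp b ((h * k) • b) (v i) ∧ M.gp a b (v i) ≤ C' / 2 + δ ∧
      (M.gp a b (v i) = 0 ∨ M.gp a (k • b) (v i) = 0))) := by
    rcases (h7 G Z I M v R θ ρ C δ H k hk hk1 b).1 with ⟨i, hi, hdi⟩ | ⟨i, h, hh, h1, h2, h3⟩
    · left
      refine ⟨i, hi, hdi, ?_⟩
      have h1 := hRF.r4 i k hi hk1 b
      rcases one_of hRF (a := a) (by linarith : (90 : ℝ) ≤ θ i b (k • b)) with h2 | h2
      · exact Or.inl (gp_zero hRF h2)
      · exact Or.inr (gp_zero hRF h2)
    · right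
      refine ⟨i, h, hh, h1, h2, h3, ?_⟩
      rcases one_of hRF (a := a) h2 with h4 | h4
      · have h5 := gp_zero hRF h4
        exact ⟨by rw [h5]; linarith, Or.inl h5⟩
      · refine ⟨?_, Or.inr (gp_zero hRF h4)⟩
        have h5 := hRF.r2 i a (k • b) h4
        -- `h` fixes the apex
        have h6 : M.d (v i) (k • b) = M.d ((h * k) • b) (v i) := by
          have h7 := hRF.iso h (v i) (k • b)
          rw [← hRF.vg, hRF.fix i h hh, ← mul_smul] at h7
          rw [← h7, M.symm]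
        have hhK : h * k ∈ KK R :=
          (KK R).mul_mem (Subgroup.subset_closure ⟨i, hh⟩) hk
        have h7 := dqf_le M (KK R) a b hhK
        have h8 : M.gp a ((h * k) • b) (v i) ≤ C' / 2 := by
          unfold PM.gp
          linarith
        have h9 := H.hyp a b ((h * k) • b) (v i)
        have h10 : min (M.gp a b (v i)) (M.gp b ((h * k) • b) (v i)) ≤ C' / 2 + δ := by
          linarith
        rcases min_le_iff.1 h10 with h11 | h11
        · exact h11
        · linarith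
  refine ⟨key, ?_⟩
  have hpos : 0 ≤ C' / 2 + δ := by linarith
  rcases key with ⟨i, -, -, h⟩ | ⟨i, _, -, -, -, -, -, h⟩
  · refine ⟨i, ?_⟩
    rcases h with h | h
    · exact (min_le_left _ _).trans (by rw [h]; exact hpos)
    · exact (min_le_right _ _).trans (by rw [h]; exact hpos)
  · refine ⟨i, ?_⟩
    rcases h with h | h
    · exact (min_le_left _ _).trans (by rw [h]; exact hpos)
    · exact (min_le_right _ _).trans (by rw [h]; exact hpos)

end BSD
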