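import Pool.Agent.Lib.MP_8528c3_al.StD

/-!
# Burnside project, D12b: two good lifts, stronger form
-/

namespace BSD

theorem burn_D12b (h12 : stD12) : stD12b := by
  intro G Z I _ _ _ M v R θ ρ C δ H a b C' k hk hk1 hC' hab hsm
  rcases (h12 G Z I M v R θ ρ C δ H a b C' k hk hk1 hC' hab hsm).1 with
    ⟨i, hki, hbi, hor⟩ | h
  · refine Or.inl ⟨i, hki, hbi, ?_, hor⟩
    rcases hor with h0 | h0
    · rw [h0]; linarith
    · -- exactness at the apex
      have hkv : k • v i = v i := by rw [← H.rf.vg, H.rf.fix i k hki]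
      have h1 : M.d (k • b) (v i) = M.d b (v i) := by
        conv_lhs => rw [← hkv]
        exact H.rf.iso k b (v i)
      have h2 := dqf_le M (KK R) a b (KK R).one_mem
      rw [one_smul] at h2
      unfold PM.gp at h0 ⊢
      rw [h1] at h0
      linarith
  · exact Or.inr h

end BSD
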