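import Pool.Agent.Lib.MP_8528c3_al.StD

/-!
# Burnside project, D13: an element fixing two apexes of the quotient is trivial in the quotient
-/

namespace BSD

namespace D13

variable {G Z I : Type} [Group G] [MulAction G Z] [MulAction G I] {M : PM Z} {v : I → Z}
  {R : I → Subgroup G} {θ : I → Z → Z → ℝ} {ρ C δ : ℝ}

theorem gp_zero (H : RF M v R θ ρ C) {i : I} {a b : Z} (h : 1 ≤ θ i a b) :
    M.gp a b (v i) = 0 := by
  have h1 := H.r2 i a b h
  have h2 := M.symm (v i) b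
  unfold PM.gp
  linarith

/-- The state of the argument: an element `g` of the coset `K g₀` which fixes `i` and maps `j` to
`k j`, where `k ∈ K`. -/
structure Stt (R : I → Subgroup G) (g₀ : G) (i j : I) (g k : G) : Prop where
  co : ∃ κ ∈ KK R, g = κ * g₀
  fi : g • i = i
  fj : g • j = k • j
  hk : k ∈ KK R

/-- Apexes whose orbit is fixed. -/
def PP (R : I → Subgroup G) (g₀ : G) : Set I := {i | ∃ k ∈ KK R, g₀ • i = k • i}

/-- The distances between different fixed orbits. -/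
def DD (M : PM Z) (v : I → Z) (R : I → Subgroup G) (g₀ : G) : Set ℝ :=
  {t | ∃ i ∈ PP R g₀, ∃ j ∈ PP R g₀, (∀ k ∈ KK R, k • i ≠ j) ∧ t = M.d (v i) (v j)}

omit [MulAction G Z] in
theorem bdd (g₀ : G) : BddBelow (DD M v R g₀) :=
  ⟨0, by rintro t ⟨i, _, j, _, _, rfl⟩; exact M.nonneg _ _⟩

theorem Dm_le {g₀ : G} {i j : I} (hi : i ∈ PP R g₀) (hj : j ∈ PP R g₀)
    (hij : ∀ k ∈ KK R, k • i ≠ j) : sInf (DD M v R g₀) ≤ M.d (v i) (v j) :=
  csInf_le (bdd g₀) ⟨i, hi, j, hj, hij, rfl⟩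

/-- The set of fixed orbits is a union of orbits. -/
theorem PP_smul (hN : (KK R).Normal) {g₀ : G} {j : I} (hj : j ∈ PP R g₀) {k : G}
    (hk : k ∈ KK R) : k • j ∈ PP R g₀ := by
  obtain ⟨k', hk', h⟩ := hj
  refine ⟨g₀ * k * g₀⁻¹ * k' * k⁻¹, ?_, ?_⟩
  · exact (KK R).mul_mem ((KK R).mul_mem (hN.conj_mem k hk g₀) hk') ((KK R).inv_mem hk)
  · rw [mul_smul (g₀ * k * g₀⁻¹ * k'), inv_smul_smul, mul_smul, ← h, ← mul_smul, ← mul_smul]
    congr 1
    group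

theorem not_orbit {i j : I} (hij : ∀ k ∈ KK R, k • i ≠ j) {k' : G} (hk' : k' ∈ KK R) :
    ∀ k ∈ KK R, k • i ≠ k' • j := by
  intro k hk h
  refine hij (k'⁻¹ * k) ((KK R).mul_mem ((KK R).inv_mem hk') hk) ?_
  rw [mul_smul, h, inv_smul_smul]

/-- The quotient distance between two fixed orbits. -/
theorem Dm_le_dqf (H : RF M v R θ ρ C) (hN : (KK R).Normal) {g₀ : G} {i j : I}
    (hi : i ∈ PP R g₀) (hj : j ∈ PP R g₀) (hij : ∀ k ∈ KK R, k • i ≠ j) :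
    sInf (DD M v R g₀) ≤ dqf M (KK R) (v i) (v j) := by
  refine le_dqf M (KK R) _ _ fun k hk => ?_
  rw [← H.vg]
  exact Dm_le hi (PP_smul hN hj hk) (not_orbit hij hk)

theorem notMem {g₀ : G} (h0 : g₀ ∉ KK R) {i j : I} {g k : G} (S : Stt R g₀ i j g k) :
    g ∉ KK R := by
  obtain ⟨κ, hκ, rfl⟩ := S.co
  intro h
  exact h0 (((KK R).mul_mem_cancel_left hκ).1 h)

/-- The main step. -/
theorem step (H : WS M v R θ ρ C δ) (hN : (KK R).Normal) (h12 : stD12)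
    (hF : ∀ (g : G) (i j : I), i ≠ j → g • i = i → g • j = j → g = 1) {g₀ : G}
    (h0 : g₀ ∉ KK R) {i j : I} (hi : i ∈ PP R g₀) (hj : j ∈ PP R g₀)
    (hij : ∀ k ∈ KK R, k • i ≠ j) (hd : M.d (v i) (v j) < sInf (DD M v R g₀) + 1)
    {g k : G} (S : Stt R g₀ i j g k) :
    ∃ i₁, ∃ h ∈ R i₁, ρ ≤ M.d (v j) (v i₁) ∧ 90 ≤ θ i₁ (v j) (k • v j) ∧
      ρ - (7 * δ + 5) ≤ M.gp (v j) ((h * k) • v j) (v i₁) ∧
      M.gp (v i) (v j) (v i₁) ≤ 1 / 2 + δ := by
  have hR := H.rf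
  have hδ := H.hδ
  have hC := H.hC
  have hρ := H.hρ
  have hne : i ≠ j := by
    intro h
    exact hij 1 (KK R).one_mem (by rw [one_smul]; exact h)
  have hgj : g • j ≠ j := by
    intro h
    have h1 := hF g i j hne S.fi h
    exact notMem h0 S (h1 ▸ (KK R).one_mem)
  have hk1 : k ≠ 1 := by
    rintro rfl
    exact hgj (by rw [S.fj, one_smul])
  have hkd : M.d (v i) (k • v j) = M.d (v i) (v j) := by
    rw [← hR.vg, ← S.fj, hR.vg]
    have h1 : v i = g • v i := by rw [← hR.vg, S.fi]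
    conv_lhs => rw [h1]
    exact hR.iso g (v i) (v j)
  have hq := Dm_le_dqf hR hN hi hj hij
  obtain ⟨h1, -⟩ := h12 G Z I M v R θ ρ C δ H (v i) (v j) 1 k S.hk hk1 zero_le_one
    (by rw [hkd]; linarith) (by linarith)
  rcases h1 with ⟨i₁, hki, hdi, -⟩ | ⟨i₁, h, hh, a1, a2, a3, a4, -⟩
  · exfalso
    have h2 : i₁ = j := by
      by_contra hc
      have h3 := hR.r0 i₁ j hc
      rw [M.symm] at h3
      linarith [M.nonneg (v j) (v i₁)]
    subst h2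
    exact hgj (by rw [S.fj]; exact hR.fix i₁ k hki)
  · exact ⟨i₁, h, hh, a1, a2, a3, a4⟩

/-- A state with an apex different from `i`. -/
theorem step2 (H : WS M v R θ ρ C δ) (hN : (KK R).Normal) (h12 : stD12)
    (hF : ∀ (g : G) (i j : I), i ≠ j → g • i = i → g • j = j → g = 1) {g₀ : G}
    (h0 : g₀ ∉ KK R) {i j : I} (hi : i ∈ PP R g₀) (hj : j ∈ PP R g₀)
    (hij : ∀ k ∈ KK R, k • i ≠ j) (hd : M.d (v i) (v j) < sInf (DD M v R g₀) + 1)
    {g k : G} (S : Stt R g₀ i j g k) :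
    ∃ g k, Stt R g₀ i j g k ∧ ∃ i₁, i₁ ≠ i ∧ ∃ h ∈ R i₁, ρ ≤ M.d (v j) (v i₁) ∧
      90 ≤ θ i₁ (v j) (k • v j) ∧ ρ - (7 * δ + 5) ≤ M.gp (v j) ((h * k) • v j) (v i₁) ∧
      M.gp (v i) (v j) (v i₁) ≤ 1 / 2 + δ := by
  have hR := H.rf
  have hδ := H.hδ
  have hC := H.hC
  have hρ := H.hρ
  obtain ⟨i₁, h, hh, a1, a2, a3, a4⟩ := step H hN h12 hF h0 hi hj hij hd S
  by_cases hi1 : i₁ = i
  · subst hi1
    have hhK : h ∈ KK R := Subgroup.subset_closure ⟨i₁, hh⟩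
    have S' : Stt R g₀ i₁ j (h * g) (h * k) := by
      obtain ⟨κ, hκ, e⟩ := S.co
      refine ⟨⟨h * κ, (KK R).mul_mem hhK hκ, by rw [e, mul_assoc]⟩, ?_, ?_,
        (KK R).mul_mem hhK S.hk⟩
      · rw [mul_smul, S.fi, hR.fix i₁ h hh]
      · rw [mul_smul, S.fj, mul_smul]
    obtain ⟨i₂, h', hh', b1, b2, b3, b4⟩ := step H hN h12 hF h0 hi hj hij hd S'
    refine ⟨h * g, h * k, S', i₂, ?_, h', hh', b1, b2, b3, b4⟩
    rintro rfl
    have h1 := gp_zero hR (by linarith : 1 ≤ θ i₂ (v j) ((h * k) • v j))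
    linarith
  · exact ⟨g, k, S, i₁, hi1, h, hh, a1, a2, a3, a4⟩

/-- The final contradiction. -/
theorem final (hA10 : stA10) (H : WS M v R θ ρ C δ) (hN : (KK R).Normal) {g₀ : G}
    {i j : I} (hi : i ∈ PP R g₀) (hj : j ∈ PP R g₀)
    (hij : ∀ k ∈ KK R, k • i ≠ j) (hd : M.d (v i) (v j) < sInf (DD M v R g₀) + 1)
    {g k : G} (S : Stt R g₀ i j g k) {i₁ : I} (hi1 : i₁ ≠ i) {h : G} (hh : h ∈ R i₁)
    (a1 : ρ ≤ M.d (v j) (v i₁)) (a2 : 90 ≤ θ i₁ (v j) (k • v j))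
    (a3 : ρ - (7 * δ + 5) ≤ M.gp (v j) ((h * k) • v j) (v i₁))
    (a4 : M.gp (v i) (v j) (v i₁) ≤ 1 / 2 + δ) : False := by
  have hR := H.rf
  have hδ := H.hδ
  have hC := H.hC
  have hρ := H.hρ
  have hhK : h ∈ KK R := Subgroup.subset_closure ⟨i₁, hh⟩
  have hi1j : i₁ ≠ j := by
    rintro rfl
    rw [M.self] at a1
    linarith
  have hga : g • v i = v i := by rw [← hR.vg, S.fi]
  have hgb : g • v j = k • v j := by rw [← hR.vg, S.fj, hR.vg]
  have hhw : h • v i₁ = v i₁ := by rw [← hR.vg, hR.fix i₁ h hh]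
  -- the claim
  have hcl : M.gp (v i) (k • v j) (v i₁) ≤ 2 * δ + 2 := by
    by_contra hc
    push Not at hc
    have b1 : θ i₁ (v i) (k • v j) < 1 := by
      by_contra hc'
      push Not at hc'
      have := gp_zero hR hc'
      linarith
    have b2 := hR.r1 i₁ (v j) (v i) (k • v j)
    rw [hR.sy i₁ (v j) (v i)] at b2
    have b3 := hR.r2 i₁ (v i) (v j) (by linarith)
    have b4 : M.gp (k • v j) (h⁻¹ • v j) (v i₁) = M.gp (v j) ((h * k) • v j) (v i₁) := by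
      have e1 : M.d (k • v j) (v i₁) = M.d ((h * k) • v j) (v i₁) := by
        have := hR.iso h (k • v j) (v i₁)
        rw [hhw, ← mul_smul] at this
        exact this.symm
      have e2 : M.d (h⁻¹ • v j) (v i₁) = M.d (v j) (v i₁) := by
        have := hR.iso h (h⁻¹ • v j) (v i₁)
        rw [hhw, smul_inv_smul] at this
        exact this.symm
      have e3 : M.d (k • v j) (h⁻¹ • v j) = M.d (v j) ((h * k) • v j) := by
        have := hR.iso h (k • v j) (h⁻¹ • v j)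
        rw [smul_inv_smul, ← mul_smul, M.symm] at this
        exact this.symm
      unfold PM.gp
      rw [e1, e2, e3]
      ring
    have b5 := H.hyp (v i) (k • v j) (h⁻¹ • v j) (v i₁)
    rw [b4] at b5
    have b6 : δ + 2 ≤ M.gp (v i) (h⁻¹ • v j) (v i₁) := by
      have : 2 * δ + 2 ≤ min (M.gp (v i) (k • v j) (v i₁))
          (M.gp (v j) ((h * k) • v j) (v i₁)) := le_min hc.le (by linarith)
      linarith
    have b7 : M.d (h⁻¹ • v j) (v i₁) = M.d (v j) (v i₁) := by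
      have := hR.iso h (h⁻¹ • v j) (v i₁)
      rw [hhw, smul_inv_smul] at this
      exact this.symm
    have b8 := dqf_le M (KK R) (v i) (v j) ((KK R).inv_mem hhK)
    have b9 := Dm_le_dqf hR hN hi hj hij
    have b10 := M.symm (v i₁) (v j)
    unfold PM.gp at b6
    linarith
  -- `g` almost fixes the apex `i₁`
  have hA := (hA10 Z M δ H.hyp (v i) (k • v j) (v i₁) (g • v i₁)).2
  have c1 : M.gp (v i) (k • v j) (g • v i₁) = M.gp (v i) (v j) (v i₁) := by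
    have e1 : M.d (v i) (g • v i₁) = M.d (v i) (v i₁) := by
      have := hR.iso g (v i) (v i₁)
      rwa [hga] at this
    have e2 : M.d (k • v j) (g • v i₁) = M.d (v j) (v i₁) := by
      have := hR.iso g (v j) (v i₁)
      rwa [hgb] at this
    have e3 : M.d (v i) (k • v j) = M.d (v i) (v j) := by
      have := hR.iso g (v i) (v j)
      rwa [hga, hgb] at this
    unfold PM.gp
    rw [e1, e2, e3]
  have c2 : M.gp (v i₁) (k • v j) (v i) = M.d (v i) (v i₁) - M.gp (v i) (k • v j) (v i₁) := by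
    unfold PM.gp
    rw [M.symm (v i₁) (v i), M.symm (v i₁) (k • v j), M.symm (k • v j) (v i)]
    ring
  have c3 : M.gp (g • v i₁) (k • v j) (v i) =
      M.d (v i) (v i₁) - M.gp (v i) (v j) (v i₁) := by
    rw [← c1]
    have e1 : M.d (v i) (g • v i₁) = M.d (v i) (v i₁) := by
      have := hR.iso g (v i) (v i₁)
      rwa [hga] at this
    unfold PM.gp
    rw [M.symm (g • v i₁) (v i), M.symm (g • v i₁) (k • v j), M.symm (k • v j) (v i), e1]
    ring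
  have c4 : 0 ≤ M.gp (v i) (v j) (v i₁) := by
    have := M.tri (v i) (v i₁) (v j)
    have := M.symm (v i₁) (v j)
    unfold PM.gp
    linarith
  have c5 : 0 ≤ M.gp (v i) (k • v j) (v i₁) := by
    have := M.tri (v i) (v i₁) (k • v j)
    have := M.symm (v i₁) (k • v j)
    unfold PM.gp
    linarith
  have c6 : |M.gp (v i₁) (k • v j) (v i) - M.gp (g • v i₁) (k • v j) (v i)| ≤ 2 * δ + 2 := by
    rw [c2, c3, abs_le]
    constructor <;> linarith
  rw [c1] at hA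
  have c7 : M.d (v i₁) (g • v i₁) < 2 * ρ := by linarith
  have c8 : g • i₁ = i₁ := by
    by_contra hc
    have := hR.r0 i₁ (g • i₁) (Ne.symm hc)
    rw [hR.vg] at this
    linarith
  have c9 : i₁ ∈ PP R g₀ := by
    obtain ⟨κ, hκ, e⟩ := S.co
    refine ⟨κ⁻¹, (KK R).inv_mem hκ, ?_⟩
    rw [e, mul_smul] at c8
    rw [eq_inv_smul_iff]
    exact c8
  have d1 := hR.r0 i i₁ (Ne.symm hi1)
  have d2 := hR.r0 i₁ j hi1j
  have d3 : M.d (v i) (v i₁) + M.d (v i₁) (v j) =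
      M.d (v i) (v j) + 2 * M.gp (v i) (v j) (v i₁) := by
    unfold PM.gp
    rw [M.symm (v i₁) (v j)]
    ring
  by_cases hO : ∀ κ ∈ KK R, κ • i ≠ i₁
  · have := Dm_le (M := M) (v := v) hi c9 hO
    linarith
  · push Not at hO
    obtain ⟨κ, hκ, e⟩ := hO
    have hO' : ∀ κ' ∈ KK R, κ' • i₁ ≠ j := by
      intro κ' hκ' e'
      refine hij (κ' * κ) ((KK R).mul_mem hκ' hκ) ?_
      rw [mul_smul, e, e']
    have := Dm_le (M := M) (v := v) c9 hj hO'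
    linarith

end D13

open D13 in
/-- D13. -/
theorem burn_D13 (hA10 : stA10) (h8 : stD8) (h12 : stD12) : stD13 := by
  intro G Z I _ _ _ M v R θ ρ C δ H hF g₀ i₀ j₀ hij₀ hi₀ hj₀
  have hN : (KK R).Normal := (h8 G Z I M v R θ ρ C δ H).1
  by_contra h0
  have hne : (DD M v R g₀).Nonempty := ⟨_, i₀, hi₀, j₀, hj₀, hij₀, rfl⟩
  obtain ⟨t, ⟨i, hi, j, hj, hij, rfl⟩, hd⟩ := exists_lt_of_csInf_lt hne
    (lt_add_of_pos_right (sInf (DD M v R g₀)) one_pos)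
  obtain ⟨k₀, hk₀, e₀⟩ := hi
  obtain ⟨k₁, hk₁, e₁⟩ := hj
  have S : Stt R g₀ i j (k₀⁻¹ * g₀) (k₀⁻¹ * k₁) := by
    refine ⟨⟨k₀⁻¹, (KK R).inv_mem hk₀, rfl⟩, ?_, ?_, (KK R).mul_mem ((KK R).inv_mem hk₀) hk₁⟩
    · rw [mul_smul, e₀, inv_smul_smul]
    · rw [mul_smul, e₁, mul_smul]
  obtain ⟨g, k, S', i₁, hi1, h, hh, a1, a2, a3, a4⟩ :=
    step2 H hN h12 hF h0 ⟨k₀, hk₀, e₀⟩ ⟨k₁, hk₁, e₁⟩ hij hd S
  exact final hA10 H hN ⟨k₀, hk₀, e₀⟩ ⟨k₁, hk₁, e₁⟩ hij hd S' hi1 hh a1 a2 a3 a4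

end BSD
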