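import Pool.Agent.Lib.MP_8528c3_al.StD

/-!
# Burnside project, module D2: interpolation along an exact chain.
-/

namespace BSD

namespace D2

variable {Z : Type} (M : PM Z) (p : ℕ → Z)

/-- partial sums -/
noncomputable def S (l : ℕ) : ℝ := ∑ i ∈ Finset.range l, M.d (p i) (p (i + 1))

theorem S_zero : S M p 0 = 0 := by
  unfold S
  rw [Finset.range_zero, Finset.sum_empty]

theorem S_succ (l : ℕ) : S M p (l + 1) = S M p l + M.d (p l) (p (l + 1)) := by
  unfold S
  rw [Finset.sum_range_succ]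

theorem chain (l k : ℕ) : M.d (p l) (p (l + k)) ≤ S M p (l + k) - S M p l := by
  induction k with
  | zero =>
    rw [add_zero, M.self, sub_self]
  | succ k ih =>
    have h1 := M.tri (p l) (p (l + k)) (p (l + (k + 1)))
    have h2 := S_succ M p (l + k)
    rw [← add_assoc] at h1 ⊢
    linarith

/-- A position between two partial sums. -/
theorem exists_between {m : ℕ} {t : ℝ} (h0 : 0 ≤ t) (h1 : t ≤ S M p (m + 1)) :
    ∃ l ≤ m, S M p l ≤ t ∧ t ≤ S M p (l + 1) := by
  induction m with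
  | zero => exact ⟨0, le_rfl, by rw [S_zero]; exact h0, h1⟩
  | succ m ih =>
    by_cases h : t ≤ S M p (m + 1)
    · obtain ⟨l, hl, h2, h3⟩ := ih h
      exact ⟨l, by omega, h2, h3⟩
    · rw [not_le] at h
      exact ⟨m + 1, le_rfl, h.le, h1⟩

end D2

open D2

/-- D2: interpolation along an exact chain. -/
theorem burn_D2 (hA4 : stA4) (hA10 : stA10) : stD2 := by
  intro Z M δ m p hH hSG hex v
  have hS : M.d (p 0) (p (m + 1)) = S M p (m + 1) := hex
  -- exactness
  have hex0 : ∀ l ≤ m + 1, M.d (p 0) (p l) ≤ S M p l := by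
    intro l _
    have h := chain M p 0 l
    rw [zero_add, S_zero, sub_zero] at h
    exact h
  have hex1 : ∀ l ≤ m + 1, M.d (p l) (p (m + 1)) ≤ S M p (m + 1) - S M p l := by
    intro l hl
    have h := chain M p l (m + 1 - l)
    rwa [Nat.add_sub_cancel' hl] at h
  set t : ℝ := M.gp v (p (m + 1)) (p 0) with ht
  have ht0 : 0 ≤ t := by
    have h1 := M.tri v (p 0) (p (m + 1))
    have h2 := M.symm (p 0) (p (m + 1))
    rw [ht]
    unfold PM.gp
    linarith
  have ht1 : t ≤ S M p (m + 1) := by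
    have h1 := M.tri v (p (m + 1)) (p 0)
    have h2 := M.symm (p 0) (p (m + 1))
    rw [ht]
    unfold PM.gp
    linarith
  obtain ⟨l, hl, h1, h2⟩ := exists_between M p ht0 ht1
  have h3 := S_succ M p l
  obtain ⟨q, hq1, hq2⟩ := hA4 Z M 2 (by norm_num) hSG (p l) (p (l + 1)) (t - S M p l) (1 / 10)
    (by linarith) (by linarith) (by norm_num)
  rw [abs_le] at hq2
  obtain ⟨hq3, hq4⟩ := hq2
  have hq5 : M.d (p l) q + M.d q (p (l + 1)) ≤ M.d (p l) (p (l + 1)) + 2 / 10 := by
    have h4 := M.symm q (p (l + 1))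
    unfold PM.gp at hq1
    linarith
  have e1 := hex0 l (by omega)
  have e2 := hex1 (l + 1) (by omega)
  have e3 := M.tri (p 0) (p l) q
  have e4 := M.tri q (p (l + 1)) (p (m + 1))
  have e5 := M.tri (p 0) q (p (m + 1))
  have s1 := M.symm q (p 0)
  have s2 := M.symm (p (m + 1)) q
  have s3 := M.symm (p (m + 1)) (p 0)
  have g1 : M.gp (p 0) (p (m + 1)) q ≤ 1 / 10 := by
    unfold PM.gp
    linarith
  have g2 : |t - M.gp q (p (m + 1)) (p 0)| ≤ 2 + 3 / 10 := by
    rw [abs_le]
    unfold PM.gp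
    constructor <;> linarith
  obtain ⟨-, h5⟩ := hA10 Z M δ hH (p 0) (p (m + 1)) v q
  have h6 : M.d v q ≤ 2 + 3 / 10 + M.gp (p 0) (p (m + 1)) v + 1 / 10 + 2 * δ := by
    rw [← ht] at h5
    linarith
  refine ⟨l, hl, ?_⟩
  have h7 : M.gp (p l) (p (l + 1)) v ≤ M.gp (p l) (p (l + 1)) q + M.d v q := by
    have h8 := M.tri (p l) q v
    have h9 := M.tri (p (l + 1)) q v
    have h10 := M.symm q v
    unfold PM.gp
    linarith
  linarith

end BSD
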