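import Pool.Agent.Lib.MP_8528c3_al.StD

/-!
# Burnside project, D3: normal form in windmill groups.
-/

namespace BSD

namespace D3

variable {G Z I : Type} [Group G] [MulAction G Z] [MulAction G I] {M : PM Z} {v : I → Z}
  {R : I → Subgroup G} {θ : I → Z → Z → ℝ} {ρ C δ : ℝ}

theorem dist_eq (H : WS M v R θ ρ C δ) (k : G) (x : Z) (j : I) :
    M.d x (v (k⁻¹ • j)) = M.d (k • x) (v j) := by
  rw [H.rf.vg, ← H.rf.iso k, smul_inv_smul]

theorem sg_pos (H : WS M v R θ ρ C δ) : 0 < 10 * δ + 10 := by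
  have := H.hδ
  linarith

theorem mono (H : WS M v R θ ρ C δ) (x : Z) {N N' : ℕ} (h : N ≤ N') :
    KN M v R ρ δ x N ≤ KN M v R ρ δ x N' := by
  refine Subgroup.closure_mono ?_
  rintro g ⟨i, hg, hd⟩
  refine ⟨i, hg, hd.trans_le ?_⟩
  have h1 : (N : ℝ) ≤ N' := Nat.cast_le.2 h
  have h2 := sg_pos H
  have h3 := mul_le_mul_of_nonneg_right h1 h2.le
  linarith

/-- Rotations at a translate of a near apex. -/
theorem mem_of_near (H : WS M v R θ ρ C δ) (x : Z) {N : ℕ} {k h : G} {j : I}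
    (hk : k ∈ KN M v R ρ δ x N) (hd : M.d (k • x) (v j) < ρ + N * (10 * δ + 10)) (hh : h ∈ R j) :
    h ∈ KN M v R ρ δ x N := by
  have h1 : k⁻¹ * h * k⁻¹⁻¹ ∈ R (k⁻¹ • j) := H.rf.conj k⁻¹ j h hh
  have h2 : k⁻¹ * h * k⁻¹⁻¹ ∈ KN M v R ρ δ x N := by
    refine Subgroup.subset_closure ⟨k⁻¹ • j, h1, ?_⟩
    rw [dist_eq H]
    exact hd
  have h3 : h = k * (k⁻¹ * h * k⁻¹⁻¹) * k⁻¹ := by group
  rw [h3]
  exact mul_mem (mul_mem hk h2) (inv_mem hk)

theorem partA (H : WS M v R θ ρ C δ) (x : Z) (N : ℕ) {j : I} (hj : j ∈ JN M v R ρ δ x N) {h : G}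
    (hh : h ∈ R j) : h ∈ KN M v R ρ δ x (N + 1) := by
  obtain ⟨⟨k, hk, hd⟩, -⟩ := hj
  exact mem_of_near H x (mono H x (Nat.le_succ N) hk) hd hh

theorem partC (H : WS M v R θ ρ C δ) (x : Z) {k : G} (hk : k ∈ KK R) :
    ∃ n, k ∈ KN M v R ρ δ x n := by
  induction hk using Subgroup.closure_induction with
  | mem g hg =>
    obtain ⟨i, hi⟩ := hg
    have h2 := sg_pos H
    obtain ⟨n, hn⟩ := exists_nat_gt ((M.d x (v i) - ρ) / (10 * δ + 10))
    refine ⟨n, Subgroup.subset_closure ⟨i, hi, ?_⟩⟩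
    rw [div_lt_iff₀ h2] at hn
    linarith
  | one => exact ⟨0, one_mem _⟩
  | mul a b _ _ ha hb =>
    obtain ⟨n, hn⟩ := ha
    obtain ⟨m, hm⟩ := hb
    exact ⟨max n m, mul_mem (mono H x (le_max_left _ _) hn) (mono H x (le_max_right _ _) hm)⟩
  | inv a _ ha =>
    obtain ⟨n, hn⟩ := ha
    exact ⟨n, inv_mem hn⟩

theorem jn_smul (H : WS M v R θ ρ C δ) (x : Z) (N : ℕ) {j : I} (hj : j ∈ JN M v R ρ δ x N) {g : G}
    (hg : g ∈ KN M v R ρ δ x N) : g • j ∈ JN M v R ρ δ x N := by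
  obtain ⟨⟨k, hk, hd⟩, hall⟩ := hj
  refine ⟨⟨g * k, mul_mem hg hk, ?_⟩, ?_⟩
  · rw [mul_smul, H.rf.vg, H.rf.iso]
    exact hd
  · intro k' hk'
    have h1 := hall (g⁻¹ * k') (mul_mem (inv_mem hg) hk')
    rw [← H.rf.iso g, ← H.rf.vg, mul_smul, smul_inv_smul] at h1
    exact h1

/-- Conjugation lemma. -/
theorem nf_smul (H : WS M v R θ ρ C δ) (x : Z) (N : ℕ) {j : I} {k : G}
    (hk : NFj M v R ρ δ x N j k) {g : G} (hg : g ∈ KN M v R ρ δ x N) :
    NFj M v R ρ δ x N (g • j) (g * k) := by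
  induction hk with
  | one j h k' hj hh h1 hk =>
    have e : g * (h * k') = (g * h * g⁻¹) * (g * k') := by group
    rw [e]
    refine NFj.one (g • j) _ _ (jn_smul H x N hj hg) (H.rf.conj g j h hh) ?_ (mul_mem hg hk)
    rw [Ne, conj_eq_one_iff]
    exact h1
  | cons j j' h k hj hh h1 _ hne ih =>
    have e : g * (h * k) = (g * h * g⁻¹) * (g * k) := by group
    rw [e]
    refine NFj.cons (g • j) (g • j') _ _ (jn_smul H x N hj hg) (H.rf.conj g j h hh) ?_ ih ?_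
    · rw [Ne, conj_eq_one_iff]
      exact h1
    · intro h2
      exact hne (MulAction.injective g h2)

theorem step (H : WS M v R θ ρ C δ) (x : Z) (N : ℕ) {i : I} {g : G} (hg : g ∈ R i)
    (hd : M.d x (v i) < ρ + (N + 1 : ℕ) * (10 * δ + 10)) {k : G}
    (hk : k ∈ KN M v R ρ δ x N ∨ ∃ j, NFj M v R ρ δ x N j k) :
    g * k ∈ KN M v R ρ δ x N ∨ ∃ j, NFj M v R ρ δ x N j (g * k) := by
  by_cases hA : ∃ k0 ∈ KN M v R ρ δ x N, M.d (k0 • x) (v i) < ρ + N * (10 * δ + 10)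
  · obtain ⟨k0, hk0, hd0⟩ := hA
    have hgK := mem_of_near H x hk0 hd0 hg
    rcases hk with hk | ⟨j, hk⟩
    · exact Or.inl (mul_mem hgK hk)
    · exact Or.inr ⟨_, nf_smul H x N hk hgK⟩
  · push Not at hA
    have hi : i ∈ JN M v R ρ δ x N := by
      refine ⟨⟨1, one_mem _, ?_⟩, hA⟩
      rw [one_smul]
      exact hd
    by_cases h1 : g = 1
    · subst h1
      rw [one_mul]
      exact hk
    rcases hk with hk | ⟨j, hk⟩
    · exact Or.inr ⟨i, NFj.one i g k hi hg h1 hk⟩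
    · by_cases hji : i = j
      · subst hji
        cases hk with
        | one _ h k' hj hh h1' hk' =>
          rw [← mul_assoc]
          by_cases hgh : g * h = 1
          · rw [hgh, one_mul]
            exact Or.inl hk'
          · exact Or.inr ⟨i, NFj.one i _ _ hi (mul_mem hg hh) hgh hk'⟩
        | cons _ j' h k' hj hh h1' hk' hne =>
          rw [← mul_assoc]
          by_cases hgh : g * h = 1
          · rw [hgh, one_mul]
            exact Or.inr ⟨j', hk'⟩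
          · exact Or.inr ⟨i, NFj.cons i j' _ _ hi (mul_mem hg hh) hgh hk' hne⟩
      · exact Or.inr ⟨i, NFj.cons i j g k hi hg h1 hk hji⟩

end D3

open D3 in
/-- D3. -/
theorem burn_D3 : stD3 := by
  intro G Z I _ _ _ M v R θ ρ C δ H x N
  refine ⟨fun j hj h hh => partA H x N hj hh, fun k hk => mono H x (Nat.le_succ N) hk,
    fun k hk => partC H x hk, ?_⟩
  intro k hk
  induction hk using Subgroup.closure_induction_left with
  | one => exact Or.inl (one_mem _)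
  | mul_left g hg y _ ih =>
    obtain ⟨i, hi, hd⟩ := hg
    exact step H x N hi hd ih
  | inv_mul_cancel g hg y _ ih =>
    obtain ⟨i, hi, hd⟩ := hg
    exact step H x N (inv_mem hi) hd ih

end BSD
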