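import Pool.Agent.Lib.MP_8528c3_al.StD

/-!
# Burnside project, item D4: exactness of the chain of a normal form
-/

set_option linter.unusedSectionVars false

namespace BSD

namespace D4

variable {G Z I : Type} [Group G] [MulAction G Z] [MulAction G I] {M : PM Z}
  {v : I → Z} {R : I → Subgroup G} {θ : I → Z → Z → ℝ} {ρ C δ : ℝ} {x : Z} {N : ℕ}

theorem gp_symm (M : PM Z) (a b w : Z) : M.gp a b w = M.gp b a w := by
  unfold PM.gp
  rw [M.symm a b]
  ring

theorem small (H : WS M v R θ ρ C δ) {i : I} {a b : Z}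
    (h : ρ - (12 * δ + 10) ≤ M.gp a b (v i)) : θ i a b ≤ 1 / 100 := by
  have hδ := H.hδ
  have hC := H.hC
  have hρ := H.hρ
  have h1 : C ≤ M.gp a b (v i) := by linarith
  have h2 := H.rf.r3 i a b h1
  have h3 : 100 ≤ min ρ (M.gp a b (v i)) - C := by
    rcases le_total ρ (M.gp a b (v i)) with h4 | h4
    · rw [min_eq_left h4]
      linarith
    · rw [min_eq_right h4]
      linarith
  have h5 : Real.exp (-(min ρ (M.gp a b (v i)) - C)) ≤ 1 / 100 := by
    rw [Real.exp_neg, inv_eq_one_div]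
    have h6 := Real.add_one_le_exp (min ρ (M.gp a b (v i)) - C)
    exact one_div_le_one_div_of_le (by norm_num) (by linarith)
  linarith

theorem F1 (W : WN M v R ρ δ x N) {j : I} (hj : j ∈ JN M v R ρ δ x N) {k' : G}
    (hk : k' ∈ KN M v R ρ δ x N) : ρ - (5 * δ + 5) ≤ M.gp x (k' • x) (v j) := by
  have h := W k' hk j 0 le_rfl (fun k hk => by
    rw [add_zero]
    exact hj.2 k hk)
  linarith

theorem F2 (H : WS M v R θ ρ C δ) (W : WN M v R ρ δ x N) {j j' : I}
    (hj : j ∈ JN M v R ρ δ x N) (hj' : j' ∈ JN M v R ρ δ x N) (hne : j' ≠ j) :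
    ρ - (6 * δ + 5) ≤ M.gp (v j') x (v j) := by
  obtain ⟨k', hk', hd⟩ := hj'.1
  have h1 := F1 W hj hk'
  rw [gp_symm] at h1
  have h2 := hj.2 k' hk'
  have h3 := H.rf.r0 j' j hne
  have h4 := H.hyp (v j') (k' • x) x (v j)
  have h5 : ρ - (5 * δ + 5) ≤ M.gp (v j') (k' • x) (v j) := by
    unfold PM.gp
    have e := M.symm (v j') (k' • x)
    push_cast at hd
    linarith
  rcases le_total (M.gp (v j') (k' • x) (v j)) (M.gp (k' • x) x (v j)) with h6 | h6
  · rw [min_eq_left h6] at h4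
    linarith
  · rw [min_eq_right h6] at h4
    linarith

/-- The points `A` of the claim. -/
def GoodA (M : PM Z) (v : I → Z) (R : I → Subgroup G) (ρ δ : ℝ) (x : Z) (N : ℕ) (j : I)
    (A : Z) : Prop :=
  A = x ∨ ∃ j' ∈ JN M v R ρ δ x N, j' ≠ j ∧ A = v j'

theorem good_small (H : WS M v R θ ρ C δ) (W : WN M v R ρ δ x N) {j : I}
    (hj : j ∈ JN M v R ρ δ x N) {A : Z} (hA : GoodA M v R ρ δ x N j A) : θ j x A ≤ 1 / 100 := by
  have hδ := H.hδ
  rcases hA with rfl | ⟨j', hj', hne, rfl⟩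
  · refine small H ?_
    have h := F1 W hj (KN M v R ρ δ A N).one_mem
    rw [one_smul] at h
    linarith
  · refine small H ?_
    have h := F2 H W hj hj' hne
    rw [gp_symm] at h
    linarith

theorem hv (H : WS M v R θ ρ C δ) {j : I} {h : G} (hh : h ∈ R j) : h • v j = v j := by
  rw [← H.rf.vg, H.rf.fix j h hh]

/-- The step of the claim. -/
theorem step (H : WS M v R θ ρ C δ) (W : WN M v R ρ δ x N) {j : I} {h k₁ : G}
    (hj : j ∈ JN M v R ρ δ x N) (hh : h ∈ R j) (h1 : h ≠ 1) (hk : θ j x (k₁ • x) ≤ 3 / 100)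
    {A : Z} (hA : GoodA M v R ρ δ x N j A) : 90 ≤ θ j A ((h * k₁) • x) := by
  have a1 := good_small H W hj hA
  have a2 := H.rf.eqv h j x (k₁ • x)
  rw [H.rf.fix j h hh, ← mul_smul] at a2
  have a3 := H.rf.r4 j h hh h1 x
  have a4 := H.rf.r1 j x A (h • x)
  have a5 := H.rf.r1 j A ((h * k₁) • x) (h • x)
  have a6 := H.rf.sy j ((h * k₁) • x) (h • x)
  linarith

/-- The property proved by induction. -/
def Pr (M : PM Z) (v : I → Z) (R : I → Subgroup G) (θ : I → Z → Z → ℝ) (ρ δ : ℝ) (x : Z) (N : ℕ)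
    (j : I) (k : G) : Prop :=
  j ∈ JN M v R ρ δ x N ∧ (∀ A, GoodA M v R ρ δ x N j A → 90 ≤ θ j A (k • x)) ∧
  (∃ h ∈ R j, ρ - (7 * δ + 5) ≤ M.gp x ((h * k) • x) (v j)) ∧
  ∃ (m : ℕ) (q : ℕ → Z), q 0 = v j ∧ q (m + 1) = k • x ∧
    M.d (v j) (k • x) = ∑ l ∈ Finset.range (m + 1), M.d (q l) (q (l + 1)) ∧
    ∀ l ≤ m, ∃ g ∈ KN M v R ρ δ x (N + 1), ∃ a b, q l = g • a ∧ q (l + 1) = g • b ∧
      InS M v R ρ δ x N a ∧ InS M v R ρ δ x N b

theorem ind (H : WS M v R θ ρ C δ) (W : WN M v R ρ δ x N)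
    (hD : ∀ j ∈ JN M v R ρ δ x N, ∀ h ∈ R j, h ∈ KN M v R ρ δ x (N + 1)) {j : I} {k : G}
    (hk : NFj M v R ρ δ x N j k) : Pr M v R θ ρ δ x N j k := by
  have hδ := H.hδ
  induction hk with
  | one j h k' hj hh h1 hk =>
    have b1 := F1 W hj hk
    have b2 : θ j x (k' • x) ≤ 3 / 100 := by
      have := small H (i := j) (a := x) (b := k' • x) (by linarith)
      linarith
    refine ⟨hj, fun A hA => step H W hj hh h1 b2 hA, ⟨h⁻¹, (R j).inv_mem hh, ?_⟩, 0,
      fun l => if l = 0 then v j else (h * k') • x, ?_, ?_, ?_, ?_⟩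
    · rw [inv_mul_cancel_left]
      linarith
    · simp
    · simp
    · simp
    · intro l hl
      obtain rfl : l = 0 := by omega
      refine ⟨h, hD j hj h hh, v j, k' • x, ?_, ?_, Or.inr ⟨j, hj, rfl⟩, Or.inl ⟨k', hk, rfl⟩⟩
      · rw [hv H hh]
        simp
      · rw [← mul_smul]
        simp
  | cons j j₁ h k₁ hj hh h1 hk hne ih =>
    obtain ⟨hj₁, ih1, -, m, q, q0, qm, qs, qg⟩ := ih
    have c1 : M.d (v j) (k₁ • x) = M.d (v j) (v j₁) + M.d (v j₁) (k₁ • x) :=
      H.rf.r2 j₁ _ _ (by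
        have := ih1 (v j) (Or.inr ⟨j, hj, hne, rfl⟩)
        linarith)
    have c2 := H.rf.r0 j j₁ hne
    have c3 : 2 * ρ ≤ M.gp (v j₁) (k₁ • x) (v j) := by
      unfold PM.gp
      have e1 := M.symm (v j₁) (v j)
      have e2 := M.symm (k₁ • x) (v j)
      linarith
    have hρ := H.hρ
    have hC := H.hC
    have c4 := F2 H W hj hj₁ (Ne.symm hne)
    rw [gp_symm] at c4
    have c5 : θ j x (k₁ • x) ≤ 3 / 100 := by
      have d1 := H.rf.r1 j x (v j₁) (k₁ • x)
      have d2 := small H (i := j) (a := x) (b := v j₁) (by linarith)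
      have d3 := small H (i := j) (a := v j₁) (b := k₁ • x) (by linarith)
      linarith
    have c6 := H.hyp x (v j₁) (k₁ • x) (v j)
    have c7 : ρ - (7 * δ + 5) ≤ M.gp x (k₁ • x) (v j) := by
      rcases le_total (M.gp x (v j₁) (v j)) (M.gp (v j₁) (k₁ • x) (v j)) with h6 | h6
      · rw [min_eq_left h6] at c6
        linarith
      · rw [min_eq_right h6] at c6
        linarith
    have hvj := hv H hh
    refine ⟨hj, fun A hA => step H W hj hh h1 c5 hA, ⟨h⁻¹, (R j).inv_mem hh, ?_⟩, m + 1,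
      fun l => if l = 0 then v j else h • q (l - 1), ?_, ?_, ?_, ?_⟩
    · rw [inv_mul_cancel_left]
      exact c7
    · simp
    · simp only [Nat.add_eq_zero_iff, one_ne_zero, and_false, if_false, Nat.add_sub_cancel]
      rw [qm, mul_smul]
    · rw [Finset.sum_range_succ']
      simp only [Nat.add_eq_zero_iff, one_ne_zero, and_false, if_false, Nat.add_sub_cancel,
        if_true, zero_add, H.rf.iso]
      rw [← qs, q0]
      have e1 : M.d (v j) ((h * k₁) • x) = M.d (v j) (k₁ • x) := by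
        rw [mul_smul]
        conv_lhs => rw [← hvj]
        rw [H.rf.iso]
      have e2 : M.d (v j) (h • v j₁) = M.d (v j) (v j₁) := by
        conv_lhs => rw [← hvj]
        rw [H.rf.iso]
      rw [e1, e2, c1]
      ring
    · intro l hl
      rcases Nat.eq_zero_or_pos l with rfl | hl0
      · refine ⟨h, hD j hj h hh, v j, v j₁, ?_, ?_, Or.inr ⟨j, hj, rfl⟩, Or.inr ⟨j₁, hj₁, rfl⟩⟩
        · rw [hvj]
          simp
        · simp [q0]
      · obtain ⟨l, rfl⟩ : ∃ l', l = l' + 1 := ⟨l - 1, by omega⟩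
        obtain ⟨g, hg, a, b, ha, hb, hab⟩ := qg l (by omega)
        refine ⟨h * g, (KN M v R ρ δ x (N + 1)).mul_mem (hD j hj h hh) hg, a, b, ?_, ?_, hab⟩
        · simp only [Nat.add_eq_zero_iff, one_ne_zero, and_false, if_false, Nat.add_sub_cancel]
          rw [ha, mul_smul]
        · simp only [Nat.add_eq_zero_iff, one_ne_zero, and_false, if_false, Nat.add_sub_cancel]
          rw [hb, mul_smul]

end D4

/-- D4: exactness of the chain of a normal form. -/
theorem burn_D4 (h3 : stD3) : stD4 := by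
  intro G Z I _ _ _ M v R θ ρ C δ H x N W j k hk
  obtain ⟨hj, hA, hh, m, q, q0, qm, qs, qg⟩ := D4.ind H W (h3 G Z I M v R θ ρ C δ H x N).1 hk
  have hx : 90 ≤ θ j x (k • x) := hA x (Or.inl rfl)
  have hr := H.rf.r2 j x (k • x) (by linarith)
  refine ⟨hj, hx, hh, fun j' hj' hne => H.rf.r2 j _ _ (by
    have := hA (v j') (Or.inr ⟨j', hj', hne, rfl⟩)
    linarith), m + 1, fun l => if l = 0 then x else q (l - 1), ?_, ?_, ?_, ?_⟩
  · simp
  · simp only [Nat.add_eq_zero_iff, one_ne_zero, and_false, if_false, Nat.add_sub_cancel]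
    exact qm
  · rw [Finset.sum_range_succ']
    simp only [Nat.add_eq_zero_iff, one_ne_zero, and_false, if_false, Nat.add_sub_cancel,
      if_true, zero_add]
    rw [← qs, Nat.sub_self, q0, hr]
    ring
  · intro l hl
    rcases Nat.eq_zero_or_pos l with rfl | hl0
    · refine ⟨1, (KN M v R ρ δ x (N + 1)).one_mem, x, v j, ?_, ?_,
        Or.inl ⟨1, (KN M v R ρ δ x N).one_mem, (one_smul G x).symm⟩, Or.inr ⟨j, hj, rfl⟩⟩
      · rw [one_smul]
        simp
      · rw [one_smul]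
        simp [q0]
    · obtain ⟨l, rfl⟩ : ∃ l', l = l' + 1 := ⟨l - 1, by omega⟩
      obtain ⟨g, hg, a, b, ha, hb, hab⟩ := qg l (by omega)
      refine ⟨g, hg, a, b, ?_, ?_, hab⟩
      · simp only [Nat.add_eq_zero_iff, one_ne_zero, and_false, if_false, Nat.add_sub_cancel]
        exact ha
      · simp only [Nat.add_eq_zero_iff, one_ne_zero, and_false, if_false, Nat.add_sub_cancel]
        exact hb

end BSD
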