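import Pool.Agent.Lib.MP_8528c3_al.StD

/-!
# Burnside project, D6: `W(N)` implies `W(N+1)`
-/

namespace BSD

namespace D6

variable {G Z I : Type} [Group G] [MulAction G Z] [MulAction G I] {M : PM Z} {v : I → Z}
  {R : I → Subgroup G} {θ : I → Z → Z → ℝ} {ρ C δ : ℝ}

theorem gp_comm (a b c : Z) : M.gp a b c = M.gp b a c := by
  unfold PM.gp
  rw [M.symm a b]
  ring

theorem gp_smul (H : RF M v R θ ρ C) (g : G) (a b : Z) (i : I) :
    M.gp (g • a) (g • b) (v i) = M.gp a b (v (g⁻¹ • i)) := by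
  have h1 : v i = g • v (g⁻¹ • i) := by rw [← H.vg, smul_inv_smul]
  unfold PM.gp
  rw [h1, H.iso, H.iso, H.iso]

/-- The apex `i` is far away from the orbit of `x` under `K_(N+1)`. -/
def Far (M : PM Z) (v : I → Z) (R : I → Subgroup G) (ρ δ : ℝ) (x : Z) (N : ℕ) (s : ℝ)
    (i : I) : Prop :=
  ∀ k' ∈ KN M v R ρ δ x (N + 1), ρ + (N + 1 : ℕ) * (10 * δ + 10) + s ≤ M.d (k' • x) (v i)

theorem far_smul (H : RF M v R θ ρ C) {x : Z} {N : ℕ} {s : ℝ} {i : I}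
    (hi : Far M v R ρ δ x N s i) {g : G} (hg : g ∈ KN M v R ρ δ x (N + 1)) :
    Far M v R ρ δ x N s (g⁻¹ • i) := by
  intro k' hk'
  have h1 := hi (g * k') (mul_mem hg hk')
  have h2 : M.d ((g * k') • x) (v i) = M.d (k' • x) (v (g⁻¹ • i)) := by
    rw [H.vg, ← H.iso g (k' • x) (g⁻¹ • v i), smul_inv_smul, mul_smul]
  rwa [h2] at h1

omit [MulAction G I] in
theorem far_orb {x : Z} {N : ℕ} {s : ℝ} (hs : 0 ≤ s) (hδ : 1 ≤ δ) (hW : WN M v R ρ δ x N) {i : I}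
    (hle : ∀ k ∈ KN M v R ρ δ x N, k ∈ KN M v R ρ δ x (N + 1))
    (hi : Far M v R ρ δ x N s i) {k : G} (hk : k ∈ KN M v R ρ δ x N) :
    ρ + s / 2 ≤ M.gp x (k • x) (v i) := by
  have h1 := hW k hk i (s + (10 * δ + 10)) (by linarith) (by
    intro k' hk'
    have h2 := hi k' (hle k' hk')
    push_cast at h2
    linarith)
  linarith

theorem far_S (H : WS M v R θ ρ C δ) {x : Z} {N : ℕ} {s : ℝ} (hs : 0 ≤ s)
    (hW : WN M v R ρ δ x N) {i : I}
    (hle : ∀ k ∈ KN M v R ρ δ x N, k ∈ KN M v R ρ δ x (N + 1))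
    (hi : Far M v R ρ δ x N s i) {b : Z} (hb : InS M v R ρ δ x N b) :
    ρ + s / 2 - δ ≤ M.gp x b (v i) := by
  have hδ := H.hδ
  rcases hb with ⟨k, hk, rfl⟩ | ⟨j, hj, rfl⟩
  · have := far_orb hs hδ hW hle hi hk
    linarith
  · obtain ⟨⟨k, hk, hkj⟩, -⟩ := hj
    have h1 := far_orb hs hδ hW hle hi hk
    have h2 := hi k (hle k hk)
    have hij : j ≠ i := by
      rintro rfl
      linarith
    have h3 := H.rf.r0 j i hij
    have h4 : ρ + s / 2 ≤ M.gp (k • x) (v j) (v i) := by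
      unfold PM.gp
      linarith
    have h5 := H.hyp x (k • x) (v j) (v i)
    have h6 : ρ + s / 2 ≤ min (M.gp x (k • x) (v i)) (M.gp (k • x) (v j) (v i)) := le_min h1 h4
    linarith

end D6

open D6 in
/-- D6. -/
theorem burn_D6 (h2 : stD2) (h3 : stD3) (h4 : stD4) : stD6 := by
  intro G Z I _ _ _ M v R θ ρ C δ H x N hW k hk i s hs hfar
  have hδ := H.hδ
  obtain ⟨-, hle, -, hnf⟩ := h3 G Z I M v R θ ρ C δ H x N
  have hi : Far M v R ρ δ x N s i := hfar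
  rcases hnf k hk with hk' | ⟨j, hj⟩
  · have := far_orb hs hδ hW hle hi hk'
    linarith
  · obtain ⟨-, -, -, -, m, p, hp0, hpm, hsum, hseg⟩ := h4 G Z I M v R θ ρ C δ H x N hW j k hj
    obtain ⟨l, hl, hgp⟩ := h2 Z M δ m p H.hyp H.sg (by rw [hp0, hpm]; exact hsum) (v i)
    obtain ⟨g, hg, a, b, ha, hb, hSa, hSb⟩ := hseg l hl
    rw [hp0, hpm, ha, hb, gp_smul H.rf] at hgp
    have hi' := far_smul H.rf hi hg
    have h5 := far_S H hs hW hle hi' hSa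
    have h6 := far_S H hs hW hle hi' hSb
    have h7 := H.hyp a x b (v (g⁻¹ • i))
    rw [gp_comm a x] at h7
    have h8 : ρ + s / 2 - δ ≤ min (M.gp x a (v (g⁻¹ • i))) (M.gp x b (v (g⁻¹ • i))) :=
      le_min h5 h6
    linarith

end BSD
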