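import Pool.Agent.Lib.MP_8528c3_al.StD

/-!
# Burnside project, D7: Greendlinger lemma
-/

namespace BSD

/-- D7: Greendlinger lemma. -/
theorem burn_D7 (hD3 : stD3) (hD4 : stD4) (hD5 : stD5) (hD6 : stD6) : stD7 := by
  classical
  intro G Z I _ _ _ M v R θ ρ C δ H g hg hg1 x
  have hW : ∀ N, WN M v R ρ δ x N := by
    intro N
    induction N with
    | zero => exact (hD5 G Z I M v R θ ρ C δ H x).1
    | succ N ih => exact hD6 G Z I M v R θ ρ C δ H x N ih
  have hex : ∃ n, g ∈ KN M v R ρ δ x n := (hD3 G Z I M v R θ ρ C δ H x 0).2.2.1 g hg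
  have hmem := Nat.find_spec hex
  have hmin : ∀ m, m < Nat.find hex → g ∉ KN M v R ρ δ x m := fun m hm => Nat.find_min hex hm
  rcases hn : Nat.find hex with _ | N
  · rw [hn] at hmem
    obtain ⟨i, hi, hd⟩ := (hD5 G Z I M v R θ ρ C δ H x).2 g hmem hg1
    refine ⟨Or.inl ⟨i, hi, hd⟩, i, g⁻¹, (R i).inv_mem hi, ?_, Or.inl (inv_mul_cancel g)⟩
    have := H.rf.r4 i g hi hg1 x
    linarith
  · rw [hn] at hmem
    have hnot : g ∉ KN M v R ρ δ x N := hmin N (by omega)
    obtain ⟨j, hj⟩ := ((hD3 G Z I M v R θ ρ C δ H x N).2.2.2 g hmem).resolve_left hnot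
    obtain ⟨hJ, h90, ⟨h, hh, hgp⟩, -⟩ := hD4 G Z I M v R θ ρ C δ H x N (hW N) j g hj
    have hdist : ρ ≤ M.d x (v j) := by
      have h1 := hJ.2 1 (KN M v R ρ δ x N).one_mem
      rw [one_smul] at h1
      have h2 : (0 : ℝ) ≤ N * (10 * δ + 10) := by
        have := H.hδ
        positivity
      linarith
    refine ⟨Or.inr ⟨j, h, hh, hdist, h90, hgp⟩, j, h, hh, h90, Or.inr ?_⟩
    have h1 := H.rf.r2 j x (g • x) (by linarith)
    have h2 : h • v j = v j := by rw [← H.rf.vg, H.rf.fix j h hh]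
    have h3 := H.rf.iso h (v j) (g • x)
    rw [h2, ← mul_smul] at h3
    unfold PM.gp at hgp
    have h4 := M.symm ((h * g) • x) (v j)
    linarith

end BSD
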