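import Pool.Agent.Lib.MP_8528c3_al.StD

/-!
# Burnside project, D8: basic properties of the quotient pseudo-metric
-/

namespace BSD

namespace D8

variable {G Z : Type} [Group G] [MulAction G Z]

theorem normal {I : Type} [MulAction G I] {R : I → Subgroup G}
    (conj : ∀ (g : G) (i : I), ∀ h ∈ R i, g * h * g⁻¹ ∈ R (g • i)) : (KK R).Normal := by
  refine ⟨fun n hn g => ?_⟩
  unfold KK at hn ⊢
  induction hn using Subgroup.closure_induction with
  | mem h hh =>
    obtain ⟨i, hi⟩ := hh
    exact Subgroup.subset_closure ⟨g • i, conj g i h hi⟩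
  | one => simp
  | mul a b _ _ ha hb =>
    have := Subgroup.mul_mem _ ha hb
    have e : g * a * g⁻¹ * (g * b * g⁻¹) = g * (a * b) * g⁻¹ := by group
    rwa [e] at this
  | inv a _ ha =>
    have := Subgroup.inv_mem _ ha
    have e : (g * a * g⁻¹)⁻¹ = g * a⁻¹ * g⁻¹ := by group
    rwa [e] at this

theorem iso_le (M : PM Z) (K : Subgroup G) (hK : K.Normal)
    (iso : ∀ (g : G) (x y : Z), M.d (g • x) (g • y) = M.d x y) (g : G) (x y : Z) :
    dqf M K (g • x) (g • y) ≤ dqf M K x y := by
  refine le_dqf M K x y fun k hk => ?_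
  have h := dqf_le M K (g • x) (g • y) (hK.conj_mem k hk g)
  have e : (g * k * g⁻¹) • (g • y) = g • (k • y) := by
    rw [mul_smul, mul_smul, inv_smul_smul]
  rw [e, iso] at h
  exact h

theorem iso_eq (M : PM Z) (K : Subgroup G) (hK : K.Normal)
    (iso : ∀ (g : G) (x y : Z), M.d (g • x) (g • y) = M.d x y) (g : G) (x y : Z) :
    dqf M K (g • x) (g • y) = dqf M K x y := by
  refine le_antisymm (iso_le M K hK iso g x y) ?_
  have h := iso_le M K hK iso g⁻¹ (g • x) (g • y)
  rwa [inv_smul_smul, inv_smul_smul] at h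

theorem inv_le (M : PM Z) (K : Subgroup G) (k : G) (hk : k ∈ K) (x y : Z) :
    dqf M K x (k • y) ≤ dqf M K x y := by
  refine le_dqf M K x y fun k' hk' => ?_
  have h := dqf_le M K x (k • y) (K.mul_mem hk' (K.inv_mem hk))
  rwa [mul_smul, inv_smul_smul] at h

theorem inv_eq (M : PM Z) (K : Subgroup G) (k : G) (hk : k ∈ K) (x y : Z) :
    dqf M K x (k • y) = dqf M K x y := by
  refine le_antisymm (inv_le M K k hk x y) ?_
  have h := inv_le M K k⁻¹ (K.inv_mem hk) x (k • y)
  rwa [inv_smul_smul] at h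

theorem le_d (M : PM Z) (K : Subgroup G) (x y : Z) : dqf M K x y ≤ M.d x y := by
  have h := dqf_le M K x y K.one_mem
  rwa [one_smul] at h

theorem sg (M : PM Z) (K : Subgroup G)
    (iso : ∀ (g : G) (x y : Z), M.d (g • x) (g • y) = M.d x y) (hM : M.SG 2) :
    (dqPM M K iso).SG 2 := by
  intro x y η hη
  obtain ⟨k, hk, h1⟩ := dqf_approx M K x y (half_pos hη)
  obtain ⟨n, z, z0, zn, hs, hsum⟩ := hM x (k • y) (η / 2) (half_pos hη)
  have hself : dqf M K (k • y) y = 0 := by
    have h2 : dqf M K (k • y) y = dqf M K y (k • y) := (dqPM M K iso).symm (k • y) y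
    rw [h2, inv_eq M K k hk y y]
    exact (dqPM M K iso).self y
  refine ⟨n + 1, fun i => if i ≤ n then z i else y, ?_, ?_, ?_, ?_⟩
  · simp [z0]
  · simp
  · intro i hi
    show dqf M K (if i ≤ n then z i else y) (if i + 1 ≤ n then z (i + 1) else y) ≤ 2
    rcases Nat.lt_or_ge i n with h | h
    · rw [if_pos h.le, if_pos (Nat.succ_le_of_lt h)]
      exact (le_d M K _ _).trans (hs i h)
    · have : i = n := by omega
      subst this
      rw [if_pos le_rfl, if_neg (by omega), zn, hself]
      norm_num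
  · show ∑ i ∈ Finset.range (n + 1), dqf M K (if i ≤ n then z i else y)
      (if i + 1 ≤ n then z (i + 1) else y) ≤ dqf M K x y + η
    rw [Finset.sum_range_succ, if_pos le_rfl, if_neg (by omega : ¬ n + 1 ≤ n), zn, hself]
    have h3 : ∑ i ∈ Finset.range n, dqf M K (if i ≤ n then z i else y)
        (if i + 1 ≤ n then z (i + 1) else y) ≤
        ∑ i ∈ Finset.range n, M.d (z i) (z (i + 1)) := by
      refine Finset.sum_le_sum fun i hi => ?_
      have hi' := Finset.mem_range.1 hi
      rw [if_pos hi'.le, if_pos (Nat.succ_le_of_lt hi')]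
      exact le_d M K _ _
    linarith

end D8

theorem burn_D8 : stD8 := by
  intro G Z I _ _ _ M v R θ ρ C δ h
  have hN : (KK R).Normal := D8.normal h.rf.conj
  refine ⟨hN, fun iso => ⟨fun g x y => D8.iso_eq M (KK R) hN iso g x y,
    fun k hk x y => D8.inv_eq M (KK R) k hk x y, fun x y => D8.le_d M (KK R) x y,
    D8.sg M (KK R) iso h.sg, fun i j hij => ?_⟩⟩
  refine le_dqf M (KK R) (v i) (v j) fun k hk => ?_
  rw [← h.rf.vg k j]
  refine h.rf.r0 i (k • j) fun hne => ?_
  refine hij k⁻¹ ((KK R).inv_mem hk) ?_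
  rw [hne, inv_smul_smul]

end BSD
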