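import Pool.Agent.Lib.MP_8528c3_al.StD

/-!
# Burnside project, D9: lifting 4-cycles to the space before the quotient.
-/

namespace BSD

namespace D9

variable {G Z I : Type} [Group G] [MulAction G Z] [MulAction G I] {M : PM Z}
  {v : I → Z} {R : I → Subgroup G} {θ : I → Z → Z → ℝ} {ρ C δ : ℝ}

omit [MulAction G I] in
theorem mem_KK {i : I} {h : G} (hh : h ∈ R i) : h ∈ KK R :=
  Subgroup.subset_closure ⟨i, hh⟩

/-- turning the second endpoint of a side which passes through the apex -/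
theorem turn (W : WS M v R θ ρ C δ) {i : I} {h : G} (hh : h ∈ R i) {a b : Z}
    (h1 : 1 ≤ θ i a b) : M.d a (h • b) ≤ M.d a b := by
  have h2 := W.rf.r2 i a b h1
  have h3 : h • v i = v i := by
    rw [← W.rf.vg, W.rf.fix i h hh]
  have h4 := M.tri a (v i) (h • b)
  have h5 : M.d (v i) (h • b) = M.d (v i) b := by
    conv_lhs => rw [← h3]
    exact W.rf.iso h _ _
  linarith

/-- translating a side -/
theorem side (W : WS M v R θ ρ C δ) (h k k' : G) (x y : Z) :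
    M.d ((h * k) • x) ((h * k') • y) = M.d (k • x) (k' • y) := by
  rw [mul_smul, mul_smul, W.rf.iso]

theorem claim (H7 : stD7) (W : WS M v R θ ρ C δ) (x1 x2 x3 x4 : Z) (e12 e23 e34 e41 : ℝ)
    (n : ℕ) : ∀ k2 ∈ KK R, ∀ k3 ∈ KK R, ∀ k4 ∈ KK R, ∀ g ∈ KK R,
    M.d x1 (g • x1) < n * (2 * (ρ - (7 * δ + 5))) →
    M.d x1 (k2 • x2) ≤ e12 → M.d (k2 • x2) (k3 • x3) ≤ e23 → M.d (k3 • x3) (k4 • x4) ≤ e34 →
    M.d (k4 • x4) (g • x1) ≤ e41 →
    ∃ k2 ∈ KK R, ∃ k3 ∈ KK R, ∃ k4 ∈ KK R,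
      M.d x1 (k2 • x2) ≤ e12 ∧ M.d (k2 • x2) (k3 • x3) ≤ e23 ∧ M.d (k3 • x3) (k4 • x4) ≤ e34 ∧
      M.d (k4 • x4) x1 ≤ e41 := by
  induction n with
  | zero =>
    intro k2 _ k3 _ k4 _ g _ hd
    have := M.nonneg x1 (g • x1)
    simp only [Nat.cast_zero, zero_mul] at hd
    linarith
  | succ n ih =>
    intro k2 hk2 k3 hk3 k4 hk4 g hg hd h12 h23 h34 h41
    by_cases hg1 : g = 1
    · subst hg1
      rw [one_smul] at h41
      exact ⟨k2, hk2, k3, hk3, k4, hk4, h12, h23, h34, h41⟩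
    obtain ⟨-, i, h, hh, h90, hor⟩ := H7 G Z I M v R θ ρ C δ W g hg hg1 x1
    have hK : h ∈ KK R := mem_KK hh
    -- the conclusion from the new quadruple
    have fin : ∀ k2 ∈ KK R, ∀ k3 ∈ KK R, ∀ k4 ∈ KK R,
        M.d x1 (k2 • x2) ≤ e12 → M.d (k2 • x2) (k3 • x3) ≤ e23 →
        M.d (k3 • x3) (k4 • x4) ≤ e34 → M.d (k4 • x4) ((h * g) • x1) ≤ e41 →
        ∃ k2 ∈ KK R, ∃ k3 ∈ KK R, ∃ k4 ∈ KK R,
          M.d x1 (k2 • x2) ≤ e12 ∧ M.d (k2 • x2) (k3 • x3) ≤ e23 ∧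
          M.d (k3 • x3) (k4 • x4) ≤ e34 ∧ M.d (k4 • x4) x1 ≤ e41 := by
      intro k2 hk2 k3 hk3 k4 hk4 h12 h23 h34 h41
      rcases hor with h1 | hless
      · rw [h1, one_smul] at h41
        exact ⟨k2, hk2, k3, hk3, k4, hk4, h12, h23, h34, h41⟩
      · refine ih k2 hk2 k3 hk3 k4 hk4 (h * g) ((KK R).mul_mem hK hg) ?_ h12 h23 h34 h41
        push_cast at hd
        linarith
    have r1 := W.rf.r1 i
    have a1 := r1 x1 (k2 • x2) (g • x1)
    have a2 := r1 (k2 • x2) (k3 • x3) (g • x1)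
    have a3 := r1 (k3 • x3) (k4 • x4) (g • x1)
    have hcase : 1 ≤ θ i x1 (k2 • x2) ∨ 1 ≤ θ i (k2 • x2) (k3 • x3) ∨
        1 ≤ θ i (k3 • x3) (k4 • x4) ∨ 1 ≤ θ i (k4 • x4) (g • x1) := by
      by_contra hcon
      push Not at hcon
      obtain ⟨b1, b2, b3, b4⟩ := hcon
      linarith
    rcases hcase with c | c | c | c
    · refine fin (h * k2) ((KK R).mul_mem hK hk2) (h * k3) ((KK R).mul_mem hK hk3)
        (h * k4) ((KK R).mul_mem hK hk4) ?_ ?_ ?_ ?_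
      · rw [mul_smul]
        exact (turn W hh c).trans h12
      · rw [side W]; exact h23
      · rw [side W]; exact h34
      · rw [side W]; exact h41
    · refine fin k2 hk2 (h * k3) ((KK R).mul_mem hK hk3)
        (h * k4) ((KK R).mul_mem hK hk4) h12 ?_ ?_ ?_
      · rw [mul_smul]
        exact (turn W hh c).trans h23
      · rw [side W]; exact h34
      · rw [side W]; exact h41
    · refine fin k2 hk2 k3 hk3 (h * k4) ((KK R).mul_mem hK hk4) h12 h23 ?_ ?_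
      · rw [mul_smul]
        exact (turn W hh c).trans h34
      · rw [side W]; exact h41
    · refine fin k2 hk2 k3 hk3 k4 hk4 h12 h23 h34 ?_
      rw [mul_smul]
      exact (turn W hh c).trans h41

/-- approximation of the quotient distance, translated -/
theorem approx (W : WS M v R θ ρ C δ) (x y : Z) {k : G} (hk : k ∈ KK R) {ε : ℝ} (hε : 0 < ε) :
    ∃ k' ∈ KK R, M.d (k • x) (k' • y) ≤ dqf M (KK R) x y + ε := by
  obtain ⟨l, hl, h⟩ := dqf_approx M (KK R) x y hε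
  exact ⟨k * l, (KK R).mul_mem hk hl, by rw [mul_smul, W.rf.iso]; exact h.le⟩

end D9

open D9 in
theorem burn_D9 (H7 : stD7) : stD9 := by
  intro G Z I _ _ _ M v R θ ρ C δ W x1 x2 x3 x4 ε hε
  obtain ⟨k2, hk2, h12⟩ := approx W x1 x2 (KK R).one_mem hε
  rw [one_smul] at h12
  obtain ⟨k3, hk3, h23⟩ := approx W x2 x3 hk2 hε
  obtain ⟨k4, hk4, h34⟩ := approx W x3 x4 hk3 hε
  obtain ⟨g, hg, h41⟩ := approx W x4 x1 hk4 hε
  have hpos : 0 < 2 * (ρ - (7 * δ + 5)) := by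
    have h1 := W.hδ
    have h2 := W.hC
    have h3 := W.hρ
    linarith
  obtain ⟨n, hn⟩ := exists_nat_gt (M.d x1 (g • x1) / (2 * (ρ - (7 * δ + 5))))
  rw [div_lt_iff₀ hpos] at hn
  exact claim H7 W x1 x2 x3 x4 _ _ _ _ n k2 hk2 k3 hk3 k4 hk4 g hg hn h12 h23 h34 h41

end BSD
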