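import Pool.Agent.Lib.MP_8528c3_al.A4
import Pool.Agent.Lib.MP_8528c3_al.A6
import Pool.Agent.Lib.MP_8528c3_al.A7
import Pool.Agent.Lib.MP_8528c3_al.A9
import Pool.Agent.Lib.MP_8528c3_al.A10
import Pool.Agent.Lib.MP_8528c3_al.B2
import Pool.Agent.Lib.MP_8528c3_al.B3
import Pool.Agent.Lib.MP_8528c3_al.B4
import Pool.Agent.Lib.MP_8528c3_al.B6
import Pool.Agent.Lib.MP_8528c3_al.B7
import Pool.Agent.Lib.MP_8528c3_al.B8
import Pool.Agent.Lib.MP_8528c3_al.B9
import Pool.Agent.Lib.MP_8528c3_al.B10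
import Pool.Agent.Lib.MP_8528c3_al.B12
import Pool.Agent.Lib.MP_8528c3_al.C0
import Pool.Agent.Lib.MP_8528c3_al.C1
import Pool.Agent.Lib.MP_8528c3_al.C2
import Pool.Agent.Lib.MP_8528c3_al.C3
import Pool.Agent.Lib.MP_8528c3_al.C4
import Pool.Agent.Lib.MP_8528c3_al.C5
import Pool.Agent.Lib.MP_8528c3_al.C6
import Pool.Agent.Lib.MP_8528c3_al.C7
import Pool.Agent.Lib.MP_8528c3_al.D2
import Pool.Agent.Lib.MP_8528c3_al.D3
import Pool.Agent.Lib.MP_8528c3_al.D4
import Pool.Agent.Lib.MP_8528c3_al.D5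
import Pool.Agent.Lib.MP_8528c3_al.D6
import Pool.Agent.Lib.MP_8528c3_al.D7
import Pool.Agent.Lib.MP_8528c3_al.D8
import Pool.Agent.Lib.MP_8528c3_al.D9
import Pool.Agent.Lib.MP_8528c3_al.D10
import Pool.Agent.Lib.MP_8528c3_al.D11
import Pool.Agent.Lib.MP_8528c3_al.D12
import Pool.Agent.Lib.MP_8528c3_al.D12b
import Pool.Agent.Lib.MP_8528c3_al.D13

/-!
# Burnside project: parts C and D, assembled (no hypotheses left)
-/

namespace BSD

theorem okA10 : stA10 := burn_A10 burn_A9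
theorem okB2 : stB2 := burn_B2 burn_A4
theorem okB3 : stB3 := burn_B3 okB2
theorem okB4 : stB4 := burn_B4 okB3
theorem okB12 : stB12 := burn_B12 (burn_A6 burn_A4) burn_B6
theorem okC0 : stC0 := burn_C0
theorem okC1 : stC1 := burn_C1 burn_B8 burn_B9
theorem okC2 : stC2 := burn_C2 burn_B7 okC1
theorem okC3 : stC3 := burn_C3 burn_B7 burn_B8 okC1
theorem okC4 : stC4 := burn_C4 okA10 burn_B7 burn_B8 burn_B9 okC1 okC2 okC3
theorem okC5 : stC5 := burn_C5 okC1 okC2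
theorem okC6 : stC6 := burn_C6 burn_B9 okC0 okC1 okC2 okC3 okC4 okC5
theorem okC7 : stC7 := burn_C7 (burn_A6 burn_A4) burn_A7 okB2 okB4 burn_B8 okB12 okC1 okC2
theorem okD2 : stD2 := burn_D2 burn_A4 okA10
theorem okD3 : stD3 := burn_D3
theorem okD4 : stD4 := burn_D4 okD3
theorem okD5 : stD5 := burn_D5
theorem okD6 : stD6 := burn_D6 okD2 okD3 okD4
theorem okD7 : stD7 := burn_D7 okD3 okD4 okD5 okD6
theorem okD8 : stD8 := burn_D8
theorem okD9 : stD9 := burn_D9 okD7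
theorem okD10 : stD10 := burn_D10 burn_A9 okD9
theorem okD11 : stD11 := burn_D11 okD7
theorem okD12 : stD12 := burn_D12 okD7
theorem okD12b : stD12b := burn_D12b okD12
theorem okD13 : stD13 := burn_D13 okA10 okD8 okD12

end BSD
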