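import Pool.Agent.Lib.MP_8528c3_al.StG

/-!
# Burnside project, part G: monotonicity of `Col`
-/

namespace BSD

theorem burn_G0 : stG0 := by
  intro W M S S' q q' r r' D D' hC hS hq hr hD
  obtain ⟨f, hf⟩ := hC
  refine ⟨fun x => Fin.castLE hq (f x), fun x y hx h => (hf x y (hS hx) ?_).trans hD⟩
  refine Relation.ReflTransGen.mono ?_ _ _ h
  rintro a b ⟨h1, h2, h3, h4⟩
  exact ⟨hS h1, hS h2, h3.trans hr, Fin.castLE_injective hq h4⟩

end BSD
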