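import Pool.Agent.Lib.MP_8528c3_al.StG

/-!
# Burnside project, part G: union of two coloured sets
-/

namespace BSD

open Classical in
theorem burn_G1 (h : stG1a) : stG1 := by
  intro W M A B q r rA DA DB hr hDA hDB hrA hA hB
  obtain ⟨fA, hA⟩ := hA
  obtain ⟨fB, hB⟩ := hB
  have hf1 : ∀ x : W, x ∈ B → (if x ∈ B then fB x else fA x) = fB x := fun x hx => if_pos hx
  have hf2 : ∀ x : W, x ∉ B → (if x ∈ B then fB x else fA x) = fA x := fun x hx => if_neg hx
  generalize hf : (fun x : W => if x ∈ B then fB x else fA x) = f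
  have hf1 : ∀ x : W, x ∈ B → f x = fB x := by
    intro x hx
    rw [← hf]
    exact hf1 x hx
  have hf2 : ∀ x : W, x ∉ B → f x = fA x := by
    intro x hx
    rw [← hf]
    exact hf2 x hx
  clear hf
  have hrun : ∀ x y : W, x ∈ B →
      Relation.ReflTransGen (RsP B (fun a b => M.d a b ≤ r ∧ f a = f b)) x y →
      M.d x y ≤ DB := by
    intro x y hx hxy
    refine hB x y hx (Relation.ReflTransGen.mono ?_ _ _ hxy)
    rintro a b ⟨ha, hb, hd, hab⟩
    refine ⟨ha, hb, hd, ?_⟩
    rw [← hf1 a ha, ← hf1 b hb]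
    exact hab
  have hcol : ∀ x y : W,
      Relation.ReflTransGen (RsP B (fun a b => M.d a b ≤ r ∧ f a = f b)) x y → f x = f y := by
    intro x y hxy
    induction hxy with
    | refl => rfl
    | tail _ h2 ih => exact ih.trans h2.2.2.2
  refine ⟨f, fun x y hx hxy => ?_⟩
  have hU : (A \ B) ∪ B = A ∪ B := Set.sdiff_union_self
  refine h W M (A \ B) B (fun a b => M.d a b ≤ r ∧ f a = f b) (Stp M A fA rA) r DA DB hr hDA
    hDB hrun (fun a b _ _ hab => hab.1) ?_ ?_ ?_ x y ?_ ?_
  · intro a a' ha ha' hP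
    refine ⟨ha.1, ha'.1, by linarith [hP.1], ?_⟩
    rw [← hf2 a ha.2, ← hf2 a' ha'.2]
    exact hP.2
  · intro a b b' a' ha ha' hb hb' h1 h2 h3
    refine ⟨ha.1, ha'.1, ?_, ?_⟩
    · have h4 := hrun b b' hb h3
      have h5 := M.tri a b a'
      have h6 := M.tri b b' a'
      linarith [h1.1, h2.1]
    · rw [← hf2 a ha.2, ← hf2 a' ha'.2]
      exact h1.2.trans ((hcol b b' h3).trans h2.2)
  · intro a a' ha haa
    exact hA a a' ha.1 haa
  · rw [hU]
    exact hx
  · rw [hU]
    exact hxy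

end BSD
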