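import Pool.Agent.Lib.MP_8528c3_al.StG

/-!
# Burnside project, part G: the abstract union lemma
-/

set_option autoImplicit false

namespace BSD

theorem burn_G1a : stG1a := by
  intro W M A B P Q s DA DB hs hDA hDB hB hP hAA hAB hQ x y hx hxy
  -- the invariant
  have inv : ∀ y : W, Relation.ReflTransGen (RsP (A ∪ B) P) x y →
      (x ∈ B ∧ y ∈ B ∧ Relation.ReflTransGen (RsP B P) x y) ∨
      (∃ a0 a : W, a0 ∈ A ∧ a ∈ A ∧ M.d x a0 ≤ DB + s ∧ Relation.ReflTransGen Q a0 a ∧
        (y = a ∨ (∃ b : W, b ∈ B ∧ y ∈ B ∧ P a b ∧ Relation.ReflTransGen (RsP B P) b y))) := by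
    intro y hy
    induction hy with
    | refl =>
      rcases hx with hx | hx
      · refine Or.inr ⟨x, x, hx, hx, ?_, Relation.ReflTransGen.refl, Or.inl rfl⟩
        rw [M.self]
        linarith
      · exact Or.inl ⟨hx, hx, Relation.ReflTransGen.refl⟩
    | tail hy hyz ih =>
      rename_i y z
      obtain ⟨hy1, hz1, hyz1⟩ := hyz
      rcases ih with ⟨h1, h2, h3⟩ | ⟨a0, a, ha0, ha, h1, h2, h3⟩
      · by_cases hz : z ∈ B
        · exact Or.inl ⟨h1, hz, h3.tail ⟨h2, hz, hyz1⟩⟩
        · have hzA : z ∈ A := hz1.resolve_right hz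
          refine Or.inr ⟨z, z, hzA, hzA, ?_, Relation.ReflTransGen.refl, Or.inl rfl⟩
          have h4 := hB x y h1 h3
          have h5 := hP y z hy1 hz1 hyz1
          have h6 := M.tri x y z
          linarith
      · rcases h3 with h3 | ⟨b, hb, hyB, hab, hby⟩
        · subst h3
          by_cases hz : z ∈ B
          · exact Or.inr ⟨a0, y, ha0, ha, h1, h2, Or.inr ⟨z, hz, hz, hyz1,
              Relation.ReflTransGen.refl⟩⟩
          · have hzA : z ∈ A := hz1.resolve_right hz
            exact Or.inr ⟨a0, z, ha0, hzA, h1, h2.tail (hAA y z ha hzA hyz1), Or.inl rfl⟩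
        · by_cases hz : z ∈ B
          · exact Or.inr ⟨a0, a, ha0, ha, h1, h2, Or.inr ⟨b, hb, hz, hab,
              hby.tail ⟨hyB, hz, hyz1⟩⟩⟩
          · have hzA : z ∈ A := hz1.resolve_right hz
            exact Or.inr ⟨a0, z, ha0, hzA, h1,
              h2.tail (hAB a b y z ha hzA hb hyB hab hyz1 hby), Or.inl rfl⟩
  rcases inv y hxy with ⟨h1, -, h3⟩ | ⟨a0, a, ha0, ha, h1, h2, h3⟩
  · have h4 := hB x y h1 h3
    linarith
  · have h4 := hQ a0 a ha0 h2
    have h5 := M.tri x a0 a
    rcases h3 with h3 | ⟨b, hb, hyB, hab, hby⟩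
    · rw [h3]
      linarith
    · have h6 := hP a b (Or.inl ha) (Or.inr hb) hab
      have h7 := hB b y hb hby
      have h8 := M.tri x a y
      have h9 := M.tri a b y
      linarith

end BSD
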