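import Pool.Agent.Lib.MP_8528c3_al.StG

/-!
# Burnside project, G1b: union of separated coloured sets
-/

namespace BSD

/-- G1b. -/
theorem burn_G1b : stG1b := by
  classical
  intro W J M S T q r D hq hcov hsep hr hcol
  rcases S.eq_empty_or_nonempty with hS | ⟨x0, hx0⟩
  · refine ⟨fun _ => ⟨0, hq⟩, fun x y hx _ => ?_⟩
    rw [hS] at hx
    exact absurd hx (Set.notMem_empty x)
  obtain ⟨j0, _⟩ := hcov x0 hx0
  have hJ : ∃ j : W → J, ∀ x ∈ S, x ∈ T (j x) := by
    refine ⟨fun x => if h : x ∈ S then Classical.choose (hcov x h) else j0, fun x hx => ?_⟩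
    dsimp only
    rw [dif_pos hx]
    exact Classical.choose_spec (hcov x hx)
  obtain ⟨j, hj⟩ := hJ
  choose f hf using hcol
  refine ⟨fun x => f (j x) x, fun x y hx hxy => ?_⟩
  have key : y ∈ S ∧ j y = j x ∧ Relation.ReflTransGen (Stp M (T (j x)) (f (j x)) r) x y := by
    induction hxy with
    | refl => exact ⟨hx, rfl, Relation.ReflTransGen.refl⟩
    | tail _ hst ih =>
      obtain ⟨h1, h2, h3⟩ := ih
      obtain ⟨_, h5, h6, h7⟩ := hst
      have h8 := hsep _ _ _ _ h1 h5 (hj _ h1) (hj _ h5) h6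
      refine ⟨h5, h8.symm.trans h2, h3.tail ⟨?_, ?_, h6, ?_⟩⟩
      · rw [← h2]
        exact hj _ h1
      · rw [← h2, h8]
        exact hj _ h5
      · have h9 : f (j _) _ = f (j _) _ := h7
        rw [← h8, h2] at h9
        exact h9
  exact hf (j x) x y (hj x hx) key.2.2

end BSD
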