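import Pool.Agent.Lib.MP_8528c3_al.StG
import Pool.Agent.Lib.MP_8528c3_al.A4

/-!
# Burnside project, part G: larger scales
-/

namespace BSD

namespace G2

variable {W κ : Type} (M : PM W)

/-- The end of a chain in `S` lies in `S`. -/
theorem mem_end (S : Set W) (f : W → κ) (r : ℝ) {x y : W} (hx : x ∈ S)
    (h : Relation.ReflTransGen (Stp M S f r) x y) : y ∈ S := by
  rcases Relation.ReflTransGen.cases_tail h with h1 | ⟨c, _, h2⟩
  · rw [h1]; exact hx
  · exact h2.2.1

/-- Points on almost geodesics from `o` at the same height are close. -/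
theorem close (δ s : ℝ) (hH : M.Hyp δ) (o a b pa pb : W) (η1 σ1 : ℝ)
    (ha : M.gp o a pa ≤ η1) (hb : M.gp o b pb ≤ η1)
    (ha2 : |M.d o pa - s| ≤ σ1) (hb2 : |M.d o pb - s| ≤ σ1) (hδ : 0 ≤ δ)
    (hη : 0 ≤ η1 + σ1)
    (hab : s ≤ M.gp a b o) : M.d pa pb ≤ 4 * σ1 + 2 * η1 + 4 * δ := by
  have h1 := hH pa a b o
  have h2 := hH pa b pb o
  rw [abs_le] at ha2 hb2
  have e1 : s - σ1 - η1 ≤ M.gp pa a o := by
    unfold PM.gp at ha ⊢
    have := M.symm o pa
    have := M.symm o a
    have := M.symm pa a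
    linarith [ha2.1]
  have e2 : s - σ1 - η1 ≤ M.gp b pb o := by
    unfold PM.gp at hb ⊢
    have := M.symm o pb
    have := M.symm o b
    have := M.symm pb b
    linarith [hb2.1]
  have e3 : s - σ1 - η1 ≤ min (M.gp pa a o) (M.gp a b o) := le_min e1 (by linarith)
  have e4 : s - σ1 - η1 - δ ≤ min (M.gp pa b o) (M.gp b pb o) :=
    le_min (by linarith) (by linarith)
  have e5 : s - σ1 - η1 - 2 * δ ≤ M.gp pa pb o := by linarith
  unfold PM.gp at e5
  have := M.symm o pa
  have := M.symm o pb
  linarith [ha2.2, hb2.2]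

end G2

theorem burn_G2 : stG2 := by
  classical
  intro W M δ D0 q hH hδ hSG hq hD0 o t w r hw hr hcol
  rcases lt_or_ge (t - w - r / 2) 0 with hs | hs
  · refine ⟨fun _ => ⟨0, hq⟩, ?_⟩
    intro x y hx hxy
    have hy := G2.mem_end M _ _ _ hx hxy
    change |M.d o x - t| ≤ w at hx
    change |M.d o y - t| ≤ w at hy
    rw [abs_le] at hx hy
    have h1 := M.tri x o y
    have h2 := M.symm o x
    linarith [hx.2, hy.2]
  · obtain ⟨c, hc⟩ := hcol
    have hex : ∀ x : W, ∃ z : W, x ∈ Ann M o t w →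
        M.gp o x z ≤ 1 / 10 ∧ |M.d o z - (t - w - r / 2)| ≤ 2 + 1 / 10 := by
      intro x
      by_cases hx : x ∈ Ann M o t w
      · have hx' := hx
        change |M.d o x - t| ≤ w at hx'
        rw [abs_le] at hx'
        obtain ⟨z, hz1, hz2⟩ := burn_A4 W M 2 (by norm_num) hSG o x (t - w - r / 2) (1 / 10) hs
          (by linarith [hx'.1]) (by norm_num)
        exact ⟨z, fun _ => ⟨hz1, hz2⟩⟩
      · exact ⟨x, fun h => absurd h hx⟩
    choose p hp using hex
    refine ⟨fun x => c (p x), ?_⟩
    intro x y hx hxy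
    have hy := G2.mem_end M _ _ _ hx hxy
    have hAnn : ∀ a ∈ Ann M o t w, p a ∈ Ann M o (t - w - r / 2) 3 := by
      intro a ha
      have h1 := (hp a ha).2
      change |M.d o (p a) - (t - w - r / 2)| ≤ 3
      linarith
    have hch : Relation.ReflTransGen (Stp M (Ann M o (t - w - r / 2) 3) c (4 * δ + 9))
        (p x) (p y) := by
      refine Relation.ReflTransGen.lift (r := Stp M (Ann M o t w) (fun x => c (p x)) r)
        (p := Stp M (Ann M o (t - w - r / 2) 3) c (4 * δ + 9)) p ?_ x y hxy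
      intro a b hab
      obtain ⟨ha, hb, hd, hf⟩ := hab
      refine ⟨hAnn a ha, hAnn b hb, ?_, hf⟩
      have hgp : t - w - r / 2 ≤ M.gp a b o := by
        have ha' := ha
        have hb' := hb
        change |M.d o a - t| ≤ w at ha'
        change |M.d o b - t| ≤ w at hb'
        rw [abs_le] at ha' hb'
        unfold PM.gp
        have h1 := M.symm o a
        have h2 := M.symm o b
        linarith [ha'.1, hb'.1]
      have h3 := G2.close M δ (t - w - r / 2) hH o a b (p a) (p b) (1 / 10) (2 + 1 / 10)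
        (hp a ha).1 (hp b hb).1 (hp a ha).2 (hp b hb).2 hδ (by norm_num) hgp
      linarith
    have hD := hc (p x) (p y) (hAnn x hx) hch
    have hdist : ∀ a ∈ Ann M o t w, M.d a (p a) ≤ 2 * w + r / 2 + 23 / 10 := by
      intro a ha
      have h1 := (hp a ha).1
      have h2 := (hp a ha).2
      rw [abs_le] at h2
      have ha' := ha
      change |M.d o a - t| ≤ w at ha'
      rw [abs_le] at ha'
      unfold PM.gp at h1
      linarith [h2.1, ha'.2]
    have h4 := M.tri x (p x) y
    have h5 := M.tri (p x) (p y) y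
    have h6 := M.symm (p y) y
    have h7 := hdist x hx
    have h8 := hdist y hy
    linarith

end BSD
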