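import Pool.Agent.Lib.MP_8528c3_al.StG

/-!
# Burnside project, part G: the whole space with `2 q` colours
-/

namespace BSD

theorem burn_G2w (h : stG2) : stG2w := by
  intro W M δ D0 q hM hδ hSG hq hD0 hS hW r hr
  obtain ⟨o⟩ := hW
  have hr1 : 0 < r + 1 := by linarith
  have hcol : ∀ k : ℕ, Col M (Ann M o (((k : ℝ) + 1 / 2) * (r + 1)) ((r + 1) / 2)) q r
      (D0 + 3 * r + 7) := by
    intro k
    have h1 := h W M δ D0 q hM hδ hSG hq hD0 o (((k : ℝ) + 1 / 2) * (r + 1)) ((r + 1) / 2) r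
      (by linarith) hr (hS o _)
    have h2 : D0 + 4 * ((r + 1) / 2) + r + 5 = D0 + 3 * r + 7 := by ring
    rwa [h2] at h1
  choose f hf using hcol
  let k : W → ℕ := fun x => ⌊M.d o x / (r + 1)⌋₊
  have hk : ∀ x, x ∈ Ann M o (((k x : ℝ) + 1 / 2) * (r + 1)) ((r + 1) / 2) := by
    intro x
    have h1 : (k x : ℝ) ≤ M.d o x / (r + 1) :=
      Nat.floor_le (div_nonneg (M.nonneg o x) hr1.le)
    have h2 : M.d o x / (r + 1) < (k x : ℝ) + 1 := Nat.lt_floor_add_one _
    rw [le_div_iff₀ hr1] at h1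
    rw [div_lt_iff₀ hr1] at h2
    change |M.d o x - ((k x : ℝ) + 1 / 2) * (r + 1)| ≤ (r + 1) / 2
    rw [abs_le]
    constructor
    · linarith
    · linarith
  have hstep : ∀ y z : W, M.d y z ≤ r → k z ≤ k y + 1 := by
    intro y z hyz
    have h1 : (k z : ℝ) ≤ M.d o z / (r + 1) :=
      Nat.floor_le (div_nonneg (M.nonneg o z) hr1.le)
    have h2 : M.d o y / (r + 1) < (k y : ℝ) + 1 := Nat.lt_floor_add_one _
    rw [le_div_iff₀ hr1] at h1
    rw [div_lt_iff₀ hr1] at h2
    have h3 := M.tri o y z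
    have h4 : (k z : ℝ) * (r + 1) < ((k y : ℝ) + 2) * (r + 1) := by linarith
    have h5 : (k z : ℝ) < (k y : ℝ) + 2 := lt_of_mul_lt_mul_right h4 hr1.le
    have h6 : k z < k y + 2 := by exact_mod_cast h5
    omega
  refine ⟨fun x => finProdFinEquiv (⟨k x % 2, Nat.mod_lt _ two_pos⟩, f (k x) x), ?_⟩
  intro x y _ hxy
  have key : k y = k x ∧ Relation.ReflTransGen
      (Stp M (Ann M o (((k x : ℝ) + 1 / 2) * (r + 1)) ((r + 1) / 2)) (f (k x)) r) x y := by
    induction hxy with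
    | refl => exact ⟨rfl, Relation.ReflTransGen.refl⟩
    | @tail y z _ hyz ih =>
      obtain ⟨ih1, ih2⟩ := ih
      obtain ⟨-, -, h1, h2⟩ := hyz
      have h3 := finProdFinEquiv.injective h2
      rw [Prod.mk.injEq, Fin.mk.injEq] at h3
      obtain ⟨h4, h5⟩ := h3
      have h6 := hstep y z h1
      have h7 := hstep z y (by rw [M.symm]; exact h1)
      have h8 : k z = k y := by omega
      have h9 : k z = k x := h8.trans ih1
      refine ⟨h9, ih2.tail ⟨?_, ?_, h1, ?_⟩⟩
      · rw [← ih1]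
        exact hk y
      · rw [← h9]
        exact hk z
      · rw [h9, ih1] at h5
        exact h5
  exact hf (k x) x y (hk x) key.2

end BSD
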