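import Pool.Agent.Lib.MP_8528c3_al.StG

/-!
# Burnside project, part G: from local colourings to colourings of the annuli
-/

namespace BSD

theorem stp_symm_G3 {W κ : Type} (M : PM W) (S : Set W) (f : W → κ) (r : ℝ) {a b : W}
    (h : Stp M S f r a b) : Stp M S f r b a :=
  ⟨h.2.1, h.1, by rw [M.symm]; exact h.2.2.1, h.2.2.2.symm⟩

theorem chain_symm_G3 {W κ : Type} (M : PM W) (S : Set W) (f : W → κ) (r : ℝ) {a b : W}
    (h : Relation.ReflTransGen (Stp M S f r) a b) : Relation.ReflTransGen (Stp M S f r) b a := by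
  induction h with
  | refl => exact Relation.ReflTransGen.refl
  | tail _ h2 ih => exact Relation.ReflTransGen.head (stp_symm_G3 M S f r h2) ih

theorem burn_G3 (h0 : stG0) (h1 : stG1) (h1b : stG1b) (h2 : stG2) : stG3 := by
  intro W M δ R Dp q r D E hHyp hδ hSG hr0 hrR hD0 hE0 hEs hEr hDp hloc
  -- nonnegativity and monotonicity of `E`
  have hEnn : ∀ j, j ≤ q → 0 ≤ E j := by
    intro j
    induction j with
    | zero => intro _; rw [hE0]; exact hD0 0 (Nat.zero_le _)
    | succ j ih =>
      intro hj
      have a1 := ih (by omega)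
      have a2 := hD0 (j + 1) hj
      rw [hEs]
      linarith
  have hEmono : ∀ j, j ≤ q → E 0 ≤ E j := by
    intro j
    induction j with
    | zero => intro _; exact le_rfl
    | succ j ih =>
      intro hj
      have a1 := ih (by omega)
      have a2 := hD0 (j + 1) hj
      have a3 := hEnn j (by omega)
      rw [hEs]
      linarith
  have hR0 : 4 * δ + 9 ≤ R := by rw [← hr0]; exact hrR 0 (Nat.zero_le _)
  have hrnn : ∀ j, j ≤ q → 0 ≤ r j := by
    intro j hj
    rcases j with _ | j
    · rw [hr0]; linarith
    · have a1 := hEr j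
      have a2 := hEnn j (by omega)
      linarith
  have hEq := hEnn q le_rfl
  have key : ∀ (n : ℕ) (o : W) (t : ℝ), t ≤ 3 * (n : ℝ) →
      Col M (Ann M o t 3) (q + 1) (4 * δ + 9) (E q) := by
    intro n
    induction n with
    | zero =>
      intro o t ht
      have hdiam : ∀ x ∈ Ann M o t 3, ∀ y ∈ Ann M o t 3, M.d x y ≤ Dp := by
        intro x hx y hy
        have b1 : M.d o x - t ≤ 3 := (abs_le.1 (show |M.d o x - t| ≤ 3 from hx)).2
        have b2 : M.d o y - t ≤ 3 := (abs_le.1 (show |M.d o y - t| ≤ 3 from hy)).2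
        have b3 := M.tri x o y
        have b4 := M.symm x o
        simp only [Nat.cast_zero, mul_zero] at ht
        linarith
      have hc := hloc o t (Ann M o t 3) (Set.Subset.refl _) hdiam 0 (Nat.zero_le _)
      rw [hr0] at hc
      exact h0 W M _ _ _ _ _ _ _ _ hc (Set.Subset.refl _) le_rfl le_rfl
        (by rw [← hE0]; exact hEmono q le_rfl)
    | succ n ih =>
      intro o t ht
      have hs : t - 3 - R / 2 ≤ 3 * (n : ℝ) := by
        push_cast at ht
        linarith
      obtain ⟨c, hc⟩ := h2 W M δ (E q) (q + 1) hHyp hδ hSG (Nat.succ_pos _) hEq o t 3 R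
        (by norm_num) (by linarith) (ih o (t - 3 - R / 2) hs)
      -- the colour classes
      have hA : ∀ j, j ≤ q → Col M {x | x ∈ Ann M o t 3 ∧ (c x : ℕ) = j} (q + 1) (r j) (D j) := by
        intro j hj
        refine h1b W (Set W) M {x | x ∈ Ann M o t 3 ∧ (c x : ℕ) = j}
          (fun P => {x | (x ∈ Ann M o t 3 ∧ (c x : ℕ) = j) ∧
            {z | Relation.ReflTransGen (Stp M (Ann M o t 3) c R) x z} = P}) (q + 1) (r j) (D j)
          (Nat.succ_pos _) ?_ ?_ (hrnn j hj) ?_
        · intro x hx
          exact ⟨_, hx, rfl⟩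
        · intro P P' x y hx hy hxP hyP hd
          rw [← hxP.2, ← hyP.2]
          have hst : Stp M (Ann M o t 3) c R x y :=
            ⟨hx.1, hy.1, hd.trans (hrR j hj), Fin.ext (by rw [hx.2, hy.2])⟩
          ext z
          constructor
          · intro hz
            exact Relation.ReflTransGen.head (stp_symm_G3 M _ c R hst) hz
          · intro hz
            exact Relation.ReflTransGen.head hst hz
        · intro P
          refine hloc o t _ (fun x hx => hx.1.1) ?_ j hj
          intro x hx y hy
          have hxy : Relation.ReflTransGen (Stp M (Ann M o t 3) c R) x y := by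
            have e1 : y ∈ {z | Relation.ReflTransGen (Stp M (Ann M o t 3) c R) y z} :=
              Relation.ReflTransGen.refl
            rw [hy.2, ← hx.2] at e1
            exact e1
          have e2 := hc x y hx.1.1 hxy
          linarith
      -- unions of the colour classes
      have hU : ∀ j, j ≤ q →
          Col M {x | x ∈ Ann M o t 3 ∧ (c x : ℕ) ≤ j} (q + 1) (4 * δ + 9) (E j) := by
        intro j
        induction j with
        | zero =>
          intro hj
          have e1 := hA 0 hj
          rw [hr0, ← hE0] at e1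
          exact h0 W M _ _ _ _ _ _ _ _ e1 (fun x hx => ⟨hx.1, Nat.le_zero.1 hx.2⟩) le_rfl le_rfl
            le_rfl
        | succ j ihj =>
          intro hj
          have e1 := hA (j + 1) hj
          have e2 := ihj (by omega)
          have e3 := h1 W M {x | x ∈ Ann M o t 3 ∧ (c x : ℕ) = j + 1}
            {x | x ∈ Ann M o t 3 ∧ (c x : ℕ) ≤ j} (q + 1) (4 * δ + 9) (r (j + 1)) (D (j + 1)) (E j)
            (by linarith) (hD0 _ hj) (hEnn j (by omega)) (hEr j) e1 e2
          refine h0 W M _ _ _ _ _ _ _ _ e3 ?_ le_rfl le_rfl (by rw [hEs])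
          intro x hx
          rcases Nat.lt_or_ge (c x : ℕ) (j + 1) with h | h
          · exact Or.inr ⟨hx.1, by omega⟩
          · exact Or.inl ⟨hx.1, le_antisymm hx.2 h⟩
      exact h0 W M _ _ _ _ _ _ _ _ (hU q le_rfl)
        (fun x hx => ⟨hx, Nat.lt_succ_iff.1 (c x).2⟩) le_rfl le_rfl le_rfl
  intro o t
  obtain ⟨n, hn⟩ := exists_nat_ge (t / 3)
  exact key n o t (by linarith)

end BSD
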