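import Pool.Agent.Lib.MP_8528c3_al.StG

/-!
# Burnside project, module G4: colourings of thin sets
-/

namespace BSD

namespace G4aux

variable {W : Type} (M : PM W)

/-- points on almost geodesics starting at the same point fellow travel -/
theorem fellow {δ : ℝ} (hH : M.Hyp δ) (hδ : 0 ≤ δ) {o x y p p' : W} {s : ℝ}
    (hxy : s ≤ M.gp x y o) (hp : M.gp o x p ≤ 1 / 10) (hp' : M.gp o y p' ≤ 1 / 10)
    (hd : |M.d o p - s| ≤ 2 + 1 / 10) (hd' : |M.d o p' - s| ≤ 2 + 1 / 10) :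
    M.d p p' ≤ 4 * δ + 9 := by
  have h1 := hH p x y o
  have h2 := hH p y p' o
  have a1 := abs_le.mp hd
  have a2 := abs_le.mp hd'
  have e1 : M.gp p x o = M.d o p - M.gp o x p := by
    unfold PM.gp; rw [M.symm p o, M.symm x o, M.symm p x]; ring
  have e2 : M.gp y p' o = M.d o p' - M.gp o y p' := by
    unfold PM.gp; rw [M.symm p' o, M.symm y o, M.symm y p']; ring
  have e3 : M.d p p' = M.d o p + M.d o p' - 2 * M.gp p p' o := by
    unfold PM.gp; rw [M.symm p o, M.symm p' o]; ring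
  have b1 : s - (2 + 1 / 10) - 1 / 10 ≤ min (M.gp p x o) (M.gp x y o) :=
    le_min (by linarith) (by linarith)
  have b2 : s - (2 + 1 / 10) - 1 / 10 - δ ≤ min (M.gp p y o) (M.gp y p' o) :=
    le_min (by linarith) (by linarith)
  linarith

/-- if the points on the almost geodesics are close then the Gromov product is large -/
theorem prod_ge {δ : ℝ} (hH : M.Hyp δ) (hδ : 0 ≤ δ) {o x y p p' : W} {s D : ℝ} (hD : 0 ≤ D)
    (hp : M.gp o x p ≤ 1 / 10) (hp' : M.gp o y p' ≤ 1 / 10)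
    (hd : |M.d o p - s| ≤ 2 + 1 / 10) (hd' : |M.d o p' - s| ≤ 2 + 1 / 10)
    (hpp : M.d p p' ≤ D) : s - 22 / 10 - D / 2 - 2 * δ ≤ M.gp x y o := by
  have h1 := hH x p y o
  have h2 := hH p p' y o
  have a1 := abs_le.mp hd
  have a2 := abs_le.mp hd'
  have e1 : M.gp x p o = M.d o p - M.gp o x p := by
    unfold PM.gp; rw [M.symm p o, M.symm x o]; ring
  have e2 : M.gp p' y o = M.d o p' - M.gp o y p' := by
    unfold PM.gp; rw [M.symm p' o, M.symm y o, M.symm y p']; ring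
  have e3 : M.gp p p' o = (M.d o p + M.d o p' - M.d p p') / 2 := by
    unfold PM.gp; rw [M.symm p o, M.symm p' o]
  have b2 : s - 22 / 10 - D / 2 ≤ min (M.gp p p' o) (M.gp p' y o) :=
    le_min (by linarith) (by linarith)
  have b1 : s - 22 / 10 - D / 2 - δ ≤ min (M.gp x p o) (M.gp p y o) :=
    le_min (by linarith) (by linarith)
  linarith

theorem rtg_mono {R R' : W → W → Prop} (h : ∀ a e, R a e → R' a e) {x y : W}
    (hxy : Relation.ReflTransGen R x y) : Relation.ReflTransGen R' x y := by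
  induction hxy with
  | refl => exact Relation.ReflTransGen.refl
  | tail _ hyz ih => exact ih.tail (h _ _ hyz)

theorem rtg_lift {R : W → W → Prop} (g : W → W) {x y : W}
    (hxy : Relation.ReflTransGen (fun a e => R (g a) (g e)) x y) :
    Relation.ReflTransGen R (g x) (g y) := by
  induction hxy with
  | refl => exact Relation.ReflTransGen.refl
  | tail _ hyz ih => exact ih.tail hyz

theorem gp_nonneg (x y w : W) : 0 ≤ M.gp x y w := by
  unfold PM.gp
  have := M.tri x w y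
  rw [M.symm w y] at this
  linarith

/-! ### the level function -/

section level

variable (S : Set W) (o : W) (r Λ : ℝ)

/-- the level -/
noncomputable def lv (x : W) : ℝ := sInf ((fun z => FF M o r Λ x z) '' S)

variable {S o r Λ}

theorem FF_nonneg (hΛ : 1 ≤ Λ) (x z : W) : 0 ≤ FF M o r Λ x z := by
  unfold FF
  have h1 := gp_nonneg M x z o
  have h2 : 0 ≤ Λ * max 0 (M.gp o x z - r) :=
    mul_nonneg (by linarith) (le_max_left _ _)
  linarith

theorem bdd (hΛ : 1 ≤ Λ) (x : W) : BddBelow ((fun z => FF M o r Λ x z) '' S) := by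
  refine ⟨0, ?_⟩
  rintro _ ⟨z, _, rfl⟩
  exact FF_nonneg M hΛ x z

theorem lv_le (hΛ : 1 ≤ Λ) (x : W) {z : W} (hz : z ∈ S) : lv M S o r Λ x ≤ FF M o r Λ x z :=
  csInf_le (bdd M hΛ x) ⟨z, hz, rfl⟩

theorem le_lv {β : ℝ} (x : W) (hS : S.Nonempty) (h : ∀ z ∈ S, β ≤ FF M o r Λ x z) :
    β ≤ lv M S o r Λ x := by
  refine le_csInf (hS.image _) ?_
  rintro _ ⟨z, hz, rfl⟩
  exact h z hz

theorem lv_near (x : W) (hS : S.Nonempty) {η : ℝ} (hη : 0 < η) :
    ∃ z ∈ S, FF M o r Λ x z ≤ lv M S o r Λ x + η := by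
  obtain ⟨_, ⟨z, hz, rfl⟩, h⟩ := exists_lt_of_csInf_lt (hS.image (fun z => FF M o r Λ x z))
    (show sInf ((fun z => FF M o r Λ x z) '' S) < lv M S o r Λ x + η by
      show lv M S o r Λ x < _; linarith)
  exact ⟨z, hz, h.le⟩

theorem lv_nonneg (hΛ : 1 ≤ Λ) {x : W} (hx : x ∈ S) : 0 ≤ lv M S o r Λ x :=
  le_lv M x ⟨x, hx⟩ fun z _ => FF_nonneg M hΛ x z

theorem lv_le_d (hΛ : 1 ≤ Λ) (hr : 0 ≤ r) {x : W} (hx : x ∈ S) :
    lv M S o r Λ x ≤ M.d o x := by
  refine (lv_le M hΛ x hx).trans ?_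
  have h1 : M.gp o x x = 0 := by
    unfold PM.gp; rw [M.self]; ring
  have h2 : M.gp x x o = M.d o x := by
    unfold PM.gp; rw [M.self, M.symm x o]; ring
  unfold FF
  rw [h1, h2, max_eq_left (by linarith)]
  linarith

theorem d_le_lv {V : ℝ} {x : W} (hx : x ∈ S)
    (hth : ∀ z ∈ S, M.gp o z x ≤ V + Λ * max 0 (M.gp o x z - r)) :
    M.d o x - V ≤ lv M S o r Λ x := by
  refine le_lv M x ⟨x, hx⟩ fun z hz => ?_
  have h1 := hth z hz
  have h2 : M.gp x z o + M.gp o z x = M.d o x := by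
    unfold PM.gp; rw [M.symm x o, M.symm z o, M.symm z x]; ring
  unfold FF
  linarith

theorem lv_le_gp (hΛ : 1 ≤ Λ) {a e : W} (he : e ∈ S) (hae : M.d a e ≤ r) :
    lv M S o r Λ a ≤ M.gp a e o := by
  refine (lv_le M hΛ a he).trans ?_
  have h1 : M.gp o a e ≤ r := by
    unfold PM.gp
    have := M.tri o a e
    linarith
  unfold FF
  rw [max_eq_left (by linarith)]
  linarith

/-- the level is almost constant -/
theorem lv_lip {δ : ℝ} (hH : M.Hyp δ) (hΛ : 1 ≤ Λ) (hδ : 0 ≤ δ) (hr : 0 ≤ r) {u x : W}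
    (hu : u ∈ S) {τ η : ℝ} (hτ : 0 ≤ τ) (hη : 0 < η)
    (h : lv M S o r Λ u - τ ≤ M.gp x u o) :
    lv M S o r Λ x ≤ lv M S o r Λ u + r + η + Λ * (τ + δ + η) := by
  obtain ⟨z, hz, hF⟩ := lv_near M (o := o) (r := r) (Λ := Λ) u ⟨u, hu⟩ hη
  refine (lv_le M hΛ x hz).trans ?_
  obtain ⟨b, hb⟩ : ∃ b, b = lv M S o r Λ u := ⟨_, rfl⟩
  rw [← hb] at hF h ⊢
  unfold FF at hF ⊢
  have eT : M.gp o u z = M.d o z - M.gp u z o := by
    unfold PM.gp; rw [M.symm u o, M.symm z o]; ring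
  have eX : M.gp o x z = M.d o z - M.gp x z o := by
    unfold PM.gp; rw [M.symm x o, M.symm z o]; ring
  have hyp := hH x u z o
  rw [eT] at hF
  rw [eX]
  obtain ⟨A, hA⟩ : ∃ A, A = M.gp u z o := ⟨_, rfl⟩
  obtain ⟨X, hX⟩ : ∃ X, X = M.gp x z o := ⟨_, rfl⟩
  obtain ⟨D, hD⟩ : ∃ D, D = M.d o z := ⟨_, rfl⟩
  have hXD : M.gp x z o ≤ M.d o z := by
    unfold PM.gp
    have h1 := M.tri x z o
    rw [M.symm z o] at h1 ⊢
    linarith
  rw [← hA] at hyp hF
  rw [← hX] at hyp hXD ⊢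
  rw [← hD] at hXD hF ⊢
  have hm0 : 0 ≤ max 0 (D - A - r) := le_max_left _ _
  have hm1 : D - A - r ≤ max 0 (D - A - r) := le_max_right _ _
  obtain ⟨m, hm⟩ : ∃ m, m = max 0 (D - A - r) := ⟨_, rfl⟩
  rw [← hm] at hm0 hm1 hF
  have hΛm : m ≤ Λ * m := by nlinarith
  have hAb : A ≤ b + η := by linarith
  have hΛ0 : 0 ≤ Λ * (τ + δ + η) := mul_nonneg (by linarith) (by linarith)
  have hXl : A - τ - η - δ ≤ X := by
    have : A - τ - η ≤ min (M.gp x u o) A := le_min (by linarith) (by linarith)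
    linarith
  by_cases hc : D - X ≤ r
  · rw [max_eq_left (by linarith)]
    linarith
  · push Not at hc
    rw [max_eq_right (by linarith)]
    have h1 : Λ * (D - A - r) ≤ Λ * m := mul_le_mul_of_nonneg_left hm1 (by linarith)
    have h2 : (Λ - 1) * (A - τ - η - δ) ≤ (Λ - 1) * X :=
      mul_le_mul_of_nonneg_left hXl (by linarith)
    nlinarith

end level

end G4aux

open G4aux in
theorem burn_G4 (hG1a : stG1a) (hA4 : stA4) : stG4 := by
  intro W M δ D0 q hH hδ1 hSG hq hD0 hSph S o r V Λ B hr hV hΛ hB hth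
  have hδ : 0 ≤ δ := by linarith
  obtain ⟨b, hb⟩ : ∃ b : W → ℝ, b = lv M S o r Λ := ⟨_, rfl⟩
  obtain ⟨D1, hD1⟩ : ∃ D1, D1 = D0 + 16 * δ + 36 := ⟨_, rfl⟩
  obtain ⟨h, hh⟩ : ∃ h, h = D1 + 2 * δ + 10 := ⟨_, rfl⟩
  have hh0 : 0 < h := by rw [hh, hD1]; linarith
  obtain ⟨kf, hkf⟩ : ∃ kf : W → ℕ, kf = fun x => ⌊b x / h⌋₊ := ⟨_, rfl⟩
  have hb0 : ∀ x ∈ S, 0 ≤ b x := fun x hx => by rw [hb]; exact lv_nonneg M hΛ hx
  have hbd : ∀ x ∈ S, b x ≤ M.d o x := fun x hx => by rw [hb]; exact lv_le_d M hΛ hr hx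
  have hdb : ∀ x ∈ S, M.d o x - V ≤ b x := fun x hx => by
    rw [hb]; exact d_le_lv M hx (hth x hx)
  have hk1 : ∀ x ∈ S, (kf x : ℝ) * h ≤ b x := by
    intro x hx
    have := Nat.floor_le (div_nonneg (hb0 x hx) hh0.le)
    rw [hkf]
    exact (le_div_iff₀ hh0).mp this
  have hk2 : ∀ x, b x < ((kf x : ℝ) + 1) * h := by
    intro x
    have := Nat.lt_floor_add_one (b x / h)
    rw [hkf]
    exact (div_lt_iff₀ hh0).mp this
  have hk3 : ∀ (k : ℕ) (x : W), x ∈ S → (k ≤ kf x ↔ (k : ℝ) * h ≤ b x) := by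
    intro k x hx
    rw [hkf]
    rw [Nat.le_floor_iff (div_nonneg (hb0 x hx) hh0.le), le_div_iff₀ hh0]
  -- points on the almost geodesics
  have hex : ∀ (k : ℕ) (x : W), ∃ p : W, (x ∈ S → (k : ℝ) * h ≤ b x →
      M.gp o x p ≤ 1 / 10 ∧ |M.d o p - (k : ℝ) * h| ≤ 2 + 1 / 10) := by
    intro k x
    by_cases hx : x ∈ S ∧ (k : ℝ) * h ≤ b x
    · obtain ⟨p, hp1, hp2⟩ := hA4 W M 2 (by norm_num) hSG o x ((k : ℝ) * h) (1 / 10)
        (by positivity) (hx.2.trans (hbd x hx.1)) (by norm_num)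
      exact ⟨p, fun _ _ => ⟨hp1, hp2⟩⟩
    · exact ⟨o, fun h1 h2 => absurd ⟨h1, h2⟩ hx⟩
  choose pt hpt using hex
  -- colourings of the annuli
  choose c hc using hSph o
  obtain ⟨f, hf⟩ : ∃ f : W → Fin q, f = fun x => c ((kf x : ℝ) * h) (pt (kf x) x) := ⟨_, rfl⟩
  obtain ⟨L, hL⟩ : ∃ L : ℕ → Set W, L = fun k => {z | z ∈ S ∧ k ≤ kf z} := ⟨_, rfl⟩
  have hLm : ∀ k z, z ∈ L k ↔ z ∈ S ∧ k ≤ kf z := by
    intro k z; rw [hL]; rfl
  have hLp : ∀ k z, z ∈ L k → M.gp o z (pt k z) ≤ 1 / 10 ∧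
      |M.d o (pt k z) - (k : ℝ) * h| ≤ 2 + 1 / 10 := by
    intro k z hz
    obtain ⟨h1, h2⟩ := (hLm k z).mp hz
    exact hpt k z h1 ((hk3 k z h1).mp h2)
  have hAnn : ∀ k z, z ∈ L k → pt k z ∈ Ann M o ((k : ℝ) * h) 3 := by
    intro k z hz
    have := (hLp k z hz).2
    show |M.d o (pt k z) - (k : ℝ) * h| ≤ 3
    linarith
  -- chains stay inside
  have hin : ∀ (T : Set W) (x y : W), x ∈ T → Relation.ReflTransGen (Stp M T f r) x y →
      y ∈ T := by
    intro T x y hx hxy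
    induction hxy with
    | refl => exact hx
    | tail _ hyz _ => exact hyz.2.1
  have hcol : ∀ (T : Set W) (x y : W), Relation.ReflTransGen (Stp M T f r) x y →
      f x = f y := by
    intro T x y hxy
    induction hxy with
    | refl => rfl
    | tail _ hyz ih => exact ih.trans hyz.2.2.2
  -- adjacent points
  have hadj : ∀ (k : ℕ) (a e : W), a ∈ L k → e ∈ L k → M.d a e ≤ r →
      M.d (pt k a) (pt k e) ≤ 4 * δ + 9 := by
    intro k a e ha he hae
    have h1 := (hLm k a).mp ha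
    have h2 := (hk3 k a h1.1).mp h1.2
    have h3 : b a ≤ M.gp a e o := by
      rw [hb]; exact lv_le_gp M hΛ ((hLm k e).mp he).1 hae
    exact fellow M hH hδ (h2.trans h3) (hLp k a ha).1 (hLp k e he).1 (hLp k a ha).2
      (hLp k e he).2
  have hD10 : 0 ≤ D1 := by rw [hD1]; linarith
  -- the claim
  have claim : ∀ (n k : ℕ), B < ((k + n : ℕ) : ℝ) * h → ∀ x y : W, x ∈ L k →
      Relation.ReflTransGen (Stp M (L k) f r) x y → M.d (pt k x) (pt k y) ≤ D1 := by
    intro n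
    induction n with
    | zero =>
      intro k hk x y hx _
      exfalso
      obtain ⟨h1, h2⟩ := (hLm k x).mp hx
      have h3 := (hk3 k x h1).mp h2
      have h4 := hbd x h1
      have h5 := hB x h1
      rw [Nat.add_zero] at hk
      linarith
    | succ n ih =>
      intro k hk
      have ih' := ih (k + 1) (by rw [Nat.add_right_comm]; exact hk)
      -- runs in the higher part
      have hrun : ∀ e e' : W, e ∈ L (k + 1) →
          Relation.ReflTransGen (Stp M (L (k + 1)) f r) e e' →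
          M.d (pt k e) (pt k e') ≤ 4 * δ + 9 := by
        intro e e' he hee
        have he' := hin _ e e' he hee
        have h1 := ih' e e' he hee
        have h2 := prod_ge M hH hδ hD10 (hLp _ e he).1 (hLp _ e' he').1 (hLp _ e he).2
          (hLp _ e' he').2 h1
        have h3 : (k : ℝ) * h ≤ M.gp e e' o := by
          refine le_trans ?_ h2
          push_cast
          nlinarith
        have m1 : e ∈ L k := (hLm k e).mpr ⟨((hLm _ e).mp he).1,
          (Nat.le_succ k).trans ((hLm _ e).mp he).2⟩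
        have m2 : e' ∈ L k := (hLm k e').mpr ⟨((hLm _ e').mp he').1,
          (Nat.le_succ k).trans ((hLm _ e').mp he').2⟩
        exact fellow M hH hδ h3 (hLp k e m1).1 (hLp k e' m2).1 (hLp k e m1).2 (hLp k e' m2).2
      let M' : PM W :=
        { d := fun x y => M.d (pt k x) (pt k y)
          self := fun x => M.self _
          symm := fun x y => M.symm _ _
          tri := fun x y z => M.tri _ _ _ }
      let A : Set W := {z | z ∈ S ∧ kf z = k}
      have hAB : A ∪ L (k + 1) = L k := by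
        ext z
        rw [Set.mem_union, hLm, hLm]
        constructor
        · rintro (⟨h1, h2⟩ | ⟨h1, h2⟩)
          · exact ⟨h1, h2.ge⟩
          · exact ⟨h1, (Nat.le_succ k).trans h2⟩
        · rintro ⟨h1, h2⟩
          rcases h2.eq_or_lt with h3 | h3
          · exact Or.inl ⟨h1, h3.symm⟩
          · exact Or.inr ⟨h1, h3⟩
      have hAL : ∀ z ∈ A, z ∈ L k := fun z hz => by rw [← hAB]; exact Or.inl hz
      have hBL : ∀ z ∈ L (k + 1), z ∈ L k := fun z hz => by rw [← hAB]; exact Or.inr hz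
      have hfA : ∀ z ∈ A, f z = c ((k : ℝ) * h) (pt k z) := by
        intro z hz
        rw [hf]
        show c ((kf z : ℝ) * h) (pt (kf z) z) = _
        rw [hz.2]
      have key := hG1a W M' A (L (k + 1)) (fun a e => M.d a e ≤ r ∧ f a = f e)
        (fun a a' => Stp M (Ann M o ((k : ℝ) * h) 3) (c ((k : ℝ) * h)) (12 * δ + 27)
          (pt k a) (pt k a')) (4 * δ + 9) D0 (4 * δ + 9) (by linarith) hD0 (by linarith)
        (fun x y hx hxy => hrun x y hx hxy)
        (fun a e ha he hP => hadj k a e (hAB ▸ ha) (hAB ▸ he) hP.1)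
        (fun a a' ha ha' hP => ⟨hAnn k a (hAL a ha), hAnn k a' (hAL a' ha'),
          (hadj k a a' (hAL a ha) (hAL a' ha') hP.1).trans (by linarith), by
            rw [← hfA a ha, ← hfA a' ha']; exact hP.2⟩)
        (fun a e e' a' ha ha' he he' hP hP' hee => by
          refine ⟨hAnn k a (hAL a ha), hAnn k a' (hAL a' ha'), ?_, ?_⟩
          · have d1 := hadj k a e (hAL a ha) (hBL e he) hP.1
            have d2 := hrun e e' he hee
            have d3 := hadj k e' a' (hBL e' he') (hAL a' ha') hP'.1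
            have t1 := M.tri (pt k a) (pt k e) (pt k a')
            have t2 := M.tri (pt k e) (pt k e') (pt k a')
            linarith
          · rw [← hfA a ha, ← hfA a' ha', hP.2, hcol _ e e' hee, hP'.2])
        (fun a a' ha haa => by
          have h1 := rtg_lift
            (R := Stp M (Ann M o ((k : ℝ) * h) 3) (c ((k : ℝ) * h)) (12 * δ + 27)) (pt k) haa
          exact hc _ _ _ (hAnn k a (hAL a ha)) h1)
      intro x y hx hxy
      rw [← hAB] at hx
      have h1 := key x y hx (by rw [hAB]; exact hxy)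
      have h2 : M.d (pt k x) (pt k y) ≤ D0 + 2 * (4 * δ + 9) + 2 * (4 * δ + 9) := h1
      rw [hD1]; linarith
  have claim' : ∀ (k : ℕ) (x y : W), x ∈ L k →
      Relation.ReflTransGen (Stp M (L k) f r) x y → M.d (pt k x) (pt k y) ≤ D1 := by
    intro k x y hx hxy
    obtain ⟨N, hN⟩ := exists_nat_gt (B / h)
    have h1 : B < (N : ℝ) * h := (div_lt_iff₀ hh0).mp hN
    refine claim N k ?_ x y hx hxy
    push_cast
    have : 0 ≤ (k : ℝ) * h := by positivity
    nlinarith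
  -- the point of minimal level
  have hmin : ∀ x y : W, x ∈ S → Relation.ReflTransGen (Stp M S f r) x y →
      ∃ u, x ∈ L (kf u) ∧ u ∈ L (kf u) ∧ y ∈ L (kf u) ∧
        Relation.ReflTransGen (Stp M (L (kf u)) f r) x u ∧
        Relation.ReflTransGen (Stp M (L (kf u)) f r) u y := by
    intro x y hx hxy
    induction hxy with
    | refl =>
      have : x ∈ L (kf x) := (hLm _ _).mpr ⟨hx, le_refl _⟩
      exact ⟨x, this, this, this, Relation.ReflTransGen.refl, Relation.ReflTransGen.refl⟩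
    | tail _ hyz ih =>
      rename_i y z _
      obtain ⟨u, hxu, huu, hyu, c1, c2⟩ := ih
      have hzS : z ∈ S := hyz.2.1
      by_cases hk : kf u ≤ kf z
      · have hz : z ∈ L (kf u) := (hLm _ _).mpr ⟨hzS, hk⟩
        exact ⟨u, hxu, huu, hz, c1, c2.tail ⟨hyu, hz, hyz.2.2.1, hyz.2.2.2⟩⟩
      · push Not at hk
        have hsub : ∀ w, w ∈ L (kf u) → w ∈ L (kf z) := fun w hw =>
          (hLm _ _).mpr ⟨((hLm _ _).mp hw).1, hk.le.trans ((hLm _ _).mp hw).2⟩
        have hmono : ∀ a e, Stp M (L (kf u)) f r a e → Stp M (L (kf z)) f r a e :=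
          fun a e h => ⟨hsub a h.1, hsub e h.2.1, h.2.2⟩
        have hz : z ∈ L (kf z) := (hLm _ _).mpr ⟨hzS, le_refl _⟩
        refine ⟨z, hsub x hxu, hz, hz, ?_, Relation.ReflTransGen.refl⟩
        exact ((rtg_mono hmono c1).trans (rtg_mono hmono c2)).tail
          ⟨hsub y hyu, hz, hyz.2.2.1, hyz.2.2.2⟩
  obtain ⟨τ, hτ⟩ : ∃ τ, τ = h + D1 / 2 + 2 * δ + 22 / 10 := ⟨_, rfl⟩
  have hτ0 : 0 ≤ τ := by rw [hτ]; linarith
  -- the final estimates
  have fin : ∀ x y : W, x ∈ S → Relation.ReflTransGen (Stp M S f r) x y →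
      ∃ (u p : W), b x ≤ b u + r + 1 / 10 + Λ * (τ + δ + 1 / 10) ∧
        b y ≤ b u + r + 1 / 10 + Λ * (τ + δ + 1 / 10) ∧ b u - τ ≤ M.gp x y o ∧
        M.gp o x p ≤ 1 / 10 ∧ M.gp o y p ≤ 1 / 10 + D1 ∧ b u - h - (2 + 1 / 10) ≤ M.d o p := by
    intro x y hx hxy
    obtain ⟨u, hxu, huu, hyu, c1, c2⟩ := hmin x y hx hxy
    have d1 := claim' (kf u) x u hxu c1
    have d2 := claim' (kf u) u y huu c2
    have d3 := claim' (kf u) x y hxu (c1.trans c2)
    have px := hLp _ x hxu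
    have pu := hLp _ u huu
    have py := hLp _ y hyu
    have hku : b u - h ≤ (kf u : ℝ) * h := by
      have := hk2 u
      linarith
    have g1 := prod_ge M hH hδ hD10 px.1 pu.1 px.2 pu.2 d1
    have g2 := prod_ge M hH hδ hD10 py.1 pu.1 py.2 pu.2 (by rw [M.symm]; exact d2)
    have g3 := prod_ge M hH hδ hD10 px.1 py.1 px.2 py.2 d3
    have huS := ((hLm _ _).mp huu).1
    refine ⟨u, pt (kf u) x, ?_, ?_, by rw [hτ]; linarith, px.1, ?_, ?_⟩
    · rw [hb]
      refine lv_lip M hH hΛ hδ hr huS hτ0 (by norm_num) ?_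
      rw [← hb, hτ]; linarith
    · rw [hb]
      refine lv_lip M hH hΛ hδ hr huS hτ0 (by norm_num) ?_
      rw [← hb, hτ]; linarith
    · have h1 := py.1
      unfold PM.gp at h1 ⊢
      have t1 := M.tri o (pt (kf u) y) (pt (kf u) x)
      have t2 := M.tri y (pt (kf u) y) (pt (kf u) x)
      rw [M.symm (pt (kf u) y) (pt (kf u) x)] at t1 t2
      linarith
    · have := abs_le.mp px.2
      linarith
  refine ⟨f, ?_, ?_⟩
  · intro x y hx hxy
    obtain ⟨u, p, h1, h2, h3, _, _, _⟩ := fin x y hx hxy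
    have hyS := hin S x y hx hxy
    have e1 : M.d x y = M.d o x + M.d o y - 2 * M.gp x y o := by
      unfold PM.gp; rw [M.symm x o, M.symm y o]; ring
    have b1 := hdb x hx
    have b2 := hdb y hyS
    have e2 : 2 * (τ + δ + 1 / 10) * (Λ + 1) ≤ 8 * (Λ + 1) * (D0 + 18 * δ + 46) := by
      have : 2 * (τ + δ + 1 / 10) ≤ 8 * (D0 + 18 * δ + 46) := by
        rw [hτ, hh, hD1]; linarith
      nlinarith
    nlinarith
  · intro x y β hx hxy hβ
    obtain ⟨u, p, h1, h2, h3, h4, h5, h6⟩ := fin x y hx hxy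
    have hbx : β ≤ b x := by
      rw [hb]; exact le_lv M x ⟨x, hx⟩ hβ
    have e0 : 0 ≤ Λ * (D0 + 18 * δ + 46) := by
      apply mul_nonneg <;> linarith
    have e2 : 1 / 10 + D1 ≤ 8 * (Λ + 1) * (D0 + 18 * δ + 46) := by
      rw [hD1]; nlinarith
    have e3 : 1 / 10 + Λ * (τ + δ + 1 / 10) + h + (2 + 1 / 10)
        ≤ 8 * (Λ + 1) * (D0 + 18 * δ + 46) := by
      have e4 : τ + δ + 1 / 10 ≤ 2 * (D0 + 18 * δ + 46) := by
        rw [hτ, hh, hD1]; linarith
      have e5 : Λ * (τ + δ + 1 / 10) ≤ Λ * (2 * (D0 + 18 * δ + 46)) :=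
        mul_le_mul_of_nonneg_left e4 (by linarith)
      have e6 : 1 / 10 + h + (2 + 1 / 10) ≤ 2 * (D0 + 18 * δ + 46) := by
        rw [hh, hD1]; linarith
      nlinarith
    refine ⟨p, ?_, ?_, ?_⟩
    · linarith
    · linarith
    · linarith

end BSD
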