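import Pool.Agent.Lib.MP_8528c3_al.StG

set_option autoImplicit false

/-!
# Burnside project, G5: colourings of `Y i` and of its quotient by `R i`
-/

namespace BSD

namespace G5

/-- comparison with the orbit of `y0` -/
theorem key {G X : Type} [Group G] [MulAction G X] {M : PM X} (iso : Iso G M) (e : G)
    (y0 y y' : X) (a a' j : ℤ) (A : ℝ) (h : M.d y (e ^ a • y0) ≤ A)
    (h' : M.d y' (e ^ a' • y0) ≤ A) :
    M.d y (e ^ j • y') ≤ M.d y0 (e ^ (a' + j - a) • y0) + 2 * A ∧
      M.d y0 (e ^ (a' + j - a) • y0) ≤ M.d y (e ^ j • y') + 2 * A := by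
  have e1 : M.d (e ^ a • y0) (e ^ j • (e ^ a' • y0)) = M.d y0 (e ^ (a' + j - a) • y0) := by
    have h1 := iso (e ^ a) y0 (e ^ (a' + j - a) • y0)
    rw [← h1]
    congr 1
    rw [smul_smul, smul_smul, ← zpow_add, ← zpow_add]
    congr 2
    ring
  have e2 : M.d (e ^ j • y') (e ^ j • (e ^ a' • y0)) ≤ A := by
    rw [iso]; exact h'
  have s1 := M.symm (e ^ j • y') (e ^ j • (e ^ a' • y0))
  have s2 := M.symm y (e ^ a • y0)
  have t1 := M.tri y (e ^ a • y0) (e ^ j • y')
  have t2 := M.tri (e ^ a • y0) (e ^ j • (e ^ a' • y0)) (e ^ j • y')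
  have t3 := M.tri (e ^ a • y0) y (e ^ j • (e ^ a' • y0))
  have t4 := M.tri y (e ^ j • y') (e ^ j • (e ^ a' • y0))
  constructor <;> linarith

/-- the blocks of points whose residues are close -/
theorem block (a a' k n K N : ℤ) (hn : 0 < n) (hK : 0 < K) (hNK : N * K ≤ n)
    (h : |a' + n * k - a| < N) : |a' * K / n + k * K - a * K / n| ≤ 1 := by
  have b1 : a * K / n * n ≤ a * K := Int.ediv_mul_le _ hn.ne'
  have b2 : a * K < (a * K / n + 1) * n := Int.lt_ediv_add_one_mul_self _ hn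
  have b3 : a' * K / n * n ≤ a' * K := Int.ediv_mul_le _ hn.ne'
  have b4 : a' * K < (a' * K / n + 1) * n := Int.lt_ediv_add_one_mul_self _ hn
  obtain ⟨h1, h2⟩ := abs_lt.1 h
  have c1 : (a' + n * k - a) * K < n := by nlinarith
  have c2 : -n < (a' + n * k - a) * K := by nlinarith
  generalize a * K / n = b at *
  generalize a' * K / n = b' at *
  rw [abs_le]
  constructor
  · by_contra hc
    have hc' : b' + k * K + 2 ≤ b := by omega
    have := mul_le_mul_of_nonneg_right hc' hn.le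
    nlinarith
  · by_contra hc
    have hc' : b + 2 ≤ b' + k * K := by omega
    have := mul_le_mul_of_nonneg_right hc' hn.le
    nlinarith

/-- points in the same block are close -/
theorem close (a a' k n K N : ℤ) (hn : 0 < n) (hK : 0 < K) (hNK : n ≤ 2 * N * K)
    (h : a' * K / n + k * K = a * K / n) : |a' + n * k - a| ≤ 2 * N := by
  have b1 : a * K / n * n ≤ a * K := Int.ediv_mul_le _ hn.ne'
  have b2 : a * K < (a * K / n + 1) * n := Int.lt_ediv_add_one_mul_self _ hn
  have b3 : a' * K / n * n ≤ a' * K := Int.ediv_mul_le _ hn.ne'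
  have b4 : a' * K < (a' * K / n + 1) * n := Int.lt_ediv_add_one_mul_self _ hn
  generalize a * K / n = b at *
  generalize a' * K / n = b' at *
  subst h
  have c1 : (a' + n * k - a) * K < n := by nlinarith
  have c2 : -n < (a' + n * k - a) * K := by nlinarith
  rw [abs_le]
  constructor
  · by_contra hc
    have hc' : a' + n * k - a < -(2 * N) := by omega
    have := mul_lt_mul_of_pos_right hc' hK
    nlinarith
  · by_contra hc
    have hc' : 2 * N < a' + n * k - a := by omega
    have := mul_lt_mul_of_pos_right hc' hK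
    nlinarith

theorem par (b b' t : ℤ) (h : |b' + 2 * t - b| ≤ 1) (h' : Even b ↔ Even b') :
    b' + 2 * t = b := by
  rw [abs_le] at h
  rw [Int.even_iff, Int.even_iff] at h'
  omega

/-- the colour -/
def cl {X : Type} (b : X → ℤ) (x : X) : Fin 2 := if Even (b x) then 0 else 1

theorem cl_eq {X : Type} (b : X → ℤ) (x y : X) (h : cl b x = cl b y) :
    Even (b x) ↔ Even (b y) := by
  unfold cl at h
  by_cases h1 : Even (b x) <;> by_cases h2 : Even (b y) <;> simp [h1, h2] at h ⊢

/-- an integer close to `x` modulo `n` -/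
theorem near (a a' n : ℤ) (hn : 0 < n) : ∃ k : ℤ, |a' + n * k - a| ≤ n := by
  refine ⟨-((a' - a) / n), ?_⟩
  have b1 : (a' - a) / n * n ≤ a' - a := Int.ediv_mul_le _ hn.ne'
  have b2 : a' - a < ((a' - a) / n + 1) * n := Int.lt_ediv_add_one_mul_self _ hn
  rw [abs_le]
  constructor <;> nlinarith

end G5

open G5 in
theorem burn_G5 (hG5a : stG5a) (hF1 : stF1) (hF6 : stF6) (hF0b : stF0b) : stG5 := by
  intro G X I _ _ _ c M E R Y hF iso i l hl
  obtain ⟨y0, hy0⟩ := hF1 G X I c M E R Y hF i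
  obtain ⟨⟨P1, -⟩, -⟩ := hF6 G X I c M E R Y hF
  obtain ⟨e, he1, heL, hE, hYi⟩ := P1 i
  obtain ⟨τ, hτ, hτC, hτb⟩ := hG5a G X I c M E R Y hF i y0 e hy0 heL hE
  obtain ⟨-, ⟨hA0, hA1, -, -, -⟩, -⟩ := hF0b c
  have hδ := c.hδ
  have eL' := c.eL'
  have eA1 := c.eA1
  have eA3 := c.eA3
  have hA3 : 100 ≤ c.A3 := by linarith
  have hA03 : c.A0 ≤ c.A3 := by linarith
  have hst := hF.st
  -- the coordinates
  have hex : ∀ y : X, y ∈ Y i → ∃ m : ℤ, M.d y (e ^ m • y0) ≤ c.A0 := by
    intro y hy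
    refine hst.h5 e y0 y he1 ⟨?_, ?_⟩
    · have := (hYi y0).1 hy0
      linarith
    · have := (hYi y).1 hy
      linarith
  classical
  let a : X → ℤ := fun y => if h : y ∈ Y i then (hex y h).choose else 0
  have ha : ∀ y ∈ Y i, M.d y (e ^ (a y) • y0) ≤ c.A0 := by
    intro y hy
    have h1 : a y = (hex y hy).choose := dif_pos hy
    rw [h1]
    exact (hex y hy).choose_spec
  -- the comparison
  have LB : ∀ y ∈ Y i, ∀ y' ∈ Y i, ∀ j : ℤ,
      9 / 10 * τ * |((a y' + j - a y : ℤ) : ℝ)| - 30 * c.A3 - 2 * c.A0 ≤ M.d y (e ^ j • y') := by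
    intro y hy y' hy' j
    have h1 := (key iso e y0 y y' (a y) (a y') j c.A0 (ha y hy) (ha y' hy')).2
    have h2 := (hτb (a y' + j - a y)).1
    linarith
  have UB : ∀ y ∈ Y i, ∀ y' ∈ Y i, ∀ j : ℤ,
      M.d y (e ^ j • y') ≤ τ * |((a y' + j - a y : ℤ) : ℝ)| + 30 * c.A3 + 2 * c.A0 := by
    intro y hy y' hy' j
    have h1 := (key iso e y0 y y' (a y) (a y') j c.A0 (ha y hy) (ha y' hy')).1
    have h2 := (hτb (a y' + j - a y)).2
    linarith
  -- the block length
  obtain ⟨N, hN1, hN2, hN3⟩ : ∃ N : ℤ, 1 ≤ N ∧ l + 2 * c.A0 + 30 * c.A3 + 1 ≤ 9 / 10 * τ * N ∧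
      τ * N ≤ (l + 2 * c.A0 + 30 * c.A3 + 1) * (10 / 9) + τ := by
    refine ⟨⌈(l + 2 * c.A0 + 30 * c.A3 + 1) / (9 / 10 * τ)⌉, ?_, ?_, ?_⟩
    · rw [Int.one_le_ceil_iff]
      positivity
    · have h1 := Int.le_ceil ((l + 2 * c.A0 + 30 * c.A3 + 1) / (9 / 10 * τ))
      rw [div_le_iff₀ (by positivity)] at h1
      linarith
    · have h1 := (Int.ceil_lt_add_one ((l + 2 * c.A0 + 30 * c.A3 + 1) / (9 / 10 * τ))).le
      have h2 := mul_le_mul_of_nonneg_left h1 hτ.le
      have h3 : τ * ((l + 2 * c.A0 + 30 * c.A3 + 1) / (9 / 10 * τ) + 1) =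
          (l + 2 * c.A0 + 30 * c.A3 + 1) * (10 / 9) + τ := by
        field_simp
      linarith
  -- close points have close coordinates
  have CL : ∀ y ∈ Y i, ∀ y' ∈ Y i, ∀ j : ℤ, M.d y (e ^ j • y') < l + 1 →
      |a y' + j - a y| < N := by
    intro y hy y' hy' j h
    by_contra hc
    have hc' : (N : ℝ) ≤ |((a y' + j - a y : ℤ) : ℝ)| := by
      rw [← Int.cast_abs]
      exact_mod_cast not_lt.1 hc
    have h1 := LB y hy y' hy' j
    have h2 : 9 / 10 * τ * (N : ℝ) ≤ 9 / 10 * τ * |((a y' + j - a y : ℤ) : ℝ)| :=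
      mul_le_mul_of_nonneg_left hc' (by positivity)
    linarith
  -- the bound for the size
  have SZ : ∀ y ∈ Y i, ∀ y' ∈ Y i, ∀ j : ℤ, |a y' + j - a y| ≤ 2 * N →
      M.d y (e ^ j • y') ≤ 4 * l + 1000 * c.A3 := by
    intro y hy y' hy' j h
    have h1 := UB y hy y' hy' j
    have h2 : |((a y' + j - a y : ℤ) : ℝ)| ≤ 2 * N := by
      rw [← Int.cast_abs]
      exact_mod_cast h
    have h3 := mul_le_mul_of_nonneg_left h2 hτ.le
    nlinarith
  -- all points of a chain belong to `Y i`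
  have hS : ∀ (M' : PM X) (f : X → Fin 2) (x y : X), x ∈ Y i →
      Relation.ReflTransGen (Stp M' (Y i) f l) x y → y ∈ Y i := by
    intro M' f x y hx h
    induction h with
    | refl => exact hx
    | tail _ h2 _ => exact h2.2.1
  refine ⟨?_, ?_⟩
  · -- the set `Y i`
    refine ⟨cl (fun x => a x * 1 / N), ?_⟩
    intro x y hx h
    have inv : a y * 1 / N = a x * 1 / N := by
      induction h with
      | refl => rfl
      | @tail u v hu hv ih =>
        have hu' := hS M _ x u hx hu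
        obtain ⟨_, hv', hd, hc⟩ := hv
        have h1 : M.d u (e ^ (0 : ℤ) • v) < l + 1 := by
          rw [zpow_zero, one_smul]; linarith
        have h2 := CL u hu' v hv' 0 h1
        have h3 := block (a u) (a v) 0 N 1 N (by omega) one_pos (by omega)
          (by simpa using h2)
        have h4 := par (a u * 1 / N) (a v * 1 / N) 0 (by simpa using h3) (cl_eq _ u v hc)
        rw [← ih]
        omega
    have hy := hS M _ x y hx h
    have h5 := close (a x) (a y) 0 N 1 N (by omega) one_pos (by omega) (by omega)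
    have h6 := SZ x hx y hy 0 (by simpa using h5)
    rwa [zpow_zero, one_smul] at h6
  · -- the quotient
    have hn : (0 : ℤ) < c.n := by
      have := c.hn.pos
      omega
    have hR : ∀ h : G, h ∈ R i ↔ ∃ k : ℤ, h = e ^ ((c.n : ℤ) * k) := by
      intro h
      rw [hF.Rd]
      constructor
      · rintro ⟨f, hf, rfl⟩
        obtain ⟨k, rfl⟩ := (hE f).1 hf
        refine ⟨k, ?_⟩
        rw [mul_comm, zpow_mul, zpow_natCast]
      · rintro ⟨k, rfl⟩
        refine ⟨e ^ k, (hE _).2 ⟨k, rfl⟩, ?_⟩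
        rw [mul_comm, zpow_mul, zpow_natCast]
    -- upper bound in the quotient
    have UQ : ∀ x ∈ Y i, ∀ y ∈ Y i, ∀ k : ℤ, |a y + c.n * k - a x| ≤ 2 * N →
        (dqPM M (R i) iso).d x y ≤ 4 * l + 1000 * c.A3 := by
      intro x hx y hy k h
      have h1 := SZ x hx y hy (c.n * k) h
      have h2 : dqf M (R i) x y ≤ M.d x (e ^ ((c.n : ℤ) * k) • y) :=
        dqf_le M (R i) x y ((hR _).2 ⟨k, rfl⟩)
      exact h2.trans h1
    rcases lt_or_ge (c.n : ℤ) (2 * N) with hlt | hge
    · refine ⟨fun _ => 0, ?_⟩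
      intro x y hx h
      have hy := hS _ _ x y hx h
      obtain ⟨k, hk⟩ := near (a x) (a y) c.n hn
      exact UQ x hx y hy k (by omega)
    · -- the number of blocks
      have h2N : (0 : ℤ) < 2 * N := by omega
      have b1 : (c.n : ℤ) / (2 * N) * (2 * N) ≤ c.n := Int.ediv_mul_le _ h2N.ne'
      have b2 : (c.n : ℤ) < ((c.n : ℤ) / (2 * N) + 1) * (2 * N) :=
        Int.lt_ediv_add_one_mul_self _ h2N
      have b3 : 1 ≤ (c.n : ℤ) / (2 * N) := Int.le_ediv_of_mul_le h2N (by omega)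
      generalize (c.n : ℤ) / (2 * N) = q at b1 b2 b3
      have hK : (0 : ℤ) < 2 * q := by omega
      have hNK : N * (2 * q) ≤ c.n := by nlinarith
      have hNK2 : (c.n : ℤ) ≤ 2 * N * (2 * q) := by nlinarith
      refine ⟨cl (fun x => a x * (2 * q) / c.n), ?_⟩
      intro x y hx h
      have inv : ∃ k : ℤ, a y * (2 * q) / c.n + k * (2 * q) = a x * (2 * q) / c.n := by
        induction h with
        | refl => exact ⟨0, by ring⟩
        | @tail u v hu hv ih =>
          have hu' := hS _ _ x u hx hu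
          obtain ⟨_, hv', hd, hc⟩ := hv
          obtain ⟨h, hh, h1⟩ := dqf_approx M (R i) u v one_pos
          obtain ⟨k, rfl⟩ := (hR h).1 hh
          have hd' : dqf M (R i) u v ≤ l := hd
          have h2 := CL u hu' v hv' (c.n * k) (by linarith)
          have h3 := block (a u) (a v) k c.n (2 * q) N hn hK hNK h2
          have h4 := par (a u * (2 * q) / c.n) (a v * (2 * q) / c.n) (k * q)
            (by
              have : 2 * (k * q) = k * (2 * q) := by ring
              rw [this]; exact h3) (cl_eq _ u v hc)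
          obtain ⟨k', hk'⟩ := ih
          refine ⟨k + k', ?_⟩
          rw [← hk', ← h4]
          ring
      have hy := hS _ _ x y hx h
      obtain ⟨k, hk⟩ := inv
      exact UQ x hx y hy k (close (a x) (a y) k c.n (2 * q) N hn hK hNK2 hk)

end BSD
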