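import Pool.Agent.Lib.MP_8528c3_al.StG

/-!
# Burnside project, part G: colouring of the high part of the quotient of the cone-off
-/

namespace BSD

namespace G6

section Cone

variable {X I : Type} {Y : I → Set X} {ρ : ℝ}

theorem inC_of_ht {z : Co Y ρ} (h : 0 < ht z) : ∃ i, InC i z := by
  cases z with
  | base x => exact absurd h (lt_irrefl _)
  | cone i y hy s h0 h1 => exact ⟨i, rfl⟩
  | apex i => exact ⟨i, rfl⟩

theorem hti_of_inC {i : I} {z : Co Y ρ} (h : InC i z) : hti i z = ht z := by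
  cases z with
  | base x => exact absurd h id
  | cone j y hy s h0 h1 => exact if_pos h
  | apex j => exact if_pos h

theorem inC_of_hti {i : I} {z : Co Y ρ} (h : 0 < hti i z) : InC i z := by
  cases z with
  | base x => exact absurd h (lt_irrefl _)
  | cone j y hy s h0 h1 =>
    by_contra hj
    have h2 : hti i (Co.cone j y hy s h0 h1 : Co Y ρ) = 0 := if_neg hj
    rw [h2] at h
    exact lt_irrefl _ h
  | apex j =>
    by_contra hj
    have h2 : hti i (Co.apex j : Co Y ρ) = 0 := if_neg hj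
    rw [h2] at h
    exact lt_irrefl _ h

theorem inC_unique {i j : I} {z : Co Y ρ} (h : InC i z) (h' : InC j z) : i = j := by
  cases z with
  | base x => exact absurd h id
  | cone k y hy s h0 h1 => exact (show k = i from h).symm.trans h'
  | apex k => exact (show k = i from h).symm.trans h'

theorem bt_mem {i : I} {z : Co Y ρ} {y0 : I → X} (hy0 : ∀ i, y0 i ∈ Y i) (h : InC i z) :
    bt y0 z ∈ Y i := by
  cases z with
  | base x => exact absurd h id
  | cone k y hy s h0 h1 =>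
    have e : k = i := h
    subst e
    exact hy
  | apex k =>
    have e : k = i := h
    subst e
    exact hy0 k

theorem cone_of {i : I} {z : Co Y ρ} (h : InC i z) (hh : ht z < ρ) :
    ∃ (y : X) (hy : y ∈ Y i) (s : ℝ) (h0 : 0 ≤ s) (h1 : s ≤ ρ), z = Co.cone i y hy s h0 h1 := by
  cases z with
  | base x => exact absurd h id
  | cone k y hy s h0 h1 =>
    have e : k = i := h
    subst e
    exact ⟨y, hy, s, h0, h1, rfl⟩
  | apex k => exact absurd hh (lt_irrefl _)

end Cone

theorem floor_step {a b B : ℝ} (ha : 0 ≤ a) (hb : 0 ≤ b) (hB : 0 < B) (h : |a - b| < B)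
    (hp : ⌊a / B⌋₊ % 2 = ⌊b / B⌋₊ % 2) : ⌊a / B⌋₊ = ⌊b / B⌋₊ := by
  have h1 : |a / B - b / B| < 1 := by
    rw [← sub_div, abs_div, abs_of_pos hB, div_lt_one hB]
    exact h
  have h2 := abs_lt.1 h1
  have ha1 := Nat.floor_le (div_nonneg ha hB.le)
  have ha2 := Nat.lt_floor_add_one (a / B)
  have hb1 := Nat.floor_le (div_nonneg hb hB.le)
  have hb2 := Nat.lt_floor_add_one (b / B)
  have h3 : ⌊a / B⌋₊ < ⌊b / B⌋₊ + 2 := by
    have : (⌊a / B⌋₊ : ℝ) < ⌊b / B⌋₊ + 2 := by linarith
    exact_mod_cast this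
  have h4 : ⌊b / B⌋₊ < ⌊a / B⌋₊ + 2 := by
    have : (⌊b / B⌋₊ : ℝ) < ⌊a / B⌋₊ + 2 := by linarith
    exact_mod_cast this
  omega

end G6

/-- G6: colouring of the high part of the quotient of the cone-off. -/
theorem burn_G6 (h5 : stG5) (h7 : stG7) (hw : stF5w) (b7 : stB7) (b8 : stB8) (b9 : stB9)
    (c0 : stC0) : stG6 := by
  classical
  intro G X I _ _ _ c M E R Y F hY hg
  let _ := coAct c.ρ hg
  intro iso hlA r H hr hH
  have isoM : ∀ (g : G) (x y : X), M.d (g • x) (g • y) = M.d x y := F.st.iso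
  have W := hw G X I c M E R Y F hY hg
  obtain ⟨_, _, ca, cc, cin, cht, chti⟩ := c0 G X I (c.N M) Y c.ρ hY c.ρ0 hg (fun g x y => by
    change c.lam * M.d _ _ = c.lam * M.d _ _
    rw [isoM])
  have hlam := c.hlam
  have hρ0 := c.ρ0
  -- the set may be assumed to be non-empty
  rcases Set.eq_empty_or_nonempty {z : Co Y c.ρ | H < ht z} with hS | ⟨z0, hz0⟩
  · refine ⟨fun _ => 0, fun x y hx _ => ?_⟩
    rw [hS] at hx
    exact absurd hx (Set.notMem_empty x)
  have hpos : ∀ z : Co Y c.ρ, H < ht z → 0 < ht z := fun z hz => by linarith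
  obtain ⟨i0, _⟩ := G6.inC_of_ht (hpos z0 hz0)
  obtain ⟨y0, hy0⟩ : ∃ y0 : I → X, ∀ i, y0 i ∈ Y i :=
    ⟨fun i => (hY i).some, fun i => (hY i).some_mem⟩
  -- representatives of the orbits
  obtain ⟨rep, hrep1, hrep2⟩ : ∃ rep : I → I, (∀ i, ∃ k ∈ KK R, k • i = rep i) ∧
      ∀ i, ∀ k ∈ KK R, rep (k • i) = rep i := by
    refine ⟨fun i => (Quotient.mk (QS I (KK R)) i).out, fun i => ?_, fun i k hk => ?_⟩
    · have h1 : Quotient.mk (QS I (KK R)) i =
          Quotient.mk (QS I (KK R)) (Quotient.mk (QS I (KK R)) i).out :=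
        (Quotient.out_eq _).symm
      exact Quotient.exact h1
    · have h1 : Quotient.mk (QS I (KK R)) i = Quotient.mk (QS I (KK R)) (k • i) :=
        Quotient.sound ⟨k, hk, rfl⟩
      change (Quotient.mk (QS I (KK R)) (k • i)).out = (Quotient.mk (QS I (KK R)) i).out
      rw [h1]
  obtain ⟨jz, kz, hjk⟩ : ∃ (jz : Co Y c.ρ → I) (kz : Co Y c.ρ → G), ∀ z, H < ht z →
      kz z ∈ KK R ∧ InC (jz z) (kz z • z) ∧ ∀ i, InC i z → jz z = rep i := by
    have h1 : ∀ z : Co Y c.ρ, ∃ (j : I) (k : G), H < ht z →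
        k ∈ KK R ∧ InC j (k • z) ∧ ∀ i, InC i z → j = rep i := by
      intro z
      by_cases hz : H < ht z
      · obtain ⟨i, hi⟩ := G6.inC_of_ht (hpos z hz)
        obtain ⟨k, hk, hki⟩ := hrep1 i
        refine ⟨rep i, k, fun _ => ⟨hk, ?_, fun i' hi' => ?_⟩⟩
        · rw [← hki]
          exact (cin k i z).2 hi
        · rw [G6.inC_unique hi hi']
      · exact ⟨i0, 1, fun h => absurd h hz⟩
    choose j k hjk using h1
    exact ⟨j, k, hjk⟩
  -- the colourings of the sets `Y i`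
  obtain ⟨l, hl⟩ : ∃ l : ℕ → ℝ, ∀ m : ℕ,
      l m = 2 * Real.exp ((r + 1) / 2 + (m + 1) * (r + 2)) := ⟨_, fun _ => rfl⟩
  have hlpos : ∀ m, 0 < l m := fun m => by
    rw [hl]
    positivity
  have hc : ∀ (j : I) (m : ℕ), ∃ f : X → Fin 2, ∀ x y : X, x ∈ Y j →
      Relation.ReflTransGen (Stp (dqPM M (R j) isoM) (Y j) f (l m / c.lam)) x y →
      (dqPM M (R j) isoM).d x y ≤ 4 * (l m / c.lam) + 1000 * c.A3 := fun j m =>
    (h5 G X I c M E R Y F isoM j (l m / c.lam) (div_nonneg (hlpos m).le hlam.le)).2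
  choose ff hff using hc
  obtain ⟨mz, hmz⟩ : ∃ mz : Co Y c.ρ → ℕ, ∀ z, mz z = ⌊ht z / (r + 2)⌋₊ := ⟨_, fun _ => rfl⟩
  obtain ⟨yz, hyz⟩ : ∃ yz : Co Y c.ρ → X, ∀ z, yz z = bt y0 (kz z • z) := ⟨_, fun _ => rfl⟩
  have hyY : ∀ z, H < ht z → yz z ∈ Y (jz z) := fun z hz => by
    rw [hyz]
    exact G6.bt_mem hy0 (hjk z hz).2.1
  have hB : (0 : ℝ) < r + 2 := by linarith
  -- adjacent points
  have adj : ∀ z z' : Co Y c.ρ, H < ht z → H < ht z' →
      (dqPM (c.Z M hY) (KK R) iso).d z z' ≤ r →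
      jz z' = jz z ∧ |ht z - ht z'| < r + 2 ∧ ∃ g ∈ R (jz z), InC (jz z) (g • kz z' • z') ∧
        (c.Z M hY).d (kz z • z) (g • kz z' • z') < r + 1 / 2 := by
    intro z z' hz hz' hd
    obtain ⟨hk, hin, hrp⟩ := hjk z hz
    obtain ⟨hk', hin', hrp'⟩ := hjk z' hz'
    obtain ⟨k0, hk0, hd0⟩ := dqf_approx (c.Z M hY) (KK R) z z' (η := 1 / 2) (by norm_num)
    have hd1 : (c.Z M hY).d z (k0 • z') < r + 1 / 2 := by
      have : dqf (c.Z M hY) (KK R) z z' ≤ r := hd
      linarith
    obtain ⟨i, hi⟩ := G6.inC_of_ht (hpos z hz)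
    have e1 := (b9 X I (c.N M) Y c.ρ hY c.ρ0 i z (k0 • z')).1
    rw [G6.hti_of_inC hi] at e1
    have e2 := abs_le.1 (e1.trans hd1.le)
    have hi' : InC i (k0 • z') := G6.inC_of_hti (by linarith)
    have e3 : ht (k0 • z') = ht z' := cht k0 z'
    have e4 : hti i (k0 • z') = ht z' := (G6.hti_of_inC hi').trans e3
    rw [e4] at e1
    have hi'' : InC (k0⁻¹ • i) z' := by
      have := (cin k0⁻¹ i (k0 • z')).2 hi'
      rwa [inv_smul_smul] at this
    have ej : jz z' = jz z := by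
      rw [hrp' _ hi'', hrp _ hi]
      exact hrep2 i k0⁻¹ ((KK R).inv_mem hk0)
    refine ⟨ej, lt_of_le_of_lt (e1.trans hd1.le) (by linarith), kz z * k0 * (kz z')⁻¹, ?_, ?_, ?_⟩
    · apply h7 G (Co Y c.ρ) I (c.Z M hY) (fun i => Co.apex i) R _ c.ρ _ c.δ W
      · exact (KK R).mul_mem ((KK R).mul_mem hk hk0) ((KK R).inv_mem hk')
      · have f1 : kz z • i = jz z := G6.inC_unique ((cin (kz z) i z).2 hi) hin
        have f2 : kz z' • (k0⁻¹ • i) = jz z' := G6.inC_unique ((cin (kz z') _ z').2 hi'') hin'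
        rw [← ej, mul_smul, mul_smul, ← f2, inv_smul_smul, smul_inv_smul, f1, ← ej, f2]
    · have f3 : (kz z * k0 * (kz z')⁻¹) • kz z' • z' = kz z • k0 • z' := by
        rw [mul_smul, mul_smul, inv_smul_smul]
      rw [f3]
      have f1 : kz z • i = jz z := G6.inC_unique ((cin (kz z) i z).2 hi) hin
      rw [← f1]
      exact (cin (kz z) i _).2 hi'
    · have f3 : (kz z * k0 * (kz z')⁻¹) • kz z' • z' = kz z • k0 • z' := by
        rw [mul_smul, mul_smul, inv_smul_smul]
      rw [f3, iso]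
      exact hd1
  -- the end of the proof: comparison of two points of the same cone and the same strip
  have fin0 : ∀ z z' : Co Y c.ρ, H < ht z → H < ht z' → jz z' = jz z → mz z' = mz z →
      c.ρ - r - 1 < (mz z + 1 : ℝ) * (r + 2) →
      (dqPM (c.Z M hY) (KK R) iso).d z z' ≤ 4 * r + 6 := by
    intro z z' hz hz' ej em htop
    obtain ⟨hk, hin, _⟩ := hjk z hz
    obtain ⟨hk', hin', _⟩ := hjk z' hz'
    have key : ∀ (j : I) (p : Co Y c.ρ) (m : ℕ), InC j p → 0 < ht p →
        m = ⌊ht p / (r + 2)⌋₊ → c.ρ - r - 1 < (m + 1 : ℝ) * (r + 2) →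
        (c.Z M hY).d p (Co.apex j) ≤ 2 * r + 3 := by
      intro j p m hp h0 hm ht1
      have g1 : (m : ℝ) * (r + 2) ≤ ht p := by
        rw [hm, ← le_div_iff₀ hB]
        exact Nat.floor_le (div_nonneg h0.le hB.le)
      have g2 : (c.Z M hY).d p (Co.apex j) ≤ c.ρ - ht p := by
        cases p with
        | base x => exact absurd hp id
        | cone k y hy s s0 s1 =>
          have e : k = j := hp
          subst e
          exact (b8 X I (c.N M) Y c.ρ y0 hY c.ρ0 k).2.2.1 y hy s s0 s1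
        | apex k =>
          have e : k = j := hp
          subst e
          rw [(c.Z M hY).self]
          change 0 ≤ c.ρ - c.ρ
          linarith
      linarith
    have k1 := key (jz z) (kz z • z) (mz z) hin (by rw [cht]; exact hpos z hz)
      (by rw [cht, hmz]) htop
    have k2 := key (jz z) (kz z' • z') (mz z) (by rw [← ej]; exact hin')
      (by rw [cht]; exact hpos z' hz') (by rw [cht, ← em, hmz]) htop
    have k3 := (c.Z M hY).tri (kz z • z) (Co.apex (jz z)) (kz z' • z')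
    rw [(c.Z M hY).symm (Co.apex (jz z))] at k3
    have k4 : (dqPM (c.Z M hY) (KK R) iso).d z z' ≤
        (c.Z M hY).d z (((kz z)⁻¹ * kz z') • z') :=
      dqf_le _ _ _ _ ((KK R).mul_mem ((KK R).inv_mem hk) hk')
    have k5 : (c.Z M hY).d z (((kz z)⁻¹ * kz z') • z') = (c.Z M hY).d (kz z • z) (kz z' • z') := by
      rw [← iso (kz z), mul_smul, smul_inv_smul]
    linarith
  have htlt : ∀ (z : Co Y c.ρ), ht z < (mz z + 1 : ℝ) * (r + 2) := by
    intro z
    rw [hmz, ← div_lt_iff₀ hB]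
    exact Nat.lt_floor_add_one _
  have htge : ∀ (z : Co Y c.ρ), H < ht z → (mz z : ℝ) * (r + 2) ≤ ht z := by
    intro z hz
    rw [hmz, ← le_div_iff₀ hB]
    exact Nat.floor_le (div_nonneg (hpos z hz).le hB.le)
  -- a step of the chain in a low strip
  have step : ∀ z z' : Co Y c.ρ, H < ht z → H < ht z' →
      (dqPM (c.Z M hY) (KK R) iso).d z z' ≤ r → mz z' = mz z →
      (mz z + 1 : ℝ) * (r + 2) ≤ c.ρ - r - 1 →
      (dqPM M (R (jz z)) isoM).d (yz z) (yz z') ≤ l (mz z) / c.lam := by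
    intro z z' hz hz' hd em hlow
    obtain ⟨ej, _, g, hgR, hgin, hgd⟩ := adj z z' hz hz' hd
    have p1 : ht (kz z • z) = ht z := cht _ _
    have p2 : ht (g • kz z' • z') = ht z' := (cht _ _).trans (cht _ _)
    have q1 := htlt z
    have q2 := htlt z'
    rw [em] at q2
    have e7 := b7 X I (c.N M) Y c.ρ y0 hY c.ρ0 (kz z • z) (g • kz z' • z')
    have hin' := (hjk z' hz').2.1
    have hbt : bt y0 (g • kz z' • z') = g • yz z' := by
      rw [hyz]
      have hlt : ht (kz z' • z') < c.ρ := by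
        rw [cht]
        linarith
      obtain ⟨y, hy, s, s0, s1, e⟩ := G6.cone_of hin' hlt
      rw [e, cc]
      rfl
    rw [hbt, ← hyz, p1, p2] at e7
    have e8 : 2 * min c.ρ (max (max (ht z) (ht z')) (Real.log ((c.N M).d (yz z) (g • yz z') / 2)))
        ≤ r + 1 / 2 + 2 * ((mz z + 1 : ℝ) * (r + 2)) := by
      have : (coPM (c.N M) Y c.ρ hY c.ρ0).d (kz z • z) (g • kz z' • z') < r + 1 / 2 := hgd
      linarith
    have e9 : Real.log ((c.N M).d (yz z) (g • yz z') / 2) ≤
        (r + 1) / 2 + (mz z + 1 : ℝ) * (r + 2) := by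
      rcases le_total c.ρ (max (max (ht z) (ht z'))
        (Real.log ((c.N M).d (yz z) (g • yz z') / 2))) with h | h
      · rw [min_eq_left h] at e8
        linarith
      · rw [min_eq_right h] at e8
        have := le_max_right (max (ht z) (ht z')) (Real.log ((c.N M).d (yz z) (g • yz z') / 2))
        linarith
    have e10 : (c.N M).d (yz z) (g • yz z') ≤ l (mz z) := by
      rcases ((c.N M).nonneg (yz z) (g • yz z')).eq_or_lt with h | h
      · rw [← h]
        exact (hlpos _).le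
      · rw [Real.log_le_iff_le_exp (by linarith)] at e9
        rw [hl]
        linarith
    have e11 : c.lam * M.d (yz z) (g • yz z') ≤ l (mz z) := e10
    have e12 : (dqPM M (R (jz z)) isoM).d (yz z) (yz z') ≤ M.d (yz z) (g • yz z') :=
      dqf_le _ _ _ _ hgR
    refine e12.trans ?_
    rw [le_div_iff₀ hlam]
    linarith
  -- the end in a low strip
  have fin1 : ∀ z z' : Co Y c.ρ, H < ht z → H < ht z' → jz z' = jz z → mz z' = mz z →
      (mz z + 1 : ℝ) * (r + 2) ≤ c.ρ - r - 1 →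
      (dqPM M (R (jz z)) isoM).d (yz z) (yz z') ≤ 4 * (l (mz z) / c.lam) + 1000 * c.A3 →
      (dqPM (c.Z M hY) (KK R) iso).d z z' ≤ 8 * Real.exp ((r + 1) / 2) + 2 * r + 6 := by
    intro z z' hz hz' ej em hlow hd
    obtain ⟨hk, hin, _⟩ := hjk z hz
    obtain ⟨hk', hin', _⟩ := hjk z' hz'
    obtain ⟨g, hgR, hgd⟩ := dqf_approx M (R (jz z)) (yz z) (yz z') (η := 1 / c.lam)
      (by positivity)
    have e1 : c.lam * M.d (yz z) (g • yz z') ≤ 4 * l (mz z) + 2 := by
      have : dqf M (R (jz z)) (yz z) (yz z') ≤ 4 * (l (mz z) / c.lam) + 1000 * c.A3 := hd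
      have e2 : M.d (yz z) (g • yz z') ≤ 4 * (l (mz z) / c.lam) + 1000 * c.A3 + 1 / c.lam := by
        linarith
      have e3 := mul_le_mul_of_nonneg_left e2 hlam.le
      have e4 : c.lam * (4 * (l (mz z) / c.lam) + 1000 * c.A3 + 1 / c.lam) =
          4 * l (mz z) + c.lam * (1000 * c.A3) + 1 := by
        field_simp
      linarith
    have q1 := htlt z
    have q2 := htlt z'
    have q3 := htge z hz
    have q4 := htge z' hz'
    rw [em] at q2 q4
    have hlt : ht (kz z • z) < c.ρ := by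
      rw [cht]
      linarith
    have hlt' : ht (kz z' • z') < c.ρ := by
      rw [cht]
      linarith
    have hgj : g • jz z = jz z := W.rf.fix (jz z) g hgR
    have hin2 : InC (jz z) (g • kz z' • z') := by
      have : InC (g • jz z) (g • kz z' • z') := (cin g _ _).2 (by rw [← ej]; exact hin')
      rwa [hgj] at this
    have hlt2 : ht (g • kz z' • z') < c.ρ := by
      rw [cht]
      exact hlt'
    obtain ⟨y, hy, s, s0, s1, e⟩ := G6.cone_of hin hlt
    obtain ⟨y', hy', s', s0', s1', e'⟩ := G6.cone_of hin2 hlt2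
    have ey : y = yz z := by
      rw [hyz, e]
      rfl
    have ey' : y' = g • yz z' := by
      rw [hyz]
      obtain ⟨y3, hy3, s3, s03, s13, e3⟩ := G6.cone_of hin' hlt'
      rw [e3, cc] at e'
      rw [e3]
      injection e' with f1 f2
      exact f2.symm
    have es : s = ht z := by
      rw [← cht (kz z) z, e]
      rfl
    have es' : s' = ht z' := by
      rw [← cht (kz z') z', ← cht g, e']
      rfl
    have hu : (0 : ℝ) ≤ (mz z + 1 : ℝ) * (r + 2) := by positivity
    have e5 := (b8 X I (c.N M) Y c.ρ y0 hY c.ρ0 (jz z)).2.1 y y' hy hy' s s' s0 s1 s0' s1'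
      ((mz z + 1 : ℝ) * (r + 2)) hu (by linarith)
    rw [← e, ← e', ey, ey', es, es'] at e5
    have e6 : (c.N M).d (yz z) (g • yz z') * Real.exp (-((mz z + 1 : ℝ) * (r + 2))) ≤
        8 * Real.exp ((r + 1) / 2) + 2 := by
      have f1 : (c.N M).d (yz z) (g • yz z') ≤ 4 * l (mz z) + 2 := e1
      have f2 := mul_le_mul_of_nonneg_right f1 (Real.exp_pos (-((mz z + 1 : ℝ) * (r + 2)))).le
      have f3 : l (mz z) * Real.exp (-((mz z + 1 : ℝ) * (r + 2))) =
          2 * Real.exp ((r + 1) / 2) := by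
        rw [hl, mul_assoc, ← Real.exp_add]
        congr 2
        ring
      have f4 : Real.exp (-((mz z + 1 : ℝ) * (r + 2))) ≤ 1 := by
        rw [Real.exp_le_one_iff]
        linarith
      have f5 : (4 * l (mz z) + 2) * Real.exp (-((mz z + 1 : ℝ) * (r + 2))) =
          4 * (l (mz z) * Real.exp (-((mz z + 1 : ℝ) * (r + 2)))) +
            2 * Real.exp (-((mz z + 1 : ℝ) * (r + 2))) := by ring
      rw [f5, f3] at f2
      linarith
    have e7 : |ht z - (mz z + 1 : ℝ) * (r + 2)| ≤ r + 2 := by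
      rw [abs_le]
      constructor <;> linarith
    have e8 : |(mz z + 1 : ℝ) * (r + 2) - ht z'| ≤ r + 2 := by
      rw [abs_le]
      constructor <;> linarith
    have hgK : g ∈ KK R := Subgroup.subset_closure ⟨jz z, hgR⟩
    have k4 : (dqPM (c.Z M hY) (KK R) iso).d z z' ≤
        (c.Z M hY).d z (((kz z)⁻¹ * g * kz z') • z') :=
      dqf_le _ _ _ _ ((KK R).mul_mem ((KK R).mul_mem ((KK R).inv_mem hk) hgK) hk')
    have k5 : (c.Z M hY).d z (((kz z)⁻¹ * g * kz z') • z') =
        (c.Z M hY).d (kz z • z) (g • kz z' • z') := by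
      rw [← iso (kz z), mul_smul, mul_smul, smul_inv_smul]
    have e9 : (c.Z M hY).d (kz z • z) (g • kz z' • z') ≤
        |ht z - (mz z + 1 : ℝ) * (r + 2)| + |(mz z + 1 : ℝ) * (r + 2) - ht z'| +
          (c.N M).d (yz z) (g • yz z') * Real.exp (-((mz z + 1 : ℝ) * (r + 2))) := e5
    linarith
  -- the colouring
  have hcol : ∀ z : Co Y c.ρ, 2 * (mz z % 2) + (ff (jz z) (mz z) (yz z)).val < 4 := by
    intro z
    have := (ff (jz z) (mz z) (yz z)).isLt
    omega
  refine ⟨fun z => ⟨2 * (mz z % 2) + (ff (jz z) (mz z) (yz z)).val, hcol z⟩, ?_⟩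
  intro x y hx hxy
  have key : H < ht y ∧ jz y = jz x ∧ mz y = mz x ∧
      ((mz x + 1 : ℝ) * (r + 2) ≤ c.ρ - r - 1 →
        Relation.ReflTransGen (Stp (dqPM M (R (jz x)) isoM) (Y (jz x)) (ff (jz x) (mz x))
          (l (mz x) / c.lam)) (yz x) (yz y)) := by
    induction hxy with
    | refl => exact ⟨hx, rfl, rfl, fun _ => Relation.ReflTransGen.refl⟩
    | @tail b b' _ hst ih =>
      obtain ⟨hb, ejb, emb, hcb⟩ := ih
      obtain ⟨_, hb', hd, hf⟩ := hst
      have hb'' : H < ht b' := hb'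
      obtain ⟨ej, hht, _⟩ := adj b b' hb hb'' hd
      have hf' : 2 * (mz b % 2) + (ff (jz b) (mz b) (yz b)).val =
          2 * (mz b' % 2) + (ff (jz b') (mz b') (yz b')).val := congrArg Fin.val hf
      have l1 := (ff (jz b) (mz b) (yz b)).isLt
      have l2 := (ff (jz b') (mz b') (yz b')).isLt
      have hpar : mz b % 2 = mz b' % 2 := by omega
      have hcc : (ff (jz b) (mz b) (yz b)).val = (ff (jz b') (mz b') (yz b')).val := by omega
      have em : mz b = mz b' := by
        rw [hmz, hmz] at hpar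
        rw [hmz, hmz]
        exact G6.floor_step (hpos b hb).le (hpos b' hb'').le hB hht hpar
      refine ⟨hb'', ej.trans ejb, em.symm.trans emb, fun hlow => (hcb hlow).tail ?_⟩
      have hs := step b b' hb hb'' hd em.symm (by rw [emb]; exact hlow)
      refine ⟨?_, ?_, ?_, ?_⟩
      · rw [← ejb]
        exact hyY b hb
      · rw [← ejb, ← ej]
        exact hyY b' hb''
      · rw [← ejb, ← emb]
        exact hs
      · apply Fin.ext
        rw [ej, ← em, ejb, emb] at hcc
        exact hcc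
  obtain ⟨hy, ej, em, hch⟩ := key
  have hexp := Real.exp_pos ((r + 1) / 2)
  rcases lt_or_ge (c.ρ - r - 1) ((mz x + 1 : ℝ) * (r + 2)) with htop | hlow
  · have := fin0 x y hx hy ej em htop
    linarith
  · have h1 := hff (jz x) (mz x) (yz x) (yz y) (hyY x hx) (hch hlow)
    have := fin1 x y hx hy ej em hlow h1
    linarith

end BSD
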