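import Pool.Agent.Lib.MP_8528c3_al.StG

/-!
# Burnside project, part G: elements of `K` move the points far from the apexes a lot
-/

namespace BSD

theorem burn_G8 (hD7 : stD7) : stG8 := by
  intro G Z I _ _ _ M v R θ ρ C δ H k hk hk1 x a ha
  obtain ⟨i, h, -, h90, -⟩ := (hD7 G Z I M v R θ ρ C δ H k hk hk1 x).2
  have h1 := H.rf.r2 i x (k • x) (by linarith)
  have h2 : M.d (v i) (k • x) = M.d x (v (k⁻¹ • i)) := by
    rw [H.rf.vg, ← H.rf.iso k x (k⁻¹ • v i), smul_inv_smul, M.symm]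
  have h3 := ha i
  have h4 := ha (k⁻¹ • i)
  rw [h1, h2]
  linarith

end BSD
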