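import Pool.Agent.Lib.MP_8528c3_al.StG

/-!
# Burnside project, part G: lifting of local pieces of annuli of the quotient
-/

set_option autoImplicit false

namespace BSD

namespace G9Aux

/-- If all nontrivial elements of `K` move `y` by at least `2 a` then short distances to `y` are the
same in the quotient. -/
theorem lift_eq {G Z : Type} [Group G] [MulAction G Z] (M : PM Z) (K : Subgroup G) (w y : Z)
    (a : ℝ) (h8 : ∀ k ∈ K, k ≠ 1 → 2 * a ≤ M.d y (k • y)) (h : M.d w y ≤ a) :
    dqf M K w y = M.d w y := by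
  refine le_antisymm ?_ (le_dqf M K w y fun k hk => ?_)
  · have h1 := dqf_le M K w y K.one_mem
    rwa [one_smul] at h1
  · by_cases hk1 : k = 1
    · rw [hk1, one_smul]
    · have h2 := h8 k hk hk1
      have h3 := M.tri y w (k • y)
      have h4 := M.symm y w
      linarith

end G9Aux

open G9Aux in
/-- G9: local pieces of annuli of the quotient can be lifted. -/
theorem burn_G9 (hG8 : stG8) (hD8 : stD8) (hD10 : stD10) (hA4 : stA4) : stG9 := by
  intro G Z I _ _ _ M v R θ ρ C δ hW P a Dp o t hDp ha hP hPa hPt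
  obtain ⟨-, hD8'⟩ := hD8 G Z I M v R θ ρ C δ hW
  have iso := hW.rf.iso
  obtain ⟨-, hinv, -, hSG, -⟩ := hD8' iso
  have hHyp := hD10 G Z I M v R θ ρ C δ hW iso
  have hδ := hW.hδ
  rcases P.eq_empty_or_nonempty with hPe | ⟨x0, hx0⟩
  · refine ⟨fun _ => 1, o, 0, fun _ => (KK R).one_mem, ?_, ?_, ?_⟩
    · intro x hx
      rw [hPe] at hx
      exact absurd hx (Set.notMem_empty x)
    · intro x hx
      rw [hPe] at hx
      exact absurd hx (Set.notMem_empty x)
    · intro x hx
      rw [hPe] at hx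
      exact absurd hx (Set.notMem_empty x)
  obtain ⟨N, hN⟩ : ∃ N : PM Z, N = dqPM M (KK R) iso := ⟨_, rfl⟩
  have hNd : ∀ x y, N.d x y = dqf M (KK R) x y := fun x y => by
    rw [hN]
    rfl
  rw [← hN] at hinv hSG hHyp
  have hinv' : ∀ k ∈ KK R, ∀ k' ∈ KK R, ∀ x y : Z, N.d (k • x) (k' • y) = N.d x y := by
    intro k hk k' hk' x y
    rw [hinv k' hk', N.symm, hinv k hk, N.symm]
  -- the lifts
  have hex : ∀ x : Z, ∃ k ∈ KK R, M.d x0 (k • x) < N.d x0 x + 1 / 2 := by
    intro x
    rw [hNd]
    exact dqf_approx M (KK R) x0 x (by norm_num)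
  choose k hk hkd using hex
  have hkd' : ∀ x ∈ P, M.d x0 (k x • x) ≤ Dp + 1 / 2 := by
    intro x hx
    have h1 := hkd x
    have h2 := hP x0 hx0 x hx
    rw [← hNd] at h2
    linarith
  -- translations of the points of `P`
  have h8 : ∀ x ∈ P, ∀ m ∈ KK R, m ≠ 1 → 2 * a ≤ M.d (k x • x) (m • k x • x) := by
    intro x hx m hm hm1
    refine hG8 G Z I M v R θ ρ C δ hW m hm hm1 (k x • x) a fun i => ?_
    have h1 := hPa x hx ((k x)⁻¹ • i)
    rw [hW.rf.vg, ← iso (k x), smul_inv_smul] at h1
    exact h1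
  have main : ∀ (w : Z), ∀ x ∈ P, M.d w (k x • x) ≤ a → N.d w (k x • x) = M.d w (k x • x) := by
    intro w x hx h
    rw [hNd]
    exact lift_eq M (KK R) w (k x • x) a (h8 x hx) h
  -- the second centre
  obtain ⟨o2, t', h1, h2⟩ : ∃ (o2 : Z) (t' : ℝ), N.d x0 o2 ≤ Dp + δ + 61 / 10 ∧
      ∀ x ∈ P, |N.d o2 x - t'| ≤ 2 * δ + 4 := by
    rcases lt_or_ge (N.d o x0) (Dp + δ + 4) with hlt | hge
    · refine ⟨o, t, ?_, fun x hx => ?_⟩
      · rw [N.symm]
        linarith
      · have h3 := hPt x hx
        rw [← hNd] at h3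
        linarith
    · rw [N.symm] at hge
      obtain ⟨o2, ho1, ho2⟩ := hA4 Z N 2 (by norm_num) hSG x0 o (Dp + δ + 4) (1 / 10) (by linarith)
        hge (by norm_num)
      refine ⟨o2, t - N.d o2 o + δ + 1 / 10, ?_, fun x hx => ?_⟩
      · have := (abs_le.1 ho2).2
        linarith
      · have hx1 := hP x hx x0 hx0
        rw [← hNd] at hx1
        have hx2 := hPt x hx
        rw [← hNd] at hx2
        have h3 := hHyp x0 x o o2
        have h4 := N.tri x0 x o2
        have h5 := N.symm x0 x
        have h6 := (abs_le.1 ho2).1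
        have h7 := N.symm o x
        have h8 := N.symm o2 x
        have h9 := N.symm o2 o
        have h10 := N.tri x o2 o
        have h11 : δ + 19 / 10 ≤ N.gp x0 x o2 := by
          unfold PM.gp
          linarith
        have h12 : N.gp x o o2 ≤ δ + 1 / 10 := by
          rcases min_choice (N.gp x0 x o2) (N.gp x o o2) with h | h
          · rw [h] at h3
            linarith
          · rw [h] at h3
            linarith
        unfold PM.gp at h12
        rw [abs_le] at hx2 ⊢
        constructor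
        · linarith [hx2.1]
        · linarith [hx2.2]
  obtain ⟨k2, hk2, hk2d⟩ := dqf_approx M (KK R) x0 o2 (η := 1 / 2) (by norm_num)
  rw [← hNd] at hk2d
  have hd : ∀ x ∈ P, M.d (k2 • o2) (k x • x) ≤ 2 * Dp + δ + 71 / 10 := by
    intro x hx
    have h3 := M.tri (k2 • o2) x0 (k x • x)
    have h4 := M.symm (k2 • o2) x0
    have h5 := hkd' x hx
    linarith
  refine ⟨k, k2 • o2, t', hk, fun x hx y hy => ?_, fun x hx => ?_, fun x hx => ?_⟩
  · have h3 := M.tri (k x • x) x0 (k y • y)
    have h4 := M.symm (k x • x) x0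
    have h5 := hkd' x hx
    have h6 := hkd' y hy
    rw [← main (k x • x) y hy (by linarith), hinv' _ (hk x) _ (hk y), hNd]
  · have h3 := hd x hx
    linarith
  · have h3 := hd x hx
    rw [← main (k2 • o2) x hx (by linarith), hinv' _ hk2 _ (hk x)]
    exact h2 x hx

end BSD
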