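import Pool.Agent.Lib.MP_8528c3_al.AllB
import Pool.Agent.Lib.MP_8528c3_al.G0
import Pool.Agent.Lib.MP_8528c3_al.G1
import Pool.Agent.Lib.MP_8528c3_al.G1a
import Pool.Agent.Lib.MP_8528c3_al.G1b
import Pool.Agent.Lib.MP_8528c3_al.G2
import Pool.Agent.Lib.MP_8528c3_al.G2w
import Pool.Agent.Lib.MP_8528c3_al.G3
import Pool.Agent.Lib.MP_8528c3_al.G4
import Pool.Agent.Lib.MP_8528c3_al.G5
import Pool.Agent.Lib.MP_8528c3_al.G5a
import Pool.Agent.Lib.MP_8528c3_al.G6
import Pool.Agent.Lib.MP_8528c3_al.G7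
import Pool.Agent.Lib.MP_8528c3_al.G8
import Pool.Agent.Lib.MP_8528c3_al.G9

/-!
# Burnside project: part G assembled (no hypotheses left)
-/

namespace BSD

theorem okG0 : stG0 := burn_G0
theorem okG1a : stG1a := burn_G1a
theorem okG1 : stG1 := burn_G1 okG1a
theorem okG1b : stG1b := burn_G1b
theorem okG2 : stG2 := burn_G2
theorem okG2w : stG2w := burn_G2w okG2
theorem okG3 : stG3 := burn_G3 okG0 okG1 okG1b okG2
theorem okG4 : stG4 := burn_G4 okG1a okA4
theorem okG5a : stG5a := burn_G5a okE8 okE9 okF7 okF0b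
theorem okG5 : stG5 := burn_G5 okG5a okF1 okF6 okF0b
theorem okG7 : stG7 := burn_G7 okD7
theorem okG8 : stG8 := burn_G8 okD7
theorem okG9 : stG9 := burn_G9 okG8 okD8 okD10 okA4
theorem okG6 : stG6 := burn_G6 okG5 okG7 okF5w okB7 okB8 okB9 okC0

end BSD
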