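import Pool.Agent.Lib.MP_8528c3_al.StH

/-!
# Burnside project, module H1: gate lemma
-/

namespace BSD

theorem burn_H1 (b2 : stB2) (b3 : stB3) : stH1 := by
  intro X I N Y π y0 hT hP i a x q ha hx
  have key : ∀ a : X, (a ∈ Y i ∨ 17 / 100 < N.d (π i q) (π i a)) →
      N.gp q a (π i q) ≤ 9 / 100 := by
    intro a ha
    rcases ha with h | h
    · have h1 := b2 X I N Y π y0 hT hP i q a h
      linarith
    · exact (b3 X I N Y π y0 hT hP i q a).1 h
  have h1 := key a ha
  have h2 := key x hx
  unfold PM.gp at h1 h2 ⊢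
  have h3 := N.tri a (π i q) x
  have h4 := N.symm (π i q) x
  have h5 := N.symm q a
  have h6 := N.symm q x
  linarith

end BSD
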