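import Pool.Agent.Lib.MP_8528c3_al.StH

set_option autoImplicit false

/-!
# Burnside project, part H, module H10: points close to two active cones
-/

namespace BSD

theorem burn_H10 (h8 : stH8) (h9 : stH9) : stH10 := by
  intro X I N Y ρ hY hρ π y0 T o S t w rh h0 hL i j hi hj x hx y hy hxi hyj hxy
  by_contra hij
  have hr := hL.hr
  have hw := hL.hw
  have hh := hL.hh
  have hpi := hL.tg.pr.mem i x
  have hpj := hL.tg.pr.mem j y
  have h1 : N.Near (Y i) (2 * rh + 20 + rh) x := ⟨π i x, hpi, by linarith⟩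
  have h2 : N.Near (Y j) (2 * rh + 20 + rh) x := by
    refine ⟨π j y, hpj, ?_⟩
    have h3 := N.tri x y (π j y)
    linarith
  have hS := (abs_le.mp (hL.hS x hx)).1
  refine h8 X I N Y ρ hY hρ π y0 T hL.tg o i j x (2 * rh + 20 + rh) hij (by linarith) h1 h2 ?_
  intro k hk h0k
  have hact : ActI N π y0 o S rh h0 k := by
    rcases hk with hk | hk
    · rw [hk]
      exact hi
    · rw [hk]
      exact hj
  have h4 := h9 X I N Y ρ hY hρ π y0 T o S t w rh h0 hL k hact h0k
  linarith

end BSD
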