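import Pool.Agent.Lib.MP_8528c3_al.StH

/-!
# Burnside project, H11: thinness
-/

set_option autoImplicit false

namespace BSD

namespace H11

theorem big_of_log {t h : ℝ} (ht : 0 ≤ t) (h1 : 1 ≤ h) (hl : h ≤ Real.log (t / 2)) :
    54 / 10 ≤ t := by
  rcases ht.eq_or_lt with h0 | h0
  · rw [← h0] at hl
    norm_num at hl
    linarith
  · have h2 : Real.exp 1 ≤ t / 2 :=
      (Real.le_log_iff_exp_le (by linarith)).1 (h1.trans hl)
    have h3 := Real.exp_one_gt_d9
    linarith

end H11

open H11 in
/-- **H11**: thinness. -/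
theorem burn_H11 (a4 : stA4) (b3 : stB3) (b6 : stB6) (b7 : stB7) (hH1 : stH1)
    (hH2 : stH2) (hH4 : stH4) : stH11 := by
  intro X I N Y ρ hY hρ π y0 T o S t w rh h0 ls hC x hx z hz hthin
  have tg := ls.tg
  have hw := ls.hw
  have hr := ls.hr
  have hh0 := ls.hh
  have hρ1 := ls.hρ1
  have hT := tg.hT
  have hzS : z ∈ S := hz.1
  set ob : X := bt y0 o with hob
  -- the point `p`
  have s1 := N.symm x ob
  have s2 := N.symm z ob
  have s3 := N.symm x z
  have t1 := N.tri ob z x
  have t2 := N.tri ob x z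
  have t3 := N.tri x ob z
  have hs0 : 0 ≤ N.gp x z ob := by
    unfold PM.gp
    linarith
  have hs1 : N.gp x z ob ≤ N.d ob x := by
    unfold PM.gp
    linarith [N.symm z x]
  obtain ⟨p, hp1, hp2⟩ := a4 X N (1 / 100) (by norm_num) tg.th.sg ob x (N.gp x z ob) (1 / 100)
    hs0 hs1 (by norm_num)
  obtain ⟨hp3, hp4⟩ := abs_le.1 hp2
  have hhyp := tg.th.hyp p x z ob
  have s4 := N.symm p ob
  have s5 := N.symm p x
  have s6 := N.symm p z
  have t4 := N.tri ob p x
  have hpz : N.d p z ≤ rh + 11 / 10 := by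
    have h1 : N.gp x z ob - 4 / 100 ≤ N.gp p z ob := by
      have h2 : N.gp x z ob - 3 / 100 ≤ min (N.gp p x ob) (N.gp x z ob) := by
        refine le_min ?_ (by linarith)
        unfold PM.gp at hp1 hp3 hp4 ⊢
        linarith
      linarith
    unfold PM.gp at hthin h1 hp3 hp4
    linarith
  have hgoal : N.gp ob z x ≤ N.d p x + 2 / 100 := by
    unfold PM.gp at hp3 hp4 ⊢
    linarith
  by_cases hcase : ∀ i, hh N π y0 i o (Co.base x) (Co.base p) ≤ h0 + 1
  · have h0nn : 0 ≤ h0 := by linarith
    have h4 := hH4 X I N Y ρ hY hρ π y0 T tg o x p (h0 + 1) (by linarith) hρ1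
      (by linarith) hcase
    have hS1 := abs_le.1 (ls.hS x hx)
    have hS2 := abs_le.1 (ls.hS z hzS)
    have hb : (coPM N Y ρ hY hρ).d (Co.base z) (Co.base p) ≤ N.d z p := by
      exact coD_le (Co.pth_one (Mv.base z p))
    have htr := (coPM N Y ρ hY hρ).tri o (Co.base p) (Co.base z)
    have hsy := (coPM N Y ρ hY hρ).symm (Co.base z) (Co.base p)
    have hsx := (coPM N Y ρ hY hρ).symm (Co.base x) (Co.base p)
    have hd : (coPM N Y ρ hY hρ).d (Co.base p) (Co.base x) ≤ C8 T w rh h0 := by
      unfold PM.gp at h4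
      unfold C8
      linarith
    have h7 := b7 X I N Y ρ y0 hY hρ (Co.base p) (Co.base x)
    have hmin : min ρ (max (max (ht (Co.base p : Co Y ρ)) (ht (Co.base x : Co Y ρ)))
        (Real.log (N.d p x / 2))) ≤ C8 T w rh h0 / 2 := by
      change 2 * min ρ (max (max (ht (Co.base p : Co Y ρ)) (ht (Co.base x : Co Y ρ)))
        (Real.log (N.d p x / 2))) - 0 - 0 ≤ _ at h7
      linarith
    have hlog : Real.log (N.d p x / 2) ≤ C8 T w rh h0 / 2 := by
      rcases min_le_iff.1 hmin with h | h
      · linarith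
      · exact (le_max_right _ _).trans h
    have hexp : N.d p x ≤ 2 * Real.exp (C8 T w rh h0 / 2) := by
      rcases (N.nonneg p x).eq_or_lt with h | h
      · rw [← h]
        positivity
      · have := (Real.log_le_iff_le_exp (by linarith)).1 hlog
        linarith
    linarith
  · exfalso
    obtain ⟨i, hi'⟩ := not_forall.1 hcase
    have hi := not_le.1 hi'
    have h0nn : 0 ≤ h0 := by linarith
    have hxp : h0 + 1 < uu N π y0 i (Co.base x : Co Y ρ) (Co.base p) :=
      hi.trans_le ((min_le_right _ _).trans (min_le_left _ _))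
    have hop : h0 + 1 < uu N π y0 i o (Co.base p) :=
      hi.trans_le ((min_le_right _ _).trans (min_le_right _ _))
    obtain ⟨u1, u2, u3, u4, u5⟩ := hH2 X I N Y ρ π y0 hρ tg.pr o
    have hxp2 : 54 / 10 ≤ N.d (π i x) (π i p) := by
      have h2 : uu N π y0 i (Co.base x : Co Y ρ) (Co.base p) ≤
          max (max 0 0) (Real.log (N.d (π i x) (π i p) / 2)) := min_le_right _ _
      rcases lt_max_iff.1 (hxp.trans_le h2) with h3 | h3
      · norm_num at h3
        linarith
      · exact big_of_log (N.nonneg _ _) (by linarith) h3.le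
    have hop2 : ob ∈ Y i ∨ 17 / 100 < N.d (π i p) (π i ob) := by
      by_cases h1 : 0 < hti i o
      · exact Or.inl (u2 i h1)
      · right
        rw [u5 i p] at hop
        rcases lt_max_iff.1 (hop.trans_le (min_le_right _ _)) with h3 | h3
        · linarith
        · have h4 := big_of_log (h := h0 + 1) (N.nonneg _ _) (by linarith) h3.le
          rw [N.symm]
          linarith
    have hpp : N.d p (π i p) ≤ 19 / 100 := by
      have h1 := hH1 X I N Y π y0 tg.th tg.pr i ob x p hop2
        (Or.inr (by rw [N.symm]; linarith))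
      linarith
    have hzz : N.d z (π i z) ≤ 2 * rh + 20 := by
      have h1 := tg.pr.le i z (π i p) (tg.pr.mem i p)
      have h2 := N.tri z p (π i p)
      linarith
    have hzp : uu N π y0 i (Co.base z : Co Y ρ) (Co.base p) ≤ h0 := by
      have h2 : uu N π y0 i (Co.base z : Co Y ρ) (Co.base p) ≤
          max (max 0 0) (Real.log (N.d (π i z) (π i p) / 2)) := min_le_right _ _
      refine h2.trans (max_le (by simpa using h0nn) ?_)
      have h3 := (b3 X I N Y π y0 tg.th tg.pr i z p).2
      have h4 := Real.log_le_self (x := N.d (π i z) (π i p) / 2)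
        (by linarith [N.nonneg (π i z) (π i p)])
      linarith
    have h6 := (b6 X I N Y ρ π y0 hρ i o (Co.base z) (Co.base p)).2.2.2.2
    have hoz : h0 ≤ uu N π y0 i o (Co.base z : Co Y ρ) := by
      rcases le_max_iff.1 (le_refl (max (uu N π y0 i o (Co.base z : Co Y ρ))
        (uu N π y0 i (Co.base z : Co Y ρ) (Co.base p)))) with h | h
      · linarith
      · linarith
    have := hz.2 i ⟨z, hzS, hzz, hoz⟩
    linarith

end BSD
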