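import Pool.Agent.Lib.MP_8528c3_al.StH

/-!
# Burnside project, part H, item H13: return lemma
-/

namespace BSD

theorem burn_H13 (h2 : stH2) (h3 : stB3) (h5 : stH5) (h7 : stH7) (h8 : stH8) (h8B : stB8)
    (h9 : stH9) : stH13 := by
  intro X I N Y ρ hY hρ π y0 T o S t w rh h0 hL i j hAi hAj a ha a' ha' hda hda' b hb b' hb'
    hab hba hg p hp hp' hlen
  obtain ⟨ob, hob⟩ : ∃ ob, ob = bt y0 o := ⟨_, rfl⟩
  obtain ⟨q, hq⟩ : ∃ q, q = π i b := ⟨_, rfl⟩
  have hTH := hL.tg.th
  have hPr := hL.tg.pr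
  have hyp := hTH.hyp
  have hT := hL.tg.hT
  have hw := hL.hw
  have hr := hL.hr
  have hh0 := hL.hh
  have hqY : q ∈ Y i := by rw [hq]; exact hPr.mem i b
  rw [← hob, ← hq] at hg hlen
  rw [← hob] at hp hp'
  -- distances
  have t1 := N.tri ob q p
  have t2 := hyp ob q b p
  have t3 := hyp ob q b' p
  have s1 := N.symm q p
  have s2 := N.symm b p
  have s3 := N.symm b' p
  have s4 := N.symm b q
  have s5 := N.symm b' q
  have s6 := N.symm ob q
  have s7 := N.symm ob p
  have g1 : 17 ≤ N.gp ob q p := by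
    unfold PM.gp
    linarith
  have g2 : N.gp q b p ≤ 2 / 100 := by
    rcases min_le_iff.1 (show min (N.gp ob q p) (N.gp q b p) ≤ 2 / 100 by linarith) with h | h
    · linarith
    · exact h
  have g3 : N.gp q b' p ≤ 2 / 100 := by
    rcases min_le_iff.1 (show min (N.gp ob q p) (N.gp q b' p) ≤ 2 / 100 by linarith) with h | h
    · linarith
    · exact h
  have g4 : 16 + 98 / 100 ≤ N.gp p b q := by
    unfold PM.gp at g2 ⊢
    linarith
  have g5 : 16 + 98 / 100 ≤ N.gp p b' q := by
    unfold PM.gp at g3 ⊢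
    linarith
  have g4' : 16 + 98 / 100 ≤ N.gp b p q := by
    have e := N.symm b p
    unfold PM.gp at g4 ⊢
    linarith
  have g6 : 16 ≤ N.gp b b' q := by
    have e := hyp b p b' q
    have e1 : 16 + 98 / 100 ≤ min (N.gp b p q) (N.gp p b' q) := le_min g4' g5
    linarith
  have g7 : N.d (π i b) (π i b') ≤ 17 / 100 := by
    by_contra hcon
    have e := (h3 X I N Y π y0 hTH hPr i b b').1 (not_le.1 hcon)
    rw [← hq] at e
    linarith
  -- the gates
  have gate : N.d (π i a) (π i a') ≤ 2 * rh + 1 := by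
    have e1 := (h3 X I N Y π y0 hTH hPr i a b).2
    have e2 := (h3 X I N Y π y0 hTH hPr i b' a').2
    have e3 := N.tri (π i a) (π i b) (π i a')
    have e4 := N.tri (π i b) (π i b') (π i a')
    linarith
  refine ⟨?_, gate⟩
  by_contra hij
  have g8 : N.gp ob p q ≤ 10 / 100 := by
    have e := hyp ob p b q
    rcases min_le_iff.1 (show min (N.gp ob p q) (N.gp p b q) ≤ 10 / 100 by linarith) with h | h
    · exact h
    · linarith
  have g9 : N.gp ob b' q ≤ 11 / 100 := by
    have e := N.tri q p b'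
    have e1 := N.symm p b'
    have e2 := N.symm p q
    unfold PM.gp at g8 g3 hp' ⊢
    linarith
  have hbq' : 2 * rh + 20 < N.d b' (π i b') := hb'.2 i hAi
  have hle := hPr.le i b' q hqY
  have g10 : rh + 19 ≤ N.gp a' b' q := by
    have e1 := N.tri b' a' q
    unfold PM.gp
    have e2 := N.symm a' b'
    linarith
  have g11 : N.gp ob a' q ≤ 12 / 100 := by
    have e := hyp ob a' b' q
    rcases min_le_iff.1 (show min (N.gp ob a' q) (N.gp a' b' q) ≤ 12 / 100 by linarith) with h | h
    · exact h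
    · linarith
  -- heights and distances of the cone-off
  obtain ⟨k1, k2, k3, -, -⟩ := h2 X I N Y ρ π y0 hρ hPr o
  have low : t - w - (3 * rh + 20 + 1 / 100) ≤ (coPM N Y ρ hY hρ).d o (Co.base q) := by
    have e1 := abs_le.1 (hL.hS b hb.1)
    have e2 := (h8B X I N Y ρ y0 hY hρ i).1 q b
    have e3 := (coPM N Y ρ hY hρ).tri o (Co.base q) (Co.base b)
    have e4 := hPr.le i b (π i a) (hPr.mem i a)
    have e5 := N.tri b a (π i a)
    have e6 := N.symm a b
    rw [← hq] at e4
    linarith [e1.1]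
  have ent : ∀ k, (k = i ∨ k = j) → hti k o = 0 →
      (coPM N Y ρ hY hρ).d o (Co.base (π k (bt y0 o))) + 2 * h0 ≤
        t + w + (2 * rh + 20) + 2 * T + 6 := by
    intro k hk hk0
    refine h9 X I N Y ρ hY hρ π y0 T o S t w rh h0 hL k ?_ hk0
    rcases hk with rfl | rfl
    · exact hAi
    · exact hAj
  have near : N.Near (Y j) (2 * rh + 21) q := by
    rcases h7 X I N Y hTH j ob (π j ob) a' (π j a') q (12 / 100) (hPr.mem j ob) (hPr.mem j a')
      g11 with h | ⟨z, hz, hqz⟩
    · rcases (k1 j).eq_or_lt with hj | hj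
      · exfalso
        have e1 := h5 X I N Y ρ hY hρ π y0 T hL.tg o (π j ob) q (by rw [← hob]; linarith)
        have e2 := ent j (Or.inr rfl) hj.symm
        rw [← hob] at e2
        linarith
      · have e1 := k3 j hj
        have e2 := k2 j hj
        rw [← hob] at e1 e2
        rw [e1] at h
        refine ⟨ob, e2, ?_⟩
        have e3 := N.self ob
        have e4 := N.symm ob q
        unfold PM.gp at h
        linarith
    · exact ⟨z, hz, by linarith⟩
  refine h8 X I N Y ρ hY hρ π y0 T hL.tg o i j q (2 * rh + 21) hij (by linarith)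
    ⟨q, hqY, by rw [N.self]; linarith⟩ near fun k hk hk0 => ?_
  have e := ent k hk hk0
  linarith

end BSD
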