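import Pool.Agent.Lib.MP_8528c3_al.StH

/-!
# Burnside project, H17: from the quotient pseudo-metric to the set of orbits
-/

namespace BSD

theorem burn_H17 : stH17 := by
  intro G Z _ _ K M iso q r w D h o t
  have hd : ∀ a b : QZ Z K, (qM M K iso).d a b =
      (dqPM M K iso).d (Quotient.out a) (Quotient.out b) := by
    intro a b
    have ha : qz K (Quotient.out a) = a := Quotient.out_eq a
    have hb : qz K (Quotient.out b) = b := Quotient.out_eq b
    have h1 := qM_d M K iso (Quotient.out a) (Quotient.out b)
    rw [ha, hb] at h1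
    exact h1
  obtain ⟨f, hf⟩ := h (Quotient.out o) t
  refine ⟨fun z => f (Quotient.out z), ?_⟩
  have hS : ∀ a : QZ Z K, a ∈ Ann (qM M K iso) o t w →
      Quotient.out a ∈ Ann (dqPM M K iso) (Quotient.out o) t w := by
    intro a ha
    change |(dqPM M K iso).d (Quotient.out o) (Quotient.out a) - t| ≤ w
    rw [← hd]
    exact ha
  intro x y hx hxy
  have key : ∀ y : QZ Z K, Relation.ReflTransGen (Stp (qM M K iso) (Ann (qM M K iso) o t w)
      (fun z => f (Quotient.out z)) r) x y →
      Relation.ReflTransGen (Stp (dqPM M K iso) (Ann (dqPM M K iso) (Quotient.out o) t w) f r)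
        (Quotient.out x) (Quotient.out y) := by
    intro y hxy
    induction hxy with
    | refl => exact Relation.ReflTransGen.refl
    | tail _ hbc ih =>
      refine ih.tail ⟨hS _ hbc.1, hS _ hbc.2.1, ?_, hbc.2.2.2⟩
      rw [← hd]
      exact hbc.2.2.1
  rw [hd]
  exact hf _ _ (hS x hx) (key y hxy)

end BSD
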