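import Pool.Agent.Lib.MP_8528c3_al.StH

/-!
# Burnside project, part H: annuli of `0`-hyperbolic spaces
-/

namespace BSD

theorem burn_H18 : stH18 := by
  intro X M hM r w hr hw o t
  refine ⟨fun _ => 0, ?_⟩
  intro x y hx hxy
  have hann : ∀ z, z ∈ Ann M o t w → t - w ≤ M.d z o ∧ M.d z o ≤ t + w := by
    intro z hz
    change |M.d o z - t| ≤ w at hz
    rw [abs_le] at hz
    rw [M.symm z o]
    constructor <;> linarith [hz.1, hz.2]
  have key : y ∈ Ann M o t w ∧ t - w - r / 2 ≤ M.gp x y o := by
    induction hxy with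
    | refl =>
      refine ⟨hx, ?_⟩
      have h1 := (hann x hx).1
      unfold PM.gp
      rw [M.self]
      linarith
    | @tail y z _ hyz ih =>
      obtain ⟨h1, h2⟩ := ih
      obtain ⟨-, h3, h4, -⟩ := hyz
      refine ⟨h3, ?_⟩
      have h5 : t - w - r / 2 ≤ M.gp y z o := by
        have h6 := (hann y h1).1
        have h7 := (hann z h3).1
        unfold PM.gp
        linarith
      have h8 := hM x y z o
      have h9 : t - w - r / 2 ≤ min (M.gp x y o) (M.gp y z o) := le_min h2 h5
      linarith
  obtain ⟨h1, h2⟩ := key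
  have h3 := (hann x hx).2
  have h4 := (hann y h1).2
  unfold PM.gp at h2
  linarith

end BSD
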