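import Pool.Agent.Lib.MP_8528c3_al.StH

/-!
# Burnside project: H2, elementary facts on heights
-/

namespace BSD

open Classical in
theorem burn_H2 : stH2 := by
  intro X I N Y ρ π y0 hρ pr o
  have h1 : ∀ i, 0 ≤ hti i o := by
    intro i
    cases o with
    | base x => exact le_rfl
    | cone j y hy s h0 h1 =>
      show 0 ≤ (if j = i then s else 0)
      split_ifs
      · exact h0
      · exact le_rfl
    | apex j =>
      show 0 ≤ (if j = i then ρ else 0)
      split_ifs
      · exact hρ
      · exact le_rfl
  have h2 : ∀ i, 0 < hti i o → bt y0 o ∈ Y i := by
    intro i hi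
    cases o with
    | base x => exact absurd hi (lt_irrefl _)
    | cone j y hy s h0 h1 =>
      change 0 < (if j = i then s else 0) at hi
      split_ifs at hi with h
      · subst h
        exact hy
      · exact absurd hi (lt_irrefl _)
    | apex j =>
      change 0 < (if j = i then ρ else 0) at hi
      split_ifs at hi with h
      · subst h
        exact pr.y0 j
      · exact absurd hi (lt_irrefl _)
  refine ⟨h1, h2, fun i hi => pr.fix i _ (h2 i hi), ?_, ?_⟩
  · intro i j hi hj
    cases o with
    | base x => exact absurd hi (lt_irrefl _)
    | cone k y hy s h0 h1 =>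
      change 0 < (if k = i then s else 0) at hi
      change 0 < (if k = j then s else 0) at hj
      split_ifs at hi hj with h h'
      · rw [← h, ← h']
      · exact absurd hj (lt_irrefl _)
      · exact absurd hi (lt_irrefl _)
      · exact absurd hi (lt_irrefl _)
    | apex k =>
      change 0 < (if k = i then ρ else 0) at hi
      change 0 < (if k = j then ρ else 0) at hj
      split_ifs at hi hj with h h'
      · rw [← h, ← h']
      · exact absurd hj (lt_irrefl _)
      · exact absurd hi (lt_irrefl _)
      · exact absurd hi (lt_irrefl _)
  · intro i x
    have e1 : hti i (Co.base x : Co Y ρ) = 0 := rfl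
    have e2 : bt y0 (Co.base x : Co Y ρ) = x := rfl
    unfold uu
    rw [e1, e2, max_eq_left (h1 i)]

end BSD
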