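import Pool.Agent.Lib.MP_8528c3_al.StH
import Pool.Agent.Lib.MP_8528c3_al.StG

/-!
# Burnside project, H20: the annuli of all the stages have colourings
-/

namespace BSD

theorem burn_H20 (hF16a : stF16a) (hG0 : stG0) (h17 : stH17) (h18 : stH18) (h19 : stH19) :
    stH20 := by
  intro δ T hδ hT
  obtain ⟨Dst, ρ2, hD, h⟩ := h19 δ T hδ hT
  refine ⟨Dst, ρ2, hD, fun k hk1 hk2 hk3 => ?_⟩
  obtain ⟨ε, hε, h'⟩ := h k hk1 hk2 hk3
  refine ⟨ε, hε, fun c hc hl α _ i => ?_⟩
  induction i with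
  | zero =>
    have h0 : Sph (fgPM α) 1 (4 * δ + 9) 3 (4 * δ + 9 + 4 * 3) :=
      h18 (FreeGroup α) (fgPM α) (hF16a α).1 (4 * δ + 9) 3 (by linarith) (by norm_num)
    intro o t
    exact hG0 _ _ _ _ 1 4 _ _ _ _ (h0 o t) (Set.Subset.refl _) (by norm_num) le_rfl
      (by linarith)
  | succ i ih =>
    have h1 := h' c hc hl (stg c α i).G (stg c α i).X (stg c α i).J (stg c α i).M
      (stg c α i).E (stg c α i).R (stg c α i).Y ((stg c α i).fs okHF) ((stg c α i).hY okHF)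
      ((stg c α i).hg okHF) ((stg c α i).iso okHF) ih
    letI := (stg c α i).act okHF
    have h2 := h17 (stg c α i).G (stg c α i).C (stg c α i).K ((stg c α i).MC okHF)
      ((stg c α i).iso okHF) 4 (4 * δ + 9) 3 Dst h1
    exact h2

end BSD
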