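import Pool.Agent.Lib.MP_8528c3_al.StH

/-!
# Burnside project, H3: gates of a point of a segment
-/

namespace BSD

theorem burn_H3 (hB2 : stB2) (hF7b : stF7b) : stH3 := by
  intro X I N Y π y0 hT hP i a x q hq
  have s1 := N.symm (π i a) (π i q)
  have s2 := N.symm (π i q) (π i x)
  have t1 := N.tri (π i q) (π i a) (π i x)
  have t2 := N.tri (π i a) (π i x) (π i q)
  have s3 := N.symm (π i x) (π i q)
  by_cases h1 : N.d (π i a) (π i q) ≤ 17 / 100
  · linarith
  by_cases h2 : N.d (π i q) (π i x) ≤ 17 / 100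
  · linarith
  rw [not_le] at h1 h2
  have f1 := (hF7b X N (1 / 100) (8 / 100) hT.hyp a (π i a) (π i q) q
    (hB2 X I N Y π y0 hT hP i a _ (hP.mem i q)) (hB2 X I N Y π y0 hT hP i q _ (hP.mem i a))
    (by linarith)).2.2
  have f2 := (hF7b X N (1 / 100) (8 / 100) hT.hyp q (π i q) (π i x) x
    (hB2 X I N Y π y0 hT hP i q _ (hP.mem i x)) (hB2 X I N Y π y0 hT hP i x _ (hP.mem i q))
    (by linarith)).2.2
  have n1 := N.nonneg (π i q) q
  have n2 := N.nonneg q (π i q)
  have t3 := N.tri a (π i a) x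
  have t4 := N.tri (π i a) (π i x) x
  have s4 := N.symm x q
  unfold PM.gp at hq
  linarith

end BSD
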