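import Pool.Agent.Lib.MP_8528c3_al.StH

/-!
# Burnside project: H4 (points where no climb is high are close to the segment of the cone-off)
-/

namespace BSD

theorem burn_H4 (h12 : stB12) (h14 : stB14) : stH4 := by
  intro X I N Y ρ hY hρ π y0 T tg o x q h hh1 hhρ hgp hhi
  set Z := coPM N Y ρ hY hρ with hZ
  obtain ⟨hex, -, -⟩ := h12 X I N Y ρ π y0 tg.r20 tg.th tg.pr
  obtain ⟨p, hp⟩ := hex o (Co.base x) (Co.base q)
  have hT := tg.med o (Co.base x) (Co.base q) p hp
  -- distance of the median to the point of the base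
  have key : Z.d p (Co.base q) ≤ h + 2 * Real.exp h + 3 := by
    have hexp : 0 < Real.exp h := Real.exp_pos h
    rcases hp with ⟨i, hi1, hi2⟩ | ⟨-, o', rfl, e1, e2, e3⟩
    · apply h14 X I N Y ρ π y0 hY hρ tg.r20 tg.th tg.pr i o (Co.base x) (Co.base q) p h q hhρ hi1
        (hhi i) hi2
      · have e : (bt y0 (Co.base x : Co Y ρ)) = x := rfl
        rw [e]
        linarith
      · show N.gp x q q ≤ 1
        unfold PM.gp
        rw [N.self]
        have : (N.d x q + 0 - N.d x q) / 2 = 0 := by ring
        rw [this]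
        norm_num
      · show N.gp (bt y0 o) q q ≤ 1
        unfold PM.gp
        rw [N.self]
        have : (N.d (bt y0 o) q + 0 - N.d (bt y0 o) q) / 2 = 0 := by ring
        rw [this]
        norm_num
    · have f1 : N.gp (bt y0 o) x o' ≤ 1 / 20 := e1
      have f2 : N.gp x q o' ≤ 1 / 20 := e2
      have f3 : N.gp (bt y0 o) q o' ≤ 1 / 20 := e3
      unfold PM.gp at f1 f2 f3 hgp
      have g1 := N.tri (bt y0 o) o' x
      have g2 := N.symm o' x
      have g3 := N.symm q o'
      have hd : N.d o' q ≤ 45 / 100 := by linarith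
      have hb : Z.d (Co.base o') (Co.base q) ≤ N.d o' q :=
        coD_le (Co.pth_one (Mv.base o' q))
      linarith
  have t1 := Z.tri o p (Co.base q)
  have t2 := Z.tri (Co.base x) p (Co.base q)
  unfold PM.gp at hT ⊢
  linarith

end BSD
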