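import Pool.Agent.Lib.MP_8528c3_al.StH

/-!
# Burnside project, H5: monotonicity of the distance of the cone-off along segments of the base
-/

set_option autoImplicit false

namespace BSD

namespace H5

variable {X I : Type} {N : PM X} {Y : I → Set X} {ρ : ℝ} {π : I → X → X} {y0 : I → X}

theorem exp_le_of_one_le_log {t : ℝ} (ht : 0 ≤ t) (h : 1 ≤ Real.log (t / 2)) : 54 / 10 ≤ t := by
  rcases ht.eq_or_lt with h0 | h0
  · rw [← h0] at h
    norm_num at h
  · have h1 : Real.exp 1 ≤ t / 2 := (Real.le_log_iff_exp_le (by linarith)).1 h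
    have h2 := Real.exp_one_gt_d9
    linarith

theorem exp_seven : Real.exp (7 / 10) ≤ 2025 / 1000 := by
  have h1 : Real.exp (7 / 10) = Real.exp 1 * Real.exp (-(3 / 10)) := by
    rw [← Real.exp_add]
    norm_num
  have h2 : Real.exp (-(3 / 10 : ℝ)) = (Real.exp (3 / 10))⁻¹ := Real.exp_neg _
  have h3 : (134980 : ℝ) / 100000 ≤ Real.exp (3 / 10) := by
    have h := Real.sum_le_exp_of_nonneg (x := 3 / 10) (by norm_num) 5
    simp only [Finset.sum_range_succ, Finset.sum_range_zero, Nat.factorial] at h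
    norm_num at h
    linarith
  have h4 : Real.exp (-(3 / 10 : ℝ)) ≤ 100000 / 134980 := by
    rw [h2]
    have : (Real.exp (3 / 10))⁻¹ ≤ ((134980 : ℝ) / 100000)⁻¹ :=
      inv_anti₀ (by norm_num) h3
    calc (Real.exp (3 / 10))⁻¹ ≤ ((134980 : ℝ) / 100000)⁻¹ := this
      _ = 100000 / 134980 := by norm_num
  have h5 := Real.exp_one_lt_d9
  have h6 := Real.exp_pos (-(3 / 10 : ℝ))
  rw [h1]
  nlinarith [Real.exp_pos (1 : ℝ)]

end H5

open H5 in
/-- **H5**: monotonicity of the distance of the cone-off along segments of the base. -/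
theorem burn_H5 (h6 : stB6) (h8 : stB8) (h9 : stB9) (h12 : stB12) (h13 : stB13) (hH1 : stH1)
    (hH2 : stH2) (hH3 : stH3) : stH5 := by
  intro X I N Y ρ hY hρ π y0 T tg o x q hgp
  obtain ⟨p, hp⟩ := (h12 X I N Y ρ π y0 tg.r20 tg.th tg.pr).1 o (Co.base x) (Co.base q)
  have hT := tg.med o (Co.base x) (Co.base q) p hp
  unfold PM.gp at hT hgp
  have hsy := (coPM N Y ρ hY hρ).symm (Co.base x) p
  have htri := (coPM N Y ρ hY hρ).tri o p (Co.base q)
  have hnn := (coPM N Y ρ hY hρ).nonneg (Co.base x) p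
  rcases hp with ⟨i, hi, hmu⟩ | ⟨_, o', rfl, e1, e2, e3⟩
  · -- cone type
    have B8 := h8 X I N Y ρ y0 hY hρ i
    obtain ⟨u1, u2, u3, u4, u5⟩ := hH2 X I N Y ρ π y0 hρ tg.pr o
    obtain ⟨b1, b2, b3, b4, b5⟩ := h6 X I N Y ρ π y0 hρ i o (Co.base x) (Co.base q)
    obtain ⟨c1, c2, c3, c4, c5⟩ := h6 X I N Y ρ π y0 hρ i (Co.base x) o (Co.base q)
    have hle1 : hh N π y0 i o (Co.base x) (Co.base q) ≤ uu N π y0 i o (Co.base x) :=
      min_le_left _ _
    have hle2 : hh N π y0 i o (Co.base x) (Co.base q) ≤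
        uu N π y0 i (Co.base x : Co Y ρ) (Co.base q) :=
      (min_le_right _ _).trans (min_le_left _ _)
    have hle3 : hh N π y0 i o (Co.base x) (Co.base q) ≤ uu N π y0 i o (Co.base q) :=
      (min_le_right _ _).trans (min_le_right _ _)
    set h : ℝ := hh N π y0 i o (Co.base x) (Co.base q) with hdef
    have hh0 : 0 ≤ h := by linarith
    have hhρ : h ≤ ρ := hle1.trans b3
    -- distances of the gates
    have hxq : 54 / 10 ≤ N.d (π i x) (π i q) := by
      refine exp_le_of_one_le_log (N.nonneg _ _) ?_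
      have h1 : (1 : ℝ) ≤ uu N π y0 i (Co.base x : Co Y ρ) (Co.base q) := hi.trans hle2
      have h2 : uu N π y0 i (Co.base x : Co Y ρ) (Co.base q) ≤
          max (max 0 0) (Real.log (N.d (π i x) (π i q) / 2)) := min_le_right _ _
      rcases le_max_iff.1 (h1.trans h2) with h3 | h3
      · norm_num at h3
      · exact h3
    have hoq : bt y0 o ∈ Y i ∨ 17 / 100 < N.d (π i q) (π i (bt y0 o)) := by
      by_cases h0 : 0 < hti i o
      · exact Or.inl (u2 i h0)
      · right
        have h1 : (1 : ℝ) ≤ uu N π y0 i o (Co.base q) := hi.trans hle3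
        rw [u5 i q] at h1
        rcases le_max_iff.1 (h1.trans (min_le_right _ _)) with h3 | h3
        · linarith
        · have h4 := exp_le_of_one_le_log (N.nonneg _ _) h3
          rw [N.symm]
          linarith
    have hqq : N.d q (π i q) ≤ 53 / 100 := by
      have h1 := hH1 X I N Y π y0 tg.th tg.pr i (bt y0 o) x q hoq
        (Or.inr (by rw [N.symm]; linarith))
      unfold PM.gp at h1
      linarith
    have hL := hH3 X I N Y π y0 tg.th tg.pr i (bt y0 o) x q (by unfold PM.gp; linarith)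
    rw [N.symm (π i q) (π i x)] at hL
    have hLnn := N.nonneg (π i (bt y0 o)) (π i q)
    have hmono : uu N π y0 i o (Co.base q) ≤ uu N π y0 i o (Co.base x) := by
      rw [u5 i q, u5 i x]
      refine min_le_min le_rfl (max_le_max le_rfl ?_)
      rcases hLnn.eq_or_lt with h0 | h0
      · rw [← h0, zero_div, Real.log_zero]
        exact Real.log_nonneg (by linarith)
      · exact Real.log_le_log (by linarith) (by linarith)
    -- the point over the gate of `q`
    have hπq : π i (bt y0 (Co.base q : Co Y ρ)) ∈ Y i := tg.pr.mem i q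
    set pq : Co Y ρ := Co.cone i (π i q) hπq h hh0 hhρ with hpq
    have hAtq : At π y0 i (Co.base q) h pq := ⟨hπq, hh0, hhρ, rfl⟩
    have hpos : |h - h| ≤ 0 := by simp
    have hclaim : (coPM N Y ρ hY hρ).d p pq ≤ 545 / 100 := by
      have key0 : ∀ z : Co Y ρ, At π y0 i z h p → uu N π y0 i z (Co.base q) ≤ h →
          (coPM N Y ρ hY hρ).d p pq ≤ 545 / 100 := by
        intro z hz hu
        have h1 := h13 X I N Y ρ π y0 hY hρ i z (Co.base q) p pq h h 0 0 le_rfl le_rfl hz hAtq
          hpos (by linarith)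
        rw [Real.exp_zero] at h1
        linarith
      have keyq : At π y0 i (Co.base q) h p → (coPM N Y ρ hY hρ).d p pq ≤ 545 / 100 := by
        rintro ⟨_, _, _, rfl⟩
        have h1 := (coPM N Y ρ hY hρ).self pq
        rw [hpq] at h1 ⊢
        change (coPM N Y ρ hY hρ).d (Co.cone i (π i q) hπq h hh0 hhρ)
          (Co.cone i (π i q) hπq h hh0 hhρ) ≤ 545 / 100
        linarith
      rcases hmu with ⟨e, hA | hA⟩ | ⟨e, hA | hA⟩ | ⟨e, hA | hA⟩
      · rw [← hdef] at e hA
        exact key0 _ hA (hmono.trans e.le)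
      · rw [← hdef] at e hA
        have hu : uu N π y0 i (Co.base x : Co Y ρ) (Co.base q) ≤ h + 7 / 10 := by
          refine c5.trans ?_
          have : max (uu N π y0 i (Co.base x : Co Y ρ) o) (uu N π y0 i o (Co.base q)) ≤ h :=
            max_le (by rw [c1]; exact e.le) (hmono.trans e.le)
          linarith
        have h1 := h13 X I N Y ρ π y0 hY hρ i (Co.base x) (Co.base q) p pq h h 0 (7 / 10) le_rfl
          (by norm_num) hA hAtq hpos hu
        have h2 := exp_seven
        linarith
      · rw [← hdef] at e hA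
        exact key0 _ hA e.le
      · rw [← hdef] at hA
        exact keyq hA
      · rw [← hdef] at e hA
        exact key0 _ hA e.le
      · rw [← hdef] at hA
        exact keyq hA
    have hpqq : (coPM N Y ρ hY hρ).d pq (Co.base q) ≤ h + 53 / 100 := by
      have h1 := (coPM N Y ρ hY hρ).tri pq (Co.base (π i q)) (Co.base q)
      have h2 := B8.2.2.2.1 (π i q) hπq h hh0 hhρ
      have h3 := B8.1 (π i q) q
      rw [N.symm] at h3
      linarith
    have hhti : hti i p = h := by
      have key : ∀ z : Co Y ρ, At π y0 i z h p → hti i p = h := by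
        rintro z ⟨_, _, _, rfl⟩
        simp [hti]
      rcases hmu with ⟨e, hA | hA⟩ | ⟨e, hA | hA⟩ | ⟨e, hA | hA⟩ <;> exact key _ hA
    have hlow : h ≤ (coPM N Y ρ hY hρ).d p (Co.base x) := by
      have h1 := (h9 X I N Y ρ hY hρ i p (Co.base x)).1
      have h2 : hti i (Co.base x : Co Y ρ) = 0 := rfl
      rw [hhti, h2, sub_zero, abs_of_nonneg hh0] at h1
      exact h1
    have htri2 := (coPM N Y ρ hY hρ).tri p pq (Co.base q)
    linarith
  · -- base type
    unfold PM.gp at e1 e2 e3
    have e1' : (N.d (bt y0 o) o' + N.d x o' - N.d (bt y0 o) x) / 2 ≤ 1 / 20 := e1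
    have e2' : (N.d x o' + N.d q o' - N.d x q) / 2 ≤ 1 / 20 := e2
    have e3' : (N.d (bt y0 o) o' + N.d q o' - N.d (bt y0 o) q) / 2 ≤ 1 / 20 := e3
    have h1 := N.tri (bt y0 o) o' x
    have h2 := N.symm o' x
    have h3 : (coPM N Y ρ hY hρ).d (Co.base o') (Co.base q) ≤ N.d o' q :=
      coD_le (Co.pth_one (Mv.base o' q))
    have h4 := N.symm o' q
    have h5 := tg.hT
    linarith

end BSD
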