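import Pool.Agent.Lib.MP_8528c3_al.StH

/-!
# Burnside project, H6: distance to the gate after a climb
-/

set_option autoImplicit false

namespace BSD

namespace H6

theorem lt_of_log_lt {t : ℝ} (ht : 0 ≤ t) (h : Real.log (t / 2) < 1) : t < 544 / 100 := by
  rcases ht.eq_or_lt with h0 | h0
  · rw [← h0]
    norm_num
  · have h1 : t / 2 < Real.exp 1 := (Real.log_lt_iff_lt_exp (by linarith)).1 h
    have h2 := Real.exp_one_lt_d9
    linarith

end H6

open H6 in
/-- **H6**: distance to the gate after a climb. -/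
theorem burn_H6 (h7 : stB7) (h8 : stB8) (hH2 : stH2) : stH6 := by
  intro X I N Y ρ hY hρ π y0 T tg o x i hi
  have hr := tg.r20
  have hT := tg.hT
  obtain ⟨-, -, -, -, u5⟩ := hH2 X I N Y ρ π y0 hρ tg.pr o
  have B8 := h8 X I N Y ρ y0 hY hρ i
  have hux := u5 i x
  have huπ := u5 i (π i x)
  rw [tg.pr.fix i (π i x) (tg.pr.mem i x)] at huπ
  rw [hi] at hux huπ
  set g : X := π i (bt y0 o) with hg
  have hgY : g ∈ Y i := tg.pr.mem i _
  have hfixg : π i g = g := tg.pr.fix i g hgY
  set u : ℝ := uu N π y0 i o (Co.base x : Co Y ρ) with hu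
  set Z := coPM N Y ρ hY hρ with hZ
  by_cases h1 : u < 1
  · have h2 : Real.log (N.d g (π i x) / 2) < 1 := by
      rw [hux] at h1
      rcases min_lt_iff.1 h1 with h3 | h3
      · linarith
      · exact (max_lt_iff.1 h3).2
    have h3 := lt_of_log_lt (N.nonneg g (π i x)) h2
    have h4 : Z.d (Co.base (π i x)) (Co.base g) ≤ N.d (π i x) g := B8.1 (π i x) g
    have h5 := Z.tri o (Co.base (π i x)) (Co.base g)
    rw [N.symm] at h4
    linarith
  · push_neg at h1
    have h01 : (0 : ℝ) ≤ 1 := by norm_num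
    have h1ρ : (1 : ℝ) ≤ ρ := by linarith
    set L : ℝ := Real.log (N.d g (π i x) / 2) with hL
    have hL1 : 1 ≤ L := by
      rw [hux] at h1
      have h2 := h1.trans (min_le_right _ _)
      rcases le_max_iff.1 h2 with h3 | h3
      · norm_num at h3
      · exact h3
    have huL : u = min ρ L := by
      rw [hux, max_eq_right (by linarith)]
    set c1 : Co Y ρ := Co.cone i g hgY 1 h01 h1ρ with hc1
    have hhc : hti i c1 = 1 := by simp [hti, hc1]
    have e1 : uu N π y0 i o c1 = 1 := by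
      unfold uu
      have hb : bt y0 c1 = g := rfl
      rw [hb, hfixg, ← hg, N.self, hhc, hi, zero_div, Real.log_zero, max_eq_right h01,
        max_eq_left h01, min_eq_right h1ρ]
    have e2 : uu N π y0 i (Co.base (π i x) : Co Y ρ) c1 = u := by
      unfold uu
      have hb : bt y0 c1 = g := rfl
      have hb' : bt y0 (Co.base (π i x) : Co Y ρ) = π i x := rfl
      have hb2 : hti i (Co.base (π i x) : Co Y ρ) = 0 := rfl
      rw [hb, hb', hfixg, tg.pr.fix i (π i x) (tg.pr.mem i x), hhc, hb2, N.symm, ← hL,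
        max_eq_right h01, max_eq_right hL1, huL]
    have e3 : uu N π y0 i o (Co.base (π i x) : Co Y ρ) = u := by
      rw [huπ, hux]
    have hhh : hh N π y0 i o (Co.base (π i x)) c1 = 1 := by
      unfold hh
      rw [e1, e2, e3, min_eq_right h1, min_eq_right h1]
    have hmed : Med N π y0 o (Co.base (π i x)) c1 c1 := by
      refine Or.inl ⟨i, hhh.ge, Or.inr (Or.inr ⟨?_, Or.inl ?_⟩)⟩
      · rw [e1, hhh]
      · rw [hhh]
        exact ⟨hgY, h01, h1ρ, rfl⟩
    have hgp := tg.med _ _ _ _ hmed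
    unfold PM.gp at hgp
    rw [← hZ] at hgp
    have f1 : Z.d c1 (Co.base g) ≤ 1 := B8.2.2.2.1 g hgY 1 h01 h1ρ
    have f2 := Z.tri o c1 (Co.base g)
    have f3 := h7 X I N Y ρ y0 hY hρ c1 (Co.base (π i x))
    have hb : bt y0 c1 = g := rfl
    have hb' : bt y0 (Co.base (π i x) : Co Y ρ) = π i x := rfl
    have hh1 : ht c1 = 1 := rfl
    have hh2 : ht (Co.base (π i x) : Co Y ρ) = 0 := rfl
    rw [hb, hb', hh1, hh2, ← hL, max_eq_left h01, max_eq_right hL1, ← huL, ← hZ,
      Z.symm] at f3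
    linarith

end BSD
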