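import Pool.Agent.Lib.MP_8528c3_al.StH

/-!
# Burnside project, part H: before the entrance or close to `Y i`
-/

namespace BSD

theorem burn_H7 : stH7 := by
  intro X I N Y hN i a g y y1 q ε hg hy1 h
  by_cases h1 : N.gp a g q ≤ ε + 1 / 100
  · exact Or.inl h1
  · right
    have h2 := hN.hyp a g y q
    have h3 : N.gp g y q ≤ ε + 1 / 100 := by
      by_contra h4
      have h5 : ε + 1 / 100 < min (N.gp a g q) (N.gp g y q) := lt_min (not_le.1 h1) (not_le.1 h4)
      linarith
    obtain ⟨z, hz, hd⟩ := hN.qc i g hg y1 hy1 q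
    refine ⟨z, hz, hd.trans ?_⟩
    have h4 : N.gp g y1 q ≤ N.gp g y q + N.d y y1 := by
      unfold PM.gp
      have e1 := N.tri y1 y q
      have e2 := N.tri g y1 y
      have e3 := N.symm y y1
      linarith
    linarith

end BSD
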