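import Pool.Agent.Lib.MP_8528c3_al.StH

/-!
# Burnside project, H8: overlap lemma
-/

set_option autoImplicit false

namespace BSD

namespace H8

theorem base_le {X I : Type} (N : PM X) (Y : I → Set X) (ρ : ℝ) (hY : ∀ i, (Y i).Nonempty)
    (hρ : 0 ≤ ρ) (x y : X) :
    (coPM N Y ρ hY hρ).d (Co.base x) (Co.base y) ≤ N.d x y :=
  coD_le (Co.pth_one (Mv.base x y))

end H8

/-- **H8**: no point far after the entrances of `Y i` and `Y j` is close to both. -/
theorem burn_H8 (h4 : stA4) (hH2 : stH2) (hH5 : stH5) (hH7 : stH7) : stH8 := by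
  intro X I N Y ρ hY hρ π y0 T tg o i j p H hij hH hni hnj hfar
  obtain ⟨u1, u2, _, u4, _⟩ := hH2 X I N Y ρ π y0 hρ tg.pr o
  -- some cone does not contain `o`
  have hk : ∃ k, (k = i ∨ k = j) ∧ hti k o = 0 := by
    by_cases h0 : hti i o = 0
    · exact ⟨i, Or.inl rfl, h0⟩
    · refine ⟨j, Or.inr rfl, ?_⟩
      by_contra h1
      exact hij (u4 i j (lt_of_le_of_ne (u1 i) (Ne.symm h0)) (lt_of_le_of_ne (u1 j) (Ne.symm h1)))
  have hLd : 2 * H + 3 ≤ N.d p (bt y0 o) := by
    obtain ⟨k, hk1, hk2⟩ := hk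
    have e1 := hfar k hk1 hk2
    have e2 := hH5 X I N Y ρ hY hρ π y0 T tg o (π k (bt y0 o)) (bt y0 o) (by
      unfold PM.gp
      rw [N.self, N.symm (π k (bt y0 o)) (bt y0 o)]
      norm_num)
    have e3 := (coPM N Y ρ hY hρ).tri o (Co.base (bt y0 o)) (Co.base p)
    have e4 := H8.base_le N Y ρ hY hρ (bt y0 o) p
    rw [N.symm] at e4
    linarith
  obtain ⟨z, hz1, hz2⟩ := h4 X N (1 / 100) (by norm_num) tg.th.sg p (bt y0 o) (2 * H + 3)
    (1 / 100) (by linarith) hLd (by norm_num)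
  have hz3 := abs_le.1 hz2
  have key : ∀ k, (k = i ∨ k = j) → N.Near (Y k) H p → N.Near (Y k) (H + 3 / 100) z := by
    rintro k hk1 ⟨yk, hyk, hpy⟩
    rcases (u1 k).eq_or_lt with h0 | h0
    · have hgk : π k (bt y0 o) ∈ Y k := tg.pr.mem k _
      rcases hH7 X I N Y tg.th k (bt y0 o) (π k (bt y0 o)) p yk z (1 / 100) hgk hyk (by
        unfold PM.gp at hz1 ⊢
        rw [N.symm (bt y0 o) p]
        linarith) with h | ⟨z', hz', hd⟩
      · exfalso
        have e1 := hfar k hk1 h0.symm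
        have e2 := hH5 X I N Y ρ hY hρ π y0 T tg o (π k (bt y0 o)) z (by linarith)
        have e3 := (coPM N Y ρ hY hρ).tri o (Co.base z) (Co.base p)
        have e4 := H8.base_le N Y ρ hY hρ z p
        rw [N.symm] at e4
        linarith [hz3.2]
      · exact ⟨z', hz', by linarith⟩
    · have hob := u2 k h0
      obtain ⟨z', hz', hd⟩ := tg.th.qc k (bt y0 o) hob yk hyk z
      refine ⟨z', hz', ?_⟩
      unfold PM.gp at hd hz1
      have e1 := N.tri p yk (bt y0 o)
      have e2 := N.tri yk p z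
      have e3 := N.symm yk p
      have e4 := N.symm (bt y0 o) yk
      linarith
  have hi := key i (Or.inl rfl) hni
  have hj := key j (Or.inr rfl) hnj
  have mono : ∀ k, N.Near (Y k) H p → N.Near (Y k) (H + 3 / 100) p := by
    rintro k ⟨y, hy, hd⟩
    exact ⟨y, hy, by linarith⟩
  have hov := tg.th.ov i j hij (H + 3 / 100) p z (by linarith) (mono i hni) (mono j hnj) hi hj
  linarith [hz3.1]

end BSD
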