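import Pool.Agent.Lib.MP_8528c3_al.StH

/-!
# Burnside project, part H, item H9: entrances of the active cones
-/

namespace BSD

theorem burn_H9 (h6 : stH6) (h8 : stB8) : stH9 := by
  intro X I N Y ρ hY hρ π y0 T o S t w rh h0 hL i hA hi
  obtain ⟨x, hx, hd, hu⟩ := hA
  have e1 := h6 X I N Y ρ hY hρ π y0 T hL.tg o x i hi
  have e2 := (h8 X I N Y ρ y0 hY hρ i).1 x (π i x)
  have e3 := (coPM N Y ρ hY hρ).tri o (Co.base x) (Co.base (π i x))
  have e4 := abs_le.1 (hL.hS x hx)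
  linarith [e4.2]

end BSD
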