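import Pool.Agent.Lib.MP_8528c3_al.AllG
import Pool.Agent.Lib.MP_8528c3_al.H1
import Pool.Agent.Lib.MP_8528c3_al.H2
import Pool.Agent.Lib.MP_8528c3_al.H3
import Pool.Agent.Lib.MP_8528c3_al.H4
import Pool.Agent.Lib.MP_8528c3_al.H5
import Pool.Agent.Lib.MP_8528c3_al.H6
import Pool.Agent.Lib.MP_8528c3_al.H7
import Pool.Agent.Lib.MP_8528c3_al.H8
import Pool.Agent.Lib.MP_8528c3_al.H9
import Pool.Agent.Lib.MP_8528c3_al.H10
import Pool.Agent.Lib.MP_8528c3_al.H11
import Pool.Agent.Lib.MP_8528c3_al.H12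
import Pool.Agent.Lib.MP_8528c3_al.H13
import Pool.Agent.Lib.MP_8528c3_al.H14
import Pool.Agent.Lib.MP_8528c3_al.H15
import Pool.Agent.Lib.MP_8528c3_al.H16
import Pool.Agent.Lib.MP_8528c3_al.H17
import Pool.Agent.Lib.MP_8528c3_al.H18
import Pool.Agent.Lib.MP_8528c3_al.H19
import Pool.Agent.Lib.MP_8528c3_al.H20

/-!
# Burnside project: part H assembled (no hypotheses left)
-/

namespace BSD

theorem okH1 : stH1 := burn_H1 okB2 okB3
theorem okH2 : stH2 := burn_H2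
theorem okH3 : stH3 := burn_H3 okB2 okF7b
theorem okH4 : stH4 := burn_H4 okB12 okB14
theorem okH5 : stH5 := burn_H5 okB6 okB8 okB9 okB12 okB13 okH1 okH2 okH3
theorem okH6 : stH6 := burn_H6 okB7 okB8 okH2
theorem okH7 : stH7 := burn_H7
theorem okH8 : stH8 := burn_H8 okA4 okH2 okH5 okH7
theorem okH9 : stH9 := burn_H9 okH6 okB8
theorem okH10 : stH10 := burn_H10 okH8 okH9
theorem okH11 : stH11 := burn_H11 okA4 okB3 okB6 okB7 okH1 okH2 okH4
theorem okH12 : stH12 := burn_H12 okA4 okB2 okB3 okB8 okH2 okH5 okH9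
theorem okH13 : stH13 := burn_H13 okH2 okB3 okH5 okH7 okH8 okB8 okH9
theorem okH14 : stH14 := burn_H14 okG1a okG4 okG5 okB3 okH10 okH11 okH12 okH13
theorem okH15 : stH15 := burn_H15 okB1 okB7 okB8 okF4 okF0b okH14
theorem okH16 : stH16 := burn_H16 okG1 okG6 okG9 okC0 okB9 okF5w okH15
theorem okH17 : stH17 := burn_H17
theorem okH18 : stH18 := burn_H18
theorem okH19 : stH19 := burn_H19 okG2 okG3 okD8 okD10 okF5w okH16
theorem okH20 : stH20 := burn_H20 okF16a okG0 okH17 okH18 okH19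

end BSD
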