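import Pool.Agent.Lib.MP_8528c3_al.StI

/-!
# Burnside project: I1 (eight colours for the stages)
-/

namespace BSD

theorem burn_I1 (h2 : stG2w) : stI1 := by
  intro c F _ s D0 hD hS r hr
  have h := h2 s.X s.M c.δ D0 4 s.st.hyp (by linarith [c.hδ]) s.st.sg (by norm_num) hD hS
    s.st.ne r hr
  exact h

end BSD
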