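import Pool.Agent.Lib.MP_8528c3_al.StI

/-!
# Burnside project, I2: displacement of the elements which become trivial later
-/

namespace BSD

private theorem nx_disp (h2b : stI2b) {c : CC} {F : Type} [Group F] (h : HF) (s : MS c F) (g : F)
    (x : s.X) : (s.next h).M.d (s.nx h x) ((s.next h).φ g • s.nx h x) ≤
      c.lam * s.M.d x (s.φ g • x) := by
  obtain ⟨h4, _, h5, _⟩ := h2b c F h s
  rw [h4]
  exact h5 _ _

theorem burn_I2 (h2b : stI2b) (h2a : stI2a) (h0b : stF0b) : stI2 := by
  intro c F _ h s j i hji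
  obtain ⟨d, rfl⟩ := Nat.exists_eq_add_of_le hji
  clear hji
  have hl1 : c.lam ≤ 1 := by
    have := (h0b c).2.2.1
    linarith
  have hl0 : 0 < c.lam := c.hlam
  induction d generalizing j with
  | zero =>
    intro g hi hj
    exact absurd hi hj
  | succ d ih =>
    intro g hi hj x
    by_cases h1 : (s.sq h (j + 1)).φ g = 1
    · have h2 : (s.sq h j).φ g ∈ (s.sq h j).K := ((s.sq h j).next_ker h g).1 h1
      exact h2a c F h (s.sq h j) _ h2 hj x
    · have e : j + (d + 1) = (j + 1) + d := by omega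
      rw [e] at hi
      have h3 : 2 * c.ρ ≤ c.lam * ((s.sq h j).next h).M.d ((s.sq h j).nx h x)
          (((s.sq h j).next h).φ g • (s.sq h j).nx h x) :=
        ih (j + 1) g hi h1 ((s.sq h j).nx h x)
      have h6 := nx_disp h2b h (s.sq h j) g x
      have h7 := (s.sq h j).M.nonneg x ((s.sq h j).φ g • x)
      have h8 := mul_le_mul_of_nonneg_left h6 hl0.le
      have h9 : 0 ≤ c.lam * (s.sq h j).M.d x ((s.sq h j).φ g • x) := mul_nonneg hl0.le h7
      have h10 : c.lam * (c.lam * (s.sq h j).M.d x ((s.sq h j).φ g • x)) ≤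
          1 * (c.lam * (s.sq h j).M.d x ((s.sq h j).φ g • x)) :=
        mul_le_mul_of_nonneg_right hl1 h9
      linarith

end BSD
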