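import Pool.Agent.Lib.MP_8528c3_al.StI

/-!
# Burnside project, part I: the elements of `K` move the points of the stage far away
-/

namespace BSD

theorem burn_I2a (hD7 : stD7) (hB9 : stB9) : stI2a := by
  intro c F _ h s k hk hk1 x
  letI := s.act h
  obtain ⟨i, _, _, h90, _⟩ := (hD7 s.G s.C s.J (s.MC h) _ s.R _ _ _ _ (s.ws h) k hk hk1
    (s.cb x)).2
  have h1 := (s.ws h).rf.r2 i (s.cb x) (k • s.cb x) (by linarith)
  have hc : ∀ y : s.X, c.ρ ≤ (s.MC h).d (s.cb y) (Co.apex i : s.C) := by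
    intro y
    have h2 := (hB9 s.X s.J (c.N s.M) s.Y c.ρ (s.hY h) c.ρ0 i (s.cb y) (s.cb y)).2.2.1 rfl
    have h3 : ht (s.cb y : Co s.Y c.ρ) = 0 := rfl
    rw [h3, add_zero] at h2
    exact h2
  have h4 := hc x
  have h5 := hc (k • x)
  rw [← s.cb_smul h k x] at h5
  have h6 := s.cb_d h x (k • x)
  rw [← s.cb_smul h k x, h1, (s.MC h).symm _ (k • s.cb x)] at h6
  linarith

end BSD
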