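import Pool.Agent.Lib.MP_8528c3_al.StI

/-!
# Burnside project, I2b: properties of the map `nx`
-/

namespace BSD

theorem burn_I2b : stI2b := by
  intro c F _ h s
  refine ⟨?_, ?_, ?_, rfl⟩
  · intro g x
    rfl
  · intro x y
    rfl
  · intro x y
    let _ := s.act h
    have h1 := dqf_le (s.MC h) s.K (s.cb x) (s.cb y) s.K.one_mem
    rw [one_smul] at h1
    exact h1.trans (s.cb_d h x y)

end BSD
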