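import Pool.Agent.Lib.MP_8528c3_al.StI

/-!
# Burnside project, I3: downward induction over the stages
-/

namespace BSD

private theorem sE_mono {D0 : ℝ} (h : 0 ≤ D0) : D0 + 10 ≤ sE D0 7 := by
  have key : ∀ a : ℕ, D0 + 10 ≤ sE D0 a := by
    intro a
    induction a with
    | zero => exact le_rfl
    | succ a ih =>
      show D0 + 10 ≤ D0 + 5 * sE D0 a + 15
      linarith
  exact key 7

private theorem sq_ker {c : CC} {F : Type} [Group F] (h : HF) (s : MS c F) (g : F) (j d : ℕ) :
    (s.sq h j).φ g = 1 → (s.sq h (j + d)).φ g = 1 := by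
  intro h1
  induction d with
  | zero => exact h1
  | succ d ih =>
    have : (s.sq h (j + d)).φ g ∈ (s.sq h (j + d)).K := by
      rw [ih]
      exact Subgroup.one_mem _
    exact ((s.sq h (j + d)).next_ker h g).2 this

theorem burn_I3 (h3e : stI3e) (h2 : stI2) : stI3 := by
  intro c F _ h s D0 hD0 hcol hρ hlam j i hji
  obtain ⟨d, rfl⟩ := Nat.exists_eq_add_of_le hji
  clear hji
  induction d generalizing j with
  | zero =>
    obtain ⟨f, hf⟩ := hcol j 1 zero_le_one
    have hd : ∀ x y : (s.sq h j).X,
        ((s.sq h j).qk (MonoidHom.ker (s.sq h (j + 0)).φ)).d x y = (s.sq h j).M.d x y := by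
      intro x y
      show dqf (s.sq h j).M _ x y = _
      apply le_antisymm
      · have := dqf_le (s.sq h j).M
          ((MonoidHom.ker (s.sq h (j + 0)).φ).map (s.sq h j).φ) x y (Subgroup.one_mem _)
        rwa [one_smul] at this
      · apply le_dqf
        rintro k ⟨g, hg, rfl⟩
        have hg1 : (s.sq h j).φ g = 1 := hg
        rw [hg1, one_smul]
    refine ⟨f, fun x y hx hxy => ?_⟩
    rw [hd]
    have h1 : Relation.ReflTransGen (Stp (s.sq h j).M Set.univ f 1) x y := by
      refine Relation.ReflTransGen.mono ?_ _ _ hxy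
      rintro a b ⟨ha, hb, hab, he⟩
      refine ⟨ha, hb, ?_, he⟩
      rw [← hd]
      exact hab
    have h3 := hf x y hx h1
    have h4 := sE_mono hD0
    linarith
  | succ d ih =>
    have e : j + (d + 1) = (j + 1) + d := by omega
    rw [e]
    refine h3e c F h (s.sq h j) (MonoidHom.ker (s.sq h (j + 1 + d)).φ) D0 ?_ hD0 (hcol j) hρ hlam
      ?_ (ih (j + 1))
    · intro g hg
      exact sq_ker h s g (j + 1) d (((s.sq h j).next_ker h g).2 hg)
    · intro g hg hj x
      exact h2 c F h s j (j + 1 + d) (by omega) g hg hj x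

end BSD
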