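import Pool.Agent.Lib.MP_8528c3_al.StI

/-!
# Burnside project, part I: I3c (colouring of a set with small components in the quotient).
-/

namespace BSD

namespace I3c

variable {W : Type}

theorem symm_rtg {P : W → W → Prop} (hs : ∀ a b, P a b → P b a) {x y : W}
    (h : Relation.ReflTransGen P x y) : Relation.ReflTransGen P y x := by
  induction h with
  | refl => exact Relation.ReflTransGen.refl
  | tail _ h2 ih => exact Relation.ReflTransGen.head (hs _ _ h2) ih

theorem rtg_of_eqvGen {P : W → W → Prop} (hs : ∀ a b, P a b → P b a) {x y : W}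
    (h : Relation.EqvGen P x y) : Relation.ReflTransGen P x y := by
  induction h with
  | rel x y h => exact Relation.ReflTransGen.single h
  | refl x => exact Relation.ReflTransGen.refl
  | symm x y _ ih => exact symm_rtg hs ih
  | trans x y z _ _ ih1 ih2 => exact ih1.trans ih2

end I3c

theorem burn_I3c : stI3c := by
  intro G X _ _ M N iso T q r R D E hq hr hrR hE hk hcol hT
  obtain ⟨f, hf⟩ := hcol
  set Rel : X → X → Prop := RsP T (fun a b => dqf M N a b ≤ R) with hRel
  have hdsymm : ∀ a b : X, dqf M N a b = dqf M N b a := fun a b => (dqPM M N iso).symm a b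
  have hsym : ∀ a b, Rel a b → Rel b a := by
    rintro a b ⟨ha, hb, hab⟩
    refine ⟨hb, ha, ?_⟩
    show dqf M N b a ≤ R
    rw [hdsymm]
    exact hab
  let z : X → X := fun x => Quot.out (Quot.mk Rel x)
  have hz : ∀ x, Relation.ReflTransGen Rel x (z x) := by
    intro x
    have h1 : Quot.mk Rel x = Quot.mk Rel (z x) := (Quot.out_eq (Quot.mk Rel x)).symm
    exact I3c.rtg_of_eqvGen hsym (Quot.eqvGen_exact h1)
  have hzd : ∀ x ∈ T, dqf M N (z x) x ≤ E := by
    intro x hx
    rw [hdsymm]
    exact hT x (z x) hx (hz x)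
  have hex : ∀ x, ∃ k ∈ N, M.d (z x) (k • x) < dqf M N (z x) x + 1 := fun x =>
    dqf_approx M N (z x) x one_pos
  choose k hkN hkd using hex
  have hstep : ∀ b c : X, b ∈ T → c ∈ T → dqf M N b c ≤ R →
      M.d (k b • b) (k c • c) ≤ dqf M N b c := by
    intro b c hb hc hbc
    have hzz : z b = z c := by
      show Quot.out (Quot.mk Rel b) = Quot.out (Quot.mk Rel c)
      rw [Quot.sound (show Rel b c from ⟨hb, hc, hbc⟩)]
    have h1 : M.d (z b) (k b • b) < E + 1 := by
      have := hkd b
      have := hzd b hb
      linarith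
    have h2 : M.d (z b) (k c • c) < E + 1 := by
      rw [hzz]
      have := hkd c
      have := hzd c hc
      linarith
    have h3 : M.d (k b • b) (k c • c) < 2 * E + 2 := by
      have := M.tri (k b • b) (z b) (k c • c)
      have := M.symm (k b • b) (z b)
      linarith
    refine le_dqf M N b c fun l hl => ?_
    set l' : G := k b * l * (k c)⁻¹ with hl'
    have hl'N : l' ∈ N := N.mul_mem (N.mul_mem (hkN b) hl) (N.inv_mem (hkN c))
    have h4 : M.d b (l • c) = M.d (k b • b) (l' • (k c • c)) := by
      rw [← iso (k b) b (l • c)]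
      congr 1
      rw [hl', mul_smul, inv_smul_smul, mul_smul]
    rw [h4]
    by_cases h5 : l' = 1
    · rw [h5, one_smul]
    · have h6 := hk l' hl'N h5 (k c • c)
      have h7 := M.tri (k c • c) (k b • b) (l' • (k c • c))
      have h8 := M.symm (k c • c) (k b • b)
      linarith
  refine ⟨fun x => f (k x • x), fun x y hx hxy => ?_⟩
  have key : ∀ y, Relation.ReflTransGen (Stp (dqPM M N iso) T (fun x => f (k x • x)) r) x y →
      Relation.ReflTransGen (Stp M Set.univ f r) (k x • x) (k y • y) := by
    intro y hy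
    induction hy with
    | refl => exact Relation.ReflTransGen.refl
    | tail _ h2 ih =>
      refine ih.tail ?_
      obtain ⟨hb, hc, hbc, hfe⟩ := h2
      refine ⟨trivial, trivial, ?_, hfe⟩
      have hbc' : dqf M N _ _ ≤ r := hbc
      exact (hstep _ _ hb hc (hbc'.trans hrR)).trans hbc'
  have h1 := hf _ _ trivial (key y hxy)
  show dqf M N x y ≤ D
  have h2 : dqf M N x y ≤ M.d (k x • x) (k y • y) := by
    have h3 := dqf_le M N (k x • x) y (hkN y)
    rwa [dqf_smul_left M N iso x y (hkN x)] at h3
  exact h2.trans h1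

end BSD
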