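import Pool.Agent.Lib.MP_8528c3_al.StI

/-!
# Burnside project, part I: union of the classes of a colouring
-/

namespace BSD

theorem burn_I3d (h0 : stG0) (h1 : stG1) : stI3d := by
  intro W M S q f r D E hr hD hE0 hE hrE hcol
  have hE0' : ∀ j, 0 ≤ E j := by
    intro j
    induction j with
    | zero =>
      rw [hE0]
      exact hD 0
    | succ j ih =>
      rw [hE]
      have := hD (j + 1)
      linarith
  have key : ∀ j : ℕ, j ≤ q → Col M {x | x ∈ S ∧ (f x : ℕ) ≤ j} (q + 1) (r 0) (E j) := by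
    intro j
    induction j with
    | zero =>
      intro _
      have h2 := hcol 0
      rw [hE0]
      refine h0 W M _ _ _ _ _ _ _ _ h2 ?_ le_rfl le_rfl le_rfl
      rintro x ⟨hx, hx'⟩
      exact ⟨hx, Fin.ext (Nat.le_zero.1 hx')⟩
    | succ j ih =>
      intro hj
      have h2 := hcol ⟨j + 1, by omega⟩
      have h3 := h1 W M _ _ (q + 1) (r 0) (r (j + 1)) (D (j + 1)) (E j) hr (hD _) (hE0' _)
        (hrE j) h2 (ih (by omega))
      rw [hE]
      refine h0 W M _ _ _ _ _ _ _ _ h3 ?_ le_rfl le_rfl le_rfl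
      rintro x ⟨hx, hx'⟩
      rcases Nat.lt_or_ge (f x : ℕ) (j + 1) with h4 | h4
      · exact Or.inr ⟨hx, Nat.lt_succ_iff.1 h4⟩
      · exact Or.inl ⟨hx, Fin.ext (le_antisymm hx' h4)⟩
  refine h0 W M _ _ _ _ _ _ _ _ (key q le_rfl) ?_ le_rfl le_rfl le_rfl
  intro x hx
  exact ⟨hx, Nat.lt_succ_iff.1 (f x).2⟩

end BSD
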