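import Pool.Agent.Lib.MP_8528c3_al.StI

/-!
# Burnside project, I3e: one step of the downward induction
-/

namespace BSD

namespace AuxI3e

theorem sE_ge (D0 : ℝ) (h0 : 0 ≤ D0) (a : ℕ) : 10 ≤ sE D0 a := by
  induction a with
  | zero => simp only [sE]; linarith
  | succ a ih => simp only [sE]; linarith

theorem sE_succ_ge (D0 : ℝ) (h0 : 0 ≤ D0) (a : ℕ) : sE D0 a ≤ sE D0 (a + 1) := by
  have := sE_ge D0 h0 a
  simp only [sE]
  linarith

theorem sE_mono (D0 : ℝ) (h0 : 0 ≤ D0) : Monotone (sE D0) :=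
  monotone_nat_of_le_succ (sE_succ_ge D0 h0)

/-- the scales of the induction -/
noncomputable def rE (D0 : ℝ) : ℕ → ℝ
  | 0 => 1
  | a + 1 => sE D0 a + 2

theorem rE_nonneg (D0 : ℝ) (h0 : 0 ≤ D0) (a : ℕ) : 0 ≤ rE D0 a := by
  cases a with
  | zero => simp only [rE]; norm_num
  | succ a =>
    have := sE_ge D0 h0 a
    simp only [rE]
    linarith

theorem rE_le (D0 : ℝ) (h0 : 0 ≤ D0) (a : ℕ) (ha : a ≤ 7) : rE D0 a ≤ sE D0 6 + 2 := by
  cases a with
  | zero =>
    have := sE_ge D0 h0 6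
    simp only [rE]
    linarith
  | succ a =>
    have := sE_mono D0 h0 (show a ≤ 6 by omega)
    simp only [rE]
    linarith

end AuxI3e

open AuxI3e in
theorem burn_I3e (hI3b : stI3b) (hI3c : stI3c) (hI3d : stI3d) (hF0b : stF0b) : stI3e := by
  intro c F _ h s K D0 hK hD0 hCol hρ hlam hdis hC
  obtain ⟨f', hf'⟩ := hC
  have hl0 : 0 < c.lam := c.hlam
  have hl1 : c.lam ≤ 1 / 100 := (hF0b c).2.2.1
  obtain ⟨B, hB⟩ : ∃ B : ℝ, B = sE D0 7 := ⟨_, rfl⟩
  have hB10 : 10 ≤ B := hB ▸ sE_ge D0 hD0 7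
  rw [← hB] at hρ hf'
  have hexp : (B + 1) / 2 + 1 ≤ Real.exp ((B + 1) / 2) := Real.add_one_le_exp _
  have hexp0 : 0 < Real.exp ((B + 1) / 2) := Real.exp_pos _
  obtain ⟨w, hw⟩ : ∃ w : ℝ, w = Real.exp ((B + 1) / 2) := ⟨_, rfl⟩
  rw [← hw] at hρ hexp hexp0
  have hB2 : B + 1 ≤ 2 * c.ρ := by linarith
  -- the size of the components
  have hcomp : ∀ x y : s.X, Relation.ReflTransGen
      (Stp (s.qk K) Set.univ (fun x => f' (s.nx h x)) (1 / c.lam)) x y →
      c.lam * (s.qk K).d x y ≤ 2 * w := by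
    have := hI3b c F h s K hK B 8 f' (by linarith) hB2 (fun x y hxy => hf' x y (Set.mem_univ _) hxy)
    rw [← hw] at this
    exact this
  have hsE0 : sE D0 0 = D0 + 3 * rE D0 0 + 7 := by
    simp only [sE, rE]
    ring
  have key := hI3d s.X (s.qk K) Set.univ 7 (fun x => f' (s.nx h x)) (rE D0)
    (fun a => D0 + 3 * rE D0 a + 7) (sE D0) (rE_nonneg D0 hD0 0)
    (fun a => by
      have := rE_nonneg D0 hD0 a
      linarith) hsE0
    (fun a => by
      simp only [sE, rE]
      ring)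
    (fun a => by
      simp only [rE]
      linarith)
    (fun j => by
      have hj : (j : ℕ) ≤ 7 := by omega
      have hr0 := rE_nonneg D0 hD0 j
      have hr1 := rE_le D0 hD0 j hj
      refine hI3c s.G s.X s.M (K.map s.φ) s.st.iso {x | x ∈ Set.univ ∧ f' (s.nx h x) = j} 8
        (rE D0 j) (1 / c.lam) (D0 + 3 * rE D0 j + 7) (2 * w / c.lam) (by norm_num) hr0 ?_ ?_ ?_
        (hCol _ hr0) ?_
      · rw [le_div_iff₀ hl0]
        calc rE D0 j * c.lam ≤ (sE D0 6 + 2) * c.lam := mul_le_mul_of_nonneg_right hr1 hl0.le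
          _ = c.lam * (sE D0 6 + 2) := mul_comm _ _
          _ ≤ 1 := hlam
      · exact div_nonneg (by linarith) hl0.le
      · rintro k ⟨g, hg, rfl⟩ hk x
        have h1 := hdis g hg hk x
        have h2 : c.lam * (4 * (2 * w / c.lam) + 4) = 8 * w + 4 * c.lam := by
          field_simp
          ring
        have h3 : c.lam * (4 * (2 * w / c.lam) + 4) ≤ c.lam * s.M.d x (s.φ g • x) := by
          rw [h2]
          linarith
        exact le_of_mul_le_mul_left h3 hl0
      · intro x y _ hxy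
        have h1 : Relation.ReflTransGen
            (Stp (s.qk K) Set.univ (fun x => f' (s.nx h x)) (1 / c.lam)) x y := by
          refine Relation.ReflTransGen.mono ?_ _ _ hxy
          rintro a b ⟨ha, hb, hab⟩
          exact ⟨Set.mem_univ _, Set.mem_univ _, hab, ha.2.trans hb.2.symm⟩
        have h2 := hcomp x y h1
        rw [le_div_iff₀ hl0]
        have h3 : (s.qk K).d x y = dqf s.M (K.map s.φ) x y := rfl
        rw [h3] at h2
        linarith)
  exact key

end BSD
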