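import Pool.Agent.Lib.MP_8528c3_al.StI

/-!
# Burnside project: I4c (the orbit maps are contracting)
-/

namespace BSD

theorem burn_I4c : stI4c := by
  intro c α _ j g
  induction j with
  | zero =>
    show (((1 : FreeGroup α)⁻¹ * (g * 1)).norm : ℝ) ≤ c.lam ^ 0 * g.norm
    simp
  | succ j ih =>
    have h := (stg c α j).next_d okHF g
    have h2 := mul_le_mul_of_nonneg_left ih c.hlam.le
    have h3 : (stg c α (j + 1)).M.d (stg c α (j + 1)).x0
        ((stg c α (j + 1)).φ g • (stg c α (j + 1)).x0) ≤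
        c.lam * (stg c α j).M.d (stg c α j).x0 ((stg c α j).φ g • (stg c α j).x0) := h
    calc _ ≤ _ := h3
      _ ≤ c.lam * (c.lam ^ j * g.norm) := h2
      _ = c.lam ^ (j + 1) * g.norm := by ring

end BSD
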