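import Pool.Agent.Lib.MP_8528c3_al.StJ

/-!
# Burnside project: J4 (properness with explicit constants)
-/

namespace BSD

theorem burn_J4 (h4b : stJ4b) (h2b : stI2b) : stJ4 := by
  intro c C hC hC1 hC2 α _ j
  induction j with
  | zero =>
    intro D hD g hg
    refine ⟨g, rfl, ?_⟩
    have h1 : (fgPM α).d 1 (g • (1 : FreeGroup α)) ≤ D := hg
    have h2 : (fgPM α).d 1 (g • (1 : FreeGroup α)) = (g.norm : ℝ) := by
      simp [fgPM]
    rw [h2] at h1
    rw [pow_zero, one_mul]
    linarith
  | succ j ih =>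
    intro D hD g hg
    obtain ⟨e1, _, _, e4⟩ := h2b c (FreeGroup α) okHF (stg c α j)
    have hg' : ((stg c α j).next okHF).M.d ((stg c α j).nx okHF (stg c α j).x0)
        ((stg c α j).nx okHF ((stg c α j).φ g • (stg c α j).x0)) ≤ D := by
      rw [← e1, e4]
      exact hg
    obtain ⟨k, hk, hk2⟩ := h4b c C hC1 hC2 (FreeGroup α) okHF (stg c α j) (stg c α j).x0
      ((stg c α j).φ g • (stg c α j).x0)
    obtain ⟨g1, rfl⟩ := (stg c α j).sur k
    have h5 : (stg c α j).M.d (stg c α j).x0 ((stg c α j).φ (g1 * g) • (stg c α j).x0) ≤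
        C * D + 1 := by
      rw [map_mul, mul_smul]
      have := mul_le_mul_of_nonneg_left hg' (by linarith : (0 : ℝ) ≤ C)
      linarith
    obtain ⟨g', hg'', hn⟩ := ih (C * D + 1) (by positivity) (g1 * g) h5
    refine ⟨g', ?_, ?_⟩
    · have h6 : ((stg c α j).next okHF).φ (g' * g⁻¹) = 1 := by
        rw [(stg c α j).next_ker okHF, map_mul, hg'', ← map_mul]
        simpa using hk
      rw [map_mul, map_inv, mul_inv_eq_one] at h6
      exact h6
    · refine hn.trans ?_
      rw [pow_succ, mul_assoc]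
      refine mul_le_mul_of_nonneg_left ?_ (by positivity)
      nlinarith

end BSD
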