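import Pool.Agent.Lib.MP_8528c3_al.StJ

/-!
# Burnside project: J4b (control of the distances in a stage by the distances in the next one, with
an explicit constant)
-/

namespace BSD

/-- The potential on the cone-off which interpolates between `Φ` on the base and `Γ` on the
apexes. -/
noncomputable def potG {X I : Type} {Y : I → Set X} {ρ : ℝ} (Φ : X → ℝ) (Γ : I → ℝ) :
    Co Y ρ → ℝ
  | Co.base y => Φ y
  | Co.cone i y _ t _ _ => Φ y + t / ρ * (Γ i - Φ y)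
  | Co.apex i => Γ i

theorem potG_lip {X I : Type} (N : PM X) {Y : I → Set X} {ρ : ℝ} (hY : ∀ i, (Y i).Nonempty)
    (hρ : 0 ≤ ρ) (hρ0 : 0 < ρ) (Φ : X → ℝ) (Γ : I → ℝ) (C1 : ℝ) (hC : Real.exp ρ ≤ C1)
    (h1 : ∀ y y', Φ y' - Φ y ≤ N.d y y') (h2 : ∀ i, ∀ y ∈ Y i, |Γ i - Φ y| ≤ C1 * ρ)
    (p q : Co Y ρ) : potG Φ Γ q - potG Φ Γ p ≤ C1 * coD N Y ρ p q := by
  have hC1 : 1 ≤ C1 := (Real.one_le_exp hρ).trans hC
  have hC0 : 0 < C1 := by linarith
  have key : ∀ p q cst, Mv N Y ρ p q cst →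
      (potG Φ Γ q) / C1 - (potG Φ Γ p) / C1 ≤ cst := by
    intro p q cst hm
    rw [← sub_div, div_le_iff₀ hC0, mul_comm]
    cases hm with
    | base x x' =>
      refine (h1 x x').trans ?_
      nlinarith [N.nonneg x x']
    | up i y hy h => simp [potG]
    | dn i y hy h => simp [potG]
    | vert i y hy s s' h0 h1' h0' h1'' =>
      show Φ y + s' / ρ * (Γ i - Φ y) - (Φ y + s / ρ * (Γ i - Φ y)) ≤ C1 * |s - s'|
      have e1 : Φ y + s' / ρ * (Γ i - Φ y) - (Φ y + s / ρ * (Γ i - Φ y)) =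
          ((s' - s) * (Γ i - Φ y)) / ρ := by
        field_simp
        ring
      rw [e1, div_le_iff₀ hρ0]
      calc (s' - s) * (Γ i - Φ y) ≤ |(s' - s) * (Γ i - Φ y)| := le_abs_self _
        _ = |s - s'| * |Γ i - Φ y| := by rw [abs_mul, abs_sub_comm]
        _ ≤ |s - s'| * (C1 * ρ) := mul_le_mul_of_nonneg_left (h2 i y hy) (abs_nonneg _)
        _ = C1 * |s - s'| * ρ := by ring
    | hor i y y' hy hy' s h0 h1' =>
      show Φ y' + s / ρ * (Γ i - Φ y') - (Φ y + s / ρ * (Γ i - Φ y)) ≤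
        C1 * (N.d y y' * Real.exp (-s))
      have e1 : Φ y' + s / ρ * (Γ i - Φ y') - (Φ y + s / ρ * (Γ i - Φ y)) =
          (1 - s / ρ) * (Φ y' - Φ y) := by ring
      have e2 : 0 ≤ 1 - s / ρ := by
        rw [sub_nonneg, div_le_one hρ0]
        exact h1'
      have e3 : 1 - s / ρ ≤ 1 := by
        have : 0 ≤ s / ρ := div_nonneg h0 hρ
        linarith
      have e4 := N.nonneg y y'
      have e5 : (1 - s / ρ) * (Φ y' - Φ y) ≤ N.d y y' := by
        calc (1 - s / ρ) * (Φ y' - Φ y) ≤ (1 - s / ρ) * N.d y y' :=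
              mul_le_mul_of_nonneg_left (h1 y y') e2
          _ ≤ 1 * N.d y y' := mul_le_mul_of_nonneg_right e3 e4
          _ = N.d y y' := one_mul _
      rw [e1]
      refine e5.trans ?_
      have e6 : 1 ≤ C1 * Real.exp (-s) := by
        calc (1 : ℝ) ≤ Real.exp (ρ - s) := Real.one_le_exp (by linarith)
          _ = Real.exp ρ * Real.exp (-s) := by rw [← Real.exp_add]; ring_nf
          _ ≤ C1 * Real.exp (-s) := mul_le_mul_of_nonneg_right hC (Real.exp_pos _).le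
      calc N.d y y' = 1 * N.d y y' := (one_mul _).symm
        _ ≤ (C1 * Real.exp (-s)) * N.d y y' := mul_le_mul_of_nonneg_right e6 e4
        _ = C1 * (N.d y y' * Real.exp (-s)) := by ring
    | top i y hy h =>
      show Γ i - (Φ y + ρ / ρ * (Γ i - Φ y)) ≤ C1 * 0
      rw [div_self hρ0.ne']
      linarith
    | topr i y hy h =>
      show (Φ y + ρ / ρ * (Γ i - Φ y)) - Γ i ≤ C1 * 0
      rw [div_self hρ0.ne']
      linarith
  have h3 := coD_potential hY hρ (fun p => potG Φ Γ p / C1) key p q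
  rw [← sub_div, div_le_iff₀ hC0, mul_comm] at h3
  exact h3

theorem burn_J4b (h2b : stI2b) (h4a : stI4a) (hF0b : stF0b) : stJ4b := by
  intro c C hC1 hC2 F _ h s x y
  let _ := s.act h
  have hlam := c.hlam
  have hρ0 : 0 < c.ρ := by
    have hb := hF0b c
    have h1 := c.hρ1
    have h2 := hb.1.2.1
    have h3 := hb.1.2.2.2.2.1
    have h4 := c.hδ
    linarith
  have isoN : ∀ (g : s.G) (x y : s.X), (c.N s.M).d (g • x) (g • y) = (c.N s.M).d x y := by
    intro g x y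
    show c.lam * s.M.d (g • x) (g • y) = c.lam * s.M.d x y
    rw [s.st.iso]
  obtain ⟨Φ, hΦ⟩ : ∃ Φ : s.X → ℝ, ∀ y, Φ y = dqf (c.N s.M) s.K x y := ⟨_, fun _ => rfl⟩
  have hΦ1 : ∀ y y', Φ y' - Φ y ≤ (c.N s.M).d y y' := by
    intro y y'
    have h1 := (dqPM (c.N s.M) s.K isoN).tri x y y'
    have h2 : (dqPM (c.N s.M) s.K isoN).d y y' ≤ (c.N s.M).d y y' := by
      have := dqf_le (c.N s.M) s.K y y' s.K.one_mem
      rw [one_smul] at this
      exact this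
    have h3 : (dqPM (c.N s.M) s.K isoN).d x y = Φ y := (hΦ y).symm
    have h4 : (dqPM (c.N s.M) s.K isoN).d x y' = Φ y' := (hΦ y').symm
    linarith
  have hΦk : ∀ k ∈ s.K, ∀ y, Φ (k • y) = Φ y := by
    intro k hk y
    rw [hΦ, hΦ]
    exact dqf_smul_right (c.N s.M) s.K x y hk
  have hΦx : Φ x = 0 := by
    rw [hΦ]
    exact (dqPM (c.N s.M) s.K isoN).self x
  obtain ⟨y0, hy0⟩ : ∃ y0 : s.J → s.X, ∀ i, y0 i ∈ s.Y i :=
    ⟨fun i => (s.hY h i).some, fun i => (s.hY h i).some_mem⟩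
  have hRK : ∀ i, ∀ k ∈ s.R i, k ∈ s.K := fun i k hk => Subgroup.subset_closure ⟨i, hk⟩
  have hB : ∀ i, ∀ y ∈ s.Y i, |Φ (y0 i) - Φ y| ≤ c.lam * C * c.ρ := by
    intro i y hy
    obtain ⟨k, hk, hk'⟩ := h4a s.G s.X s.J c s.M s.E s.R s.Y (s.fs h) i (y0 i) (hy0 i) y hy
    have h1 : (c.N s.M).d (y0 i) (k • y) ≤ c.lam * (c.A0 + c.n * c.L1) :=
      mul_le_mul_of_nonneg_left hk' hlam.le
    have h2 := hΦ1 (y0 i) (k • y)
    have h3 := hΦ1 (k • y) (y0 i)
    rw [(c.N s.M).symm (k • y) (y0 i)] at h3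
    rw [hΦk k (hRK i k hk)] at h2 h3
    rw [abs_le]
    constructor <;> linarith
  have key : ∀ y : s.X, Φ y ≤ c.lam * C * (s.MC h).d (s.cb x) (s.cb y) := by
    intro y
    have h1 := potG_lip (c.N s.M) (s.hY h) c.ρ0 hρ0 Φ (fun i => Φ (y0 i)) (c.lam * C) hC1 hΦ1
      hB (Co.base x) (Co.base y)
    have h2 : Φ y - Φ x ≤ c.lam * C * (s.MC h).d (s.cb x) (s.cb y) := h1
    linarith
  have hlC : 0 < c.lam * C := (Real.exp_pos _).trans_le hC1
  have key2 : Φ y / (c.lam * C) ≤ dqf (s.MC h) s.K (s.cb x) (s.cb y) := by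
    refine le_dqf (s.MC h) s.K (s.cb x) (s.cb y) fun k hk => ?_
    rw [div_le_iff₀ hlC, mul_comm]
    have h1 := key (k • y)
    rw [hΦk k hk] at h1
    exact h1
  rw [div_le_iff₀ hlC] at key2
  obtain ⟨k, hk, hk'⟩ := dqf_approx (c.N s.M) s.K x y hlam
  refine ⟨k, hk, ?_⟩
  rw [(h2b c F h s).2.1 x y]
  have h1 : c.lam * s.M.d x (k • y) < Φ y + c.lam := by
    rw [hΦ]
    exact hk'
  have h2 : c.lam * s.M.d x (k • y) ≤
      c.lam * (C * dqf (s.MC h) s.K (s.cb x) (s.cb y) + 1) := by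
    calc c.lam * s.M.d x (k • y) ≤ Φ y + c.lam := h1.le
      _ ≤ dqf (s.MC h) s.K (s.cb x) (s.cb y) * (c.lam * C) + c.lam := by linarith
      _ = c.lam * (C * dqf (s.MC h) s.K (s.cb x) (s.cb y) + 1) := by ring
  exact le_of_mul_le_mul_left h2 hlam

end BSD
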