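import Pool.Agent.Lib.MP_8528c3_al.StI

/-!
# Burnside project: I5 (compactness)
-/

namespace BSD

theorem stg_mono (c : CC) (α : Type) [DecidableEq α] (g : FreeGroup α) (i : ℕ)
    (hg : (stg c α i).φ g = 1) (j : ℕ) (hij : i ≤ j) : (stg c α j).φ g = 1 := by
  induction j, hij using Nat.le_induction with
  | base => exact hg
  | succ j _ ih =>
    have h := ((stg c α j).next_ker okHF g).2 (by rw [ih]; exact Subgroup.one_mem _)
    exact h

theorem burn_I5 (h4 : stI4) (h4c : stI4c) (h0b : stF0b) : stI5 := by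
  intro c α _ B hcol R
  have hlam1 : c.lam ≤ 1 / 100 := (h0b c).2.2.1
  obtain ⟨j, hj⟩ : ∃ j : ℕ, c.lam ^ j * (R : ℝ) ≤ 1 := by
    have h1 : Filter.Tendsto (fun j : ℕ => c.lam ^ j * (R : ℝ)) Filter.atTop
        (nhds (0 * (R : ℝ))) :=
      (tendsto_pow_atTop_nhds_zero_of_lt_one c.hlam.le (by linarith)).mul_const _
    rw [zero_mul] at h1
    obtain ⟨j, hj⟩ := (h1.eventually (gt_mem_nhds one_pos)).exists
    exact ⟨j, hj.le⟩
  obtain ⟨P, hP⟩ := h4 c α j (B + 1)
  have hf : ∀ i, ∃ f : (stg c α j).X → Fin 8, j ≤ i → ∀ x y : (stg c α j).X,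
      Relation.ReflTransGen (Stp ((stg c α j).qk (MonoidHom.ker (stg c α i).φ)) Set.univ f 1)
        x y → ((stg c α j).qk (MonoidHom.ker (stg c α i).φ)).d x y ≤ B := by
    intro i
    by_cases hij : j ≤ i
    · obtain ⟨f, hf⟩ := hcol j i hij
      exact ⟨f, fun _ x y h => hf x y (Set.mem_univ _) h⟩
    · exact ⟨fun _ => 0, fun h => absurd h hij⟩
  choose f hf using hf
  let U : Ultrafilter ℕ := Filter.hyperfilter ℕ
  have hU : ∀ i0 : ℕ, ∀ᶠ i in (U : Filter ℕ), i0 ≤ i := by
    intro i0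
    have h1 : (U : Filter ℕ) ≤ Filter.atTop := by
      rw [← Nat.cofinite_eq_atTop]
      exact Filter.hyperfilter_le_cofinite
    exact h1 (Filter.eventually_ge_atTop i0)
  obtain ⟨rep, hrep⟩ : ∃ rep : FB α c.n → FreeGroup α, ∀ b, (rep b : FB α c.n) = b :=
    ⟨Quotient.out, fun b => QuotientGroup.out_eq' b⟩
  obtain ⟨p, hp⟩ : ∃ p : FB α c.n → (stg c α j).X,
      ∀ b, p b = (stg c α j).φ (rep b) • (stg c α j).x0 := ⟨_, fun _ => rfl⟩
  have hcl : ∀ b, ∃ a : Fin 8, ∀ᶠ i in (U : Filter ℕ), f i (p b) = a := by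
    intro b
    obtain ⟨a, ha⟩ := (U.map fun i => f i (p b)).eq_pure_of_finite
    refine ⟨a, ?_⟩
    have h1 : ({a} : Set (Fin 8)) ∈ (U.map fun i => f i (p b)) := by
      rw [ha]
      exact Set.mem_singleton a
    exact h1
  choose col hcol' using hcl
  refine ⟨P, col, fun a b hab => ?_⟩
  have key : ∀ᶠ i in (U : Filter ℕ), Relation.ReflTransGen
      (Stp ((stg c α j).qk (MonoidHom.ker (stg c α i).φ)) Set.univ (f i) 1) (p a) (p b) := by
    induction hab with
    | refl => exact Filter.Eventually.of_forall fun _ => Relation.ReflTransGen.refl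
    | @tail b b' _ hbc ih =>
      obtain ⟨hc, u, hu, hbu⟩ := hbc
      have h1 : (rep b * u)⁻¹ * rep b' ∈
          Subgroup.normalClosure {h : FreeGroup α | ∃ f, h = f ^ c.n} := by
        rw [← QuotientGroup.eq, QuotientGroup.mk_mul, hrep, hrep, hbu]
      obtain ⟨i0, hi0⟩ := (stg_limit c α _).2 h1
      filter_upwards [ih, hcol' b, hcol' b', hU i0] with i g1 g2 g3 g4
      have h2 := stg_mono c α _ i0 hi0 i g4
      refine g1.tail ⟨Set.mem_univ _, Set.mem_univ _, ?_, ?_⟩
      · have h3 : rep b * u * (rep b')⁻¹ ∈ MonoidHom.ker (stg c α i).φ := by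
          rw [MonoidHom.mem_ker]
          have h4 : (stg c α i).φ (rep b') = (stg c α i).φ (rep b * u) := by
            rw [map_mul, map_inv, inv_mul_eq_one] at h2
            exact h2.symm
          rw [map_mul, map_inv, h4, mul_inv_cancel]
        have h5 : ((stg c α j).qk (MonoidHom.ker (stg c α i).φ)).d (p b) (p b') ≤
            (stg c α j).M.d (p b)
              ((stg c α j).φ (rep b * u * (rep b')⁻¹) • p b') :=
          dqf_le (stg c α j).M _ (p b) (p b') (Subgroup.mem_map_of_mem _ h3)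
        refine h5.trans ?_
        have h6 : (stg c α j).φ (rep b * u * (rep b')⁻¹) • p b' =
            (stg c α j).φ (rep b) • (stg c α j).φ u • (stg c α j).x0 := by
          rw [hp, smul_smul, smul_smul, ← map_mul, ← map_mul, inv_mul_cancel_right]
        rw [h6, hp, (stg c α j).st.iso]
        refine (h4c c α j u).trans ?_
        have h7 : (u.norm : ℝ) ≤ R := by exact_mod_cast hu
        have h8 : 0 ≤ c.lam ^ j := pow_nonneg c.hlam.le j
        nlinarith
      · rw [g2, g3, hc]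
  obtain ⟨i, hi1, hi2⟩ := (key.and (hU j)).exists
  have h1 := hf i hi2 (p a) (p b) hi1
  obtain ⟨k, ⟨g, hg, rfl⟩, hk⟩ := dqf_approx (stg c α j).M
    ((MonoidHom.ker (stg c α i).φ).map (stg c α j).φ) (p a) (p b) one_pos
  have h2 : (stg c α j).M.d (p a) ((stg c α j).φ g • p b) < B + 1 := by
    have h3 : dqf (stg c α j).M ((MonoidHom.ker (stg c α i).φ).map (stg c α j).φ) (p a) (p b)
      ≤ B := h1
    linarith
  have h3 : (stg c α j).M.d (stg c α j).x0
      ((stg c α j).φ ((rep a)⁻¹ * g * rep b) • (stg c α j).x0) ≤ B + 1 := by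
    have h4 := (stg c α j).st.iso ((stg c α j).φ (rep a)) (stg c α j).x0
      ((stg c α j).φ ((rep a)⁻¹ * g * rep b) • (stg c α j).x0)
    rw [← h4, smul_smul, ← map_mul, ← hp]
    have h5 : rep a * ((rep a)⁻¹ * g * rep b) = g * rep b := by group
    rw [h5, map_mul, ← smul_smul, ← hp]
    exact h2.le
  obtain ⟨u, hu, hn⟩ := hP _ h3
  refine ⟨u, hn, ?_⟩
  have h4 : (g : FB α c.n) = 1 := by
    rw [QuotientGroup.eq_one_iff]
    exact (stg_limit c α g).1 ⟨i, hg⟩
  have h5 : (u : FB α c.n) = (((rep a)⁻¹ * g * rep b : FreeGroup α) : FB α c.n) := by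
    rw [QuotientGroup.eq]
    refine (stg_limit c α _).1 ⟨j, ?_⟩
    rw [map_mul, map_inv, hu, inv_mul_cancel]
  rw [h5, QuotientGroup.mk_mul, QuotientGroup.mk_mul, QuotientGroup.mk_inv, h4, hrep, hrep]
  group

end BSD
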