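import Pool.Agent.Lib.MP_8528c3_al.StI

/-!
# Burnside project, I6: all free Burnside groups of large odd exponent have colourings with eight
colours at all scales
-/

namespace BSD

namespace I6

theorem sE_nonneg (D0 : ℝ) (h : 0 ≤ D0) : ∀ a : ℕ, 0 ≤ sE D0 a
  | 0 => by
    show 0 ≤ D0 + 10
    linarith
  | a + 1 => by
    have h1 := sE_nonneg D0 h a
    show 0 ≤ D0 + 5 * sE D0 a + 15
    linarith

end I6

/-- I6: all free Burnside groups of large odd exponent have colourings with eight colours at all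
scales. -/
theorem burn_I6 (hSPH : stSPH) (hI1 : stI1) (hI3 : stI3) (hI5 : stI5) (hF0 : stF0)
    (hB20 : stB20) : stI6 := by
  obtain ⟨δ, T, hδ, hT, hCO⟩ := hB20
  obtain ⟨D0, ρ0, hD0, hS⟩ := hSPH δ T hδ hT hCO
  obtain ⟨ρ1, hρ1⟩ := hF0 δ T hδ hT hCO
  obtain ⟨k, hkδ, hkT, hkρ, hk⟩ := hρ1
    (max (max ρ1 ρ0) (4 * Real.exp ((sE D0 7 + 1) / 2) + 1))
    ((le_max_left _ _).trans (le_max_left _ _))
  obtain ⟨ε, hε, hε'⟩ := hS k hkδ hkT (by
    rw [hkρ]
    exact (le_max_right _ _).trans (le_max_left _ _))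
  have hpos : 0 < sE D0 6 + 2 := by
    have := I6.sE_nonneg D0 hD0 6
    linarith
  obtain ⟨N0, hN0⟩ := hk (min ε (1 / (sE D0 6 + 2))) (lt_min hε (by positivity))
  refine ⟨N0, fun n hn hodd α _ => ?_⟩
  obtain ⟨c, hc, hcn, hcl⟩ := hN0 n hn hodd
  subst hcn
  refine hI5 c α (sE D0 7) fun j i hji => ?_
  refine hI3 c (FreeGroup α) okHF (MS.base c okF0b okF16 α) D0 hD0 (fun i r hr => ?_) ?_ ?_
    j i hji
  · exact hI1 c (FreeGroup α) (stg c α i) D0 hD0
      (hε' c hc (hcl.trans (min_le_left _ _)) α i) r hr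
  · have h1 : c.ρ = max (max ρ1 ρ0) (4 * Real.exp ((sE D0 7 + 1) / 2) + 1) := by
      rw [← hkρ, ← hc]
    rw [h1]
    exact le_max_right _ _
  · have h1 : c.lam ≤ 1 / (sE D0 6 + 2) := hcl.trans (min_le_right _ _)
    exact (le_div_iff₀ hpos).1 h1

end BSD
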