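import Pool.Agent.Lib.MP_8528c3_al.StJ
import Pool.Agent.Lib.MP_8528c3_al.I6

/-!
# Burnside project: J6 (all free Burnside groups of large odd exponent, polynomial control)
-/

namespace BSD

theorem J6_arith (lam ρ A0 n L1 κ t e K : ℝ) (hlam0 : 0 < lam) (hlam1 : lam ≤ 1 / 100)
    (hρ : 1 ≤ ρ) (hA0 : 0 < A0) (hL1 : 0 ≤ L1) (hκ : 0 < κ) (ht : 0 ≤ t) (he : 2 < e)
    (hn : 0 ≤ n) (hel : lam ^ 2 * (κ * n) = 101 * t)
    (hK : K = Real.exp ρ + A0 + 101 * t * L1 / (κ * ρ) + 3)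
    (hlK : lam ≤ K ^ (-(1 / (e - 2)))) :
    ∃ C : ℝ, 1 ≤ C ∧ Real.exp ρ ≤ lam * C ∧ lam * (A0 + n * L1) ≤ lam * C * ρ ∧
      C + 1 ≤ (1 / lam) ^ e := by
  have hexp := Real.exp_pos ρ
  have hρ0 : 0 < ρ := by linarith
  have hq : 0 ≤ 101 * t * L1 / (κ * ρ) := by positivity
  have hK0 : 0 < K := by rw [hK]; positivity
  obtain ⟨X, hX⟩ : ∃ X : ℝ, X = lam * (A0 + n * L1) / ρ := ⟨_, rfl⟩
  have hX0 : 0 ≤ X := by rw [hX]; positivity
  have hXρ : X * ρ = lam * (A0 + n * L1) := by rw [hX]; field_simp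
  obtain ⟨C, hC⟩ : ∃ C : ℝ, C = (Real.exp ρ + X) / lam + 1 := ⟨_, rfl⟩
  have hlC : lam * C = Real.exp ρ + X + lam := by rw [hC]; field_simp
  have hlX : lam * X ≤ A0 + 101 * t * L1 / (κ * ρ) := by
    have h1 : lam * X = lam ^ 2 * A0 / ρ + 101 * t * L1 / (κ * ρ) := by
      rw [hX, ← hel]
      field_simp
    have h2 : lam ^ 2 ≤ 1 := pow_le_one₀ hlam0.le (by linarith)
    have h3 : lam ^ 2 * A0 / ρ ≤ A0 := by
      rw [div_le_iff₀ hρ0]
      nlinarith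
    linarith
  have hCK : (C + 1) * lam ^ 2 ≤ K := by
    have h1 : (C + 1) * lam ^ 2 = lam * (lam * C) + lam ^ 2 := by ring
    have h2 : lam * Real.exp ρ ≤ Real.exp ρ := mul_le_of_le_one_left hexp.le (by linarith)
    have h3 : lam ^ 2 ≤ 1 := pow_le_one₀ hlam0.le (by linarith)
    rw [h1, hlC, hK]
    have h4 : lam * (Real.exp ρ + X + lam) = lam * Real.exp ρ + lam * X + lam ^ 2 := by ring
    rw [h4]
    linarith
  refine ⟨C, ?_, ?_, ?_, ?_⟩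
  · rw [hC]
    have : 0 ≤ (Real.exp ρ + X) / lam := by positivity
    linarith
  · rw [hlC]
    linarith
  · rw [hlC, ← hXρ]
    exact mul_le_mul_of_nonneg_right (by linarith) hρ0.le
  · have h1 : K ≤ (1 / lam) ^ (e - 2) := by
      have h2 : K ^ (1 / (e - 2)) ≤ 1 / lam := by
        rw [le_div_iff₀ hlam0]
        calc K ^ (1 / (e - 2)) * lam ≤ K ^ (1 / (e - 2)) * K ^ (-(1 / (e - 2))) :=
              mul_le_mul_of_nonneg_left hlK (Real.rpow_nonneg hK0.le _)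
          _ = 1 := by rw [← Real.rpow_add hK0, add_neg_cancel, Real.rpow_zero]
      calc K = (K ^ (1 / (e - 2))) ^ (e - 2) := by
            rw [← Real.rpow_mul hK0.le, one_div_mul_cancel (by linarith), Real.rpow_one]
        _ ≤ (1 / lam) ^ (e - 2) :=
            Real.rpow_le_rpow (Real.rpow_nonneg hK0.le _) h2 (by linarith)
    have h3 : (1 / lam) ^ e = (1 / lam) ^ (e - 2) * (1 / lam) ^ 2 := by
      rw [← Real.rpow_natCast, ← Real.rpow_add (by positivity)]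
      congr 1
      push_cast
      ring
    rw [h3]
    calc C + 1 = ((C + 1) * lam ^ 2) * (1 / lam) ^ 2 := by field_simp
      _ ≤ K * (1 / lam) ^ 2 := mul_le_mul_of_nonneg_right hCK (by positivity)
      _ ≤ (1 / lam) ^ (e - 2) * (1 / lam) ^ 2 :=
          mul_le_mul_of_nonneg_right h1 (by positivity)

/-- A number which depends only on the constants `k`. -/
noncomputable def kcK (k : KC) : ℝ :=
  Real.exp k.ρ + k.A0 + 101 * tt1 k.δ k.ρ * k.L1 / (k.κ * k.ρ) + 3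

theorem J6_const (hF0b : stF0b) (e : ℝ) (he : 2 < e) (c : CC)
    (hcl3 : c.lam ≤ (kcK c.toKC) ^ (-(1 / (e - 2)))) :
    ∃ C : ℝ, 1 ≤ C ∧ Real.exp c.ρ ≤ c.lam * C ∧
      c.lam * (c.A0 + c.n * c.L1) ≤ c.lam * C * c.ρ ∧ C + 1 ≤ (1 / c.lam) ^ e := by
  have hb := hF0b c
  have h1 := c.hρ1
  have h2 := hb.1.2.1
  have h3 := hb.1.2.2.2.2.1
  have h4 := c.hδ
  have h5 := c.eL1
  have h6 := hb.1.1
  have h7 : 0 ≤ tt1 c.δ c.ρ := by
    unfold tt1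
    positivity
  exact J6_arith c.lam c.ρ c.A0 c.n c.L1 c.κ (tt1 c.δ c.ρ) e (kcK c.toKC) c.hlam hb.2.2.1
    (by linarith) hb.2.1.1 (by linarith) hb.1.2.2.2.2.2.2.2.2.1 h7 he (Nat.cast_nonneg _)
    c.elam rfl hcl3

theorem kcK_pos (hF0b : stF0b) (c : CC) : 0 < kcK c.toKC := by
  have hb := hF0b c
  have h1 := c.hρ1
  have h2 := hb.1.2.1
  have h3 := hb.1.2.2.2.2.1
  have h4 := c.hδ
  have h5 := c.eL1
  have h6 := hb.1.1
  have h7 : 0 ≤ tt1 c.δ c.ρ := by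
    unfold tt1
    positivity
  have h8 : 0 < c.κ := hb.1.2.2.2.2.2.2.2.2.1
  have h9 : 0 < c.ρ := by linarith
  have h10 : 0 ≤ c.L1 := by linarith
  have h11 := hb.2.1.1
  have h12 := Real.exp_pos c.ρ
  unfold kcK
  have : 0 ≤ 101 * tt1 c.δ c.ρ * c.L1 / (c.κ * c.ρ) := by positivity
  linarith

theorem burn_J6 (hSPH : stSPH) (hI1 : stI1) (hI3 : stI3) (hJ5 : stJ5) (hF0 : stF0)
    (hF0b : stF0b) (hB20 : stB20) : stJ6 := by
  intro e he
  obtain ⟨δ, T, hδ, hT, hCO⟩ := hB20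
  obtain ⟨D0, ρ0, hD0, hS⟩ := hSPH δ T hδ hT hCO
  obtain ⟨ρ1, hρ1⟩ := hF0 δ T hδ hT hCO
  obtain ⟨k, hkδ, hkT, hkρ, hk⟩ := hρ1
    (max (max ρ1 ρ0) (4 * Real.exp ((sE D0 7 + 1) / 2) + 1))
    ((le_max_left _ _).trans (le_max_left _ _))
  obtain ⟨ε, hε, hε'⟩ := hS k hkδ hkT (by
    rw [hkρ]
    exact (le_max_right _ _).trans (le_max_left _ _))
  have hpos : 0 < sE D0 6 + 2 := by
    have := I6.sE_nonneg D0 hD0 6
    linarith
  have hsE7 := I6.sE_nonneg D0 hD0 7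
  have hkpos : 0 < kcK k := by
    obtain ⟨N1, hN1⟩ := hk 1 one_pos
    obtain ⟨c, hc, -, -⟩ := hN1 (2 * N1 + 1) (by omega) ⟨N1, rfl⟩
    rw [← hc]
    exact kcK_pos hF0b c
  obtain ⟨N0, hN0⟩ := hk (min (min ε (1 / (sE D0 6 + 2))) ((kcK k) ^ (-(1 / (e - 2)))))
    (lt_min (lt_min hε (by positivity)) (Real.rpow_pos_of_pos hkpos _))
  refine ⟨N0, fun n hn hodd α _ => ?_⟩
  obtain ⟨c, hc, hcn, hcl⟩ := hN0 n hn hodd
  subst hcn
  have hcl1 : c.lam ≤ ε := hcl.trans ((min_le_left _ _).trans (min_le_left _ _))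
  have hcl2 : c.lam ≤ 1 / (sE D0 6 + 2) := hcl.trans ((min_le_left _ _).trans (min_le_right _ _))
  have hcl3 : c.lam ≤ (kcK c.toKC) ^ (-(1 / (e - 2))) := by
    rw [hc]
    exact hcl.trans (min_le_right _ _)
  obtain ⟨C, hC1, hC2, hC3, hCe⟩ := J6_const hF0b e he c hcl3
  refine hJ5 c C e hC1 hC2 hC3 (by linarith) hCe α (sE D0 7) hsE7 fun j i hji => ?_
  refine hI3 c (FreeGroup α) okHF (MS.base c okF0b okF16 α) D0 hD0 (fun i r hr => ?_) ?_ ?_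
    j i hji
  · exact hI1 c (FreeGroup α) (stg c α i) D0 hD0 (hε' c hc hcl1 α i) r hr
  · have h1 : c.ρ = max (max ρ1 ρ0) (4 * Real.exp ((sE D0 7 + 1) / 2) + 1) := by
      rw [← hkρ, ← hc]
    rw [h1]
    exact le_max_right _ _
  · exact (le_div_iff₀ hpos).1 hcl2

end BSD
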