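import Pool.Agent.Lib.MP_8528c3_al.StJ
import Pool.Agent.Lib.MP_8528c3_al.I7

/-!
# Burnside project: J7 (from colourings to covers, polynomial control)
-/

namespace BSD

open I7 in
theorem burn_J7 : stJ7 := by
  classical
  intro α _ _ n k e he hF S hfin hgen
  have hπs : ∀ g : FB α n, ∃ u : FreeGroup α, (u : FB α n) = g :=
    fun g => QuotientGroup.mk_surjective g
  -- (A)
  obtain ⟨C1, hC1⟩ : ∃ C1 : ℕ, ∀ s ∈ S, ∃ u : FreeGroup α, (u : FB α n) = s ∧
      u.norm ≤ C1 := by
    choose v hv using hπs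
    have hb : BddAbove ((fun s => (v s).norm) '' S) := (hfin.image _).bddAbove
    obtain ⟨C, hC⟩ := hb
    exact ⟨C, fun s hs => ⟨v s, hv s, hC ⟨s, hs, rfl⟩⟩⟩
  have hA : ∀ l : List (FB α n), (∀ s ∈ l, s ∈ S ∨ s⁻¹ ∈ S) →
      ∃ u : FreeGroup α, (u : FB α n) = l.prod ∧ u.norm ≤ C1 * l.length := by
    intro l
    induction l with
    | nil => intro _; exact ⟨1, by simp, by simp⟩
    | cons a l ih =>
      intro h
      obtain ⟨u, hu, hu'⟩ := ih (fun s hs => h s (List.mem_cons_of_mem _ hs))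
      obtain ⟨v, hv, hv'⟩ : ∃ v : FreeGroup α, (v : FB α n) = a ∧ v.norm ≤ C1 := by
        rcases h a List.mem_cons_self with h1 | h1
        · exact hC1 a h1
        · obtain ⟨v, hv, hv'⟩ := hC1 _ h1
          refine ⟨v⁻¹, ?_, ?_⟩
          · rw [QuotientGroup.mk_inv, hv, inv_inv]
          · rw [FreeGroup.norm_inv_eq]; exact hv'
      refine ⟨v * u, ?_, ?_⟩
      · rw [QuotientGroup.mk_mul, hu, hv, List.prod_cons]
      · calc (v * u).norm ≤ v.norm + u.norm := FreeGroup.norm_mul_le _ _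
          _ ≤ C1 + C1 * l.length := by omega
          _ = C1 * (a :: l).length := by rw [List.length_cons]; ring
  -- (B)
  obtain ⟨C2, hC2⟩ : ∃ C2 : ℕ, ∀ a : α,
      wordLength S ((FreeGroup.of a : FreeGroup α) : FB α n) ≤ C2 := by
    have hb : BddAbove (Set.range fun a : α =>
      wordLength S ((FreeGroup.of a : FreeGroup α) : FB α n)) := (Set.finite_range _).bddAbove
    obtain ⟨C, hC⟩ := hb
    exact ⟨C, fun a => hC ⟨a, rfl⟩⟩
  have hB : ∀ L : List (α × Bool),
      wordLength S ((FreeGroup.mk L : FreeGroup α) : FB α n) ≤ C2 * L.length := by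
    intro L
    induction L with
    | nil =>
      have : ((FreeGroup.mk ([] : List (α × Bool)) : FreeGroup α) : FB α n) = 1 := by
        rw [← FreeGroup.one_eq_mk]; rfl
      rw [this, wl_one]; exact Nat.zero_le _
    | cons x L ih =>
      have h1 : (FreeGroup.mk (x :: L) : FreeGroup α) = FreeGroup.mk [x] * FreeGroup.mk L := by
        rw [FreeGroup.mul_mk]; rfl
      have h2 : wordLength S ((FreeGroup.mk [x] : FreeGroup α) : FB α n) ≤ C2 := by
        obtain ⟨a, b⟩ := x
        cases b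
        · have : (FreeGroup.mk [(a, false)] : FreeGroup α) = (FreeGroup.of a)⁻¹ := by
            rw [FreeGroup.of, FreeGroup.inv_mk]; rfl
          rw [this, QuotientGroup.mk_inv]
          exact (wl_inv hgen _).trans (hC2 a)
        · exact hC2 a
      rw [h1, QuotientGroup.mk_mul]
      calc _ ≤ _ := wl_mul hgen _ _
        _ ≤ C2 + C2 * L.length := by omega
        _ = C2 * (x :: L).length := by rw [List.length_cons]; ring
  have hB' : ∀ u : FreeGroup α, wordLength S ((u : FreeGroup α) : FB α n) ≤ C2 * u.norm := by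
    intro u
    have := hB u.toWord
    rw [FreeGroup.mk_toWord] at this
    exact this
  obtain ⟨A, hA0, hF⟩ := hF
  refine ⟨C2 * (A * (2 * C1 + 1) ^ e), fun r hr => ?_⟩
  have hr0 : 0 < r := by linarith
  obtain ⟨f, hf⟩ := hF (C1 * ⌊2 * r⌋₊ + 1) (by omega)
  have hRr : ((C1 * ⌊2 * r⌋₊ + 1 : ℕ) : ℝ) ≤ (2 * C1 + 1) * r := by
    have h1 : ((⌊2 * r⌋₊ : ℕ) : ℝ) ≤ 2 * r := Nat.floor_le (by linarith)
    push_cast
    have h2 : (0 : ℝ) ≤ C1 := by positivity
    nlinarith
  have hbound : A * ((C1 * ⌊2 * r⌋₊ + 1 : ℕ) : ℝ) ^ e ≤ A * (2 * C1 + 1) ^ e * r ^ e := by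
    rw [mul_assoc]
    refine mul_le_mul_of_nonneg_left ?_ hA0
    rw [← Real.mul_rpow (by positivity) hr0.le]
    exact Real.rpow_le_rpow (by positivity) hRr he
  set rel : FB α n → FB α n → Prop := fun a b => f a = f b ∧ ∃ u : FreeGroup α,
    u.norm ≤ C1 * ⌊2 * r⌋₊ + 1 ∧ b = a * (u : FB α n) with hrel
  have hsymm : ∀ a b, rel a b → rel b a := by
    rintro a b ⟨h1, u, h2, h3⟩
    refine ⟨h1.symm, u⁻¹, ?_, ?_⟩
    · rw [FreeGroup.norm_inv_eq]; exact h2
    · rw [h3, QuotientGroup.mk_inv, mul_inv_cancel_right]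
  have hsymm' : ∀ {a b}, Relation.ReflTransGen rel a b → Relation.ReflTransGen rel b a := by
    intro a b h
    induction h with
    | refl => exact Relation.ReflTransGen.refl
    | tail _ h ih => exact Relation.ReflTransGen.head (hsymm _ _ h) ih
  have hcol : ∀ a b, Relation.ReflTransGen rel a b → f a = f b := by
    intro a b h
    induction h with
    | refl => rfl
    | tail _ h ih => exact ih.trans h.1
  set comp : FB α n → Set (FB α n) := fun b => {b' | Relation.ReflTransGen rel b b'} with hcomp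
  have hcompeq : ∀ b y, y ∈ comp b → comp b = comp y := by
    intro b y hy
    ext z
    constructor
    · intro hz
      exact (hsymm' hy).trans hz
    · intro hz
      exact Relation.ReflTransGen.trans hy hz
  refine ⟨Set.range comp, ?_, ?_, ?_⟩
  · intro x
    exact ⟨comp x, ⟨x, rfl⟩, Relation.ReflTransGen.refl⟩
  · rintro _ ⟨b, rfl⟩ x hx y hy
    have hxy : Relation.ReflTransGen rel x y := (hsymm' hx).trans hy
    obtain ⟨u, hu, hu'⟩ := hf x y hxy
    have h1 : x⁻¹ * y = (u : FB α n) := by rw [hu', inv_mul_cancel_left]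
    have h2 := hB' u
    unfold wordDist
    rw [h1]
    have h3 : (wordLength S ((u : FreeGroup α) : FB α n) : ℝ) ≤ C2 * u.norm := by
      exact_mod_cast h2
    have h4 : (C2 : ℝ) * u.norm ≤ C2 * (A * (2 * C1 + 1) ^ e * r ^ e) :=
      mul_le_mul_of_nonneg_left (hu.trans hbound) (by positivity)
    calc _ ≤ _ := h3
      _ ≤ _ := h4
      _ = _ := by ring
  · intro x
    have hfinal : {V | V ∈ Set.range comp ∧ ∃ y ∈ V, wordDist S x y ≤ r}.encard ≤
        (Set.univ : Set (Fin (k + 1))).encard := by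
      refine Set.encard_le_encard_of_injOn
        (f := fun V : Set (FB α n) => if h : V.Nonempty then f h.some else 0) ?_ ?_
      · intro A _; exact Set.mem_univ _
      · rintro V ⟨⟨b, rfl⟩, y, hy, hxy⟩ V' ⟨⟨b', rfl⟩, y', hy', hxy'⟩ hAA
        have hn : (comp b).Nonempty := ⟨y, hy⟩
        have hn' : (comp b').Nonempty := ⟨y', hy'⟩
        simp only [hn, hn', dif_pos] at hAA
        have e1 : f hn.some = f y := hcol _ _ ((hsymm' hn.some_mem).trans hy)
        have e2 : f hn'.some = f y' := hcol _ _ ((hsymm' hn'.some_mem).trans hy')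
        have e3 : f y = f y' := by rw [← e1, ← e2, hAA]
        have e4 : (wordLength S (y⁻¹ * y') : ℝ) ≤ 2 * r := by
          have h1 : y⁻¹ * y' = (x⁻¹ * y)⁻¹ * (x⁻¹ * y') := by group
          have h2 := wl_mul hgen (x⁻¹ * y)⁻¹ (x⁻¹ * y')
          rw [← h1] at h2
          have h3 := wl_inv hgen (x⁻¹ * y)
          have h4 : (wordLength S (x⁻¹ * y) : ℝ) ≤ r := hxy
          have h5 : (wordLength S (x⁻¹ * y') : ℝ) ≤ r := hxy'
          have h6 : (wordLength S (y⁻¹ * y') : ℝ) ≤
              wordLength S (x⁻¹ * y) + wordLength S (x⁻¹ * y') := by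
            exact_mod_cast h2.trans (Nat.add_le_add_right h3 _)
          linarith
        have e5 : wordLength S (y⁻¹ * y') ≤ ⌊2 * r⌋₊ := Nat.le_floor e4
        obtain ⟨l, h1, h2, h3⟩ := wl_attained hgen (y⁻¹ * y')
        obtain ⟨u, hu, hu'⟩ := hA l h2
        have e6 : rel y y' := by
          refine ⟨e3, u, ?_, ?_⟩
          · rw [h1] at hu'
            exact (hu'.trans (Nat.mul_le_mul_left _ e5)).trans (Nat.le_succ _)
          · rw [hu, h3, mul_inv_cancel_left]
        rw [hcompeq b y hy, hcompeq b' y' hy']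
        exact hcompeq y y' (Relation.ReflTransGen.single e6)
    refine hfinal.trans ?_
    rw [Set.encard_univ, ENat.card_eq_coe_fintype_card, Fintype.card_fin]
    exact le_of_eq (by push_cast; rfl)

theorem burn_J8 (h6 : stJ6) (h7 : stJ7) : stJ8 := by
  intro e he
  obtain ⟨N0, hN⟩ := h6 e he
  refine ⟨N0, fun m n hn ho S hS hS' => ?_⟩
  exact h7 (Fin m) n 7 e (by linarith) (hN n hn ho (Fin m)) S hS hS'

end BSD
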