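import Pool.Agent.Lib.MP_8528c3_al.AllG
import Pool.Agent.Lib.MP_8528c3_al.StH
import Pool.Agent.Lib.MP_8528c3_al.I1
import Pool.Agent.Lib.MP_8528c3_al.I2b
import Pool.Agent.Lib.MP_8528c3_al.I2a
import Pool.Agent.Lib.MP_8528c3_al.I2
import Pool.Agent.Lib.MP_8528c3_al.I3a
import Pool.Agent.Lib.MP_8528c3_al.I3c
import Pool.Agent.Lib.MP_8528c3_al.I3d
import Pool.Agent.Lib.MP_8528c3_al.I3e
import Pool.Agent.Lib.MP_8528c3_al.I3
import Pool.Agent.Lib.MP_8528c3_al.I4a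
import Pool.Agent.Lib.MP_8528c3_al.I4c
import Pool.Agent.Lib.MP_8528c3_al.J4b
import Pool.Agent.Lib.MP_8528c3_al.J4
import Pool.Agent.Lib.MP_8528c3_al.J5
import Pool.Agent.Lib.MP_8528c3_al.J6
import Pool.Agent.Lib.MP_8528c3_al.J7

/-!
# Burnside project: parts I and J, assembled (the hypotheses are `stI3b` and `stH20` only)
-/

namespace BSD

theorem okI1 : stI1 := burn_I1 okG2w
theorem okI2b : stI2b := burn_I2b
theorem okI2a : stI2a := burn_I2a okD7 okB9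
theorem okI2 : stI2 := burn_I2 okI2b okI2a okF0b
theorem okI3a : stI3a := burn_I3a okI2b okB7
theorem okI3c : stI3c := burn_I3c
theorem okI3d : stI3d := burn_I3d okG0 okG1
theorem okI4a : stI4a := burn_I4a okF6 okF0b
theorem okI4c : stI4c := burn_I4c
theorem okJ4b : stJ4b := burn_J4b okI2b okI4a okF0b
theorem okJ4 : stJ4 := burn_J4 okJ4b okI2b
theorem okJ5 : stJ5 := burn_J5 okJ4 okI4c okF0b
theorem okJ7 : stJ7 := burn_J7

/-- The conclusion of part H in the form used by part I. -/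
theorem sph_of_H20 (h : stH20) : stSPH := by
  intro δ T hδ hT _
  obtain ⟨Dst, ρ2, hD, h1⟩ := h δ T hδ hT
  refine ⟨Dst, ρ2, by linarith, fun k hkδ hkT hkρ => ?_⟩
  obtain ⟨ε, hε, h2⟩ := h1 k hkδ hkT hkρ
  refine ⟨ε, hε, fun c hc hcl α _ i => ?_⟩
  have h3 := h2 c hc hcl α i
  have h4 : c.δ = δ := by rw [hc, hkδ]
  rw [h4]
  exact h3

/-- Polynomial control implies the bound for the asymptotic dimension. -/
theorem AsdimPoly.le {X : Type} {d : X → X → ℝ} {k : ℕ} {e : ℝ} (h : AsdimPoly d k e) :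
    AsdimLE d k := by
  obtain ⟨A, hA⟩ := h
  intro r hr
  obtain ⟨U, h1, h2, h3⟩ := hA (max r 1) (le_max_right _ _)
  refine ⟨A * (max r 1) ^ e, U, h1, h2, fun x => ?_⟩
  refine le_trans (Set.encard_le_encard ?_) (h3 x)
  rintro V ⟨hV, y, hy, hxy⟩
  exact ⟨hV, y, hy, hxy.trans (le_max_left _ _)⟩

theorem J8_of (h3b : stI3b) (h20 : stH20) : stJ8 :=
  burn_J8 (burn_J6 (sph_of_H20 h20) okI1 (burn_I3 (burn_I3e h3b okI3c okI3d okF0b) okI2) okJ5
    okF0 okF0b okB20) okJ7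

theorem I8_of_J8 (h : stJ8) : stI8 := by
  obtain ⟨N0, hN⟩ := h 3 (by norm_num)
  exact ⟨N0, fun m n hn ho S hS hS' => (hN m n hn ho S hS hS').le⟩

end BSD
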