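import Pool.Agent.Lib.MP_8528c3_al.StB

/-!
# Burnside project, B10: the cone-off is almost geodesic
-/

namespace BSD

namespace B10

/-- chains with steps at most `σ` and total length `a` -/
inductive Chn {Z : Type} (N : PM Z) (σ : ℝ) : Z → Z → ℝ → Prop
  | nil (p : Z) : Chn N σ p p 0
  | snoc (p q r : Z) (a : ℝ) (h : Chn N σ p q a) (hs : N.d q r ≤ σ) :
      Chn N σ p r (a + N.d q r)

theorem Chn.trans {Z : Type} {N : PM Z} {σ : ℝ} {p q r : Z} {a b : ℝ} (h : Chn N σ p q a)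
    (h' : Chn N σ q r b) : Chn N σ p r (a + b) := by
  induction h' with
  | nil => simpa using h
  | snoc q' r b _ hs ih =>
    have := Chn.snoc p q' r (a + b) ih hs
    rwa [add_assoc] at this

/-- chains of total length at most `a` -/
def Ch {Z : Type} (N : PM Z) (σ : ℝ) (p q : Z) (a : ℝ) : Prop := ∃ b, b ≤ a ∧ Chn N σ p q b

theorem Ch.trans {Z : Type} {N : PM Z} {σ : ℝ} {p q r : Z} {a b : ℝ} (h : Ch N σ p q a)
    (h' : Ch N σ q r b) : Ch N σ p r (a + b) := by
  obtain ⟨a', ha, h1⟩ := h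
  obtain ⟨b', hb, h2⟩ := h'
  exact ⟨a' + b', by linarith, h1.trans h2⟩

theorem Ch.mono {Z : Type} {N : PM Z} {σ : ℝ} {p q : Z} {a b : ℝ} (h : Ch N σ p q a)
    (hab : a ≤ b) : Ch N σ p q b := by
  obtain ⟨a', ha, h1⟩ := h
  exact ⟨a', ha.trans hab, h1⟩

theorem Ch.refl {Z : Type} {N : PM Z} {σ : ℝ} (p : Z) : Ch N σ p p 0 := ⟨0, le_rfl, Chn.nil p⟩

theorem Ch.one {Z : Type} {N : PM Z} {σ : ℝ} {p q : Z} {a : ℝ} (h : N.d p q ≤ a)
    (h' : a ≤ σ) : Ch N σ p q a := by
  refine ⟨0 + N.d p q, by linarith, Chn.snoc p p q 0 (Chn.nil p) (h.trans h')⟩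

theorem Chn.seq {Z : Type} {N : PM Z} {σ : ℝ} {p q : Z} {a : ℝ} (h : Chn N σ p q a) :
    ∃ (n : ℕ) (z : ℕ → Z), z 0 = p ∧ z n = q ∧ (∀ i < n, N.d (z i) (z (i + 1)) ≤ σ) ∧
      ∑ i ∈ Finset.range n, N.d (z i) (z (i + 1)) = a := by
  induction h with
  | nil => exact ⟨0, fun _ => p, rfl, rfl, by simp, by simp⟩
  | snoc q r a _ hs ih =>
    obtain ⟨n, z, h0, hn, hst, hsum⟩ := ih
    have h1 : ∀ i ≤ n, (fun i => if i ≤ n then z i else r) i = z i := by
      intro i hi
      simp [hi]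
    have h2 : (fun i => if i ≤ n then z i else r) (n + 1) = r := by simp
    refine ⟨n + 1, fun i => if i ≤ n then z i else r, ?_, h2, ?_, ?_⟩
    · rw [h1 0 (Nat.zero_le _), h0]
    · intro i hi
      rcases Nat.lt_or_ge i n with hin | hin
      · rw [h1 i hin.le, h1 (i + 1) hin]
        exact hst i hin
      · have : i = n := by omega
        subst this
        rw [h1 i le_rfl, h2, hn]
        exact hs
    · rw [Finset.sum_range_succ, h1 n le_rfl, h2, hn]
      congr 1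
      rw [← hsum]
      refine Finset.sum_congr rfl fun i hi => ?_
      have hi' := Finset.mem_range.1 hi
      rw [h1 i hi'.le, h1 (i + 1) hi']

theorem of_seq {Z : Type} {N : PM Z} {σ : ℝ} (z : ℕ → Z) (n : ℕ)
    (h : ∀ i < n, N.d (z i) (z (i + 1)) ≤ σ) :
    Chn N σ (z 0) (z n) (∑ i ∈ Finset.range n, N.d (z i) (z (i + 1))) := by
  induction n with
  | zero => simpa using Chn.nil (z 0)
  | succ n ih =>
    rw [Finset.sum_range_succ]
    exact Chn.snoc _ _ _ _ (ih fun i hi => h i (by omega)) (h n (by omega))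

section Moves

variable {X I : Type} {M : PM X} {Y : I → Set X} {ρ : ℝ} (hY : ∀ i, (Y i).Nonempty) (hρ : 0 ≤ ρ)

include hY hρ in
theorem ch_mv {p q : Co Y ρ} {c : ℝ} (h : Mv M Y ρ p q c) (hc : c ≤ 2) :
    Ch (coPM M Y ρ hY hρ) 2 p q c := Ch.one (coD_le (Co.pth_one h)) hc

/-- vertical chains -/
theorem ch_vert (i : I) (y : X) (hy : y ∈ Y i) (s s' : ℝ) (h0 : 0 ≤ s) (h1 : s ≤ ρ)
    (h0' : 0 ≤ s') (h1' : s' ≤ ρ) :
    Ch (coPM M Y ρ hY hρ) 2 (Co.cone i y hy s h0 h1) (Co.cone i y hy s' h0' h1') |s - s'| := by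
  -- number of steps
  obtain ⟨N, hN⟩ := exists_nat_gt (|s - s'|)
  have hN0 : (0 : ℝ) < N := lt_of_le_of_lt (abs_nonneg _) hN
  -- heights
  have hh : ∀ k : ℕ, k ≤ N → 0 ≤ s + (k : ℝ) / N * (s' - s) ∧ s + (k : ℝ) / N * (s' - s) ≤ ρ := by
    intro k hk
    have hk' : (k : ℝ) / N ≤ 1 := by
      rw [div_le_one hN0]
      exact_mod_cast hk
    have hk0 : 0 ≤ (k : ℝ) / N := by positivity
    have he : s + (k : ℝ) / N * (s' - s) = (1 - (k : ℝ) / N) * s + (k : ℝ) / N * s' := by ring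
    rw [he]
    constructor
    · have a1 : 0 ≤ (1 - (k : ℝ) / N) * s := mul_nonneg (by linarith) h0
      have a2 : 0 ≤ (k : ℝ) / N * s' := mul_nonneg hk0 h0'
      linarith
    · have a1 : (1 - (k : ℝ) / N) * s ≤ (1 - (k : ℝ) / N) * ρ :=
        mul_le_mul_of_nonneg_left h1 (by linarith)
      have a2 : (k : ℝ) / N * s' ≤ (k : ℝ) / N * ρ := mul_le_mul_of_nonneg_left h1' hk0
      linarith
  have key : ∀ k : ℕ, ∀ hk : k ≤ N, Ch (coPM M Y ρ hY hρ) 2 (Co.cone i y hy s h0 h1)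
      (Co.cone i y hy (s + (k : ℝ) / N * (s' - s)) (hh k hk).1 (hh k hk).2)
      ((k : ℝ) / N * |s - s'|) := by
    intro k
    induction k with
    | zero =>
      intro hk
      have h2 : Mv M Y ρ (Co.cone i y hy s h0 h1)
        (Co.cone i y hy (s + ((0 : ℕ) : ℝ) / N * (s' - s)) (hh 0 hk).1 (hh 0 hk).2)
        |s - (s + ((0 : ℕ) : ℝ) / N * (s' - s))| := Mv.vert i y hy s _ h0 h1 _ _
      have h3 : |s - (s + ((0 : ℕ) : ℝ) / N * (s' - s))| = 0 := by simp
      rw [h3] at h2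
      refine (ch_mv hY hρ h2 (by norm_num)).mono ?_
      simp
    | succ k ih =>
      intro hk
      have h2 := ih (by omega)
      have h3 : Mv M Y ρ
        (Co.cone i y hy (s + (k : ℝ) / N * (s' - s)) (hh k (by omega)).1 (hh k (by omega)).2)
        (Co.cone i y hy (s + ((k + 1 : ℕ) : ℝ) / N * (s' - s)) (hh (k + 1) hk).1
          (hh (k + 1) hk).2)
        |s + (k : ℝ) / N * (s' - s) - (s + ((k + 1 : ℕ) : ℝ) / N * (s' - s))| :=
        Mv.vert i y hy _ _ _ _ _ _
      have h4 : |s + (k : ℝ) / N * (s' - s) - (s + ((k + 1 : ℕ) : ℝ) / N * (s' - s))| =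
          1 / N * |s - s'| := by
        have : s + (k : ℝ) / N * (s' - s) - (s + ((k + 1 : ℕ) : ℝ) / N * (s' - s)) =
            1 / N * (s - s') := by
          push_cast
          ring
        rw [this, abs_mul, abs_of_nonneg (by positivity : (0 : ℝ) ≤ 1 / N)]
      rw [h4] at h3
      have h5 : 1 / N * |s - s'| ≤ 2 := by
        rw [one_div, inv_mul_le_iff₀ hN0]
        linarith
      refine (h2.trans (ch_mv hY hρ h3 h5)).mono (le_of_eq ?_)
      push_cast
      ring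
  have h6 := key N le_rfl
  have h7 : (N : ℝ) / N = 1 := div_self hN0.ne'
  have h8 : s + (N : ℝ) / N * (s' - s) = s' := by rw [h7]; ring
  have h6' := h6.mono (b := |s - s'|) (by rw [h7, one_mul])
  have h9 : ∀ t (g0 : 0 ≤ t) (g1 : t ≤ ρ), t = s' →
      Ch (coPM M Y ρ hY hρ) 2 (Co.cone i y hy s h0 h1) (Co.cone i y hy t g0 g1) |s - s'| →
      Ch (coPM M Y ρ hY hρ) 2 (Co.cone i y hy s h0 h1) (Co.cone i y hy s' h0' h1') |s - s'| := by
    intro t g0 g1 ht
    subst ht
    exact id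
  exact h9 _ _ _ h8 h6'

/-- horizontal chains -/
theorem ch_hor (i : I) (y y' : X) (hy : y ∈ Y i) (hy' : y' ∈ Y i) (s : ℝ) (h0 : 0 ≤ s)
    (h1 : s ≤ ρ) :
    Ch (coPM M Y ρ hY hρ) 2 (Co.cone i y hy s h0 h1) (Co.cone i y' hy' s h0 h1)
      (M.d y y' * Real.exp (-s)) := by
  rcases le_or_gt (M.d y y' * Real.exp (-s)) 2 with hc | hc
  · exact ch_mv hY hρ (Mv.hor i y y' hy hy' s h0 h1) hc
  · have hes : 0 < Real.exp s := Real.exp_pos s
    have hd : 2 * Real.exp s < M.d y y' := by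
      rw [Real.exp_neg, ← div_eq_mul_inv, lt_div_iff₀ hes] at hc
      exact hc
    have hd0 : 0 < M.d y y' / 2 := by linarith
    have hlog : s ≤ Real.log (M.d y y' / 2) := by
      rw [Real.le_log_iff_exp_le hd0]
      linarith
    rcases le_or_gt (Real.log (M.d y y' / 2)) ρ with hl | hl
    · -- horizontal step at height `u = log (d / 2)`
      obtain ⟨u, hu⟩ : ∃ u, u = Real.log (M.d y y' / 2) := ⟨_, rfl⟩
      rw [← hu] at hl hlog
      have hu0 : 0 ≤ u := h0.trans hlog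
      have hexp : Real.exp u = M.d y y' / 2 := by rw [hu, Real.exp_log hd0]
      have hne : M.d y y' ≠ 0 := by
        intro h
        rw [h] at hd0
        norm_num at hd0
      have hstep : M.d y y' * Real.exp (-u) = 2 := by
        rw [Real.exp_neg, hexp]
        field_simp
      have c1 := ch_vert (M := M) hY hρ i y hy s u h0 h1 hu0 hl
      have c2 : Ch (coPM M Y ρ hY hρ) 2 (Co.cone i y hy u hu0 hl) (Co.cone i y' hy' u hu0 hl)
          (M.d y y' * Real.exp (-u)) :=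
        ch_mv hY hρ (Mv.hor i y y' hy hy' u hu0 hl) hstep.le
      have c3 := ch_vert (M := M) hY hρ i y' hy' u s hu0 hl h0 h1
      refine ((c1.trans c2).trans c3).mono ?_
      have e1 : |s - u| = u - s := by rw [abs_sub_comm, abs_of_nonneg (by linarith)]
      have e2 : |u - s| = u - s := abs_of_nonneg (by linarith)
      rw [e1, e2, hstep]
      have e3 : M.d y y' * Real.exp (-s) = 2 * Real.exp (u - s) := by
        rw [Real.exp_sub, hexp, Real.exp_neg]
        field_simp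
      rw [e3]
      have := Real.add_one_le_exp (u - s)
      linarith
    · -- through the apex
      have c1 := ch_vert (M := M) hY hρ i y hy s ρ h0 h1 hρ le_rfl
      have c2 : Ch (coPM M Y ρ hY hρ) 2 (Co.cone i y hy ρ hρ le_rfl) (Co.apex i) 0 :=
        ch_mv hY hρ (Mv.top i y hy hρ) (by norm_num)
      have c3 : Ch (coPM M Y ρ hY hρ) 2 (Co.apex i) (Co.cone i y' hy' ρ hρ le_rfl) 0 :=
        ch_mv hY hρ (Mv.topr i y' hy' hρ) (by norm_num)
      have c4 := ch_vert (M := M) hY hρ i y' hy' ρ s hρ le_rfl h0 h1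
      refine (((c1.trans c2).trans c3).trans c4).mono ?_
      have e1 : |s - ρ| = ρ - s := by rw [abs_sub_comm, abs_of_nonneg (by linarith)]
      have e2 : |ρ - s| = ρ - s := abs_of_nonneg (by linarith)
      rw [e1, e2]
      have e3 : Real.exp ρ < M.d y y' / 2 := by
        rw [← Real.lt_log_iff_exp_lt hd0]
        exact hl
      have e4 : 2 * Real.exp (ρ - s) ≤ M.d y y' * Real.exp (-s) := by
        rw [Real.exp_sub, Real.exp_neg, div_eq_mul_inv]
        have : 0 < (Real.exp s)⁻¹ := by positivity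
        nlinarith
      have := Real.add_one_le_exp (ρ - s)
      linarith

theorem ch_all (hM : M.SG 2) {p q : Co Y ρ} {c : ℝ} (h : Mv M Y ρ p q c) (η : ℝ) (hη : 0 < η) :
    Ch (coPM M Y ρ hY hρ) 2 p q (c + η) := by
  cases h with
  | base x x' =>
    obtain ⟨n, z, h0, hn, hst, hsum⟩ := hM x x' η hη
    have h1 : ∀ i, (coPM M Y ρ hY hρ).d (Co.base (z i)) (Co.base (z (i + 1))) ≤
        M.d (z i) (z (i + 1)) := fun i => coD_le (Co.pth_one (Mv.base _ _))
    have h2 := of_seq (N := coPM M Y ρ hY hρ) (σ := 2) (fun i => (Co.base (z i) : Co Y ρ)) n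
      (fun i hi => (h1 i).trans (hst i hi))
    simp only [h0, hn] at h2
    exact ⟨_, (Finset.sum_le_sum fun i _ => h1 i).trans hsum, h2⟩
  | up i y hy h => exact (ch_mv hY hρ (Mv.up i y hy h) (by norm_num)).mono (by linarith)
  | dn i y hy h => exact (ch_mv hY hρ (Mv.dn i y hy h) (by norm_num)).mono (by linarith)
  | vert i y hy s s' h0 h1 h0' h1' =>
    exact (ch_vert hY hρ i y hy s s' h0 h1 h0' h1').mono (by linarith)
  | hor i y y' hy hy' s h0 h1 => exact (ch_hor hY hρ i y y' hy hy' s h0 h1).mono (by linarith)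
  | top i y hy h => exact (ch_mv hY hρ (Mv.top i y hy h) (by norm_num)).mono (by linarith)
  | topr i y hy h => exact (ch_mv hY hρ (Mv.topr i y hy h) (by norm_num)).mono (by linarith)

theorem ch_pth (hM : M.SG 2) {p q : Co Y ρ} {a : ℝ} (h : Pth M Y ρ p q a) :
    ∀ η : ℝ, 0 < η → Ch (coPM M Y ρ hY hρ) 2 p q (a + η) := by
  induction h with
  | nil => intro η hη; exact (Ch.refl _).mono (by linarith)
  | snoc q r a c _ hm ih =>
    intro η hη
    exact ((ih (η / 2) (half_pos hη)).trans (ch_all hY hρ hM hm (η / 2) (half_pos hη))).mono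
      (by linarith)

end Moves

end B10

open B10 in
/-- B10: the cone-off is almost geodesic. -/
theorem burn_B10 : stB10 := by
  intro X I M Y ρ hY hρ hM p q η hη
  obtain ⟨a, ha, hlt⟩ := coD_approx (M := M) hY hρ p q (half_pos hη)
  obtain ⟨b, hb, hch⟩ := ch_pth hY hρ hM ha (η / 2) (half_pos hη)
  obtain ⟨n, z, h0, hn, hst, hsum⟩ := hch.seq
  refine ⟨n, z, h0, hn, hst, ?_⟩
  rw [hsum]
  have : (coPM M Y ρ hY hρ).d p q = coD M Y ρ p q := rfl
  rw [this]
  linarith

end BSD
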