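import Pool.Agent.Lib.MP_8528c3_al.StB

/-!
# Burnside project, B17: replacing a far point by the gate
-/

set_option autoImplicit false

namespace BSD

namespace B17

variable {X I : Type} {M : PM X} {Y : I → Set X} {ρ : ℝ} {π : I → X → X} {y0 : I → X}

theorem hti_nonneg (hρ : 0 ≤ ρ) (i : I) (v : Co Y ρ) : 0 ≤ hti i v := by
  cases v with
  | base x => exact le_rfl
  | cone j y hy s h0 h1 =>
    simp only [hti]
    split_ifs
    · exact h0
    · exact le_rfl
  | apex j =>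
    simp only [hti]
    split_ifs
    · exact hρ
    · exact le_rfl

theorem hti_pos (hy0 : ∀ i, y0 i ∈ Y i) {i : I} {v : Co Y ρ} (h : 0 < hti i v) :
    bt y0 v ∈ Y i ∧ ∀ k, k ≠ i → hti k v = 0 := by
  cases v with
  | base x => exact absurd h (lt_irrefl _)
  | cone j y hy s h0 h1 =>
    simp only [hti] at h
    split_ifs at h with hj
    · subst hj
      refine ⟨hy, fun k hk => ?_⟩
      simp only [hti]
      exact if_neg (Ne.symm hk)
    · exact absurd h (lt_irrefl _)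
  | apex j =>
    simp only [hti] at h
    split_ifs at h with hj
    · subst hj
      refine ⟨hy0 j, fun k hk => ?_⟩
      simp only [hti]
      exact if_neg (Ne.symm hk)
    · exact absurd h (lt_irrefl _)

theorem uu_self (h6 : stB6) (hρ : 0 ≤ ρ) (i : I) (a b : Co Y ρ) :
    uu M π y0 i a a ≤ uu M π y0 i a b := by
  obtain ⟨-, h0, -, h1, -⟩ := h6 X I M Y ρ π y0 hρ i a b a
  refine (min_le_right _ _).trans ?_
  rw [M.self, zero_div, Real.log_zero]
  exact max_le (max_le h1 h1) h0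

theorem mu_pts (h6 : stB6) (hρ : 0 ≤ ρ) {i : I} {a b c p : Co Y ρ}
    (h : IsMu M π y0 i a b c p) :
    ∃ v : Co Y ρ, At π y0 i v (hh M π y0 i a b c) p ∧
      ((uu M π y0 i v a ≤ hh M π y0 i a b c ∧ uu M π y0 i v b ≤ hh M π y0 i a b c) ∨
      (uu M π y0 i v b ≤ hh M π y0 i a b c ∧ uu M π y0 i v c ≤ hh M π y0 i a b c) ∨
      (uu M π y0 i v a ≤ hh M π y0 i a b c ∧ uu M π y0 i v c ≤ hh M π y0 i a b c)) := by
  have sy : ∀ s t : Co Y ρ, uu M π y0 i s t = uu M π y0 i t s := fun s t =>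
    (h6 X I M Y ρ π y0 hρ i s t s).1
  rcases h with ⟨hu, h1 | h1⟩ | ⟨hu, h1 | h1⟩ | ⟨hu, h1 | h1⟩
  · exact ⟨a, h1, Or.inl ⟨(uu_self h6 hρ i a b).trans hu.le, hu.le⟩⟩
  · exact ⟨b, h1, Or.inl ⟨(sy b a).trans_le hu.le, (uu_self h6 hρ i b a).trans
      ((sy b a).trans_le hu.le)⟩⟩
  · exact ⟨b, h1, Or.inr (Or.inl ⟨(uu_self h6 hρ i b c).trans hu.le, hu.le⟩)⟩
  · exact ⟨c, h1, Or.inr (Or.inl ⟨(sy c b).trans_le hu.le, (uu_self h6 hρ i c b).trans
      ((sy c b).trans_le hu.le)⟩)⟩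
  · exact ⟨a, h1, Or.inr (Or.inr ⟨(uu_self h6 hρ i a c).trans hu.le, hu.le⟩)⟩
  · exact ⟨c, h1, Or.inr (Or.inr ⟨(sy c a).trans_le hu.le, (uu_self h6 hρ i c a).trans
      ((sy c a).trans_le hu.le)⟩)⟩

/-- CLAIM A. -/
theorem claimA (h4 : stB4) (h5 : stB5) (hT : TH M Y) (hP : Pr M Y π y0) {j k : I} (hjk : k ≠ j)
    {v : Co Y ρ} (hρ : 0 ≤ ρ)
    (h : 0 < hti j v ∨ 56 / 100 < M.d (π j (bt y0 v)) (π j (y0 k))) :
    hti k v = 0 ∧ M.d (π k (bt y0 v)) (π k (y0 j)) ≤ 56 / 100 := by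
  rcases h with h | h
  · obtain ⟨h1, h2⟩ := hti_pos hP.y0 h
    refine ⟨h2 k hjk, ?_⟩
    have := h4 X I M Y π y0 hT hP k j hjk _ h1 _ (hP.y0 j)
    linarith
  · constructor
    · by_contra h0
      have h1 : 0 < hti k v := lt_of_le_of_ne (hti_nonneg hρ k v) (Ne.symm h0)
      obtain ⟨h2, -⟩ := hti_pos hP.y0 h1
      have := h4 X I M Y π y0 hT hP j k hjk.symm _ h2 _ (hP.y0 k)
      linarith
    · rcases h5 X I M Y π y0 hT hP j k hjk.symm (bt y0 v) with h1 | h1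
      · exact absurd h1 (not_le.2 h)
      · exact h1

/-- Two points with the same gate in the cone `k`. -/
theorem uu_zero {j k : I} {v v' : Co Y ρ}
    (h : hti k v = 0 ∧ M.d (π k (bt y0 v)) (π k (y0 j)) ≤ 56 / 100)
    (h' : hti k v' = 0 ∧ M.d (π k (bt y0 v')) (π k (y0 j)) ≤ 56 / 100) :
    uu M π y0 k v v' ≤ 0 := by
  refine (min_le_right _ _).trans ?_
  rw [h.1, h'.1]
  refine max_le (max_le le_rfl le_rfl) ?_
  have h1 := M.tri (π k (bt y0 v)) (π k (y0 j)) (π k (bt y0 v'))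
  have h2 := M.symm (π k (y0 j)) (π k (bt y0 v'))
  refine Real.log_nonpos (div_nonneg (M.nonneg _ _) (by norm_num)) ?_
  rw [div_le_one (by norm_num)]
  linarith [h.2, h'.2]

theorem exp_two : Real.exp 2 ≤ 74 / 10 := by
  have h1 := Real.exp_one_lt_d9
  have h2 : Real.exp 2 = Real.exp 1 ^ 2 := by rw [← Real.exp_nat_mul]; norm_num
  have h3 := Real.exp_pos 1
  rw [h2]
  nlinarith

theorem exp_five : 100 ≤ Real.exp 5 := by
  have h1 := Real.exp_one_gt_d9
  have h2 : Real.exp 5 = Real.exp 1 ^ 5 := by rw [← Real.exp_nat_mul]; norm_num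
  rw [h2]
  calc (100 : ℝ) ≤ (27 / 10) ^ 5 := by norm_num
    _ ≤ Real.exp 1 ^ 5 := pow_le_pow_left₀ (by norm_num) (by linarith) 5

theorem exp_h : Real.exp (21 / 10) ≤ 9 := by
  have h1 := exp_two
  have h2 : Real.exp (21 / 10) = Real.exp 2 * Real.exp (1 / 10) := by
    rw [← Real.exp_add]; norm_num
  have h3 : Real.exp (1 / 10) ≤ 12 / 10 := by
    have := Real.exp_bound_div_one_sub_of_interval (x := 1 / 10) (by norm_num) (by norm_num)
    refine this.trans ?_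
    norm_num
  have h4 := Real.exp_pos (1 / 10)
  have h5 := Real.exp_pos 2
  rw [h2]
  nlinarith

/-- From `u ≤ 2`. -/
theorem of_le_two (hρ : 20 ≤ ρ) {j : I} {x z : Co Y ρ} (h : uu M π y0 j x z ≤ 2) :
    hti j x ≤ 2 ∧ hti j z ≤ 2 ∧ M.d (π j (bt y0 x)) (π j (bt y0 z)) ≤ 148 / 10 := by
  unfold uu at h
  have h1 : max (max (hti j x) (hti j z))
      (Real.log (M.d (π j (bt y0 x)) (π j (bt y0 z)) / 2)) ≤ 2 := by
    rcases min_le_iff.1 h with h | h
    · linarith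
    · exact h
  have h2 := (le_max_left _ _).trans h1
  refine ⟨(le_max_left _ _).trans h2, (le_max_right _ _).trans h2, ?_⟩
  have h3 := (le_max_right _ _).trans h1
  rcases (M.nonneg (π j (bt y0 x)) (π j (bt y0 z))).eq_or_lt with h4 | h4
  · rw [← h4]; norm_num
  · have h5 := (Real.log_le_iff_le_exp (by linarith)).1 h3
    have := exp_two
    linarith

/-- From `5 ≤ u`. -/
theorem of_five_le {j : I} {x y : Co Y ρ} (hx : hti j x ≤ 2) (h : 5 ≤ uu M π y0 j x y) :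
    0 < hti j y ∨ 200 ≤ M.d (π j (bt y0 x)) (π j (bt y0 y)) := by
  have h1 := h.trans (min_le_right _ _)
  rcases le_max_iff.1 h1 with h2 | h2
  · rcases le_max_iff.1 h2 with h3 | h3
    · linarith
    · left; linarith
  · right
    have h3 : 0 < M.d (π j (bt y0 x)) (π j (bt y0 y)) / 2 := by
      by_contra hn
      have h4 : M.d (π j (bt y0 x)) (π j (bt y0 y)) / 2 = 0 :=
        le_antisymm (not_lt.1 hn) (div_nonneg (M.nonneg _ _) (by norm_num))
      rw [h4, Real.log_zero] at h2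
      norm_num at h2
    have h5 := (Real.le_log_iff_exp_le h3).1 h2
    have := exp_five
    linarith

/-- A median of small height is close to a median of the bases. -/
theorem near_base (h6 : stA6) (h14 : stB14) (hY : ∀ i, (Y i).Nonempty) (hρ : 0 ≤ ρ)
    (hρ' : 20 ≤ ρ) (hT : TH M Y) (hP : Pr M Y π y0) {a b c w : Co Y ρ}
    (hm : Med M π y0 a b c w) (hs : ∀ i, hh M π y0 i a b c < 21 / 10) :
    ∃ o : X, M.gp (bt y0 a) (bt y0 b) o ≤ 1 / 20 ∧ M.gp (bt y0 b) (bt y0 c) o ≤ 1 / 20 ∧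
      M.gp (bt y0 a) (bt y0 c) o ≤ 1 / 20 ∧ (coPM M Y ρ hY hρ).d w (Co.base o) ≤ 24 := by
  rcases hm with ⟨i, h1, hmu⟩ | ⟨-, o, ho, h1, h2, h3⟩
  · obtain ⟨o, o1, o2, o3⟩ := h6 X M (1 / 100) (1 / 100) (1 / 100) (by norm_num) (by norm_num)
      (by norm_num) hT.sg hT.hyp (bt y0 a) (bt y0 b) (bt y0 c)
    norm_num at o1 o2 o3
    refine ⟨o, by linarith, by linarith, by linarith, ?_⟩
    have := h14 X I M Y ρ π y0 hY hρ hρ' hT hP i a b c w (21 / 10) o (by linarith) h1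
      (hs i).le hmu (by linarith) (by linarith) (by linarith)
    have h2 := exp_h
    linarith
  · refine ⟨o, h1, h2, h3, ?_⟩
    rw [ho, (coPM M Y ρ hY hρ).self]
    norm_num

/-- Comparison of the heights. -/
theorem hh_close (h6 : stB6) (hρ : 0 ≤ ρ) {k : I} {x z y p : Co Y ρ}
    (h : uu M π y0 k y p ≤ 0) : hh M π y0 k x z y ≤ hh M π y0 k x z p + 7 / 10 := by
  obtain ⟨-, p0, -, -, a1⟩ := h6 X I M Y ρ π y0 hρ k z p y
  obtain ⟨-, p1, -, -, a2⟩ := h6 X I M Y ρ π y0 hρ k x p y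
  obtain ⟨s1, -, -, -, -⟩ := h6 X I M Y ρ π y0 hρ k p y y
  rw [s1] at a1 a2
  have b1 : uu M π y0 k z y ≤ uu M π y0 k z p + 7 / 10 := by
    rw [max_eq_left (by linarith)] at a1
    exact a1
  have b2 : uu M π y0 k x y ≤ uu M π y0 k x p + 7 / 10 := by
    rw [max_eq_left (by linarith)] at a2
    exact a2
  unfold hh
  rw [← min_add_add_right, ← min_add_add_right]
  exact min_le_min (by linarith) (min_le_min b1 b2)

/-- The case of two medians in the same cone. -/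
theorem same_cone (h6 : stB6) (h13 : stB13) (hY : ∀ i, (Y i).Nonempty) (hρ : 0 ≤ ρ) {k : I}
    {x z y p w wp : Co Y ρ} (h : uu M π y0 k y p ≤ 0)
    (hw : IsMu M π y0 k x z y w) (hwp : IsMu M π y0 k x z p wp) :
    (coPM M Y ρ hY hρ).d w wp ≤ 200 := by
  have sy : ∀ s t : Co Y ρ, uu M π y0 k s t = uu M π y0 k t s := fun s t =>
    (h6 X I M Y ρ π y0 hρ k s t s).1
  have um : ∀ s t r : Co Y ρ, uu M π y0 k s r ≤
      max (uu M π y0 k s t) (uu M π y0 k t r) + 7 / 10 := fun s t r =>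
    (h6 X I M Y ρ π y0 hρ k s t r).2.2.2.2
  have u0 : ∀ s t : Co Y ρ, 0 ≤ uu M π y0 k s t := fun s t =>
    (h6 X I M Y ρ π y0 hρ k s t s).2.1
  have c1 := hh_close (x := x) (z := z) h6 hρ h
  have c2 := hh_close (x := x) (z := z) h6 hρ ((sy p y).trans_le h)
  obtain ⟨v, hv, hv'⟩ := mu_pts h6 hρ hw
  obtain ⟨q, hq, hq'⟩ := mu_pts h6 hρ hwp
  set A := hh M π y0 k x z y
  set B := hh M π y0 k x z p
  have key : uu M π y0 k v q ≤ A + 21 / 10 := by
    have t1 : ∀ c : Co Y ρ, uu M π y0 k v c ≤ A → uu M π y0 k q c ≤ B →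
        uu M π y0 k v q ≤ A + 21 / 10 := by
      intro c e1 e2
      refine (um v c q).trans ?_
      rw [sy c q]
      have : max (uu M π y0 k v c) (uu M π y0 k q c) ≤ A + 7 / 10 :=
        max_le (by linarith) (by linarith)
      linarith
    have t2 : uu M π y0 k v y ≤ A → uu M π y0 k q p ≤ B → uu M π y0 k v q ≤ A + 21 / 10 := by
      intro e1 e2
      have e3 : uu M π y0 k y q ≤ A + 14 / 10 := by
        refine (um y p q).trans ?_
        rw [sy p q]
        have := u0 q p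
        have : max (uu M π y0 k y p) (uu M π y0 k q p) ≤ A + 7 / 10 :=
          max_le (by linarith) (by linarith)
        linarith
      refine (um v y q).trans ?_
      have : max (uu M π y0 k v y) (uu M π y0 k y q) ≤ A + 14 / 10 :=
        max_le (by linarith) e3
      linarith
    rcases hv' with ⟨v1, v2⟩ | ⟨v1, v2⟩ | ⟨v1, v2⟩ <;>
      rcases hq' with ⟨q1, q2⟩ | ⟨q1, q2⟩ | ⟨q1, q2⟩
    · exact t1 x v1 q1
    · exact t1 z v2 q1
    · exact t1 x v1 q1
    · exact t1 z v1 q2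
    · exact t1 z v1 q1
    · exact t2 v2 q2
    · exact t1 x v1 q1
    · exact t2 v2 q2
    · exact t1 x v1 q1
  have h1 := h13 X I M Y ρ π y0 hY hρ k v q w wp A B (7 / 10) (21 / 10) (by norm_num)
    (by norm_num) hv hq (abs_le.2 ⟨by linarith, by linarith⟩) key
  have h2 := exp_h
  linarith

end B17

open B17 in
/-- B17. -/
theorem burn_B17 (a5 : stA5) (a6 : stA6) (a7 : stA7) (h2 : stB2) (h3 : stB3) (h4 : stB4)
    (h5 : stB5) (h6 : stB6) (h8 : stB8) (h11 : stB11) (h13 : stB13) (h14 : stB14) : stB17 := by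
  intro X I M Y ρ π y0 hY hρ hρ' hT hP j x z y w wp hxz hxy hw hwp
  set p : Co Y ρ := Co.base (π j (bt y0 x)) with hp
  have hbp : bt y0 p = π j (bt y0 x) := rfl
  have hpY : bt y0 p ∈ Y j := hP.mem j _
  obtain ⟨hx2, hz2, hd⟩ := of_le_two hρ' hxz
  have hfar := of_five_le hx2 hxy
  -- the two claims
  have hpk : ∀ k, k ≠ j → hti k p = 0 ∧ M.d (π k (bt y0 p)) (π k (y0 j)) ≤ 56 / 100 := by
    intro k hk
    refine ⟨rfl, ?_⟩
    have := h4 X I M Y π y0 hT hP k j hk _ hpY _ (hP.y0 j)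
    linarith
  have hAB : ∀ k, k ≠ j → uu M π y0 k y p ≤ 0 ∨ uu M π y0 k x z ≤ 0 := by
    intro k hk
    by_cases hc : 0 < hti j y ∨ 56 / 100 < M.d (π j (bt y0 y)) (π j (y0 k))
    · left
      exact uu_zero (claimA h4 h5 hT hP hk hρ hc) (hpk k hk)
    · right
      push Not at hc
      have hfar' : 200 ≤ M.d (π j (bt y0 x)) (π j (bt y0 y)) := by
        rcases hfar with h | h
        · exact absurd hc.1 (not_le.2 h)
        · exact h
      have t1 := M.tri (π j (bt y0 x)) (π j (y0 k)) (π j (bt y0 y))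
      have t2 := M.symm (π j (y0 k)) (π j (bt y0 y))
      have t3 := M.tri (π j (bt y0 x)) (π j (bt y0 z)) (π j (y0 k))
      refine uu_zero (claimA h4 h5 hT hP hk hρ (Or.inr ?_)) (claimA h4 h5 hT hP hk hρ (Or.inr ?_))
      · linarith [hc.2]
      · linarith [hc.2]
  by_cases hbig : (∃ k, 21 / 10 ≤ hh M π y0 k x z y) ∨ ∃ k, 21 / 10 ≤ hh M π y0 k x z p
  · obtain ⟨k, hk⟩ : ∃ k, 21 / 10 ≤ hh M π y0 k x z y ∨ 21 / 10 ≤ hh M π y0 k x z p := by
      rcases hbig with ⟨k, hk⟩ | ⟨k, hk⟩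
      · exact ⟨k, Or.inl hk⟩
      · exact ⟨k, Or.inr hk⟩
    have hxzk : 21 / 10 ≤ uu M π y0 k x z := by
      rcases hk with hk | hk
      · exact hk.trans (min_le_left _ _)
      · exact hk.trans (min_le_left _ _)
    have hkj : k ≠ j := by
      rintro rfl
      linarith
    have hyp : uu M π y0 k y p ≤ 0 := by
      rcases hAB k hkj with h | h
      · exact h
      · linarith
    have sy : uu M π y0 k p y ≤ 0 := ((h6 X I M Y ρ π y0 hρ k p y p).1).trans_le hyp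
    have c1 := hh_close (x := x) (z := z) h6 hρ hyp
    have c2 := hh_close (x := x) (z := z) h6 hρ sy
    have g1 : 1 ≤ hh M π y0 k x z y := by rcases hk with hk | hk <;> linarith
    have g2 : 1 ≤ hh M π y0 k x z p := by rcases hk with hk | hk <;> linarith
    have m1 : IsMu M π y0 k x z y w := by
      rcases hw with ⟨i, hi, hmu⟩ | ⟨hno, -⟩
      · rwa [h11 X I M Y ρ π y0 hρ' hT hP k i x z y g1 hi]
      · exact absurd g1 (not_le.2 (hno k))
    have m2 : IsMu M π y0 k x z p wp := by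
      rcases hwp with ⟨i, hi, hmu⟩ | ⟨hno, -⟩
      · rwa [h11 X I M Y ρ π y0 hρ' hT hP k i x z p g2 hi]
      · exact absurd g2 (not_le.2 (hno k))
    exact same_cone h6 h13 hY hρ hyp m1 m2
  · push Not at hbig
    obtain ⟨o, o1, o2, o3, o4⟩ := near_base a6 h14 hY hρ hρ' hT hP hw hbig.1
    obtain ⟨o', p1, p2, p3, p4⟩ := near_base a6 h14 hY hρ hρ' hT hP hwp hbig.2
    rw [hbp] at p2 p3
    -- the Gromov products at the gates
    have e1 : M.gp (bt y0 x) (bt y0 y) (π j (bt y0 x)) ≤ 9 / 100 := by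
      rcases hfar with h | h
      · have := h2 X I M Y π y0 hT hP j (bt y0 x) _ (hti_pos hP.y0 h).1
        linarith
      · exact (h3 X I M Y π y0 hT hP j (bt y0 x) (bt y0 y)).1 (by linarith)
    have e2 : M.gp (bt y0 z) (bt y0 y) (π j (bt y0 z)) ≤ 9 / 100 := by
      rcases hfar with h | h
      · have := h2 X I M Y π y0 hT hP j (bt y0 z) _ (hti_pos hP.y0 h).1
        linarith
      · have t1 := M.tri (π j (bt y0 x)) (π j (bt y0 z)) (π j (bt y0 y))
        exact (h3 X I M Y π y0 hT hP j (bt y0 z) (bt y0 y)).1 (by linarith)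
    have e3 : M.gp (bt y0 z) (bt y0 y) (π j (bt y0 x)) ≤ 149 / 10 := by
      have := (a5 X M (bt y0 z) (bt y0 y) (bt y0 y) (π j (bt y0 x)) (π j (bt y0 z))).2.2.2.2.2.1
      linarith
    have f1 : M.gp (bt y0 x) (bt y0 y) o' ≤ 15 := by
      have := (a5 X M (bt y0 x) (bt y0 y) (bt y0 y) (π j (bt y0 x)) o').2.2.2.2.2.2.2.2.2.1
      linarith
    have f2 : M.gp (bt y0 z) (bt y0 y) o' ≤ 15 := by
      have := (a5 X M (bt y0 z) (bt y0 y) (bt y0 y) (π j (bt y0 x)) o').2.2.2.2.2.2.2.2.2.1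
      linarith
    have f3 := a7 X M (1 / 100) (1 / 20) 15 hT.hyp (bt y0 x) (bt y0 z) (bt y0 y) o o' o1 o2 o3
      (by linarith) f2 f1
    have f4 := (h8 X I M Y ρ y0 hY hρ j).1 o o'
    have f5 := M.symm o o'
    have t1 := (coPM M Y ρ hY hρ).tri w (Co.base o) wp
    have t2 := (coPM M Y ρ hY hρ).tri (Co.base o) (Co.base o') wp
    have t3 := (coPM M Y ρ hY hρ).symm (Co.base o') wp
    linarith

end BSD
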