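import Pool.Agent.Lib.MP_8528c3_al.StD

/-!
# Burnside project, D5: the induction hypothesis `W(0)` of the windmill
-/

set_option autoImplicit false

namespace BSD

namespace D5

variable {G Z I : Type} [Group G] [MulAction G Z] [MulAction G I] {M : PM Z} {v : I → Z}
  {R : I → Subgroup G} {θ : I → Z → Z → ℝ} {ρ C δ : ℝ}

/-- The group `K_0` is trivial or contained in one rotation group. -/
theorem KN_zero (H : WS M v R θ ρ C δ) (x : Z) (k : G) (hk : k ∈ KN M v R ρ δ x 0)
    (hk1 : k ≠ 1) : ∃ i, k ∈ R i ∧ M.d x (v i) < ρ := by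
  by_cases hex : ∃ i, M.d x (v i) < ρ
  · obtain ⟨i, hi⟩ := hex
    refine ⟨i, ?_, hi⟩
    have hle : KN M v R ρ δ x 0 ≤ R i := by
      unfold KN
      rw [Subgroup.closure_le]
      rintro h ⟨j, hj, hd⟩
      rw [Nat.cast_zero, zero_mul, add_zero] at hd
      by_cases hij : j = i
      · rw [← hij]
        exact hj
      · exfalso
        have h1 := H.rf.r0 j i hij
        have h2 := M.tri (v j) x (v i)
        have h3 := M.symm (v j) x
        linarith
    exact hle hk
  · exfalso
    apply hk1
    have hle : KN M v R ρ δ x 0 ≤ ⊥ := by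
      unfold KN
      rw [Subgroup.closure_le]
      rintro h ⟨j, _, hd⟩
      rw [Nat.cast_zero, zero_mul, add_zero] at hd
      exact absurd ⟨j, hd⟩ hex
    exact (Subgroup.mem_bot).1 (hle hk)

end D5

/-- **D5**: `W(0)`. -/
theorem burn_D5 : stD5 := by
  intro G Z I _ _ _ M v R θ ρ C δ H x
  refine ⟨?_, fun k hk hk1 => D5.KN_zero H x k hk hk1⟩
  intro k hk i' s hs hV
  have hδ := H.hδ
  have hx := hV 1 (Subgroup.one_mem _)
  have hkx := hV k hk
  rw [Nat.cast_zero, zero_mul, add_zero] at hx hkx
  rw [one_smul] at hx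
  by_cases hk1 : k = 1
  · subst hk1
    rw [one_smul]
    have h1 := M.self x
    unfold PM.gp
    linarith
  · obtain ⟨i, hki, hd⟩ := D5.KN_zero H x k hk hk1
    have hne : i ≠ i' := by
      rintro rfl
      linarith
    have h0 := H.rf.r0 i i' hne
    have hfix : k • v i = v i := by
      rw [← H.rf.vg, H.rf.fix i k hki]
    have hD : M.d (v i) (k • x) = M.d x (v i) := by
      have h1 := H.rf.iso k (v i) x
      rw [hfix] at h1
      rw [h1, M.symm]
    have h4 := H.rf.r4 i k hki hk1 x
    have h1 := H.rf.r1 i x (v i') (k • x)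
    have ht := M.tri x (v i) (k • x)
    have hs1 := M.symm (v i') (v i)
    have hs2 := M.symm (v i') (k • x)
    by_cases hA : 1 ≤ θ i x (v i')
    · have h2 := H.rf.r2 i x (v i') hA
      unfold PM.gp
      linarith
    · have hB : 1 ≤ θ i (v i') (k • x) := by
        push Not at hA
        linarith
      have h2 := H.rf.r2 i (v i') (k • x) hB
      unfold PM.gp
      linarith

end BSD
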