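import Mathlib

/-!
# Burnside project: pseudo-metric spaces, hyperbolicity, cone-off
-/

namespace BSD

/-- A pseudo-metric as a bare function. -/
structure PM (X : Type) where
  d : X → X → ℝ
  self : ∀ x, d x x = 0
  symm : ∀ x y, d x y = d y x
  tri : ∀ x y z, d x z ≤ d x y + d y z

namespace PM

variable {X : Type} (M : PM X)

theorem nonneg (x y : X) : 0 ≤ M.d x y := by
  have h1 := M.tri x y x
  have h2 := M.symm x y
  have h3 := M.self x
  linarith

/-- Gromov product `(x|y)_w`. -/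
noncomputable def gp (x y w : X) : ℝ := (M.d x w + M.d y w - M.d x y) / 2

/-- Hyperbolicity. -/
def Hyp (δ : ℝ) : Prop := ∀ x y z w, min (M.gp x y w) (M.gp y z w) - δ ≤ M.gp x z w

/-- Almost geodesic with steps at most `σ`. -/
def SG (σ : ℝ) : Prop := ∀ x y, ∀ η : ℝ, 0 < η → ∃ (n : ℕ) (z : ℕ → X), z 0 = x ∧ z n = y ∧
  (∀ i < n, M.d (z i) (z (i + 1)) ≤ σ) ∧
  ∑ i ∈ Finset.range n, M.d (z i) (z (i + 1)) ≤ M.d x y + η

/-- `Y` is `ε`-quasi-convex. -/
def QC (Y : Set X) (ε : ℝ) : Prop := ∀ y ∈ Y, ∀ y' ∈ Y, ∀ x, ∃ z ∈ Y, M.d x z ≤ M.gp y y' x + ε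

/-- `x` is at distance at most `r` from `Y` (attained). -/
def Near (Y : Set X) (r : ℝ) (x : X) : Prop := ∃ y ∈ Y, M.d x y ≤ r

end PM

/-! ## Cone-off -/

/-- Points of the cone-off of `X` along the sets `Y i`, cones of height `ρ`. -/
inductive Co {X I : Type} (Y : I → Set X) (ρ : ℝ) : Type
  | base (x : X) : Co Y ρ
  | cone (i : I) (y : X) (hy : y ∈ Y i) (s : ℝ) (h0 : 0 ≤ s) (h1 : s ≤ ρ) : Co Y ρ
  | apex (i : I) : Co Y ρ

/-- Elementary moves of the cone-off with their costs. -/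
inductive Mv {X I : Type} (M : PM X) (Y : I → Set X) (ρ : ℝ) : Co Y ρ → Co Y ρ → ℝ → Prop
  | base (x x' : X) : Mv M Y ρ (Co.base x) (Co.base x') (M.d x x')
  | up (i : I) (y : X) (hy : y ∈ Y i) (h : (0:ℝ) ≤ ρ) :
      Mv M Y ρ (Co.base y) (Co.cone i y hy 0 le_rfl h) 0
  | dn (i : I) (y : X) (hy : y ∈ Y i) (h : (0:ℝ) ≤ ρ) :
      Mv M Y ρ (Co.cone i y hy 0 le_rfl h) (Co.base y) 0
  | vert (i : I) (y : X) (hy : y ∈ Y i) (s s' : ℝ) (h0 : 0 ≤ s) (h1 : s ≤ ρ)
      (h0' : 0 ≤ s') (h1' : s' ≤ ρ) :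
      Mv M Y ρ (Co.cone i y hy s h0 h1) (Co.cone i y hy s' h0' h1') |s - s'|
  | hor (i : I) (y y' : X) (hy : y ∈ Y i) (hy' : y' ∈ Y i) (s : ℝ) (h0 : 0 ≤ s) (h1 : s ≤ ρ) :
      Mv M Y ρ (Co.cone i y hy s h0 h1) (Co.cone i y' hy' s h0 h1) (M.d y y' * Real.exp (-s))
  | top (i : I) (y : X) (hy : y ∈ Y i) (h : (0:ℝ) ≤ ρ) :
      Mv M Y ρ (Co.cone i y hy ρ h le_rfl) (Co.apex i) 0
  | topr (i : I) (y : X) (hy : y ∈ Y i) (h : (0:ℝ) ≤ ρ) :
      Mv M Y ρ (Co.apex i) (Co.cone i y hy ρ h le_rfl) 0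

/-- Paths: sequences of moves with total cost. -/
inductive Pth {X I : Type} (M : PM X) (Y : I → Set X) (ρ : ℝ) : Co Y ρ → Co Y ρ → ℝ → Prop
  | nil (p : Co Y ρ) : Pth M Y ρ p p 0
  | snoc (p q r : Co Y ρ) (a c : ℝ) (h : Pth M Y ρ p q a) (hm : Mv M Y ρ q r c) :
      Pth M Y ρ p r (a + c)

namespace Co

variable {X I : Type} {M : PM X} {Y : I → Set X} {ρ : ℝ}

theorem mv_nonneg {p q : Co Y ρ} {c : ℝ} (h : Mv M Y ρ p q c) : 0 ≤ c := by
  cases h with
  | base x x' => exact M.nonneg _ _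
  | up => exact le_rfl
  | dn => exact le_rfl
  | vert => exact abs_nonneg _
  | hor i y y' hy hy' s h0 h1 => exact mul_nonneg (M.nonneg _ _) (Real.exp_pos _).le
  | top => exact le_rfl
  | topr => exact le_rfl

theorem mv_symm {p q : Co Y ρ} {c : ℝ} (h : Mv M Y ρ p q c) : Mv M Y ρ q p c := by
  cases h with
  | base x x' => rw [M.symm]; exact Mv.base _ _
  | up i y hy h => exact Mv.dn i y hy h
  | dn i y hy h => exact Mv.up i y hy h
  | vert i y hy s s' h0 h1 h0' h1' => rw [abs_sub_comm]; exact Mv.vert i y hy s' s h0' h1' h0 h1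
  | hor i y y' hy hy' s h0 h1 => rw [M.symm]; exact Mv.hor i y' y hy' hy s h0 h1
  | top i y hy h => exact Mv.topr i y hy h
  | topr i y hy h => exact Mv.top i y hy h

theorem pth_nonneg {p q : Co Y ρ} {a : ℝ} (h : Pth M Y ρ p q a) : 0 ≤ a := by
  induction h with
  | nil => exact le_rfl
  | snoc q r a c _ hm ih => have := mv_nonneg hm; linarith

theorem pth_trans {p q r : Co Y ρ} {a b : ℝ} (h : Pth M Y ρ p q a) (h' : Pth M Y ρ q r b) :
    Pth M Y ρ p r (a + b) := by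
  induction h' with
  | nil => simpa using h
  | snoc q' r b c _ hm ih =>
    have := Pth.snoc p q' r (a + b) c ih hm
    rwa [add_assoc] at this

theorem pth_one {p q : Co Y ρ} {c : ℝ} (h : Mv M Y ρ p q c) : Pth M Y ρ p q c := by
  have := Pth.snoc p p q 0 c (Pth.nil p) h
  simpa using this

theorem pth_symm {p q : Co Y ρ} {a : ℝ} (h : Pth M Y ρ p q a) : Pth M Y ρ q p a := by
  induction h with
  | nil => exact Pth.nil _
  | snoc q r a c _ hm ih =>
    have := pth_trans (pth_one (mv_symm hm)) ih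
    rwa [add_comm] at this

/-- Every point is joined to some base point. -/
theorem pth_base (hY : ∀ i, (Y i).Nonempty) (hρ : 0 ≤ ρ) (p : Co Y ρ) :
    ∃ (x : X) (a : ℝ), Pth M Y ρ p (Co.base x) a := by
  cases p with
  | base x => exact ⟨x, 0, Pth.nil _⟩
  | cone i y hy s h0 h1 =>
    exact ⟨y, |s - 0| + 0, pth_trans (pth_one (Mv.vert i y hy s 0 h0 h1 le_rfl hρ))
      (pth_one (Mv.dn i y hy hρ))⟩
  | apex i =>
    obtain ⟨y, hy⟩ := hY i
    exact ⟨y, 0 + (|ρ - 0| + 0), pth_trans (pth_one (Mv.topr i y hy hρ))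
      (pth_trans (pth_one (Mv.vert i y hy ρ 0 hρ le_rfl le_rfl hρ))
      (pth_one (Mv.dn i y hy hρ)))⟩

theorem pth_exists (hY : ∀ i, (Y i).Nonempty) (hρ : 0 ≤ ρ) (p q : Co Y ρ) :
    ∃ a : ℝ, Pth M Y ρ p q a := by
  obtain ⟨x, a, ha⟩ := pth_base (M := M) hY hρ p
  obtain ⟨y, b, hb⟩ := pth_base (M := M) hY hρ q
  exact ⟨a + (M.d x y + b), pth_trans ha (pth_trans (pth_one (Mv.base x y)) (pth_symm hb))⟩

end Co

/-- The cone-off pseudo-metric. -/
noncomputable def coD {X I : Type} (M : PM X) (Y : I → Set X) (ρ : ℝ) (p q : Co Y ρ) : ℝ :=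
  sInf {a | Pth M Y ρ p q a}

theorem coD_le {X I : Type} {M : PM X} {Y : I → Set X} {ρ : ℝ} {p q : Co Y ρ} {a : ℝ}
    (h : Pth M Y ρ p q a) : coD M Y ρ p q ≤ a :=
  csInf_le ⟨0, fun _ hb => Co.pth_nonneg hb⟩ h

theorem coD_approx {X I : Type} {M : PM X} {Y : I → Set X} {ρ : ℝ}
    (hY : ∀ i, (Y i).Nonempty) (hρ : 0 ≤ ρ) (p q : Co Y ρ) {η : ℝ} (hη : 0 < η) :
    ∃ a, Pth M Y ρ p q a ∧ a < coD M Y ρ p q + η := by
  obtain ⟨a, ha, h⟩ := exists_lt_of_csInf_lt (Co.pth_exists (M := M) hY hρ p q)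
    (lt_add_of_pos_right (coD M Y ρ p q) hη)
  exact ⟨a, ha, h⟩

/-- To bound `coD` from below it suffices to bound every path. -/
theorem le_coD {X I : Type} {M : PM X} {Y : I → Set X} {ρ : ℝ}
    (hY : ∀ i, (Y i).Nonempty) (hρ : 0 ≤ ρ) {p q : Co Y ρ} {c : ℝ}
    (h : ∀ a, Pth M Y ρ p q a → c ≤ a) : c ≤ coD M Y ρ p q :=
  le_csInf (Co.pth_exists (M := M) hY hρ p q) h

/-- Potential principle: a function that changes by at most the cost of every move bounds `coD`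
from below. -/
theorem coD_potential {X I : Type} {M : PM X} {Y : I → Set X} {ρ : ℝ}
    (hY : ∀ i, (Y i).Nonempty) (hρ : 0 ≤ ρ) (f : Co Y ρ → ℝ)
    (hf : ∀ p q c, Mv M Y ρ p q c → f q - f p ≤ c) (p q : Co Y ρ) :
    f q - f p ≤ coD M Y ρ p q := by
  refine le_coD hY hρ fun a ha => ?_
  induction ha with
  | nil => simp
  | snoc q r a c _ hm ih => have := hf _ _ _ hm; linarith

/-- The cone-off as a pseudo-metric space. -/
noncomputable def coPM {X I : Type} (M : PM X) (Y : I → Set X) (ρ : ℝ)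
    (hY : ∀ i, (Y i).Nonempty) (hρ : 0 ≤ ρ) : PM (Co Y ρ) where
  d := coD M Y ρ
  self p := le_antisymm (coD_le (Pth.nil p)) (le_coD hY hρ fun _ h => Co.pth_nonneg h)
  symm p q := by
    unfold coD
    congr 1
    ext a
    exact ⟨Co.pth_symm, Co.pth_symm⟩
  tri p q r := by
    refine le_of_forall_pos_le_add fun η hη => ?_
    obtain ⟨a, ha, h1⟩ := coD_approx (M := M) hY hρ p q (half_pos hη)
    obtain ⟨b, hb, h2⟩ := coD_approx (M := M) hY hρ q r (half_pos hη)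
    have := coD_le (Co.pth_trans ha hb)
    linarith

/-- Base point of a point of the cone-off (a chosen point of `Y i` for an apex). -/
noncomputable def bt {X I : Type} {Y : I → Set X} {ρ : ℝ} (y0 : I → X) : Co Y ρ → X
  | Co.base x => x
  | Co.cone _ y _ _ _ _ => y
  | Co.apex i => y0 i

/-- Height of a point of the cone-off. -/
def ht {X I : Type} {Y : I → Set X} {ρ : ℝ} : Co Y ρ → ℝ
  | Co.base _ => 0
  | Co.cone _ _ _ s _ _ => s
  | Co.apex _ => ρ

open Classical in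
/-- Height of a point with respect to the cone `i` (`0` outside that cone). -/
noncomputable def hti {X I : Type} {Y : I → Set X} {ρ : ℝ} (i : I) : Co Y ρ → ℝ
  | Co.base _ => 0
  | Co.cone j _ _ s _ _ => if j = i then s else 0
  | Co.apex j => if j = i then ρ else 0

end BSD
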