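import Pool.Agent.Lib.MP_8528c3_al.StE

/-!
# Burnside project, E10d: commensurating elements
-/

namespace BSD

namespace E10d

variable {G X : Type} [Group G] [MulAction G X] {M : PM X}

theorem d_neg (hI : Iso G M) (g : G) (x : X) : M.d x (g⁻¹ • x) = M.d x (g • x) := by
  rw [← hI g x (g⁻¹ • x), smul_smul, mul_inv_cancel, one_smul, M.symm]

theorem low (hI : Iso G M) {h : G} {c : ℝ} (hc : ∀ (x : X) (m : ℕ), c * m ≤ M.d x (h ^ m • x))
    (x : X) (k : ℤ) : c * |(k : ℝ)| ≤ M.d x (h ^ k • x) := by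
  obtain ⟨m, rfl | rfl⟩ := k.eq_nat_or_neg
  · rw [zpow_natCast, Int.cast_natCast, Nat.abs_cast]
    exact hc x m
  · rw [zpow_neg, zpow_natCast, d_neg hI, Int.cast_neg, abs_neg, Int.cast_natCast, Nat.abs_cast]
    exact hc x m

theorem up_nat (hI : Iso G M) (h : G) (x : X) (m : ℕ) :
    M.d x (h ^ m • x) ≤ m * M.d x (h • x) := by
  induction m with
  | zero => simp [M.self]
  | succ m ih =>
    have h1 := M.tri x (h ^ m • x) (h ^ (m + 1) • x)
    have h2 : M.d (h ^ m • x) (h ^ (m + 1) • x) = M.d x (h • x) := by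
      rw [pow_succ, mul_smul, hI]
    rw [h2] at h1
    push_cast
    linarith

theorem up (hI : Iso G M) (h : G) (x : X) (k : ℤ) :
    M.d x (h ^ k • x) ≤ |(k : ℝ)| * M.d x (h • x) := by
  obtain ⟨m, rfl | rfl⟩ := k.eq_nat_or_neg
  · rw [zpow_natCast, Int.cast_natCast, Nat.abs_cast]
    exact up_nat hI h x m
  · rw [zpow_neg, zpow_natCast, d_neg hI, Int.cast_neg, abs_neg, Int.cast_natCast, Nat.abs_cast]
    exact up_nat hI h x m

/-- loxodromic elements have infinite order -/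
theorem inf_order [Nonempty X] (hI : Iso G M) {h : G} (hh : Lox M h) {k : ℤ} (hk : h ^ k = 1) :
    k = 0 := by
  obtain ⟨c, hc, hc'⟩ := hh
  obtain ⟨x⟩ := ‹Nonempty X›
  have h1 := low hI hc' x k
  rw [hk, one_smul, M.self] at h1
  have h2 : |(k : ℝ)| ≤ 0 := by
    by_contra h3
    push Not at h3
    nlinarith
  have h3 : (k : ℝ) = 0 := abs_nonpos_iff.1 h2
  exact_mod_cast h3

theorem conj_zpow' (f h : G) (a b : ℤ) (hab : f * h ^ a * f⁻¹ = h ^ b) (k : ℤ) :
    f * h ^ (a * k) * f⁻¹ = h ^ (b * k) := by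
  rw [zpow_mul, zpow_mul, ← hab, conj_zpow]

theorem conj_iter (f h : G) (a b : ℤ) (hab : f * h ^ a * f⁻¹ = h ^ b) (j : ℕ) :
    f ^ j * h ^ (a ^ j) * (f ^ j)⁻¹ = h ^ (b ^ j) := by
  induction j with
  | zero => simp
  | succ j ih =>
    have h1 : f ^ (j + 1) * h ^ (a ^ (j + 1)) * (f ^ (j + 1))⁻¹ =
        f * (f ^ j * h ^ (a ^ (j + 1)) * (f ^ j)⁻¹) * f⁻¹ := by
      rw [pow_succ' f j]
      group
    have h2 : f ^ j * h ^ (a ^ (j + 1)) * (f ^ j)⁻¹ = h ^ (a * b ^ j) := by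
      rw [pow_succ a j, zpow_mul, ← conj_zpow, ih, ← zpow_mul, mul_comm]
    rw [h1, h2, conj_zpow' f h a b hab]
    congr 1
    ring

/-- the exponents have the same absolute value -/
theorem abs_le [Nonempty X] (hI : Iso G M) {f h : G} {a b : ℤ} (hh : Lox M h) (hb : b ≠ 0)
    (hab : f * h ^ a * f⁻¹ = h ^ b) : |a| ≤ |b| := by
  by_contra hlt
  push Not at hlt
  obtain ⟨c, hc, hc'⟩ := hh
  obtain ⟨x⟩ := ‹Nonempty X›
  have key : ∀ j : ℕ, c * |(a : ℝ)| ^ j ≤ |(b : ℝ)| ^ j * M.d x (h • x) := by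
    intro j
    have h1 := low hI hc' ((f ^ j)⁻¹ • x) (a ^ j)
    have h2 : M.d ((f ^ j)⁻¹ • x) (h ^ (a ^ j) • (f ^ j)⁻¹ • x) = M.d x (h ^ (b ^ j) • x) := by
      rw [← hI (f ^ j), smul_smul, smul_smul, smul_smul, mul_inv_cancel, one_smul,
        conj_iter f h a b hab]
    rw [h2] at h1
    have h3 := up hI h x (b ^ j)
    rw [Int.cast_pow, abs_pow] at h1 h3
    exact h1.trans h3
  have hb0 : 0 < |(b : ℝ)| := abs_pos.2 (by exact_mod_cast hb)
  have hlt' : |(b : ℝ)| < |(a : ℝ)| := by exact_mod_cast hlt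
  have hr : 1 < |(a : ℝ)| / |(b : ℝ)| := (one_lt_div hb0).2 hlt'
  obtain ⟨j, hj⟩ := pow_unbounded_of_one_lt (M.d x (h • x) / c) hr
  have h1 := key j
  rw [div_pow, div_lt_div_iff₀ hc (pow_pos hb0 j)] at hj
  linarith [mul_comm (M.d x (h • x)) (|(b : ℝ)| ^ j), mul_comm c (|(a : ℝ)| ^ j)]

end E10d

open E10d in
theorem burn_E10d (h10c : stE10c) : stE10d := by
  intro G X _ _ M n δ L' A0 kl hS hδ hL hA hkl hn f h a b hh ha hb hab
  have := hS.ne
  have hI := hS.iso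
  have hinv : f⁻¹ * h ^ b * f⁻¹⁻¹ = h ^ a := by
    rw [← hab, inv_inv]
    group
  have habs : |a| = |b| := le_antisymm (abs_le hI hh hb hab) (abs_le hI hh ha hinv)
  -- an element commuting with `h ^ a` is in `Cen h`
  have hcen : ∀ g : G, Commute g (h ^ a) → g ∈ Cen h := by
    intro g hg
    refine ⟨a.natAbs, Int.natAbs_pos.2 ha, ?_⟩
    rcases Int.natAbs_eq a with h1 | h1
    · rw [h1, zpow_natCast] at hg
      exact hg
    · rw [h1, zpow_neg, zpow_natCast] at hg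
      exact (Commute.inv_right_iff).1 hg
  rcases abs_eq_abs.1 habs with h1 | h1
  · apply hcen
    rw [← h1] at hab
    exact mul_inv_eq_iff_eq_mul.1 hab
  · have hb' : b = -a := by omega
    rw [hb', zpow_neg] at hab
    have hH : f * (h ^ a)⁻¹ * f⁻¹ = h ^ a := by
      rw [← conj_inv, hab, inv_inv]
    have h2 : Commute (f ^ 2) (h ^ a) := by
      have h3 : f ^ 2 * h ^ a * (f ^ 2)⁻¹ = f * (f * h ^ a * f⁻¹) * f⁻¹ := by
        rw [sq]
        group
      rw [hab, hH] at h3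
      exact mul_inv_eq_iff_eq_mul.1 h3
    obtain ⟨e, he, hec⟩ := h10c G X M n δ L' A0 kl hS hδ hL hA hkl h hh
    obtain ⟨s, hs⟩ := (hec (f ^ 2)).1 (hcen _ h2)
    obtain ⟨t, ht⟩ := (hec (h ^ a)).1 (hcen _ (Commute.refl _))
    have h3 : Commute f ((h ^ a) ^ s) := by
      have h4 : (h ^ a) ^ s = (f ^ 2) ^ t := by
        rw [ht, hs, ← zpow_mul, ← zpow_mul, mul_comm]
      rw [h4]
      exact ((Commute.refl f).pow_right 2).zpow_right t
    have h5 : f * (h ^ a) ^ s * f⁻¹ = ((h ^ a) ^ s)⁻¹ := by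
      rw [← conj_zpow, hab, inv_zpow]
    rw [h3.eq, mul_inv_cancel_right] at h5
    have h6 : h ^ (a * s + a * s) = 1 := by
      rw [zpow_add, zpow_mul]
      nth_rw 2 [h5]
      exact mul_inv_cancel _
    have h7 := inf_order hI hh h6
    have h8 : s = 0 := by
      have h9 : a * s = 0 := by omega
      exact (mul_eq_zero.1 h9).resolve_left ha
    rw [h8, zpow_zero] at hs
    have h9 : ¬ Lox M f := by
      intro h10
      have h11 := inf_order hI h10 (k := 2) (by exact_mod_cast hs)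
      omega
    have h10 : f ^ n = 1 := (hS.h2 f).resolve_left h9
    obtain ⟨k, hk⟩ := hn
    have h11 : f = 1 := by
      rw [hk, pow_succ, pow_mul, hs, one_pow, one_mul] at h10
      exact h10
    rw [h11]
    exact ⟨1, le_rfl, Commute.one_left _⟩

end BSD
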