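import Pool.Agent.Lib.MP_8528c3_al.StE

/-!
# Burnside project, E8: axis of an element with large displacement
-/

namespace BSD

namespace E8

variable {G X : Type} [Group G] [MulAction G X]

theorem gp_smul (M : PM X) (hiso : Iso G M) (g : G) (x y w : X) :
    M.gp (g • x) (g • y) (g • w) = M.gp x y w := by
  unfold PM.gp
  rw [hiso, hiso, hiso]

/-- The local estimate at the point `g z`. -/
theorem local_gp (h4 : stA4) (M : PM X) (δ l : ℝ) (hiso : Iso G M) (hyp : M.Hyp δ)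
    (hsg : M.SG 2) (hδ : 1 ≤ δ) (hl : 100 * δ + 100 ≤ l) (g : G) (z : X)
    (hd : ∀ x : X, l ≤ M.d x (g • x)) (hz : M.d z (g • z) ≤ l + 1) :
    M.gp z (g • (g • z)) (g • z) ≤ 2 * δ + 1 := by
  have hD := hd z
  obtain ⟨m, hm1, hm2⟩ := h4 X M 2 (by norm_num) hsg z (g • z) (M.d z (g • z) / 2) (1 / 2)
    (by linarith) (by linarith) (by norm_num)
  rw [abs_le] at hm2
  have hm := hd m
  have e1 : M.d (g • m) (g • z) = M.d m z := hiso g m z
  have e2 : M.d (g • m) (g • (g • z)) = M.d m (g • z) := hiso g m (g • z)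
  have e3 : M.d (g • z) (g • (g • z)) = M.d z (g • z) := hiso g z (g • z)
  have s1 := M.symm m z
  have s2 := M.symm m (g • z)
  have s3 := M.symm (g • z) (g • (g • z))
  have s4 := M.symm (g • m) (g • (g • z))
  have s5 := M.symm (g • z) m
  have t1 := M.tri z m (g • z)
  have a1 := hyp m z (g • (g • z)) (g • z)
  have a2 := hyp m (g • (g • z)) (g • m) (g • z)
  unfold PM.gp at *
  rcases min_le_iff.1 (le_of_sub_nonneg (sub_nonneg.2 (sub_le_iff_le_add.1 a2))) with b2 | b2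
  · rcases min_le_iff.1 (le_of_sub_nonneg (sub_nonneg.2 (sub_le_iff_le_add.1 a1))) with b1 | b1
    · linarith
    · linarith
  · linarith

/-- The chain lemma along the orbit. -/
theorem chain (h0 : stE0) (h4 : stA4) (M : PM X) (δ l : ℝ) (hiso : Iso G M) (hyp : M.Hyp δ)
    (hsg : M.SG 2) (hδ : 1 ≤ δ) (hl : 100 * δ + 100 ≤ l) (g : G) (z : X)
    (hd : ∀ x : X, l ≤ M.d x (g • x)) (hz : M.d z (g • z) ≤ l + 1) (a : ℤ) (m : ℕ) :
    (∀ k : ℕ, 1 ≤ k → k ≤ m →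
      M.gp (g ^ a • z) (g ^ (a + ((m + 1 : ℕ) : ℤ)) • z) (g ^ (a + (k : ℤ)) • z) ≤ 4 * δ + 1) ∧
    (l - 8 * δ - 6) * ((m + 1 : ℕ) : ℝ) ≤ M.d (g ^ a • z) (g ^ (a + ((m + 1 : ℕ) : ℤ)) • z) := by
  have hloc := local_gp h4 M δ l hiso hyp hsg hδ hl g z hd hz
  have hstep : ∀ k : ℕ, l ≤ M.d (g ^ (a + (k : ℤ)) • z) (g ^ (a + ((k + 1 : ℕ) : ℤ)) • z) := by
    intro k
    have e : g ^ (a + ((k + 1 : ℕ) : ℤ)) • z = g ^ (a + (k : ℤ)) • (g • z) := by
      rw [← mul_smul, ← zpow_add_one]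
      congr 2
      push_cast
      ring
    rw [e, hiso]
    exact hd z
  have hgp : ∀ k : ℕ, 1 ≤ k → M.gp (g ^ (a + ((k - 1 : ℕ) : ℤ)) • z)
      (g ^ (a + ((k + 1 : ℕ) : ℤ)) • z) (g ^ (a + (k : ℤ)) • z) ≤ 2 * δ + 1 := by
    intro k hk
    obtain ⟨j, rfl⟩ := Nat.exists_eq_add_of_le' hk
    have e1 : g ^ (a + ((j + 1 : ℕ) : ℤ)) • z = g ^ (a + (j : ℤ)) • (g • z) := by
      rw [← mul_smul, ← zpow_add_one]
      congr 2
      push_cast
      ring
    have e2 : g ^ (a + ((j + 1 + 1 : ℕ) : ℤ)) • z = g ^ (a + (j : ℤ)) • (g • (g • z)) := by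
      rw [← mul_smul, ← mul_smul, ← zpow_add_one, ← zpow_add_one]
      congr 2
      push_cast
      ring
    have e3 : j + 1 - 1 = j := rfl
    rw [e3, e1, e2, gp_smul M hiso]
    exact hloc
  obtain ⟨h1, h2⟩ := h0 X M δ (2 * δ + 1) l hyp (by linarith) (by linarith) m
    (fun k => g ^ (a + (k : ℤ)) • z) (fun k hk _ => hgp k hk) (fun k _ _ => hstep k)
  have e0 : g ^ (a + ((0 : ℕ) : ℤ)) • z = g ^ a • z := by
    rw [Nat.cast_zero, add_zero]
  simp only [e0] at h1 h2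
  refine ⟨fun k hk hk' => le_trans (h1 k hk hk') (by linarith), ?_⟩
  have h3 : ∑ _i ∈ Finset.range (m + 1), l ≤ ∑ k ∈ Finset.range (m + 1),
      M.d (g ^ (a + (k : ℤ)) • z) (g ^ (a + ((k + 1 : ℕ) : ℤ)) • z) :=
    Finset.sum_le_sum fun k _ => hstep k
  rw [Finset.sum_const, Finset.card_range, nsmul_eq_mul] at h3
  push_cast at h3 h2 ⊢
  have hm : (0 : ℝ) ≤ m := Nat.cast_nonneg m
  nlinarith [h3, h2, hm]

end E8

theorem burn_E8 (h4 : stA4) (h0 : stE0) (h5b : stE5b) : stE8 := by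
  intro G X _ _ M δ l hiso hyp hsg hδ hl g z hd hz
  refine ⟨?_, ?_⟩
  · intro a b c hab hbc
    obtain ⟨k, hk⟩ : ∃ k : ℕ, b = a + (k : ℤ) := ⟨(b - a).toNat, by omega⟩
    obtain ⟨m, hm⟩ : ∃ m : ℕ, c = a + ((m + 1 : ℕ) : ℤ) := ⟨(c - a - 1).toNat, by omega⟩
    subst hk hm
    have h := (E8.chain h0 h4 M δ l hiso hyp hsg hδ hl g z hd hz a m).1 k (by omega) (by omega)
    linarith
  · refine h5b G X M (l - 8 * δ - 6) 0 hiso g z ?_
    intro m
    rcases Nat.eq_zero_or_pos m with h | h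
    · subst h
      have := M.nonneg z (g ^ 0 • z)
      simpa using this
    · obtain ⟨j, rfl⟩ := Nat.exists_eq_add_of_le' h
      have h1 := (E8.chain h0 h4 M δ l hiso hyp hsg hδ hl g z hd hz 0 j).2
      rw [zpow_zero, one_smul, zero_add, zpow_natCast] at h1
      linarith

end BSD
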