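import Pool.Agent.Lib.MP_8528c3_al.StA

/-!
# Burnside project: group actions by isometries, loxodromic elements, stages (definitions)
-/

namespace BSD

/-- The group acts by isometries. -/
def Iso (G : Type) {X : Type} [Group G] [MulAction G X] (M : PM X) : Prop :=
  ∀ (g : G) (x y : X), M.d (g • x) (g • y) = M.d x y

/-- Loxodromic elements. -/
def Lox {G X : Type} [Group G] [MulAction G X] (M : PM X) (g : G) : Prop :=
  ∃ c : ℝ, 0 < c ∧ ∀ (x : X) (m : ℕ), c * m ≤ M.d x (g ^ m • x)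

/-- The displacement of `f` at `x` and at `y` is at most `B`. -/
def Dp {G X : Type} [Group G] [MulAction G X] (M : PM X) (f : G) (B : ℝ) (x y : X) : Prop :=
  M.d x (f • x) ≤ B ∧ M.d y (f • y) ≤ B

/-- The point `z` is close to the segment `[x,y]` and far from its ends. -/
structure Deep {X : Type} (M : PM X) (δ B r : ℝ) (x y z : X) : Prop where
  gp : M.gp x y z ≤ r
  dx : 10 * B + 10 * r + 20 * δ + 1 ≤ M.d x z
  dy : 10 * B + 10 * r + 20 * δ + 1 ≤ M.d y z

/-- The translation of `f` along a segment starting at `x`, measured at `z`. -/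
def Tr {G X : Type} [Group G] [MulAction G X] (M : PM X) (x z : X) (f : G) : ℝ :=
  M.d x (f • z) - M.d x z

/-- The elements which commute with a power of `h`. -/
def Cen {G : Type} [Group G] (h : G) : Set G := {f | ∃ m : ℕ, 1 ≤ m ∧ Commute f (h ^ m)}

/-- A stage of the construction. -/
structure STAGE (G : Type) {X : Type} [Group G] [MulAction G X] (M : PM X) (n : ℕ)
    (δ L' A0 kl : ℝ) : Prop where
  ne : Nonempty X
  iso : Iso G M
  hyp : M.Hyp δ
  sg : M.SG 2
  star : ∀ x y : X, A0 ≤ M.d x y → ∃ e : G, (e = 1 ∨ Lox M e) ∧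
    ∀ g : G, Dp M g L' x y → ∃ a : ℤ, g = e ^ a
  h2 : ∀ g : G, Lox M g ∨ g ^ n = 1
  h3 : ∀ g : G, Lox M g → ∀ (x : X) (m : ℕ), kl * m ≤ M.d x (g ^ m • x)
  h5 : ∀ (g : G) (x y : X), g ≠ 1 → Dp M g L' x y → ∃ m : ℤ, M.d y (g ^ m • x) ≤ A0

end BSD
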