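import Pool.Agent.Lib.MP_8528c3_al.StF

/-!
# Burnside project, F7a: projection to a quasi-convex set
-/

namespace BSD

theorem burn_F7a (h4 : stA4) : stF7a := by
  intro X M δ A Y hδ h0 hs hq x q hqY hx y hy
  have t1 := M.tri x y q
  have t2 := M.tri x q y
  have t3 := M.tri y x q
  have e1 := M.symm x y
  have e2 := M.symm q y
  have hs0 : 0 ≤ M.gp x y q := by
    unfold PM.gp
    linarith
  have hs1 : M.gp x y q ≤ M.d q y := by
    unfold PM.gp
    linarith
  obtain ⟨z, hz1, hz2⟩ := h4 X M 2 (by norm_num) hs q y (M.gp x y q) (1 / 10) hs0 hs1 (by norm_num)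
  obtain ⟨z', hz', hd⟩ := hq q hqY y hy z
  have hx' := hx z' hz'
  have t4 := M.tri x z z'
  obtain ⟨a1, a2⟩ := abs_le.1 hz2
  have e3 := M.symm q z
  have e4 := M.symm y z
  have k1 : M.gp y z q + M.gp q y z = M.d z q := by
    unfold PM.gp
    linarith
  have k2 : M.gp x y q - 2 - 2 / 10 ≤ min (M.gp x y q) (M.gp y z q) := by
    apply le_min
    · linarith
    · linarith
  have k3 := hδ x y z q
  have k4 : M.d x z = M.d x q + M.d z q - 2 * M.gp x z q := by
    unfold PM.gp
    linarith
  linarith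

end BSD
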