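import Pool.Agent.Lib.MP_8528c3_al.StD
import Pool.Agent.Lib.MP_8528c3_al.StE

/-!
# Burnside project, part F: the induction step (definitions)
-/

namespace BSD

/-- The rescaled space. -/
noncomputable def PM.sc {X : Type} (M : PM X) (l : ℝ) (hl : 0 ≤ l) : PM X where
  d x y := l * M.d x y
  self x := by rw [M.self, mul_zero]
  symm x y := by rw [M.symm]
  tri x y z := by
    have := mul_le_mul_of_nonneg_left (M.tri x y z) hl
    linarith

theorem PM.sc_gp {X : Type} (M : PM X) (l : ℝ) (hl : 0 ≤ l) (x y w : X) :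
    (M.sc l hl).gp x y w = l * M.gp x y w := by
  unfold PM.gp PM.sc
  ring

/-- The pair of constants given by the cone-off theorem B20. -/
def CO20 (δ T : ℝ) : Prop := ∀ (X I : Type) (M : PM X) (Y : I → Set X) (ρ : ℝ)
  (hY : ∀ i, (Y i).Nonempty) (hρ : 0 ≤ ρ), 20 ≤ ρ → TH M Y →
  (coPM M Y ρ hY hρ).Hyp δ ∧ ∀ π y0, Pr M Y π y0 → ∀ a b c p, Med M π y0 a b c p →
    (coPM M Y ρ hY hρ).gp a b p ≤ T

/-- The constants which do not depend on the exponent. -/
structure KC where
  (δ T L L1 L' M' M2 C3 Tt κ ρ r1 A0 A1 A2 A3 A4 : ℝ)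
  b20 : CO20 δ T
  hδ : 1 ≤ δ
  hT : 1 ≤ T
  eL : L = 1000 * δ + 1000
  eL1 : L1 = L + 8 * δ + 5
  eL' : L' = L1 + 1000 * δ + 1000
  eM' : M' = 2 * Real.exp ((3 * L' + 5) / 2)
  eM2 : M2 = M' + 2
  eC3 : C3 = T + Real.log M2 + 2 * M2 + 4
  hTt0 : 4 ≤ Tt
  hTt : 2 * C3 + 4 * δ + 1 ≤ 2 * Real.log (Tt / 4)
  eκ : κ = L / (2 * Tt)
  ρ0 : 0 ≤ ρ
  hρ1 : 20 * L' + 2 * C3 + 1200 * δ + 1100 ≤ ρ
  hρ2 : M2 + 4 * Real.exp (T + 1 + δ) ≤ Real.exp ρ
  er1 : r1 = M' + L' + ρ + 3
  eA0 : A0 = 2 * r1 + 200 * M' + 10 * L' + 1000 * (δ + 1) * L'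
  eA1 : A1 = A0 + 10 * δ + 10
  eA2 : A2 = A0 + 20 * δ + 30
  eA3 : A3 = 3 * A1 + 30 * δ + 100
  eA4 : A4 = A0 + 10 * A1 + 200 * δ + 200

/-- All the constants: `n` is the exponent, `lam` the scaling factor, `kl` the lower bound for the
translation lengths. -/
structure CC extends KC where
  n : ℕ
  hn : Odd n
  (lam kl : ℝ)
  hlam : 0 < lam
  elam : lam ^ 2 * (κ * n) = 101 * tt1 δ ρ
  ekl : kl = κ * lam
  hl : lam * (100 * (A4 + A0 + δ + 10)) ≤ 1 / 100

/-- The rescaled space. -/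
@[reducible] noncomputable def CC.N (c : CC) {X : Type} (M : PM X) : PM X := M.sc c.lam c.hlam.le

/-- The cone-off of the rescaled space. -/
@[reducible] noncomputable def CC.Z (c : CC) {X I : Type} (M : PM X) {Y : I → Set X}
    (hY : ∀ i, (Y i).Nonempty) : PM (Co Y c.ρ) := coPM (c.N M) Y c.ρ hY c.ρ0

/-- The setting of the induction step: a stage, the family `E i` of the maximal cyclic subgroups
containing short loxodromic elements, the sets `Y i` and the groups `R i` of `n`-th powers. -/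
structure FS {G X I : Type} [Group G] [MulAction G X] [MulAction G I] (c : CC) (M : PM X)
    (E R : I → Subgroup G) (Y : I → Set X) : Prop where
  st : STAGE G M c.n c.δ c.L' c.A0 c.kl
  inj : ∀ i j : I, E i = E j → i = j
  cj : ∀ (g : G) (i : I) (f : G), f ∈ E (g • i) ↔ g⁻¹ * f * g ∈ E i
  cen : ∀ i : I, ∃ g : G, Lox M g ∧ (∃ x, M.d x (g • x) ≤ c.L) ∧ ∀ f : G, f ∈ E i ↔ f ∈ Cen g
  cov : ∀ (g : G) (x : X), Lox M g → M.d x (g • x) ≤ c.L → ∃ i, g ∈ E i
  Yd : ∀ (i : I) (x : X), x ∈ Y i ↔ ∃ e : G, Subgroup.zpowers e = E i ∧ M.d x (e • x) ≤ c.L1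
  Rd : ∀ (i : I) (h : G), h ∈ R i ↔ ∃ f ∈ E i, h = f ^ c.n

/-! ## The concrete family -/

/-- `E` is the group of a short loxodromic element. -/
def IsFI {G X : Type} [Group G] [MulAction G X] (M : PM X) (L : ℝ) (E : Subgroup G) : Prop :=
  ∃ a g : G, Lox M g ∧ (∃ x, M.d x (g • x) ≤ L) ∧ ∀ f : G, f ∈ E ↔ a * f * a⁻¹ ∈ Cen g

/-- The index type. -/
def FI (G : Type) {X : Type} [Group G] [MulAction G X] (M : PM X) (L : ℝ) : Type :=
  {E : Subgroup G // IsFI M L E}

/-- Conjugation. -/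
def cjS {G : Type} [Group G] (b : G) (E : Subgroup G) : Subgroup G where
  carrier := {f | b⁻¹ * f * b ∈ E}
  one_mem' := by simp [E.one_mem]
  mul_mem' := by
    intro f g hf hg
    change b⁻¹ * f * b ∈ E at hf
    change b⁻¹ * g * b ∈ E at hg
    change b⁻¹ * (f * g) * b ∈ E
    have := E.mul_mem hf hg
    convert this using 1
    group
  inv_mem' := by
    intro f hf
    change b⁻¹ * f * b ∈ E at hf
    change b⁻¹ * f⁻¹ * b ∈ E
    have := E.inv_mem hf
    convert this using 1
    group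

theorem mem_cjS {G : Type} [Group G] (b f : G) (E : Subgroup G) :
    f ∈ cjS b E ↔ b⁻¹ * f * b ∈ E := Iff.rfl

instance fiAct {G X : Type} [Group G] [MulAction G X] (M : PM X) (L : ℝ) :
    MulAction G (FI G M L) where
  smul b E := ⟨cjS b E.1, by
    obtain ⟨a, g, h1, h2, h3⟩ := E.2
    refine ⟨a * b⁻¹, g, h1, h2, fun f => ?_⟩
    rw [mem_cjS, h3]
    have : a * (b⁻¹ * f * b) * a⁻¹ = a * b⁻¹ * f * (a * b⁻¹)⁻¹ := by group
    rw [this]⟩
  one_smul E := by
    apply Subtype.ext
    show cjS 1 E.1 = E.1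
    ext f
    rw [mem_cjS]
    simp
  mul_smul b b' E := by
    apply Subtype.ext
    show cjS (b * b') E.1 = cjS b (cjS b' E.1)
    ext f
    rw [mem_cjS, mem_cjS, mem_cjS]
    have : (b * b')⁻¹ * f * (b * b') = b'⁻¹ * (b⁻¹ * f * b) * b' := by group
    rw [this]

theorem fi_smul {G X : Type} [Group G] [MulAction G X] (M : PM X) (L : ℝ) (b : G)
    (E : FI G M L) : (b • E).1 = cjS b E.1 := rfl

/-- Points with short displacement by a generator of `E`. -/
def YY {G X : Type} [Group G] [MulAction G X] (M : PM X) (L1 : ℝ) (E : Subgroup G) : Set X :=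
  {x | ∃ e : G, Subgroup.zpowers e = E ∧ M.d x (e • x) ≤ L1}

/-- The group generated by the `n`-th powers of the elements of `E`. -/
def Rn {G : Type} [Group G] (n : ℕ) (E : Subgroup G) : Subgroup G :=
  Subgroup.closure {h | ∃ f ∈ E, h = f ^ n}

/-! ## Quotients -/

/-- The orbit relation of a subgroup. -/
def QS (Z : Type) {G : Type} [Group G] [MulAction G Z] (K : Subgroup G) : Setoid Z where
  r x y := ∃ k ∈ K, k • x = y
  iseqv := ⟨fun x => ⟨1, K.one_mem, one_smul _ _⟩,
    fun {x y} ⟨k, hk, h⟩ => ⟨k⁻¹, K.inv_mem hk, by rw [← h, inv_smul_smul]⟩,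
    fun {x y z} ⟨k, hk, h⟩ ⟨k', hk', h'⟩ => ⟨k' * k, K.mul_mem hk' hk, by rw [mul_smul, h, h']⟩⟩

/-- The set of orbits. -/
def QZ (Z : Type) {G : Type} [Group G] [MulAction G Z] (K : Subgroup G) : Type :=
  Quotient (QS Z K)

/-- The orbit of a point. -/
def qz {Z G : Type} [Group G] [MulAction G Z] (K : Subgroup G) (x : Z) : QZ Z K :=
  Quotient.mk (QS Z K) x

/-- The action of the quotient group on the set of orbits. -/
@[reducible] def qAct (Z : Type) {G : Type} [Group G] [MulAction G Z] (K : Subgroup G)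
    [K.Normal] : MulAction (G ⧸ K) (QZ Z K) where
  smul q z := Quotient.liftOn₂' q z (fun g x => qz K (g • x)) (by
    rintro g x g' x' hg ⟨k, hk, rfl⟩
    have hg' : g⁻¹ * g' ∈ K := QuotientGroup.leftRel_apply.1 hg
    refine Quotient.sound (s := QS Z K) ⟨g' * k * g⁻¹, ?_, ?_⟩
    · have h1 : g' * k * g⁻¹ = (g' * k * g'⁻¹) * (g * (g⁻¹ * g') * g⁻¹) := by group
      rw [h1]
      exact K.mul_mem (Subgroup.Normal.conj_mem inferInstance k hk g')
        (Subgroup.Normal.conj_mem inferInstance _ hg' g)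
    · rw [smul_smul, smul_smul]
      congr 1
      group)
  one_smul z := by
    induction z using Quotient.inductionOn with
    | h x => exact congrArg (qz K) (one_smul G x)
  mul_smul q q' z := by
    induction z using Quotient.inductionOn with
    | h x =>
      induction q using QuotientGroup.induction_on with
      | H g =>
        induction q' using QuotientGroup.induction_on with
        | H g' => exact congrArg (qz K) (mul_smul g g' x)

theorem qAct_mk {Z G : Type} [Group G] [MulAction G Z] (K : Subgroup G) [K.Normal] (g : G)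
    (x : Z) : letI := qAct Z K
    ((g : G ⧸ K) • qz K x : QZ Z K) = qz K (g • x) := rfl

theorem dqf_smul_right {G Z : Type} [Group G] [MulAction G Z] (M : PM Z) (K : Subgroup G)
    (x y : Z) {k : G} (hk : k ∈ K) : dqf M K x (k • y) = dqf M K x y := by
  refine le_antisymm (le_dqf M K x y fun k' hk' => ?_) (le_dqf M K x (k • y) fun k' hk' => ?_)
  · have h := dqf_le M K x (k • y) (K.mul_mem hk' (K.inv_mem hk))
    rwa [mul_smul, inv_smul_smul] at h
  · have h := dqf_le M K x y (K.mul_mem hk' hk)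
    rwa [mul_smul] at h

theorem dqf_smul_left {G Z : Type} [Group G] [MulAction G Z] (M : PM Z) (K : Subgroup G)
    (iso : ∀ (g : G) (x y : Z), M.d (g • x) (g • y) = M.d x y) (x y : Z) {k : G} (hk : k ∈ K) :
    dqf M K (k • x) y = dqf M K x y := by
  have h1 := (dqPM M K iso).symm (k • x) y
  have h2 := (dqPM M K iso).symm x y
  change dqf M K (k • x) y = dqf M K y (k • x) at h1
  change dqf M K x y = dqf M K y x at h2
  rw [h1, h2, dqf_smul_right M K y x hk]

/-- The quotient pseudo-metric on the set of orbits. -/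
noncomputable def qM {G Z : Type} [Group G] [MulAction G Z] (M : PM Z) (K : Subgroup G)
    (iso : ∀ (g : G) (x y : Z), M.d (g • x) (g • y) = M.d x y) : PM (QZ Z K) where
  d x y := Quotient.liftOn₂ x y (dqf M K) (by
    rintro x y _ _ ⟨k, hk, rfl⟩ ⟨k', hk', rfl⟩
    rw [dqf_smul_right M K _ _ hk', dqf_smul_left M K iso _ _ hk])
  self x := by
    induction x using Quotient.inductionOn with
    | h x => exact (dqPM M K iso).self x
  symm x y := by
    induction x using Quotient.inductionOn with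
    | h x =>
      induction y using Quotient.inductionOn with
      | h y => exact (dqPM M K iso).symm x y
  tri x y z := by
    induction x using Quotient.inductionOn with
    | h x =>
      induction y using Quotient.inductionOn with
      | h y =>
        induction z using Quotient.inductionOn with
        | h z => exact (dqPM M K iso).tri x y z

theorem qM_d {G Z : Type} [Group G] [MulAction G Z] (M : PM Z) (K : Subgroup G)
    (iso : ∀ (g : G) (x y : Z), M.d (g • x) (g • y) = M.d x y) (x y : Z) :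
    (qM M K iso).d (qz K x) (qz K y) = dqf M K x y := rfl

/-- A stage modulo a normal subgroup `K` (the space is not replaced by its set of orbits). -/
structure STAGEK (G : Type) {Z : Type} [Group G] [MulAction G Z] (K : Subgroup G) (M : PM Z)
    (n : ℕ) (δ L' A0 kl : ℝ) : Prop where
  ne : Nonempty Z
  iso : Iso G M
  inv : ∀ k ∈ K, ∀ x y : Z, M.d x (k • y) = M.d x y
  hyp : M.Hyp δ
  sg : M.SG 2
  star : ∀ x y : Z, A0 ≤ M.d x y → ∃ e : G, (e = 1 ∨ Lox M e) ∧
    ∀ g : G, Dp M g L' x y → ∃ (k : G) (a : ℤ), k ∈ K ∧ g = k * e ^ a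
  h2 : ∀ g : G, Lox M g ∨ g ^ n ∈ K
  h3 : ∀ g : G, Lox M g → ∀ (x : Z) (m : ℕ), kl * m ≤ M.d x (g ^ m • x)
  h5 : ∀ (g : G) (x y : Z), g ∉ K → Dp M g L' x y → ∃ m : ℤ, M.d y (g ^ m • x) ≤ A0

end BSD
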