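import Pool.Agent.Lib.MP_8528c3_al.StG

/-!
# Burnside project, part G: stabilisers of the apexes in `K`
-/

namespace BSD

theorem burn_G7 (h7 : stD7) : stG7 := by
  intro G Z I _ _ _ M v R θ ρ C δ H k hk i hi
  by_cases h1 : k = 1
  · rw [h1]
    exact (R i).one_mem
  have hρ := H.hρ
  have hδ := H.hδ
  have hC := H.hC
  rcases (h7 G Z I M v R θ ρ C δ H k hk h1 (v i)).1 with ⟨j, hj, hd⟩ | ⟨j, h, _, hd, hθ, _⟩
  · by_cases hij : i = j
    · rw [hij]
      exact hj
    · have := H.rf.r0 i j hij
      linarith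
  · exfalso
    have e1 : k • v i = v i := by
      rw [← H.rf.vg, hi]
    rw [e1] at hθ
    have e2 : M.gp (v i) (v i) (v j) = M.d (v i) (v j) := by
      unfold PM.gp
      rw [M.self]
      ring
    have e3 : C ≤ M.gp (v i) (v i) (v j) := by
      rw [e2]
      linarith
    have h3 := H.rf.r3 j (v i) (v i) e3
    rw [e2, min_eq_left hd] at h3
    have h4 : Real.exp (-(ρ - C)) ≤ 1 := by
      rw [Real.exp_le_one_iff]
      linarith
    linarith

end BSD
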