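import Pool.Agent.Lib.MP_8528c3_al.FAsm

/-!
# Burnside project, part G: dimension (definitions)
-/

namespace BSD

/-- Annuli. -/
def Ann {W : Type} (M : PM W) (o : W) (t w : ℝ) : Set W := {x | |M.d o x - t| ≤ w}

/-- The restriction of a relation to a set. -/
def RsP {W : Type} (S : Set W) (P : W → W → Prop) (a b : W) : Prop := a ∈ S ∧ b ∈ S ∧ P a b

/-- Step of a monochromatic chain in `S`. -/
def Stp {W κ : Type} (M : PM W) (S : Set W) (f : W → κ) (r : ℝ) (a b : W) : Prop :=
  a ∈ S ∧ b ∈ S ∧ M.d a b ≤ r ∧ f a = f b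

theorem Stp_eq {W κ : Type} (M : PM W) (S : Set W) (f : W → κ) (r : ℝ) :
    Stp M S f r = RsP S (fun a b => M.d a b ≤ r ∧ f a = f b) := rfl

/-- `S` has a colouring with `q` colours such that the monochromatic `r`-chains have size at
most `D`. -/
def Col {W : Type} (M : PM W) (S : Set W) (q : ℕ) (r D : ℝ) : Prop :=
  ∃ f : W → Fin q, ∀ x y : W, x ∈ S → Relation.ReflTransGen (Stp M S f r) x y → M.d x y ≤ D

/-- All annuli of thickness `w` have colourings. -/
def Sph {W : Type} (M : PM W) (q : ℕ) (r w D : ℝ) : Prop :=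
  ∀ (o : W) (t : ℝ), Col M (Ann M o t w) q r D

/-- The points of the cone-off of height at most `H`. -/
def Low {X I : Type} {Y : I → Set X} {ρ : ℝ} (H : ℝ) : Set (Co Y ρ) := {z | ht z ≤ H}

/-- The function whose infimum is the level of `x`. -/
noncomputable def FF {X : Type} (M : PM X) (o : X) (r Λ : ℝ) (x z : X) : ℝ :=
  M.gp x z o + Λ * max 0 (M.gp o x z - r)

end BSD
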