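import Pool.Agent.Lib.MP_8528c3_al.StH

/-!
# Burnside project, module H12: lower bound for `FF` at the points next to an active cone
-/

namespace BSD

/-- Hyperbolicity at `p` when the product is small. -/
theorem h12_split {X : Type} {N : PM X} (hyp : N.Hyp (1 / 100)) (a b c p : X) (e : ℝ)
    (h : N.gp a c p ≤ e) : N.gp a b p ≤ e + 1 / 100 ∨ N.gp b c p ≤ e + 1 / 100 := by
  have h1 := hyp a b c p
  rcases le_total (N.gp a b p) (N.gp b c p) with h2 | h2
  · rw [min_eq_left h2] at h1
    left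
    linarith
  · rw [min_eq_right h2] at h1
    right
    linarith

/-- The first part. -/
theorem h12_first {X I : Type} {N : PM X} {Y : I → Set X} {ρ : ℝ} {hY : ∀ i, (Y i).Nonempty}
    {hρ : 0 ≤ ρ} {π : I → X → X} {y0 : I → X} {T : ℝ} {o : Co Y ρ} {S : Set X}
    {t w rh h0 : ℝ} (b2 : stB2) (b3 : stB3) (b8 : stB8) (h2 : stH2) (h9 : stH9)
    (ls : LS N Y ρ hY hρ π y0 T o S t w rh h0) (i : I) (hi : ActI N π y0 o S rh h0 i)
    (a b : X) (ha : N.d a (π i a) ≤ 2 * rh + 20) (hb : b ∈ S) (hab : N.d a b ≤ rh) :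
    N.gp (bt y0 o) b (π i b) ≤ 9 / 100 := by
  have hth := ls.tg.th
  have hpr := ls.tg.pr
  obtain ⟨q1, q2, -, -, -⟩ := h2 X I N Y ρ π y0 hρ hpr o
  have hsy : N.gp (bt y0 o) b (π i b) = N.gp b (bt y0 o) (π i b) := by
    unfold PM.gp
    rw [N.symm (bt y0 o) b]
    ring
  rw [hsy]
  rcases (q1 i).lt_or_eq with hpos | hz
  · have h3 := b2 X I N Y π y0 hth hpr i b (bt y0 o) (q2 i hpos)
    linarith
  · by_cases hfar : 17 / 100 < N.d (π i b) (π i (bt y0 o))
    · exact (b3 X I N Y π y0 hth hpr i b (bt y0 o)).1 hfar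
    · exfalso
      have hD := h9 X I N Y ρ hY hρ π y0 T o S t w rh h0 ls i hi hz.symm
      obtain ⟨c1, -⟩ := b8 X I N Y ρ y0 hY hρ i
      have e1 := c1 (π i (bt y0 o)) (π i b)
      have e2 := c1 (π i b) b
      have e3 := (coPM N Y ρ hY hρ).tri o (Co.base (π i (bt y0 o))) (Co.base (π i b))
      have e4 := (coPM N Y ρ hY hρ).tri o (Co.base (π i b)) (Co.base b)
      have e5 := ls.hS b hb
      have e6 := (abs_le.mp e5).1
      have e7 := hpr.le i b (π i a) (hpr.mem i a)
      have e8 := N.tri b a (π i a)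
      have e9 := N.symm b a
      have e10 := N.symm (π i b) b
      have e11 := N.symm (π i b) (π i (bt y0 o))
      have e12 := ls.hh
      have e13 := ls.hr
      have e14 := ls.tg.hT
      have e15 := ls.hw
      linarith

/-- The second part. -/
theorem h12_second {X I : Type} {N : PM X} {Y : I → Set X} {ρ : ℝ} {hY : ∀ i, (Y i).Nonempty}
    {hρ : 0 ≤ ρ} {π : I → X → X} {y0 : I → X} {T : ℝ} {o : Co Y ρ} {S : Set X}
    {t w rh h0 : ℝ} (a4 : stA4) (b8 : stB8) (h2 : stH2) (h5 : stH5) (h9 : stH9)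
    (ls : LS N Y ρ hY hρ π y0 T o S t w rh h0) (i : I) (hi : ActI N π y0 o S rh h0 i)
    (b : X) (hb : b ∈ S2 N π y0 o S rh h0) (hg : N.gp (bt y0 o) b (π i b) ≤ 9 / 100)
    (z : X) (hz : z ∈ S2 N π y0 o S rh h0) (L : ℝ) (hL : 1 ≤ L) (hbz : N.d b z ≤ L) :
    N.d (bt y0 o) (π i b) + rh + 18 ≤ FF N (bt y0 o) rh L b z := by
  have hth := ls.tg.th
  have hpr := ls.tg.pr
  have hr := ls.hr
  have hbi : 2 * rh + 20 < N.d b (π i b) := hb.2 i hi
  have hzi : 2 * rh + 20 < N.d z (π i z) := hz.2 i hi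
  have hg' : N.d (bt y0 o) (π i b) + N.d b (π i b) - N.d (bt y0 o) b ≤ 18 / 100 := by
    unfold PM.gp at hg
    linarith
  unfold FF
  by_cases hc : rh + 1 ≤ N.gp (bt y0 o) b z
  · have k1 : (1 : ℝ) ≤ max 0 (N.gp (bt y0 o) b z - rh) := le_max_of_le_right (by linarith)
    have k2 : L ≤ L * max 0 (N.gp (bt y0 o) b z - rh) := by
      have := mul_le_mul_of_nonneg_left k1 (by linarith : (0 : ℝ) ≤ L)
      linarith
    have k3 : N.d (bt y0 o) b - N.d b z ≤ N.gp b z (bt y0 o) := by
      unfold PM.gp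
      have := N.tri (bt y0 o) z b
      have := N.symm z b
      have := N.symm (bt y0 o) b
      have := N.symm (bt y0 o) z
      linarith
    linarith
  · push Not at hc
    have k2 : 0 ≤ L * max 0 (N.gp (bt y0 o) b z - rh) :=
      mul_nonneg (by linarith) (le_max_left _ _)
    obtain ⟨s, hs⟩ : ∃ s, s = N.gp b z (bt y0 o) := ⟨_, rfl⟩
    have s0 : 0 ≤ s := by
      rw [hs]
      unfold PM.gp
      have := N.tri b (bt y0 o) z
      have := N.symm (bt y0 o) z
      linarith
    have s1 : s ≤ N.d (bt y0 o) b := by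
      rw [hs]
      unfold PM.gp
      have := N.tri z b (bt y0 o)
      have := N.symm z b
      have := N.symm (bt y0 o) b
      linarith
    obtain ⟨p, hp1, hp2⟩ := a4 X N (1 / 100) (by norm_num) hth.sg (bt y0 o) b s (1 / 100) s0 s1
      (by norm_num)
    obtain ⟨hp3, hp4⟩ := abs_le.mp hp2
    -- `z` is close to `p`
    have hpz : N.d p z ≤ rh + 1 + 1 / 10 := by
      have m1 := hth.hyp p b z (bt y0 o)
      have m2 : s - 3 / 100 ≤ min (N.gp p b (bt y0 o)) (N.gp b z (bt y0 o)) := by
        refine le_min ?_ ?_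
        · unfold PM.gp at hp1 ⊢
          have := N.symm p b
          have := N.symm p (bt y0 o)
          have := N.symm b (bt y0 o)
          linarith
        · linarith
      have m3 : s - 4 / 100 ≤ N.gp p z (bt y0 o) := by linarith
      unfold PM.gp at hc m3 hs
      have := N.symm p (bt y0 o)
      have := N.symm b (bt y0 o)
      have := N.symm z (bt y0 o)
      linarith
    -- no point of `Y i` is close to `z`
    have hfar : ∀ y ∈ Y i, N.d p y ≤ 5 / 100 → False := by
      intro y hy hpy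
      have n1 := hpr.le i z y hy
      have n2 := N.tri z p y
      have n3 := N.symm z p
      linarith
    obtain ⟨q1, q2, q3, -, -⟩ := h2 X I N Y ρ π y0 hρ hpr o
    rcases h12_split hth.hyp (bt y0 o) (π i (bt y0 o)) b p (1 / 100) hp1 with hα | hβ
    · exfalso
      rcases (q1 i).lt_or_eq with hpos | hzero
      · rw [q3 i hpos] at hα
        refine hfar (bt y0 o) (q2 i hpos) ?_
        unfold PM.gp at hα
        have := N.self (bt y0 o)
        have := N.symm (bt y0 o) p
        linarith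
      · have hD := h9 X I N Y ρ hY hρ π y0 T o S t w rh h0 ls i hi hzero.symm
        have e1 := h5 X I N Y ρ hY hρ π y0 T ls.tg o (π i (bt y0 o)) p (by linarith)
        obtain ⟨c1, -⟩ := b8 X I N Y ρ y0 hY hρ i
        have e2 := c1 p z
        have e3 := (coPM N Y ρ hY hρ).tri o (Co.base p) (Co.base z)
        have e6 := (abs_le.mp (ls.hS z hz.1)).1
        have e12 := ls.hh
        have e14 := ls.tg.hT
        have e15 := ls.hw
        linarith
    · rcases h12_split hth.hyp (π i (bt y0 o)) (π i b) b p (1 / 100 + 1 / 100) hβ with h6 | h6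
      · exfalso
        obtain ⟨y, hy, hpy⟩ := hth.qc i (π i (bt y0 o)) (hpr.mem i _) (π i b) (hpr.mem i _) p
        exact hfar y hy (by linarith)
      · have n1 := hpr.le i z (π i b) (hpr.mem i b)
        have n2 := N.tri z p (π i b)
        have n3 := N.symm z p
        have n4 := N.symm (π i b) p
        have n5 := N.tri (bt y0 o) p b
        have n6 := N.symm b p
        have n7 := N.symm b (π i b)
        unfold PM.gp at h6
        linarith

/-- H12: lower bound for `FF` at the points next to an active cone. -/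
theorem burn_H12 (a4 : stA4) (b2 : stB2) (b3 : stB3) (b8 : stB8) (h2 : stH2) (h5 : stH5)
    (h9 : stH9) : stH12 := by
  intro X I N Y ρ hY hρ π y0 T o S t w rh h0 ls i hi a _ hai b hb hab
  have hg := h12_first b2 b3 b8 h2 h9 ls i hi a b hai hb.1 hab
  exact ⟨hg, fun z hz L hL hbz => h12_second a4 b8 h2 h5 h9 ls i hi b hb hg z hz L hL hbz⟩

end BSD
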