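import Pool.Agent.Lib.MP_8528c3_al.GDefs

/-!
# Burnside project, part H: the low part of the cone-off (definitions)
-/

namespace BSD

/-- Geometry of the cone-off of a tiny space: medians have bounded Gromov products. -/
structure TG {X I : Type} (N : PM X) (Y : I → Set X) (ρ : ℝ) (hY : ∀ i, (Y i).Nonempty)
    (hρ : 0 ≤ ρ) (π : I → X → X) (y0 : I → X) (T : ℝ) : Prop where
  r20 : 20 ≤ ρ
  th : TH N Y
  pr : Pr N Y π y0
  hT : 1 ≤ T
  med : ∀ a b c p : Co Y ρ, Med N π y0 a b c p → (coPM N Y ρ hY hρ).gp a b p ≤ T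

/-- Low setting: `S` is a set of points of the base in an annulus of the cone-off with centre
`o`, `rh` is the scale, `h0` is a large height. -/
structure LS {X I : Type} (N : PM X) (Y : I → Set X) (ρ : ℝ) (hY : ∀ i, (Y i).Nonempty)
    (hρ : 0 ≤ ρ) (π : I → X → X) (y0 : I → X) (T : ℝ) (o : Co Y ρ) (S : Set X)
    (t w rh h0 : ℝ) : Prop where
  tg : TG N Y ρ hY hρ π y0 T
  hw : 0 ≤ w
  hr : 2 ≤ rh
  hh : w + 2 * (2 * rh + 20) + 2 * T + 2 * rh + 10 ≤ h0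
  hρ1 : h0 + 1 < ρ
  hS : ∀ x ∈ S, |(coPM N Y ρ hY hρ).d o (Co.base x) - t| ≤ w

/-- Active cones: some point of `S` is close to `Y i` and has a large climb. -/
def ActI {X I : Type} (N : PM X) {Y : I → Set X} {ρ : ℝ} (π : I → X → X) (y0 : I → X)
    (o : Co Y ρ) (S : Set X) (rh h0 : ℝ) (i : I) : Prop :=
  ∃ x ∈ S, N.d x (π i x) ≤ 2 * rh + 20 ∧ h0 ≤ uu N π y0 i o (Co.base x : Co Y ρ)

/-- The points of `S` far from the `Y i` of the active cones. -/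
def S2 {X I : Type} (N : PM X) {Y : I → Set X} {ρ : ℝ} (π : I → X → X) (y0 : I → X)
    (o : Co Y ρ) (S : Set X) (rh h0 : ℝ) : Set X :=
  {x | x ∈ S ∧ ∀ i, ActI N π y0 o S rh h0 i → 2 * rh + 20 < N.d x (π i x)}

/-- A constant. -/
noncomputable def C8 (T w rh h0 : ℝ) : ℝ :=
  2 * w + rh + 2 + 2 * (T + h0 + 4 + 2 * Real.exp (h0 + 1))

/-! ### Constants as functions of the scale `r` -/

noncomputable def nDH (r : ℝ) : ℝ := 8 * Real.exp ((r + 1) / 2) + 4 * r + 20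

noncomputable def nrB (r : ℝ) : ℝ := nDH r + 2 * r

noncomputable def nrh (r : ℝ) : ℝ := 2 * Real.exp ((nrB r + 2 * (r + 1)) / 2)

noncomputable def nh0 (δ T r : ℝ) : ℝ :=
  (2 * δ + 4 + (r + 1)) + 2 * (2 * nrh r + 20) + 2 * T + 2 * nrh r + 10

noncomputable def nC8 (δ T r : ℝ) : ℝ := C8 T (2 * δ + 4 + (r + 1)) (nrh r) (nh0 δ T r)

noncomputable def nDL (δ T r : ℝ) : ℝ :=
  18 * nrh r + 4 * (2 * Real.exp (nC8 δ T r / 2) + 1) + 46 + 2 * (r + 1)

noncomputable def nDl (δ T r : ℝ) : ℝ := nDL δ T r + 2 * nDH r + 2 * r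

end BSD
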