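import Pool.Agent.Lib.MP_8528c3_al.StI

/-!
# Burnside project, I4a: the quotient of `Y i` by `R i` is bounded.
-/

namespace BSD

theorem I4a_pow {G X : Type} [Group G] [MulAction G X] (M : PM X) (iso : Iso G M) (e : G) (y : X)
    (L : ℝ) (h : M.d y (e • y) ≤ L) (r : ℕ) : M.d (e ^ r • y) y ≤ r * L := by
  induction r with
  | zero => rw [pow_zero, one_smul, M.self]; simp
  | succ r ih =>
    have h1 := M.tri (e ^ (r + 1) • y) (e ^ r • y) y
    have h2 : M.d (e ^ (r + 1) • y) (e ^ r • y) = M.d y (e • y) := by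
      rw [pow_succ, mul_smul, iso, M.symm]
    push_cast
    linarith

theorem burn_I4a (h6 : stF6) (_h0b : stF0b) : stI4a := by
  intro G X I _ _ _ c M E R Y fs i y hy y' hy'
  obtain ⟨⟨hE, -⟩, -⟩ := h6 G X I c M E R Y fs
  obtain ⟨e, he1, -, heE, heY⟩ := hE i
  have hyL := (heY y).1 hy
  have hyL' := (heY y').1 hy'
  have hiso := fs.st.iso
  have hL : c.L1 ≤ c.L' := by
    rw [c.eL']
    linarith [c.hδ]
  have hL1 : 0 ≤ c.L1 := (M.nonneg _ _).trans hyL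
  obtain ⟨m, hm⟩ := fs.st.h5 e y' y he1 ⟨hyL'.trans hL, hyL.trans hL⟩
  have hn : 0 < c.n := c.hn.pos
  have hnz : (0 : ℤ) < (c.n : ℤ) := by exact_mod_cast hn
  set q : ℤ := m / c.n with hq
  obtain ⟨r, hr⟩ := Int.eq_ofNat_of_zero_le (Int.emod_nonneg m hnz.ne')
  have hrn : (r : ℤ) < c.n := by
    have := Int.emod_lt_of_pos m hnz
    omega
  have hmq : m = q * c.n + r := by
    have := Int.mul_ediv_add_emod m c.n
    rw [hr] at this
    rw [hq]
    linarith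
  have hk : e ^ (q * (c.n : ℤ)) = (e ^ q) ^ c.n := by rw [zpow_mul, zpow_natCast]
  refine ⟨e ^ (q * (c.n : ℤ)), (fs.Rd i _).2 ⟨e ^ q, (heE _).2 ⟨q, rfl⟩, hk⟩, ?_⟩
  have h1 : M.d (e ^ m • y') (e ^ (q * (c.n : ℤ)) • y') ≤ r * c.L1 := by
    rw [hmq, zpow_add, mul_smul, hiso, zpow_natCast]
    exact I4a_pow M hiso e y' _ hyL' r
  have h2 := M.tri y (e ^ m • y') (e ^ (q * (c.n : ℤ)) • y')
  have h3 : (r : ℝ) * c.L1 ≤ c.n * c.L1 := by
    refine mul_le_mul_of_nonneg_right ?_ hL1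
    exact_mod_cast hrn.le
  linarith

end BSD
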