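import Pool.Agent.Lib.MP_8528c3_al.StA

/-!
# Burnside project, part B: the cone-off of a tiny hyperbolic space is hyperbolic.
Statements only.
-/

namespace BSD

/-- Tiny hyperbolic space with quasi-convex subsets of small overlap. -/
structure TH {X I : Type} (M : PM X) (Y : I → Set X) : Prop where
  hyp : M.Hyp (1 / 100)
  sg : M.SG (1 / 100)
  ne : ∀ i, (Y i).Nonempty
  qc : ∀ i, M.QC (Y i) (1 / 100)
  ov : ∀ i j, i ≠ j → ∀ (r : ℝ) (x x' : X), 0 ≤ r → M.Near (Y i) r x → M.Near (Y j) r x →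
    M.Near (Y i) r x' → M.Near (Y j) r x' → M.d x x' ≤ 2 * r + 1 / 100

/-- Almost nearest point projections. -/
structure Pr {X I : Type} (M : PM X) (Y : I → Set X) (π : I → X → X) (y0 : I → X) : Prop where
  mem : ∀ i x, π i x ∈ Y i
  le : ∀ i x, ∀ y ∈ Y i, M.d x (π i x) ≤ M.d x y + 1 / 100
  fix : ∀ i, ∀ y ∈ Y i, π i y = y
  y0 : ∀ i, y0 i ∈ Y i

/-- B1: projections exist. -/
def stB1 : Prop := ∀ (X I : Type) (M : PM X) (Y : I → Set X), (∀ i, (Y i).Nonempty) →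
  ∃ π y0, Pr M Y π y0

/-- B2: first projection inequality. -/
def stB2 : Prop := ∀ (X I : Type) (M : PM X) (Y : I → Set X) (π : I → X → X) (y0 : I → X),
  TH M Y → Pr M Y π y0 → ∀ i x, ∀ y ∈ Y i, M.gp x y (π i x) ≤ 8 / 100

/-- B3: two projections. -/
def stB3 : Prop := ∀ (X I : Type) (M : PM X) (Y : I → Set X) (π : I → X → X) (y0 : I → X),
  TH M Y → Pr M Y π y0 → ∀ i x x',
  (17 / 100 < M.d (π i x) (π i x') → M.gp x x' (π i x) ≤ 9 / 100) ∧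
  M.d (π i x) (π i x') ≤ M.d x x' + 35 / 100

/-- B4: projection of `Y j` to `Y i`. -/
def stB4 : Prop := ∀ (X I : Type) (M : PM X) (Y : I → Set X) (π : I → X → X) (y0 : I → X),
  TH M Y → Pr M Y π y0 → ∀ i j, i ≠ j → ∀ y ∈ Y j, ∀ y' ∈ Y j,
  M.d (π i y) (π i y') ≤ 21 / 100

/-- B5: Behrstock inequality. -/
def stB5 : Prop := ∀ (X I : Type) (M : PM X) (Y : I → Set X) (π : I → X → X) (y0 : I → X),
  TH M Y → Pr M Y π y0 → ∀ i j, i ≠ j → ∀ x,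
  M.d (π i x) (π i (y0 j)) ≤ 56 / 100 ∨ M.d (π j x) (π j (y0 i)) ≤ 56 / 100

/-! ### The functions `u` -/

/-- Height at which the geodesic between `p` and `q` crosses the cone `i`. -/
noncomputable def uu {X I : Type} (M : PM X) {Y : I → Set X} {ρ : ℝ} (π : I → X → X)
    (y0 : I → X) (i : I) (p q : Co Y ρ) : ℝ :=
  min ρ (max (max (hti i p) (hti i q)) (Real.log (M.d (π i (bt y0 p)) (π i (bt y0 q)) / 2)))

/-- Height of the median of three points in the cone `i`. -/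
noncomputable def hh {X I : Type} (M : PM X) {Y : I → Set X} {ρ : ℝ} (π : I → X → X)
    (y0 : I → X) (i : I) (a b c : Co Y ρ) : ℝ :=
  min (uu M π y0 i a b) (min (uu M π y0 i b c) (uu M π y0 i a c))

/-- `p` is the point of the cone `i` above the gate of `x`, at height `h`. -/
def At {X I : Type} {Y : I → Set X} {ρ : ℝ} (π : I → X → X) (y0 : I → X) (i : I)
    (x : Co Y ρ) (h : ℝ) (p : Co Y ρ) : Prop :=
  ∃ (hy : π i (bt y0 x) ∈ Y i) (h0 : 0 ≤ h) (h1 : h ≤ ρ), p = Co.cone i (π i (bt y0 x)) hy h h0 h1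

/-- Median in the cone `i`. -/
def IsMu {X I : Type} (M : PM X) {Y : I → Set X} {ρ : ℝ} (π : I → X → X)
    (y0 : I → X) (i : I) (a b c p : Co Y ρ) : Prop :=
  (uu M π y0 i a b = hh M π y0 i a b c ∧
    (At π y0 i a (hh M π y0 i a b c) p ∨ At π y0 i b (hh M π y0 i a b c) p)) ∨
  (uu M π y0 i b c = hh M π y0 i a b c ∧
    (At π y0 i b (hh M π y0 i a b c) p ∨ At π y0 i c (hh M π y0 i a b c) p)) ∨
  (uu M π y0 i a c = hh M π y0 i a b c ∧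
    (At π y0 i a (hh M π y0 i a b c) p ∨ At π y0 i c (hh M π y0 i a b c) p))

/-- Median in the base. -/
def IsO {X I : Type} (M : PM X) {Y : I → Set X} {ρ : ℝ} (y0 : I → X)
    (a b c p : Co Y ρ) : Prop :=
  ∃ o : X, p = Co.base o ∧ M.gp (bt y0 a) (bt y0 b) o ≤ 1 / 20 ∧
    M.gp (bt y0 b) (bt y0 c) o ≤ 1 / 20 ∧ M.gp (bt y0 a) (bt y0 c) o ≤ 1 / 20

/-- Median relation. -/
def Med {X I : Type} (M : PM X) {Y : I → Set X} {ρ : ℝ} (π : I → X → X)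
    (y0 : I → X) (a b c p : Co Y ρ) : Prop :=
  (∃ i, 1 ≤ hh M π y0 i a b c ∧ IsMu M π y0 i a b c p) ∨
  ((∀ i, hh M π y0 i a b c < 1) ∧ IsO M y0 a b c p)

/-- B6: `u` is an ultrametric up to `log 2`. -/
def stB6 : Prop := ∀ (X I : Type) (M : PM X) (Y : I → Set X) (ρ : ℝ) (π : I → X → X)
  (y0 : I → X), 0 ≤ ρ → ∀ i (a b c : Co Y ρ),
  uu M π y0 i a b = uu M π y0 i b a ∧ 0 ≤ uu M π y0 i a b ∧ uu M π y0 i a b ≤ ρ ∧
  hti i a ≤ uu M π y0 i a b ∧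
  uu M π y0 i a c ≤ max (uu M π y0 i a b) (uu M π y0 i b c) + 7 / 10

/-- B7: lower bound for the cone-off metric. -/
def stB7 : Prop := ∀ (X I : Type) (M : PM X) (Y : I → Set X) (ρ : ℝ) (y0 : I → X)
  (hY : ∀ i, (Y i).Nonempty) (hρ : 0 ≤ ρ) (p q : Co Y ρ),
  2 * min ρ (max (max (ht p) (ht q)) (Real.log (M.d (bt y0 p) (bt y0 q) / 2))) - ht p - ht q
    ≤ (coPM M Y ρ hY hρ).d p q

/-- B8: upper bounds for the cone-off metric. -/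
def stB8 : Prop := ∀ (X I : Type) (M : PM X) (Y : I → Set X) (ρ : ℝ) (y0 : I → X)
  (hY : ∀ i, (Y i).Nonempty) (hρ : 0 ≤ ρ) (i : I),
  (∀ x x', (coPM M Y ρ hY hρ).d (Co.base x) (Co.base x') ≤ M.d x x') ∧
  (∀ y y' hy hy' s s' h0 h1 h0' h1' u, 0 ≤ u → u ≤ ρ →
    (coPM M Y ρ hY hρ).d (Co.cone i y hy s h0 h1) (Co.cone i y' hy' s' h0' h1')
      ≤ |s - u| + |u - s'| + M.d y y' * Real.exp (-u)) ∧
  (∀ y hy s h0 h1, (coPM M Y ρ hY hρ).d (Co.cone i y hy s h0 h1) (Co.apex i) ≤ ρ - s) ∧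
  (∀ y hy s h0 h1, (coPM M Y ρ hY hρ).d (Co.cone i y hy s h0 h1) (Co.base y) ≤ s) ∧
  (∀ y ∈ Y i, (coPM M Y ρ hY hρ).d (Co.base y) (Co.apex i) ≤ ρ) ∧
  (∀ p : Co Y ρ, (∀ j, y0 j ∈ Y j) → (coPM M Y ρ hY hρ).d p (Co.base (bt y0 p)) ≤ ht p)

/-- B9: distances to the apexes (lower bounds), heights are Lipschitz. -/
def stB9 : Prop := ∀ (X I : Type) (M : PM X) (Y : I → Set X) (ρ : ℝ)
  (hY : ∀ i, (Y i).Nonempty) (hρ : 0 ≤ ρ) (i : I) (p q : Co Y ρ),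
  |hti i p - hti i q| ≤ (coPM M Y ρ hY hρ).d p q ∧
  ρ - hti i p ≤ (coPM M Y ρ hY hρ).d p (Co.apex i) ∧
  (hti i p = 0 → ρ + ht p ≤ (coPM M Y ρ hY hρ).d p (Co.apex i)) ∧
  (∀ j, j ≠ i → 2 * ρ ≤ (coPM M Y ρ hY hρ).d (Co.apex j) (Co.apex i))

/-- B10: the cone-off is almost geodesic. -/
def stB10 : Prop := ∀ (X I : Type) (M : PM X) (Y : I → Set X) (ρ : ℝ)
  (hY : ∀ i, (Y i).Nonempty) (hρ : 0 ≤ ρ), M.SG 2 → (coPM M Y ρ hY hρ).SG 2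

/-- B11: at most one cone carries the median. -/
def stB11 : Prop := ∀ (X I : Type) (M : PM X) (Y : I → Set X) (ρ : ℝ) (π : I → X → X)
  (y0 : I → X), 20 ≤ ρ → TH M Y → Pr M Y π y0 → ∀ i j (a b c : Co Y ρ),
  1 ≤ hh M π y0 i a b c → 1 ≤ hh M π y0 j a b c → i = j

/-- B12: medians exist and the relation is symmetric. -/
def stB12 : Prop := ∀ (X I : Type) (M : PM X) (Y : I → Set X) (ρ : ℝ) (π : I → X → X)
  (y0 : I → X), 20 ≤ ρ → TH M Y → Pr M Y π y0 →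
  (∀ a b c : Co Y ρ, ∃ p, Med M π y0 a b c p) ∧
  (∀ a b c p : Co Y ρ, Med M π y0 a b c p → Med M π y0 b a c p) ∧
  (∀ a b c p : Co Y ρ, Med M π y0 a b c p → Med M π y0 b c a p)

/-- B13: two points of the same cone are close if their gates are close at their height. -/
def stB13 : Prop := ∀ (X I : Type) (M : PM X) (Y : I → Set X) (ρ : ℝ) (π : I → X → X)
  (y0 : I → X) (hY : ∀ i, (Y i).Nonempty) (hρ : 0 ≤ ρ) (i : I) (x y p q : Co Y ρ)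
  (h h' A B : ℝ), 0 ≤ A → 0 ≤ B → At π y0 i x h p → At π y0 i y h' q → |h - h'| ≤ A →
  uu M π y0 i x y ≤ h + B → (coPM M Y ρ hY hρ).d p q ≤ 2 * A + 2 * B + 2 * Real.exp B

/-- B14: a median of bounded height is close to the median of the bases. -/
def stB14 : Prop := ∀ (X I : Type) (M : PM X) (Y : I → Set X) (ρ : ℝ) (π : I → X → X)
  (y0 : I → X) (hY : ∀ i, (Y i).Nonempty) (hρ : 0 ≤ ρ), 20 ≤ ρ → TH M Y → Pr M Y π y0 →
  ∀ (i : I) (a b c p : Co Y ρ) (H : ℝ) (o : X), H < ρ → 1 ≤ hh M π y0 i a b c →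
  hh M π y0 i a b c ≤ H → IsMu M π y0 i a b c p →
  M.gp (bt y0 a) (bt y0 b) o ≤ 1 → M.gp (bt y0 b) (bt y0 c) o ≤ 1 →
  M.gp (bt y0 a) (bt y0 c) o ≤ 1 →
  (coPM M Y ρ hY hρ).d p (Co.base o) ≤ H + 2 * Real.exp H + 3

/-- B15: ultrametric combinatorics of four points (pure inequalities, error `c = 7/10`). -/
def stB15 : Prop := ∀ (u : Fin 4 → Fin 4 → ℝ), (∀ i j, u i j = u j i) →
  (∀ i j k, u i k ≤ max (u i j) (u j k) + 7 / 10) → (∀ i j, u i i ≤ u i j) →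
  ∃ x y : Fin 3, x < y ∧
    |min (u 0 1) (min (u 1 2) (u 0 2)) - min (u x.castSucc y.castSucc)
      (min (u y.castSucc 3) (u x.castSucc 3))| ≤ 7 / 10 ∧
    ∀ p p' q q' : Fin 4, p ≠ 3 → p' ≠ 3 → p ≠ p' →
      u p p' = min (u 0 1) (min (u 1 2) (u 0 2)) →
      (q = x.castSucc ∨ q = y.castSucc ∨ q = 3) → (q' = x.castSucc ∨ q' = y.castSucc ∨ q' = 3) →
      q ≠ q' → u q q' = min (u x.castSucc y.castSucc) (min (u y.castSucc 3) (u x.castSucc 3)) →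
      u p q ≤ min (u 0 1) (min (u 1 2) (u 0 2)) + 4

/-- B16: quartet property, cone case. -/
def stB16 : Prop := ∀ (X I : Type) (M : PM X) (Y : I → Set X) (ρ : ℝ) (π : I → X → X)
  (y0 : I → X) (hY : ∀ i, (Y i).Nonempty) (hρ : 0 ≤ ρ), 20 ≤ ρ → TH M Y → Pr M Y π y0 →
  ∀ (i : I) (a b c e w : Co Y ρ), 2 ≤ hh M π y0 i a b c → Med M π y0 a b c w →
  ∃ w', (Med M π y0 a b e w' ∨ Med M π y0 b c e w' ∨ Med M π y0 a c e w') ∧
    (coPM M Y ρ hY hρ).d w w' ≤ 200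

/-- B17: replacing a far point by the gate. -/
def stB17 : Prop := ∀ (X I : Type) (M : PM X) (Y : I → Set X) (ρ : ℝ) (π : I → X → X)
  (y0 : I → X) (hY : ∀ i, (Y i).Nonempty) (hρ : 0 ≤ ρ), 20 ≤ ρ → TH M Y → Pr M Y π y0 →
  ∀ (j : I) (x z y w wp : Co Y ρ), uu M π y0 j x z ≤ 2 → 5 ≤ uu M π y0 j x y →
  Med M π y0 x z y w → Med M π y0 x z (Co.base (π j (bt y0 x))) wp →
  (coPM M Y ρ hY hρ).d w wp ≤ 200

/-- B18: quartet property. -/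
def stB18 : Prop := ∀ (X I : Type) (M : PM X) (Y : I → Set X) (ρ : ℝ) (π : I → X → X)
  (y0 : I → X) (hY : ∀ i, (Y i).Nonempty) (hρ : 0 ≤ ρ), 20 ≤ ρ → TH M Y → Pr M Y π y0 →
  ∀ (a b c e w : Co Y ρ), Med M π y0 a b c w →
  ∃ w', (Med M π y0 a b e w' ∨ Med M π y0 b c e w' ∨ Med M π y0 a c e w') ∧
    (coPM M Y ρ hY hρ).d w w' ≤ 1000

/-- B19: short sides. -/
def stB19 : Prop := ∀ (X I : Type) (M : PM X) (Y : I → Set X) (ρ : ℝ) (π : I → X → X)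
  (y0 : I → X) (hY : ∀ i, (Y i).Nonempty) (hρ : 0 ≤ ρ), 20 ≤ ρ → TH M Y → Pr M Y π y0 →
  ∀ (a b c w : Co Y ρ), (coPM M Y ρ hY hρ).d a b ≤ 2 → Med M π y0 a b c w →
    (coPM M Y ρ hY hρ).d a w ≤ 1000

/-- B20: THE CONE-OFF THEOREM: universal hyperbolicity constant, and medians have bounded
Gromov products. -/
def stB20 : Prop := ∃ δ T : ℝ, 1 ≤ δ ∧ 1 ≤ T ∧ ∀ (X I : Type) (M : PM X) (Y : I → Set X) (ρ : ℝ)
  (hY : ∀ i, (Y i).Nonempty) (hρ : 0 ≤ ρ), 20 ≤ ρ → TH M Y →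
  (coPM M Y ρ hY hρ).Hyp δ ∧ ∀ π y0, Pr M Y π y0 → ∀ a b c p, Med M π y0 a b c p →
    (coPM M Y ρ hY hρ).gp a b p ≤ T

end BSD
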