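import Pool.Agent.Lib.MP_8528c3_al.StB

/-!
# Burnside project, part C: the apexes of the cone-off form a rotation family.
Statements only (and the definition of the action on the cone-off).
-/

namespace BSD

/-- Rotation family: a group `G` acting by isometries on `Z`, apexes `v i` (indexed by a `G`-set),
rotation groups `R i` (fixing `i`), and angle functions `θ i` with the apex axioms. -/
structure RF {G Z I : Type} [Group G] [MulAction G Z] [MulAction G I] (M : PM Z) (v : I → Z)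
    (R : I → Subgroup G) (θ : I → Z → Z → ℝ) (ρ C : ℝ) : Prop where
  iso : ∀ (g : G) (x y : Z), M.d (g • x) (g • y) = M.d x y
  vg : ∀ (g : G) (i : I), v (g • i) = g • v i
  conj : ∀ (g : G) (i : I), ∀ h ∈ R i, g * h * g⁻¹ ∈ R (g • i)
  fix : ∀ (i : I), ∀ h ∈ R i, h • i = i
  nn : ∀ i a b, 0 ≤ θ i a b
  sy : ∀ i a b, θ i a b = θ i b a
  eqv : ∀ (g : G) i a b, θ (g • i) (g • a) (g • b) = θ i a b
  r0 : ∀ i j, i ≠ j → 2 * ρ ≤ M.d (v i) (v j)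
  r1 : ∀ i a b c, θ i a c ≤ θ i a b + θ i b c + 1 / 100
  r2 : ∀ i a b, 1 ≤ θ i a b → M.d a b = M.d a (v i) + M.d (v i) b
  r3 : ∀ i a b, C ≤ M.gp a b (v i) → θ i a b ≤ Real.exp (-(min ρ (M.gp a b (v i)) - C))
  r4 : ∀ i, ∀ h ∈ R i, h ≠ 1 → ∀ a, 100 ≤ θ i a (h • a)

/-- The action of `G` on the cone-off. -/
@[reducible] def coAct {G X I : Type} [Group G] [MulAction G X] [MulAction G I] {Y : I → Set X}
    (ρ : ℝ) (hg : ∀ (g : G) (i : I), ∀ y ∈ Y i, g • y ∈ Y (g • i)) : MulAction G (Co Y ρ) where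
  smul g p := match p with
    | Co.base x => Co.base (g • x)
    | Co.cone i y hy s h0 h1 => Co.cone (g • i) (g • y) (hg g i y hy) s h0 h1
    | Co.apex i => Co.apex (g • i)
  one_smul p := by
    cases p with
    | base x => show Co.base ((1 : G) • x) = _; rw [one_smul]
    | cone i y hy s h0 h1 =>
      show Co.cone ((1 : G) • i) ((1 : G) • y) _ s h0 h1 = _
      simp only [one_smul]
    | apex i => show Co.apex ((1 : G) • i) = _; rw [one_smul]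
  mul_smul g g' p := by
    cases p with
    | base x => show Co.base ((g * g') • x) = Co.base (g • g' • x); rw [mul_smul]
    | cone i y hy s h0 h1 =>
      show Co.cone ((g * g') • i) ((g * g') • y) _ s h0 h1 =
        Co.cone (g • g' • i) (g • g' • y) _ s h0 h1
      simp only [mul_smul]
    | apex i => show Co.apex ((g * g') • i) = Co.apex (g • g' • i); rw [mul_smul]

/-- `p` lies in the cone `i` (apex included, base excluded). -/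
def InC {X I : Type} {Y : I → Set X} {ρ : ℝ} (i : I) : Co Y ρ → Prop
  | Co.base _ => False
  | Co.cone j _ _ _ _ _ => j = i
  | Co.apex j => j = i

/-- Entries of `a` into the cone `i`. -/
def Ent {X I : Type} (M : PM X) {Y : I → Set X} {ρ : ℝ} (hY : ∀ i, (Y i).Nonempty) (hρ : 0 ≤ ρ)
    (i : I) (a : Co Y ρ) : Set X :=
  {y | y ∈ Y i ∧ ((∃ hy s h0 h1, a = Co.cone i y hy s h0 h1) ∨
    (¬ InC i a ∧ (coPM M Y ρ hY hρ).d a (Co.base y) ≤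
      (coPM M Y ρ hY hρ).d a (Co.apex i) - ρ + 1))}

/-- The unit of angle `t1 = 2 e^ρ + 2 C5 + 1`, `C5 = 2 e^(5 δ + 14)`. -/
noncomputable def tt1 (δ ρ : ℝ) : ℝ := 2 * Real.exp ρ + 2 * (2 * Real.exp (5 * δ + 14)) + 1

open Classical in
/-- Angle at the apex `i`. -/
noncomputable def thC {X I : Type} (M : PM X) {Y : I → Set X} {ρ : ℝ} (hY : ∀ i, (Y i).Nonempty)
    (hρ : 0 ≤ ρ) (δ : ℝ) (i : I) (a b : Co Y ρ) : ℝ :=
  if a = Co.apex i ∨ b = Co.apex i then 100 else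
    min 100 (sInf {t | ∃ y ∈ Ent M hY hρ i a, ∃ y' ∈ Ent M hY hρ i b, t = M.d y y'} / tt1 δ ρ)

/-- C0: the action on the cone-off is by isometries (and what it does). -/
def stC0 : Prop := ∀ (G X I : Type) [Group G] [MulAction G X] [MulAction G I] (M : PM X)
  (Y : I → Set X) (ρ : ℝ) (hY : ∀ i, (Y i).Nonempty) (hρ : 0 ≤ ρ)
  (hg : ∀ (g : G) (i : I), ∀ y ∈ Y i, g • y ∈ Y (g • i)),
  (∀ (g : G) (x y : X), M.d (g • x) (g • y) = M.d x y) →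
  letI := coAct ρ hg
  (∀ (g : G) (p q : Co Y ρ), (coPM M Y ρ hY hρ).d (g • p) (g • q) = (coPM M Y ρ hY hρ).d p q) ∧
  (∀ (g : G) (x : X), g • (Co.base x : Co Y ρ) = Co.base (g • x)) ∧
  (∀ (g : G) (i : I), g • (Co.apex i : Co Y ρ) = Co.apex (g • i)) ∧
  (∀ (g : G) (i : I) (y : X) (hy : y ∈ Y i) (s : ℝ) (h0 : 0 ≤ s) (h1 : s ≤ ρ),
    g • (Co.cone i y hy s h0 h1 : Co Y ρ) = Co.cone (g • i) (g • y) (hg g i y hy) s h0 h1) ∧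
  (∀ (g : G) (i : I) (p : Co Y ρ), InC (g • i) (g • p) ↔ InC i p) ∧
  (∀ (g : G) (p : Co Y ρ), ht (g • p) = ht p) ∧
  (∀ (g : G) (i : I) (p : Co Y ρ), hti (g • i) (g • p) = hti i p)

/-- C1: distances to an apex; entries exist. -/
def stC1 : Prop := ∀ (X I : Type) (M : PM X) (Y : I → Set X) (ρ : ℝ)
  (hY : ∀ i, (Y i).Nonempty) (hρ : 0 ≤ ρ) (i : I),
  (∀ a : Co Y ρ, ¬ InC i a → ∀ η : ℝ, 0 < η → ∃ y ∈ Y i, (coPM M Y ρ hY hρ).d a (Co.base y) ≤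
    (coPM M Y ρ hY hρ).d a (Co.apex i) - ρ + η) ∧
  (∀ y ∈ Y i, (coPM M Y ρ hY hρ).d (Co.base y) (Co.apex i) = ρ) ∧
  (∀ y hy s h0 h1, (coPM M Y ρ hY hρ).d (Co.cone i y hy s h0 h1) (Co.apex i) = ρ - s) ∧
  (∀ a : Co Y ρ, a ≠ Co.apex i → (Ent M hY hρ i a).Nonempty)

/-- C2: entry lemma. -/
def stC2 : Prop := ∀ (X I : Type) (M : PM X) (Y : I → Set X) (ρ δ K : ℝ)
  (hY : ∀ i, (Y i).Nonempty) (hρ : 0 ≤ ρ), (coPM M Y ρ hY hρ).Hyp δ → 0 ≤ δ → 0 ≤ K →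
  K + 2 * δ < 2 * ρ → ∀ (i : I) (a : Co Y ρ), ∀ y ∈ Y i, ∀ y' ∈ Y i,
  (coPM M Y ρ hY hρ).d a (Co.base y) ≤ (coPM M Y ρ hY hρ).d a (Co.apex i) - ρ + K →
  (coPM M Y ρ hY hρ).d a (Co.base y') ≤ (coPM M Y ρ hY hρ).d a (Co.apex i) - ρ + K →
  M.d y y' ≤ 2 * Real.exp ((K + 2 * δ) / 2)

/-- C3: axiom (r3). -/
def stC3 : Prop := ∀ (X I : Type) (M : PM X) (Y : I → Set X) (ρ δ : ℝ)
  (hY : ∀ i, (Y i).Nonempty) (hρ : 0 ≤ ρ), (coPM M Y ρ hY hρ).Hyp δ → 1 ≤ δ →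
  1000 * δ + 1000 ≤ ρ → ∀ (i : I) (a b : Co Y ρ),
  (∀ y ∈ Ent M hY hρ i a, ∀ y' ∈ Ent M hY hρ i b,
    2 * δ + 1 ≤ (coPM M Y ρ hY hρ).gp a b (Co.apex i) →
    M.d y y' ≤ 2 * Real.exp (ρ - min ρ ((coPM M Y ρ hY hρ).gp a b (Co.apex i)) + 2 * δ + 1)) ∧
  (2 * δ + 1 ≤ (coPM M Y ρ hY hρ).gp a b (Co.apex i) → thC M hY hρ δ i a b ≤
    Real.exp (-(min ρ ((coPM M Y ρ hY hρ).gp a b (Co.apex i)) - (2 * δ + 1))))

/-- C4: axiom (r2), exactness. -/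
def stC4 : Prop := ∀ (X I : Type) (M : PM X) (Y : I → Set X) (ρ δ : ℝ)
  (hY : ∀ i, (Y i).Nonempty) (hρ : 0 ≤ ρ), (coPM M Y ρ hY hρ).Hyp δ →
  (coPM M Y ρ hY hρ).SG 2 → 1 ≤ δ → 1000 * δ + 1000 ≤ ρ → ∀ (i : I) (a b : Co Y ρ),
  1 ≤ thC M hY hρ δ i a b → (coPM M Y ρ hY hρ).d a b =
    (coPM M Y ρ hY hρ).d a (Co.apex i) + (coPM M Y ρ hY hρ).d (Co.apex i) b

/-- C5: axiom (r1), positivity and symmetry of the angle. -/
def stC5 : Prop := ∀ (X I : Type) (M : PM X) (Y : I → Set X) (ρ δ : ℝ)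
  (hY : ∀ i, (Y i).Nonempty) (hρ : 0 ≤ ρ), (coPM M Y ρ hY hρ).Hyp δ → 1 ≤ δ →
  1000 * δ + 1000 ≤ ρ → ∀ (i : I),
  (∀ a b : Co Y ρ, 0 ≤ thC M hY hρ δ i a b) ∧
  (∀ a b : Co Y ρ, thC M hY hρ δ i a b = thC M hY hρ δ i b a) ∧
  (∀ a b c : Co Y ρ, thC M hY hρ δ i a c ≤ thC M hY hρ δ i a b + thC M hY hρ δ i b c + 1 / 100)

/-- C6: assembly, the apexes form a rotation family. -/
def stC6 : Prop := ∀ (G X I : Type) [Group G] [MulAction G X] [MulAction G I] (M : PM X)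
  (Y : I → Set X) (ρ δ : ℝ) (hY : ∀ i, (Y i).Nonempty) (hρ : 0 ≤ ρ)
  (hg : ∀ (g : G) (i : I), ∀ y ∈ Y i, g • y ∈ Y (g • i)) (R : I → Subgroup G),
  (∀ (g : G) (x y : X), M.d (g • x) (g • y) = M.d x y) →
  (coPM M Y ρ hY hρ).Hyp δ → (coPM M Y ρ hY hρ).SG 2 → 1 ≤ δ → 1000 * δ + 1000 ≤ ρ →
  (∀ (g : G) (i : I), ∀ h ∈ R i, g * h * g⁻¹ ∈ R (g • i)) →
  (∀ (i : I), ∀ h ∈ R i, h • i = i) →
  (∀ (i : I), ∀ h ∈ R i, h ≠ 1 → ∀ y ∈ Y i, 101 * tt1 δ ρ ≤ M.d y (h • y)) →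
  letI := coAct ρ hg
  RF (coPM M Y ρ hY hρ) (fun i => (Co.apex i : Co Y ρ)) R (thC M hY hρ δ) ρ (2 * δ + 1)

/-- C7: gates and entries. -/
def stC7 : Prop := ∀ (X I : Type) (M : PM X) (Y : I → Set X) (ρ δ T : ℝ)
  (hY : ∀ i, (Y i).Nonempty) (hρ : 0 ≤ ρ) (π : I → X → X) (y0 : I → X), 20 ≤ ρ → TH M Y →
  Pr M Y π y0 → (coPM M Y ρ hY hρ).Hyp δ → 1 ≤ δ → 1 ≤ T →
  (∀ a b c p, Med M π y0 a b c p → (coPM M Y ρ hY hρ).gp a b p ≤ T) → T + 1 + δ < ρ →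
  ∀ (i : I) (a : X), (∀ y ∈ Ent M hY hρ i (Co.base a : Co Y ρ),
    M.d y (π i a) ≤ 2 * Real.exp (T + 1 + δ)) ∧
  (∀ b : X, thC M hY hρ δ i (Co.base a : Co Y ρ) (Co.base b) ≤
    (M.d (π i a) (π i b) + 4 * Real.exp (T + 1 + δ)) / tt1 δ ρ)

end BSD
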