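import Pool.Agent.Lib.MP_8528c3_al.StC

/-!
# Burnside project, part D: windmills, the quotient by a rotation family.
Statements only (and the definition of the quotient pseudo-metric).
-/

namespace BSD

-- D1 (chain lemma) is `stE0` in StE.lean.

/-- D2: interpolation along an exact chain. -/
def stD2 : Prop := ∀ (Z : Type) (M : PM Z) (δ : ℝ) (m : ℕ) (p : ℕ → Z), M.Hyp δ → M.SG 2 →
  M.d (p 0) (p (m + 1)) = ∑ l ∈ Finset.range (m + 1), M.d (p l) (p (l + 1)) →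
  ∀ v, ∃ l ≤ m, M.gp (p l) (p (l + 1)) v ≤ M.gp (p 0) (p (m + 1)) v + 2 * δ + 5

/-- Windmill setting. -/
structure WS {G Z I : Type} [Group G] [MulAction G Z] [MulAction G I] (M : PM Z) (v : I → Z)
    (R : I → Subgroup G) (θ : I → Z → Z → ℝ) (ρ C δ : ℝ) : Prop where
  rf : RF M v R θ ρ C
  hyp : M.Hyp δ
  sg : M.SG 2
  hδ : 1 ≤ δ
  hC : 0 ≤ C
  hρ : 1000 * δ + 100 * C + 1000 ≤ ρ

/-- The normal subgroup generated by the rotation groups. -/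
def KK {G I : Type} [Group G] (R : I → Subgroup G) : Subgroup G :=
  Subgroup.closure {h | ∃ i, h ∈ R i}

/-- Windmill groups (with `σ = 10 δ + 10`). -/
def KN {G Z I : Type} [Group G] (M : PM Z) (v : I → Z) (R : I → Subgroup G) (ρ δ : ℝ) (x : Z)
    (N : ℕ) : Subgroup G :=
  Subgroup.closure {h | ∃ i, h ∈ R i ∧ M.d x (v i) < ρ + N * (10 * δ + 10)}

/-- New apexes. -/
def JN {G Z I : Type} [Group G] [MulAction G Z] (M : PM Z) (v : I → Z) (R : I → Subgroup G)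
    (ρ δ : ℝ) (x : Z) (N : ℕ) : Set I :=
  {j | (∃ k ∈ KN M v R ρ δ x N, M.d (k • x) (v j) < ρ + (N + 1 : ℕ) * (10 * δ + 10)) ∧
    ∀ k ∈ KN M v R ρ δ x N, ρ + N * (10 * δ + 10) ≤ M.d (k • x) (v j)}

/-- The induction hypothesis `W(N)` (with `C_s = 5 δ + 5`). -/
def WN {G Z I : Type} [Group G] [MulAction G Z] (M : PM Z) (v : I → Z) (R : I → Subgroup G)
    (ρ δ : ℝ) (x : Z) (N : ℕ) : Prop :=
  ∀ k ∈ KN M v R ρ δ x N, ∀ (i : I) (s : ℝ), 0 ≤ s →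
    (∀ k' ∈ KN M v R ρ δ x N, ρ + N * (10 * δ + 10) + s ≤ M.d (k' • x) (v i)) →
    ρ + s / 2 - (5 * δ + 5) ≤ M.gp x (k • x) (v i)

/-- `k = h_1 ... h_m k'` with `m ≥ 1`, `h_l ∈ R j_l \ 1`, `j_l ∈ J_N`, `j_l ≠ j_(l+1)`, `k' ∈ K_N`,
and `j_1 = j`. -/
inductive NFj {G Z I : Type} [Group G] [MulAction G Z] (M : PM Z) (v : I → Z)
    (R : I → Subgroup G) (ρ δ : ℝ) (x : Z) (N : ℕ) : I → G → Prop
  | one (j : I) (h k' : G) (hj : j ∈ JN M v R ρ δ x N) (hh : h ∈ R j) (h1 : h ≠ 1)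
      (hk : k' ∈ KN M v R ρ δ x N) : NFj M v R ρ δ x N j (h * k')
  | cons (j j' : I) (h k : G) (hj : j ∈ JN M v R ρ δ x N) (hh : h ∈ R j) (h1 : h ≠ 1)
      (hk : NFj M v R ρ δ x N j' k) (hne : j ≠ j') : NFj M v R ρ δ x N j (h * k)

/-- Vertices of the chains, up to translation. -/
def InS {G Z I : Type} [Group G] [MulAction G Z] (M : PM Z) (v : I → Z) (R : I → Subgroup G)
    (ρ δ : ℝ) (x : Z) (N : ℕ) (a : Z) : Prop :=
  (∃ k ∈ KN M v R ρ δ x N, a = k • x) ∨ ∃ j ∈ JN M v R ρ δ x N, a = v j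

/-- D3: normal form. -/
def stD3 : Prop := ∀ (G Z I : Type) [Group G] [MulAction G Z] [MulAction G I] (M : PM Z)
  (v : I → Z) (R : I → Subgroup G) (θ : I → Z → Z → ℝ) (ρ C δ : ℝ), WS M v R θ ρ C δ →
  ∀ (x : Z) (N : ℕ),
  (∀ j ∈ JN M v R ρ δ x N, ∀ h ∈ R j, h ∈ KN M v R ρ δ x (N + 1)) ∧
  (∀ k ∈ KN M v R ρ δ x N, k ∈ KN M v R ρ δ x (N + 1)) ∧
  (∀ k ∈ KK R, ∃ n, k ∈ KN M v R ρ δ x n) ∧
  (∀ k ∈ KN M v R ρ δ x (N + 1), k ∈ KN M v R ρ δ x N ∨ ∃ j, NFj M v R ρ δ x N j k)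

/-- D4: exactness of the chain of a normal form. -/
def stD4 : Prop := ∀ (G Z I : Type) [Group G] [MulAction G Z] [MulAction G I] (M : PM Z)
  (v : I → Z) (R : I → Subgroup G) (θ : I → Z → Z → ℝ) (ρ C δ : ℝ), WS M v R θ ρ C δ →
  ∀ (x : Z) (N : ℕ), WN M v R ρ δ x N → ∀ (j : I) (k : G), NFj M v R ρ δ x N j k →
  j ∈ JN M v R ρ δ x N ∧ 90 ≤ θ j x (k • x) ∧
  (∃ h ∈ R j, ρ - (7 * δ + 5) ≤ M.gp x ((h * k) • x) (v j)) ∧
  (∀ j' ∈ JN M v R ρ δ x N, j' ≠ j →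
    M.d (v j') (k • x) = M.d (v j') (v j) + M.d (v j) (k • x)) ∧
  ∃ (m : ℕ) (p : ℕ → Z), p 0 = x ∧ p (m + 1) = k • x ∧
    M.d x (k • x) = ∑ l ∈ Finset.range (m + 1), M.d (p l) (p (l + 1)) ∧
    ∀ l ≤ m, ∃ g ∈ KN M v R ρ δ x (N + 1), ∃ a b, p l = g • a ∧ p (l + 1) = g • b ∧
      InS M v R ρ δ x N a ∧ InS M v R ρ δ x N b

/-- D5: `W(0)`. -/
def stD5 : Prop := ∀ (G Z I : Type) [Group G] [MulAction G Z] [MulAction G I] (M : PM Z)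
  (v : I → Z) (R : I → Subgroup G) (θ : I → Z → Z → ℝ) (ρ C δ : ℝ), WS M v R θ ρ C δ →
  ∀ (x : Z), WN M v R ρ δ x 0 ∧
    ∀ k ∈ KN M v R ρ δ x 0, k ≠ 1 → ∃ i, k ∈ R i ∧ M.d x (v i) < ρ

/-- D6: `W(N)` implies `W(N+1)`. -/
def stD6 : Prop := ∀ (G Z I : Type) [Group G] [MulAction G Z] [MulAction G I] (M : PM Z)
  (v : I → Z) (R : I → Subgroup G) (θ : I → Z → Z → ℝ) (ρ C δ : ℝ), WS M v R θ ρ C δ →
  ∀ (x : Z) (N : ℕ), WN M v R ρ δ x N → WN M v R ρ δ x (N + 1)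

/-- D7: Greendlinger lemma. -/
def stD7 : Prop := ∀ (G Z I : Type) [Group G] [MulAction G Z] [MulAction G I] (M : PM Z)
  (v : I → Z) (R : I → Subgroup G) (θ : I → Z → Z → ℝ) (ρ C δ : ℝ), WS M v R θ ρ C δ →
  ∀ g ∈ KK R, g ≠ 1 → ∀ x : Z,
  ((∃ i, g ∈ R i ∧ M.d x (v i) < ρ) ∨
    (∃ i, ∃ h ∈ R i, ρ ≤ M.d x (v i) ∧ 90 ≤ θ i x (g • x) ∧
      ρ - (7 * δ + 5) ≤ M.gp x ((h * g) • x) (v i))) ∧
  (∃ i, ∃ h ∈ R i, 90 ≤ θ i x (g • x) ∧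
    (h * g = 1 ∨ M.d x ((h * g) • x) ≤ M.d x (g • x) - 2 * (ρ - (7 * δ + 5))))

/-- The quotient pseudo-metric, as a bare function. -/
noncomputable def dqf {G Z : Type} [Group G] [MulAction G Z] (M : PM Z) (K : Subgroup G)
    (x y : Z) : ℝ := sInf {t | ∃ k ∈ K, t = M.d x (k • y)}

theorem dqf_bdd {G Z : Type} [Group G] [MulAction G Z] (M : PM Z) (K : Subgroup G) (x y : Z) :
    BddBelow {t | ∃ k ∈ K, t = M.d x (k • y)} :=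
  ⟨0, by rintro t ⟨k, _, rfl⟩; exact M.nonneg _ _⟩

theorem dqf_ne {G Z : Type} [Group G] [MulAction G Z] (M : PM Z) (K : Subgroup G) (x y : Z) :
    {t | ∃ k ∈ K, t = M.d x (k • y)}.Nonempty := ⟨_, 1, K.one_mem, rfl⟩

theorem dqf_le {G Z : Type} [Group G] [MulAction G Z] (M : PM Z) (K : Subgroup G) (x y : Z)
    {k : G} (hk : k ∈ K) : dqf M K x y ≤ M.d x (k • y) :=
  csInf_le (dqf_bdd M K x y) ⟨k, hk, rfl⟩

theorem le_dqf {G Z : Type} [Group G] [MulAction G Z] (M : PM Z) (K : Subgroup G) (x y : Z)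
    {c : ℝ} (h : ∀ k ∈ K, c ≤ M.d x (k • y)) : c ≤ dqf M K x y :=
  le_csInf (dqf_ne M K x y) (by rintro t ⟨k, hk, rfl⟩; exact h k hk)

theorem dqf_approx {G Z : Type} [Group G] [MulAction G Z] (M : PM Z) (K : Subgroup G) (x y : Z)
    {η : ℝ} (hη : 0 < η) : ∃ k ∈ K, M.d x (k • y) < dqf M K x y + η := by
  obtain ⟨t, ⟨k, hk, rfl⟩, h⟩ := exists_lt_of_csInf_lt (dqf_ne M K x y)
    (lt_add_of_pos_right (dqf M K x y) hη)
  exact ⟨k, hk, h⟩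

/-- The quotient pseudo-metric `dq(x,y) = inf over k in K of d(x, k y)` (on `Z` itself). -/
noncomputable def dqPM {G Z : Type} [Group G] [MulAction G Z] (M : PM Z) (K : Subgroup G)
    (iso : ∀ (g : G) (x y : Z), M.d (g • x) (g • y) = M.d x y) : PM Z where
  d := dqf M K
  self x := by
    refine le_antisymm ?_ (le_dqf M K x x fun k _ => M.nonneg _ _)
    have h := dqf_le M K x x K.one_mem
    rwa [one_smul, M.self] at h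
  symm x y := by
    have key : ∀ x y : Z, dqf M K x y ≤ dqf M K y x := by
      intro x y
      refine le_dqf M K y x fun k hk => ?_
      have h := dqf_le M K x y (K.inv_mem hk)
      rw [← iso k x (k⁻¹ • y), smul_inv_smul, M.symm] at h
      exact h
    exact le_antisymm (key x y) (key y x)
  tri x y z := by
    refine le_of_forall_pos_le_add fun η hη => ?_
    obtain ⟨k, hk, h1⟩ := dqf_approx M K x y (half_pos hη)
    obtain ⟨k', hk', h2⟩ := dqf_approx M K y z (half_pos hη)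
    have h3 := dqf_le M K x z (K.mul_mem hk hk')
    have h4 := M.tri x (k • y) ((k * k') • z)
    rw [mul_smul, iso k y (k' • z)] at h4
    rw [mul_smul] at h3
    linarith

/-- D8: basic properties of the quotient pseudo-metric. -/
def stD8 : Prop := ∀ (G Z I : Type) [Group G] [MulAction G Z] [MulAction G I] (M : PM Z)
  (v : I → Z) (R : I → Subgroup G) (θ : I → Z → Z → ℝ) (ρ C δ : ℝ), WS M v R θ ρ C δ →
  (KK R).Normal ∧ ∀ iso : ∀ (g : G) (x y : Z), M.d (g • x) (g • y) = M.d x y,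
  (∀ (g : G) (x y : Z), (dqPM M (KK R) iso).d (g • x) (g • y) = (dqPM M (KK R) iso).d x y) ∧
  (∀ k ∈ KK R, ∀ x y : Z, (dqPM M (KK R) iso).d x (k • y) = (dqPM M (KK R) iso).d x y) ∧
  (∀ x y : Z, (dqPM M (KK R) iso).d x y ≤ M.d x y) ∧
  (dqPM M (KK R) iso).SG 2 ∧
  (∀ i j : I, (∀ k ∈ KK R, k • i ≠ j) → 2 * ρ ≤ (dqPM M (KK R) iso).d (v i) (v j))

/-- D9: lifting 4-cycles. -/
def stD9 : Prop := ∀ (G Z I : Type) [Group G] [MulAction G Z] [MulAction G I] (M : PM Z)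
  (v : I → Z) (R : I → Subgroup G) (θ : I → Z → Z → ℝ) (ρ C δ : ℝ), WS M v R θ ρ C δ →
  ∀ (x1 x2 x3 x4 : Z) (ε : ℝ), 0 < ε → ∃ k2 ∈ KK R, ∃ k3 ∈ KK R, ∃ k4 ∈ KK R,
  M.d x1 (k2 • x2) ≤ dqf M (KK R) x1 x2 + ε ∧
  M.d (k2 • x2) (k3 • x3) ≤ dqf M (KK R) x2 x3 + ε ∧
  M.d (k3 • x3) (k4 • x4) ≤ dqf M (KK R) x3 x4 + ε ∧
  M.d (k4 • x4) x1 ≤ dqf M (KK R) x4 x1 + ε

/-- D10: the quotient is hyperbolic with the SAME constant. -/
def stD10 : Prop := ∀ (G Z I : Type) [Group G] [MulAction G Z] [MulAction G I] (M : PM Z)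
  (v : I → Z) (R : I → Subgroup G) (θ : I → Z → Z → ℝ) (ρ C δ : ℝ), WS M v R θ ρ C δ →
  ∀ iso : ∀ (g : G) (x y : Z), M.d (g • x) (g • y) = M.d x y, (dqPM M (KK R) iso).Hyp δ

/-- D11: unshortenable pairs. -/
def stD11 : Prop := ∀ (G Z I : Type) [Group G] [MulAction G Z] [MulAction G I] (M : PM Z)
  (v : I → Z) (R : I → Subgroup G) (θ : I → Z → Z → ℝ) (ρ C δ : ℝ), WS M v R θ ρ C δ →
  ∀ a b : Z, (∀ i, θ i a b ≤ 10) → dqf M (KK R) a b = M.d a b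

/-- D12: two good lifts. -/
def stD12 : Prop := ∀ (G Z I : Type) [Group G] [MulAction G Z] [MulAction G I] (M : PM Z)
  (v : I → Z) (R : I → Subgroup G) (θ : I → Z → Z → ℝ) (ρ C δ : ℝ), WS M v R θ ρ C δ →
  ∀ (a b : Z) (C' : ℝ), ∀ k ∈ KK R, k ≠ 1 → 0 ≤ C' → M.d a (k • b) ≤ dqf M (KK R) a b + C' →
  C' / 2 + δ < ρ - (7 * δ + 5) →
  ((∃ i, k ∈ R i ∧ M.d b (v i) < ρ ∧ (M.gp a b (v i) = 0 ∨ M.gp a (k • b) (v i) = 0)) ∨
    (∃ i, ∃ h ∈ R i, ρ ≤ M.d b (v i) ∧ 90 ≤ θ i b (k • b) ∧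
      ρ - (7 * δ + 5) ≤ M.gp b ((h * k) • b) (v i) ∧ M.gp a b (v i) ≤ C' / 2 + δ ∧
      (M.gp a b (v i) = 0 ∨ M.gp a (k • b) (v i) = 0))) ∧
  ∃ i, min (M.gp a b (v i)) (M.gp a (k • b) (v i)) ≤ C' / 2 + δ

/-- D12b: two good lifts, stronger form: `(a|b)_(v i)` is small also in case (alpha). -/
def stD12b : Prop := ∀ (G Z I : Type) [Group G] [MulAction G Z] [MulAction G I] (M : PM Z)
  (v : I → Z) (R : I → Subgroup G) (θ : I → Z → Z → ℝ) (ρ C δ : ℝ), WS M v R θ ρ C δ →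
  ∀ (a b : Z) (C' : ℝ), ∀ k ∈ KK R, k ≠ 1 → 0 ≤ C' → M.d a (k • b) ≤ dqf M (KK R) a b + C' →
  C' / 2 + δ < ρ - (7 * δ + 5) →
  (∃ i, k ∈ R i ∧ M.d b (v i) < ρ ∧ M.gp a b (v i) ≤ C' / 2 ∧
      (M.gp a b (v i) = 0 ∨ M.gp a (k • b) (v i) = 0)) ∨
    (∃ i, ∃ h ∈ R i, ρ ≤ M.d b (v i) ∧ 90 ≤ θ i b (k • b) ∧
      ρ - (7 * δ + 5) ≤ M.gp b ((h * k) • b) (v i) ∧ M.gp a b (v i) ≤ C' / 2 + δ ∧
      (M.gp a b (v i) = 0 ∨ M.gp a (k • b) (v i) = 0))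

/-- D13: an element fixing two apexes of the quotient is trivial in the quotient. -/
def stD13 : Prop := ∀ (G Z I : Type) [Group G] [MulAction G Z] [MulAction G I] (M : PM Z)
  (v : I → Z) (R : I → Subgroup G) (θ : I → Z → Z → ℝ) (ρ C δ : ℝ), WS M v R θ ρ C δ →
  (∀ (g : G) (i j : I), i ≠ j → g • i = i → g • j = j → g = 1) →
  ∀ (g : G) (i j : I), (∀ k ∈ KK R, k • i ≠ j) → (∃ k ∈ KK R, g • i = k • i) →
  (∃ k ∈ KK R, g • j = k • j) → g ∈ KK R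

end BSD
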